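import Pool.Agent.GMN.JRS1
import Pool.Agent.GMN.Scale

/-!
# GMJR/JW (helper97): the names of the hidden vertex of a step, `|Rf| ≥ 2`, interface for the assembly of `RecOut`

`Wt` = proper subsets `W` of the reference vertices; `mx W` : `W` misses one vertex (the names are LIST names, ranks `b : Fin M`
of the traces in the public set of the face of the client, `cfR`), the other types carry KEYS (`Nk`).
`Vis W t w` = what is visible at the type `W` : coins through `pz`, exact vertices off `Rf \ W` and off the client's own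
vertex, cells of `Rf \ W`, node.
-/

set_option autoImplicit false
set_option linter.unusedSectionVars false

namespace Pool.Agent.GMJR

open Finset Pool.Agent.PWZ Pool.Agent.M3 Pool.Agent.M3.TS Pool.Agent.GM Pool.Agent.GMN

noncomputable section

instance inhSum {Nk : Type} [Inhabited Nk] {M : ℕ} : Inhabited (Nk ⊕ Fin M) := ⟨.inl default⟩

/-- types of names -/
abbrev WTy (K : Type) [Fintype K] [DecidableEq K] : Type := {W : Finset K // W ≠ univ}

/-- the type `univ - u` of the lists of the owner `u` -/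
def tyL {K : Type} [Fintype K] [DecidableEq K] (u : K) : WTy K := ⟨univ.erase u, fun h => by
  have := mem_univ u
  rw [← h] at this
  exact notMem_erase u univ this⟩

/-- list type -/
def mxW {K : Type} [Fintype K] [DecidableEq K] (W : WTy K) : Prop := ∃ u, W = tyL u

variable {ι Om Ξ Pt V Γ κ : Type} [Fintype ι] [DecidableEq ι] [Fintype Om] [Fintype Ξ] [Fintype Pt]
  [Fintype V] {S : Sys ι Om Ξ Pt V Γ κ} {β : Type}

/-- same visible data at the type `W` and the time `t` -/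
def Vis (D : StepIn S β) (W : Finset {j // j ∈ D.Rf}) (t : ℕ) (v w : Om) : Prop :=
  D.pz (S.xi v) = D.pz (S.xi w) ∧ (∀ j, j ≠ D.v → (∀ h : j ∈ D.Rf, (⟨j, h⟩ : {j // j ∈ D.Rf}) ∈ W) → S.x v j = S.x w j) ∧
    (∀ j : {j // j ∈ D.Rf}, S.cl t (S.x v j.1) = S.cl t (S.x w j.1)) ∧ S.gm t v = S.gm t w

/-- the reference of a system of names -/
def rfJ {D : StepIn S β} {M : ℕ} (hM : 0 < M) {Nk : Type} (𝔳 : WTy {j // j ∈ D.Rf} → Nk ⊕ Fin M) : Rk ι M :=
  open Classical in fun j => if h : j ∈ D.Rf then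
    (match 𝔳 (tyL ⟨j, h⟩) with
      | .inl _ => ⟨0, hM⟩
      | .inr b => b) else ⟨0, hM⟩

/-- THE NAMES of the hidden vertex of the step `D`; `Bn` = bound of the sums over the siblings, `qb` = probability of bad
vertices, `aw` = waiting mass, `kap` = price of the closeness -/
structure JW (D : StepIn S β) (M : ℕ) (hM : 0 < M) (Nk : Type) [Fintype Nk] [DecidableEq Nk] [Inhabited Nk]
    (kap Bn qb aw : ℝ) where
  /-- the vertex has all the names of the system -/
  has : ℕ → Om → (WTy {j // j ∈ D.Rf} → Nk ⊕ Fin M) → Prop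
  /-- good -/
  G : ℕ → Om → Prop
  /-- relative densities -/
  d : ℕ → WTy {j // j ∈ D.Rf} × (WTy {j // j ∈ D.Rf} → Nk ⊕ Fin M) → Om → ℝ
  d0 : ∀ t x w, 0 ≤ d t x w
  d_vis : ∀ t x v w, Vis D x.1.1 t v w → d t x v = d t x w
  /-- only ranks of traces of the public set have a positive density at a list type -/
  d_some : ∀ t x w, d t x w ≠ 0 → ∀ u, x.1 = tyL u → ∃ b : Fin M, x.2 x.1 = .inr b ∧
    ∃ s, cfR D M u.1 b t (S.gm t w) (S.x w) = some s
  cum : ∀ t w r, (∃ 𝔳, rfJ hM 𝔳 = r ∧ has t w 𝔳) → ∃ 𝔳, rfJ hM 𝔳 = r ∧ has (t + 1) w 𝔳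
  kap0 : 0 ≤ kap
  /-- closeness, for the knowledge of the client at every machine time -/
  clo : ∀ bl i : ℕ, i / bl ≤ S.n → ∀ 𝔳 w,
    S.P.ce (D.Kc bl i) (fun v => ind (has (i / bl) v 𝔳 ∧ G (i / bl) v)) w ≤ kap * ∏ W, d (i / bl) (GMN.res W 𝔳) w
  dl : ℝ
  dl0 : 0 < dl
  low : ∀ t ≤ S.n, ∀ w 𝔳, has t w 𝔳 → G t w → ∀ W, dl ≤ d t (GMN.res W 𝔳) w
  heavy : ∀ t ≤ S.n, ∀ w 𝔳, has t w 𝔳 → G t w → ∀ W, Sb d t (GMN.res W 𝔳) w ≤ Bn
  bad : S.P.Pr (fun w => ¬ ∀ t ≤ S.n, G t w) ≤ qb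
  aw0 : 0 ≤ aw
  /-- the true references which are not yet published -/
  wait : ∀ bl i : ℕ, i / bl ≤ S.n → ∀ r w,
    S.P.ce (D.Kc bl i) (fun v => ind (D.RTr M r (i / bl) v ∧ ¬ (∃ 𝔳, rfJ hM 𝔳 = r ∧ has (i / bl) v 𝔳) ∧ G (i / bl) v)) w ≤ aw

end

end Pool.Agent.GMJR
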