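import Pool.Agent.GMJR.WD

/-!
# GMJR/WL (helper97): LABELS of the world of one hidden vertex

For the owner `u`: `tr u t w` true list, `R u t w` raw label (function of the top, `y` off `u`, the cell of `y u`, the hidden
POINT; not cumulative), `BX u t w` box set (function of the top, `y` off `u`, the cell of `y u`, the hidden CELL), `vb u t w`
visible box set (function of the top, `y` off `u`, the cell of `y u`, the NODE; cumulative).
-/

set_option autoImplicit false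
set_option linter.unusedSectionVars false

namespace Pool.Agent.GMJR

open Finset Pool.Agent.PWZ Pool.Agent.M3 Pool.Agent.GMN

noncomputable section

/-- labels -/
structure WL {Om Tp K β X γ δ Γ : Type} [Fintype Om] [Fintype K] [DecidableEq K] [Fintype β] [Fintype X]
    (D : WD Om Tp K β X γ δ Γ) where
  tr : K → ℕ → Om → Finset ℕ
  tr_cum : ∀ u t w, tr u t w ⊆ tr u (t + 1) w
  R : K → ℕ → Om → Finset ℕ
  Rdep : ∀ u t v w, D.top v = D.top w → (∀ j, j ≠ u → D.y v j = D.y w j) → D.cl t (D.y v u) = D.cl t (D.y w u) →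
    D.hx v = D.hx w → R u t v = R u t w
  tr_sub : ∀ u, ∀ t ≤ D.n, ∀ w, tr u t w ⊆ R u t w
  n1 : ℕ
  Rcard : ∀ u, ∀ t ≤ D.n, ∀ w, (R u t w).card ≤ n1
  n2 : ℝ
  Rchg : ∀ u, ∑ t ∈ range D.n, D.P.Pr (fun w => R u (t + 1) w ≠ R u t w) ≤ n2
  BX : K → ℕ → Om → Finset ℕ
  BXdep : ∀ u t v w, D.top v = D.top w → (∀ j, j ≠ u → D.y v j = D.y w j) → D.cl t (D.y v u) = D.cl t (D.y w u) →
    D.qa (2 * t) (D.hx v) = D.qa (2 * t) (D.hx w) → BX u t v = BX u t w
  Rsub : ∀ u, ∀ t ≤ D.n, ∀ w, R u t w ⊆ BX u t w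
  M1 : ℕ
  BXcard : ∀ u, ∀ t ≤ D.n, ∀ w, (BX u t w).card ≤ M1
  vb : K → ℕ → Om → Finset ℕ
  vb_dep : ∀ u t v w, D.top v = D.top w → (∀ j, j ≠ u → D.y v j = D.y w j) → D.cl t (D.y v u) = D.cl t (D.y w u) →
    D.gm t v = D.gm t w → vb u t v = vb u t w
  vb_cum : ∀ u t w, vb u t w ⊆ vb u (t + 1) w
  tr_vb : ∀ u, ∀ t ≤ D.n, ∀ w, tr u t w ⊆ vb u t w
  M2 : ℝ
  vb_mean : ∀ u, D.P.E (fun w => ((vb u D.n w).card : ℝ)) ≤ M2

end

end Pool.Agent.GMJR
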