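import Pool.Agent.GMJR.HG
import Pool.Agent.GMJR.WL
import Pool.Agent.GMJR.JW

/-!
# GMJR/WDS0 (helper97): the world of the hidden vertex of a step: definitions (the instances: WDS, WLS; the use: JWS)

`G : HG S D.v`.  Top = (public randomness, `pz` of the coins, exact vertices off `Rf` and the client's own vertex); hidden
point = (`G.hx`, coins if some list of an owner sees more than `pz`).
* `JWD` : names of the hidden vertex in a world `WD` with labels `WL`, list names = codes `< Q`.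
-/

set_option autoImplicit false
set_option linter.unusedSectionVars false

namespace Pool.Agent.GMJR

open Finset Pool.Agent.PWZ Pool.Agent.M3 Pool.Agent.M3.TS Pool.Agent.GM Pool.Agent.GMN

noncomputable section

section defs

variable {ι Om Ξ Pt V Γ κ : Type} [Fintype ι] [DecidableEq ι] [Fintype Om] [Fintype Ξ] [Fintype Pt]
  [Fintype V] {S : Sys ι Om Ξ Pt V Γ κ} {β : Type} (D : StepIn S β) (G : HG S D.v)

/-- reference vertices -/
abbrev KS : Type := {j // j ∈ D.Rf}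

/-- tops -/
abbrev TpS : Type := G.Θ × ℕ × ({j // j ∉ D.Rf ∧ j ≠ D.v} → Pt)

/-- the top -/
def topS (w : Om) : TpS D G := (G.th w, D.pz (S.xi w), fun j => S.x w j.1)

/-- reference vertices -/
def yS (w : Om) : KS D → Pt := fun j => S.x w j.1

open Classical in
/-- the part of the coins in the hidden point -/
def aS (ξ : Ξ) : Option Ξ := if ∀ u ∈ D.Rf, (D.Lr u).Free D.pz then none else some ξ

/-- hidden points -/
abbrev XS : Type := G.X × Option Ξ

/-- the hidden point -/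
def hxS (w : Om) : XS D G := (G.hx w, aS D (S.xi w))

instance fXS : Fintype (XS D G) := @instFintypeProd _ _ G.fX _

open Classical in
/-- hidden points of a top -/
def spS (τ : TpS D G) : Finset (XS D G) := univ.filter fun x => ∃ ξ, D.pz ξ = τ.2.1 ∧ aS D ξ = x.2

/-- true lists -/
def trS (u : KS D) (t : ℕ) (w : Om) : Finset ℕ := (D.Lr u.1).at' t w

open Classical in
/-- raw labels: the lists of the nodes which are possible when the vertex `u` varies in its cell -/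
def RS (u : KS D) (t : ℕ) (w : Om) : Finset ℕ :=
  (univ.filter fun w' => topS D G w' = topS D G w ∧ (∀ j, j ≠ u → yS D w' j = yS D w j) ∧
    S.cl t (yS D w' u) = S.cl t (yS D w u) ∧ hxS D G w' = hxS D G w).biUnion fun w' => trS D u t w'

open Classical in
/-- box sets: the boxes of the pairs (cell of the hidden vertex, node) which are possible in the hidden cell -/
def BXS (u : KS D) (t : ℕ) (w : Om) : Finset ℕ :=
  (univ.filter fun w' => topS D G w' = topS D G w ∧ (∀ j, j ≠ u → yS D w' j = yS D w j) ∧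
    S.cl t (yS D w' u) = S.cl t (yS D w u) ∧
    G.qa (2 * t) (G.hx w') = G.qa (2 * t) (G.hx w)).biUnion fun w' => (D.Br u.1).at' t w'

/-- visible box sets -/
def vbS (u : KS D) (t : ℕ) (w : Om) : Finset ℕ := (D.Br u.1).cmp.at' t w

end defs

/-! ### names in a world -/

/-- THE NAMES of the hidden vertex in a world; `Q` = bound of the codes, `Bn` = bound of the sums over the siblings, `qb` =
probability of bad vertices, `aw` = waiting mass, `kap` = price of the closeness -/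
structure JWD {Om Tp K β X γ δ Γ : Type} [Fintype Om] [Fintype K] [DecidableEq K] [Fintype β] [Fintype X]
    (D : WD Om Tp K β X γ δ Γ) (L : WL D) (Q : ℕ) (Nk : Type) [Fintype Nk] [DecidableEq Nk] [Inhabited Nk]
    (kap Bn qb aw : ℝ) where
  has : ℕ → Om → (WTy K → Nk ⊕ Fin Q) → Prop
  G : ℕ → Om → Prop
  has_fac : ∀ t 𝔳 v w, D.top v = D.top w → D.y v = D.y w → D.hx v = D.hx w → (has t v 𝔳 ↔ has t w 𝔳)
  G_fac : ∀ t v w, D.top v = D.top w → D.y v = D.y w → D.hx v = D.hx w → (G t v ↔ G t w)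
  d : ℕ → WTy K × (WTy K → Nk ⊕ Fin Q) → Om → ℝ
  d0 : ∀ t x w, 0 ≤ d t x w
  d_vis : ∀ t x, Fac (D.VW x.1.1 t) (d t x)
  d_some : ∀ t x w, d t x w ≠ 0 → ∀ u, x.1 = tyL u → ∃ p : Fin Q, x.2 x.1 = .inr p ∧ p.1 ∈ L.vb u t w
  has_some : ∀ t w 𝔳, has t w 𝔳 → ∀ u, ∃ p : Fin Q, 𝔳 (tyL u) = .inr p ∧ p.1 ∈ L.vb u t w
  has_key : ∀ t w 𝔳, has t w 𝔳 → ∀ W, ¬ mxW W → ∃ k, 𝔳 W = .inl k
  cum : ∀ t w (s : K → Fin Q), (∃ 𝔳, (∀ u, 𝔳 (tyL u) = .inr (s u)) ∧ has t w 𝔳) →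
    ∃ 𝔳, (∀ u, 𝔳 (tyL u) = .inr (s u)) ∧ has (t + 1) w 𝔳
  kap0 : 0 ≤ kap
  clo : ∀ t ≤ D.n, ∀ 𝔳 w, D.P.ce (D.VW univ t) (fun v => ind (has t v 𝔳 ∧ G t v)) w ≤ kap * ∏ W, d t (GMN.res W 𝔳) w
  dl : ℝ
  dl0 : 0 < dl
  low : ∀ t ≤ D.n, ∀ w 𝔳, has t w 𝔳 → G t w → ∀ W, dl ≤ d t (GMN.res W 𝔳) w
  heavy : ∀ t ≤ D.n, ∀ w 𝔳, has t w 𝔳 → G t w → ∀ W, Sb d t (GMN.res W 𝔳) w ≤ Bn
  bad : D.P.Pr (fun w => ¬ ∀ t ≤ D.n, G t w) ≤ qb
  aw0 : 0 ≤ aw
  wait : ∀ t ≤ D.n, ∀ (s : K → ℕ) w, D.P.ce (D.VW univ t) (fun v => ind ((∀ u, s u ∈ L.tr u t v) ∧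
    ¬ (∃ 𝔳, (∀ u, ∃ p : Fin Q, p.1 = s u ∧ 𝔳 (tyL u) = .inr p) ∧ has t v 𝔳) ∧ G t v)) w ≤ aw

end

end Pool.Agent.GMJR
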