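import Pool.Agent.GMJR.WDT
import Pool.Agent.GMJR.WDS0
import Pool.Agent.GMN.CwA

/-!
# GMJR/ClsO (helper97): the names in the world of one hidden vertex, interface between (CLS, ScrD) and Cw

`ClsO D L Q Nk ..` : keys `nk` (values in `Nk`), recorded codes `Lc u` (all values recorded up to the time `t`, NOT cut by the
visible boxes), visible boxes `pc u`, good event `G0`.  `nk`, `Lc` are functions of (top, `y` on `W`, cells, hidden point),
`pc` of the view.  In the form of Cw: `nkO`, `LsO Lc`, `LsO pc`.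
-/

set_option autoImplicit false
set_option linter.unusedSectionVars false

namespace Pool.Agent.GMJR

open Finset Pool.Agent.PWZ Pool.Agent.M3 Pool.Agent.GMN

noncomputable section

theorem tyL_inj {K : Type} [Fintype K] [DecidableEq K] {u u' : K} (h : tyL u = tyL u') : u = u' := by
  have h1 : (univ : Finset K).erase u = univ.erase u' := congrArg Subtype.val h
  by_contra hne
  have h2 : u' ∈ (univ : Finset K).erase u := mem_erase.2 ⟨fun h => hne h.symm, mem_univ _⟩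
  rw [h1] at h2
  exact notMem_erase u' univ h2

/-- keys as names -/
def nkO {Om K Nk : Type} [Fintype K] [DecidableEq K] (Q : ℕ) (nk : WTy K → ℕ → Om → Nk) :
    WTy K → ℕ → Om → Nk ⊕ Fin Q := fun W t w => .inl (nk W t w)

open Classical in
/-- lists of codes as lists of names -/
def LsO {Om K : Type} [Fintype K] [DecidableEq K] (Nk : Type) {Q : ℕ} (Lc : K → ℕ → Om → Finset (Fin Q)) :
    WTy K → ℕ → Om → Finset (Nk ⊕ Fin Q) := fun W t w =>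
  (univ.filter fun u => W = tyL u).biUnion fun u => (Lc u t w).image .inr

section

variable {Om K Nk : Type} [Fintype K] [DecidableEq K] {Q : ℕ} {Lc : K → ℕ → Om → Finset (Fin Q)}

theorem mem_LsO {u : K} {t : ℕ} {w : Om} {ν : Nk ⊕ Fin Q} :
    ν ∈ LsO Nk Lc (tyL u) t w ↔ ∃ p ∈ Lc u t w, ν = .inr p := by
  classical
  unfold LsO
  rw [Finset.mem_biUnion]
  constructor
  · rintro ⟨u', hu', h⟩
    rw [mem_filter] at hu'
    have e := tyL_inj hu'.2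
    subst e
    obtain ⟨p, hp, he⟩ := Finset.mem_image.1 h
    exact ⟨p, hp, he.symm⟩
  · rintro ⟨p, hp, he⟩
    exact ⟨u, mem_filter.2 ⟨mem_univ _, rfl⟩, Finset.mem_image.2 ⟨p, hp, he.symm⟩⟩

theorem inr_mem_LsO {u : K} {t : ℕ} {w : Om} {p : Fin Q} : (Sum.inr p : Nk ⊕ Fin Q) ∈ LsO Nk Lc (tyL u) t w ↔ p ∈ Lc u t w := by
  rw [mem_LsO]
  constructor
  · rintro ⟨p', hp', he⟩
    rw [Sum.inr_injective he]
    exact hp'
  · exact fun h => ⟨p, h, rfl⟩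

theorem LsO_empty {W : WTy K} (hW : ¬ mxW W) {t : ℕ} {w : Om} : LsO Nk Lc W t w = ∅ := by
  classical
  rw [Finset.eq_empty_iff_forall_notMem]
  intro ν hν
  unfold LsO at hν
  rw [Finset.mem_biUnion] at hν
  obtain ⟨u, hu, _⟩ := hν
  rw [mem_filter] at hu
  exact hW ⟨u, hu.2⟩

theorem card_LsO {u : K} {t : ℕ} {w : Om} : (LsO Nk Lc (tyL u) t w).card = (Lc u t w).card := by
  classical
  have : LsO Nk Lc (tyL u) t w = (Lc u t w).image .inr := by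
    ext ν
    rw [mem_LsO, Finset.mem_image]
    exact ⟨fun ⟨p, hp, he⟩ => ⟨p, hp, he.symm⟩, fun ⟨p, hp, he⟩ => ⟨p, hp, he.symm⟩⟩
  rw [this]
  exact Finset.card_image_of_injective _ Sum.inr_injective

end

/-- NAMES in a world: what CLS and the rounding of the labels give -/
structure ClsO {Om Tp K β X γ δ Γ : Type} [Fintype Om] [Fintype K] [DecidableEq K] [Fintype β] [Fintype X]
    (D : WD Om Tp K β X γ δ Γ) (L : WL D) (Q : ℕ) (Nk : Type) [Fintype Nk] [DecidableEq Nk] [Inhabited Nk]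
    (h3 : ℕ) (kap n0 eps N Ent q0 aw : ℝ) where
  /-- keys -/
  nk : WTy K → ℕ → Om → Nk
  /-- recorded codes -/
  Lc : K → ℕ → Om → Finset (Fin Q)
  /-- visible boxes -/
  pc : K → ℕ → Om → Finset (Fin Q)
  G0 : ℕ → Om → Prop
  nk_fac : ∀ W t, D.FDW W.1 t (nk W t)
  Lc_fac : ∀ u t, D.FDW (univ.erase u) t (Lc u t)
  G_fac : ∀ t, D.FD (G0 t)
  past : ∀ W W' : WTy K, ∀ i v w, W' ≤ W → D.FW W.1 (i + 1) v = D.FW W.1 (i + 1) w →
    nk W' (i + 1) v = nk W' (i + 1) w → nk W' i v = nk W' i w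
  birth : ∀ W i j v w, i ≤ j → nk W i v = nk W j w → nk W i w = nk W j w
  betw : ∀ W i l j w, i ≤ l → l ≤ j → nk W i w = nk W j w → nk W l w = nk W j w
  cum : ∀ u i w, Lc u i w ⊆ Lc u (i + 1) w
  n01 : 1 ≤ n0
  card : ∀ u w, ((Lc u D.n w).card : ℝ) ≤ n0
  pc_fac : ∀ u t, Fac (D.VW (univ.erase u) t) (pc u t)
  pc_cum : ∀ u t w, pc u t w ⊆ pc u (t + 1) w
  pc_card : ∀ u w, ((pc u D.n w).card : ℝ) ≤ 2 ^ h3
  eps0 : 0 ≤ eps
  eps1 : eps ≤ (1 / 2 : ℝ) ^ h3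
  kap0 : 0 ≤ kap
  clo : ∀ t ≤ D.n, ∀ 𝔳 w, D.P.ce (D.FW univ t) (fun v => ind (hasN mxW (nkO Q nk) (LsO Nk Lc) t v 𝔳 ∧
    (t ≤ D.n ∧ G0 t v))) w ≤
    kap * ∏ W, (dRF D.P (fun W : WTy K => D.FW W.1) mxW (nkO Q nk) (LsO Nk Lc) t (GMN.res W 𝔳) w +
      (open Classical in if mxW W then eps else 0))
  nch : nCh D.P mxW (nkO Q nk) D.n ≤ N
  entN : ∀ W : WTy K, D.P.Hc (ctxN (nkO Q nk) W 0) (D.FW W.1 0) +
    ∑ t ∈ range D.n, D.P.Hc (ctxN (nkO Q nk) W (t + 1)) (fun v => (D.FW W.1 (t + 1) v, ctxN (nkO Q nk) W t v)) ≤ Ent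
  entE : ∀ W : WTy K, ¬ mxW W → D.P.Hc (ctxE (nkO Q nk) W 0) (D.FW W.1 0) +
    ∑ t ∈ range D.n, D.P.Hc (ctxE (nkO Q nk) W (t + 1)) (fun v => (D.FW W.1 (t + 1) v, ctxE (nkO Q nk) W t v)) ≤ Ent
  bad0 : D.P.Pr (fun w => ∃ t ≤ D.n, ¬ G0 t w) ≤ q0
  /-- codes of the visible boxes are codes of `vb` -/
  pc_vb : ∀ u, ∀ t, ∀ w, ∀ p ∈ pc u t w, p.1 ∈ L.vb u t w
  /-- at good points the true codes are in the visible boxes -/
  tr_pc : ∀ u, ∀ t ≤ D.n, ∀ w, G0 t w → ∀ p ∈ L.tr u t w, ∃ p' ∈ pc u t w, p'.1 = p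
  /-- waiting: true codes which are not yet recorded -/
  aw0 : 0 ≤ aw
  wait : ∀ t ≤ D.n, ∀ w, D.P.ce (D.FW univ t) (fun v => ind ((∃ u, ∃ p ∈ L.tr u t v, ∀ p' ∈ Lc u t v, p'.1 ≠ p) ∧
    G0 t v)) w ≤ aw

end

end Pool.Agent.GMJR
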