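import Pool.Agent.GMJR.ClsE
import Pool.Agent.GMJR.ClsO

/-!
# GMJR/ClsN (helper52): (F2), the keys of the hidden vertex in a world

`cW U W t` = the classes of the family `lo W` at the HD time `2 t`; `nkW U W t` = the name (GMN/Names) of the class `cW U W` for
the filtration `FW W`, frozen after `D.n`, for the types `W` which carry keys (`W ∈ JJ K`).

* `ref_cW` : the classes refine; `cW_fac` : functions of (top, `y` on `W`, cells, hidden point);
* `nkW_fac`, `nkW_past`, `nkW_birth`, `nkW_betw` : the fields of `ClsO`;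
* `nkW_iff` : in a cell of `FW W t` names and classes are the same partition;
* `not_mxW` : the types with keys are the sets of `JJ K`.
-/

set_option autoImplicit false
set_option linter.unusedSectionVars false

namespace Pool.Agent.GMJR

open Finset Pool.Agent.PWZ Pool.Agent.M3 Pool.Agent.GMN Pool.Agent.GM.Harm
open Pool.Agent.M3.S3 (avg)

noncomputable section

/-- the types with keys are the sets with classes -/
theorem not_mxW {K : Type} [Fintype K] [DecidableEq K] {W : WTy K} : ¬ mxW W ↔ W.1 ∈ JJ K := by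
  classical
  unfold JJ
  rw [Finset.mem_filter]
  have h1 : W.1.card < Fintype.card K := by
    rw [← Finset.card_univ]
    exact Finset.card_lt_card (Finset.ssubset_univ_iff.2 W.2)
  constructor
  · intro h
    refine ⟨mem_univ _, ?_⟩
    by_contra h2
    have h3 : W.1.card + 1 = Fintype.card K := by omega
    obtain ⟨u, hu⟩ : ∃ u, u ∉ W.1 := by
      by_contra hne
      push Not at hne
      exact W.2 (Finset.eq_univ_iff_forall.2 hne)
    refine h ⟨u, Subtype.ext ?_⟩
    show W.1 = univ.erase u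
    refine Finset.eq_of_subset_of_card_le (fun j hj => Finset.mem_erase.2 ⟨fun e => hu (e ▸ hj), mem_univ _⟩) ?_
    rw [Finset.card_erase_of_mem (mem_univ _), Finset.card_univ]
    omega
  · rintro ⟨_, h⟩ ⟨u, hu⟩
    have h2 : W.1 = univ.erase u := congrArg Subtype.val hu
    rw [h2, Finset.card_erase_of_mem (mem_univ _), Finset.card_univ] at h
    have h3 : 0 < Fintype.card K := Fintype.card_pos_iff.2 ⟨u⟩
    omega

theorem mem_lo_self {K : Type} [Fintype K] [DecidableEq K] {W : WTy K} (h : ¬ mxW W) : W.1 ∈ WD.lo W.1 :=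
  WD.mem_lo.2 ⟨not_mxW.1 h, Finset.Subset.refl _⟩

namespace WD

variable {Om Tp K β X γ δ Γ : Type} [Fintype Om] [Fintype K] [DecidableEq K] [Fintype β] [Fintype X]
  (D : WD Om Tp K β X γ δ Γ)

variable {φ γ' υ : Type} [Fintype φ] {H : (w0 : Om) → HD K (D.XT w0) β γ' φ}
  (U : (w0 : Om) → Finset K → ℕ → D.XT w0 → (K → β) → υ)

/-- the classes below `W` at the node time `t` -/
def cW (W : Finset K) (t : ℕ) (w : Om) : Finset K → Option υ := D.cD U (lo W) (2 * t) w

open Classical in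
/-- the keys -/
def nkW (W : WTy K) (t : ℕ) (w : Om) : Fin (D.n + 1) × Option Om :=
  if mxW W then default else nm D.P (D.FW W.1) (D.cW U W.1) D.n (min t D.n) w

variable {D U}

theorem nkW_list {W : WTy K} (hW : mxW W) (t : ℕ) (w : Om) : D.nkW U W t w = default := if_pos hW

theorem nkW_key {W : WTy K} (hW : ¬ mxW W) (t : ℕ) (w : Om) :
    D.nkW U W t w = nm D.P (D.FW W.1) (D.cW U W.1) D.n (min t D.n) w := if_neg hW

variable (hc : D.Cells H) (hs : ∀ w0, GM.Harm.Sys (H w0) (U w0))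
include hc hs

/-- the classes refine -/
theorem ref_cW (W : Finset K) : Ref (D.FW W) (D.cW U W) := by
  intro t v w h h1
  have e : 2 * (t + 1) = 2 * t + 1 + 1 := by ring
  have h2 : D.FH W (2 * t + 1 + 1) v = D.FH W (2 * t + 1 + 1) w := by
    rw [← e, D.FH_even]
    exact h
  have h3 : D.cD U (lo W) (2 * t + 1 + 1) v = D.cD U (lo W) (2 * t + 1 + 1) w := by
    rw [← e]
    exact h1
  exact ref_cD hc hs (fun I hI => (mem_lo.1 hI).2) (D.filt_FH W _ v w h2)
    (ref_cD hc hs (fun I hI => (mem_lo.1 hI).2) h2 h3)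

/-- functions of (top, `y` on `W`, cells, hidden point) -/
theorem cD_fdw {𝒟 : Finset (Finset K)} {W : Finset K} (h𝒟 : ∀ I ∈ 𝒟, I ⊆ W) (t : ℕ) :
    D.FDW W t (D.cD U 𝒟 (2 * t)) := by
  intro v w h1 h2 h3 h4
  rw [cD_eq]
  intro I hI
  have e : 2 * t / 2 = t := Nat.mul_div_cancel_left _ (by norm_num)
  rw [uI_dep hc hs (h𝒟 I hI) h1 (sp_rep h1) h2 (by rw [e]; exact h3)]
  have h5 : (⟨D.hx v, sp_rep h1⟩ : D.XT (D.rep w)) = D.hr w := Subtype.ext h4
  rw [h5]
  rfl

theorem cW_fac (W : Finset K) (t : ℕ) : D.FDW W t (D.cW U W t) := cD_fdw hc hs (fun _ hI => (mem_lo.1 hI).2) t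

omit hc hs in
theorem FW_fdw (W : Finset K) (t : ℕ) : D.FDW W t (D.FW W t) := by
  intro v w h1 h2 h3 h4
  rw [FW_eq]
  exact ⟨h1, h2, h3, by rw [h4]⟩

theorem nkW_fac (W : WTy K) (t : ℕ) : D.FDW W.1 t (D.nkW U W t) := by
  intro v w h1 h2 h3 h4
  by_cases hW : mxW W
  · rw [nkW_list hW, nkW_list hW]
  · rw [nkW_key hW, nkW_key hW]
    have h5 : ∀ j, D.cl (min t D.n) (D.y v j) = D.cl (min t D.n) (D.y w j) := fun j =>
      cl_le (min_le_left _ _) (h3 j)
    exact nm_of_cls (D.filt_FW W.1) (ref_cW hc hs W.1) (FW_fdw W.1 _ v w h1 h2 h5 h4) (cW_fac hc hs W.1 _ v w h1 h2 h5 h4)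

theorem nkW_past (W W' : WTy K) (i : ℕ) (v w : Om) (hW : W' ≤ W) (h1 : D.FW W.1 (i + 1) v = D.FW W.1 (i + 1) w)
    (h2 : D.nkW U W' (i + 1) v = D.nkW U W' (i + 1) w) : D.nkW U W' i v = D.nkW U W' i w := by
  by_cases hm : mxW W'
  · rw [nkW_list hm, nkW_list hm]
  · rw [nkW_key hm, nkW_key hm] at h2 ⊢
    have h3 : D.FW W'.1 (i + 1) v = D.FW W'.1 (i + 1) w := FW_mono (D := D) hW (i + 1) v w h1
    rcases Nat.lt_or_ge i D.n with hi | hi
    · rw [min_eq_left (by omega : i + 1 ≤ D.n)] at h2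
      rw [min_eq_left hi.le]
      exact nm_past (D.filt_FW W'.1) (ref_cW hc hs W'.1) (Nat.le_succ i) hi h3 h2
    · rw [min_eq_right (by omega : D.n ≤ i + 1)] at h2
      rw [min_eq_right hi]
      exact h2

omit hc hs in
theorem nkW_birth (W : WTy K) (i j : ℕ) (v w : Om) (hij : i ≤ j) (h : D.nkW U W i v = D.nkW U W j w) :
    D.nkW U W i w = D.nkW U W j w := by
  by_cases hm : mxW W
  · rw [nkW_list hm, nkW_list hm]
  · rw [nkW_key hm, nkW_key hm] at h ⊢
    exact nm_birth (D.filt_FW W.1) (min_le_min_right D.n hij) (min_le_right _ _) h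

omit hc hs in
theorem nkW_betw (W : WTy K) (i l j : ℕ) (w : Om) (hil : i ≤ l) (hlj : l ≤ j) (h : D.nkW U W i w = D.nkW U W j w) :
    D.nkW U W l w = D.nkW U W j w := by
  by_cases hm : mxW W
  · rw [nkW_list hm, nkW_list hm]
  · rw [nkW_key hm, nkW_key hm] at h ⊢
    exact nm_between (min_le_min_right D.n hil) (min_le_min_right D.n hlj) (min_le_right _ _) h

/-- in a cell of `FW W t` names and classes are the same partition -/
theorem nkW_iff {W : WTy K} (hW : ¬ mxW W) {t : ℕ} (ht : t ≤ D.n) {v w : Om} (hvw : D.FW W.1 t v = D.FW W.1 t w) :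
    D.nkW U W t v = D.nkW U W t w ↔ D.cW U W.1 t v = D.cW U W.1 t w := by
  rw [nkW_key hW, nkW_key hW, min_eq_left ht]
  exact ⟨fun h => cls_of_nm (D.filt_FW W.1) ht hvw h,
    fun h => nm_of_cls (D.filt_FW W.1) (ref_cW hc hs W.1) hvw h⟩

end WD

end

end Pool.Agent.GMJR
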