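import Pool.Agent.GMJR.EntN
import Pool.Agent.GMJR.ClsN

/-!
# GMJR/EntF (helper25): (F4) for the names `nkW` of GMJR/ClsN: the fields `nch`, `entN`, `entE` of `ClsO`
-/

set_option autoImplicit false
set_option linter.unusedSectionVars false

namespace Pool.Agent.GMJR

open Finset Pool.Agent.PWZ Pool.Agent.M3 Pool.Agent.GMN Pool.Agent.GM.Harm

noncomputable section

namespace WD

variable {Om Tp K β X γ δ Γ : Type} [Fintype Om] [Fintype K] [DecidableEq K] [Fintype β] [Fintype X]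
  {D : WD Om Tp K β X γ δ Γ} {φ γ' υ : Type} [Fintype φ] {H : (w0 : Om) → HD K (D.XT w0) β γ' φ}
  {U : (w0 : Om) → Finset K → ℕ → D.XT w0 → (K → β) → υ}

theorem hnk_nkW (W : WTy K) (hW : ¬ mxW W) (s : ℕ) (hs : s ≤ D.n) (t : ℕ) (ht : t ≤ D.n) (v w : Om) :
    D.nkW U W s v = D.nkW U W t w ↔ D.nmW U W.1 s v = D.nmW U W.1 t w := by
  classical
  unfold nkW nmW
  rw [if_neg hW, if_neg hW, min_eq_left hs, min_eq_left ht]
  exact Iff.rfl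

variable (hc : D.Cells H) (hs : ∀ w0, GM.Harm.Sys (H w0) (U w0)) {Q : ℕ} {Bt : ℝ} (hB0 : 0 ≤ Bt)
  (hBt : ∀ w0, ∀ I ∈ JJ K, bitsJ (H w0) (U w0) (2 * D.n) I ≤ Bt)
include hc hs hB0 hBt

/-- field `entN` -/
theorem entN_nkW (W : WTy K) : D.P.Hc (ctxN (nkO Q (D.nkW U)) W 0) (D.FW W.1 0) +
    ∑ t ∈ range D.n, D.P.Hc (ctxN (nkO Q (D.nkW U)) W (t + 1))
      (fun v => (D.FW W.1 (t + 1) v, ctxN (nkO Q (D.nkW U)) W t v)) ≤ 2 ^ Fintype.card K * Bt :=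
  entN_le hc hs hnk_nkW hB0 hBt W

/-- field `entE` -/
theorem entE_nkW (W : WTy K) (hW : ¬ mxW W) : D.P.Hc (ctxE (nkO Q (D.nkW U)) W 0) (D.FW W.1 0) +
    ∑ t ∈ range D.n, D.P.Hc (ctxE (nkO Q (D.nkW U)) W (t + 1))
      (fun v => (D.FW W.1 (t + 1) v, ctxE (nkO Q (D.nkW U)) W t v)) ≤ 2 ^ Fintype.card K * Bt :=
  entE_le hc hs hnk_nkW hB0 hBt W hW

/-- field `nch` -/
theorem nch_nkW : nCh D.P mxW (nkO Q (D.nkW U)) D.n ≤
    1 + Fintype.card (WTy K) * (2 ^ Fintype.card K * Bt / Real.log 2) :=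
  nchN_le hc hs hnk_nkW hB0 hBt

end WD

end

end Pool.Agent.GMJR
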