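import Pool.Agent.GMJR.HdT0

/-!
# GMJR/HdB (helper75): the good event and the waiting mass in the world of one hidden vertex (F5, F6)

* **`wait_FW`** (F6) : given all known points and the hidden cell, some raw label is not the recorded value: `≤ |K| al`;
* `ovf_W` : overflow of some label up to the time `2 n` : `≤ |K| ((1 + n2/al)/J + (1 + n2)/n0)`;  `vb_W` : large box sets;
* **`G0W`** (F5) : good event: no hot time (any increasing event `H`), no overflow, `|vb u t| ≤ 2^h3`; `G0W_fac`, `G0W_bad`;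
* `rec_mem` : at good times of a point which does not wait, the true list is in a recorded value.
-/

set_option autoImplicit false
set_option linter.unusedSectionVars false
set_option linter.unusedVariables false

namespace Pool.Agent.GMJR

open Finset Pool.Agent.PWZ Pool.Agent.M3 Pool.Agent.GMN
open Pool.Agent.M3.S3 (avg)
open Pool.Agent.GM (avg_mono' avg_const' avg_congr' avg_swap avg_sum' avg_add' avg_mul_const' avg_const_mul')
open Pool.Agent.GM.Harm (EV)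

noncomputable section

variable {Om Tp K β X γ δ Γ : Type} [Fintype Om] [Fintype K] [DecidableEq K] [Fintype β] [Fintype X]

namespace WD

variable {D : WD Om Tp K β X γ δ Γ} (L : WL D)

/-! ### (F6) waiting -/

theorem rcW_FD (al : ℝ) (u : K) (τ : ℕ) : D.FD (rcW L al u τ) :=
  atW_FD (D := D) fun w0 x y => ScrD.rc (D.qaT w0) (RT L w0) al u τ x y

theorem ovfW_FD (al : ℝ) (J n0 : ℕ) (u : K) (τ : ℕ) : D.FD (ovfW L al J n0 u τ) :=
  atW_FD (D := D) fun w0 x y => ovfU L al J n0 u τ w0 x y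

theorem valsW_FD (al : ℝ) (u : K) (τ : ℕ) : D.FD (valsW L al u τ) :=
  atW_FD (D := D) fun w0 x y => ScrD.vals (D.qaT w0) (RT L w0) al u τ x y

/-- WAITING of one label -/
theorem wait_one {al : ℝ} (hal : 0 < al) (u : K) {t : ℕ} (ht : t ≤ D.n) (w : Om) :
    D.P.ce (D.FW univ t) (fun v => ind (L.R u t v ≠ rcW L al u (2 * t) v)) w ≤ al := by
  have h1 : (fun v => ind (L.R u t v ≠ rcW L al u (2 * t) v)) =
      D.atW fun w0 x y => ind (RT L w0 u (2 * t) x y ≠ ScrD.rc (D.qaT w0) (RT L w0) al u (2 * t) x y) := by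
    funext v
    show ind (L.R u t v ≠ rcW L al u (2 * t) v) =
      ind (RT L (D.rep v) u (2 * t) (hr v) (D.y v) ≠ rcW L al u (2 * t) v)
    rw [RT_at' L u ht v]
  rw [h1, ce_atW]
  exact (ScrD.wait_lt hal u (2 * t) (hr w) (D.y w)).le

/-- **WAITING** -/
theorem wait_FW {al : ℝ} (hal : 0 < al) {t : ℕ} (ht : t ≤ D.n) (w : Om) :
    D.P.ce (D.FW univ t) (fun v => ind (∃ u, L.R u t v ≠ rcW L al u (2 * t) v)) w ≤ Fintype.card K * al := by
  classical
  have h1 : D.P.ce (D.FW univ t) (fun v => ind (∃ u, L.R u t v ≠ rcW L al u (2 * t) v)) w ≤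
      D.P.ce (D.FW univ t) (fun v => ∑ u, ind (L.R u t v ≠ rcW L al u (2 * t) v)) w := by
    refine D.P.ce_mono (fun v _ => ?_) w
    have h2 := FP.ind_ex_le (univ : Finset K) fun u => L.R u t v ≠ rcW L al u (2 * t) v
    refine le_trans (le_of_eq ?_) h2
    congr 1
    apply propext
    exact ⟨fun ⟨u, hu⟩ => ⟨u, Finset.mem_univ u, hu⟩, fun ⟨u, _, hu⟩ => ⟨u, hu⟩⟩
  refine h1.trans ?_
  rw [D.P.ce_sum]
  refine (Finset.sum_le_sum fun u _ => wait_one L hal u ht w).trans ?_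
  rw [Finset.sum_const, Finset.card_univ, nsmul_eq_mul]

/-- at a point which does not wait the true list is in the recorded value -/
theorem rec_mem {al : ℝ} {u : K} {t : ℕ} (ht : t ≤ D.n) {w : Om} (h : ¬ L.R u t w ≠ rcW L al u (2 * t) w) :
    L.tr u t w ⊆ rcW L al u (2 * t) w ∧ rcW L al u (2 * t) w ∈ valsW L al u (2 * t) w := by
  rw [not_not] at h
  refine ⟨h ▸ L.tr_sub u t ht w, ?_⟩
  unfold valsW
  exact ScrD.mem_vals.2 ⟨2 * t, le_rfl, rfl⟩

/-- the same for the decoded values of the capped script without noise -/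
theorem rec_dec {φ : Type} {al : ℝ} {J n0 : ℕ} {u : K} {t : ℕ} (ht : t ≤ D.n) {w : Om}
    {en : K → ℕ → D.XT (D.rep w) → (K → β) → Finset ℕ → φ} {de : K → ℕ → D.XT (D.rep w) → (K → β) → φ → Finset ℕ}
    (hk : ScrD.Code (D.qaT (D.rep w)) D.qbT (RT L (D.rep w)) en de) (ho : ¬ ovfW L al J n0 u (2 * t) w)
    (h : ¬ L.R u t w ≠ rcW L al u (2 * t) w) {p : ℕ} (hp : p ∈ L.tr u t w) :
    ∃ a ∈ ScrD.dec de u (2 * t) (hr w) (D.y w) (ScrD.scF (2 * D.n) (ScrD.tcC J n0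
      (ScrD.ocR (D.qaT (D.rep w)) (RT L (D.rep w)) al) (ScrD.tcR (D.qaT (D.rep w)) (RT L (D.rep w)) en al))
      (2 * t) (hr w) (D.y w) u), p ∈ a := by
  have h1 := rec_mem L ht h
  refine ⟨rcW L al u (2 * t) w, ?_, h1.1 hp⟩
  rw [ScrD.dec_eq hk (by omega) (fun h' => ho ((ovfS_iff L en).1 h'))]
  exact h1.2

/-! ### (F5) the good event -/

theorem n2_nonneg [Nonempty K] : 0 ≤ L.n2 :=
  (Finset.sum_nonneg fun t _ => D.P.Pr_nonneg _).trans (L.Rchg (Classical.arbitrary K))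

/-- OVERFLOW of one label -/
theorem ovf_one {al : ℝ} (hal : 0 < al) {J n0 : ℕ} (hJ : 0 < J) (hn : 0 < n0) (u : K) :
    D.P.Pr (ovfW L al J n0 u (2 * D.n)) ≤ (1 + L.n2 / al) / J + (1 + L.n2) / n0 := by
  classical
  have hJ' : (0 : ℝ) < J := Nat.cast_pos.mpr hJ
  have hn' : (0 : ℝ) < n0 := Nat.cast_pos.mpr hn
  have h1 : D.P.Pr (ovfW L al J n0 u (2 * D.n)) =
      D.P.E (D.atW fun w0 x y => ind (ovfU L al J n0 u (2 * D.n) w0 x y)) := rfl
  rw [h1]
  have h2 : D.P.E (D.atW fun w0 x y => ind (ovfU L al J n0 u (2 * D.n) w0 x y)) ≤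
      D.P.E (D.atW fun w0 x y => (1 + ((ScrD.nch (RT L w0) u (2 * D.n) x y : ℕ) : ℝ) / al) / J +
        (1 + ((ScrD.nch (RT L w0) u (2 * D.n) x y : ℕ) : ℝ)) / n0) := by
    refine E_atW_le fun w => ?_
    rw [EV_swap, EV_swap]
    refine avg_mono' fun y _ => ?_
    have hne := ne_X (D := D) (D.rep w)
    have hun : (univ : Finset (D.XT (D.rep w))).Nonempty := Finset.univ_nonempty
    have h3 := ScrD.ovf_le (qa := D.qaT (D.rep w)) (R := RT L (D.rep w)) (en := fun _ _ _ _ _ => ()) (al := al)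
      hal hJ hn u (2 * D.n) y
    have h4 : avg univ (fun x => ind (ScrD.ovfS J n0 (ScrD.ocR (D.qaT (D.rep w)) (RT L (D.rep w)) al)
        (ScrD.tcR (D.qaT (D.rep w)) (RT L (D.rep w)) (fun _ _ _ _ _ => ()) al) u (2 * D.n) x y)) =
        avg univ (fun x => ind (ovfU L al J n0 u (2 * D.n) (D.rep w) x y)) := by
      refine avg_congr' fun x _ => ?_
      exact congrArg ind (propext (ovfS_iff L (fun _ _ _ _ _ => ())))
    rw [h4] at h3
    refine h3.trans (le_of_eq ?_)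
    rw [avg_add']
    congr 1
    · have : (fun x => (1 + ((ScrD.nch (RT L (D.rep w)) u (2 * D.n) x y : ℕ) : ℝ) / al) / (J : ℝ)) =
          fun x => (1 + ((ScrD.nch (RT L (D.rep w)) u (2 * D.n) x y : ℕ) : ℝ) * (1 / al)) * (1 / (J : ℝ)) := by
        funext x
        rw [mul_one_div, mul_one_div]
      rw [this, avg_mul_const', avg_add', avg_const' hun, avg_mul_const', mul_one_div, mul_one_div]
    · have : (fun x => (1 + ((ScrD.nch (RT L (D.rep w)) u (2 * D.n) x y : ℕ) : ℝ)) / (n0 : ℝ)) =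
          fun x => (1 + ((ScrD.nch (RT L (D.rep w)) u (2 * D.n) x y : ℕ) : ℝ)) * (1 / (n0 : ℝ)) := by
        funext x
        rw [mul_one_div]
      rw [this, avg_mul_const', avg_add', avg_const' hun, mul_one_div]
  refine h2.trans ?_
  have h5 := nch_le L u
  have h6 : D.P.E (D.atW fun w0 x y => (1 + ((ScrD.nch (RT L w0) u (2 * D.n) x y : ℕ) : ℝ) / al) / J +
        (1 + ((ScrD.nch (RT L w0) u (2 * D.n) x y : ℕ) : ℝ)) / n0) =
      (1 + D.P.E (D.atW fun w0 x y => ((ScrD.nch (RT L w0) u (2 * D.n) x y : ℕ) : ℝ)) / al) / J +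
        (1 + D.P.E (D.atW fun w0 x y => ((ScrD.nch (RT L w0) u (2 * D.n) x y : ℕ) : ℝ))) / n0 := by
    have e1 : (D.atW fun w0 x y => (1 + ((ScrD.nch (RT L w0) u (2 * D.n) x y : ℕ) : ℝ) / al) / (J : ℝ) +
        (1 + ((ScrD.nch (RT L w0) u (2 * D.n) x y : ℕ) : ℝ)) / (n0 : ℝ)) =
        fun w => (1 + D.atW (fun w0 x y => ((ScrD.nch (RT L w0) u (2 * D.n) x y : ℕ) : ℝ)) w / al) / (J : ℝ) +
          (1 + D.atW (fun w0 x y => ((ScrD.nch (RT L w0) u (2 * D.n) x y : ℕ) : ℝ)) w) / (n0 : ℝ) := rfl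
    rw [e1, D.P.E_add, D.P.E_div_const, D.P.E_div_const, D.P.E_add, D.P.E_add, D.P.E_const, D.P.E_div_const]
  rw [h6]
  have h7 : (1 + D.P.E (D.atW fun w0 x y => ((ScrD.nch (RT L w0) u (2 * D.n) x y : ℕ) : ℝ)) / al) / (J : ℝ) ≤
      (1 + L.n2 / al) / J := by
    refine div_le_div_of_nonneg_right ?_ hJ'.le
    have := div_le_div_of_nonneg_right h5 hal.le
    linarith
  have h8 : (1 + D.P.E (D.atW fun w0 x y => ((ScrD.nch (RT L w0) u (2 * D.n) x y : ℕ) : ℝ))) / (n0 : ℝ) ≤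
      (1 + L.n2) / n0 := div_le_div_of_nonneg_right (by linarith) hn'.le
  exact add_le_add h7 h8

/-- OVERFLOW of some label -/
theorem ovf_W {al : ℝ} (hal : 0 < al) {J n0 : ℕ} (hJ : 0 < J) (hn : 0 < n0) :
    D.P.Pr (fun w => ∃ u, ovfW L al J n0 u (2 * D.n) w) ≤
      Fintype.card K * ((1 + L.n2 / al) / J + (1 + L.n2) / n0) := by
  classical
  have h1 := D.P.Pr_ex_le (univ : Finset K) fun u w => ovfW L al J n0 u (2 * D.n) w
  refine le_trans (D.P.Pr_mono fun w _ hw => ?_) (h1.trans ?_)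
  · obtain ⟨u, hu⟩ := hw
    exact ⟨u, Finset.mem_univ u, hu⟩
  · refine (Finset.sum_le_sum fun u _ => ovf_one L hal hJ hn u).trans ?_
    rw [Finset.sum_const, Finset.card_univ, nsmul_eq_mul]

/-- LARGE BOX SETS -/
theorem vb_W (h3 : ℕ) : D.P.Pr (fun w => ∃ u, (2 : ℝ) ^ h3 < (L.vb u D.n w).card) ≤
    Fintype.card K * (L.M2 / 2 ^ h3) := by
  classical
  have hp : (0 : ℝ) < 2 ^ h3 := by positivity
  have h1 := D.P.Pr_ex_le (univ : Finset K) fun u w => (2 : ℝ) ^ h3 < (L.vb u D.n w).card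
  refine le_trans (D.P.Pr_mono fun w _ hw => ?_) (h1.trans ?_)
  · obtain ⟨u, hu⟩ := hw
    exact ⟨u, Finset.mem_univ u, hu⟩
  · have h2 : ∀ u, D.P.Pr (fun w => (2 : ℝ) ^ h3 < (L.vb u D.n w).card) ≤ L.M2 / 2 ^ h3 := by
      intro u
      rw [le_div_iff₀ hp, mul_comm]
      have h4 := D.P.markov (f := fun w => ((L.vb u D.n w).card : ℝ)) (fun w _ => Nat.cast_nonneg _) ((2 : ℝ) ^ h3)
      refine le_trans (mul_le_mul_of_nonneg_left (D.P.Pr_mono fun w _ hw => ?_) hp.le) (h4.trans (L.vb_mean u))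
      exact le_of_lt hw
    refine (Finset.sum_le_sum fun u _ => h2 u).trans ?_
    rw [Finset.sum_const, Finset.card_univ, nsmul_eq_mul]

/-- THE GOOD EVENT : `H t` = hot up to the node `t` -/
def G0W (H : ℕ → Om → Prop) (al : ℝ) (J n0 h3 : ℕ) (t : ℕ) (w : Om) : Prop :=
  ¬ H t w ∧ (∀ u, ¬ ovfW L al J n0 u (2 * t) w) ∧ ∀ u, ((L.vb u t w).card : ℝ) ≤ 2 ^ h3

theorem vb_le {s t : ℕ} (h : s ≤ t) (u : K) (w : Om) : L.vb u s w ⊆ L.vb u t w := by
  induction t, h using Nat.le_induction with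
  | base => exact Finset.Subset.refl _
  | succ t _ ih => exact ih.trans (L.vb_cum u t w)

theorem vb_FD (u : K) (t : ℕ) : D.FD (L.vb u t) := by
  intro v w h1 h2 h3
  refine L.vb_dep u t v w h1 (fun j _ => by rw [h2]) (by rw [h2]) ?_
  exact D.gm_fac t v w (Prod.ext h1 (Prod.ext h2 h3))

theorem G0W_fac {H : ℕ → Om → Prop} (hH : ∀ t, D.FD (H t)) (al : ℝ) (J n0 h3 : ℕ) (t : ℕ) :
    D.FD (G0W L H al J n0 h3 t) := by
  intro v w h1 h2 h4
  unfold G0W
  have e1 := hH t v w h1 h2 h4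
  have e2 : ∀ u, ovfW L al J n0 u (2 * t) v = ovfW L al J n0 u (2 * t) w := fun u =>
    ovfW_FD L al J n0 u (2 * t) v w h1 h2 h4
  have e3 : ∀ u, L.vb u t v = L.vb u t w := fun u => vb_FD L u t v w h1 h2 h4
  simp only [e1, e2, e3]

/-- **PROBABILITY OF THE BAD EVENT** -/
theorem G0W_bad {H : ℕ → Om → Prop} (hH : ∀ s t w, s ≤ t → H s w → H t w) {al : ℝ} (hal : 0 < al) {J n0 : ℕ}
    (hJ : 0 < J) (hn : 0 < n0) (h3 : ℕ) {qh : ℝ} (hq : D.P.Pr (H D.n) ≤ qh) :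
    D.P.Pr (fun w => ∃ t ≤ D.n, ¬ G0W L H al J n0 h3 t w) ≤
      Fintype.card K * ((1 + L.n2 / al) / J + (1 + L.n2) / n0) + qh + Fintype.card K * (L.M2 / 2 ^ h3) := by
  classical
  have h1 : D.P.Pr (fun w => ∃ t ≤ D.n, ¬ G0W L H al J n0 h3 t w) ≤
      D.P.Pr (fun w => H D.n w ∨ ((∃ u, ovfW L al J n0 u (2 * D.n) w) ∨
        ∃ u, (2 : ℝ) ^ h3 < (L.vb u D.n w).card)) := by
    refine D.P.Pr_mono fun w _ hw => ?_
    obtain ⟨t, ht, h2⟩ := hw
    by_contra hn'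
    push Not at hn'
    obtain ⟨a1, a2, a3⟩ := hn'
    refine h2 ⟨fun h => a1 (hH t D.n w ht h), fun u h => a2 u (ovfW_mono L (by omega) h), fun u => ?_⟩
    refine le_trans ?_ (a3 u)
    exact_mod_cast Finset.card_le_card (vb_le L ht u w)
  have h2 := D.P.Pr_or_le (H D.n) (fun w => (∃ u, ovfW L al J n0 u (2 * D.n) w) ∨
        ∃ u, (2 : ℝ) ^ h3 < (L.vb u D.n w).card)
  have h4 := D.P.Pr_or_le (fun w => ∃ u, ovfW L al J n0 u (2 * D.n) w) (fun w => ∃ u, (2 : ℝ) ^ h3 < (L.vb u D.n w).card)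
  have h5 := ovf_W L hal hJ hn
  have h6 := vb_W L h3
  linarith

end WD

end

end Pool.Agent.GMJR
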