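import Pool.Agent.GM.CL

/-!
# GMJR/ClsH (helper52): closeness gives the mass of a system of names in a hidden cell

`mass_hd` : deterministic labels `sF x l` (scripts without the noise) with `kf t l x y (sF x l) ≥ 1 - ε` off overflow; `q l x` =
the label `l` of `x` carries the name (some recorded value contains the trace), `Q l F` = the same for a value `F`, with
`∑ ind (Q l F) kf ≤ ind (q l x) + ε`.  The points of the class of `x1` which carry all names, are not in overflow and are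
not hot have a density of at most `exp K' (∏ dJ) ∏ (density of q l on wL l + ε) / (1 - ε) ^ card K`.
-/

set_option autoImplicit false
set_option linter.unusedSectionVars false

namespace Pool.Agent.GMJR

open Finset Pool.Agent.PWZ Pool.Agent.M3 Pool.Agent.GM.Harm
open Pool.Agent.M3.S3 (avg)

noncomputable section

section mass

variable {K X β γ φ υ : Type} [Fintype K] [DecidableEq K] [Fintype X] [Fintype β] [Fintype φ] {D : HD K X β γ φ}
  {U : Finset K → ℕ → X → (K → β) → υ}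

theorem cA_of_cls {Js : Finset (Finset K)} {t : ℕ} {x z : X} {y : K → β} (h : z ∈ cls D U Js t x y) :
    D.cA t z = D.cA t x := by
  ext a
  rw [mem_cA, mem_cA, (mem_cls.1 h).1]

theorem cls_sub {Js Js' : Finset (Finset K)} (hs : Js' ⊆ Js) {t : ℕ} {x z : X} {y : K → β}
    (h : z ∈ cls D U Js t x y) : z ∈ cls D U Js' t x y :=
  mem_cls.2 ⟨(mem_cls.1 h).1, fun I hI => (mem_cls.1 h).2 I (hs hI)⟩

/-- the densities at the points of the class of `x1` -/
theorem dJ_vA {t : ℕ} {x x1 : X} {y : K → β} (h : x ∈ vA D U t x1 y) (J : Finset K) :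
    dJ D U J t x y = dJ D U J t x1 y := by
  unfold dJ uJ lJ
  rw [cls_eq (cls_sub (Finset.filter_subset _ _) h), cls_eq (cls_sub (Finset.filter_subset _ _) h)]

theorem wL_vA {t : ℕ} {x x1 : X} {y : K → β} (h : x ∈ vA D U t x1 y) (l : K) :
    wL D U l t x y = wL D U l t x1 y := by
  unfold wL
  rw [cls_eq (cls_sub (Finset.filter_subset _ _) h)]

theorem pL_vA {t : ℕ} {x x1 : X} {y : K → β} (h : x ∈ vA D U t x1 y) (l : K) (F : φ) :
    pL D U l t x y F = pL D U l t x1 y F := by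
  unfold pL
  rw [wL_vA h]

theorem pA_vA {t : ℕ} {x x1 : X} {y : K → β} (h : x ∈ vA D U t x1 y) (F : K → φ) :
    pA D U t x y F = pA D U t x1 y F := by
  have h1 : vA D U t x y = vA D U t x1 y := cls_eq h
  unfold pA
  rw [h1, cA_of_cls h]

theorem pA_eq {t : ℕ} {x1 : X} {y : K → β} (F : K → φ) :
    ∑ x ∈ vA D U t x1 y, ∏ l, D.kf t l x y (F l) = (D.cA t x1).card * pA D U t x1 y F := by
  have h1 : ((vA D U t x1 y).card : ℝ) ≠ 0 :=
    Nat.cast_ne_zero.2 (Finset.card_pos.2 ⟨x1, self_cls _ _ _ _⟩).ne'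
  have h2 : ((D.cA t x1).card : ℝ) ≠ 0 :=
    Nat.cast_ne_zero.2 (Finset.card_pos.2 ⟨x1, mem_cA.2 rfl⟩).ne'
  unfold pA avg
  field_simp

theorem pL_nonneg {t : ℕ} {x1 : X} {y : K → β} (hnn : ∀ l x F, 0 ≤ D.kf t l x y F) (l : K) (F : φ) :
    0 ≤ pL D U l t x1 y F := div_nonneg (Finset.sum_nonneg fun x _ => hnn l x F) (Nat.cast_nonneg _)

theorem dJ_nonneg {t : ℕ} {x1 : X} {y : K → β} (J : Finset K) : 0 ≤ dJ D U J t x1 y :=
  div_nonneg (Nat.cast_nonneg _) (Nat.cast_nonneg _)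

/-- **THE MASS OF A SYSTEM OF NAMES** -/
theorem mass_hd {t : ℕ} {y : K → β} {x1 : X} {K' ε : ℝ} (hnn : ∀ l x F, 0 ≤ D.kf t l x y F) (hε1 : ε ≤ 1)
    {Q : K → φ → Prop} {q : K → X → Prop} {sF : X → K → φ} {ok : X → Prop}
    (B1 : ∀ l, ∀ x ∈ D.cA t x1, ∑ F, ind (Q l F) * D.kf t l x y F ≤ ind (q l x) + ε)
    (B2 : ∀ l, ∀ x ∈ D.cA t x1, ok x → 1 - ε ≤ D.kf t l x y (sF x l))
    (B3 : ∀ l, ∀ x ∈ D.cA t x1, ok x → q l x → Q l (sF x l)) {E : Finset X}
    (hE : ∀ x ∈ E, x ∈ vA D U t x1 y ∧ (∀ l, q l x) ∧ ok x ∧ ¬ hot D U K' t (x, y, sF x)) :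
    (1 - ε) ^ Fintype.card K * (E.card : ℝ) ≤ (D.cA t x1).card * (Real.exp K' *
      ((∏ J ∈ JJ K, dJ D U J t x1 y) * ∏ l, (avg (wL D U l t x1 y) (fun x' => ind (q l x')) + ε))) := by
  classical
  have hsub : ∀ Js : Finset (Finset K), ∀ x ∈ cls D U Js t x1 y, x ∈ D.cA t x1 := fun Js x hx =>
    mem_cA.2 (mem_cls.1 hx).1
  have hd0 : 0 ≤ ∏ J ∈ JJ K, dJ D U J t x1 y := Finset.prod_nonneg fun J _ => dJ_nonneg J
  have hc0 : (0 : ℝ) ≤ (D.cA t x1).card := Nat.cast_nonneg _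
  -- the points of `E`
  have h1 : (1 - ε) ^ Fintype.card K * (E.card : ℝ) ≤ ∑ x ∈ E, ∏ l, D.kf t l x y (sF x l) := by
    rw [mul_comm, ← nsmul_eq_mul, ← Finset.sum_const]
    refine Finset.sum_le_sum fun x hx => ?_
    obtain ⟨h2, _, h3, _⟩ := hE x hx
    rw [← Finset.card_univ, ← Finset.prod_const]
    exact Finset.prod_le_prod (fun l _ => by linarith) fun l _ => B2 l x (hsub _ x h2) h3
  have h2 : ∑ x ∈ E, ∏ l, D.kf t l x y (sF x l) ≤ ∑ F ∈ E.image sF, ∑ x ∈ vA D U t x1 y, ∏ l, D.kf t l x y (F l) := by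
    rw [← Finset.sum_fiberwise_of_maps_to (s := E) (t := E.image sF) (g := sF) (fun x hx => Finset.mem_image_of_mem _ hx)]
    refine Finset.sum_le_sum fun F _ => ?_
    have h3 : ∑ x ∈ E.filter (fun x => sF x = F), ∏ l, D.kf t l x y (sF x l) =
        ∑ x ∈ E.filter (fun x => sF x = F), ∏ l, D.kf t l x y (F l) :=
      Finset.sum_congr rfl fun x hx => by rw [(Finset.mem_filter.1 hx).2]
    rw [h3]
    exact Finset.sum_le_sum_of_subset_of_nonneg (fun x hx => (hE x (Finset.mem_filter.1 hx).1).1)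
      fun x _ _ => Finset.prod_nonneg fun l _ => hnn l x _
  have h3 : ∀ F ∈ E.image sF, (∀ l, Q l (F l)) ∧ ∑ x ∈ vA D U t x1 y, ∏ l, D.kf t l x y (F l) ≤
      (D.cA t x1).card * (Real.exp K' * ((∏ J ∈ JJ K, dJ D U J t x1 y) * ∏ l, pL D U l t x1 y (F l))) := by
    intro F hF
    obtain ⟨x, hx, rfl⟩ := Finset.mem_image.1 hF
    obtain ⟨h4, h5, h6, h7⟩ := hE x hx
    refine ⟨fun l => B3 l x (hsub _ x h4) h6 (h5 l), ?_⟩
    rw [pA_eq]
    refine mul_le_mul_of_nonneg_left ?_ hc0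
    unfold hot at h7
    rw [not_le] at h7
    rw [← pA_vA h4]
    refine h7.le.trans (le_of_eq ?_)
    simp only [dJ_vA h4, pL_vA h4]
  refine h1.trans (h2.trans ?_)
  have h4 : ∑ F ∈ E.image sF, ∑ x ∈ vA D U t x1 y, ∏ l, D.kf t l x y (F l) ≤
      ∑ F : K → φ, (∏ l, ind (Q l (F l))) * ((D.cA t x1).card * (Real.exp K' * ((∏ J ∈ JJ K, dJ D U J t x1 y) *
        ∏ l, pL D U l t x1 y (F l)))) := by
    have h5 : ∀ F : K → φ, 0 ≤ (∏ l, ind (Q l (F l))) * ((D.cA t x1).card * (Real.exp K' *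
        ((∏ J ∈ JJ K, dJ D U J t x1 y) * ∏ l, pL D U l t x1 y (F l)))) := by
      intro F
      refine mul_nonneg (Finset.prod_nonneg fun l _ => ind_nonneg _) (mul_nonneg hc0 (mul_nonneg (Real.exp_pos _).le
        (mul_nonneg hd0 (Finset.prod_nonneg fun l _ => pL_nonneg hnn l _))))
    refine le_trans (Finset.sum_le_sum fun F hF => ?_) (Finset.sum_le_sum_of_subset_of_nonneg (Finset.subset_univ _)
      fun F _ _ => h5 F)
    obtain ⟨h6, h7⟩ := h3 F hF
    have h8 : (∏ l, ind (Q l (F l))) = 1 := Finset.prod_eq_one fun l _ => ind_of (h6 l)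
    rw [h8, one_mul]
    exact h7
  refine h4.trans ?_
  have h5 : ∑ F : K → φ, (∏ l, ind (Q l (F l))) * ((D.cA t x1).card * (Real.exp K' * ((∏ J ∈ JJ K, dJ D U J t x1 y) *
        ∏ l, pL D U l t x1 y (F l)))) = (D.cA t x1).card * (Real.exp K' * ((∏ J ∈ JJ K, dJ D U J t x1 y) *
        ∏ l, ∑ F, ind (Q l F) * pL D U l t x1 y F)) := by
    have h6 := Finset.prod_univ_sum (fun _ : K => (univ : Finset φ)) (fun l F => ind (Q l F) * pL D U l t x1 y F)
    rw [Fintype.piFinset_univ] at h6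
    rw [h6, Finset.mul_sum, Finset.mul_sum, Finset.mul_sum]
    refine Finset.sum_congr rfl fun F _ => ?_
    rw [Finset.prod_mul_distrib]
    ring
  rw [h5]
  refine mul_le_mul_of_nonneg_left (mul_le_mul_of_nonneg_left (mul_le_mul_of_nonneg_left ?_ hd0) (Real.exp_pos _).le) hc0
  refine Finset.prod_le_prod (fun l _ => Finset.sum_nonneg fun F _ => mul_nonneg (ind_nonneg _) (pL_nonneg hnn l F))
    fun l _ => ?_
  -- one label
  have hw : (0 : ℝ) < (wL D U l t x1 y).card := by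
    exact_mod_cast Finset.card_pos.2 ⟨x1, self_cls _ _ _ _⟩
  have h7 : ∑ F, ind (Q l F) * pL D U l t x1 y F =
      (∑ x ∈ wL D U l t x1 y, ∑ F, ind (Q l F) * D.kf t l x y F) / (wL D U l t x1 y).card := by
    unfold pL avg
    rw [Finset.sum_comm, Finset.sum_div]
    refine Finset.sum_congr rfl fun F _ => ?_
    rw [← Finset.mul_sum, mul_div_assoc]
  rw [h7]
  unfold avg
  rw [div_add' _ _ _ hw.ne']
  refine div_le_div_of_nonneg_right ?_ hw.le
  calc ∑ x ∈ wL D U l t x1 y, ∑ F, ind (Q l F) * D.kf t l x y F ≤ ∑ x ∈ wL D U l t x1 y, (ind (q l x) + ε) :=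
        Finset.sum_le_sum fun x hx => B1 l x (hsub _ x hx)
    _ = ∑ x ∈ wL D U l t x1 y, ind (q l x) + ε * (wL D U l t x1 y).card := by
        rw [Finset.sum_add_distrib, Finset.sum_const, nsmul_eq_mul]
        ring

end mass

end

end Pool.Agent.GMJR
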