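import Pool.Agent.GMJR.WDT
import Pool.Agent.GMJR.ClsH
import Pool.Agent.GMN.Names

/-!
# GMJR/ClsE (helper52): the classes in the world of one hidden vertex, their entropies

`D : WD ..`, `H w0 : HD ..` on the hidden points `XT w0` of the top of `w0` (cells of `D`, known cells `cl (τ / 2)`), classes
`U w0` (`Harm.Sys`); `uI I τ w` = the class at `rep w`, `hr w`, `y w`.
* `FH W τ` = (top, `y` on `W`, known cells, hidden cell) at the HD time `τ` (`FH W (2 t) = FW W t`);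
* `cD 𝒟 τ` = the classes `U (rep w) I τ`, `I ∈ 𝒟`; `lo W`, `sl W` = the families of the sets `⊆ W`, `⊂ W` with classes;
* `ref_cD` : the classes refine;  `hc_step`, `hc_zero` : the entropies of the steps are those of `bitsJ`;
* **`ent_cW`** : `Hc (cW W 0 | FW W 0) + ∑ Hc (cW W (t + 1) | FW W (t + 1), cW W t) ≤ ∑_(I ∈ lo W) E (bits of `U (rep w) I`)`.
-/

set_option autoImplicit false
set_option linter.unusedSectionVars false

namespace Pool.Agent.GMJR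

open Finset Pool.Agent.PWZ Pool.Agent.M3 Pool.Agent.GMN Pool.Agent.GM.Harm
open Pool.Agent.M3.S3 (avg)

noncomputable section

/-- conditional entropy as a mean of logarithms -/
theorem Hc_log {Om κ κ' : Type*} [Fintype Om] (P : FP Om) (Xx : Om → κ) (Y : Om → κ') :
    P.Hc Xx Y = P.E (fun w => Real.log (P.m Y w / P.m (fun u => (Xx u, Y u)) w)) := by
  unfold FP.Hc FP.H
  rw [← P.E_sub]
  refine P.E_congr fun w hw => ?_
  rw [Real.log_div (P.m_pos _ hw).ne' (P.m_pos _ hw).ne']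
  ring

namespace WD

variable {Om Tp K β X γ δ Γ : Type} [Fintype Om] [Fintype K] [DecidableEq K] [Fintype β] [Fintype X]
  (D : WD Om Tp K β X γ δ Γ)

/-! ### uniformity given the top -/

theorem EV_eq {X' : Type} [Fintype X'] (g : X' → (K → β) → ℝ) :
    EV g = (∑ x, ∑ y, g x y) / ((Fintype.card β : ℝ) ^ Fintype.card K * Fintype.card X') := by
  unfold EV avg
  have h1 : ((univ : Finset (K → β)).card : ℝ) = (Fintype.card β : ℝ) ^ Fintype.card K := by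
    rw [Finset.card_univ, Fintype.card_fun]
    push_cast
    rfl
  rw [h1, Finset.card_univ, ← Finset.sum_div, div_div]

/-- means given the top are uniform -/
theorem E_top (w0 : Om) (g : X → (K → β) → ℝ) : D.P.E (fun w => ind (D.top w = D.top w0) * g (D.hx w) (D.y w)) =
    D.P.Pr (fun w => D.top w = D.top w0) * EV (fun (x : D.XT w0) y => g x.1 y) := by
  classical
  have h1 : D.P.E (fun w => ind (D.top w = D.top w0) * g (D.hx w) (D.y w)) =
      ∑ x ∈ D.sp (D.top w0), ∑ y, g x y * D.P.Pr (fun w => D.top w = D.top w0 ∧ D.y w = y ∧ D.hx w = x) := by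
    unfold FP.Pr
    have h2 : ∀ x : X, ∀ y : K → β, g x y * D.P.E (fun w => ind (D.top w = D.top w0 ∧ D.y w = y ∧ D.hx w = x)) =
        D.P.E (fun w => g x y * ind (D.top w = D.top w0 ∧ D.y w = y ∧ D.hx w = x)) := fun x y => (D.P.E_smul _ _).symm
    simp only [h2]
    simp only [← D.P.E_sum]
    refine D.P.E_congr fun w _ => ?_
    by_cases htop : D.top w = D.top w0
    · have hmem : D.hx w ∈ D.sp (D.top w0) := htop ▸ D.hx_sp w
      rw [Finset.sum_eq_single (D.hx w), Finset.sum_eq_single (D.y w)]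
      · have h3 : ind (D.top w = D.top w0 ∧ D.y w = D.y w ∧ D.hx w = D.hx w) = ind (D.top w = D.top w0) := by
          congr 1
          simp
        rw [h3, mul_comm]
      · intro y _ hy
        rw [ind_not fun h => hy h.2.1.symm, mul_zero]
      · exact fun h => absurd (mem_univ _) h
      · intro x _ hx
        refine Finset.sum_eq_zero fun y _ => ?_
        rw [ind_not fun h => hx h.2.2.symm, mul_zero]
      · exact fun h => absurd hmem h
    · rw [ind_not htop, zero_mul]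
      refine (Finset.sum_eq_zero fun x _ => Finset.sum_eq_zero fun y _ => ?_).symm
      rw [ind_not fun h => htop h.1, mul_zero]
  rw [h1, EV_eq, Finset.sum_coe_sort (D.sp (D.top w0)) (fun x => ∑ y, g x y), Fintype.card_coe]
  have h2 : ∑ x ∈ D.sp (D.top w0), ∑ y, g x y * D.P.Pr (fun w => D.top w = D.top w0 ∧ D.y w = y ∧ D.hx w = x) =
      ∑ x ∈ D.sp (D.top w0), ∑ y, g x y * (D.P.Pr (fun w => D.top w = D.top w0) /
        ((Fintype.card β : ℝ) ^ Fintype.card K * (D.sp (D.top w0)).card)) :=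
    Finset.sum_congr rfl fun x hx => Finset.sum_congr rfl fun y _ => by rw [D.law w0 y x hx]
  rw [h2]
  simp only [← Finset.sum_mul]
  ring

theorem Pr_rep (w : Om) : D.P.Pr (fun v => D.top v = D.top (D.rep w)) = D.P.Pr (fun v => D.top v = D.top w) := by
  rw [top_rep]

/-- a mean over the top -/
theorem E_EV (g : (w0 : Om) → D.XT w0 → (K → β) → ℝ) :
    D.P.E (fun w => g (D.rep w) (D.hr w) (D.y w)) = D.P.E (fun w => EV (g (D.rep w))) := by
  classical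
  rw [← D.P.E_ce D.top (fun w => g (D.rep w) (D.hr w) (D.y w))]
  refine D.P.E_congr fun w hw => ?_
  have hm := D.P.m_pos D.top hw
  unfold FP.ce
  rw [div_eq_iff hm.ne']
  set G : X → (K → β) → ℝ := fun x y => if h : x ∈ D.sp (D.top (D.rep w)) then g (D.rep w) ⟨x, h⟩ y else 0 with hG
  have h0 : ∀ v, ∀ {w0 : Om} (_ : D.rep v = w0) (hv : D.hx v ∈ D.sp (D.top w0)),
      g (D.rep v) (D.hr v) (D.y v) = g w0 ⟨D.hx v, hv⟩ (D.y v) := by
    rintro v _ rfl _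
    rfl
  have ht : D.top (D.rep w) = D.top w := top_rep w
  have h1 : D.P.E (fun v => ind (D.top v = D.top w) * g (D.rep v) (D.hr v) (D.y v)) =
      D.P.E (fun v => ind (D.top v = D.top (D.rep w)) * G (D.hx v) (D.y v)) := by
    rw [ht]
    refine D.P.E_congr fun v _ => ?_
    by_cases h : D.top v = D.top w
    · have hv : D.hx v ∈ D.sp (D.top (D.rep w)) := by
        rw [ht, ← h]
        exact D.hx_sp v
      rw [h0 v (rep_eq h) hv, hG]
      beta_reduce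
      rw [dif_pos hv]
    · rw [ind_not h, zero_mul, zero_mul]
  have h2 : (fun (x : D.XT (D.rep w)) y => G x.1 y) = g (D.rep w) := by
    funext x y
    rw [hG]
    beta_reduce
    rw [dif_pos x.2]
  rw [h1, D.E_top (D.rep w) G, h2, mul_comm, D.Pr_rep]
  rfl

/-- the mass of a product set -/
theorem m_set {κ' : Type*} {Y : Om → κ'} {w : Om} {Ys : Finset (K → β)} {A : Finset (D.XT (D.rep w))}
    (h : ∀ v, Y v = Y w ↔ D.top v = D.top w ∧ D.y v ∈ Ys ∧ ∃ hv : D.hx v ∈ D.sp (D.top (D.rep w)), ⟨D.hx v, hv⟩ ∈ A) :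
    D.P.m Y w = D.P.Pr (fun v => D.top v = D.top w) * ((Ys.card : ℝ) * A.card /
      ((Fintype.card β : ℝ) ^ Fintype.card K * (D.sp (D.top (D.rep w))).card)) := by
  classical
  set G : X → (K → β) → ℝ := fun x y => ind (∃ hv : x ∈ D.sp (D.top (D.rep w)), ⟨x, hv⟩ ∈ A) * ind (y ∈ Ys) with hG
  have ht : D.top (D.rep w) = D.top w := top_rep w
  have h1 : D.P.m Y w = D.P.E (fun v => ind (D.top v = D.top (D.rep w)) * G (D.hx v) (D.y v)) := by
    rw [ht]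
    unfold FP.m
    refine D.P.E_congr fun v _ => ?_
    show ind (Y v = Y w) = ind (D.top v = D.top w) *
      (ind (∃ hv : D.hx v ∈ D.sp (D.top (D.rep w)), ⟨D.hx v, hv⟩ ∈ A) * ind (D.y v ∈ Ys))
    rw [← ind_and, ← ind_and]
    congr 1
    rw [eq_iff_iff, h v]
    tauto
  rw [h1, D.E_top (D.rep w) G, EV_eq, Fintype.card_coe, D.Pr_rep]
  congr 1
  congr 1
  have h2 : ∀ x : D.XT (D.rep w), ∑ y : K → β, ind (∃ hv : x.1 ∈ D.sp (D.top (D.rep w)), ⟨x.1, hv⟩ ∈ A) * ind (y ∈ Ys) =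
      ind (x ∈ A) * Ys.card := by
    intro x
    rw [← Finset.mul_sum]
    have h3 : ∀ y : K → β, ind (y ∈ Ys) = if y ∈ Ys then 1 else 0 := fun y => by
      by_cases hy : y ∈ Ys
      · rw [ind_of hy, if_pos hy]
      · rw [ind_not hy, if_neg hy]
    rw [Finset.sum_congr rfl fun y _ => h3 y, Finset.sum_ite_mem, Finset.univ_inter, Finset.sum_const, nsmul_eq_mul,
      mul_one]
    congr 2
    rw [eq_iff_iff]
    exact ⟨fun ⟨_, h⟩ => h, fun h => ⟨x.2, h⟩⟩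
  rw [Finset.sum_congr rfl fun x _ => h2 x, ← Finset.sum_mul, mul_comm]
  congr 1
  have h3 : ∀ x : D.XT (D.rep w), ind (x ∈ A) = if x ∈ A then 1 else 0 := fun x => by
    by_cases hx : x ∈ A
    · rw [ind_of hx, if_pos hx]
    · rw [ind_not hx, if_neg hx]
  rw [Finset.sum_congr rfl fun x _ => h3 x, Finset.sum_ite_mem, Finset.univ_inter, Finset.sum_const, nsmul_eq_mul,
    mul_one]

/-- the ratio of two masses -/
theorem m_ratio {κ' κ'' : Type*} {Y : Om → κ'} {Y' : Om → κ''} {w : Om} {Ys : Finset (K → β)}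
    {A A' : Finset (D.XT (D.rep w))}
    (h : ∀ v, Y v = Y w ↔ D.top v = D.top w ∧ D.y v ∈ Ys ∧ ∃ hv : D.hx v ∈ D.sp (D.top (D.rep w)), ⟨D.hx v, hv⟩ ∈ A)
    (h' : ∀ v, Y' v = Y' w ↔ D.top v = D.top w ∧ D.y v ∈ Ys ∧ ∃ hv : D.hx v ∈ D.sp (D.top (D.rep w)), ⟨D.hx v, hv⟩ ∈ A') :
    D.P.m Y w / D.P.m Y' w = (A.card : ℝ) / A'.card := by
  rw [D.m_set h, D.m_set h']
  have h1 : 0 < D.P.Pr (fun v => D.top v = D.top w) := D.P.m_pos D.top (D.pp w)
  have h2 : (0 : ℝ) < Ys.card := by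
    exact_mod_cast Finset.card_pos.2 ⟨D.y w, ((h w).1 rfl).2.1⟩
  have h3 : (0 : ℝ) < A'.card := by
    obtain ⟨hv, h4⟩ := ((h' w).1 rfl).2.2
    exact_mod_cast Finset.card_pos.2 ⟨_, h4⟩
  have h4 : (0 : ℝ) < (D.sp (D.top (D.rep w))).card := by
    exact_mod_cast Finset.card_pos.2 ⟨D.hx w, (D.hr w).2⟩
  have h5 : (0 : ℝ) < (Fintype.card β : ℝ) ^ Fintype.card K := by
    rcases isEmpty_or_nonempty K with hK | ⟨⟨j⟩⟩
    · rw [Fintype.card_eq_zero (α := K), pow_zero]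
      exact one_pos
    · have : (0 : ℝ) < Fintype.card β := by exact_mod_cast Fintype.card_pos_iff.2 ⟨D.y w j⟩
      positivity
  field_simp

/-! ### the classes -/

/-- the filtration of `W` at the HD times -/
def FH (W : Finset K) (τ : ℕ) (w : Om) : Tp × ({j // j ∈ W} → β) × (K → δ) × γ :=
  (D.top w, D.yW W w, (fun j => D.cl (τ / 2) (D.y w j)), D.qa τ (D.hx w))

theorem FH_even (W : Finset K) (t : ℕ) : D.FH W (2 * t) = D.FW W t := by
  funext w
  unfold FH FW cs q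
  rw [Nat.mul_div_cancel_left _ (by norm_num)]

variable {D} in
theorem FH_eq {W : Finset K} {τ : ℕ} {v w : Om} : D.FH W τ v = D.FH W τ w ↔ D.top v = D.top w ∧
    (∀ j ∈ W, D.y v j = D.y w j) ∧ (∀ j, D.cl (τ / 2) (D.y v j) = D.cl (τ / 2) (D.y w j)) ∧
    D.qa τ (D.hx v) = D.qa τ (D.hx w) := by
  unfold FH
  rw [Prod.ext_iff, Prod.ext_iff, Prod.ext_iff]
  refine and_congr Iff.rfl (and_congr ?_ (and_congr ?_ Iff.rfl))
  · constructor
    · intro h j hj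
      exact congrFun h ⟨j, hj⟩
    · intro h
      funext j
      exact h j.1 j.2
  · exact funext_iff

theorem filt_FH (W : Finset K) : Filt (D.FH W) := by
  intro τ v w h
  rw [FH_eq] at h ⊢
  exact ⟨h.1, h.2.1, fun j => cl_le (D := D) (Nat.div_le_div_right (Nat.le_succ τ)) (h.2.2.1 j), D.ra τ _ _ h.2.2.2⟩

variable {φ γ' υ : Type} [Fintype φ] (H : (w0 : Om) → HD K (D.XT w0) β γ' φ)
  (U : (w0 : Om) → Finset K → ℕ → D.XT w0 → (K → β) → υ)

/-- the cells of the data are the cells of the world -/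
structure Cells : Prop where
  qa : ∀ w0 τ (x x' : D.XT w0), (H w0).qa τ x = (H w0).qa τ x' ↔ D.qa τ x.1 = D.qa τ x'.1
  qb : ∀ w0 τ b b', (H w0).qb τ b = (H w0).qb τ b' ↔ D.cl (τ / 2) b = D.cl (τ / 2) b'

/-- the sets of classes below `W` -/
def lo (W : Finset K) : Finset (Finset K) := (JJ K).filter fun I => I ⊆ W

/-- strictly below `W` -/
def sl (W : Finset K) : Finset (Finset K) := (JJ K).filter fun I => I ⊂ W

theorem mem_lo {W I : Finset K} : I ∈ lo W ↔ I ∈ JJ K ∧ I ⊆ W := Finset.mem_filter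

theorem mem_sl {W I : Finset K} : I ∈ sl W ↔ I ∈ JJ K ∧ I ⊂ W := Finset.mem_filter

/-- the class `I` at the HD time `τ` -/
def uI (I : Finset K) (τ : ℕ) (w : Om) : υ := U (D.rep w) I τ (D.hr w) (D.y w)

open Classical in
/-- the classes of `𝒟` at the HD time `τ` -/
def cD (𝒟 : Finset (Finset K)) (τ : ℕ) (w : Om) : Finset K → Option υ := fun I =>
  if I ∈ 𝒟 then some (D.uI U I τ w) else none

variable {D U H}

theorem cD_eq {𝒟 : Finset (Finset K)} {τ σ : ℕ} {v w : Om} :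
    D.cD U 𝒟 τ v = D.cD U 𝒟 σ w ↔ ∀ I ∈ 𝒟, D.uI U I τ v = D.uI U I σ w := by
  unfold cD
  rw [funext_iff]
  refine forall_congr' fun I => ?_
  by_cases h : I ∈ 𝒟
  · rw [if_pos h, if_pos h, Option.some.injEq]
    exact ⟨fun h' _ => h', fun h' => h' h⟩
  · rw [if_neg h, if_neg h]
    exact ⟨fun _ h' => absurd h' h, fun _ => rfl⟩

theorem cD_mono {𝒟 𝒟' : Finset (Finset K)} (h : 𝒟' ⊆ 𝒟) {τ : ℕ} {v w : Om} (h1 : D.cD U 𝒟 τ v = D.cD U 𝒟 τ w) :
    D.cD U 𝒟' τ v = D.cD U 𝒟' τ w := cD_eq.2 fun I hI => cD_eq.1 h1 I (h hI)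

/-- the class of a point of the top of another one -/
theorem uI_at {I : Finset K} {τ : ℕ} {v : Om} : ∀ {w0 : Om} (_ : D.rep v = w0) (hv : D.hx v ∈ D.sp (D.top w0)),
    D.uI U I τ v = U w0 I τ ⟨D.hx v, hv⟩ (D.y v) := by
  rintro _ rfl _
  rfl

theorem sp_rep {v w : Om} (h : D.top v = D.top w) : D.hx v ∈ D.sp (D.top (D.rep w)) := by
  rw [top_rep, ← h]
  exact D.hx_sp v

variable (hc : D.Cells H) (hs : ∀ w0, GM.Harm.Sys (H w0) (U w0))
include hc hs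

/-- the class of a point with the known points of another one -/
theorem uI_dep {I W : Finset K} (hI : I ⊆ W) {τ : ℕ} {v w : Om} (h : D.top v = D.top w)
    (hv : D.hx v ∈ D.sp (D.top (D.rep w)))
    (hy : ∀ j ∈ W, D.y v j = D.y w j) (hcl : ∀ j, D.cl (τ / 2) (D.y v j) = D.cl (τ / 2) (D.y w j)) :
    D.uI U I τ v = U (D.rep w) I τ ⟨D.hx v, hv⟩ (D.y w) := by
  rw [uI_at (rep_eq h) hv]
  exact (hs _).dep I τ _ _ _ (fun j hj => hy j (hI hj)) fun j => (hc.qb _ _ _ _).2 (hcl j)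

/-- the classes refine -/
theorem ref_uI {I W : Finset K} (hI : I ⊆ W) {τ : ℕ} {v w : Om} (h : D.FH W (τ + 1) v = D.FH W (τ + 1) w)
    (h1 : D.uI U I (τ + 1) v = D.uI U I (τ + 1) w) : D.uI U I τ v = D.uI U I τ w := by
  rw [FH_eq] at h
  have hv := sp_rep (D := D) h.1
  rw [uI_at (rep_eq h.1) hv, uI_at (v := w) rfl (D.hr w).2] at h1 ⊢
  exact (hs _).ref I τ _ _ _ _ (fun j hj => h.2.1 j (hI hj)) ((hc.qa _ _ _ _).2 h.2.2.2)
    (fun j => (hc.qb _ _ _ _).2 (h.2.2.1 j)) h1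

theorem ref_cD {𝒟 : Finset (Finset K)} {W : Finset K} (h𝒟 : ∀ I ∈ 𝒟, I ⊆ W) {τ : ℕ} {v w : Om}
    (h : D.FH W (τ + 1) v = D.FH W (τ + 1) w) (h1 : D.cD U 𝒟 (τ + 1) v = D.cD U 𝒟 (τ + 1) w) :
    D.cD U 𝒟 τ v = D.cD U 𝒟 τ w :=
  cD_eq.2 fun I hI => ref_uI hc hs (h𝒟 I hI) h (cD_eq.1 h1 I hI)

open Classical in
/-- the known points which are compatible with `w` -/
theorem mem_cut_m {I : Finset K} (τ : ℕ) (w v : Om) :
    ((D.FH I (τ + 1) v, D.cD U (sl I) (τ + 1) v, D.cD U (lo I) τ v) =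
      (D.FH I (τ + 1) w, D.cD U (sl I) (τ + 1) w, D.cD U (lo I) τ w)) ↔ D.top v = D.top w ∧
      D.y v ∈ (univ.filter fun y' : K → β => (∀ j ∈ I, y' j = D.y w j) ∧
        ∀ j, D.cl ((τ + 1) / 2) (y' j) = D.cl ((τ + 1) / 2) (D.y w j)) ∧
      ∃ hv : D.hx v ∈ D.sp (D.top (D.rep w)), ⟨D.hx v, hv⟩ ∈ mJ (H (D.rep w)) (U (D.rep w)) I τ (D.hr w) (D.y w) := by
  simp only [Prod.mk.injEq]
  rw [FH_eq, cD_eq, cD_eq, Finset.mem_filter]
  simp only [mem_mJ]
  unfold lJ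
  simp only [mem_cls, hc.qa]
  have hle : τ / 2 ≤ (τ + 1) / 2 := Nat.div_le_div_right (Nat.le_succ τ)
  constructor
  · rintro ⟨⟨h1, h2, h3, h4⟩, h5, h6⟩
    have hv := sp_rep (D := D) h1
    refine ⟨h1, ⟨mem_univ _, h2, h3⟩, hv, ⟨h4, fun J hJ => ?_⟩, fun J hJ => ?_⟩
    · have := h5 J hJ
      rw [uI_dep hc hs (mem_sl.1 hJ).2.subset h1 hv h2 h3] at this
      exact this
    · have := h6 J hJ
      rw [uI_dep hc hs (mem_lo.1 hJ).2 h1 hv h2 (fun j => cl_le (D := D) hle (h3 j))] at this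
      exact this
  · rintro ⟨h1, ⟨-, h2, h3⟩, hv, ⟨h4, h5⟩, h6⟩
    refine ⟨⟨h1, h2, h3, h4⟩, fun J hJ => ?_, fun J hJ => ?_⟩
    · rw [uI_dep hc hs (mem_sl.1 hJ).2.subset h1 hv h2 h3]
      exact h5 J hJ
    · rw [uI_dep hc hs (mem_lo.1 hJ).2 h1 hv h2 (fun j => cl_le (D := D) hle (h3 j))]
      exact h6 J hJ

open Classical in
theorem mem_cut_u {I : Finset K} (hI : I ∈ JJ K) (τ : ℕ) (w v : Om) :
    ((D.uI U I (τ + 1) v, (D.FH I (τ + 1) v, D.cD U (sl I) (τ + 1) v, D.cD U (lo I) τ v)) =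
      (D.uI U I (τ + 1) w, (D.FH I (τ + 1) w, D.cD U (sl I) (τ + 1) w, D.cD U (lo I) τ w))) ↔ D.top v = D.top w ∧
      D.y v ∈ (univ.filter fun y' : K → β => (∀ j ∈ I, y' j = D.y w j) ∧
        ∀ j, D.cl ((τ + 1) / 2) (y' j) = D.cl ((τ + 1) / 2) (D.y w j)) ∧
      ∃ hv : D.hx v ∈ D.sp (D.top (D.rep w)), ⟨D.hx v, hv⟩ ∈ uJ (H (D.rep w)) (U (D.rep w)) I (τ + 1) (D.hr w) (D.y w) := by
  simp only [Prod.mk.injEq]
  rw [FH_eq, cD_eq, cD_eq, Finset.mem_filter]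
  unfold uJ
  simp only [mem_cls, hc.qa]
  constructor
  · rintro ⟨h0, ⟨h1, h2, h3, h4⟩, h5, h6⟩
    have hv := sp_rep (D := D) h1
    refine ⟨h1, ⟨mem_univ _, h2, h3⟩, hv, h4, fun J hJ => ?_⟩
    have h7 : D.uI U J (τ + 1) v = D.uI U J (τ + 1) w := by
      by_cases hJI : J = I
      · rw [hJI]
        exact h0
      · exact h5 J (mem_sl.2 ⟨(mem_lo.1 hJ).1, (mem_lo.1 hJ).2.ssubset_of_ne hJI⟩)
    rw [uI_dep hc hs (mem_lo.1 hJ).2 h1 hv h2 h3] at h7
    exact h7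
  · rintro ⟨h1, ⟨-, h2, h3⟩, hv, h4, h5⟩
    have h6 : ∀ J ∈ lo I, D.uI U J (τ + 1) v = D.uI U J (τ + 1) w := by
      intro J hJ
      rw [uI_dep hc hs (mem_lo.1 hJ).2 h1 hv h2 h3]
      exact h5 J hJ
    refine ⟨h6 I (mem_lo.2 ⟨hI, Finset.Subset.refl _⟩), ⟨h1, h2, h3, h4⟩,
      fun J hJ => h6 J (mem_lo.2 ⟨(mem_sl.1 hJ).1, (mem_sl.1 hJ).2.subset⟩), fun J hJ => ?_⟩
    exact ref_uI hc hs (mem_lo.1 hJ).2 (FH_eq.2 ⟨h1, h2, h3, h4⟩) (h6 J hJ)

/-- **the entropy of a step** -/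
theorem hc_step {I : Finset K} (hI : I ∈ JJ K) (τ : ℕ) :
    D.P.Hc (D.uI U I (τ + 1)) (fun w => (D.FH I (τ + 1) w, D.cD U (sl I) (τ + 1) w, D.cD U (lo I) τ w)) =
      D.P.E (fun w => EV fun x y => Real.log (((mJ (H (D.rep w)) (U (D.rep w)) I τ x y).card : ℝ) /
        (uJ (H (D.rep w)) (U (D.rep w)) I (τ + 1) x y).card)) := by
  classical
  rw [Hc_log, ← D.E_EV fun w0 x y => Real.log (((mJ (H w0) (U w0) I τ x y).card : ℝ) / (uJ (H w0) (U w0) I (τ + 1) x y).card)]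
  refine D.P.E_congr fun w _ => ?_
  rw [D.m_ratio (mem_cut_m hc hs τ w) (mem_cut_u hc hs hI τ w)]

/-- the initial entropy -/
theorem hc_zero {I : Finset K} (hI : I ∈ JJ K) :
    D.P.Hc (D.uI U I 0) (fun w => (D.FH I 0 w, D.cD U (sl I) 0 w)) =
      D.P.E (fun w => EV fun x y => Real.log (((lJ (H (D.rep w)) (U (D.rep w)) I 0 x y).card : ℝ) /
        (uJ (H (D.rep w)) (U (D.rep w)) I 0 x y).card)) := by
  classical
  rw [Hc_log, ← D.E_EV fun w0 x y => Real.log (((lJ (H w0) (U w0) I 0 x y).card : ℝ) / (uJ (H w0) (U w0) I 0 x y).card)]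
  refine D.P.E_congr fun w _ => ?_
  rw [D.m_ratio (Ys := univ.filter fun y' : K → β => (∀ j ∈ I, y' j = D.y w j) ∧
        ∀ j, D.cl (0 / 2) (y' j) = D.cl (0 / 2) (D.y w j))
    (A := lJ (H (D.rep w)) (U (D.rep w)) I 0 (D.hr w) (D.y w))
    (A' := uJ (H (D.rep w)) (U (D.rep w)) I 0 (D.hr w) (D.y w)) (fun v => ?_) (fun v => ?_)]
  · simp only [Prod.mk.injEq]
    rw [FH_eq, cD_eq, Finset.mem_filter]
    unfold lJ
    simp only [mem_cls, hc.qa]
    constructor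
    · rintro ⟨⟨h1, h2, h3, h4⟩, h5⟩
      have hv := sp_rep (D := D) h1
      refine ⟨h1, ⟨mem_univ _, h2, h3⟩, hv, h4, fun J hJ => ?_⟩
      have := h5 J hJ
      rw [uI_dep hc hs (mem_sl.1 hJ).2.subset h1 hv h2 h3] at this
      exact this
    · rintro ⟨h1, ⟨-, h2, h3⟩, hv, h4, h5⟩
      refine ⟨⟨h1, h2, h3, h4⟩, fun J hJ => ?_⟩
      rw [uI_dep hc hs (mem_sl.1 hJ).2.subset h1 hv h2 h3]
      exact h5 J hJ
  · simp only [Prod.mk.injEq]
    rw [FH_eq, cD_eq, Finset.mem_filter]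
    unfold uJ
    simp only [mem_cls, hc.qa]
    constructor
    · rintro ⟨h0, ⟨h1, h2, h3, h4⟩, h5⟩
      have hv := sp_rep (D := D) h1
      refine ⟨h1, ⟨mem_univ _, h2, h3⟩, hv, h4, fun J hJ => ?_⟩
      have h7 : D.uI U J 0 v = D.uI U J 0 w := by
        by_cases hJI : J = I
        · rw [hJI]
          exact h0
        · exact h5 J (mem_sl.2 ⟨(mem_lo.1 hJ).1, (mem_lo.1 hJ).2.ssubset_of_ne hJI⟩)
      rw [uI_dep hc hs (mem_lo.1 hJ).2 h1 hv h2 h3] at h7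
      exact h7
    · rintro ⟨h1, ⟨-, h2, h3⟩, hv, h4, h5⟩
      have h6 : ∀ J ∈ lo I, D.uI U J 0 v = D.uI U J 0 w := by
        intro J hJ
        rw [uI_dep hc hs (mem_lo.1 hJ).2 h1 hv h2 h3]
        exact h5 J hJ
      exact ⟨h6 I (mem_lo.2 ⟨hI, Finset.Subset.refl _⟩), ⟨h1, h2, h3, h4⟩,
        fun J hJ => h6 J (mem_lo.2 ⟨(mem_sl.1 hJ).1, (mem_sl.1 hJ).2.subset⟩)⟩

omit hc hs in
/-- the chain rule over a down closed family of classes -/
theorem hc_chain {κ' : Type} (Z : Om → κ') (e : Finset K → ℝ) (τ : ℕ)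
    (hstep : ∀ 𝒟 : Finset (Finset K), ∀ I, sl I ⊆ 𝒟 → I ∉ 𝒟 → I ∈ JJ K → (∀ J ∈ insert I 𝒟, J ∈ JJ K) →
      D.P.Hc (D.uI U I τ) (fun w => (D.cD U 𝒟 τ w, Z w)) ≤ e I) (n : ℕ) :
    ∀ 𝒟 : Finset (Finset K), 𝒟.card = n → (∀ I ∈ 𝒟, I ∈ JJ K) → (∀ I ∈ 𝒟, sl I ⊆ 𝒟) →
      D.P.Hc (D.cD U 𝒟 τ) Z ≤ ∑ I ∈ 𝒟, e I := by
  classical
  induction n with
  | zero =>
    intro 𝒟 h𝒟 _ _
    rw [Finset.card_eq_zero] at h𝒟
    subst h𝒟
    rw [Finset.sum_empty]
    have h1 : D.P.Hc (D.cD U ∅ τ) Z ≤ D.P.Hc (fun _ : Om => ()) Z :=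
      D.P.Hc_mono Z fun v w _ => cD_eq.2 fun I hI => absurd hI (Finset.notMem_empty I)
    refine h1.trans ((D.P.Hc_le_H _ _).trans (le_of_eq (D.P.H_const ())))
  | succ n ih =>
    intro 𝒟 h𝒟 hJ hdown
    have hne : 𝒟.Nonempty := Finset.card_pos.1 (by omega)
    obtain ⟨I, hI, hmax⟩ := Finset.exists_max_image 𝒟 Finset.card hne
    have hins : insert I (𝒟.erase I) = 𝒟 := Finset.insert_erase hI
    have h1 : D.P.Hc (D.cD U 𝒟 τ) Z ≤ D.P.Hc (fun w => (D.uI U I τ w, D.cD U (𝒟.erase I) τ w)) Z := by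
      refine D.P.Hc_mono Z fun v w h => ?_
      have h2 : (D.uI U I τ v, D.cD U (𝒟.erase I) τ v) = (D.uI U I τ w, D.cD U (𝒟.erase I) τ w) :=
        congrArg Prod.fst h
      rw [Prod.mk.injEq] at h2
      refine cD_eq.2 fun J hJ' => ?_
      by_cases hJI : J = I
      · rw [hJI]
        exact h2.1
      · exact cD_eq.1 h2.2 J (Finset.mem_erase.2 ⟨hJI, hJ'⟩)
    have h2 := D.P.Hc_chain (D.uI U I τ) (D.cD U (𝒟.erase I) τ) Z
    have h3 := ih (𝒟.erase I) (by rw [Finset.card_erase_of_mem hI, h𝒟]; rfl)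
      (fun J hJ' => hJ J (Finset.mem_of_mem_erase hJ')) (fun J hJ' L hL => by
        refine Finset.mem_erase.2 ⟨?_, hdown J (Finset.mem_of_mem_erase hJ') hL⟩
        rintro rfl
        have h4 := Finset.card_lt_card (mem_sl.1 hL).2
        have h5 := hmax J (Finset.mem_of_mem_erase hJ')
        omega)
    have h4 := hstep (𝒟.erase I) I (fun L hL => Finset.mem_erase.2 ⟨fun h => by
        rw [h] at hL
        exact (mem_sl.1 hL).2.ne rfl, hdown I hI hL⟩) (Finset.notMem_erase I 𝒟) (hJ I hI)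
      (fun J hJ' => by
        rw [hins] at hJ'
        exact hJ J hJ')
    rw [← Finset.add_sum_erase 𝒟 e hI]
    linarith

omit hc hs in
theorem sl_lo {I W : Finset K} (h : I ∈ lo W) : sl I ⊆ lo W := fun _ hJ =>
  mem_lo.2 ⟨(mem_sl.1 hJ).1, (mem_sl.1 hJ).2.subset.trans (mem_lo.1 h).2⟩

/-- one HD step -/
theorem hc_one (W : Finset K) (τ : ℕ) :
    D.P.Hc (D.cD U (lo W) (τ + 1)) (fun w => (D.FH W (τ + 1) w, D.cD U (lo W) τ w)) ≤
      ∑ I ∈ lo W, D.P.E (fun w => EV fun x y => Real.log (((mJ (H (D.rep w)) (U (D.rep w)) I τ x y).card : ℝ) /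
        (uJ (H (D.rep w)) (U (D.rep w)) I (τ + 1) x y).card)) := by
  classical
  have h := hc_chain (D := D) (U := U) (fun w => (D.FH W (τ + 1) w, D.cD U (lo W) τ w))
    (fun I => if I ⊆ W then D.P.E (fun w => EV fun x y =>
      Real.log (((mJ (H (D.rep w)) (U (D.rep w)) I τ x y).card : ℝ) /
        (uJ (H (D.rep w)) (U (D.rep w)) I (τ + 1) x y).card)) else
      D.P.Hc (D.uI U I (τ + 1)) (fun _ => ())) (τ + 1) (fun 𝒟 I h1 _ h3 _ => by
      beta_reduce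
      split_ifs with hIW
      · rw [← hc_step hc hs h3 τ]
        refine D.P.Hc_anti _ fun v w hvw => ?_
        simp only [Prod.mk.injEq] at hvw ⊢
        obtain ⟨h4, h5, h6⟩ := hvw
        rw [FH_eq] at h5
        refine ⟨FH_eq.2 ⟨h5.1, fun j hj => h5.2.1 j (hIW hj), h5.2.2.1, h5.2.2.2⟩, cD_mono h1 h4,
          cD_mono (fun J hJ => mem_lo.2 ⟨(mem_lo.1 hJ).1, (mem_lo.1 hJ).2.trans hIW⟩) h6⟩
      · exact D.P.Hc_anti _ (Fac.const _ _)) (lo W).card (lo W) rfl (fun I hI => (mem_lo.1 hI).1)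
      (fun I hI => sl_lo hI)
  refine h.trans (le_of_eq (Finset.sum_congr rfl fun I hI => ?_))
  rw [if_pos (mem_lo.1 hI).2]

/-- time zero -/
theorem hc_start (W : Finset K) :
    D.P.Hc (D.cD U (lo W) 0) (D.FH W 0) ≤
      ∑ I ∈ lo W, D.P.E (fun w => EV fun x y => Real.log (((lJ (H (D.rep w)) (U (D.rep w)) I 0 x y).card : ℝ) /
        (uJ (H (D.rep w)) (U (D.rep w)) I 0 x y).card)) := by
  classical
  have h := hc_chain (D := D) (U := U) (D.FH W 0)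
    (fun I => if I ⊆ W then D.P.E (fun w => EV fun x y =>
      Real.log (((lJ (H (D.rep w)) (U (D.rep w)) I 0 x y).card : ℝ) /
        (uJ (H (D.rep w)) (U (D.rep w)) I 0 x y).card)) else
      D.P.Hc (D.uI U I 0) (fun _ => ())) 0 (fun 𝒟 I h1 _ h3 _ => by
      beta_reduce
      split_ifs with hIW
      · rw [← hc_zero hc hs h3]
        refine D.P.Hc_anti _ fun v w hvw => ?_
        simp only [Prod.mk.injEq] at hvw ⊢
        obtain ⟨h4, h5⟩ := hvw
        rw [FH_eq] at h5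
        exact ⟨FH_eq.2 ⟨h5.1, fun j hj => h5.2.1 j (hIW hj), h5.2.2.1, h5.2.2.2⟩, cD_mono h1 h4⟩
      · exact D.P.Hc_anti _ (Fac.const _ _)) (lo W).card (lo W) rfl (fun I hI => (mem_lo.1 hI).1)
      (fun I hI => sl_lo hI)
  refine h.trans (le_of_eq (Finset.sum_congr rfl fun I hI => ?_))
  rw [if_pos (mem_lo.1 hI).2]

/-- two HD steps -/
theorem hc_two (W : Finset K) (t : ℕ) :
    D.P.Hc (D.cD U (lo W) (2 * (t + 1))) (fun w => (D.FW W (t + 1) w, D.cD U (lo W) (2 * t) w)) ≤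
      ∑ τ ∈ ({2 * t, 2 * t + 1} : Finset ℕ), D.P.Hc (D.cD U (lo W) (τ + 1)) (fun w => (D.FH W (τ + 1) w, D.cD U (lo W) τ w)) := by
  classical
  rw [Finset.sum_pair (by omega), ← D.FH_even]
  have e1 : 2 * (t + 1) = 2 * t + 1 + 1 := by ring
  rw [e1]
  have h1 : D.P.Hc (D.cD U (lo W) (2 * t + 1 + 1)) (fun w => (D.FH W (2 * t + 1 + 1) w, D.cD U (lo W) (2 * t) w)) ≤
      D.P.Hc (fun w => (D.cD U (lo W) (2 * t + 1 + 1) w, D.cD U (lo W) (2 * t + 1) w))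
        (fun w => (D.FH W (2 * t + 1 + 1) w, D.cD U (lo W) (2 * t) w)) :=
    D.P.Hc_mono _ fun v w h => congrArg (fun z => z.1.1) h
  rw [D.P.Hc_chain] at h1
  refine h1.trans (add_le_add ?_ ?_)
  · refine D.P.Hc_anti _ fun v w h => ?_
    simp only [Prod.mk.injEq] at h ⊢
    exact ⟨D.filt_FH W _ v w h.1, h.2⟩
  · refine D.P.Hc_anti _ fun v w h => ?_
    simp only [Prod.mk.injEq] at h ⊢
    exact ⟨h.2.1, h.1⟩

/-- **THE ENTROPIES OF THE CLASSES** -/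
theorem ent_cW (W : Finset K) (n : ℕ) :
    D.P.Hc (D.cD U (lo W) 0) (D.FW W 0) + ∑ t ∈ range n,
      D.P.Hc (D.cD U (lo W) (2 * (t + 1))) (fun w => (D.FW W (t + 1) w, D.cD U (lo W) (2 * t) w)) ≤
      ∑ I ∈ lo W, D.P.E (fun w => bitsJ (H (D.rep w)) (U (D.rep w)) (2 * n) I) := by
  classical
  have h0 := hc_start hc hs W
  have e0 : D.FH W 0 = D.FW W 0 := D.FH_even W 0
  rw [e0] at h0
  have h1 : ∑ t ∈ range n,
      D.P.Hc (D.cD U (lo W) (2 * (t + 1))) (fun w => (D.FW W (t + 1) w, D.cD U (lo W) (2 * t) w)) ≤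
      ∑ τ ∈ range (2 * n), D.P.Hc (D.cD U (lo W) (τ + 1)) (fun w => (D.FH W (τ + 1) w, D.cD U (lo W) τ w)) := by
    induction n with
    | zero => simp
    | succ n ih =>
      have h2 := hc_two hc hs W n
      rw [Finset.sum_range_succ, show 2 * (n + 1) = 2 * n + 1 + 1 by ring, Finset.sum_range_succ, Finset.sum_range_succ]
      rw [Finset.sum_pair (by omega)] at h2
      rw [show 2 * (n + 1) = 2 * n + 1 + 1 by ring] at h2
      linarith
  have h2 : ∑ τ ∈ range (2 * n), D.P.Hc (D.cD U (lo W) (τ + 1)) (fun w => (D.FH W (τ + 1) w, D.cD U (lo W) τ w)) ≤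
      ∑ τ ∈ range (2 * n), ∑ I ∈ lo W, D.P.E (fun w => EV fun x y =>
        Real.log (((mJ (H (D.rep w)) (U (D.rep w)) I τ x y).card : ℝ) /
          (uJ (H (D.rep w)) (U (D.rep w)) I (τ + 1) x y).card)) :=
    Finset.sum_le_sum fun τ _ => hc_one hc hs W τ
  refine (add_le_add h0 (h1.trans h2)).trans (le_of_eq ?_)
  rw [Finset.sum_comm, ← Finset.sum_add_distrib]
  refine Finset.sum_congr rfl fun I _ => ?_
  rw [← D.P.E_sum, ← D.P.E_add]
  rfl

end WD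

end

end Pool.Agent.GMJR
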