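import Pool.Agent.GMJR.ScrC

/-!
# GMJR/ClsU (helper52): codes of the classes in one value type

`SameU U U'` = the same partitions.  `codeU e U I t x y` = the class as a set of pairs (image of the hidden point under `e`,
known points), a value in the type `Set (X0 × (K → β))` which does not depend on `X` and `U`.
`sys`, `cls_eq'`, `dJ_eq`, `bitsJ_eq`, `labD_eq`, `allD_eq'`, `coldD_iff`, `hot_iff`, `ever_iff` : nothing changes.
-/

set_option autoImplicit false
set_option linter.unusedSectionVars false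

namespace Pool.Agent.GMJR

open Finset Pool.Agent.PWZ Pool.Agent.M3 Pool.Agent.GM.Harm
open Pool.Agent.M3.S3 (avg)

noncomputable section

variable {K X β γ φ υ υ' : Type} [Fintype K] [DecidableEq K] [Fintype X] [Fintype β] [Fintype φ]

/-- the same partitions -/
def SameU (U : Finset K → ℕ → X → (K → β) → υ) (U' : Finset K → ℕ → X → (K → β) → υ') : Prop :=
  ∀ I t x y x' y', U' I t x y = U' I t x' y' ↔ U I t x y = U I t x' y'

/-- the code of a class -/
def codeU {X0 : Type} (e : X → X0) (U : Finset K → ℕ → X → (K → β) → υ) (I : Finset K) (t : ℕ) (x : X) (y : K → β) :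
    Set (X0 × (K → β)) := {p | ∃ x', e x' = p.1 ∧ U I t x' p.2 = U I t x y}

theorem same_code {X0 : Type} {e : X → X0} (he : Function.Injective e) (U : Finset K → ℕ → X → (K → β) → υ) :
    SameU U (codeU e U) := by
  intro I t x y x' y'
  constructor
  · intro h
    have h1 : (e x', y') ∈ codeU e U I t x' y' := ⟨x', rfl, rfl⟩
    rw [← h] at h1
    obtain ⟨z, h2, h3⟩ := h1
    rw [he h2] at h3
    exact h3.symm
  · intro h
    unfold codeU
    rw [h]

namespace SameU

variable {D : HD K X β γ φ} {U : Finset K → ℕ → X → (K → β) → υ} {U' : Finset K → ℕ → X → (K → β) → υ'}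
  (h : SameU U U')
include h

theorem sys (hs : GM.Harm.Sys D U) : GM.Harm.Sys D U' where
  dep := fun I t x y y' h1 h2 => (h I t x y x y').2 (hs.dep I t x y y' h1 h2)
  ref := fun I t x y x' y' h1 h2 h3 h4 => (h I t x y x' y').2 (hs.ref I t x y x' y' h1 h2 h3 ((h _ _ _ _ _ _).1 h4))

theorem cls_eq' (Js : Finset (Finset K)) (t : ℕ) (x : X) (y : K → β) : cls D U' Js t x y = cls D U Js t x y := by
  ext z
  rw [mem_cls, mem_cls]
  exact and_congr Iff.rfl (forall_congr' fun I => forall_congr' fun _ => h I t z y x y)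

theorem uJ_eq (J : Finset K) (t : ℕ) (x : X) (y : K → β) : uJ D U' J t x y = uJ D U J t x y := h.cls_eq' _ t x y

theorem lJ_eq (J : Finset K) (t : ℕ) (x : X) (y : K → β) : lJ D U' J t x y = lJ D U J t x y := h.cls_eq' _ t x y

theorem mJ_eq (J : Finset K) (t : ℕ) (x : X) (y : K → β) : mJ D U' J t x y = mJ D U J t x y := by
  ext z
  rw [mem_mJ, mem_mJ, h.lJ_eq]
  exact and_congr Iff.rfl (forall_congr' fun I => forall_congr' fun _ => h I t z y x y)

theorem wL_eq (l : K) (t : ℕ) (x : X) (y : K → β) : wL D U' l t x y = wL D U l t x y := h.cls_eq' _ t x y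

theorem vA_eq (t : ℕ) (x : X) (y : K → β) : vA D U' t x y = vA D U t x y := h.cls_eq' _ t x y

theorem dJ_eq (J : Finset K) (t : ℕ) (x : X) (y : K → β) : dJ D U' J t x y = dJ D U J t x y := by
  unfold dJ
  rw [h.uJ_eq, h.lJ_eq]

theorem pL_eq (l : K) (t : ℕ) (x : X) (y : K → β) (F : φ) : pL D U' l t x y F = pL D U l t x y F := by
  unfold pL
  rw [h.wL_eq]

theorem pA_eq' (t : ℕ) (x : X) (y : K → β) (F : K → φ) : pA D U' t x y F = pA D U t x y F := by
  unfold pA
  rw [h.vA_eq]

theorem bitsJ_eq (T : ℕ) (J : Finset K) : bitsJ D U' T J = bitsJ D U T J := by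
  unfold bitsJ
  simp only [h.lJ_eq, h.uJ_eq, h.mJ_eq]

theorem hot_iff (K' : ℝ) (t : ℕ) (w : Pt K X β φ) : hot D U' K' t w ↔ hot D U K' t w := by
  unfold hot
  simp only [h.dJ_eq, h.pL_eq, h.pA_eq']

theorem ever_iff (pr : ℕ → K → φ → φ) (K' : ℝ) (T : ℕ) : ∀ w : Pt K X β φ, ever D U' pr K' T w ↔ ever D U pr K' T w := by
  induction T with
  | zero => exact fun w => h.hot_iff K' 0 w
  | succ T ih =>
    intro w
    show (hot D U' K' (T + 1) w ∨ ever D U' pr K' T _) ↔ (hot D U K' (T + 1) w ∨ ever D U pr K' T _)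
    rw [h.hot_iff, ih]

end SameU

section scripts

variable {N : ℕ} {D : HD K X β γ (Fin (N + 1) → Option φ)} {U : Finset K → ℕ → X → (K → β) → υ}
  {U' : Finset K → ℕ → X → (K → β) → υ'} (h : SameU U U') (tc : K → ℕ → X → (K → β) → Option φ)
include h

theorem SameU.labD_eq (l : K) (t : ℕ) (x : X) (y : K → β) : ScrD.labD D U' tc l t x y = ScrD.labD D U tc l t x y := by
  unfold ScrD.labD
  rw [h.wL_eq]

theorem SameU.allD_eq' (t : ℕ) (x : X) (y : K → β) : ScrD.allD D U' tc t x y = ScrD.allD D U tc t x y := by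
  unfold ScrD.allD
  congr 1
  funext x'
  congr 1
  rw [eq_iff_iff]
  exact and_congr (forall_congr' fun I => forall_congr' fun _ => h I t x' y x y) Iff.rfl

theorem SameU.coldD_iff (K' e : ℝ) (t : ℕ) (x : X) (y : K → β) :
    ScrD.coldD D U' tc K' e t x y ↔ ScrD.coldD D U tc K' e t x y := by
  unfold ScrD.coldD
  simp only [h.dJ_eq, h.labD_eq, h.allD_eq']

end scripts

end

end Pool.Agent.GMJR
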