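import Pool.Agent.GM.Sys

/-!
# GMJR/HG (helper97): the geometry of ONE HIDDEN VERTEX `v` of a `Sys` (record lemma `JR_v`, `v ≥ 2`)

`HG S v` : hidden points `X` (the vertex `v` and the noise), `hx w` the hidden point, `hv` its vertex, `th w` public
randomness (known from every node), `gf t θ y x` the node as a function; given `th`, the coins and the other vertices
the hidden point is uniform (`law`).  Hidden cells `qa τ`, `τ = 0, .., 2 n` (two digits for one node, `dg`), known cells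
`S.cl t` (halved or unchanged, `half`).  Constant `Kg`:
* `near` : a hidden cell is near to few hidden points; `opt` : few hidden cells are compatible with (cells, node);
* `cmpr` : hidden cells are not larger than nodes; `fb`, `opn`, `box` : nodes which are possible when the vertex `u` varies in
  its cell.
The instance in the binary model: `GMJR/HGbin`.
-/

set_option autoImplicit false
set_option linter.unusedSectionVars false

namespace Pool.Agent.GMJR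

open Finset Pool.Agent.PWZ Pool.Agent.M3 Pool.Agent.M3.TS Pool.Agent.GM

noncomputable section

variable {ι Om Ξ Pt V Γ κ : Type} [Fintype ι] [DecidableEq ι] [Fintype Om] [Fintype Ξ] [Fintype Pt]
  [Fintype V]

/-- the geometry of the hidden vertex `v` -/
structure HG (S : Sys ι Om Ξ Pt V Γ κ) (v : ι) where
  X : Type
  fX : Fintype X
  Θ : Type
  γ : Type
  /-- public randomness -/
  th : Om → Θ
  /-- hidden point -/
  hx : Om → X
  /-- its vertex -/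
  hv : X → Pt
  hv_eq : ∀ w, hv (hx w) = S.x w v
  th_gm : ∀ t w w', S.gm t w = S.gm t w' → th w = th w'
  /-- the node as a function -/
  gf : ℕ → Θ → (ι → Pt) → X → Γ
  gf_eq : ∀ t w, gf t (th w) (S.x w) (hx w) = S.gm t w
  /-- the hidden point is uniform -/
  law : ∀ w0 (ξ : Ξ) (y : ι → Pt) (x : X),
    S.P.Pr (fun w => th w = th w0 ∧ S.xi w = ξ ∧ (∀ j, j ≠ v → S.x w j = y j) ∧ hx w = x) =
      S.P.Pr (fun w => th w = th w0) /
        (Fintype.card Ξ * (Fintype.card Pt : ℝ) ^ (Fintype.card ι - 1) * (@Fintype.card X fX))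
  /-- hidden cells, two digits for one node -/
  qa : ℕ → X → γ
  ra : ∀ τ x x', qa (τ + 1) x = qa (τ + 1) x' → qa τ x = qa τ x'
  dg : ℕ → X → ℝ
  dg_val : ∀ τ x, dg τ x = 1 ∨ dg τ x = -1
  dg_cell : ∀ τ < 2 * S.n, ∀ x x', qa (τ + 1) x = qa (τ + 1) x' ↔ qa τ x = qa τ x' ∧ dg τ x = dg τ x'
  dg_bal : ∀ τ < 2 * S.n, ∀ x, ∑ x' ∈ (@Finset.univ X fX), ind (qa τ x' = qa τ x) * dg τ x' = 0
  /-- known cells -/
  half : ∀ t < S.n, (∀ b b', S.cl (t + 1) b' = S.cl (t + 1) b ↔ S.cl t b' = S.cl t b) ∨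
    ∀ b : Pt, 2 * ∑ b', ind (S.cl (t + 1) b' = S.cl (t + 1) b) = ∑ b', ind (S.cl t b' = S.cl t b)
  Kg : ℝ
  Kg1 : 1 ≤ Kg
  Kg_le : Kg ≤ S.K ^ 2
  near : ∀ t ≤ S.n, ∀ w0 (x' : X),
    ∑ x ∈ (@Finset.univ X fX), ind (∃ w1 w2, th w1 = th w0 ∧ (∀ j, j ≠ v → S.cl t (S.x w1 j) = S.cl t (S.x w0 j)) ∧
      qa (2 * t) (hx w1) = qa (2 * t) x ∧ (∀ j, j ≠ v → S.cl t (S.x w2 j) = S.cl t (S.x w1 j)) ∧
      S.gm t w2 = S.gm t w1 ∧ qa (2 * t) (hx w2) = qa (2 * t) x') ≤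
    Kg * ∑ x ∈ (@Finset.univ X fX), ind (qa (2 * t) x = qa (2 * t) x')
  opt : ∀ t ≤ S.n, ∀ w, ∃ s : Finset γ, (s.card : ℝ) ≤ Kg ∧
    ∀ w', (∀ j, j ≠ v → S.cl t (S.x w' j) = S.cl t (S.x w j)) → S.gm t w' = S.gm t w → qa (2 * t) (hx w') ∈ s
  cmpr : ∀ t ≤ S.n, ∀ w0 w9, th w9 = th w0 → ∀ x' : X,
    ∑ x ∈ (@Finset.univ X fX), ind (qa (2 * t) x = qa (2 * t) x') ≤
      Kg * ∑ x ∈ (@Finset.univ X fX), ind (gf t (th w0) (Function.update (S.x w0) v (hv x)) x = S.gm t w9)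
  fb : ∀ t ≤ S.n, ∀ u, u ≠ v → ∀ w0 w9,
    ∑ x ∈ (@Finset.univ X fX), ∑ b : Pt, ind (hv x = S.x w0 v ∧
      ∃ b', S.cl t b' = S.cl t b ∧ gf t (th w0) (Function.update (S.x w0) u b') x = S.gm t w9) ≤
    Kg * ∑ x ∈ (@Finset.univ X fX), ∑ b : Pt, ind (hv x = S.x w0 v ∧
      gf t (th w0) (Function.update (S.x w0) u b) x = S.gm t w9)
  opn : ∀ t ≤ S.n, ∀ u, u ≠ v → ∀ w0, ∃ s : Finset Γ, (s.card : ℝ) ≤ Kg ∧
    ∀ b', S.cl t b' = S.cl t (S.x w0 u) → gf t (th w0) (Function.update (S.x w0) u b') (hx w0) ∈ s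
  box : ∀ t ≤ S.n, ∀ u, u ≠ v → ∀ w0, ∃ s : Finset (κ × Γ), (s.card : ℝ) ≤ Kg ∧
    ∀ x' b', qa (2 * t) x' = qa (2 * t) (hx w0) → S.cl t b' = S.cl t (S.x w0 u) →
      (S.cl t (hv x'), gf t (th w0) (Function.update (Function.update (S.x w0) v (hv x')) u b') x') ∈ s

end

end Pool.Agent.GMJR
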