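import Pool.Agent.GMN.Vis
import Pool.Agent.GMN.State
import Pool.Agent.GMJR.HG

/-!
# GMJR/RawL (helper96): THE RAW LABEL of a reference vertex, from the geometry `HG` of one hidden vertex `v`

`Rf` = reference vertices (`v ∉ Rf`), `K = {u // u ∈ Rf}`; a point of the world with the top of `w0` : `y : K → Pt`, `x : H.X`
(hidden point); `pt w0 y x` its vertices, `nd t w0 y x` its node (`real` : all these points are realised).
`A : Lst S (univ.erase u)` = list (of traces) of the owner `u`.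

* `raw u A t w0 y x` = union of `A` over the nodes which are possible when `y u` runs in its cell; `raw_dep`, `raw_card`,
  `raw_true` (contains the true list), `raw_self`;
* `fb_pr`, `E_enter` : the mean number of elements which are new at all options is at most `Kg` times the true one;
* `raw_moves` : mean number of changes of the raw label at the true point at most `3 Kg n`, with weights;
* `BX` : box set of the raw labels of the hidden cell, `BX_dep`, `raw_sub_BX`, `BX_card`;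
* `en`, `de`, `Ph nx Mx` : codes of the raw labels (ranks in the box set), `de_en`, `card_Ph`.
-/

set_option autoImplicit false
set_option linter.unusedSectionVars false

namespace Pool.Agent.GMJR

open Finset Pool.Agent.PWZ Pool.Agent.M3 Pool.Agent.M3.TS Pool.Agent.GM Pool.Agent.GMN

noncomputable section

variable {ι Om Ξ Pt V Γ κ : Type} [Fintype ι] [DecidableEq ι] [Fintype Om] [Fintype Ξ] [Fintype Pt]
  [Fintype V]

namespace RawL

variable {S : Sys ι Om Ξ Pt V Γ κ} {v : ι} (H : HG S v) {Rf : Finset ι}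

open Classical in
/-- the vertices of the point `(y, x)` with the top of `w0` -/
def pt (w0 : Om) (y : {u // u ∈ Rf} → Pt) (x : H.X) : ι → Pt := fun i =>
  if i = v then H.hv x else if h : i ∈ Rf then y ⟨i, h⟩ else S.x w0 i

/-- its node -/
def nd (t : ℕ) (w0 : Om) (y : {u // u ∈ Rf} → Pt) (x : H.X) : Γ := H.gf t (H.th w0) (pt H w0 y x) x

/-- the vertices of `Rf` -/
def yw (Rf : Finset ι) (w : Om) : {u // u ∈ Rf} → Pt := fun u => S.x w u.1

variable {H}

theorem pt_v (w0 : Om) (y : {u // u ∈ Rf} → Pt) (x : H.X) : pt H w0 y x v = H.hv x := if_pos rfl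

theorem pt_of (w0 : Om) (y : {u // u ∈ Rf} → Pt) (x : H.X) {u : {u // u ∈ Rf}} (h : u.1 ≠ v) :
    pt H w0 y x u.1 = y u := by
  unfold pt
  rw [if_neg h, dif_pos u.2]

theorem pt_out (w0 : Om) (y : {u // u ∈ Rf} → Pt) (x : H.X) {i : ι} (h : i ≠ v) (h' : i ∉ Rf) :
    pt H w0 y x i = S.x w0 i := by
  unfold pt
  rw [if_neg h, dif_neg h']

theorem pt_self (w : Om) : pt H w (yw (S := S) Rf w) (H.hx w) = S.x w := by
  funext i
  unfold pt
  split_ifs with h1 h2
  · rw [h1, H.hv_eq]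
  · rfl
  · rfl

theorem nd_self (t : ℕ) (w : Om) : nd H t w (yw (S := S) Rf w) (H.hx w) = S.gm t w := by
  unfold nd
  rw [pt_self, H.gf_eq]

/-- **all points of the world are realised** -/
theorem real (w0 : Om) (ξ : Ξ) (y : {u // u ∈ Rf} → Pt) (x : H.X) :
    ∃ w, H.th w = H.th w0 ∧ S.xi w = ξ ∧ S.x w = pt H w0 y x ∧ H.hx w = x := by
  by_contra hc
  have h1 := H.law w0 ξ (pt H w0 y x) x
  have h2 : S.P.Pr (fun w => H.th w = H.th w0 ∧ S.xi w = ξ ∧ (∀ j, j ≠ v → S.x w j = pt H w0 y x j) ∧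
      H.hx w = x) = 0 := by
    unfold FP.Pr
    refine (FP.E_congr _ fun w _ => ind_not ?_).trans (FP.E_const _ 0)
    rintro ⟨h3, h4, h5, h6⟩
    refine hc ⟨w, h3, h4, ?_, h6⟩
    funext j
    by_cases hj : j = v
    · rw [hj, pt_v, ← H.hv_eq, h6]
    · exact h5 j hj
  rw [h2] at h1
  have h3 : 0 < S.P.Pr (fun w => H.th w = H.th w0) := S.P.m_pos (fun w => H.th w) (S.ppos w0)
  have h4 := S.cXi
  have h5 := S.cPt v
  have h6 : (0 : ℝ) < @Fintype.card H.X H.fX := by
    have : Nonempty H.X := ⟨x⟩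
    exact_mod_cast @Fintype.card_pos H.X H.fX _
  have h7 : 0 < S.P.Pr (fun w => H.th w = H.th w0) /
      (Fintype.card Ξ * (Fintype.card Pt : ℝ) ^ (Fintype.card ι - 1) * (@Fintype.card H.X H.fX)) := by positivity
  linarith

/-- only the top of `w0` matters -/
theorem pt_top {w0 w1 : Om} (h : ∀ i, i ∉ Rf → i ≠ v → S.x w0 i = S.x w1 i) (y : {u // u ∈ Rf} → Pt) (x : H.X) :
    pt H w0 y x = pt H w1 y x := by
  funext i
  unfold pt
  split_ifs with h1 h2
  · rfl
  · rfl
  · exact h i h2 h1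

theorem nd_top {w0 w1 : Om} (h0 : H.th w0 = H.th w1) (h : ∀ i, i ∉ Rf → i ≠ v → S.x w0 i = S.x w1 i) (t : ℕ)
    (y : {u // u ∈ Rf} → Pt) (x : H.X) : nd H t w0 y x = nd H t w1 y x := by
  unfold nd
  rw [pt_top h, h0]

/-- a node of the world is the node of every sample point which realises the point -/
theorem nd_real (t : ℕ) {w0 w : Om} {y : {u // u ∈ Rf} → Pt} {x : H.X} (h1 : H.th w = H.th w0)
    (h2 : S.x w = pt H w0 y x) (h3 : H.hx w = x) : nd H t w0 y x = S.gm t w := by
  unfold nd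
  rw [← h1, ← h2, ← h3, H.gf_eq]

theorem nd_par (t : ℕ) (w0 : Om) (y : {u // u ∈ Rf} → Pt) (x : H.X) :
    S.par t (nd H (t + 1) w0 y x) = nd H t w0 y x := by
  obtain ⟨w, h1, -, h2, h3⟩ := real (H := H) w0 (S.xi w0) y x
  rw [nd_real (t + 1) h1 h2 h3, nd_real t h1 h2 h3, S.par_gm]

variable (H)

/-- all points of the cell -/
def cell (S : Sys ι Om Ξ Pt V Γ κ) (t : ℕ) (b : Pt) : Finset Pt := by
  classical exact univ.filter fun b' => S.cl t b' = S.cl t b

open Classical in
/-- **THE RAW LABEL** of the owner `u` -/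
def raw (u : {u // u ∈ Rf}) (A : Lst S (univ.erase u.1)) (t : ℕ) (w0 : Om) (ξ : Ξ)
    (y : {u // u ∈ Rf} → Pt) (x : H.X) : Finset ℕ :=
  (cell S t (y u)).biUnion fun b' =>
    A.L t (nd H t w0 (Function.update y u b') x) ξ (pt H w0 (Function.update y u b') x)

variable {H}

theorem mem_cell {t : ℕ} {b b' : Pt} : b' ∈ cell S t b ↔ S.cl t b' = S.cl t b := by
  classical
  unfold cell
  rw [mem_filter]
  exact and_iff_right (mem_univ _)

theorem cell_congr {t : ℕ} {b b' : Pt} (h : S.cl t b = S.cl t b') : cell S t b = cell S t b' := by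
  ext z
  rw [mem_cell, mem_cell, h]

theorem mem_raw {u : {u // u ∈ Rf}} {A : Lst S (univ.erase u.1)} {t : ℕ} {w0 : Om} {ξ : Ξ}
    {y : {u // u ∈ Rf} → Pt} {x : H.X} {k : ℕ} : k ∈ raw H u A t w0 ξ y x ↔ ∃ b', S.cl t b' = S.cl t (y u) ∧
      k ∈ A.L t (nd H t w0 (Function.update y u b') x) ξ (pt H w0 (Function.update y u b') x) := by
  classical
  unfold raw
  rw [mem_biUnion]
  exact exists_congr fun b' => and_congr mem_cell Iff.rfl

/-- the raw label does not see the vertex of its owner, but its cell -/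
theorem raw_dep (u : {u // u ∈ Rf}) (A : Lst S (univ.erase u.1)) (t : ℕ) (w0 : Om) (ξ : Ξ)
    {y y' : {u // u ∈ Rf} → Pt} (x : H.X) (h : ∀ j, j ≠ u → y j = y' j) (hc : S.cl t (y u) = S.cl t (y' u)) :
    raw H u A t w0 ξ y x = raw H u A t w0 ξ y' x := by
  have h1 : ∀ b', Function.update y u b' = Function.update y' u b' := by
    intro b'
    funext j
    by_cases hj : j = u
    · subst hj
      rw [Function.update_self, Function.update_self]
    · rw [Function.update_of_ne hj, Function.update_of_ne hj, h j hj]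
  unfold raw
  rw [cell_congr hc]
  simp only [h1]

theorem pt_upd {u : {u // u ∈ Rf}} (hu : u.1 ≠ v) (w0 : Om) (y : {u // u ∈ Rf} → Pt) (b' : Pt) (x : H.X) :
    pt H w0 (Function.update y u b') x = Function.update (pt H w0 y x) u.1 b' := by
  funext i
  by_cases hi : i = u.1
  · subst hi
    rw [Function.update_self, pt_of _ _ _ hu, Function.update_self]
  · rw [Function.update_of_ne hi]
    unfold pt
    split_ifs with h1 h2
    · rfl
    · rw [Function.update_of_ne fun h => hi (congrArg Subtype.val h)]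
    · rfl

theorem raw_top {u : {u // u ∈ Rf}} (A : Lst S (univ.erase u.1)) {w0 w1 : Om} (h0 : H.th w0 = H.th w1)
    (h : ∀ i, i ∉ Rf → i ≠ v → S.x w0 i = S.x w1 i) (t : ℕ) (ξ : Ξ) (y : {u // u ∈ Rf} → Pt) (x : H.X) :
    raw H u A t w0 ξ y x = raw H u A t w1 ξ y x := by
  ext k
  rw [mem_raw, mem_raw]
  refine exists_congr fun b' => and_congr Iff.rfl ?_
  rw [nd_top h0 h, pt_top h]

/-- **the raw label contains the true list** -/
theorem raw_true (u : {u // u ∈ Rf}) (A : Lst S (univ.erase u.1)) (t : ℕ) (w : Om) :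
    A.at' t w ⊆ raw H u A t w (S.xi w) (yw (S := S) Rf w) (H.hx w) := by
  intro k hk
  rw [mem_raw]
  refine ⟨S.x w u.1, rfl, ?_⟩
  have h1 : Function.update (yw (S := S) Rf w) u (S.x w u.1) = yw (S := S) Rf w := by
    funext j
    by_cases hj : j = u
    · subst hj
      rw [Function.update_self]
      rfl
    · rw [Function.update_of_ne hj]
  rw [h1, nd_self, pt_self]
  exact hk

/-- **size of the raw label** -/
theorem raw_card {u : {u // u ∈ Rf}} (hu : u.1 ≠ v) (A : Lst S (univ.erase u.1)) {t : ℕ} (ht : t ≤ S.n) {n : ℕ}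
    (hn : ∀ w, (A.at' t w).card ≤ n) (w0 : Om) (ξ : Ξ) (y : {u // u ∈ Rf} → Pt) (x : H.X) :
    ((raw H u A t w0 ξ y x).card : ℝ) ≤ H.Kg * n := by
  classical
  obtain ⟨w, h1, h2, h3, h4⟩ := real (H := H) w0 ξ y x
  obtain ⟨s, hs1, hs2⟩ := H.opn t ht u.1 hu w
  have hy : S.x w u.1 = y u := by rw [h3, pt_of _ _ _ hu]
  -- the lists at the options
  have h5 : raw H u A t w0 ξ y x ⊆ (s.filter fun g => ∃ w', S.gm t w' = g ∧ S.xi w' = ξ ∧
      ∀ i ∈ univ.erase u.1, S.x w' i = pt H w0 y x i).biUnion fun g => A.L t g ξ (pt H w0 y x) := by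
    intro k hk
    obtain ⟨b', hb, hk⟩ := mem_raw.1 hk
    obtain ⟨w', g1, g2, g3, g4⟩ := real (H := H) w0 ξ (Function.update y u b') x
    rw [mem_biUnion]
    refine ⟨nd H t w0 (Function.update y u b') x, mem_filter.2 ⟨?_, w', (nd_real t g1 g3 g4).symm, g2, fun i hi => ?_⟩, ?_⟩
    · have h6 := hs2 b' (by rw [hy]; exact hb)
      rw [h3, h1, h4, ← pt_upd hu] at h6
      exact h6
    · rw [g3, pt_upd hu, Function.update_of_ne (ne_of_mem_erase hi)]
    · rw [A.dep t _ _ (pt H w0 y x) (pt H w0 (Function.update y u b') x) fun i hi => by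
        rw [pt_upd hu, Function.update_of_ne (ne_of_mem_erase hi)]]
      exact hk
  have h6 : (raw H u A t w0 ξ y x).card ≤ s.card * n := by
    refine (card_le_card h5).trans (card_biUnion_le.trans ?_)
    refine (Finset.sum_le_sum (g := fun _ => n) fun g hg => ?_).trans ?_
    · obtain ⟨w', g1, g2, g3⟩ := (mem_filter.1 hg).2
      have h7 := hn w'
      unfold Lst.at' at h7
      rw [g1, g2, A.dep t _ _ (S.x w') (pt H w0 y x) g3] at h7
      exact h7
    · rw [Finset.sum_const, smul_eq_mul]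
      exact Nat.mul_le_mul_right _ (card_filter_le _ _)
  have h7 : ((raw H u A t w0 ξ y x).card : ℝ) ≤ s.card * n := by exact_mod_cast h6
  exact h7.trans (mul_le_mul_of_nonneg_right hs1 (Nat.cast_nonneg _))

/-! ### the mean number of changes -/

/-- top of the owner `u` : public randomness, coins, all vertices but `u` -/
def Qu (H : HG S v) (u : ι) (w : Om) : H.Θ × Ξ × ({i // i ∈ univ.erase u} → Pt) :=
  (H.th w, S.xi w, res (univ.erase u) (S.x w))

theorem Qu_eq {u : ι} {w w' : Om} : Qu H u w = Qu H u w' ↔ H.th w = H.th w' ∧ S.xi w = S.xi w' ∧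
    ∀ i, i ≠ u → S.x w i = S.x w' i := by
  unfold Qu
  rw [Prod.ext_iff, Prod.ext_iff]
  refine and_congr Iff.rfl (and_congr Iff.rfl ?_)
  refine res_eq.trans ⟨fun h i hi => h i (mem_erase.2 ⟨hi, mem_univ i⟩), fun h i hi => h i (ne_of_mem_erase hi)⟩

/-- `g` is the node of `w` with another point of the cell of `u` -/
def Opt (H : HG S v) (t : ℕ) (u : ι) (g : Γ) (w : Om) : Prop :=
  ∃ b', S.cl t b' = S.cl t (S.x w u) ∧ H.gf t (H.th w) (Function.update (S.x w) u b') (H.hx w) = g

theorem Opt_self (t : ℕ) (u : ι) (w : Om) : Opt H t u (S.gm t w) w :=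
  ⟨S.x w u, rfl, by rw [Function.update_eq_self, H.gf_eq]⟩

/-- a probability as a sum over the hidden point and the vertex `u` -/
theorem Pr_two {u : ι} (hu : u ≠ v) (w0 : Om) (E : Om → Prop) (F : H.X → Pt → Prop)
    (hE : ∀ w, Qu H u w = Qu H u w0 → (E w ↔ F (H.hx w) (S.x w u))) :
    S.P.Pr (fun w => Qu H u w = Qu H u w0 ∧ E w) =
      S.P.Pr (fun w => H.th w = H.th w0) /
        (Fintype.card Ξ * (Fintype.card Pt : ℝ) ^ (Fintype.card ι - 1) * (@Fintype.card H.X H.fX)) *
        ∑ x ∈ (@Finset.univ H.X H.fX), ∑ b : Pt, ind (H.hv x = S.x w0 v ∧ F x b) := by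
  classical
  have h1 : S.P.Pr (fun w => Qu H u w = Qu H u w0 ∧ E w) =
      ∑ x ∈ (@Finset.univ H.X H.fX), ∑ b : Pt, S.P.Pr (fun w => (H.hx w = x ∧ S.x w u = b) ∧
        (Qu H u w = Qu H u w0 ∧ E w)) := by
    unfold FP.Pr
    rw [Finset.sum_congr rfl fun x _ => (S.P.E_sum _ _).symm, ← S.P.E_sum]
    refine S.P.E_congr fun w _ => ?_
    rw [Finset.sum_eq_single (H.hx w), Finset.sum_eq_single (S.x w u)]
    · congr 1
      exact propext ⟨fun h => ⟨⟨rfl, rfl⟩, h⟩, fun h => h.2⟩
    · intro b _ hb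
      exact ind_not fun h => hb h.1.2.symm
    · exact fun h => absurd (mem_univ _) h
    · intro x _ hx
      exact Finset.sum_eq_zero fun b _ => ind_not fun h => hx h.1.1.symm
    · exact fun h => absurd (@Finset.mem_univ H.X H.fX _) h
  rw [h1, Finset.mul_sum]
  refine Finset.sum_congr rfl fun x _ => ?_
  rw [Finset.mul_sum]
  refine Finset.sum_congr rfl fun b _ => ?_
  by_cases h2 : H.hv x = S.x w0 v ∧ F x b
  · rw [ind_of h2, mul_one, ← H.law w0 (S.xi w0) (Function.update (S.x w0) u b) x]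
    refine S.P.Pr_congr fun w _ => ?_
    constructor
    · rintro ⟨⟨h3, h4⟩, h5, h6⟩
      obtain ⟨h7, h8, h9⟩ := Qu_eq.1 h5
      refine ⟨h7, h8, fun j hj => ?_, h3⟩
      by_cases hju : j = u
      · rw [hju, Function.update_self, h4]
      · rw [Function.update_of_ne hju, h9 j hju]
    · rintro ⟨h3, h4, h5, h6⟩
      have h7 : Qu H u w = Qu H u w0 := Qu_eq.2 ⟨h3, h4, fun i hi => by
        by_cases hiv : i = v
        · rw [hiv, ← H.hv_eq, h6, h2.1]
        · rw [h5 i hiv, Function.update_of_ne hi]⟩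
      have h8 : S.x w u = b := by rw [h5 u hu, Function.update_self]
      refine ⟨⟨h6, h8⟩, h7, (hE w h7).2 ?_⟩
      rw [h6, h8]
      exact h2.2
  · rw [ind_not h2, mul_zero]
    unfold FP.Pr
    refine (FP.E_congr _ fun w _ => ind_not ?_).trans (FP.E_const _ 0)
    rintro ⟨⟨h3, h4⟩, h5, h6⟩
    obtain ⟨h7, h8, h9⟩ := Qu_eq.1 h5
    refine h2 ⟨?_, ?_⟩
    · rw [← h3, H.hv_eq, h9 v hu.symm]
    · rw [← h3, ← h4]
      exact (hE w h5).1 h6

/-- **a node is an option with at most `Kg` times the probability that it is the true one** -/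
theorem fb_pr {u : ι} (hu : u ≠ v) {t : ℕ} (ht : t ≤ S.n) (w0 w9 : Om) :
    S.P.Pr (fun w => Qu H u w = Qu H u w0 ∧ Opt H t u (S.gm t w9) w) ≤
      H.Kg * S.P.Pr (fun w => Qu H u w = Qu H u w0 ∧ S.gm t w = S.gm t w9) := by
  have hup : ∀ w, Qu H u w = Qu H u w0 → ∀ b', Function.update (S.x w) u b' = Function.update (S.x w0) u b' := by
    intro w h b'
    obtain ⟨-, -, h1⟩ := Qu_eq.1 h
    funext i
    by_cases hi : i = u
    · rw [hi, Function.update_self, Function.update_self]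
    · rw [Function.update_of_ne hi, Function.update_of_ne hi, h1 i hi]
  rw [Pr_two hu w0 (Opt H t u (S.gm t w9)) (fun x b => ∃ b', S.cl t b' = S.cl t b ∧
      H.gf t (H.th w0) (Function.update (S.x w0) u b') x = S.gm t w9) (fun w h => by
        unfold Opt
        refine exists_congr fun b' => and_congr Iff.rfl ?_
        rw [(Qu_eq.1 h).1, hup w h b']),
    Pr_two hu w0 (fun w => S.gm t w = S.gm t w9) (fun x b =>
      H.gf t (H.th w0) (Function.update (S.x w0) u b) x = S.gm t w9) (fun w h => by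
        rw [← H.gf_eq t w, ← hup w h (S.x w u), Function.update_eq_self, (Qu_eq.1 h).1])]
  have h1 := H.fb t ht u hu w0 w9
  have h2 : 0 ≤ S.P.Pr (fun w => H.th w = H.th w0) /
      (Fintype.card Ξ * (Fintype.card Pt : ℝ) ^ (Fintype.card ι - 1) * (@Fintype.card H.X H.fX)) := by
    have := S.P.Pr_nonneg (fun w => H.th w = H.th w0)
    positivity
  have h3 := mul_le_mul_of_nonneg_left h1 h2
  linarith

/-- weights which are constant on the fibres -/
theorem E_fac_le {τ : Type*} (P : FP Om) (Φ : Om → τ) {ψ : Om → ℝ} (hψ : Fac Φ ψ) (h0 : ∀ w, 0 ≤ ψ w) {E F : Om → Prop}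
    {C : ℝ} (h : ∀ w0, P.Pr (fun w => Φ w = Φ w0 ∧ E w) ≤ C * P.Pr (fun w => Φ w = Φ w0 ∧ F w)) :
    P.E (fun w => ψ w * ind (E w)) ≤ C * P.E (fun w => ψ w * ind (F w)) := by
  classical
  have key : ∀ G : Om → Prop, P.E (fun w => ψ w * ind (G w)) =
      ∑ φ ∈ univ.image Φ, P.E (fun w => ψ w * ind (Φ w = φ ∧ G w)) := by
    intro G
    rw [← P.E_sum]
    refine P.E_congr fun w _ => ?_
    rw [Finset.sum_eq_single (Φ w)]
    · congr 2
      exact propext ⟨fun h => ⟨rfl, h⟩, fun h => h.2⟩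
    · intro φ _ hφ
      rw [ind_not fun h => hφ h.1.symm, mul_zero]
    · exact fun h => absurd (Finset.mem_image_of_mem _ (mem_univ w)) h
  rw [key E, key F, Finset.mul_sum]
  refine Finset.sum_le_sum fun φ hφ => ?_
  obtain ⟨w0, _, rfl⟩ := Finset.mem_image.1 hφ
  have e : ∀ G : Om → Prop, P.E (fun w => ψ w * ind (Φ w = Φ w0 ∧ G w)) = ψ w0 * P.Pr (fun w => Φ w = Φ w0 ∧ G w) := by
    intro G
    unfold FP.Pr
    rw [← P.E_smul]
    refine P.E_congr fun w _ => ?_
    by_cases h1 : Φ w = Φ w0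
    · rw [hψ w w0 h1]
    · rw [ind_not fun h => h1 h.1, mul_zero, mul_zero]
  rw [e, e]
  have := mul_le_mul_of_nonneg_left (h w0) (h0 w0)
  linarith

/-- the new elements of a list -/
def nw {I : Finset ι} (A : Lst S I) (t : ℕ) (g : Γ) (ξ : Ξ) (x : ι → Pt) : Finset ℕ :=
  A.L (t + 1) g ξ x \ A.L t (S.par t g) ξ x

theorem nw_at {I : Finset ι} (A : Lst S I) (t : ℕ) (w : Om) :
    nw A t (S.gm (t + 1) w) (S.xi w) (S.x w) = A.at' (t + 1) w \ A.at' t w := by
  unfold nw
  rw [S.par_gm]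
  rfl

theorem nw_card {I : Finset ι} (A : Lst S I) (t : ℕ) (w : Om) :
    ((nw A t (S.gm (t + 1) w) (S.xi w) (S.x w)).card : ℝ) = ((A.at' (t + 1) w).card : ℝ) - (A.at' t w).card := by
  rw [nw_at, Finset.card_sdiff_of_subset (A.at_succ t w), Nat.cast_sub (card_le_card (A.at_succ t w))]

variable (H) in
/-- the raw label at the true point -/
def rw' (u : {u // u ∈ Rf}) (A : Lst S (univ.erase u.1)) (t : ℕ) (w : Om) : Finset ℕ :=
  raw H u A t w (S.xi w) (yw (S := S) Rf w) (H.hx w)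

open Classical in
theorem enter_sub {u : {u // u ∈ Rf}} (hu : u.1 ≠ v) (A : Lst S (univ.erase u.1)) (t : ℕ) (w : Om) :
    ((rw' H u A (t + 1) w \ rw' H u A t w).card : ℝ) ≤
      ∑ g ∈ (univ : Finset Om).image (S.gm (t + 1)), ((nw A t g (S.xi w) (S.x w)).card : ℝ) *
        ind (Opt H (t + 1) u.1 g w) := by
  have hp : ∀ b', pt H w (Function.update (yw (S := S) Rf w) u b') (H.hx w) = Function.update (S.x w) u.1 b' := by
    intro b'
    rw [pt_upd hu, pt_self]
  have hn : ∀ s b', nd H s w (Function.update (yw (S := S) Rf w) u b') (H.hx w) =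
      H.gf s (H.th w) (Function.update (S.x w) u.1 b') (H.hx w) := by
    intro s b'
    unfold nd
    rw [hp]
  have hA : ∀ s g b', A.L s g (S.xi w) (Function.update (S.x w) u.1 b') = A.L s g (S.xi w) (S.x w) := by
    intro s g b'
    exact A.dep s g _ _ _ fun i hi => Function.update_of_ne (ne_of_mem_erase hi) _ _
  have h1 : rw' H u A (t + 1) w \ rw' H u A t w ⊆
      ((univ : Finset Om).image (S.gm (t + 1))).biUnion fun g =>
        if Opt H (t + 1) u.1 g w then nw A t g (S.xi w) (S.x w) else ∅ := by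
    intro k hk
    obtain ⟨h2, h3⟩ := mem_sdiff.1 hk
    obtain ⟨b', hb, h4⟩ := mem_raw.1 h2
    obtain ⟨w', g1, g2, g3, g4⟩ := real (H := H) w (S.xi w) (Function.update (yw (S := S) Rf w) u b') (H.hx w)
    rw [mem_biUnion]
    refine ⟨nd H (t + 1) w (Function.update (yw (S := S) Rf w) u b') (H.hx w), ?_, ?_⟩
    · rw [nd_real (t + 1) g1 g3 g4]
      exact mem_image_of_mem _ (mem_univ w')
    · rw [if_pos ⟨b', hb, (hn (t + 1) b').symm⟩]
      unfold nw
      rw [mem_sdiff]
      refine ⟨?_, fun h5 => h3 ?_⟩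
      · rw [hp, hA] at h4
        exact h4
      · refine mem_raw.2 ⟨b', S.nest t _ _ hb, ?_⟩
        rw [nd_par] at h5
        rw [hp, hA]
        exact h5
  have h2 := (card_le_card h1).trans card_biUnion_le
  have h3 : ((rw' H u A (t + 1) w \ rw' H u A t w).card : ℝ) ≤ ∑ g ∈ (univ : Finset Om).image (S.gm (t + 1)),
      (((if Opt H (t + 1) u.1 g w then nw A t g (S.xi w) (S.x w) else ∅).card : ℕ) : ℝ) := by exact_mod_cast h2
  refine h3.trans (Finset.sum_le_sum fun g _ => ?_)
  by_cases h4 : Opt H (t + 1) u.1 g w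
  · rw [if_pos h4, ind_of h4, mul_one]
  · rw [if_neg h4, ind_not h4, mul_zero, card_empty, Nat.cast_zero]

/-- **mean number of the elements which enter the raw label** -/
theorem E_enter {u : {u // u ∈ Rf}} (hu : u.1 ≠ v) (A : Lst S (univ.erase u.1)) {t : ℕ} (ht : t + 1 ≤ S.n)
    {φ : Om → ℝ} (hφ : Fac (Qu H u.1) φ) (h0 : ∀ w, 0 ≤ φ w) :
    S.P.E (fun w => φ w * ((rw' H u A (t + 1) w \ rw' H u A t w).card : ℝ)) ≤
      H.Kg * S.P.E (fun w => φ w * (((A.at' (t + 1) w).card : ℝ) - (A.at' t w).card)) := by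
  classical
  set T := (univ : Finset Om).image (S.gm (t + 1)) with hT
  have h1 : S.P.E (fun w => φ w * ((rw' H u A (t + 1) w \ rw' H u A t w).card : ℝ)) ≤
      ∑ g ∈ T, S.P.E (fun w => (φ w * ((nw A t g (S.xi w) (S.x w)).card : ℝ)) * ind (Opt H (t + 1) u.1 g w)) := by
    rw [← S.P.E_sum]
    refine S.P.E_mono fun w _ => ?_
    refine (mul_le_mul_of_nonneg_left (enter_sub hu A t w) (h0 w)).trans (le_of_eq ?_)
    rw [Finset.mul_sum]
    exact Finset.sum_congr rfl fun g _ => by ring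
  have h2 : ∀ g ∈ T, S.P.E (fun w => (φ w * ((nw A t g (S.xi w) (S.x w)).card : ℝ)) * ind (Opt H (t + 1) u.1 g w)) ≤
      H.Kg * S.P.E (fun w => (φ w * ((nw A t g (S.xi w) (S.x w)).card : ℝ)) * ind (S.gm (t + 1) w = g)) := by
    intro g hg
    obtain ⟨w9, _, rfl⟩ := mem_image.1 hg
    refine E_fac_le S.P (Qu H u.1) (ψ := fun w => φ w * ((nw A t (S.gm (t + 1) w9) (S.xi w) (S.x w)).card : ℝ)) ?_
      (fun w => mul_nonneg (h0 w) (Nat.cast_nonneg _)) fun w0 => fb_pr hu ht w0 w9
    intro w w' h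
    obtain ⟨h3, h4, h5⟩ := Qu_eq.1 h
    have h6 : nw A t (S.gm (t + 1) w9) (S.xi w) (S.x w) = nw A t (S.gm (t + 1) w9) (S.xi w') (S.x w') := by
      unfold nw
      rw [h4, A.dep (t + 1) _ _ (S.x w) (S.x w') fun i hi => h5 i (ne_of_mem_erase hi),
        A.dep t _ _ (S.x w) (S.x w') fun i hi => h5 i (ne_of_mem_erase hi)]
    show φ w * _ = φ w' * _
    rw [hφ w w' h, h6]
  refine h1.trans ((Finset.sum_le_sum h2).trans ?_)
  rw [← Finset.mul_sum, ← S.P.E_sum]
  refine mul_le_mul_of_nonneg_left (le_of_eq (S.P.E_congr fun w _ => ?_)) (le_trans zero_le_one H.Kg1)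
  rw [Finset.sum_eq_single (S.gm (t + 1) w), ind_of rfl, mul_one, nw_card]
  · intro g _ hg
    rw [ind_not fun h => hg h.symm, mul_zero]
  · exact fun h => absurd (mem_image_of_mem _ (mem_univ w)) h

/-- changes of a sequence of sets -/
theorem moves_le (F : ℕ → Finset ℕ) (T : ℕ) :
    ∑ t ∈ range T, ind (F (t + 1) ≠ F t) + ((F T).card : ℝ) ≤
      (F 0).card + 2 * ∑ t ∈ range T, ((F (t + 1) \ F t).card : ℝ) := by
  induction T with
  | zero => simp
  | succ T ih =>
    rw [Finset.sum_range_succ, Finset.sum_range_succ]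
    have h1 : ((F (T + 1)).card : ℝ) + (F T \ F (T + 1)).card = (F T).card + (F (T + 1) \ F T).card := by
      have h2 := Finset.card_sdiff_add_card_inter (F (T + 1)) (F T)
      have h3 := Finset.card_sdiff_add_card_inter (F T) (F (T + 1))
      rw [Finset.inter_comm] at h3
      have h4 : (F (T + 1)).card + (F T \ F (T + 1)).card = (F T).card + (F (T + 1) \ F T).card := by omega
      exact_mod_cast h4
    have h2 : ind (F (T + 1) ≠ F T) ≤ ((F (T + 1) \ F T).card : ℝ) + (F T \ F (T + 1)).card := by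
      by_cases h : F (T + 1) = F T
      · rw [ind_not fun h' => h' h]
        positivity
      · rw [ind_of h]
        have h3 : 1 ≤ (F (T + 1) \ F T).card + (F T \ F (T + 1)).card := by
          by_contra hc
          have h4 : (F (T + 1) \ F T).card = 0 := by omega
          have h5 : (F T \ F (T + 1)).card = 0 := by omega
          rw [Finset.card_eq_zero, Finset.sdiff_eq_empty_iff_subset] at h4 h5
          exact h (subset_antisymm h4 h5)
        exact_mod_cast h3
    linarith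

/-- **mean number of changes of the raw label** -/
theorem raw_moves {u : {u // u ∈ Rf}} (hu : u.1 ≠ v) (A : Lst S (univ.erase u.1)) {n : ℕ}
    (hn : ∀ t ≤ S.n, ∀ w, (A.at' t w).card ≤ n) {T : ℕ} (hT : T ≤ S.n) {φ : Om → ℝ} (hφ : Fac (Qu H u.1) φ)
    (h0 : ∀ w, 0 ≤ φ w) :
    S.P.E (fun w => φ w * ∑ t ∈ range T, ind (rw' H u A (t + 1) w ≠ rw' H u A t w)) ≤
      3 * H.Kg * n * S.P.E φ := by
  have hK0 : 0 ≤ H.Kg := le_trans zero_le_one H.Kg1
  have h1 : S.P.E (fun w => φ w * ∑ t ∈ range T, ind (rw' H u A (t + 1) w ≠ rw' H u A t w)) ≤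
      S.P.E (fun w => (H.Kg * n) * φ w + 2 * ∑ t ∈ range T, φ w * ((rw' H u A (t + 1) w \ rw' H u A t w).card : ℝ)) := by
    refine S.P.E_mono fun w _ => ?_
    have h2 := moves_le (fun t => rw' H u A t w) T
    have h3 : ((rw' H u A 0 w).card : ℝ) ≤ H.Kg * n :=
      raw_card hu A (Nat.zero_le _) (hn 0 (Nat.zero_le _)) w (S.xi w) _ _
    have h4 : ∑ t ∈ range T, ind (rw' H u A (t + 1) w ≠ rw' H u A t w) ≤
        H.Kg * n + 2 * ∑ t ∈ range T, ((rw' H u A (t + 1) w \ rw' H u A t w).card : ℝ) := by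
      have : (0 : ℝ) ≤ ((rw' H u A T w).card : ℝ) := Nat.cast_nonneg _
      linarith
    refine (mul_le_mul_of_nonneg_left h4 (h0 w)).trans (le_of_eq ?_)
    rw [← Finset.mul_sum]
    ring
  refine h1.trans ?_
  rw [S.P.E_add, S.P.E_smul, S.P.E_smul, S.P.E_sum]
  have h2 : ∑ t ∈ range T, S.P.E (fun w => φ w * ((rw' H u A (t + 1) w \ rw' H u A t w).card : ℝ)) ≤
      H.Kg * (n * S.P.E φ) := by
    have h3 : ∀ t ∈ range T, S.P.E (fun w => φ w * ((rw' H u A (t + 1) w \ rw' H u A t w).card : ℝ)) ≤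
        H.Kg * (S.P.E (fun w => φ w * ((A.at' (t + 1) w).card : ℝ)) - S.P.E (fun w => φ w * ((A.at' t w).card : ℝ))) := by
      intro t ht
      rw [Finset.mem_range] at ht
      refine (E_enter hu A (by omega) hφ h0).trans (le_of_eq ?_)
      rw [← S.P.E_sub]
      congr 1
      exact S.P.E_congr fun w _ => by ring
    refine (Finset.sum_le_sum h3).trans ?_
    rw [← Finset.mul_sum, Finset.sum_range_sub (fun t => S.P.E (fun w => φ w * ((A.at' t w).card : ℝ)))]
    refine mul_le_mul_of_nonneg_left ?_ hK0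
    have h4 : S.P.E (fun w => φ w * ((A.at' T w).card : ℝ)) ≤ n * S.P.E φ := by
      rw [← S.P.E_smul]
      refine S.P.E_mono fun w _ => ?_
      have h5 : ((A.at' T w).card : ℝ) ≤ n := by exact_mod_cast hn T hT w
      have := mul_le_mul_of_nonneg_left h5 (h0 w)
      linarith
    have h5 : 0 ≤ S.P.E (fun w => φ w * ((A.at' 0 w).card : ℝ)) :=
      S.P.E_nonneg fun w _ => mul_nonneg (h0 w) (Nat.cast_nonneg _)
    linarith
  linarith

/-! ### the box sets of the raw labels -/

variable (H) in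
open Classical in
/-- the hidden cell at the node time `t` -/
def hcell (t : ℕ) (x : H.X) : Finset H.X := (@Finset.univ H.X H.fX).filter fun x' => H.qa (2 * t) x' = H.qa (2 * t) x

theorem mem_hcell {t : ℕ} {x x' : H.X} : x' ∈ hcell H t x ↔ H.qa (2 * t) x' = H.qa (2 * t) x := by
  classical
  unfold hcell
  rw [mem_filter]
  exact and_iff_right (@Finset.mem_univ H.X H.fX _)

variable (H) in
open Classical in
/-- **BOX SET** of the raw labels of the owner `u` in the hidden cell of `x` -/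
def BX (u : {u // u ∈ Rf}) (B : BSt S u.1 v) (t : ℕ) (w0 : Om) (y : {u // u ∈ Rf} → Pt) (x : H.X) : Finset ℕ :=
  (hcell H t x).biUnion fun x' => (cell S t (y u)).biUnion fun b' =>
    B.L t (nd H t w0 (Function.update y u b') x') (pt H w0 (Function.update y u b') x')

theorem mem_BX {u : {u // u ∈ Rf}} {B : BSt S u.1 v} {t : ℕ} {w0 : Om} {y : {u // u ∈ Rf} → Pt} {x : H.X} {k : ℕ} :
    k ∈ BX H u B t w0 y x ↔ ∃ x' b', H.qa (2 * t) x' = H.qa (2 * t) x ∧ S.cl t b' = S.cl t (y u) ∧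
      k ∈ B.L t (nd H t w0 (Function.update y u b') x') (pt H w0 (Function.update y u b') x') := by
  classical
  unfold BX
  rw [mem_biUnion]
  constructor
  · rintro ⟨x', h1, h2⟩
    obtain ⟨b', h3, h4⟩ := mem_biUnion.1 h2
    exact ⟨x', b', mem_hcell.1 h1, mem_cell.1 h3, h4⟩
  · rintro ⟨x', b', h1, h2, h3⟩
    exact ⟨x', mem_hcell.2 h1, mem_biUnion.2 ⟨b', mem_cell.2 h2, h3⟩⟩

/-- the box set sees the other vertices, the cell of its own vertex and the hidden cell -/
theorem BX_dep (u : {u // u ∈ Rf}) (B : BSt S u.1 v) (t : ℕ) (w0 : Om) {y y' : {u // u ∈ Rf} → Pt} {x x' : H.X}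
    (h : ∀ j, j ≠ u → y j = y' j) (hc : S.cl t (y u) = S.cl t (y' u)) (hx : H.qa (2 * t) x = H.qa (2 * t) x') :
    BX H u B t w0 y x = BX H u B t w0 y' x' := by
  have h1 : ∀ b', Function.update y u b' = Function.update y' u b' := by
    intro b'
    funext j
    by_cases hj : j = u
    · subst hj
      rw [Function.update_self, Function.update_self]
    · rw [Function.update_of_ne hj, Function.update_of_ne hj, h j hj]
  ext k
  rw [mem_BX, mem_BX]
  simp only [h1, hc, hx]

theorem BX_top {u : {u // u ∈ Rf}} (B : BSt S u.1 v) {w0 w1 : Om} (h0 : H.th w0 = H.th w1)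
    (h : ∀ i, i ∉ Rf → i ≠ v → S.x w0 i = S.x w1 i) (t : ℕ) (y : {u // u ∈ Rf} → Pt) (x : H.X) :
    BX H u B t w0 y x = BX H u B t w1 y x := by
  ext k
  rw [mem_BX, mem_BX]
  refine exists_congr fun x' => exists_congr fun b' => and_congr Iff.rfl (and_congr Iff.rfl ?_)
  rw [nd_top h0 h, pt_top h]

/-- all raw labels of the hidden cell, for all coins, are in the box set -/
theorem raw_sub_BX {u : {u // u ∈ Rf}} {A : Lst S (univ.erase u.1)} {B : BSt S u.1 v} {t : ℕ}
    (hAB : ∀ w, A.at' t w ⊆ B.at' t w) (w0 : Om) (ξ : Ξ) (y : {u // u ∈ Rf} → Pt) {x x' : H.X}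
    (hx : H.qa (2 * t) x' = H.qa (2 * t) x) : raw H u A t w0 ξ y x' ⊆ BX H u B t w0 y x := by
  intro k hk
  obtain ⟨b', h1, h2⟩ := mem_raw.1 hk
  refine mem_BX.2 ⟨x', b', hx, h1, ?_⟩
  obtain ⟨w', g1, g2, g3, g4⟩ := real (H := H) w0 ξ (Function.update y u b') x'
  have h3 := hAB w'
  unfold Lst.at' BSt.at' at h3
  rw [← nd_real t g1 g3 g4, g2, g3] at h3
  exact h3 h2

/-- **size of the box set** -/
theorem BX_card {u : {u // u ∈ Rf}} (hu : u.1 ≠ v) (B : BSt S u.1 v) {t : ℕ} (ht : t ≤ S.n) {Bn : ℕ}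
    (hn : ∀ w, (B.at' t w).card ≤ Bn) (w0 : Om) (y : {u // u ∈ Rf} → Pt) (x : H.X) :
    ((BX H u B t w0 y x).card : ℝ) ≤ H.Kg * Bn := by
  classical
  obtain ⟨w, h1, -, h3, h4⟩ := real (H := H) w0 (S.xi w0) y x
  obtain ⟨s, hs1, hs2⟩ := H.box t ht u.1 hu w
  have hy : S.x w u.1 = y u := by rw [h3, pt_of _ _ _ hu]
  -- a point with hidden vertex in the cell `c` and node `g`
  let Q : κ × Γ → H.X → Pt → Prop := fun a x' b' => H.qa (2 * t) x' = H.qa (2 * t) x ∧ S.cl t b' = S.cl t (y u) ∧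
    S.cl t (H.hv x') = a.1 ∧ nd H t w0 (Function.update y u b') x' = a.2
  let Z : κ × Γ → Finset ℕ := fun a => if h : ∃ q : H.X × Pt, Q a q.1 q.2 then
    B.L t a.2 (pt H w0 (Function.update y u (Classical.choose h).2) (Classical.choose h).1) else ∅
  have hpt : ∀ x' b', pt H w0 (Function.update y u b') x' =
      Function.update (Function.update (S.x w) v (H.hv x')) u.1 b' := by
    intro x' b'
    rw [pt_upd hu, h3]
    congr 1
    funext i
    by_cases hi : i = v
    · rw [hi, pt_v, Function.update_self]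
    · rw [Function.update_of_ne hi]
      unfold pt
      rw [if_neg hi, if_neg hi]
  have hZ : ∀ a, (Z a).card ≤ Bn := by
    intro a
    show (if h : ∃ q : H.X × Pt, Q a q.1 q.2 then
      B.L t a.2 (pt H w0 (Function.update y u (Classical.choose h).2) (Classical.choose h).1) else ∅).card ≤ Bn
    split_ifs with h
    · have h5 := Classical.choose_spec h
      obtain ⟨w', g1, g2, g3, g4⟩ := real (H := H) w0 (S.xi w0)
        (Function.update y u (Classical.choose h).2) (Classical.choose h).1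
      have h6 := hn w'
      unfold BSt.at' at h6
      rw [← nd_real t g1 g3 g4, g3, h5.2.2.2] at h6
      exact h6
    · exact Nat.zero_le _
  have hsub : BX H u B t w0 y x ⊆ s.biUnion Z := by
    intro k hk
    obtain ⟨x', b', g1, g2, g3⟩ := mem_BX.1 hk
    have h5 := hs2 x' b' (by rw [h4]; exact g1) (by rw [hy]; exact g2)
    rw [← hpt, h1] at h5
    rw [mem_biUnion]
    refine ⟨_, h5, ?_⟩
    have h6 : ∃ q : H.X × Pt, Q (S.cl t (H.hv x'), nd H t w0 (Function.update y u b') x') q.1 q.2 :=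
      ⟨(x', b'), g1, g2, rfl, rfl⟩
    show k ∈ (if h : ∃ q : H.X × Pt, Q (S.cl t (H.hv x'), nd H t w0 (Function.update y u b') x') q.1 q.2 then
      B.L t (nd H t w0 (Function.update y u b') x')
        (pt H w0 (Function.update y u (Classical.choose h).2) (Classical.choose h).1) else ∅)
    rw [dif_pos h6]
    have h7 := Classical.choose_spec h6
    rw [B.dep t _ (pt H w0 (Function.update y u (Classical.choose h6).2) (Classical.choose h6).1)
      (pt H w0 (Function.update y u b') x') (fun i hi => ?_) fun i hi => ?_]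
    · exact g3
    · have hiv : i ≠ v := ne_of_mem_erase hi
      have hiu : i ≠ u.1 := ne_of_mem_erase (mem_of_mem_erase hi)
      rw [hpt, hpt, Function.update_of_ne hiu, Function.update_of_ne hiu, Function.update_of_ne hiv,
        Function.update_of_ne hiv]
    · rw [mem_singleton.1 hi, pt_v, pt_v]
      exact h7.2.2.1
  have h5 : (BX H u B t w0 y x).card ≤ s.card * Bn := by
    refine (card_le_card hsub).trans (card_biUnion_le.trans ?_)
    refine (Finset.sum_le_sum (g := fun _ => Bn) fun a _ => hZ a).trans ?_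
    rw [Finset.sum_const, smul_eq_mul]
  have h6 : ((BX H u B t w0 y x).card : ℝ) ≤ s.card * Bn := by exact_mod_cast h5
  exact h6.trans (mul_le_mul_of_nonneg_right hs1 (Nat.cast_nonneg _))

/-! ### codes of the raw labels -/

/-- codes: lists of at most `nx` ranks below `Mx` -/
abbrev Ph (nx Mx : ℕ) : Type := Fin nx → Option (Fin Mx)

theorem card_Ph (nx Mx : ℕ) : Fintype.card (Ph nx Mx) = (Mx + 1) ^ nx := by
  rw [Fintype.card_fun, Fintype.card_option, Fintype.card_fin, Fintype.card_fin]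

/-- rank in a set -/
def rkm (Mx : ℕ) (B : Finset ℕ) (k : ℕ) : Option (Fin Mx) :=
  if h : (B.sort (· ≤ ·)).idxOf k < Mx then some ⟨_, h⟩ else none

/-- encoding of a set by its ranks in `B` -/
def en (nx Mx : ℕ) (B L : Finset ℕ) : Ph nx Mx := fun i => ((L.sort (· ≤ ·))[(i : ℕ)]?).bind (rkm Mx B)

open Classical in
/-- decoding -/
def de {nx Mx : ℕ} (B : Finset ℕ) (c : Ph nx Mx) : Finset ℕ :=
  B.filter fun k => ∃ i r, c i = some r ∧ (B.sort (· ≤ ·))[(r : ℕ)]? = some k

theorem de_sub {nx Mx : ℕ} (B : Finset ℕ) (c : Ph nx Mx) : de B c ⊆ B := filter_subset _ _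

theorem de_en {nx Mx : ℕ} {B L : Finset ℕ} (hLB : L ⊆ B) (hL : L.card ≤ nx) (hB : B.card ≤ Mx) :
    de B (en nx Mx B L) = L := by
  classical
  ext k
  unfold de
  rw [mem_filter]
  constructor
  · rintro ⟨hk, i, r, h1, h2⟩
    unfold en at h1
    obtain ⟨k', h3, h4⟩ := Option.bind_eq_some_iff.1 h1
    unfold rkm at h4
    split_ifs at h4 with h5
    · have h6 : k' ∈ L := by
        have h7 := List.mem_of_getElem? h3
        exact (mem_sort (· ≤ ·)).1 h7
      have h7 : (r : ℕ) = (B.sort (· ≤ ·)).idxOf k' := by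
        rw [← Option.some.inj h4]
      have h8 : k' ∈ B.sort (· ≤ ·) := (mem_sort (· ≤ ·)).2 (hLB h6)
      rw [h7, List.getElem?_eq_getElem (List.idxOf_lt_length_iff.2 h8), List.getElem_idxOf] at h2
      rw [← Option.some.inj h2]
      exact h6
  · intro hk
    refine ⟨hLB hk, ?_⟩
    have h1 : k ∈ L.sort (· ≤ ·) := (mem_sort (· ≤ ·)).2 hk
    have h2 : k ∈ B.sort (· ≤ ·) := (mem_sort (· ≤ ·)).2 (hLB hk)
    have h3 : (L.sort (· ≤ ·)).idxOf k < nx := by
      have := List.idxOf_lt_length_iff.2 h1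
      rw [length_sort] at this
      omega
    have h4 : (B.sort (· ≤ ·)).idxOf k < Mx := by
      have := List.idxOf_lt_length_iff.2 h2
      rw [length_sort] at this
      omega
    refine ⟨⟨_, h3⟩, ⟨_, h4⟩, ?_, ?_⟩
    · unfold en
      show ((L.sort (· ≤ ·))[(L.sort (· ≤ ·)).idxOf k]?).bind (rkm Mx B) = _
      rw [List.getElem?_eq_getElem (List.idxOf_lt_length_iff.2 h1), List.getElem_idxOf]
      show rkm Mx B k = _
      unfold rkm
      rw [dif_pos h4]
    · show (B.sort (· ≤ ·))[(B.sort (· ≤ ·)).idxOf k]? = some k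
      rw [List.getElem?_eq_getElem (List.idxOf_lt_length_iff.2 h2), List.getElem_idxOf]

end RawL

end

end Pool.Agent.GMJR
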