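import Pool.Agent.GMJR.HdT0
import Pool.Agent.GMJR.RawL
import Pool.Agent.GMJR.ClsU
import Pool.Agent.GMJR.ClsE
import Pool.Agent.GM.HarmEq

/-!
# GMJR/HdT (helper51): CL(K) in the world of one hidden vertex, applied to every top (piece (F1))

* `PhT`, `BXT`, `enT`, `deT`, `codT` : codes of the raw labels `RT` by their ranks in the box sets; `card_PhT`;
* `scrT`, `tcT`, `HT` : capped scripts, components, THE DATA (`GM/Harm.HD`) of the top of `w0`, letters `PhT L`; `cellsT` :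
  its cells are the cells of the world (`WD.Cells`); `thickT`, `hypT`;
* **`hdT_cls`** : from the contract `CLSC K κ C0` (CL(K) with its constant, GM/HarmEq): classes `U w0` of every top with values
  in ONE type, `Sys`, bits at most `M ^ C0`, and in the world
  `P (exists an HD time τ ≤ 2 n at which the true point with the labels without noise is hot) ≤ 2 C0 Lam^C0 M^(-κ)`.
-/

set_option autoImplicit false
set_option linter.unusedSectionVars false

namespace Pool.Agent.GMJR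

open Finset Pool.Agent.PWZ Pool.Agent.M3 Pool.Agent.GMN Pool.Agent.GM Pool.Agent.GM.Harm
open Pool.Agent.M3.Mod (SzM)
open Pool.Agent.M3.S3 (avg)

noncomputable section

namespace WD

variable {Om Tp K β X γ δ Γ : Type} [Fintype Om] [Fintype K] [DecidableEq K] [Fintype β] [Fintype X]
  {D : WD Om Tp K β X γ δ Γ} (L : WL D)

/-! ## codes of the raw labels -/

/-- letters -/
abbrev PhT : Type := RawL.Ph L.n1 L.M1

/-- the box set at a point of a top -/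
def BXT (w0 : Om) (l : K) (τ : ℕ) (x : D.XT w0) (y : K → β) : Finset ℕ := L.BX l (min (τ / 2) D.n) (D.pt w0 x y)

/-- the code of a value -/
def enT (w0 : Om) (l : K) (τ : ℕ) (x : D.XT w0) (y : K → β) (s : Finset ℕ) : PhT L :=
  RawL.en L.n1 L.M1 (BXT L w0 l τ x y) s

/-- the value of a code -/
def deT (w0 : Om) (l : K) (τ : ℕ) (x : D.XT w0) (y : K → β) (c : PhT L) : Finset ℕ := RawL.de (BXT L w0 l τ x y) c

theorem BXT_dep (w0 : Om) {l : K} {τ : ℕ} {x x' : D.XT w0} {y y' : K → β} (hy : ∀ j, j ≠ l → y j = y' j)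
    (hx : D.qaT w0 τ x = D.qaT w0 τ x') (hl : D.qbT τ (y l) = D.qbT τ (y' l)) :
    BXT L w0 l τ x y = BXT L w0 l τ x' y' := by
  unfold BXT
  have h1 : D.cl (τ / 2) (y l) = D.cl (τ / 2) (y' l) := qbT_eq.1 hl
  have h2 : D.qa τ x.1 = D.qa τ x'.1 := qaT_eq.1 hx
  refine L.BXdep l _ _ _ ((pt_top _ _ _).trans (pt_top _ _ _).symm) (fun j hj => ?_) ?_ ?_
  · rw [pt_y, pt_y]
    exact hy j hj
  · rw [pt_y, pt_y]
    exact D.cl_le (Nat.min_le_left _ _) h1
  · rw [pt_hx, pt_hx]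
    refine D.qa_le ?_ h2
    have := Nat.min_le_left (τ / 2) D.n
    omega

theorem codT (w0 : Om) : ScrD.Code (D.qaT w0) D.qbT (RT L w0) (enT L w0) (deT L w0) where
  hen l t x x' y y' h1 h2 h3 := by
    funext s
    unfold enT
    rw [BXT_dep L w0 h1 h2 h3]
  hde l t x x' y y' h1 h2 h3 := by
    funext s
    unfold deT
    rw [BXT_dep L w0 h1 h2 h3]
  inv l t x y := RawL.de_en (L.Rsub l _ (Nat.min_le_right _ _) _) (L.Rcard l _ (Nat.min_le_right _ _) _)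
    (L.BXcard l _ (Nat.min_le_right _ _) _)

theorem card_PhT : Fintype.card (PhT L) = (L.M1 + 1) ^ L.n1 := RawL.card_Ph _ _

/-- a decoded value is a part of the box set -/
theorem deT_sub (w0 : Om) (l : K) (τ : ℕ) (x : D.XT w0) (y : K → β) (c : PhT L) :
    deT L w0 l τ x y c ⊆ BXT L w0 l τ x y := RawL.de_sub _ _

/-! ## the data of a top -/

/-- components of the scripts of a top, capped -/
def tcT (al : ℝ) (J n0 : ℕ) (w0 : Om) : K → ℕ → D.XT w0 → (K → β) → Option (PhT L) :=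
  ScrD.tcC J n0 (ScrD.ocR (D.qaT w0) (RT L w0) al) (ScrD.tcR (D.qaT w0) (RT L w0) (enT L w0) al)

/-- occasions of the scripts of a top, capped -/
def ocT (al : ℝ) (J : ℕ) (w0 : Om) : K → ℕ → D.XT w0 → (K → β) → Prop :=
  ScrD.ocC J (ScrD.ocR (D.qaT w0) (RT L w0) al)

/-- the capped scripts of a top -/
theorem scrT (al : ℝ) (J n0 : ℕ) (w0 : Om) : ScrD.Scr (D.qaT w0) D.qbT (ocT L al J w0) (tcT L al J n0 w0) :=
  ScrD.scrC (J := J) (n0 := n0) (celT w0) (ScrD.scrR (al := al) (celT w0) (depT L w0) (codT L w0))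

theorem capT (al : ℝ) (J n0 : ℕ) (w0 : Om) : ScrD.Capd J n0 (ocT L al J w0) (tcT L al J n0 w0) := ScrD.capC

/-- **THE DATA of the top of `w0`** -/
def HT (al : ℝ) (Rz J n0 : ℕ) (w0 : Om) : HD K (D.XT w0) β (γ ⊕ δ) (Fin (2 * D.n + 1) → Option (PhT L)) :=
  ScrD.datS Rz J n0 (2 * D.n) (celT w0) (scrT L al J n0 w0)

/-- its cells are the cells of the world -/
theorem cellsT (al : ℝ) (Rz J n0 : ℕ) : D.Cells (fun w0 => HT L al Rz J n0 w0) where
  qa _ _ _ _ := qaT_eq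
  qb _ _ _ _ := qbT_eq

/-- the labels without noise at a point of a top -/
def scT (al : ℝ) (J n0 : ℕ) (w0 : Om) (τ : ℕ) (x : D.XT w0) (y : K → β) : K → Fin (2 * D.n + 1) → Option (PhT L) :=
  ScrD.scF (2 * D.n) (tcT L al J n0 w0) τ x y

theorem thickT [Nonempty β] {Rz : ℕ} (hR : 1 ≤ Rz) (al : ℝ) (J n0 : ℕ) (w0 : Om) :
    (HT L al Rz J n0 w0).Thick (Nz.alz Rz J n0 (Fintype.card (PhT L))) :=
  ScrD.thickS hR (celT w0) (scrT L al J n0 w0)

theorem hypT [Nonempty β] {Rz J n0 : ℕ} {Lam : ℝ} (hs : SzM Rz J n0 ((L.M1 + 1) ^ L.n1) Lam) (al : ℝ) (w0 : Om) :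
    (HT L al Rz J n0 w0).Hyp (D.dgT w0) (fun t _ => rst t) (Nz.alz Rz J n0 (Fintype.card (PhT L))) (2 * D.n) Lam := by
  have hne := ne_X (D := D) w0
  have hs' : SzM Rz J n0 (Fintype.card (PhT L)) Lam := by
    rw [card_PhT]
    exact hs
  exact ScrD.hypS (celT w0) (scrT L al J n0 w0) (digT w0) hs'

/-! ## the result -/

/-- the true point is hot at an HD time `≤ τ` -/
def hotT {υ : Type} (al : ℝ) (Rz J n0 : ℕ) (U : ∀ w0 : Om, Finset K → ℕ → D.XT w0 → (K → β) → υ) (K' : ℝ) (τ : ℕ)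
    (w : Om) : Prop :=
  D.atW (fun w0 x y => ∃ σ ≤ τ, hot (HT L al Rz J n0 w0) (U w0) K' σ (x, y, scT L al J n0 w0 σ x y)) w

/-- one top -/
theorem hot_top [Nonempty β] {κ : ℝ} {C0 : ℕ} (hC : CLSC K κ C0) (al : ℝ) {Rz J n0 : ℕ} {Lam M : ℝ}
    (hs : SzM Rz J n0 ((L.M1 + 1) ^ L.n1) Lam) (hM : (2 * Lam) ^ C0 ≤ M)
    (hJR : Fintype.card K * ((J : ℝ) / (Rz + 1)) ≤ 1 / 2) (w0 : Om) :
    ∃ U : Finset K → ℕ → D.XT w0 → (K → β) → Set (X × (K → β)), Harm.Sys (HT L al Rz J n0 w0) U ∧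
      (∀ I ∈ JJ K, bitsJ (HT L al Rz J n0 w0) U (2 * D.n) I ≤ M ^ C0) ∧
      EV (fun x y => ind (∃ τ ≤ 2 * D.n, hot (HT L al Rz J n0 w0) U (C0 * Real.log M) τ
        (x, y, scT L al J n0 w0 τ x y))) ≤ 2 * (C0 * Lam ^ C0 * M ^ (-κ)) := by
  have hne := ne_X (D := D) w0
  obtain ⟨υ, U, hU⟩ := hC (D.XT w0) β (γ ⊕ δ) (Fin (2 * D.n + 1) → Option (PhT L)) (HT L al Rz J n0 w0) _
    (thickT L hs.R1 al J n0 w0) (D.dgT w0) (fun t _ => rst t) (2 * D.n) Lam M (hypT L hs al w0) hM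
  have hS : SameU U (codeU (fun x : D.XT w0 => x.1) U) := same_code Subtype.val_injective U
  refine ⟨codeU (fun x : D.XT w0 => x.1) U, hS.sys hU.sys, fun I hI => ?_, ?_⟩
  · rw [hS.bitsJ_eq]
    exact hU.bits I hI
  · obtain ⟨E, hE⟩ : ∃ E, E = EV (fun x y => ind (ever (HT L al Rz J n0 w0) U (fun t _ => rst t) (C0 * Real.log M)
        (2 * D.n) (x, y, ScrD.scF (2 * D.n) (tcT L al J n0 w0) (2 * D.n) x y))) := ⟨_, rfl⟩
    have h1 : E * (1 - Fintype.card K * ((J : ℝ) / (Rz + 1))) ≤ C0 * Lam ^ C0 * M ^ (-κ) := by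
      rw [hE]
      exact (ScrD.det_le (Rz := Rz) (celT w0) (scrT L al J n0 w0) (capT L al J n0 w0) (le_refl (2 * D.n))
        (thickT L hs.R1 al J n0 w0) (ever (HT L al Rz J n0 w0) U (fun t _ => rst t) (C0 * Real.log M)
          (2 * D.n))).trans hU.cold
    have h3 : EV (fun x y => ind (∃ τ ≤ 2 * D.n, hot (HT L al Rz J n0 w0) (codeU (fun x : D.XT w0 => x.1) U)
        (C0 * Real.log M) τ (x, y, scT L al J n0 w0 τ x y))) = E := by
      rw [hE]
      unfold EV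
      refine congrArg _ (funext fun x => congrArg _ (funext fun y => congrArg ind ?_))
      refine propext (Iff.trans ?_ (ScrD.ever_scF (HT L al Rz J n0 w0) U (C0 * Real.log M) (2 * D.n) x y).symm)
      exact exists_congr fun τ => and_congr_right fun _ => hS.hot_iff _ _ _
    have h4 : 0 ≤ E := by
      rw [hE]
      exact ScrD.EV_nonneg fun _ _ => ind_nonneg _
    rw [h3]
    have h5 := mul_nonneg h4 (sub_nonneg.2 hJR)
    linarith

/-- **CL(K) IN THE WORLD of one hidden vertex, without noise** -/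
theorem hdT_cls [Nonempty β] {κ : ℝ} {C0 : ℕ} (hC : CLSC K κ C0) (al : ℝ) {Rz J n0 : ℕ} {Lam M : ℝ}
    (hs : SzM Rz J n0 ((L.M1 + 1) ^ L.n1) Lam) (hM : (2 * Lam) ^ C0 ≤ M)
    (hJR : Fintype.card K * ((J : ℝ) / (Rz + 1)) ≤ 1 / 2) :
    ∃ U : ∀ w0 : Om, Finset K → ℕ → D.XT w0 → (K → β) → Set (X × (K → β)),
      (∀ w0, Harm.Sys (HT L al Rz J n0 w0) (U w0)) ∧
      (∀ w0, ∀ I ∈ JJ K, bitsJ (HT L al Rz J n0 w0) (U w0) (2 * D.n) I ≤ M ^ C0) ∧
      D.P.Pr (hotT L al Rz J n0 U (C0 * Real.log M) (2 * D.n)) ≤ 2 * (C0 * Lam ^ C0 * M ^ (-κ)) := by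
  choose U hU using fun w0 => hot_top (D := D) L hC al hs hM hJR w0
  refine ⟨U, fun w0 => (hU w0).1, fun w0 => (hU w0).2.1, ?_⟩
  refine le_trans (le_of_eq ?_) (E_atW_le_const (D := D) (f := fun w0 x y => ind (∃ τ ≤ 2 * D.n,
    hot (HT L al Rz J n0 w0) (U w0) (C0 * Real.log M) τ (x, y, scT L al J n0 w0 τ x y))) fun w => (hU (D.rep w)).2.2)
  rfl

/-- the hot event is a function of (top, known points, hidden point) and increases -/
theorem hotT_FD {υ : Type} (al : ℝ) (Rz J n0 : ℕ) (U : ∀ w0 : Om, Finset K → ℕ → D.XT w0 → (K → β) → υ) (K' : ℝ)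
    (τ : ℕ) : D.FD (hotT L al Rz J n0 U K' τ) := atW_FD _

theorem hotT_mono {υ : Type} {al : ℝ} {Rz J n0 : ℕ} {U : ∀ w0 : Om, Finset K → ℕ → D.XT w0 → (K → β) → υ} {K' : ℝ}
    {σ τ : ℕ} (h : σ ≤ τ) {w : Om} (hw : hotT L al Rz J n0 U K' σ w) : hotT L al Rz J n0 U K' τ w := by
  obtain ⟨s, hs, hs'⟩ := hw
  exact ⟨s, hs.trans h, hs'⟩

end WD

end

end Pool.Agent.GMJR
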