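import Pool.Agent.GMJR.ClsL
import Pool.Agent.GMJR.HdT
import Pool.Agent.GMJR.HdB
import Pool.Agent.GMJR.EntF

/-!
# GMJR/ClsF (helper52): THE NAMES IN A WORLD, all fields of `ClsO`

* `pcF` : visible boxes, frozen when they are larger than `2 ^ h3`;
* **`clsO_of`** : from the contract `CLSC K κ C0`, the sizes of the scripts and `Q` larger than all visible codes: `ClsO`;
* **`clsO_cc`** : the same with one constant `cc` for all right sides.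
-/

set_option autoImplicit false
set_option linter.unusedSectionVars false

namespace Pool.Agent.GMJR

open Finset Pool.Agent.PWZ Pool.Agent.M3 Pool.Agent.GMN Pool.Agent.GM.Harm
open Pool.Agent.M3.Mod (SzM)

noncomputable section

variable {Om Tp K β X γ δ Γ : Type} [Fintype Om] [Fintype K] [DecidableEq K] [Fintype β] [Fintype X]
  {D : WD Om Tp K β X γ δ Γ} (L : WL D)

section boxes

variable (Q h3 : ℕ)

open Classical in
/-- the visible boxes -/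
def pcF (u : K) (t : ℕ) (w : Om) : Finset (Fin Q) :=
  univ.filter fun p => ∃ s ≤ t, ((L.vb u s w).card : ℝ) ≤ 2 ^ h3 ∧ p.1 ∈ L.vb u s w

theorem mem_pcF {u : K} {t : ℕ} {w : Om} {p : Fin Q} :
    p ∈ pcF L Q h3 u t w ↔ ∃ s ≤ t, ((L.vb u s w).card : ℝ) ≤ 2 ^ h3 ∧ p.1 ∈ L.vb u s w := by
  classical
  unfold pcF
  rw [Finset.mem_filter]
  exact ⟨fun h => h.2, fun h => ⟨mem_univ _, h⟩⟩

theorem pcF_cum (u : K) (t : ℕ) (w : Om) : pcF L Q h3 u t w ⊆ pcF L Q h3 u (t + 1) w := by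
  intro p hp
  rw [mem_pcF] at hp ⊢
  obtain ⟨s, hs, h⟩ := hp
  exact ⟨s, by omega, h⟩

theorem pcF_vb (u : K) (t : ℕ) (w : Om) (p : Fin Q) (hp : p ∈ pcF L Q h3 u t w) : p.1 ∈ L.vb u t w := by
  rw [mem_pcF] at hp
  obtain ⟨s, hs, _, h⟩ := hp
  exact WD.vb_le L hs u w h

theorem pcF_fac (u : K) (t : ℕ) : Fac (D.VW (univ.erase u) t) (pcF L Q h3 u t) := by
  intro v w h
  have e : ∀ s ≤ t, L.vb u s v = L.vb u s w := by
    intro s hs
    have h1 := WD.VW_eq.1 ((WD.filt_VW (D := D) (univ.erase u)).le hs v w h)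
    exact L.vb_dep u s v w h1.1 (fun j hj => h1.2.1 j (Finset.mem_erase.2 ⟨hj, mem_univ _⟩)) (h1.2.2.1 u) h1.2.2.2
  ext p
  rw [mem_pcF, mem_pcF]
  refine exists_congr fun s => and_congr_right fun hs => ?_
  rw [e s hs]

theorem pcF_card (u : K) (t : ℕ) (w : Om) : ((pcF L Q h3 u t w).card : ℝ) ≤ 2 ^ h3 := by
  classical
  by_cases hex : ∃ s ≤ t, ((L.vb u s w).card : ℝ) ≤ 2 ^ h3
  · -- the last such time
    obtain ⟨s, hs, hmax⟩ := Finset.exists_max_image ((range (t + 1)).filter fun s => ((L.vb u s w).card : ℝ) ≤ 2 ^ h3)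
      (fun s => s) (by
        obtain ⟨s, hs, h⟩ := hex
        exact ⟨s, Finset.mem_filter.2 ⟨Finset.mem_range.2 (by omega), h⟩⟩)
    obtain ⟨hs1, hs2⟩ := Finset.mem_filter.1 hs
    refine le_trans ?_ hs2
    exact_mod_cast Finset.card_le_card_of_injOn (fun p : Fin Q => p.1) (fun p hp => by
      obtain ⟨r, hr, h1, h2⟩ := (mem_pcF L Q h3).1 hp
      have h4 : r ≤ s := hmax r (Finset.mem_filter.2 ⟨Finset.mem_range.2 (by omega), h1⟩)
      exact WD.vb_le L h4 u w h2) fun p _ p' _ h => Fin.ext h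
  · have h0 : pcF L Q h3 u t w = ∅ := by
      rw [Finset.eq_empty_iff_forall_notMem]
      intro p hp
      obtain ⟨s, hs, h1, _⟩ := (mem_pcF L Q h3).1 hp
      exact hex ⟨s, hs, h1⟩
    rw [h0, Finset.card_empty, Nat.cast_zero]
    positivity

end boxes

/-- **THE NAMES IN A WORLD** -/
theorem clsO_of [Nonempty β] {κ : ℝ} {C0 : ℕ} (hC : CLSC K κ C0) {al Lam Mc : ℝ} {Rz J n0 h3 Q : ℕ} (hal : 0 < al)
    (hJ : 1 ≤ J) (hn0 : 1 ≤ n0) (hn1 : 1 ≤ L.n1) (hs : SzM Rz J n0 ((L.M1 + 1) ^ L.n1) Lam) (hM : (2 * Lam) ^ C0 ≤ Mc)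
    (hMc : 0 < Mc) (hE : (J : ℝ) / (Rz + 1) ≤ (1 / 2) ^ h3) (hJR : Fintype.card K * ((J : ℝ) / (Rz + 1)) ≤ 1 / 2)
    (hQ : ∀ u, ∀ t ≤ D.n, ∀ w, ∀ p ∈ L.vb u t w, p < Q) :
    ∃ (Nk : Type) (_ : Fintype Nk) (_ : DecidableEq Nk) (_ : Inhabited Nk),
      Nonempty (ClsO D L Q Nk h3 (2 * Mc ^ C0) ((n0 * L.n1 : ℕ) : ℝ) ((J : ℝ) / (Rz + 1))
        (1 + Fintype.card (WTy K) * (2 ^ Fintype.card K * Mc ^ C0 / Real.log 2)) (2 ^ Fintype.card K * Mc ^ C0)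
        (Fintype.card K * ((1 + L.n2 / al) / J + (1 + L.n2) / n0) + 2 * (C0 * Lam ^ C0 * Mc ^ (-κ)) +
          Fintype.card K * (L.M2 / 2 ^ h3)) (Fintype.card K * al)) := by
  classical
  obtain ⟨U, hU1, hU2, hU3⟩ := WD.hdT_cls L hC al hs hM hJR
  have hc : D.Cells (fun w0 => WD.HT L al Rz J n0 w0) := WD.cellsT L al Rz J n0
  have hB0 : 0 ≤ Mc ^ C0 := (pow_pos hMc C0).le
  have he0 : (0 : ℝ) ≤ (J : ℝ) / (Rz + 1) := by positivity
  have he1 : (J : ℝ) / (Rz + 1) ≤ 1 := hE.trans (pow_le_one₀ (by norm_num) (by norm_num))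
  set S : LabS D (fun w0 => WD.HT L al Rz J n0 w0) Q ((J : ℝ) / (Rz + 1)) := labS L (WD.codT L) al Rz J n0 Q with hS
  set Hh : ℕ → Om → Prop := fun t w => WD.hotT L al Rz J n0 U (C0 * Real.log Mc) (2 * t) w with hHh
  have hHf : ∀ t, D.FD (Hh t) := fun t => WD.hotT_FD L al Rz J n0 U _ (2 * t)
  have hHm : ∀ s t w, s ≤ t → Hh s w → Hh t w := fun s t w hst h => WD.hotT_mono L (Nat.mul_le_mul_left 2 hst) h
  have hkap : 2 * Real.exp (C0 * Real.log Mc) = 2 * Mc ^ C0 := by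
    rw [Real.exp_nat_mul, Real.exp_log hMc]
  refine ⟨Fin (D.n + 1) × Option Om, inferInstance, inferInstance, inferInstance, ⟨{
    nk := D.nkW U
    Lc := S.Lc
    pc := pcF L Q h3
    G0 := WD.G0W L Hh al J n0 h3
    nk_fac := fun W t => WD.nkW_fac hc hU1 W t
    Lc_fac := fun u t => S.Lc_fac hc u t
    G_fac := fun t => WD.G0W_fac L hHf al J n0 h3 t
    past := fun W W' i v w hW h1 h2 => WD.nkW_past hc hU1 W W' i v w hW h1 h2
    birth := fun W i j v w hij h => WD.nkW_birth W i j v w hij h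
    betw := fun W i l j w h1 h2 h => WD.nkW_betw W i l j w h1 h2 h
    cum := fun u i w => Lc_cum (WD.codT L) Q u i w
    n01 := by exact_mod_cast Nat.mul_pos hn0 hn1
    card := fun u w => by exact_mod_cast Lc_card (WD.codT L) Q u w
    pc_fac := fun u t => pcF_fac L Q h3 u t
    pc_cum := fun u t w => pcF_cum L Q h3 u t w
    pc_card := fun u w => pcF_card L Q h3 u D.n w
    eps0 := he0
    eps1 := hE
    kap0 := by positivity
    clo := ?_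
    nch := WD.nch_nkW hc hU1 hB0 hU2
    entN := fun W => WD.entN_nkW hc hU1 hB0 hU2 W
    entE := fun W hW => WD.entE_nkW hc hU1 hB0 hU2 W hW
    bad0 := WD.G0W_bad L hHm hal hJ hn0 h3 hU3
    pc_vb := fun u t w p hp => pcF_vb L Q h3 u t w p hp
    tr_pc := ?_
    aw0 := by positivity
    wait := ?_ }⟩⟩
  · intro t ht 𝔳 w
    have h1 := clo_names hc hU1 (Q := Q) (nk := D.nkW U) WD.hnk_nkW S he0 he1 hJR
      (fun W t => WD.nkW_fac hc hU1 W t) (K' := C0 * Real.log Mc) (G0 := WD.G0W L Hh al J n0 h3)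
      (fun t => WD.G0W_fac L hHf al J n0 h3 t) (fun t ht v hv hh => hv.1 ⟨2 * t, le_rfl, hh⟩) t ht 𝔳 w
    rw [hkap] at h1
    exact h1
  · intro u t ht w hG p hp
    have h1 := L.tr_vb u t ht w hp
    exact ⟨⟨p, hQ u t ht w p h1⟩, (mem_pcF L Q h3).2 ⟨t, le_rfl, hG.2.2 u, h1⟩, rfl⟩
  · intro t ht w
    refine le_trans (ce_ind_le D.P (D.FW univ t) fun v _ _ hv => ?_) (WD.wait_FW L hal ht w)
    by_contra hne
    push Not at hne
    obtain ⟨⟨u, p, hp, hp'⟩, hG⟩ := hv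
    obtain ⟨p', h1, h2⟩ := Lc_rec (WD.codT L) (Q := Q) ht (hG.2.1 u) (hne u) hp (hQ u t ht v p (L.tr_vb u t ht v hp))
    exact hp' p' h1 h2

/-- number of types -/
theorem card_WTy_le : Fintype.card (WTy K) ≤ 2 ^ Fintype.card K := by
  classical
  refine le_trans (Fintype.card_subtype_le _) ?_
  rw [Fintype.card_finset]

/-- **THE NAMES IN A WORLD**, one constant for all right sides -/
theorem clsO_cc (v C0 : ℕ) : ∃ cc : ℕ, ∀ {Om Tp K β X γ δ Γ : Type} [Fintype Om] [Fintype K] [DecidableEq K] [Fintype β]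
    [Fintype X] {D : WD Om Tp K β X γ δ Γ} (L : WL D) [Nonempty β] [Nonempty K], Fintype.card K = v →
    ∀ {κ : ℝ}, CLSC K κ C0 → ∀ {al Lam Mc : ℝ} {Rz J n0 h3 Q : ℕ}, 0 < al → 1 ≤ J → 1 ≤ n0 → 1 ≤ L.n1 →
    SzM Rz J n0 ((L.M1 + 1) ^ L.n1) Lam → (2 * Lam) ^ C0 ≤ Mc → 1 ≤ Mc → 0 ≤ Lam → (J : ℝ) / (Rz + 1) ≤ (1 / 2) ^ h3 →
    Fintype.card K * ((J : ℝ) / (Rz + 1)) ≤ 1 / 2 → (∀ u, ∀ t ≤ D.n, ∀ w, ∀ p ∈ L.vb u t w, p < Q) →
    ∃ (Nk : Type) (_ : Fintype Nk) (_ : DecidableEq Nk) (_ : Inhabited Nk) (kap nl N Ent q0 aw : ℝ),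
      Nonempty (ClsO D L Q Nk h3 kap nl ((J : ℝ) / (Rz + 1)) N Ent q0 aw) ∧
      q0 ≤ cc * ((1 + L.n2 / al) / J + (1 + L.n2) / n0 + Lam ^ C0 * Mc ^ (-κ) + L.M2 / 2 ^ h3) ∧
      kap ≤ cc * Mc ^ C0 ∧ Ent ≤ cc * Mc ^ C0 ∧ N ≤ cc * Mc ^ C0 ∧ aw ≤ cc * al ∧ nl ≤ n0 * L.n1 := by
  refine ⟨2 + v + 2 * C0 + 2 ^ v + 2 * (2 ^ v * 2 ^ v), ?_⟩
  intro Om Tp K β X γ δ Γ _ _ _ _ _ D L _ _ hv κ hC al Lam Mc Rz J n0 h3 Q hal hJ hn0 hn1 hs hM hMc hLam hE hJR hQ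
  obtain ⟨Nk, i1, i2, i3, H⟩ := clsO_of L hC hal hJ hn0 hn1 hs hM (by linarith) hE hJR hQ
  refine ⟨Nk, i1, i2, i3, _, _, _, _, _, _, H, ?_, ?_, ?_, ?_, ?_, ?_⟩
  all_goals push_cast
  · have hn2 := WD.n2_nonneg L
    have hJ' : (0 : ℝ) < J := by exact_mod_cast hJ
    have hn' : (0 : ℝ) < n0 := by exact_mod_cast hn0
    have hM2 : 0 ≤ L.M2 := (D.P.E_nonneg fun w _ => Nat.cast_nonneg _).trans (L.vb_mean (Classical.arbitrary K))
    have a : 0 ≤ (1 + L.n2 / al) / J + (1 + L.n2) / n0 := by positivity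
    have b : 0 ≤ Lam ^ C0 * Mc ^ (-κ) := mul_nonneg (pow_nonneg hLam _) (Real.rpow_nonneg (by linarith) _)
    have c : 0 ≤ L.M2 / 2 ^ h3 := by positivity
    rw [hv]
    have d1 : (0 : ℝ) ≤ v := Nat.cast_nonneg _
    have d2 : (0 : ℝ) ≤ C0 := Nat.cast_nonneg _
    have d3 : (0 : ℝ) ≤ 2 ^ v := by positivity
    have d4 : (0 : ℝ) ≤ 2 * (2 ^ v * 2 ^ v) := by positivity
    nlinarith [mul_nonneg d1 b, mul_nonneg d2 a, mul_nonneg d2 c, mul_nonneg d3 a, mul_nonneg d3 b, mul_nonneg d3 c,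
      mul_nonneg d4 a, mul_nonneg d4 b, mul_nonneg d4 c]
  · have a : 1 ≤ Mc ^ C0 := one_le_pow₀ hMc
    have d1 : (0 : ℝ) ≤ v := Nat.cast_nonneg _
    have d2 : (0 : ℝ) ≤ C0 := Nat.cast_nonneg _
    have d3 : (0 : ℝ) ≤ 2 ^ v := by positivity
    have d4 : (0 : ℝ) ≤ 2 * (2 ^ v * 2 ^ v) := by positivity
    refine mul_le_mul_of_nonneg_right ?_ (by linarith)
    linarith
  · have a : 1 ≤ Mc ^ C0 := one_le_pow₀ hMc
    have d1 : (0 : ℝ) ≤ v := Nat.cast_nonneg _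
    have d2 : (0 : ℝ) ≤ C0 := Nat.cast_nonneg _
    have d3 : (0 : ℝ) ≤ 2 ^ v := by positivity
    have d4 : (0 : ℝ) ≤ 2 * (2 ^ v * 2 ^ v) := by positivity
    rw [hv]
    refine mul_le_mul_of_nonneg_right ?_ (by linarith)
    linarith
  · have a : 1 ≤ Mc ^ C0 := one_le_pow₀ hMc
    have d1 : (0 : ℝ) ≤ v := Nat.cast_nonneg _
    have d2 : (0 : ℝ) ≤ C0 := Nat.cast_nonneg _
    have d3 : (0 : ℝ) ≤ 2 ^ v := by positivity
    have hw : (Fintype.card (WTy K) : ℝ) ≤ 2 ^ v := by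
      rw [← hv]
      exact_mod_cast card_WTy_le
    have hl : (1 : ℝ) / 2 ≤ Real.log 2 := by
      have := Real.log_two_gt_d9
      linarith
    have hl0 : (0 : ℝ) < Real.log 2 := by linarith
    rw [hv]
    have e1 : 2 ^ v * Mc ^ C0 / Real.log 2 ≤ 2 * (2 ^ v * Mc ^ C0) := by
      rw [div_le_iff₀ hl0]
      nlinarith [mul_nonneg d3 (by linarith : (0 : ℝ) ≤ Mc ^ C0)]
    have e2 : (Fintype.card (WTy K) : ℝ) * (2 ^ v * Mc ^ C0 / Real.log 2) ≤ 2 ^ v * (2 * (2 ^ v * Mc ^ C0)) := by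
      refine mul_le_mul hw e1 (by positivity) d3
    nlinarith [mul_nonneg d1 (by linarith : (0 : ℝ) ≤ Mc ^ C0), mul_nonneg d2 (by linarith : (0 : ℝ) ≤ Mc ^ C0),
      mul_nonneg d3 (by linarith : (0 : ℝ) ≤ Mc ^ C0)]
  · rw [hv]
    have d1 : (0 : ℝ) ≤ v := Nat.cast_nonneg _
    have d2 : (0 : ℝ) ≤ C0 := Nat.cast_nonneg _
    have d3 : (0 : ℝ) ≤ 2 ^ v := by positivity
    have d4 : (0 : ℝ) ≤ 2 * (2 ^ v * 2 ^ v) := by positivity
    refine mul_le_mul_of_nonneg_right ?_ hal.le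
    linarith
  · exact le_rfl

end

end Pool.Agent.GMJR
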