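import Pool.Agent.GMJR.JR2At
import Pool.Agent.GMJR.ClsF

/-!
# GMJR/JR2F (helper13): THE RECORD LEMMA `JR2M m C1` for every `m` from CL(v), `2 ≤ v ≤ m - 2`

* `clsOF_of` : `CLSU v κ` gives `ClsOF κ v C0 cc`;
* **`jr2M_of_cls`** : `ClsAll v` for `2 ≤ v`, `v + 2 ≤ m` gives `JR2M m C1` for every `C1`;
* **`jr2M_four`** : `JR2M 4 C1`, unconditional; `namBin_of_below` : the names of every piece from everything below.
-/

set_option autoImplicit false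
set_option linter.unusedSectionVars false

namespace Pool.Agent.GMJR

open Finset Pool.Agent.PWZ Pool.Agent.M3 Pool.Agent.M3.TS Pool.Agent.GM Pool.Agent.GMN
open Pool.Agent.M3.Mod (SzM)

noncomputable section

section nn

variable {Om Tp K β X γ δ Γ : Type} [Fintype Om] [Fintype K] [DecidableEq K] [Fintype β] [Fintype X]
  {D : WD Om Tp K β X γ δ Γ} {L : WL D} {Q : ℕ} {Nk : Type} [Fintype Nk] [DecidableEq Nk] [Inhabited Nk]
  {h3 : ℕ} {kap n0 eps N Ent q0 aw : ℝ}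

theorem ClsO.N_nn (H : ClsO D L Q Nk h3 kap n0 eps N Ent q0 aw) : 0 ≤ N :=
  (zero_le_one.trans (nCh_ge D.n)).trans H.nch

theorem ClsO.Ent_nn (H : ClsO D L Q Nk h3 kap n0 eps N Ent q0 aw) (W : WTy K) : 0 ≤ Ent := by
  refine le_trans ?_ (H.entN W)
  exact add_nonneg (D.P.Hc_nonneg _ _) (Finset.sum_nonneg fun t _ => D.P.Hc_nonneg _ _)

/-- codes of the visible boxes are bounded -/
theorem exists_Q (L : WL D) : ∃ Q : ℕ, ∀ u, ∀ t ≤ D.n, ∀ w, ∀ p ∈ L.vb u t w, p < Q := by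
  classical
  refine ⟨(univ ×ˢ (range (D.n + 1) ×ˢ univ)).sup (fun z : K × ℕ × Om => (L.vb z.1 z.2.1 z.2.2).sup id) + 1, ?_⟩
  intro u t ht w p hp
  have h1 : p ≤ (L.vb u t w).sup id := Finset.le_sup (f := id) hp
  have h2 : (u, t, w) ∈ (univ ×ˢ (range (D.n + 1) ×ˢ univ) : Finset (K × ℕ × Om)) := by
    rw [mem_product, mem_product]
    exact ⟨mem_univ _, mem_range.2 (Nat.lt_succ_of_le ht), mem_univ _⟩
  have h3 := Finset.le_sup (f := fun z : K × ℕ × Om => (L.vb z.1 z.2.1 z.2.2).sup id) h2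
  have h3' : (L.vb u t w).sup id ≤
      (univ ×ˢ (range (D.n + 1) ×ˢ univ)).sup (fun z : K × ℕ × Om => (L.vb z.1 z.2.1 z.2.2).sup id) := h3
  omega

end nn

/-- **the names in every world with `v` known vertices** from CL(v) -/
theorem clsOF_of {v : ℕ} (hv : 1 ≤ v) {ka : ℝ} (h : Harm.CLSU v ka) : ∃ C0 cc : ℕ, ClsOF ka v C0 cc := by
  obtain ⟨C0, hC⟩ := h
  obtain ⟨cc, hcc⟩ := clsO_cc v C0
  refine ⟨C0, cc, ?_⟩
  intro Om Tp K β X γ δ Γ _ _ _ _ _ _ _ D L al J Rz n0 h3 Lam Mc hK hal hal1 hJ hn0 hn1 hsz hE hE2 hM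
  classical
  have hKn : Nonempty K := Fintype.card_pos_iff.1 (by omega)
  obtain ⟨Q, hQ⟩ := exists_Q L
  have hL1 := hsz.Lam1
  have hM1 : 1 ≤ Mc := (one_le_pow₀ (by linarith)).trans hM
  obtain ⟨Nk, i1, i2, i3, kap, nl, N, Ent, q0, aw, ⟨H⟩, h1, h2, h3', h4, h5, h6⟩ :=
    hcc L hK (hC K hK) hal hJ hn0 hn1 hsz hM hM1 (by linarith) hE hE2 hQ
  exact ⟨Q, Nk, i1, i2, i3, kap, _, N, Ent, q0, aw, nl, ⟨H⟩, h1, H.kap0, h2, H.Ent_nn (tyL (Classical.arbitrary K)), h3',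
    H.N_nn, h4, H.aw0, h5, by linarith [H.n01], h6⟩

/-- **THE RECORD LEMMA** for `m` vertices from CL(v), `2 ≤ v ≤ m - 2` -/
theorem jr2M_of_cls {m : ℕ} (hF : ∀ v, 2 ≤ v → v + 2 ≤ m → GS.ClsAll v) (C1 : ℕ) : JR2M m C1 := by
  refine jr2M_of (fun v hv hvm => ?_) C1
  obtain ⟨ka, hka, h⟩ := hF v hv hvm (Fin v) (Fintype.card_fin v)
  obtain ⟨C0, cc, h'⟩ := clsOF_of (by omega) (Harm.clsU_of h (Fintype.card_fin v))
  exact ⟨ka, hka, C0, cc, h'⟩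

/-- **THE RECORD LEMMA FOR FOUR VERTICES**, unconditional -/
theorem jr2M_four (C1 : ℕ) : JR2M 4 C1 := jr2M_of_cls (fun v hv hvm => by
  have : v = 2 := by omega
  subst this
  exact GS.clsAll_two) C1

/-- **the names of every piece with `j` vertices from everything below `j`** -/
theorem namBin_of_below {j : ℕ} (hB : GS.Below j) {κ : ℝ} (hκ : κ ≤ 1) (c0 : ℕ) : ∃ c D, 2 ≤ c ∧ NamBin j κ c0 c D :=
  namBin_below2 hB (jr2M_of_cls hB.cls) hκ c0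

end

end Pool.Agent.GMJR
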