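import Pool.Agent.GMJR.HG
import Pool.Agent.GM.Geo
import Pool.Agent.GMN.Ext

/-!
# GMJR/HGbin (helper42): the geometry of one hidden vertex `v` (`HG`) in the binary model

`hgBin v : HG (binSys Θ Ξ Q σ i hN h) v` : hidden points `(Q × V k) × Fin (2 ^ N)` (vertex and noise), hidden cells
= floors of the scale `ex N t` of the vertex and high digits of the noise (first the digit of the noise, then the digit of
the vertex), constant `K ^ 2`;
`hgAdd : HG S v → HG (addCoins S Ξ2) v`.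
-/

set_option autoImplicit false
set_option linter.unusedSectionVars false

namespace Pool.Agent.GMJR

open Finset Pool.Agent.PWZ Pool.Agent.M3 Pool.Agent.M3.Bin Pool.Agent.GM Pool.Agent.GMN
open Pool.Agent.M3.Mod (ex ex_zero ex_succ ex_top exk ex_anti Wz Wz_nonneg count_img num_aux sumQ cQ)

noncomputable section

namespace HB

variable {k N : ℕ} {ι Θ Ξ Q : Type}

/-! ### digits -/

theorem flr_iff {j : ℕ} (v v' : V k) : flr j v = flr j v' ↔ v.val / 2 ^ j = v'.val / 2 ^ j := by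
  constructor
  · intro h
    have h1 := congrArg ZMod.val h
    rw [flr_val, flr_val, sub_mod_eq, sub_mod_eq] at h1
    exact Nat.eq_of_mul_eq_mul_left (Nat.two_pow_pos j) h1
  · intro h
    rw [flr_eq_cast, flr_eq_cast, sub_mod_eq, sub_mod_eq, h]

theorem div_iff_bit (e n n' : ℕ) :
    n / 2 ^ e = n' / 2 ^ e ↔ n / 2 ^ (e + 1) = n' / 2 ^ (e + 1) ∧ bit e n = bit e n' := by
  unfold bit
  rw [pow_succ, ← Nat.div_div_eq_div_mul, ← Nat.div_div_eq_div_mul]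
  omega

theorem dg_val' (e n : ℕ) : Bin.dg e n = 1 ∨ Bin.dg e n = -1 := by
  unfold Bin.dg
  split_ifs
  · exact Or.inl rfl
  · exact Or.inr rfl

theorem dg_iff (e n n' : ℕ) : Bin.dg e n = Bin.dg e n' ↔ bit e n = bit e n' := by
  unfold Bin.dg
  rcases bit_lt e n with h | h <;> rcases bit_lt e n' with h' | h' <;> simp [h, h'] <;> norm_num

theorem dg_flip (e n : ℕ) : Bin.dg e (flipN e n) = - Bin.dg e n := by
  have h1 := flipN_bit e n
  unfold Bin.dg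
  rcases bit_lt e n with h | h
  · rw [h1, h, if_neg (by norm_num), if_pos rfl]
  · rw [h1, h, if_pos (by norm_num), if_neg (by norm_num)]
    norm_num

/-- an involution which changes the sign -/
theorem sum_flip {X : Type*} [Fintype X] (f : X → X) (hf : Function.Involutive f) (F : X → ℝ)
    (h : ∀ x, F (f x) = - F x) : ∑ x, F x = 0 := by
  have h1 : ∑ x, F (f x) = ∑ x, F x := Equiv.sum_comp hf.toPerm F
  rw [Finset.sum_congr rfl fun x _ => h x, Finset.sum_neg_distrib] at h1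
  linarith

/-- flip a digit of the noise -/
def flN (e : ℕ) (he : e < N) (n : Fin (2 ^ N)) : Fin (2 ^ N) := ⟨flipN e n.val, flipN_lt he n.isLt⟩

/-- flip a digit of a point -/
def flV (e : ℕ) (v : V k) : V k := ((flipN e v.val : ℕ) : V k)

theorem flV_val {e : ℕ} (he : e < k) (v : V k) : (flV e v).val = flipN e v.val :=
  ZMod.val_natCast_of_lt (flipN_lt he (ZMod.val_lt v))

theorem flV_flV {e : ℕ} (he : e < k) (v : V k) : flV e (flV e v) = v := by
  unfold flV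
  have h1 := flV_val he v
  unfold flV at h1
  rw [h1, flipN_flipN, ZMod.natCast_zmod_val]

/-! ### hidden points and hidden cells -/

/-- hidden points -/
abbrev XX (k N : ℕ) (Q : Type) := (Q × V k) × Fin (2 ^ N)

/-- hidden cells -/
def qh (N : ℕ) (τ : ℕ) (x : XX k N Q) : V k × ℕ := (flr (ex N (τ / 2)) x.1.2, x.2.val / 2 ^ ex N ((τ + 1) / 2))

/-- digits -/
def dh (N : ℕ) (τ : ℕ) (x : XX k N Q) : ℝ := Bin.dg (ex N (τ / 2 + 1)) (if τ % 2 = 0 then x.2.val else x.1.2.val)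

theorem qh_even (t : ℕ) (x : XX k N Q) : qh N (2 * t) x = (flr (ex N t) x.1.2, x.2.val / 2 ^ ex N t) := by
  unfold qh
  rw [show 2 * t / 2 = t by omega, show (2 * t + 1) / 2 = t by omega]

theorem qh_odd (t : ℕ) (x : XX k N Q) : qh N (2 * t + 1) x = (flr (ex N t) x.1.2, x.2.val / 2 ^ ex N (t + 1)) := by
  unfold qh
  rw [show (2 * t + 1) / 2 = t by omega, show (2 * t + 1 + 1) / 2 = t + 1 by omega]

theorem dh_even (t : ℕ) (x : XX k N Q) : dh N (2 * t) x = Bin.dg (ex N (t + 1)) x.2.val := by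
  unfold dh
  rw [show 2 * t / 2 = t by omega, if_pos (by omega)]

theorem dh_odd (t : ℕ) (x : XX k N Q) : dh N (2 * t + 1) x = Bin.dg (ex N (t + 1)) x.1.2.val := by
  unfold dh
  rw [show (2 * t + 1) / 2 = t by omega, if_neg (by omega)]

theorem even_or (τ : ℕ) : (∃ t, τ = 2 * t) ∨ ∃ t, τ = 2 * t + 1 := by
  rcases Nat.even_or_odd' τ with ⟨t, h | h⟩
  · exact Or.inl ⟨t, h⟩
  · exact Or.inr ⟨t, h⟩

theorem div_mono {j j' : ℕ} (hj : j ≤ j') {n n' : ℕ} (h : n / 2 ^ j = n' / 2 ^ j) : n / 2 ^ j' = n' / 2 ^ j' := by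
  obtain ⟨d, rfl⟩ := Nat.exists_eq_add_of_le hj
  rw [pow_add, ← Nat.div_div_eq_div_mul, ← Nat.div_div_eq_div_mul, h]

theorem qh_ra (τ : ℕ) (x x' : XX k N Q) (hx : qh N (τ + 1) x = qh N (τ + 1) x') : qh N τ x = qh N τ x' := by
  unfold qh at hx ⊢
  have h1 := (Prod.mk.inj hx).1
  have h2 := (Prod.mk.inj hx).2
  refine Prod.ext (flr_mono_eq ?_ h1) (div_mono ?_ h2)
  · show N - (τ + 1) / 2 ≤ N - τ / 2
    omega
  · show N - (τ + 1 + 1) / 2 ≤ N - (τ + 1) / 2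
    omega

theorem dh_val (τ : ℕ) (x : XX k N Q) : dh N τ x = 1 ∨ dh N τ x = -1 := dg_val' _ _

theorem dh_cell (τ : ℕ) (hτ : τ < 2 * N) (x x' : XX k N Q) :
    qh N (τ + 1) x = qh N (τ + 1) x' ↔ qh N τ x = qh N τ x' ∧ dh N τ x = dh N τ x' := by
  rcases even_or τ with ⟨t, rfl⟩ | ⟨t, rfl⟩
  · rw [qh_odd, qh_odd, qh_even, qh_even, dh_even, dh_even, dg_iff, Prod.ext_iff, Prod.ext_iff]
    show (flr (ex N t) x.1.2 = flr (ex N t) x'.1.2 ∧ x.2.val / 2 ^ ex N (t + 1) = x'.2.val / 2 ^ ex N (t + 1)) ↔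
      (flr (ex N t) x.1.2 = flr (ex N t) x'.1.2 ∧ x.2.val / 2 ^ ex N t = x'.2.val / 2 ^ ex N t) ∧ _
    rw [div_iff_bit, ← ex_succ (by omega : t < N)]
    tauto
  · rw [show 2 * t + 1 + 1 = 2 * (t + 1) by ring, qh_odd, qh_odd, qh_even, qh_even, dh_odd, dh_odd, dg_iff,
      Prod.ext_iff, Prod.ext_iff]
    show (flr (ex N (t + 1)) x.1.2 = flr (ex N (t + 1)) x'.1.2 ∧ x.2.val / 2 ^ ex N (t + 1) = x'.2.val / 2 ^ ex N (t + 1)) ↔
      (flr (ex N t) x.1.2 = flr (ex N t) x'.1.2 ∧ x.2.val / 2 ^ ex N (t + 1) = x'.2.val / 2 ^ ex N (t + 1)) ∧ _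
    rw [flr_iff, div_iff_bit, ← ex_succ (by omega : t < N), ← flr_iff]
    tauto

variable [Fintype Q] [Nonempty Q]

theorem dh_bal (hN : N ≤ k) (τ : ℕ) (hτ : τ < 2 * N) (x : XX k N Q) :
    ∑ x' : XX k N Q, ind (qh N τ x' = qh N τ x) * dh N τ x' = 0 := by
  rcases even_or τ with ⟨t, rfl⟩ | ⟨t, rfl⟩
  · have ht : t < N := by omega
    have he : ex N (t + 1) < N := by unfold ex; omega
    refine sum_flip (fun y : XX k N Q => (y.1, flN (ex N (t + 1)) he y.2)) ?_ _ ?_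
    · intro y
      refine Prod.ext rfl (Fin.ext ?_)
      show flipN _ (flipN _ y.2.val) = y.2.val
      exact flipN_flipN _ _
    · intro y
      rw [qh_even, qh_even, qh_even, dh_even, dh_even]
      show ind ((flr (ex N t) y.1.2, flipN (ex N (t + 1)) y.2.val / 2 ^ ex N t) = _) *
        Bin.dg (ex N (t + 1)) (flipN (ex N (t + 1)) y.2.val) = _
      rw [dg_flip, mul_neg]
      conv_lhs => rw [ex_succ ht]
      conv_rhs => rw [ex_succ ht]
      rw [flipN_div]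
  · have ht : t < N := by omega
    have he : ex N (t + 1) < k := by unfold ex; omega
    refine sum_flip (fun y : XX k N Q => ((y.1.1, flV (ex N (t + 1)) y.1.2), y.2)) ?_ _ ?_
    · intro y
      refine Prod.ext (Prod.ext rfl ?_) rfl
      exact flV_flV he _
    · intro y
      rw [qh_odd, qh_odd, qh_odd, dh_odd, dh_odd]
      show ind ((flr (ex N t) (flV (ex N (t + 1)) y.1.2), y.2.val / 2 ^ ex N (t + 1)) = _) *
        Bin.dg (ex N (t + 1)) (flV (ex N (t + 1)) y.1.2).val = _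
      rw [flV_val he, dg_flip, mul_neg]
      have h1 : flr (ex N t) (flV (ex N (t + 1)) y.1.2) = flr (ex N t) y.1.2 := by
        rw [flr_iff, flV_val he, ex_succ ht, flipN_div]
      rw [h1]

/-! ### counting -/

/-- sums over the hidden points -/
theorem sumX (F : V k → ℕ → ℝ) :
    ∑ x : XX k N Q, F x.1.2 x.2.val = Fintype.card Q * ∑ v : V k, ∑ n ∈ range (2 ^ N), F v n := by
  rw [Fintype.sum_prod_type, ← sumQ (fun v => ∑ n ∈ range (2 ^ N), F v n)]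
  refine Finset.sum_congr rfl fun a _ => ?_
  exact (Finset.sum_range (fun n => F a.2 n)).symm

/-- the noises with given high digits -/
theorem cnt_noise {e : ℕ} (he : e ≤ N) (n0 : ℕ) (h0 : n0 < 2 ^ N) (F : ℕ → ℝ) (c : ℝ)
    (hF : ∀ lo < 2 ^ e, F lo = c) :
    ∑ n ∈ range (2 ^ N), ind (n / 2 ^ e = n0 / 2 ^ e) * F (n % 2 ^ e) = 2 ^ e * c := by
  classical
  have hlt : n0 / 2 ^ e < 2 ^ (N - e) := by
    rw [Nat.div_lt_iff_lt_mul (by positivity), ← pow_add, Nat.sub_add_cancel he]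
    exact h0
  rw [sum_split e he]
  have h1 : ∀ hi ∈ range (2 ^ (N - e)), ∑ lo ∈ range (2 ^ e), ind ((hi * 2 ^ e + lo) / 2 ^ e = n0 / 2 ^ e) *
      F ((hi * 2 ^ e + lo) % 2 ^ e) = ind (hi = n0 / 2 ^ e) * (2 ^ e * c) := by
    intro hi _
    have h2 : ∀ lo ∈ range (2 ^ e), ind ((hi * 2 ^ e + lo) / 2 ^ e = n0 / 2 ^ e) * F ((hi * 2 ^ e + lo) % 2 ^ e) =
        ind (hi = n0 / 2 ^ e) * c := by
      intro lo hlo
      rw [Finset.mem_range] at hlo
      have h3 : (hi * 2 ^ e + lo) / 2 ^ e = hi := by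
        rw [add_comm, Nat.add_mul_div_right _ _ (by positivity), Nat.div_eq_of_lt hlo, zero_add]
      have h4 : (hi * 2 ^ e + lo) % 2 ^ e = lo := by
        rw [add_comm, Nat.add_mul_mod_self_right, Nat.mod_eq_of_lt hlo]
      rw [h3, h4, hF lo hlo]
    rw [Finset.sum_congr rfl h2, Finset.sum_const, card_range, nsmul_eq_mul]
    push_cast
    ring
  rw [Finset.sum_congr rfl h1, ← Finset.sum_mul, Finset.sum_eq_single (n0 / 2 ^ e)]
  · rw [ind_of rfl, one_mul]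
  · intro b _ hb
    exact ind_not hb
  · intro h
    exact absurd (Finset.mem_range.2 hlt) h

/-- a hidden cell -/
theorem cnt_qh (hN : N ≤ k) (t : ℕ) (x' : XX k N Q) :
    ∑ x : XX k N Q, ind (qh N (2 * t) x = qh N (2 * t) x') = Fintype.card Q * (2 ^ ex N t * 2 ^ ex N t) := by
  have he : ex N t ≤ N := Nat.sub_le _ _
  have h1 : ∀ x : XX k N Q, ind (qh N (2 * t) x = qh N (2 * t) x') =
      (fun v n => ind (flr (ex N t) v = flr (ex N t) x'.1.2) * ind (n / 2 ^ ex N t = x'.2.val / 2 ^ ex N t)) x.1.2 x.2.val := by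
    intro x
    rw [qh_even, qh_even, Prod.ext_iff, ind_and]
  rw [Finset.sum_congr rfl fun x _ => h1 x, sumX (fun v n => ind (flr (ex N t) v = flr (ex N t) x'.1.2) *
    ind (n / 2 ^ ex N t = x'.2.val / 2 ^ ex N t))]
  congr 1
  rw [Finset.sum_congr rfl fun v _ => (Finset.mul_sum _ _ _).symm, ← Finset.sum_mul]
  rw [card_cell' (exk hN t) _ (flr_flr le_rfl _)]
  congr 1
  have h2 := cnt_noise he x'.2.val x'.2.isLt (fun _ => 1) 1 (fun _ _ => rfl)
  simpa using h2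

/-- the points of a node -/
theorem cnt_G {h e : ℕ} (he : e ≤ N) (hN : N ≤ k) (C z : V k) (n0 : ℕ) (h0 : n0 < 2 ^ N) :
    ∑ v : V k, ∑ n ∈ range (2 ^ N), ind (G h e (C + v) n = G h e z n0) = 2 ^ e * 2 ^ (e - h) := by
  rw [Finset.sum_comm]
  have h1 : ∀ n ∈ range (2 ^ N), ∑ v : V k, ind (G h e (C + v) n = G h e z n0) =
      ind (n / 2 ^ e = n0 / 2 ^ e) * (fun _ => (2 : ℝ) ^ (e - h)) (n % 2 ^ e) := by
    intro n _
    have h2 : ∀ v : V k, ind (G h e (C + v) n = G h e z n0) = ind (n / 2 ^ e = n0 / 2 ^ e) *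
        ind (flr (e - h) (v + (C + ((n % 2 ^ e : ℕ) : V k))) = (G h e z n0).1) := by
      intro v
      rw [← ind_and]
      congr 1
      apply propext
      rw [Prod.ext_iff, and_comm]
      show (n / 2 ^ e = n0 / 2 ^ e ∧ flr (e - h) (C + v + ((n % 2 ^ e : ℕ) : V k)) = (G h e z n0).1) ↔ _
      rw [show C + v + ((n % 2 ^ e : ℕ) : V k) = v + (C + ((n % 2 ^ e : ℕ) : V k)) by ring]
    rw [Finset.sum_congr rfl fun v _ => h2 v, ← Finset.mul_sum]
    congr 1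
    have h3 := Equiv.sum_comp (Equiv.addRight (C + ((n % 2 ^ e : ℕ) : V k)))
      (fun v => ind (flr (e - h) v = (G h e z n0).1))
    exact h3.trans (card_cell' (by omega) _ (G_aligned h e z n0))
  rw [Finset.sum_congr rfl h1]
  exact cnt_noise he n0 h0 _ _ (fun _ _ => rfl)

/-! ### the fields -/

variable [Fintype ι] [DecidableEq ι] (σ : V k) [Fintype Θ] [Nonempty Θ] [Fintype Ξ] [Nonempty Ξ]

theorem K32 (m h : ℕ) : 32 ≤ (m + 4) * 2 ^ (h + 3) := by
  have h1 : 1 ≤ 2 ^ h := Nat.one_le_two_pow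
  have h2 : 2 ^ (h + 3) = 8 * 2 ^ h := by ring
  rw [h2]
  nlinarith

/-- the hidden points near to a hidden cell -/
theorem near_b (hN : N ≤ k) (h t : ℕ) (v : ι) (w0 : Sq k N ι Θ (Ξ × Q)) (x' : XX k N Q) :
    ∑ x : XX k N Q, ind (∃ w1 w2 : Sq k N ι Θ (Ξ × Q), GM.th w1 = GM.th w0 ∧
      (∀ j, j ≠ v → flr (ex N t - (h + 3)) (vm w1 j).2 = flr (ex N t - (h + 3)) (vm w0 j).2) ∧
      qh N (2 * t) (vm w1 v, w1.2.2) = qh N (2 * t) x ∧
      (∀ j, j ≠ v → flr (ex N t - (h + 3)) (vm w2 j).2 = flr (ex N t - (h + 3)) (vm w1 j).2) ∧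
      gv σ h (ex N t) w2 = gv σ h (ex N t) w1 ∧ qh N (2 * t) (vm w2 v, w2.2.2) = qh N (2 * t) x') ≤
    (((Fintype.card ι + 4) * 2 ^ (h + 3) : ℕ) : ℝ) ^ 2 * ∑ x : XX k N Q, ind (qh N (2 * t) x = qh N (2 * t) x') := by
  classical
  rw [cnt_qh hN t x']
  set e := ex N t with he
  have heN : e ≤ N := Nat.sub_le _ _
  set s := e - (h + 3) with hs
  set M := 2 ^ (e - h) + 2 ^ e + (Fintype.card ι + 1) * 2 ^ s with hM
  set base : V k := x'.1.2 + ((M + 2 * 2 ^ e : ℕ) : V k) with hb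
  have key : ∀ x : XX k N Q, ind (∃ w1 w2 : Sq k N ι Θ (Ξ × Q), GM.th w1 = GM.th w0 ∧
      (∀ j, j ≠ v → flr s (vm w1 j).2 = flr s (vm w0 j).2) ∧ qh N (2 * t) (vm w1 v, w1.2.2) = qh N (2 * t) x ∧
      (∀ j, j ≠ v → flr s (vm w2 j).2 = flr s (vm w1 j).2) ∧
      gv σ h e w2 = gv σ h e w1 ∧ qh N (2 * t) (vm w2 v, w2.2.2) = qh N (2 * t) x') ≤
      (fun c n => ind (∃ m < 2 * M + 4 * 2 ^ e, c = base - (m : V k)) * ind (n / 2 ^ e = x'.2.val / 2 ^ e)) x.1.2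
        x.2.val := by
    intro x
    show _ ≤ ind _ * ind _
    rw [← ind_and]
    refine ind_mono ?_
    rintro ⟨w1, w2, -, h2, h3, h4, h5, h6⟩
    rw [qh_even, qh_even, Prod.ext_iff] at h3 h6
    obtain ⟨h3a, h3b⟩ := h3
    obtain ⟨h6a, h6b⟩ := h6
    simp only [← he] at h3a h3b h6a h6b
    have h7 : nz w2 / 2 ^ e = nz w1 / 2 ^ e := congrArg (fun g => g.2.2) h5
    choose r1 hr1 hr1' using fun i : ι => flr_add_rem s (vm w1 i).2
    choose r2 hr2 hr2' using fun i : ι => flr_add_rem s (vm w2 i).2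
    obtain ⟨M1, hM1, e1⟩ := bd_memm σ (s := s) (j := e - h) (e := e) v (fun i => (vm w1 i).2)
      (fun i => flr s (vm w0 i).2) r1 (c0 := (vm w1 v).2) (Nat.mod_lt (nz w1) (Nat.two_pow_pos e)) (fun i hi => by
        rw [← h2 i hi]
        exact hr1' i) (fun i _ => hr1 i) rfl (gv_flr σ rfl)
    obtain ⟨M2, hM2, e2⟩ := bd_memm σ (s := s) (j := e - h) (e := e) v (fun i => (vm w2 i).2)
      (fun i => flr s (vm w0 i).2) r2 (c0 := (vm w2 v).2) (Nat.mod_lt (nz w2) (Nat.two_pow_pos e)) (fun i hi => by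
        rw [← h2 i hi, ← h4 i hi]
        exact hr2' i) (fun i _ => hr2 i) rfl (gv_flr σ h5)
    obtain ⟨p1, hp1, f1⟩ := flr_add_rem e (vm w1 v).2
    obtain ⟨p2, hp2, f2⟩ := flr_add_rem e (vm w2 v).2
    obtain ⟨px, hpx, fx⟩ := flr_add_rem e x.1.2
    obtain ⟨px', hpx', fx'⟩ := flr_add_rem e x'.1.2
    rw [h3a] at f1
    rw [h6a] at f2
    refine ⟨⟨(M - M2) + (2 ^ e - p2) + px' + M1 + p1 + (2 ^ e - px), by omega, ?_⟩, ?_⟩
    · have h8 : ((M + 2 * 2 ^ e : ℕ) : V k) = ((M - M2 : ℕ) : V k) + (M2 : V k) + ((2 ^ e - p2 : ℕ) : V k) + (p2 : V k) +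
          ((2 ^ e - px : ℕ) : V k) + (px : V k) := by
        rw [← Nat.cast_add, ← Nat.cast_add, ← Nat.cast_add, ← Nat.cast_add, ← Nat.cast_add]
        congr 1
        omega
      rw [hb, h8]
      simp only [Nat.cast_add]
      linear_combination fx - f1 + e1 - e2 + f2 - fx'
    · have h9 : w1.2.2.val / 2 ^ e = w2.2.2.val / 2 ^ e := h7.symm
      rw [← h3b, h9, h6b]
  refine (Finset.sum_le_sum fun x _ => key x).trans ?_
  rw [sumX (fun c n => ind (∃ m < 2 * M + 4 * 2 ^ e, c = base - (m : V k)) * ind (n / 2 ^ e = x'.2.val / 2 ^ e)),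
    Finset.sum_congr rfl fun c _ => (Finset.mul_sum _ _ _).symm, ← Finset.sum_mul]
  have h2 := cnt_noise heN x'.2.val x'.2.isLt (fun _ => 1) 1 (fun _ _ => rfl)
  simp only [mul_one] at h2
  rw [h2]
  have h3 := count_img base (2 * M + 4 * 2 ^ e) (fun c => ∃ m < 2 * M + 4 * 2 ^ e, c = base - (m : V k)) (fun _ h => h)
  have h4 : 2 * M + 4 * 2 ^ e ≤ ((Fintype.card ι + 4) * 2 ^ (h + 3)) ^ 2 * 2 ^ e := by
    have h5 := numC (Fintype.card ι) h e
    have h6 := K32 (Fintype.card ι) h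
    rw [← hs, ← hM] at h5
    generalize (Fintype.card ι + 4) * 2 ^ (h + 3) = K at h5 h6 ⊢
    have h7 : 2 * K + 4 ≤ K ^ 2 := by nlinarith
    calc 2 * M + 4 * 2 ^ e ≤ (2 * K + 4) * 2 ^ e := by nlinarith
      _ ≤ _ := Nat.mul_le_mul_right _ h7
  have h5 : ((2 * M + 4 * 2 ^ e : ℕ) : ℝ) ≤ (((Fintype.card ι + 4) * 2 ^ (h + 3) : ℕ) : ℝ) ^ 2 * 2 ^ e := by
    exact_mod_cast h4
  have h6 := mul_le_mul_of_nonneg_right (h3.trans h5) (by positivity : (0 : ℝ) ≤ 2 ^ e)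
  calc (Fintype.card Q : ℝ) * ((∑ c : V k, ind (∃ m < 2 * M + 4 * 2 ^ e, c = base - (m : V k))) * 2 ^ e)
      ≤ Fintype.card Q * ((((Fintype.card ι + 4) * 2 ^ (h + 3) : ℕ) : ℝ) ^ 2 * 2 ^ e * 2 ^ e) :=
        mul_le_mul_of_nonneg_left h6 (Nat.cast_nonneg _)
    _ = _ := by ring

/-- few hidden cells are compatible with the cells and the node -/
theorem opt_b (hN : N ≤ k) (h t : ℕ) (v : ι) (w : Sq k N ι Θ (Ξ × Q)) :
    ∃ s : Finset (V k × ℕ), (s.card : ℝ) ≤ (((Fintype.card ι + 4) * 2 ^ (h + 3) : ℕ) : ℝ) ^ 2 ∧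
    ∀ w' : Sq k N ι Θ (Ξ × Q), (∀ j, j ≠ v → flr (ex N t - (h + 3)) (vm w' j).2 = flr (ex N t - (h + 3)) (vm w j).2) →
      gv σ h (ex N t) w' = gv σ h (ex N t) w → qh N (2 * t) (vm w' v, w'.2.2) ∈ s := by
  classical
  obtain ⟨s, h1, h2⟩ := nu_m σ (h := h) (exk hN t) v w
  refine ⟨s.image (fun c => (flr (ex N t) c, (gv σ h (ex N t) w).2.2)), ?_, ?_⟩
  · have h3 : ((s.image (fun c => (flr (ex N t) c, (gv σ h (ex N t) w).2.2))).card : ℝ) ≤ s.card := by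
      exact_mod_cast Finset.card_image_le
    refine h3.trans (h1.trans ?_)
    have h4 : (1 : ℝ) ≤ (((Fintype.card ι + 4) * 2 ^ (h + 3) : ℕ) : ℝ) := by
      have := K32 (Fintype.card ι) h
      exact_mod_cast (by omega : 1 ≤ (Fintype.card ι + 4) * 2 ^ (h + 3))
    generalize (((Fintype.card ι + 4) * 2 ^ (h + 3) : ℕ) : ℝ) = K at h4 ⊢
    nlinarith
  · intro w' h3 h4
    rw [Finset.mem_image]
    refine ⟨_, h2 w' h3 h4, ?_⟩
    rw [qh_even, flr_flr (by omega)]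
    refine Prod.ext rfl ?_
    rw [← h4]
    rfl

theorem sum_upd1 (z : ι → Q × V k) (v : ι) (a : Q × V k) :
    ∑ j, (Function.update z v a j).2 + σ = (∑ j ∈ univ.erase v, (z j).2 + σ) + a.2 := by
  rw [sum_upd (fun p : Q × V k => p.2) z v a]
  ring

theorem sum_upd2 {u v : ι} (huv : u ≠ v) (z : ι → Q × V k) (a b : Q × V k) :
    ∑ j, (Function.update (Function.update z v a) u b j).2 + σ =
      (∑ j ∈ (univ.erase u).erase v, (z j).2 + σ) + a.2 + b.2 := by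
  rw [sum_upd1, ← Finset.add_sum_erase (univ.erase u) _ (Finset.mem_erase.2 ⟨huv.symm, mem_univ v⟩),
    Function.update_self]
  rw [Finset.sum_congr rfl fun j hj => by rw [Function.update_of_ne (Finset.ne_of_mem_erase hj)]]
  ring

/-- the node as a function -/
def gh (N h t : ℕ) (θ : Θ) (y : ι → Q × V k) (x : XX k N Q) : Θ × (V k × ℕ) :=
  (θ, G h (ex N t) (∑ j, (y j).2 + σ) x.2.val)

/-- hidden cells are not larger than nodes -/
theorem cmpr_b (hN : N ≤ k) (h t : ℕ) (v : ι) (w0 w9 : Sq k N ι Θ (Ξ × Q)) (h9 : GM.th w9 = GM.th w0) (x' : XX k N Q) :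
    ∑ x : XX k N Q, ind (qh N (2 * t) x = qh N (2 * t) x') ≤
      (((Fintype.card ι + 4) * 2 ^ (h + 3) : ℕ) : ℝ) ^ 2 * ∑ x : XX k N Q,
        ind (gh σ N h t (GM.th w0) (Function.update (vm w0) v x.1) x = gv σ h (ex N t) w9) := by
  rw [cnt_qh hN t x']
  set e := ex N t with he
  have heN : e ≤ N := Nat.sub_le _ _
  set C : V k := ∑ j ∈ univ.erase v, (vm w0 j).2 + σ with hC
  have h1 : ∀ x : XX k N Q, ind (gh σ N h t (GM.th w0) (Function.update (vm w0) v x.1) x = gv σ h e w9) =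
      (fun c n => ind (G h e (C + c) n = G h e (ctr σ w9) (nz w9))) x.1.2 x.2.val := by
    intro x
    show _ = ind _
    congr 1
    apply propext
    unfold gh
    rw [sum_upd1, Prod.ext_iff]
    show (GM.th w0 = GM.th w9 ∧ G h e (C + x.1.2) x.2.val = G h e (ctr σ w9) (nz w9)) ↔ _
    rw [h9]
    tauto
  rw [Finset.sum_congr rfl fun x _ => h1 x,
    sumX (fun c n => ind (G h e (C + c) n = G h e (ctr σ w9) (nz w9))), cnt_G heN hN C (ctr σ w9) (nz w9) w9.2.2.isLt]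
  have h2 : (2 : ℕ) ^ e ≤ 2 ^ h * 2 ^ (e - h) := by
    rw [← pow_add]
    exact Nat.pow_le_pow_right (by norm_num) (by omega)
  have h3 : (2 : ℕ) ^ h ≤ ((Fintype.card ι + 4) * 2 ^ (h + 3)) ^ 2 := by
    have h4 : 1 ≤ 2 ^ h := Nat.one_le_two_pow
    have h5 : 2 ^ (h + 3) = 8 * 2 ^ h := by ring
    have h6 := K32 (Fintype.card ι) h
    have h7 : 2 ^ h ≤ (Fintype.card ι + 4) * 2 ^ (h + 3) := by
      rw [h5]
      nlinarith
    generalize (Fintype.card ι + 4) * 2 ^ (h + 3) = K at h6 h7 ⊢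
    nlinarith
  have h4 : (2 : ℝ) ^ e ≤ (((Fintype.card ι + 4) * 2 ^ (h + 3) : ℕ) : ℝ) ^ 2 * 2 ^ (e - h) := by
    exact_mod_cast h2.trans (Nat.mul_le_mul_right _ h3)
  have h5 := mul_le_mul_of_nonneg_left h4 (by positivity : (0 : ℝ) ≤ Fintype.card Q * 2 ^ e)
  calc (Fintype.card Q : ℝ) * (2 ^ e * 2 ^ e) = Fintype.card Q * 2 ^ e * 2 ^ e := by ring
    _ ≤ _ := h5
    _ = _ := by ring

theorem small_le (h e : ℕ) : 2 ^ (e - (h + 3)) ≤ 2 ^ (e - h) := Nat.pow_le_pow_right (by norm_num) (by omega)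

/-- the nodes which are possible when the vertex `u` varies in its cell -/
theorem fb_b (hN : N ≤ k) (h t : ℕ) (v u : ι) (w0 w9 : Sq k N ι Θ (Ξ × Q)) :
    ∑ x : XX k N Q, ∑ b : Q × V k, ind (x.1 = vm w0 v ∧
      ∃ b' : Q × V k, flr (ex N t - (h + 3)) b'.2 = flr (ex N t - (h + 3)) b.2 ∧
        gh σ N h t (GM.th w0) (Function.update (vm w0) u b') x = gv σ h (ex N t) w9) ≤
    (((Fintype.card ι + 4) * 2 ^ (h + 3) : ℕ) : ℝ) ^ 2 * ∑ x : XX k N Q, ∑ b : Q × V k, ind (x.1 = vm w0 v ∧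
      gh σ N h t (GM.th w0) (Function.update (vm w0) u b) x = gv σ h (ex N t) w9) := by
  classical
  rw [Finset.mul_sum]
  refine Finset.sum_le_sum fun x _ => ?_
  set e := ex N t with he
  set s := e - (h + 3) with hs
  have hK0 : (0 : ℝ) ≤ (((Fintype.card ι + 4) * 2 ^ (h + 3) : ℕ) : ℝ) ^ 2 := by positivity
  by_cases hx : x.1 = vm w0 v ∧ ∃ b : Q × V k, gh σ N h t (GM.th w0) (Function.update (vm w0) u b) x = gv σ h e w9
  swap
  · have h1 : ∀ b : Q × V k, ind (x.1 = vm w0 v ∧ ∃ b' : Q × V k, flr s b'.2 = flr s b.2 ∧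
        gh σ N h t (GM.th w0) (Function.update (vm w0) u b') x = gv σ h e w9) = 0 := by
      intro b
      refine ind_not ?_
      rintro ⟨h2, b', -, h3⟩
      exact hx ⟨h2, b', h3⟩
    rw [Finset.sum_congr rfl fun b _ => h1 b, Finset.sum_const_zero]
    exact mul_nonneg hK0 (Finset.sum_nonneg fun _ _ => ind_nonneg _)
  obtain ⟨hx1, b0, hb0⟩ := hx
  set C : V k := ∑ j ∈ univ.erase u, (vm w0 j).2 + σ with hC
  set n : V k := ((x.2.val % 2 ^ e : ℕ) : V k) with hn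
  set g1 : V k := (gv σ h e w9).2.1 with hg1
  have hnode : ∀ b : Q × V k, gh σ N h t (GM.th w0) (Function.update (vm w0) u b) x = gv σ h e w9 ↔
      flr (e - h) (C + b.2 + n) = g1 := by
    intro b
    constructor
    · intro h1
      have h2 := congrArg (fun g => g.2.1) h1
      have h3 : flr (e - h) (∑ j, (Function.update (vm w0) u b j).2 + σ + n) = g1 := h2
      rwa [sum_upd1] at h3
    · intro h1
      refine Prod.ext ?_ (Prod.ext ?_ ?_)
      · have := congrArg (fun g => g.1) hb0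
        exact this
      · show flr (e - h) (∑ j, (Function.update (vm w0) u b j).2 + σ + n) = g1
        rw [sum_upd1]
        exact h1
      · have := congrArg (fun g => g.2.2) hb0
        exact this
  have hal : flr (e - h) g1 = g1 := G_aligned h e (ctr σ w9) (nz w9)
  -- the right side
  have hR : ∑ b : Q × V k, ind (x.1 = vm w0 v ∧ gh σ N h t (GM.th w0) (Function.update (vm w0) u b) x = gv σ h e w9) =
      Fintype.card Q * 2 ^ (e - h) := by
    have h1 : ∀ b : Q × V k, ind (x.1 = vm w0 v ∧ gh σ N h t (GM.th w0) (Function.update (vm w0) u b) x = gv σ h e w9) =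
        (fun c : V k => ind (flr (e - h) (C + c + n) = g1)) b.2 := by
      intro b
      show _ = ind _
      congr 1
      apply propext
      rw [hnode b]
      exact ⟨fun h' => h'.2, fun h' => ⟨hx1, h'⟩⟩
    rw [Finset.sum_congr rfl fun b _ => h1 b, sumQ (fun c : V k => ind (flr (e - h) (C + c + n) = g1))]
    congr 1
    have h3 := Equiv.sum_comp (Equiv.addRight (C + n)) (fun v : V k => ind (flr (e - h) v = g1))
    have h4 : ∀ c : V k, ind (flr (e - h) (C + c + n) = g1) = ind (flr (e - h) (Equiv.addRight (C + n) c) = g1) := by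
      intro c
      rw [show C + c + n = Equiv.addRight (C + n) c by
        rw [Equiv.coe_addRight]
        ring]
    rw [Finset.sum_congr rfl fun c _ => h4 c]
    exact h3.trans (card_cell' (by have := exk hN t; omega) _ hal)
  -- the left side
  have hL : ∑ b : Q × V k, ind (x.1 = vm w0 v ∧ ∃ b' : Q × V k, flr s b'.2 = flr s b.2 ∧
        gh σ N h t (GM.th w0) (Function.update (vm w0) u b') x = gv σ h e w9) ≤
      Fintype.card Q * ((3 * 2 ^ (e - h) : ℕ) : ℝ) := by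
    have h1 : ∀ b : Q × V k, ind (x.1 = vm w0 v ∧ ∃ b' : Q × V k, flr s b'.2 = flr s b.2 ∧
        gh σ N h t (GM.th w0) (Function.update (vm w0) u b') x = gv σ h e w9) ≤
        (fun c : V k => ind (∃ c' : V k, flr s c' = flr s c ∧ flr (e - h) (C + c' + n) = g1)) b.2 := by
      intro b
      refine ind_mono ?_
      rintro ⟨-, b', h2, h3⟩
      exact ⟨b'.2, h2, (hnode b').1 h3⟩
    refine (Finset.sum_le_sum fun b _ => h1 b).trans ?_
    rw [sumQ (fun c : V k => ind (∃ c' : V k, flr s c' = flr s c ∧ flr (e - h) (C + c' + n) = g1))]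
    refine mul_le_mul_of_nonneg_left ?_ (Nat.cast_nonneg _)
    refine count_img (g1 - C - n + ((2 ^ (e - h) + 2 ^ s : ℕ) : V k)) _ _ ?_
    rintro c ⟨c', h2, h3⟩
    obtain ⟨r, hr, f1⟩ := flr_add_rem s c
    obtain ⟨r', hr', f2⟩ := flr_add_rem s c'
    obtain ⟨r5, hr5, f3⟩ := flr_add_rem (e - h) (C + c' + n)
    rw [h3] at f3
    rw [h2] at f2
    have h4 : 2 ^ s ≤ 2 ^ (e - h) := small_le h e
    refine ⟨(2 ^ (e - h) - r5) + r' + (2 ^ s - r), by omega, ?_⟩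
    have h5 : ((2 ^ (e - h) + 2 ^ s : ℕ) : V k) = ((2 ^ (e - h) - r5 : ℕ) : V k) + (r5 : V k) + ((2 ^ s - r : ℕ) : V k) +
        (r : V k) := by
      rw [← Nat.cast_add, ← Nat.cast_add, ← Nat.cast_add]
      congr 1
      omega
    rw [h5]
    simp only [Nat.cast_add]
    linear_combination f1 - f2 + f3
  rw [hR]
  refine hL.trans ?_
  have h1 : ((3 * 2 ^ (e - h) : ℕ) : ℝ) ≤ (((Fintype.card ι + 4) * 2 ^ (h + 3) : ℕ) : ℝ) ^ 2 * 2 ^ (e - h) := by
    have h2 := K32 (Fintype.card ι) h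
    have h3 : 3 * 2 ^ (e - h) ≤ ((Fintype.card ι + 4) * 2 ^ (h + 3)) ^ 2 * 2 ^ (e - h) := by
      refine Nat.mul_le_mul_right _ ?_
      nlinarith
    exact_mod_cast h3
  calc (Fintype.card Q : ℝ) * ((3 * 2 ^ (e - h) : ℕ) : ℝ)
      ≤ Fintype.card Q * ((((Fintype.card ι + 4) * 2 ^ (h + 3) : ℕ) : ℝ) ^ 2 * 2 ^ (e - h)) :=
        mul_le_mul_of_nonneg_left h1 (Nat.cast_nonneg _)
    _ = _ := by ring

theorem two_pow_e (h e : ℕ) : 2 ^ e ≤ 2 ^ h * 2 ^ (e - h) := by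
  rw [← pow_add]
  exact Nat.pow_le_pow_right (by norm_num) (by omega)

/-- the nodes of one hidden point when the vertex `u` varies in its cell -/
theorem opn_b (hN : N ≤ k) (h t : ℕ) (v u : ι) (w0 : Sq k N ι Θ (Ξ × Q)) :
    ∃ s : Finset (Θ × (V k × ℕ)), (s.card : ℝ) ≤ (((Fintype.card ι + 4) * 2 ^ (h + 3) : ℕ) : ℝ) ^ 2 ∧
    ∀ b' : Q × V k, flr (ex N t - (h + 3)) b'.2 = flr (ex N t - (h + 3)) (vm w0 u).2 →
      gh σ N h t (GM.th w0) (Function.update (vm w0) u b') (vm w0 v, w0.2.2) ∈ s := by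
  classical
  set e := ex N t with he
  set s := e - (h + 3) with hs
  have hek : e - h ≤ k := by have := exk hN t; omega
  set C : V k := ∑ j ∈ univ.erase u, (vm w0 j).2 + σ with hC
  set n : V k := ((nz w0 % 2 ^ e : ℕ) : V k) with hn
  set β : V k := C + flr s (vm w0 u).2 + n + ((2 ^ s : ℕ) : V k) with hβ
  have h4 : 2 ^ s ≤ 2 ^ (e - h) := small_le h e
  have h0 := Nat.two_pow_pos (e - h)
  refine ⟨(range ((2 ^ s + (2 ^ (e - h) - 1)) / 2 ^ (e - h) + 1)).image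
    (fun j : ℕ => (GM.th w0, (flr (e - h) β - ((j * 2 ^ (e - h) : ℕ) : V k), nz w0 / 2 ^ e))), ?_, ?_⟩
  · have h1 := (Finset.card_image_le (s := range ((2 ^ s + (2 ^ (e - h) - 1)) / 2 ^ (e - h) + 1))
      (f := fun j : ℕ => (GM.th w0, (flr (e - h) β - ((j * 2 ^ (e - h) : ℕ) : V k), nz w0 / 2 ^ e)))).trans
      (Finset.card_range _).le
    have h2 : (2 ^ s + (2 ^ (e - h) - 1)) / 2 ^ (e - h) < 2 := by
      rw [Nat.div_lt_iff_lt_mul h0]
      omega
    have h3 := K32 (Fintype.card ι) h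
    have h5 : (2 ^ s + (2 ^ (e - h) - 1)) / 2 ^ (e - h) + 1 ≤ ((Fintype.card ι + 4) * 2 ^ (h + 3)) ^ 2 := by
      nlinarith
    exact_mod_cast h1.trans h5
  · intro b' hb
    obtain ⟨r, hr, f1⟩ := flr_add_rem s b'.2
    rw [hb] at f1
    obtain ⟨j, hj, h5⟩ := cover (e - h) hek β (2 ^ s - r) (2 ^ s) (Nat.sub_le _ _)
    rw [Finset.mem_image]
    refine ⟨j, hj, ?_⟩
    have h6 : β - ((2 ^ s - r : ℕ) : V k) = ∑ j, (Function.update (vm w0) u b' j).2 + σ + n := by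
      rw [sum_upd1]
      have h7 : ((2 ^ s : ℕ) : V k) = ((2 ^ s - r : ℕ) : V k) + (r : V k) := by
        rw [← Nat.cast_add]
        congr 1
        omega
      rw [hβ, h7]
      linear_combination -f1
    rw [h6] at h5
    refine Prod.ext rfl (Prod.ext ?_ rfl)
    exact h5.symm

/-- the fine cells and the nodes of a box -/
theorem box_b (hN : N ≤ k) (h t : ℕ) (v u : ι) (huv : u ≠ v) (w0 : Sq k N ι Θ (Ξ × Q)) :
    ∃ s : Finset (V k × (Θ × (V k × ℕ))), (s.card : ℝ) ≤ (((Fintype.card ι + 4) * 2 ^ (h + 3) : ℕ) : ℝ) ^ 2 ∧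
    ∀ (x' : XX k N Q) (b' : Q × V k), qh N (2 * t) x' = qh N (2 * t) (vm w0 v, w0.2.2) →
      flr (ex N t - (h + 3)) b'.2 = flr (ex N t - (h + 3)) (vm w0 u).2 →
      (flr (ex N t - (h + 3)) x'.1.2,
        gh σ N h t (GM.th w0) (Function.update (Function.update (vm w0) v x'.1) u b') x') ∈ s := by
  classical
  set e := ex N t with he
  set s := e - (h + 3) with hs
  have hek : e - h ≤ k := by have := exk hN t; omega
  have hsk : s ≤ k := by have := exk hN t; omega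
  set C : V k := ∑ j ∈ (univ.erase u).erase v, (vm w0 j).2 + σ with hC
  set β : V k := C + flr e (vm w0 v).2 + flr s (vm w0 u).2 + ((2 ^ s + 2 * 2 ^ e : ℕ) : V k) with hβ
  set β' : V k := flr e (vm w0 v).2 + ((2 ^ e : ℕ) : V k) with hβ'
  have h4 : 2 ^ s ≤ 2 ^ (e - h) := small_le h e
  have h4' := two_pow_e h e
  have h0 := Nat.two_pow_pos (e - h)
  have h0' := Nat.two_pow_pos s
  set A1 := (2 ^ e + (2 ^ s - 1)) / 2 ^ s + 1 with hA1
  set A2 := (2 ^ s + 2 * 2 ^ e + (2 ^ (e - h) - 1)) / 2 ^ (e - h) + 1 with hA2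
  refine ⟨((range A1) ×ˢ (range A2)).image
    (fun j : ℕ × ℕ => (flr s β' - ((j.1 * 2 ^ s : ℕ) : V k),
      (GM.th w0, (flr (e - h) β - ((j.2 * 2 ^ (e - h) : ℕ) : V k), nz w0 / 2 ^ e)))), ?_, ?_⟩
  · have h1 := (Finset.card_image_le (s := (range A1) ×ˢ (range A2))
      (f := fun j : ℕ × ℕ => (flr s β' - ((j.1 * 2 ^ s : ℕ) : V k),
      (GM.th w0, (flr (e - h) β - ((j.2 * 2 ^ (e - h) : ℕ) : V k), nz w0 / 2 ^ e))))).trans
      (le_of_eq (by rw [Finset.card_product, card_range, card_range]))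
    have a1 : A1 ≤ 8 * 2 ^ h + 2 := by
      have h2 : (2 ^ e + (2 ^ s - 1)) / 2 ^ s < 8 * 2 ^ h + 1 := by
        rw [Nat.div_lt_iff_lt_mul h0']
        have h5 : 2 ^ e ≤ 8 * 2 ^ h * 2 ^ s := by
          have h6 : 8 * 2 ^ h = 2 ^ (h + 3) := by ring
          rw [h6, ← pow_add]
          exact Nat.pow_le_pow_right (by norm_num) (by omega)
        have h7 : (8 * 2 ^ h + 1) * 2 ^ s = 8 * 2 ^ h * 2 ^ s + 2 ^ s := by ring
        omega
      omega
    have a2 : A2 ≤ 2 * 2 ^ h + 3 := by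
      have h2 : (2 ^ s + 2 * 2 ^ e + (2 ^ (e - h) - 1)) / 2 ^ (e - h) < 2 * 2 ^ h + 2 := by
        rw [Nat.div_lt_iff_lt_mul h0]
        have h7 : (2 * 2 ^ h + 2) * 2 ^ (e - h) = 2 * (2 ^ h * 2 ^ (e - h)) + 2 * 2 ^ (e - h) := by ring
        omega
      omega
    have h2 : A1 * A2 ≤ ((Fintype.card ι + 4) * 2 ^ (h + 3)) ^ 2 := by
      have h5 : 32 * 2 ^ h ≤ (Fintype.card ι + 4) * 2 ^ (h + 3) := by
        have h6 : 2 ^ (h + 3) = 8 * 2 ^ h := by ring
        rw [h6]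
        nlinarith [Nat.zero_le (Fintype.card ι * 2 ^ h)]
      have h6 : 1 ≤ 2 ^ h := Nat.one_le_two_pow
      calc A1 * A2 ≤ (8 * 2 ^ h + 2) * (2 * 2 ^ h + 3) := Nat.mul_le_mul a1 a2
        _ ≤ (32 * 2 ^ h) ^ 2 := by nlinarith
        _ ≤ _ := Nat.pow_le_pow_left h5 2
    exact_mod_cast h1.trans h2
  · intro x' b' hx hb
    rw [qh_even, qh_even, Prod.ext_iff] at hx
    obtain ⟨hx1, hx2⟩ := hx
    simp only [← he] at hx1 hx2
    obtain ⟨r, hr, f1⟩ := flr_add_rem s b'.2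
    rw [hb] at f1
    obtain ⟨r', hr', f2⟩ := flr_add_rem e x'.1.2
    rw [hx1] at f2
    have hr3 : x'.2.val % 2 ^ e < 2 ^ e := Nat.mod_lt _ (Nat.two_pow_pos e)
    obtain ⟨j1, hj1, h5⟩ := cover s hsk β' (2 ^ e - r') (2 ^ e) (Nat.sub_le _ _)
    obtain ⟨j2, hj2, h6⟩ := cover (e - h) hek β ((2 ^ s - r) + (2 ^ e - r') + (2 ^ e - x'.2.val % 2 ^ e))
      (2 ^ s + 2 * 2 ^ e) (by omega)
    rw [Finset.mem_image]
    refine ⟨(j1, j2), Finset.mem_product.2 ⟨hj1, hj2⟩, ?_⟩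
    have h7 : β' - ((2 ^ e - r' : ℕ) : V k) = x'.1.2 := by
      have h8 : ((2 ^ e : ℕ) : V k) = ((2 ^ e - r' : ℕ) : V k) + (r' : V k) := by
        rw [← Nat.cast_add]
        congr 1
        omega
      rw [hβ', h8]
      linear_combination -f2
    have h9 : β - (((2 ^ s - r) + (2 ^ e - r') + (2 ^ e - x'.2.val % 2 ^ e) : ℕ) : V k) =
        ∑ j, (Function.update (Function.update (vm w0) v x'.1) u b' j).2 + σ + ((x'.2.val % 2 ^ e : ℕ) : V k) := by
      rw [sum_upd2 σ huv]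
      have h8 : ((2 ^ s + 2 * 2 ^ e : ℕ) : V k) = ((2 ^ s - r : ℕ) : V k) + (r : V k) + ((2 ^ e - r' : ℕ) : V k) +
          (r' : V k) + ((2 ^ e - x'.2.val % 2 ^ e : ℕ) : V k) + ((x'.2.val % 2 ^ e : ℕ) : V k) := by
        rw [← Nat.cast_add, ← Nat.cast_add, ← Nat.cast_add, ← Nat.cast_add, ← Nat.cast_add]
        congr 1
        omega
      rw [hβ, h8, Nat.cast_add, Nat.cast_add]
      linear_combination -f1 - f2
    rw [h7] at h5
    rw [h9] at h6
    refine Prod.ext h5.symm (Prod.ext rfl (Prod.ext h6.symm ?_))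
    exact hx2.symm

/-- the hidden point is uniform -/
theorem law_b (i v : ι) (w0 : Sq k N ι Θ (Ξ × Q)) (ξ : Ξ) (y : ι → Q × V k) (x : XX k N Q) :
    (PM k N ι Θ Ξ Q).Pr (fun w => GM.th w = GM.th w0 ∧ xm i w = ξ ∧ (∀ j, j ≠ v → vm w j = y j) ∧
      ((vm w v, w.2.2) : XX k N Q) = x) =
      (PM k N ι Θ Ξ Q).Pr (fun w => GM.th w = GM.th w0) /
        (Fintype.card Ξ * (Fintype.card (Q × V k) : ℝ) ^ (Fintype.card ι - 1) * (Fintype.card (XX k N Q) : ℝ)) := by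
  classical
  obtain ⟨σ, -⟩ : ∃ σ : V k, σ = 0 := ⟨0, rfl⟩
  set y' : ι → Q × V k := Function.update y v x.1 with hy'
  have h1 : (PM k N ι Θ Ξ Q).Pr (fun w => GM.th w = GM.th w0 ∧ xm i w = ξ ∧ (∀ j, j ≠ v → vm w j = y j) ∧
      ((vm w v, w.2.2) : XX k N Q) = x) =
      (PM k N ι Θ Ξ Q).Pr (fun w => xm i w = ξ ∧ vm w = y' ∧
        gv σ 0 0 w = (GM.th w0, (∑ j, (y' j).2 + σ, x.2.val))) := by
    refine FP.Pr_congr _ fun w _ => ?_
    have h2 : gv σ 0 0 w = (GM.th w, (ctr σ w, nz w)) := by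
      refine Prod.ext rfl (Prod.ext ?_ ?_)
      · show flr (0 - 0) (pos 0 (ctr σ w) (nz w)) = ctr σ w
        rw [pos_zero]
        exact flr_zero _
      · show nz w / 2 ^ 0 = nz w
        rw [pow_zero, Nat.div_one]
    have h3 : vm w = y' ↔ (∀ j, j ≠ v → vm w j = y j) ∧ vm w v = x.1 := by
      rw [hy', Function.eq_update_iff, and_comm]
    have h4 : vm w = y' → ctr σ w = ∑ j, (y' j).2 + σ := by
      intro h5
      rw [← h5]
      rfl
    have h5 : w.2.2 = x.2 ↔ nz w = x.2.val := Fin.ext_iff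
    rw [h2, Prod.ext_iff (x := ((vm w v, w.2.2) : XX k N Q)), Prod.ext_iff (x := (GM.th w, (ctr σ w, nz w))),
      Prod.ext_iff (x := (GM.th w, (ctr σ w, nz w)).2)]
    constructor
    · rintro ⟨a1, a2, a3, a4, a5⟩
      exact ⟨a2, h3.2 ⟨a3, a4⟩, a1, h4 (h3.2 ⟨a3, a4⟩), h5.1 a5⟩
    · rintro ⟨a1, a2, a3, -, a5⟩
      exact ⟨a3, a1, (h3.1 a2).1, (h3.1 a2).2, h5.2 a5⟩
  have h6 : Wz N 0 0 (∑ j, (y' j).2 + σ, x.2.val) (∑ j, (y' j).2 + σ) = ((2 : ℝ) ^ N)⁻¹ := by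
    unfold Wz
    have h7 : ∀ w ∈ range (2 ^ N), ind (G 0 0 (∑ j, (y' j).2 + σ) w = (∑ j, (y' j).2 + σ, x.2.val)) =
        ind (w = x.2.val) := by
      intro w _
      congr 1
      apply propext
      rw [Prod.ext_iff]
      show (flr (0 - 0) (pos 0 (∑ j, (y' j).2 + σ) w) = ∑ j, (y' j).2 + σ ∧ w / 2 ^ 0 = x.2.val) ↔ _
      rw [pos_zero, Nat.sub_zero, flr_zero, pow_zero, Nat.div_one]
      tauto
    rw [Finset.sum_congr rfl h7, Finset.sum_eq_single x.2.val]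
    · rw [ind_of rfl, mul_one]
    · intro b _ hb
      exact ind_not hb
    · intro h8
      exact absurd (Finset.mem_range.2 x.2.isLt) h8
  rw [h1, pmfm σ i 0 0 (GM.th w0, (∑ j, (y' j).2 + σ, x.2.val)) ξ y']
  show kapm k ι Θ Ξ Q * Wz N 0 0 (∑ j, (y' j).2 + σ, x.2.val) (∑ j, (y' j).2 + σ) = _
  rw [h6, Pr_thm]
  have hc : (Fintype.card (XX k N Q) : ℝ) = Fintype.card (Q × V k) * 2 ^ N := by
    rw [Fintype.card_prod, Fintype.card_fin]
    push_cast
    rfl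
  have hq : (Fintype.card (Q × V k) : ℝ) = Fintype.card Q * 2 ^ k := by
    rw [Fintype.card_prod, card_V]
    push_cast
    rfl
  rw [hc]
  unfold kapm
  rw [← hq]
  have hm : (Fintype.card (Q × V k) : ℝ) ^ Fintype.card ι =
      (Fintype.card (Q × V k) : ℝ) ^ (Fintype.card ι - 1) * Fintype.card (Q × V k) := by
    rw [← pow_succ]
    congr 1
    have := Fintype.card_pos_iff.2 ⟨i⟩
    omega
  rw [hm]
  have c1 := cQ (Q := Ξ)
  have c2 := cQ (Q := Θ)
  have c3 := cPt_ne (k := k) (Q := Q)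
  field_simp

theorem half_b (hN : N ≤ k) (h t : ℕ) (ht : t < N) :
    (∀ b b' : Q × V k, flr (ex N (t + 1) - (h + 3)) b'.2 = flr (ex N (t + 1) - (h + 3)) b.2 ↔
      flr (ex N t - (h + 3)) b'.2 = flr (ex N t - (h + 3)) b.2) ∨
    ∀ b : Q × V k, 2 * ∑ b' : Q × V k, ind (flr (ex N (t + 1) - (h + 3)) b'.2 = flr (ex N (t + 1) - (h + 3)) b.2) =
      ∑ b' : Q × V k, ind (flr (ex N t - (h + 3)) b'.2 = flr (ex N t - (h + 3)) b.2) := by
  have he := ex_succ ht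
  have hk := exk hN t
  by_cases h1 : ex N t ≤ h + 3
  · left
    intro b b'
    rw [show ex N (t + 1) - (h + 3) = 0 by omega, show ex N t - (h + 3) = 0 by omega]
  · right
    intro b
    rw [sumQ (fun c : V k => ind (flr (ex N (t + 1) - (h + 3)) c = flr (ex N (t + 1) - (h + 3)) b.2)),
      sumQ (fun c : V k => ind (flr (ex N t - (h + 3)) c = flr (ex N t - (h + 3)) b.2)),
      card_cell' (by omega) _ (flr_flr le_rfl _), card_cell' (by omega) _ (flr_flr le_rfl _),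
      show ex N t - (h + 3) = ex N (t + 1) - (h + 3) + 1 by omega, pow_succ]
    ring

end HB

/-! ### the instances -/

/-- **the geometry of the hidden vertex `v` in the binary model** -/
def hgBin {k N : ℕ} {ι : Type} [Fintype ι] [DecidableEq ι] (Θ Ξ Q : Type) [Fintype Θ] [Nonempty Θ] [Fintype Ξ]
    [Nonempty Ξ] [Fintype Q] [Nonempty Q] (σ : V k) (i : ι) (hN : N ≤ k) (h : ℕ) (v : ι) :
    HG (binSys Θ Ξ Q σ i hN h) v where
  X := HB.XX k N Q
  fX := inferInstance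
  Θ := Θ
  γ := V k × ℕ
  th := GM.th
  hx w := (vm w v, w.2.2)
  hv x := x.1
  hv_eq _ := rfl
  th_gm t w w' h' := (Prod.ext_iff.1 (show gv σ h (ex N t) w = gv σ h (ex N t) w' from h')).1
  gf t θ y x := HB.gh σ N h t θ y x
  gf_eq _ _ := rfl
  law w0 ξ y x := HB.law_b i v w0 ξ y x
  qa := HB.qh N
  ra τ x x' hx := HB.qh_ra τ x x' hx
  dg := HB.dh N
  dg_val τ x := HB.dh_val τ x
  dg_cell τ hτ x x' := HB.dh_cell τ hτ x x'
  dg_bal τ hτ x := HB.dh_bal hN τ hτ x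
  half t ht := HB.half_b hN h t ht
  Kg := (((Fintype.card ι + 4) * 2 ^ (h + 3) : ℕ) : ℝ) ^ 2
  Kg1 := by
    have h1 := HB.K32 (Fintype.card ι) h
    have h2 : 1 ≤ ((Fintype.card ι + 4) * 2 ^ (h + 3)) ^ 2 := by nlinarith
    exact_mod_cast h2
  Kg_le := le_rfl
  near t _ w0 x' := HB.near_b σ hN h t v w0 x'
  opt t _ w := HB.opt_b σ hN h t v w
  cmpr t _ w0 w9 h9 x' := HB.cmpr_b σ hN h t v w0 w9 h9 x'
  fb t _ u _ w0 w9 := HB.fb_b σ hN h t v u w0 w9
  opn t _ u _ w0 := HB.opn_b σ hN h t v u w0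
  box t _ u hu w0 := HB.box_b σ hN h t v u hu w0

section add

variable {ι Om Ξ Pt V Γ κ : Type} [Fintype ι] [DecidableEq ι] [Fintype Om] [Fintype Ξ] [Fintype Pt]
  [Fintype V]

/-- **the geometry of the hidden vertex with additional coins** -/
def hgAdd {S : Sys ι Om Ξ Pt V Γ κ} {v : ι} (H : HG S v) (Ξ2 : Type) [Fintype Ξ2] [Nonempty Ξ2] :
    HG (addCoins S Ξ2) v where
  X := H.X
  fX := H.fX
  Θ := H.Θ
  γ := H.γ
  th w := H.th w.1
  hx w := H.hx w.1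
  hv := H.hv
  hv_eq w := H.hv_eq w.1
  th_gm t w w' h := H.th_gm t w.1 w'.1 h
  gf := H.gf
  gf_eq t w := H.gf_eq t w.1
  law w0 ξ y x := by
    have h1 := coinFP_Pr_pair S.P Ξ2 S.xi ξ (fun w => H.th w = H.th w0.1 ∧ (∀ j, j ≠ v → S.x w j = y j) ∧ H.hx w = x)
    have h2 := coinFP_Pr_fst S.P Ξ2 (fun w => H.th w = H.th w0.1)
    have h3 := H.law w0.1 ξ.1 y x
    have h4 : (coinFP S.P Ξ2).Pr (fun w => H.th w.1 = H.th w0.1 ∧ (S.xi w.1, w.2) = ξ ∧
        (∀ j, j ≠ v → S.x w.1 j = y j) ∧ H.hx w.1 = x) =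
        (coinFP S.P Ξ2).Pr (fun w => (S.xi w.1, w.2) = ξ ∧ H.th w.1 = H.th w0.1 ∧
          (∀ j, j ≠ v → S.x w.1 j = y j) ∧ H.hx w.1 = x) := by
      refine FP.Pr_congr _ fun w _ => ?_
      tauto
    have h5 : S.P.Pr (fun w => S.xi w = ξ.1 ∧ H.th w = H.th w0.1 ∧ (∀ j, j ≠ v → S.x w j = y j) ∧ H.hx w = x) =
        S.P.Pr (fun w => H.th w = H.th w0.1 ∧ S.xi w = ξ.1 ∧ (∀ j, j ≠ v → S.x w j = y j) ∧ H.hx w = x) := by
      refine FP.Pr_congr _ fun w _ => ?_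
      tauto
    show (coinFP S.P Ξ2).Pr (fun w => H.th w.1 = H.th w0.1 ∧ (S.xi w.1, w.2) = ξ ∧
        (∀ j, j ≠ v → S.x w.1 j = y j) ∧ H.hx w.1 = x) =
      (coinFP S.P Ξ2).Pr (fun w => H.th w.1 = H.th w0.1) / _
    rw [h4, h1, h5, h3, h2, Fintype.card_prod]
    push_cast
    rw [div_div]
    congr 1
    ring
  qa := H.qa
  ra := H.ra
  dg := H.dg
  dg_val := H.dg_val
  dg_cell := H.dg_cell
  dg_bal := H.dg_bal
  half := H.half
  Kg := H.Kg
  Kg1 := H.Kg1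
  Kg_le := H.Kg_le
  near t ht w0 x' := by
    refine le_trans (Finset.sum_le_sum fun x _ => ind_mono ?_) (H.near t ht w0.1 x')
    rintro ⟨w1, w2, h1, h2, h3, h4, h5, h6⟩
    exact ⟨w1.1, w2.1, h1, h2, h3, h4, h5, h6⟩
  opt t ht w := by
    obtain ⟨s, h1, h2⟩ := H.opt t ht w.1
    exact ⟨s, h1, fun w' h3 h4 => h2 w'.1 h3 h4⟩
  cmpr t ht w0 w9 h9 x' := H.cmpr t ht w0.1 w9.1 h9 x'
  fb t ht u hu w0 w9 := H.fb t ht u hu w0.1 w9.1
  opn t ht u hu w0 := H.opn t ht u hu w0.1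
  box t ht u hu w0 := H.box t ht u hu w0.1

end add

end

end Pool.Agent.GMJR
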