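import Pool.Agent.GMN.StepEnd
import Pool.Agent.GMN.NamBin
import Pool.Agent.GMJR.HGbin

/-!
# GMJR/ClsG (helper13): the class of systems with the geometry of hidden vertices

* `hgCls ι j C0` = `smiCls ι j C0` and `HG S v` for every vertex `v`; `binCls_hg` : the binary models;
* `jrAt_hg`, **`ruleAt_hg`** : the rule of step C from `JR2At (hgCls ι (m - 1) C0) CJ`.
The names: GMN/NamRule.
-/

set_option autoImplicit false
set_option linter.unusedSectionVars false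

namespace Pool.Agent.GMJR

open Finset Pool.Agent.PWZ Pool.Agent.M3 Pool.Agent.M3.TS Pool.Agent.GM Pool.Agent.GMN Pool.Agent.M3.Bin

noncomputable section

/-- **the class of systems with the geometry of hidden vertices** -/
def hgCls (ι : Type) [Fintype ι] [DecidableEq ι] (j C0 : ℕ) : SysCls ι where
  G S X Y D := (smiCls ι j C0).G S X Y D ∧ ∀ v, Nonempty (HG S v)
  add S X Y D Ξ2 _ _ h := ⟨(smiCls ι j C0).add S X Y D Ξ2 h.1, fun v => (h.2 v).map fun H => hgAdd H Ξ2⟩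
  pow S X Y C D hX hXY hC h := ⟨(smiCls ι j C0).pow S X Y C D hX hXY hC h.1, h.2⟩
  mono S X Y C D hX hCD h := ⟨(smiCls ι j C0).mono S X Y C D hX hCD h.1, h.2⟩
  K_le S X Y D hX h := (smiCls ι j C0).K_le S X Y D hX h.1
  near_le S X Y D hX h := (smiCls ι j C0).near_le S X Y D hX h.1

section use

variable {ι Om Ξ Pt V Γ κ : Type} [Fintype ι] [DecidableEq ι] [Fintype Om] [Fintype Ξ] [Fintype Pt]
  [Fintype V] {j C0 : ℕ} {S : Sys ι Om Ξ Pt V Γ κ} {X Y : ℝ} {D : ℕ}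

theorem hgCls_smi (h : (hgCls ι j C0).G S X Y D) : CoinSMI S j C0 := smiCls_smi h.1

theorem hgCls_dbl (h : (hgCls ι j C0).G S X Y D) : S.Dbl 4 := smiCls_dbl h.1

theorem hgCls_hg (h : (hgCls ι j C0).G S X Y D) (v : ι) : Nonempty (HG S v) := h.2 v

end use

/-- the binary models are in the class -/
theorem binCls_hg {j1 C1 : ℕ} (H : ∀ j', 2 ≤ j' → j' ≤ j1 → SMIbin j' C1) (j C : ℕ) :
    BinCls (fun ι _ _ => hgCls ι j1 C1) j C := by
  intro ι Θ Ξ Q _ _ _ _ _ _ _ _ k N σ a hN h _ X Y _ _ _ hK hnear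
  exact ⟨smiCls_bin σ H a hN h hK hnear, fun v => ⟨hgBin Θ Ξ Q σ a hN h v⟩⟩

/-- the record lemma in the class from its part with at least two reference vertices -/
theorem jrAt_hg {ι : Type} [Fintype ι] [DecidableEq ι] {j C0 C : ℕ} (hC : 32 ≤ C) (h2 : JR2At (hgCls ι j C0) C) :
    JRAt (hgCls ι j C0) C := by
  intro Om Ξ Pt V Γ κ β _ _ _ _ _ S X Y q cf hX hXY hYX hq hq1 hcf hcf1 hG D n B M hB hn hBY hM hMY hL
  rcases Nat.lt_or_ge D.Rf.card 2 with hc | hc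
  · have hY : 2 ≤ Y := hX.trans hXY
    have hYY : Y ≤ Y ^ 2 := le_self_pow₀ (by linarith) (by norm_num)
    have hY4 : 4 ≤ Y ^ 2 := by nlinarith
    have hq' : 1 / Y ^ 2 ≤ q := (one_div_le_one_div_of_le (by linarith) (hXY.trans hYY)).trans hq
    have hcf' : 1 / Y ^ 2 ≤ cf := (one_div_le_one_div_of_le (by linarith) hYY).trans hcf
    obtain ⟨Ξ2, i1, i2, n', B', h, hn', hB'⟩ := jrs_le_one (M := M) (Y := Y ^ 2) (by linarith) (by omega)
      ((hgCls_dbl hG).mono hY4) ((hgCls ι j C0).K_le S X Y C hX hG |>.trans hYY) hB (hn.trans hYY)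
      (hBY.trans (Real.exp_le_exp.2 hYY)) hq' hcf'
    have hp : (Y ^ 2) ^ 16 ≤ Y ^ C := by
      rw [← pow_mul]
      exact pow_le_pow_right₀ (by linarith) hC
    exact ⟨Ξ2, i1, i2, n', B', h, hn'.trans hp, hB'.trans (Real.exp_le_exp.2 hp)⟩
  · exact h2 Om Ξ Pt V Γ κ β S X Y q cf hX hXY hYX hq hq1 hcf hcf1 hG D n B M hB hn hBY hM hMY hL hc

/-- a bigger constant of the record lemma -/
theorem JR2At_mono {ι : Type} [Fintype ι] [DecidableEq ι] {G : SysCls ι} {C C' : ℕ} (h : C ≤ C') (h2 : JR2At G C) :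
    JR2At G C' := by
  intro Om Ξ Pt V Γ κ β _ _ _ _ _ S X Y q cf hX hXY hYX hq hq1 hcf hcf1 hG D n B M hB hn hBY hM hMY hL hc
  have hY1 : 1 ≤ Y := by linarith
  obtain ⟨Ξ2, i1, i2, n', B', hr, hn', hB'⟩ := h2 Om Ξ Pt V Γ κ β S X Y q cf hX hXY hYX hq hq1 hcf hcf1
    (G.mono S X Y C C' hX h hG) D n B M hB hn hBY hM hMY hL hc
  have hp : Y ^ C ≤ Y ^ C' := pow_le_pow_right₀ hY1 h
  exact ⟨Ξ2, i1, i2, n', B', hr, hn'.trans hp, hB'.trans (Real.exp_le_exp.2 hp)⟩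

/-- **THE RULE OF STEP C FROM THE RECORD LEMMA** -/
theorem ruleAt_hg (m C0 CJ : ℕ) : ∃ C : ℕ, ∀ (ι : Type) [Fintype ι] [DecidableEq ι], Fintype.card ι = m →
    JR2At (hgCls ι (m - 1) C0) CJ → RuleAt (hgCls ι (m - 1) C0) C := by
  obtain ⟨C, hC⟩ := ruleAt_of m C0 (CJ + 32)
  exact ⟨C, fun ι _ _ hm hJ => hC ι (hgCls ι (m - 1) C0) hm (fun _ _ _ _ _ _ _ _ _ _ _ _ _ _ h => hgCls_smi h)
    (jrAt_hg (by omega) (JR2At_mono (by omega) hJ))⟩

end

end Pool.Agent.GMJR
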