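import Pool.Agent.GMJR.Det
import Pool.Agent.GMN.Cross
import Pool.Agent.GMN.Coin

/-!
# GMJR.Bridge: the machine `Mach` as a run of `Det`, levels, resampling of the coins of a set (helper97)

* `st_bridge`, `pick_bridge`, `crit_bridge`: micro moment `(i,l)`, `l ≤ N`  =  moment `i * (N + 1) + l`;
* `lvl g y` = smallest `k ≤ g` with `(1/2)^k ≤ y` (else `g + 1`);
* `mc J c c'` = coins `c'` on `J`, `c` outside; `resample`: `(c, c') ↦ mc J c c'` has the law of `c`;
  `coin_level`: probability that the coins of `J` have given levels;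
* `fail_end`: a critical moment of `s` is followed by a node with a critical moment of `s` at which (or one step later)
  a stretch ends, or which is the last one.
-/

set_option autoImplicit false
set_option linter.unusedSectionVars false
set_option linter.unusedVariables false

namespace Pool.Agent.GMJR

open Finset Pool.Agent.PWZ Pool.Agent.M3 Pool.Agent.GMN

noncomputable section

/-! ## the machine -/

section bridge

variable {R S : Type*} [Fintype R] [LinearOrder R]

/-- the transition of the moment `n` -/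
def trM (M : Mach R S) (N : ℕ) (n : ℕ) (p : WithTop R) (σ : S) : S :=
  if n % (N + 1) < N then Option.elim (show Option R from p) σ fun s => M.us (n / (N + 1)) s σ
  else M.ev (n / (N + 1) + 1) σ

/-- the status -/
def onM (M : Mach R S) (N : ℕ) (n : ℕ) (σ : S) (s : R) : Prop := M.on (n / (N + 1)) σ s

variable {M : Mach R S} {N : ℕ} {A : ℕ → R → Prop}

theorem div_ij {i l : ℕ} (hl : l ≤ N) : (i * (N + 1) + l) / (N + 1) = i := by
  rw [mul_comm, Nat.mul_add_div (Nat.succ_pos _), Nat.div_eq_of_lt (by omega), add_zero]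

theorem mod_ij {i l : ℕ} (hl : l ≤ N) : (i * (N + 1) + l) % (N + 1) = l := by
  rw [mul_comm, Nat.mul_add_mod, Nat.mod_eq_of_lt (by omega)]

theorem pk_eq_pick (i : ℕ) (A : R → Prop) (σ : S) : pk (M.on i) A σ = (M.pick i A σ : WithTop R) := by
  classical
  cases h : M.pick i A σ with
  | none =>
    have h1 := Mach.pick_none.1 h
    unfold pk
    show _ = (⊤ : WithTop R)
    rw [Finset.min_eq_top, Finset.filter_eq_empty_iff]
    exact fun s _ hs => h1 s hs.2 hs.1
  | some r =>
    obtain ⟨⟨h1, h2⟩, h3⟩ := Mach.pick_some.1 h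
    unfold pk
    show _ = ((r : R) : WithTop R)
    apply le_antisymm
    · exact Finset.min_le (Finset.mem_filter.2 ⟨mem_univ _, h2, h1⟩)
    · refine Finset.le_min fun s hs => ?_
      have := (Finset.mem_filter.1 hs).2
      exact WithTop.coe_le_coe.2 (h3 s this.2 this.1)

theorem st_bridge (M : Mach R S) (N : ℕ) (A : ℕ → R → Prop) (n : ℕ) :
    st (N + 1) (M.ev 0 M.z) (trM M N) (onM M N) A n = M.mic A N (n / (N + 1)) (n % (N + 1)) := by
  induction n with
  | zero => rw [Nat.zero_div, Nat.zero_mod]; rfl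
  | succ n ih =>
    show trM M N n (pk (onM M N n) (A (n / (N + 1))) (st (N + 1) (M.ev 0 M.z) (trM M N) (onM M N) A n))
      (st (N + 1) (M.ev 0 M.z) (trM M N) (onM M N) A n) = _
    rw [ih]
    have hon : onM M N n = M.on (n / (N + 1)) := rfl
    rw [hon, pk_eq_pick]
    have hlt : n % (N + 1) < N + 1 := Nat.mod_lt _ (Nat.succ_pos _)
    have hdm := Nat.div_add_mod n (N + 1)
    unfold trM
    by_cases hk : n % (N + 1) < N
    · rw [if_pos hk]
      have hn : n + 1 = n / (N + 1) * (N + 1) + (n % (N + 1) + 1) := by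
        have : (N + 1) * (n / (N + 1)) = n / (N + 1) * (N + 1) := mul_comm _ _
        omega
      have e1 : (n + 1) / (N + 1) = n / (N + 1) := by
        conv_lhs => rw [hn]
        exact div_ij (by omega)
      have e2 : (n + 1) % (N + 1) = n % (N + 1) + 1 := by
        conv_lhs => rw [hn]
        exact mod_ij (by omega)
      rw [e1, e2, M.mic_succ]
      unfold Mach.step
      cases M.pick (n / (N + 1)) (A (n / (N + 1))) (M.mic A N (n / (N + 1)) (n % (N + 1))) with
      | none => rfl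
      | some r => rfl
    · rw [if_neg hk]
      have hN : n % (N + 1) = N := by omega
      have hn : n + 1 = (n / (N + 1) + 1) * (N + 1) + 0 := by
        have h1 : (N + 1) * (n / (N + 1)) = n / (N + 1) * (N + 1) := mul_comm _ _
        have h2 : (n / (N + 1) + 1) * (N + 1) = n / (N + 1) * (N + 1) + (N + 1) := by ring
        omega
      have e1 : (n + 1) / (N + 1) = n / (N + 1) + 1 := by
        conv_lhs => rw [hn]
        exact div_ij (Nat.zero_le _)
      have e2 : (n + 1) % (N + 1) = 0 := by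
        conv_lhs => rw [hn]
        exact mod_ij (Nat.zero_le _)
      rw [e1, e2, M.mic_zero_succ, hN]

theorem pick_bridge (M : Mach R S) (N : ℕ) (A : ℕ → R → Prop) (n : ℕ) :
    pick (N + 1) (M.ev 0 M.z) (trM M N) (onM M N) A n = (M.pk A N (n / (N + 1)) (n % (N + 1)) : WithTop R) := by
  unfold pick
  rw [st_bridge]
  have hon : onM M N n = M.on (n / (N + 1)) := rfl
  rw [hon, pk_eq_pick]
  rfl

theorem lt_pk_iff {o : Option R} {s : R} : (s : WithTop R) < (o : WithTop R) ↔ ∀ r, o = some r → s < r := by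
  cases o with
  | none =>
    constructor
    · intro _ r hr; exact absurd hr (by simp)
    · intro _; exact WithTop.coe_lt_top s
  | some r =>
    constructor
    · intro h r' hr'
      rw [← Option.some.inj hr']
      exact WithTop.coe_lt_coe.1 h
    · intro h
      exact WithTop.coe_lt_coe.2 (h r rfl)

/-- a critical moment of `s` -/
theorem crit_bridge {s : R} {i l : ℕ} (hl : l ≤ N) : M.Crit A N s i l ↔
    (onM M N (i * (N + 1) + l) (st (N + 1) (M.ev 0 M.z) (trM M N) (onM M N) A (i * (N + 1) + l)) s ∧ ¬ A i s ∧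
      (s : WithTop R) < pick (N + 1) (M.ev 0 M.z) (trM M N) (onM M N) A (i * (N + 1) + l)) := by
  rw [st_bridge, pick_bridge, lt_pk_iff, div_ij hl, mod_ij hl]
  unfold onM Mach.Crit
  rw [div_ij hl]

end bridge

/-! ## stretches of a machine -/

section stretch

variable {Om R S : Type*} [Fintype R] [LinearOrder R]

/-- `s` is ON and not allowed at the end of time `i` -/
def GeA (M : Om → Mach R S) (N : ℕ) (A : ℕ → Om → R → Prop) (s : R) (i : ℕ) (w : Om) : Prop :=
  (M w).oa (fun j => A j w) N s i N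

/-- a stretch of `s` ends at time `t` -/
def EndA (M : Om → Mach R S) (N : ℕ) (A : ℕ → Om → R → Prop) (s : R) (t : ℕ) (w : Om) : Prop :=
  ¬ GeA M N A s t w ∧ ((∃ j, j + 1 = t ∧ GeA M N A s j w) ∨ ∃ l ≤ N, (M w).oa (fun j => A j w) N s t l)

/-- number of uses -/
def nUseA (M : Om → Mach R S) (N T : ℕ) (A : ℕ → Om → R → Prop) (w : Om) : ℝ :=
  ∑ i ∈ range (T + 1), ∑ l ∈ range N, ind ((M w).pk (fun j => A j w) N i l ≠ none)

variable {M : Om → Mach R S} {N T : ℕ} {A : ℕ → Om → R → Prop}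

theorem fail_end {w : Om} (hterm : ∀ i ≤ T, (M w).pk (fun j => A j w) N i N = none) {s : R} {i l : ℕ} (hi : i ≤ T)
    (hl : l ≤ N) (hc : (M w).Crit (fun j => A j w) N s i l) :
    ∃ t, i ≤ t ∧ t ≤ T ∧ (∃ l ≤ N, (M w).Crit (fun j => A j w) N s t l) ∧
      (EndA M N A s t w ∨ (t < T ∧ EndA M N A s (t + 1) w) ∨ t = T) := by
  classical
  by_cases h1 : GeA M N A s i w
  · by_cases h2 : ∃ t, i ≤ t ∧ t ≤ T ∧ ¬ GeA M N A s t w
    · obtain ⟨t, ht1, hmin⟩ : ∃ t, (i ≤ t ∧ t ≤ T ∧ ¬ GeA M N A s t w) ∧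
          ∀ j < t, ¬ (i ≤ j ∧ j ≤ T ∧ ¬ GeA M N A s j w) :=
        ⟨Nat.find h2, Nat.find_spec h2, fun j hj => Nat.find_min h2 hj⟩
      have hit : i < t := by
        rcases Nat.lt_or_ge i t with h | h
        · exact h
        · exfalso
          have : t = i := le_antisymm h ht1.1
          rw [this] at ht1
          exact ht1.2.2 h1
      obtain ⟨u, hu⟩ : ∃ u, t = u + 1 := ⟨t - 1, by omega⟩
      have hs1 : GeA M N A s u w := by
        by_contra hn
        exact hmin u (by omega) ⟨by omega, by omega, hn⟩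
      refine ⟨u, by omega, by omega, ⟨N, le_rfl, Mach.crit_of_idle hs1 (hterm u (by omega))⟩, Or.inr (Or.inl ⟨by omega, ?_⟩)⟩
      rw [← hu]
      exact ⟨ht1.2.2, Or.inl ⟨u, hu.symm, hs1⟩⟩
    · have hT : GeA M N A s T w := by
        by_contra hn
        exact h2 ⟨T, hi, le_rfl, hn⟩
      exact ⟨T, hi, le_rfl, ⟨N, le_rfl, Mach.crit_of_idle hT (hterm T le_rfl)⟩, Or.inr (Or.inr rfl)⟩
  · exact ⟨i, le_rfl, hi, ⟨l, hl, hc⟩, Or.inl ⟨h1, Or.inr ⟨l, hl, hc.oa⟩⟩⟩

end stretch

/-! ## levels -/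

theorem lvl_ex (g : ℕ) (y : ℝ) : ∃ k : ℕ, k = g + 1 ∨ (1 / 2 : ℝ) ^ k ≤ y := ⟨g + 1, Or.inl rfl⟩

open Classical in
/-- the level of a number -/
def lvl (g : ℕ) (y : ℝ) : ℕ := Nat.find (lvl_ex g y)

theorem lvl_le_of {g k : ℕ} {y : ℝ} (h : (1 / 2 : ℝ) ^ k ≤ y) : lvl g y ≤ k := by
  classical
  exact Nat.find_min' (lvl_ex g y) (Or.inr h)

theorem lvl_le (g : ℕ) (y : ℝ) : lvl g y ≤ g + 1 := by
  classical
  exact Nat.find_min' (lvl_ex g y) (Or.inl rfl)

theorem lvl_spec {g : ℕ} {y : ℝ} (h : lvl g y ≤ g) : (1 / 2 : ℝ) ^ (lvl g y) ≤ y := by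
  classical
  have h1 : lvl g y = g + 1 ∨ (1 / 2 : ℝ) ^ (lvl g y) ≤ y := Nat.find_spec (lvl_ex g y)
  rcases h1 with h1 | h1
  · omega
  · exact h1

theorem lvl_le_iff {g k : ℕ} (hk : k ≤ g) {y : ℝ} : lvl g y ≤ k ↔ (1 / 2 : ℝ) ^ k ≤ y := by
  constructor
  · intro h
    exact (pow_le_pow_of_le_one (by norm_num) (by norm_num) h).trans (lvl_spec (h.trans hk))
  · exact lvl_le_of

theorem lvl_mono {g : ℕ} {y y' : ℝ} (h : y ≤ y') : lvl g y' ≤ lvl g y := by
  rcases Nat.lt_or_ge g (lvl g y) with h1 | h1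
  · have := lvl_le g y'
    omega
  · exact lvl_le_of ((lvl_spec h1).trans h)

/-- upper bound of the number from the level -/
theorem lt_of_lvl {g : ℕ} {y : ℝ} (h1 : 1 ≤ lvl g y) : y < 4 * (1 / 2 : ℝ) ^ (lvl g y + 1) := by
  by_contra hcon
  have e : (4 : ℝ) * (1 / 2) ^ (lvl g y + 1) = (1 / 2) ^ (lvl g y - 1) := by
    obtain ⟨l, hl⟩ : ∃ l, lvl g y = l + 1 := ⟨lvl g y - 1, by omega⟩
    rw [hl, Nat.add_sub_cancel, pow_succ, pow_succ]; ring
  rw [e, not_lt] at hcon
  have := lvl_le_of (g := g) hcon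
  omega

/-! ## coins -/

section coin

variable {Idx : Type*} [Fintype Idx] [DecidableEq Idx]

/-- product functions of product coins -/
theorem piFP_prod {β : Type*} [Fintype β] (q : Idx → FP β) (F : Idx → β → ℝ) :
    (piFP q).E (fun c => ∏ x, F x (c x)) = ∏ x, (q x).E (F x) := by
  classical
  have h := (Finset.prod_univ_sum (fun _ : Idx => (Finset.univ : Finset β)) (fun x b => (q x).p b * F x b)).symm
  rw [Fintype.piFinset_univ] at h
  have e : (piFP q).E (fun c => ∏ x, F x (c x)) = ∑ c : Idx → β, ∏ x, ((q x).p (c x) * F x (c x)) := by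
    unfold FP.E
    refine Finset.sum_congr rfl fun c _ => ?_
    rw [Finset.prod_mul_distrib]
    rfl
  rw [e, h]
  rfl

/-- coins `c'` on `J`, `c` outside -/
def mc {β : Type*} (J : Finset Idx) (c c' : Idx → β) (x : Idx) : β := if x ∈ J then c' x else c x

/-- the exchange of the coins of `J` -/
def exch {β : Type*} (J : Finset Idx) : (Idx → β) × (Idx → β) ≃ (Idx → β) × (Idx → β) where
  toFun p := (mc J p.1 p.2, mc J p.2 p.1)
  invFun p := (mc J p.1 p.2, mc J p.2 p.1)
  left_inv p := by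
    refine Prod.ext (funext fun x => ?_) (funext fun x => ?_)
    · show mc J (mc J p.1 p.2) (mc J p.2 p.1) x = p.1 x
      unfold mc
      by_cases h : x ∈ J
      · rw [if_pos h, if_pos h]
      · rw [if_neg h, if_neg h]
    · show mc J (mc J p.2 p.1) (mc J p.1 p.2) x = p.2 x
      unfold mc
      by_cases h : x ∈ J
      · rw [if_pos h, if_pos h]
      · rw [if_neg h, if_neg h]
  right_inv p := by
    refine Prod.ext (funext fun x => ?_) (funext fun x => ?_)
    · show mc J (mc J p.1 p.2) (mc J p.2 p.1) x = p.1 x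
      unfold mc
      by_cases h : x ∈ J
      · rw [if_pos h, if_pos h]
      · rw [if_neg h, if_neg h]
    · show mc J (mc J p.2 p.1) (mc J p.1 p.2) x = p.2 x
      unfold mc
      by_cases h : x ∈ J
      · rw [if_pos h, if_pos h]
      · rw [if_neg h, if_neg h]

/-- **resampling** -/
theorem resample {β : Type*} [Fintype β] (q : Idx → FP β) (J : Finset Idx) (F : (Idx → β) → ℝ) :
    (piFP q).E (fun c => (piFP q).E fun c' => F (mc J c c')) = (piFP q).E F := by
  classical
  have e1 : (piFP q).E (fun c => (piFP q).E fun c' => F (mc J c c')) =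
      ∑ p : (Idx → β) × (Idx → β), (piFP q).p p.1 * (piFP q).p p.2 * F (mc J p.1 p.2) := by
    unfold FP.E
    rw [Fintype.sum_prod_type]
    refine Finset.sum_congr rfl fun c _ => ?_
    rw [Finset.mul_sum]
    exact Finset.sum_congr rfl fun c' _ => by ring
  have e2 : ∑ p : (Idx → β) × (Idx → β), (piFP q).p p.1 * (piFP q).p p.2 * F p.1 = (piFP q).E F := by
    rw [Fintype.sum_prod_type]
    unfold FP.E
    refine Finset.sum_congr rfl fun c _ => ?_
    have e3 : ∑ c' : Idx → β, (piFP q).p c * (piFP q).p c' * F c =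
        (piFP q).p c * F c * ∑ c' : Idx → β, (piFP q).p c' := by
      rw [Finset.mul_sum]
      exact Finset.sum_congr rfl fun c' _ => by ring
    show ∑ c' : Idx → β, (piFP q).p c * (piFP q).p c' * F c = _
    rw [e3, (piFP q).tot, mul_one]
  have e4 := (exch (β := β) J).sum_comp fun p : (Idx → β) × (Idx → β) => (piFP q).p p.1 * (piFP q).p p.2 * F p.1
  rw [e1, ← e2, ← e4]
  refine Finset.sum_congr rfl fun p _ => ?_
  show (piFP q).p p.1 * (piFP q).p p.2 * F (mc J p.1 p.2) =
    (piFP q).p (mc J p.1 p.2) * (piFP q).p (mc J p.2 p.1) * F (mc J p.1 p.2)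
  congr 1
  show (∏ x, (q x).p (p.1 x)) * (∏ x, (q x).p (p.2 x)) =
    (∏ x, (q x).p (mc J p.1 p.2 x)) * ∏ x, (q x).p (mc J p.2 p.1 x)
  rw [← Finset.prod_mul_distrib, ← Finset.prod_mul_distrib]
  refine Finset.prod_congr rfl fun x _ => ?_
  unfold mc
  by_cases h : x ∈ J
  · rw [if_pos h, if_pos h]; ring
  · rw [if_neg h, if_neg h]

/-- the coins of `J` have the levels `a` -/
theorem coin_level (g : ℕ) (J : Finset Idx) (a : Idx → ℕ) (ha : ∀ x ∈ J, a x ≤ g) :
    ∏ x ∈ J, (1 / 2 : ℝ) ^ (a x + 1) ≤ (coins Idx g).E fun c => ind (∀ x ∈ J, (c x).1 = a x) := by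
  classical
  have e1 : ∀ c : Idx → Fin (g + 1), ind (∀ x ∈ J, (c x).1 = a x) =
      ∏ x, (if x ∈ J then ind ((c x).1 = a x) else 1) := by
    intro c
    by_cases h : ∀ x ∈ J, (c x).1 = a x
    · rw [ind_of h]
      symm
      refine Finset.prod_eq_one fun x _ => ?_
      by_cases hx : x ∈ J
      · rw [if_pos hx, ind_of (h x hx)]
      · rw [if_neg hx]
    · rw [ind_not h]
      push Not at h
      obtain ⟨x, hx, hne⟩ := h
      symm
      refine Finset.prod_eq_zero (mem_univ x) ?_
      rw [if_pos hx, ind_not hne]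
  have e2 : (coins Idx g).E (fun c => ind (∀ x ∈ J, (c x).1 = a x)) =
      (coins Idx g).E fun c => ∏ x, (if x ∈ J then ind ((c x).1 = a x) else 1) :=
    FP.E_congr _ fun c _ => e1 c
  rw [e2]
  unfold coins
  rw [piFP_prod (fun _ : Idx => geo g) (fun x b => if x ∈ J then ind (b.1 = a x) else 1)]
  have e3 : ∏ x ∈ J, (1 / 2 : ℝ) ^ (a x + 1) = ∏ x, (if x ∈ J then (1 / 2 : ℝ) ^ (a x + 1) else 1) := by
    rw [Finset.prod_ite_mem, Finset.univ_inter]
  rw [e3]
  refine Finset.prod_le_prod (fun x _ => ?_) fun x _ => ?_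
  · split_ifs
    · positivity
    · exact zero_le_one
  · by_cases hx : x ∈ J
    · simp only [if_pos hx]
      exact geo_level (ha x hx)
    · simp only [if_neg hx]
      rw [FP.E_const]

end coin

end

end Pool.Agent.GMJR
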