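import Pool.Agent.GMJR.EntW
import Pool.Agent.GMJR.ClsO
import Pool.Agent.GMN.Names

/-!
# GMJR/EntN (helper25): (F4), entropies and number of changes of the names

`nk W` = names (`GMN.nm`) of the classes `cD U (lo W) (2 t)` in the filtration `FW W`.  Then `ctxN (nkO Q nk) W`,
`ctxE (nkO Q nk) W` and the classes of `sl W`, `lo W` are the same partitions of every node of `FW W`, so `ent_cD` bounds their
entropies (`entN_le`, `entE_le`), and `GMN.change_le` the number of changes (`nchN_le`).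
-/

set_option autoImplicit false
set_option linter.unusedSectionVars false

namespace Pool.Agent.GMJR

open Finset Pool.Agent.PWZ Pool.Agent.M3 Pool.Agent.GMN Pool.Agent.GM.Harm

noncomputable section

/-- list types are maximal -/
theorem mxW_top {K : Type} [Fintype K] [DecidableEq K] {W W' : WTy K} (h : W' < W) : ¬ mxW W' := by
  rintro ⟨u, rfl⟩
  have h1 : (univ.erase u : Finset K) ⊂ W.1 := h
  refine W.2 ?_
  obtain ⟨h2, h3⟩ := Finset.ssubset_iff_subset_ne.1 h1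
  have h4 : u ∈ W.1 := by
    by_contra h5
    exact h3 (Finset.Subset.antisymm h2 fun j hj => mem_erase.2 ⟨fun h => h5 (h ▸ hj), mem_univ j⟩)
  refine Finset.eq_univ_of_forall fun j => ?_
  by_cases hj : j = u
  · rw [hj]
    exact h4
  · exact h2 (mem_erase.2 ⟨hj, mem_univ j⟩)

/-- entropies of the steps from equivalent conditions -/
theorem hc_eqv {Om κ κ' φ : Type*} [Fintype Om] (P : FP Om) {X : Om → κ} {X' : Om → κ'} {Z : Om → φ} 
    (h : ∀ v w, Z v = Z w → X v = X w → X' v = X' w) : P.Hc X' Z ≤ P.Hc X Z :=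
  P.Hc_mono Z fun v w h1 => h v w (congrArg Prod.snd h1) (congrArg Prod.fst h1)

namespace WD

variable {Om Tp K β X γ δ Γ : Type} [Fintype Om] [Fintype K] [DecidableEq K] [Fintype β] [Fintype X]
  {D : WD Om Tp K β X γ δ Γ} {φ γ' υ : Type} [Fintype φ] {H : (w0 : Om) → HD K (D.XT w0) β γ' φ}
  {U : (w0 : Om) → Finset K → ℕ → D.XT w0 → (K → β) → υ}

variable (D U) in
/-- the name of the classes up to `W` -/
def nmW (W : Finset K) (t : ℕ) (w : Om) : Fin (D.n + 1) × Option Om :=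
  nm D.P (D.FW W) (fun t => D.cD U (lo W) (2 * t)) D.n t w

variable (hc : D.Cells H) (hs : ∀ w0, GM.Harm.Sys (H w0) (U w0))
include hc hs

theorem refW (W : Finset K) : Ref (D.FW W) (fun t => D.cD U (lo W) (2 * t)) := by
  intro t v w h1 h2
  have e1 : 2 * (t + 1) = 2 * t + 1 + 1 := by ring
  beta_reduce at h2 ⊢
  rw [e1] at h2
  rw [← D.FH_even, e1] at h1
  have h𝒟 : ∀ I ∈ lo W, I ⊆ W := fun I hI => (mem_lo.1 hI).2
  exact ref_cD hc hs h𝒟 (D.filt_FH W _ v w h1) (ref_cD hc hs h𝒟 h1 h2)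

/-- name = class -/
theorem nmW_iff {W : Finset K} {t : ℕ} (ht : t ≤ D.n) {v w : Om} (h : D.FW W t v = D.FW W t w) :
    D.nmW U W t v = D.nmW U W t w ↔ D.cD U (lo W) (2 * t) v = D.cD U (lo W) (2 * t) w :=
  ⟨fun h1 => cls_of_nm (P := D.P) (K := D.FW W) (cls := fun t => D.cD U (lo W) (2 * t)) (D.filt_FW W) ht h h1,
    fun h1 => nm_of_cls (P := D.P) (K := D.FW W) (cls := fun t => D.cD U (lo W) (2 * t)) (D.filt_FW W) (refW hc hs W) h h1⟩

section names

variable {Q : ℕ} {Nk : Type} [Inhabited Nk] {nk : WTy K → ℕ → Om → Nk}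
  (hnk : ∀ W : WTy K, ¬ mxW W → ∀ s ≤ D.n, ∀ t ≤ D.n, ∀ v w, nk W s v = nk W t w ↔ D.nmW U W.1 s v = D.nmW U W.1 t w)
include hnk

theorem ctxN_iff {W : WTy K} {t : ℕ} (ht : t ≤ D.n) {v w : Om} (h : D.FW W.1 t v = D.FW W.1 t w) :
    ctxN (nkO Q nk) W t v = ctxN (nkO Q nk) W t w ↔ D.cD U (sl W.1) (2 * t) v = D.cD U (sl W.1) (2 * t) w := by
  classical
  have key : ∀ W' : WTy K, W' < W → (nk W' t v = nk W' t w ↔ D.cD U (lo W'.1) (2 * t) v = D.cD U (lo W'.1) (2 * t) w) := by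
    intro W' hW'
    have h1 : D.FW W'.1 t v = D.FW W'.1 t w := FW_mono (D := D) (show W'.1 ⊆ W.1 from le_of_lt hW') t v w h
    rw [hnk W' (mxW_top hW') t ht t ht, nmW_iff hc hs ht h1]
  constructor
  · intro h1
    refine cD_eq.2 fun I hI => ?_
    have h2 : I ⊂ W.1 := (mem_sl.1 hI).2
    have hIu : I ≠ univ := fun h3 => by
      rw [h3] at h2
      exact h2.2 (subset_univ _)
    have h3 := congrFun h1 ⟨I, hIu⟩
    have h4 : (⟨I, hIu⟩ : WTy K) < W := h2
    unfold ctxN at h3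
    rw [if_pos h4, if_pos h4] at h3
    have h5 := (key ⟨I, hIu⟩ h4).1 (Sum.inl_injective h3)
    exact cD_eq.1 h5 I (mem_lo.2 ⟨(mem_sl.1 hI).1, subset_rfl⟩)
  · intro h1
    funext W'
    unfold ctxN
    by_cases hW' : W' < W
    · rw [if_pos hW', if_pos hW']
      refine congrArg Sum.inl ((key W' hW').2 (cD_mono (fun I hI => ?_) h1))
      exact mem_sl.2 ⟨(mem_lo.1 hI).1, lt_of_le_of_lt (mem_lo.1 hI).2 hW'⟩
    · rw [if_neg hW', if_neg hW']

theorem ctxE_iff {W : WTy K} (hW : ¬ mxW W) {t : ℕ} (ht : t ≤ D.n) {v w : Om} (h : D.FW W.1 t v = D.FW W.1 t w) :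
    ctxE (nkO Q nk) W t v = ctxE (nkO Q nk) W t w ↔ D.cD U (lo W.1) (2 * t) v = D.cD U (lo W.1) (2 * t) w := by
  classical
  have key : ∀ W' : WTy K, W' ≤ W → (nk W' t v = nk W' t w ↔ D.cD U (lo W'.1) (2 * t) v = D.cD U (lo W'.1) (2 * t) w) := by
    intro W' hW'
    have h1 : D.FW W'.1 t v = D.FW W'.1 t w := FW_mono (D := D) (show W'.1 ⊆ W.1 from hW') t v w h
    have h2 : ¬ mxW W' := by
      rcases eq_or_lt_of_le hW' with h3 | h3
      · rw [h3]
        exact hW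
      · exact mxW_top h3
    rw [hnk W' h2 t ht t ht, nmW_iff hc hs ht h1]
  constructor
  · intro h1
    have h3 := congrFun h1 W
    unfold ctxE at h3
    rw [if_pos le_rfl, if_pos le_rfl] at h3
    exact (key W le_rfl).1 (Sum.inl_injective h3)
  · intro h1
    funext W'
    unfold ctxE
    by_cases hW' : W' ≤ W
    · rw [if_pos hW', if_pos hW']
      refine congrArg Sum.inl ((key W' hW').2 (cD_mono (fun I hI => ?_) h1))
      exact mem_lo.2 ⟨(mem_lo.1 hI).1, (mem_lo.1 hI).2.trans hW'⟩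
    · rw [if_neg hW', if_neg hW']

variable {Bt : ℝ} (hB0 : 0 ≤ Bt) (hBt : ∀ w0, ∀ I ∈ JJ K, bitsJ (H w0) (U w0) (2 * D.n) I ≤ Bt)

omit hc hs hnk in
include hB0 hBt in
theorem sum_bits {𝒟 : Finset (Finset K)} (h𝒟 : ∀ I ∈ 𝒟, I ∈ JJ K) :
    ∑ I ∈ 𝒟, D.P.E (fun w => bitsJ (H (D.rep w)) (U (D.rep w)) (2 * D.n) I) ≤ 2 ^ Fintype.card K * Bt := by
  classical
  have h1 : ∀ I ∈ 𝒟, D.P.E (fun w => bitsJ (H (D.rep w)) (U (D.rep w)) (2 * D.n) I) ≤ Bt := fun I hI =>
    (D.P.E_mono fun w _ => hBt _ I (h𝒟 I hI)).trans (le_of_eq (D.P.E_const _))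
  refine (Finset.sum_le_sum h1).trans ?_
  rw [Finset.sum_const, nsmul_eq_mul]
  refine mul_le_mul_of_nonneg_right ?_ hB0
  have h2 : 𝒟.card ≤ Fintype.card (Finset K) := Finset.card_le_univ _
  rw [Fintype.card_finset] at h2
  exact_mod_cast h2

include hB0 hBt

/-- **(F4) entropies of the contexts** -/
theorem entN_le (W : WTy K) : D.P.Hc (ctxN (nkO Q nk) W 0) (D.FW W.1 0) +
    ∑ t ∈ range D.n, D.P.Hc (ctxN (nkO Q nk) W (t + 1)) (fun v => (D.FW W.1 (t + 1) v, ctxN (nkO Q nk) W t v)) ≤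
    2 ^ Fintype.card K * Bt := by
  classical
  have h1 := ent_cD hc hs (W := W.1) (𝒟 := sl W.1) (fun I hI => ⟨(mem_sl.1 hI).1, (mem_sl.1 hI).2.subset⟩)
    (fun I hI J hJ => mem_sl.2 ⟨(mem_sl.1 hJ).1, (mem_sl.1 hJ).2.trans (mem_sl.1 hI).2⟩) D.n
  refine le_trans (add_le_add ?_ (Finset.sum_le_sum fun t ht => ?_)) (h1.trans (sum_bits hB0 hBt fun I hI => (mem_sl.1 hI).1))
  · refine hc_eqv D.P fun v w h2 h3 => ?_
    exact (ctxN_iff hc hs hnk (Nat.zero_le _) h2).2 h3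
  · have ht' : t + 1 ≤ D.n := Finset.mem_range.1 ht
    refine le_trans (hc_eqv (X := D.cD U (sl W.1) (2 * (t + 1))) D.P fun v w h2 h3 => ?_) (D.P.Hc_anti _ fun v w h2 => ?_)
    · have h4 : D.FW W.1 (t + 1) v = D.FW W.1 (t + 1) w := congrArg Prod.fst h2
      exact (ctxN_iff hc hs hnk ht' h4).2 h3
    · have h4 : D.FW W.1 (t + 1) v = D.FW W.1 (t + 1) w := congrArg Prod.fst h2
      have h5 : ctxN (nkO Q nk) W t v = ctxN (nkO Q nk) W t w := congrArg Prod.snd h2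
      exact Prod.ext h4 ((ctxN_iff hc hs hnk (by omega) (D.filt_FW W.1 t v w h4)).1 h5)

theorem entE_le (W : WTy K) (hW : ¬ mxW W) : D.P.Hc (ctxE (nkO Q nk) W 0) (D.FW W.1 0) +
    ∑ t ∈ range D.n, D.P.Hc (ctxE (nkO Q nk) W (t + 1)) (fun v => (D.FW W.1 (t + 1) v, ctxE (nkO Q nk) W t v)) ≤
    2 ^ Fintype.card K * Bt := by
  classical
  have h1 := ent_cD hc hs (W := W.1) (𝒟 := lo W.1) (fun I hI => mem_lo.1 hI) (fun I hI => sl_lo hI) D.n
  refine le_trans (add_le_add ?_ (Finset.sum_le_sum fun t ht => ?_)) (h1.trans (sum_bits hB0 hBt fun I hI => (mem_lo.1 hI).1))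
  · refine hc_eqv D.P fun v w h2 h3 => ?_
    exact (ctxE_iff hc hs hnk hW (Nat.zero_le _) h2).2 h3
  · have ht' : t + 1 ≤ D.n := Finset.mem_range.1 ht
    refine le_trans (hc_eqv (X := D.cD U (lo W.1) (2 * (t + 1))) D.P fun v w h2 h3 => ?_) (D.P.Hc_anti _ fun v w h2 => ?_)
    · have h4 : D.FW W.1 (t + 1) v = D.FW W.1 (t + 1) w := congrArg Prod.fst h2
      exact (ctxE_iff hc hs hnk hW ht' h4).2 h3
    · have h4 : D.FW W.1 (t + 1) v = D.FW W.1 (t + 1) w := congrArg Prod.fst h2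
      have h5 : ctxE (nkO Q nk) W t v = ctxE (nkO Q nk) W t w := congrArg Prod.snd h2
      exact Prod.ext h4 ((ctxE_iff hc hs hnk hW (by omega) (D.filt_FW W.1 t v w h4)).1 h5)

/-- **(F4) number of changes of the keys** -/
theorem nchN_le : nCh D.P mxW (nkO Q nk) D.n ≤ 1 + Fintype.card (WTy K) * (2 ^ Fintype.card K * Bt / Real.log 2) := by
  classical
  have hl : 0 < Real.log 2 := Real.log_pos (by norm_num)
  have hE : 0 ≤ 2 ^ Fintype.card K * Bt / Real.log 2 := by positivity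
  unfold nCh
  refine add_le_add le_rfl ?_
  have h1 : ∀ W ∈ univ.filter (fun W : WTy K => ¬ mxW W),
      ∑ t ∈ range D.n, D.P.Pr (fun w => nkO Q nk W (t + 1) w ≠ nkO Q nk W t w) ≤ 2 ^ Fintype.card K * Bt / Real.log 2 := by
    intro W hW
    have hW' : ¬ mxW W := (mem_filter.1 hW).2
    rw [le_div_iff₀ hl, mul_comm]
    have h2 : ∑ t ∈ range D.n, D.P.Pr (fun w => nkO Q nk W (t + 1) w ≠ nkO Q nk W t w) =
        ∑ t ∈ range D.n, D.P.Pr (fun w => nm D.P (D.FW W.1) (fun t => D.cD U (lo W.1) (2 * t)) D.n (t + 1) w ≠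
          nm D.P (D.FW W.1) (fun t => D.cD U (lo W.1) (2 * t)) D.n t w) := by
      refine Finset.sum_congr rfl fun t ht => ?_
      have ht' : t + 1 ≤ D.n := Finset.mem_range.1 ht
      congr 1
      funext w
      have h3 := hnk W hW' (t + 1) ht' t (by omega) w w
      have h4 : nkO Q nk W (t + 1) w = nkO Q nk W t w ↔ nk W (t + 1) w = nk W t w :=
        ⟨fun h => Sum.inl_injective h, fun h => congrArg Sum.inl h⟩
      exact propext (not_congr (h4.trans h3))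
    rw [h2]
    refine (change_le (P := D.P) (K := D.FW W.1) (cls := fun t => D.cD U (lo W.1) (2 * t)) (refW hc hs W.1) D.n D.n).trans ?_
    have h5 : ∀ t, D.P.E (entp D.P (D.FW W.1) (fun t => D.cD U (lo W.1) (2 * t)) t) =
        D.P.Hc (D.cD U (lo W.1) (2 * (t + 1))) (fun w => (D.FW W.1 (t + 1) w, D.cD U (lo W.1) (2 * t) w)) := by
      intro t
      rw [Hc_log]
      refine D.P.E_congr fun w _ => ?_
      unfold entp
      congr 2
      unfold FP.m
      refine D.P.E_congr fun v _ => ?_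
      congr 1
      refine propext ⟨fun h => ?_, fun h => ?_⟩
      · simp only [Prod.mk.injEq] at h ⊢
        exact ⟨h.2, h.1, refW hc hs W.1 t v w h.1 h.2⟩
      · simp only [Prod.mk.injEq] at h ⊢
        exact ⟨h.2.1, h.1⟩
    have h6 := ent_cD hc hs (W := W.1) (𝒟 := lo W.1) (fun I hI => mem_lo.1 hI) (fun I hI => sl_lo hI) D.n
    have h7 := D.P.Hc_nonneg (D.cD U (lo W.1) 0) (D.FW W.1 0)
    rw [Finset.sum_congr rfl fun t _ => h5 t]
    have h8 := sum_bits (D := D) (H := H) (U := U) hB0 hBt (𝒟 := lo W.1) fun I hI => (mem_lo.1 hI).1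
    linarith
  refine (Finset.sum_le_sum h1).trans ?_
  rw [Finset.sum_const, nsmul_eq_mul]
  exact mul_le_mul_of_nonneg_right (by exact_mod_cast Finset.card_le_univ _) hE

end names

end WD

end

end Pool.Agent.GMJR
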