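import Pool.Agent.GMJR.ClsN
import Pool.Agent.GMJR.EntN

/-!
# GMJR/ClsC (helper52): (F3), the closeness of the names in a world

`LabS D H Q ε` = labels without noise `sF` and the kernels of `H` (`sum` : means over the noise, `ge`), `Qf .. p F` = the value
`F` contains the code `p`.  `LabS.Lc u t w` = the recorded codes of the owner `u`.

* `Lc_fac`, `mem_Lc`;
* `fib_iff` : the points of a cell of `FW W t` with the same classes as a product set;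
* `dRF_key`, `dRF_list` : the densities of the names are those of the classes and of the labels;
* `prod_WTy` : product over the types;
* **`clo_names`** : the field `clo` of `ClsO`, price `2 exp K'`.
-/

set_option autoImplicit false
set_option linter.unusedSectionVars false

namespace Pool.Agent.GMJR

open Finset Pool.Agent.PWZ Pool.Agent.M3 Pool.Agent.GMN Pool.Agent.GM.Harm
open Pool.Agent.M3.S3 (avg)

noncomputable section

/-- labels without noise and their kernels -/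
structure LabS {Om Tp K β X γ δ Γ : Type} [Fintype Om] [Fintype K] [DecidableEq K] [Fintype β] [Fintype X]
    (D : WD Om Tp K β X γ δ Γ) {γ' φ : Type} [Fintype φ] (H : (w0 : Om) → HD K (D.XT w0) β γ' φ) (Q : ℕ) (ε : ℝ) where
  sF : (w0 : Om) → ℕ → D.XT w0 → (K → β) → K → φ
  Qf : (w0 : Om) → K → ℕ → D.XT w0 → (K → β) → Fin Q → φ → Prop
  sF_dep : ∀ w0 l τ x (y y' : K → β), (∀ j, j ≠ l → y j = y' j) → (H w0).qb τ (y l) = (H w0).qb τ (y' l) →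
    sF w0 τ x y l = sF w0 τ x y' l
  Q_dep : ∀ w0 l τ x x' (y y' : K → β) p F, (∀ j, j ≠ l → y j = y' j) → (H w0).qa τ x = (H w0).qa τ x' →
    (H w0).qb τ (y l) = (H w0).qb τ (y' l) → (Qf w0 l τ x y p F ↔ Qf w0 l τ x' y' p F)
  nn : ∀ w0 τ l x y F, 0 ≤ (H w0).kf τ l x y F
  sum : ∀ w0 l, ∀ τ ≤ 2 * D.n, ∀ x y (g : φ → ℝ), (∀ F, 0 ≤ g F) → (∀ F, g F ≤ 1) →
    ∑ F, (H w0).kf τ l x y F * g F ≤ g (sF w0 τ x y l) + ε
  ge : ∀ w0 l, ∀ τ ≤ 2 * D.n, ∀ x y, 1 - ε ≤ (H w0).kf τ l x y (sF w0 τ x y l)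

/-- the conditional probability of an event at a point of the event -/
theorem ce_ind_self {Om κ : Type*} [Fintype Om] (P : FP Om) (Y : Om → κ) {A : Om → Prop} {w : Om} (hw : A w) :
    P.ce Y (fun v => ind (A v)) w = P.m (fun v => (Y v, A v)) w / P.m Y w := by
  unfold FP.ce
  congr 1
  unfold FP.m
  refine P.E_congr fun v _ => ?_
  rw [← ind_and]
  congr 1
  rw [eq_iff_iff, Prod.mk.injEq]
  exact and_congr Iff.rfl ⟨fun h => propext ⟨fun _ => hw, fun _ => h⟩, fun h => by rw [h]; exact hw⟩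

theorem pair_iff {Om κ : Type*} {Y : Om → κ} {A : Om → Prop} {v w : Om} (hw : A w) :
    ((Y v, A v) = (Y w, A w)) ↔ Y v = Y w ∧ A v := by
  rw [Prod.mk.injEq]
  exact and_congr Iff.rfl ⟨fun h => by rw [h]; exact hw, fun h => propext ⟨fun _ => hw, fun _ => h⟩⟩

/-- product over the types -/
theorem prod_WTy {K : Type} [Fintype K] [DecidableEq K] (f : WTy K → ℝ) (g : Finset K → ℝ)
    (hg : ∀ W : WTy K, ¬ mxW W → f W = g W.1) : ∏ W, f W = (∏ J ∈ JJ K, g J) * ∏ l, f (tyL l) := by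
  classical
  rw [← Finset.prod_filter_mul_prod_filter_not univ (fun W : WTy K => ¬ mxW W)]
  congr 1
  · refine Finset.prod_bij (fun W _ => W.1) (fun W hW => not_mxW.1 (Finset.mem_filter.1 hW).2)
      (fun W _ W' _ h => Subtype.ext h) (fun J hJ => ?_) (fun W hW => hg W (Finset.mem_filter.1 hW).2)
    have h1 : J ≠ univ := by
      rintro rfl
      unfold JJ at hJ
      rw [Finset.mem_filter, Finset.card_univ] at hJ
      omega
    exact ⟨⟨J, h1⟩, Finset.mem_filter.2 ⟨mem_univ _, not_mxW.2 hJ⟩, rfl⟩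
  · have h1 : (univ.filter fun W : WTy K => ¬ ¬ mxW W) = univ.image tyL := by
      ext W
      rw [Finset.mem_filter, Finset.mem_image, not_not]
      constructor
      · rintro ⟨_, u, hu⟩
        exact ⟨u, mem_univ _, hu.symm⟩
      · rintro ⟨u, _, hu⟩
        exact ⟨mem_univ _, u, hu.symm⟩
    rw [h1, Finset.prod_image fun u _ u' _ h => tyL_inj h]

/-- the sets of `JJ` strictly below a list type -/
theorem sl_tyL {K : Type} [Fintype K] [DecidableEq K] (l : K) :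
    WD.sl (tyL l : WTy K).1 = (JJ K).filter fun I => l ∉ I := by
  classical
  ext I
  rw [WD.mem_sl, Finset.mem_filter]
  refine and_congr_right fun hI => ?_
  have hI' := hI
  unfold JJ at hI'
  rw [Finset.mem_filter] at hI'
  constructor
  · intro h h1
    exact (Finset.mem_erase.1 (h.1 h1)).1 rfl
  · intro h
    refine Finset.ssubset_iff_subset_ne.2 ⟨fun j hj => Finset.mem_erase.2 ⟨fun e => h (e ▸ hj), mem_univ _⟩, fun e => ?_⟩
    have h2 : I = univ.erase l := e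
    rw [h2, Finset.card_erase_of_mem (mem_univ _), Finset.card_univ] at hI'
    have h3 : 0 < Fintype.card K := Fintype.card_pos_iff.2 ⟨l⟩
    omega

section

variable {Om Tp K β X γ δ Γ : Type} [Fintype Om] [Fintype K] [DecidableEq K] [Fintype β] [Fintype X]
  {D : WD Om Tp K β X γ δ Γ} {φ γ' υ : Type} [Fintype φ] {H : (w0 : Om) → HD K (D.XT w0) β γ' φ}
  {U : (w0 : Om) → Finset K → ℕ → D.XT w0 → (K → β) → υ} {Q : ℕ} {ε : ℝ}

namespace LabS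

variable (S : LabS D H Q ε)

/-- the hidden point has recorded the code -/
def has (w0 : Om) (u : K) (τ : ℕ) (x : D.XT w0) (y : K → β) (p : Fin Q) : Prop :=
  S.Qf w0 u τ x y p (S.sF w0 τ x y u)

open Classical in
/-- the recorded codes -/
def Lc (u : K) (t : ℕ) (w : Om) : Finset (Fin Q) :=
  univ.filter fun p => S.has (D.rep w) u (2 * min t D.n) (D.hr w) (D.y w) p

theorem mem_Lc {u : K} {t : ℕ} {w : Om} {p : Fin Q} :
    p ∈ S.Lc u t w ↔ S.has (D.rep w) u (2 * min t D.n) (D.hr w) (D.y w) p := by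
  classical
  unfold Lc
  rw [Finset.mem_filter]
  exact ⟨fun h => h.2, fun h => ⟨mem_univ _, h⟩⟩

theorem has_at {u : K} {τ : ℕ} {v : Om} {p : Fin Q} : ∀ {w0 : Om} (_ : D.rep v = w0) (hv : D.hx v ∈ D.sp (D.top w0)),
    (S.has (D.rep v) u τ (D.hr v) (D.y v) p ↔ S.has w0 u τ ⟨D.hx v, hv⟩ (D.y v) p) := by
  rintro _ rfl _
  exact Iff.rfl

theorem has_dep {w0 : Om} {u : K} {τ : ℕ} {x : D.XT w0} {y y' : K → β} {p : Fin Q} (h : ∀ j, j ≠ u → y j = y' j)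
    (h1 : (H w0).qb τ (y u) = (H w0).qb τ (y' u)) : S.has w0 u τ x y p ↔ S.has w0 u τ x y' p := by
  unfold has
  rw [S.sF_dep w0 u τ x y y' h h1]
  exact S.Q_dep w0 u τ x x y y' p _ h rfl h1

variable (hc : D.Cells H)
include hc

theorem mem_Lc_iff {u : K} {t : ℕ} (ht : t ≤ D.n) {v w : Om} (h : D.top v = D.top w) (h1 : ∀ j, j ≠ u → D.y v j = D.y w j)
    (h2 : D.cl t (D.y v u) = D.cl t (D.y w u)) {p : Fin Q} :
    p ∈ S.Lc u t v ↔ S.has (D.rep w) u (2 * t) ⟨D.hx v, WD.sp_rep h⟩ (D.y w) p := by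
  rw [mem_Lc, min_eq_left ht, S.has_at (WD.rep_eq h) (WD.sp_rep h)]
  have e : 2 * t / 2 = t := Nat.mul_div_cancel_left _ (by norm_num)
  exact S.has_dep h1 ((hc.qb _ _ _ _).2 (by rw [e]; exact h2))

theorem Lc_fac (u : K) (t : ℕ) : D.FDW (univ.erase u) t (S.Lc u t) := by
  intro v w h1 h2 h3 h4
  ext p
  have e : 2 * min t D.n / 2 = min t D.n := Nat.mul_div_cancel_left _ (by norm_num)
  have h5 : (⟨D.hx v, WD.sp_rep h1⟩ : D.XT (D.rep w)) = D.hr w := Subtype.ext h4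
  rw [mem_Lc, mem_Lc, S.has_at (WD.rep_eq h1) (WD.sp_rep h1), h5]
  exact S.has_dep (fun j hj => h2 j (Finset.mem_erase.2 ⟨hj, mem_univ _⟩))
    ((hc.qb _ _ _ _).2 (by rw [e]; exact WD.cl_le (min_le_left _ _) (h3 u)))

end LabS

variable (hc : D.Cells H) (hs : ∀ w0, GM.Harm.Sys (H w0) (U w0))
include hc hs

open Classical in
/-- the points of a cell of `FW W t` with the same classes -/
theorem fib_iff {W : Finset K} {𝒟 : Finset (Finset K)} (h𝒟 : ∀ I ∈ 𝒟, I ⊆ W) (t : ℕ) (w v : Om) :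
    (D.FW W t v = D.FW W t w ∧ D.cD U 𝒟 (2 * t) v = D.cD U 𝒟 (2 * t) w) ↔ D.top v = D.top w ∧
      D.y v ∈ (univ.filter fun y' : K → β => (∀ j ∈ W, y' j = D.y w j) ∧ ∀ j, D.cl t (y' j) = D.cl t (D.y w j)) ∧
      ∃ hv : D.hx v ∈ D.sp (D.top (D.rep w)),
        ⟨D.hx v, hv⟩ ∈ cls (H (D.rep w)) (U (D.rep w)) 𝒟 (2 * t) (D.hr w) (D.y w) := by
  have e : 2 * t / 2 = t := Nat.mul_div_cancel_left _ (by norm_num)
  rw [WD.FW_eq, WD.cD_eq, Finset.mem_filter]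
  simp only [mem_cls, hc.qa]
  constructor
  · rintro ⟨⟨h1, h2, h3, h4⟩, h5⟩
    refine ⟨h1, ⟨mem_univ _, h2, h3⟩, WD.sp_rep h1, h4, fun I hI => ?_⟩
    have h6 := h5 I hI
    rw [WD.uI_dep hc hs (h𝒟 I hI) h1 (WD.sp_rep h1) h2 (by rw [e]; exact h3)] at h6
    exact h6
  · rintro ⟨h1, ⟨-, h2, h3⟩, hv, h4, h5⟩
    refine ⟨⟨h1, h2, h3, h4⟩, fun I hI => ?_⟩
    rw [WD.uI_dep hc hs (h𝒟 I hI) h1 hv h2 (by rw [e]; exact h3)]
    exact h5 I hI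

/-! ### densities -/

omit hc hs in
/-- the relative density of a name from two product sets -/
theorem dR_of {Nk : Type} [Fintype Nk] [DecidableEq Nk] [Inhabited Nk] {nk : WTy K → ℕ → Om → Nk}
    {Lc : K → ℕ → Om → Finset (Fin Q)} (W : WTy K) {t : ℕ} {𝔳 : WTy K → Nk ⊕ Fin Q} {w : Om}
    (hw : hasN mxW (nkO Q nk) (LsO Nk Lc) t w 𝔳) {Ys : Finset (K → β)} {A1 A2 : Finset (D.XT (D.rep w))}
    (h1 : ∀ v, (D.FW W.1 t v = D.FW W.1 t w ∧ ∀ W' ≤ W, cr mxW (nkO Q nk) (LsO Nk Lc) W' t v (𝔳 W')) ↔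
      D.top v = D.top w ∧ D.y v ∈ Ys ∧ ∃ hv : D.hx v ∈ D.sp (D.top (D.rep w)), ⟨D.hx v, hv⟩ ∈ A1)
    (h2 : ∀ v, (D.FW W.1 t v = D.FW W.1 t w ∧ ∀ W' < W, cr mxW (nkO Q nk) (LsO Nk Lc) W' t v (𝔳 W')) ↔
      D.top v = D.top w ∧ D.y v ∈ Ys ∧ ∃ hv : D.hx v ∈ D.sp (D.top (D.rep w)), ⟨D.hx v, hv⟩ ∈ A2) :
    dRF D.P (fun W : WTy K => D.FW W.1) mxW (nkO Q nk) (LsO Nk Lc) t (GMN.res W 𝔳) w = (A1.card : ℝ) / A2.card := by
  have e : ∀ W' ≤ W, (GMN.res W 𝔳).2 W' = 𝔳 W' := fun W' hW' => if_pos hW'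
  have a1 : ∀ v, (∀ W' ≤ (GMN.res W 𝔳).1, cr mxW (nkO Q nk) (LsO Nk Lc) W' t v ((GMN.res W 𝔳).2 W')) ↔
      ∀ W' ≤ W, cr mxW (nkO Q nk) (LsO Nk Lc) W' t v (𝔳 W') := fun v =>
    ⟨fun h W' hW' => by rw [← e W' hW']; exact h W' hW', fun h W' hW' => by rw [e W' hW']; exact h W' hW'⟩
  have a2 : ∀ v, (∀ W' < (GMN.res W 𝔳).1, cr mxW (nkO Q nk) (LsO Nk Lc) W' t v ((GMN.res W 𝔳).2 W')) ↔
      ∀ W' < W, cr mxW (nkO Q nk) (LsO Nk Lc) W' t v (𝔳 W') := fun v =>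
    ⟨fun h W' hW' => by rw [← e W' hW'.le]; exact h W' hW', fun h W' hW' => by rw [e W' hW'.le]; exact h W' hW'⟩
  have b1 : ∀ W' ≤ W, cr mxW (nkO Q nk) (LsO Nk Lc) W' t w (𝔳 W') := fun W' _ => hw W'
  have b2 : ∀ W' < W, cr mxW (nkO Q nk) (LsO Nk Lc) W' t w (𝔳 W') := fun W' _ => hw W'
  unfold dRF dR
  simp only [a1, a2]
  show D.P.ce (D.FW W.1 t) (fun v => ind (∀ W' ≤ W, cr mxW (nkO Q nk) (LsO Nk Lc) W' t v (𝔳 W'))) w /
    D.P.ce (D.FW W.1 t) (fun v => ind (∀ W' < W, cr mxW (nkO Q nk) (LsO Nk Lc) W' t v (𝔳 W'))) w = _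
  rw [ce_ind_self D.P (D.FW W.1 t) b1, ce_ind_self D.P (D.FW W.1 t) b2]
  have hm : D.P.m (D.FW W.1 t) w ≠ 0 := (D.P.m_pos _ (D.pp w)).ne'
  rw [div_div_div_cancel_right₀ hm]
  refine D.m_ratio (Ys := Ys) (fun v => ?_) (fun v => ?_)
  · exact Iff.trans (pair_iff (Y := D.FW W.1 t)
      (A := fun v => ∀ W' ≤ W, cr mxW (nkO Q nk) (LsO Nk Lc) W' t v (𝔳 W')) b1) (h1 v)
  · exact Iff.trans (pair_iff (Y := D.FW W.1 t)
      (A := fun v => ∀ W' < W, cr mxW (nkO Q nk) (LsO Nk Lc) W' t v (𝔳 W')) b2) (h2 v)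

section dens

variable {Nk : Type} [Fintype Nk] [DecidableEq Nk] [Inhabited Nk] {nk : WTy K → ℕ → Om → Nk}
  (hnk : ∀ W : WTy K, ¬ mxW W → ∀ s ≤ D.n, ∀ t ≤ D.n, ∀ v w, nk W s v = nk W t w ↔ D.nmW U W.1 s v = D.nmW U W.1 t w)
  {Lc : K → ℕ → Om → Finset (Fin Q)}
include hnk

theorem lt_iff {W : WTy K} {t : ℕ} (ht : t ≤ D.n) {𝔳 : WTy K → Nk ⊕ Fin Q} {w : Om}
    (hw : hasN mxW (nkO Q nk) (LsO Nk Lc) t w 𝔳) {v : Om} (h : D.FW W.1 t v = D.FW W.1 t w) :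
    (∀ W' < W, cr mxW (nkO Q nk) (LsO Nk Lc) W' t v (𝔳 W')) ↔ D.cD U (WD.sl W.1) (2 * t) v = D.cD U (WD.sl W.1) (2 * t) w := by
  rw [← WD.ctxN_iff hc hs hnk (Q := Q) ht h, ctxN_eq_iff]
  refine forall_congr' fun W' => forall_congr' fun hW' => ?_
  rw [cr_key (mxW_top hW'), ← (cr_key (mxW_top hW')).1 (hw W')]

theorem le_iff {W : WTy K} (hW : ¬ mxW W) {t : ℕ} (ht : t ≤ D.n) {𝔳 : WTy K → Nk ⊕ Fin Q} {w : Om}
    (hw : hasN mxW (nkO Q nk) (LsO Nk Lc) t w 𝔳) {v : Om} (h : D.FW W.1 t v = D.FW W.1 t w) :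
    (∀ W' ≤ W, cr mxW (nkO Q nk) (LsO Nk Lc) W' t v (𝔳 W')) ↔ D.cD U (WD.lo W.1) (2 * t) v = D.cD U (WD.lo W.1) (2 * t) w := by
  rw [← WD.ctxE_iff hc hs hnk (Q := Q) hW ht h, ctxE_eq_iff]
  refine forall_congr' fun W' => forall_congr' fun hW' => ?_
  have hm : ¬ mxW W' := by
    rcases hW'.lt_or_eq with h1 | h1
    · exact mxW_top h1
    · rw [h1]
      exact hW
  rw [cr_key hm, ← (cr_key hm).1 (hw W')]

/-- the density of a key is the density of the class -/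
theorem dRF_key {W : WTy K} (hW : ¬ mxW W) {t : ℕ} (ht : t ≤ D.n) {𝔳 : WTy K → Nk ⊕ Fin Q} {w : Om}
    (hw : hasN mxW (nkO Q nk) (LsO Nk Lc) t w 𝔳) :
    dRF D.P (fun W : WTy K => D.FW W.1) mxW (nkO Q nk) (LsO Nk Lc) t (GMN.res W 𝔳) w =
      dJ (H (D.rep w)) (U (D.rep w)) W.1 (2 * t) (D.hr w) (D.y w) := by
  classical
  unfold dJ
  refine dR_of W hw (Ys := univ.filter fun y' : K → β => (∀ j ∈ W.1, y' j = D.y w j) ∧
    ∀ j, D.cl t (y' j) = D.cl t (D.y w j)) (fun v => ?_) (fun v => ?_)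
  · refine Iff.trans ?_ (fib_iff hc hs (fun I hI => (WD.mem_lo.1 hI).2) t w v)
    exact and_congr_right fun h => le_iff hc hs hnk hW ht hw h
  · refine Iff.trans ?_ (fib_iff hc hs (fun I hI => (WD.mem_sl.1 hI).2.subset) t w v)
    exact and_congr_right fun h => lt_iff hc hs hnk ht hw h

/-- the density of a list name is the density of the labels -/
theorem dRF_list (S : LabS D H Q ε) (l : K) {t : ℕ} (ht : t ≤ D.n) {𝔳 : WTy K → Nk ⊕ Fin Q} {w : Om}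
    (hw : hasN mxW (nkO Q nk) (LsO Nk S.Lc) t w 𝔳) :
    dRF D.P (fun W : WTy K => D.FW W.1) mxW (nkO Q nk) (LsO Nk S.Lc) t (GMN.res (tyL l) 𝔳) w =
      avg (wL (H (D.rep w)) (U (D.rep w)) l (2 * t) (D.hr w) (D.y w)) (fun x =>
        ind (∃ p, 𝔳 (tyL l) = .inr p ∧ S.has (D.rep w) l (2 * t) x (D.y w) p)) := by
  classical
  have hmx : mxW (tyL l : WTy K) := ⟨l, rfl⟩
  have e0 : avg (wL (H (D.rep w)) (U (D.rep w)) l (2 * t) (D.hr w) (D.y w)) (fun x =>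
        ind (∃ p, 𝔳 (tyL l) = .inr p ∧ S.has (D.rep w) l (2 * t) x (D.y w) p)) =
      (((wL (H (D.rep w)) (U (D.rep w)) l (2 * t) (D.hr w) (D.y w)).filter fun x =>
        ∃ p, 𝔳 (tyL l) = .inr p ∧ S.has (D.rep w) l (2 * t) x (D.y w) p).card : ℝ) /
        (wL (H (D.rep w)) (U (D.rep w)) l (2 * t) (D.hr w) (D.y w)).card := by
    unfold Pool.Agent.M3.S3.avg
    congr 1
    rw [Finset.card_filter]
    push_cast
    refine Finset.sum_congr rfl fun x _ => ?_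
    by_cases h : ∃ p, 𝔳 (tyL l) = .inr p ∧ S.has (D.rep w) l (2 * t) x (D.y w) p
    · rw [ind_of h, if_pos h]
    · rw [ind_not h, if_neg h]
  rw [e0]
  -- the classes below the list type
  have hcl : ∀ v, (D.FW (tyL l : WTy K).1 t v = D.FW (tyL l : WTy K).1 t w ∧
      ∀ W' < tyL l, cr mxW (nkO Q nk) (LsO Nk S.Lc) W' t v (𝔳 W')) ↔ D.top v = D.top w ∧
      D.y v ∈ (univ.filter fun y' : K → β => (∀ j ∈ (tyL l : WTy K).1, y' j = D.y w j) ∧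
        ∀ j, D.cl t (y' j) = D.cl t (D.y w j)) ∧ ∃ hv : D.hx v ∈ D.sp (D.top (D.rep w)),
        ⟨D.hx v, hv⟩ ∈ wL (H (D.rep w)) (U (D.rep w)) l (2 * t) (D.hr w) (D.y w) := by
    intro v
    have h1 := fib_iff hc hs (W := (tyL l : WTy K).1) (𝒟 := WD.sl (tyL l : WTy K).1)
      (fun I hI => (WD.mem_sl.1 hI).2.subset) t w v
    rw [sl_tyL] at h1
    refine Iff.trans ?_ h1
    refine and_congr_right fun h => ?_
    have h2 := lt_iff hc hs hnk ht hw h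
    rw [sl_tyL] at h2
    exact h2
  refine dR_of (tyL l) hw (Ys := univ.filter fun y' : K → β => (∀ j ∈ (tyL l : WTy K).1, y' j = D.y w j) ∧
    ∀ j, D.cl t (y' j) = D.cl t (D.y w j)) (fun v => ?_) hcl
  have hsplit : (∀ W' ≤ tyL l, cr mxW (nkO Q nk) (LsO Nk S.Lc) W' t v (𝔳 W')) ↔
      (∀ W' < tyL l, cr mxW (nkO Q nk) (LsO Nk S.Lc) W' t v (𝔳 W')) ∧ ∃ p ∈ S.Lc l t v, 𝔳 (tyL l) = .inr p := by
    constructor
    · intro h
      exact ⟨fun W' hW' => h W' hW'.le, mem_LsO.1 ((cr_list hmx).1 (h _ le_rfl))⟩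
    · rintro ⟨h, h'⟩ W' hW'
      rcases hW'.lt_or_eq with h1 | h1
      · exact h W' h1
      · subst h1
        exact (cr_list hmx).2 (mem_LsO.2 h')
  rw [hsplit, ← and_assoc, hcl v]
  have hlast : ∀ (h1 : D.top v = D.top w), D.y v ∈ (univ.filter fun y' : K → β =>
      (∀ j ∈ (tyL l : WTy K).1, y' j = D.y w j) ∧ ∀ j, D.cl t (y' j) = D.cl t (D.y w j)) →
      ((∃ p ∈ S.Lc l t v, 𝔳 (tyL l) = .inr p) ↔
        ∃ p, 𝔳 (tyL l) = .inr p ∧ S.has (D.rep w) l (2 * t) ⟨D.hx v, WD.sp_rep h1⟩ (D.y w) p) := by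
    intro h1 h2
    obtain ⟨-, h3, h4⟩ := Finset.mem_filter.1 h2
    have h5 : ∀ p, p ∈ S.Lc l t v ↔ S.has (D.rep w) l (2 * t) ⟨D.hx v, WD.sp_rep h1⟩ (D.y w) p := fun p =>
      S.mem_Lc_iff hc ht h1 (fun j hj => h3 j (Finset.mem_erase.2 ⟨hj, mem_univ _⟩)) (h4 l)
    constructor
    · rintro ⟨p, hp, hp'⟩
      exact ⟨p, hp', (h5 p).1 hp⟩
    · rintro ⟨p, hp', hp⟩
      exact ⟨p, (h5 p).2 hp, hp'⟩
  constructor
  · rintro ⟨⟨h1, h2, hv, h3⟩, h4⟩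
    exact ⟨h1, h2, hv, Finset.mem_filter.2 ⟨h3, (hlast h1 h2).1 h4⟩⟩
  · rintro ⟨h1, h2, hv, h3⟩
    obtain ⟨h4, h5⟩ := Finset.mem_filter.1 h3
    exact ⟨⟨h1, h2, hv, h4⟩, (hlast h1 h2).2 h5⟩

omit hc hs hnk in
theorem hot_at (S : LabS D H Q ε) {K' : ℝ} {τ : ℕ} {v : Om} : ∀ {w0 : Om} (_ : D.rep v = w0)
    (hv : D.hx v ∈ D.sp (D.top w0)),
    (hot (H (D.rep v)) (U (D.rep v)) K' τ (D.hr v, D.y v, S.sF (D.rep v) τ (D.hr v) (D.y v)) ↔
      hot (H w0) (U w0) K' τ (⟨D.hx v, hv⟩, D.y v, S.sF w0 τ ⟨D.hx v, hv⟩ (D.y v))) := by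
  rintro _ rfl _
  exact Iff.rfl

/-- closeness at a point which carries the names -/
theorem clo_self (S : LabS D H Q ε) (hε1 : ε ≤ 1) (hε : Fintype.card K * ε ≤ 1 / 2)
    (hnf : ∀ W t, D.FDW W.1 t (nk W t)) {K' : ℝ} {G0 : ℕ → Om → Prop} (hGf : ∀ t, D.FD (G0 t))
    (hG : ∀ t ≤ D.n, ∀ v, G0 t v →
      ¬ hot (H (D.rep v)) (U (D.rep v)) K' (2 * t) (D.hr v, D.y v, S.sF (D.rep v) (2 * t) (D.hr v) (D.y v)))
    {t : ℕ} (ht : t ≤ D.n) {𝔳 : WTy K → Nk ⊕ Fin Q} {w : Om}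
    (hw : hasN mxW (nkO Q nk) (LsO Nk S.Lc) t w 𝔳 ∧ (t ≤ D.n ∧ G0 t w)) :
    D.P.ce (D.FW univ t) (fun v => ind (hasN mxW (nkO Q nk) (LsO Nk S.Lc) t v 𝔳 ∧ (t ≤ D.n ∧ G0 t v))) w ≤
      2 * Real.exp K' * ∏ W, (dRF D.P (fun W : WTy K => D.FW W.1) mxW (nkO Q nk) (LsO Nk S.Lc) t (GMN.res W 𝔳) w +
        (open Classical in if mxW W then ε else 0)) := by
  classical
  -- the event is a function of the top, the known points and the hidden point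
  have hA : ∀ v v', D.top v = D.top v' → D.y v = D.y v' → D.hx v = D.hx v' →
      (hasN mxW (nkO Q nk) (LsO Nk S.Lc) t v 𝔳 ∧ (t ≤ D.n ∧ G0 t v)) →
      (hasN mxW (nkO Q nk) (LsO Nk S.Lc) t v' 𝔳 ∧ (t ≤ D.n ∧ G0 t v')) := by
    rintro v v' h1 h2 h3 ⟨h4, h5, h6⟩
    have e1 : ∀ W, nkO Q nk W t v = nkO Q nk W t v' := fun W =>
      congrArg Sum.inl ((hnf W t).fd v v' h1 h2 h3)
    have e2 : ∀ W, LsO Nk S.Lc W t v = LsO Nk S.Lc W t v' := by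
      intro W
      unfold LsO
      congr 1
      funext u
      rw [(S.Lc_fac hc u t).fd v v' h1 h2 h3]
    refine ⟨fun W => ?_, h5, (hGf t v v' h1 h2 h3).mp h6⟩
    have h7 := h4 W
    unfold cr at h7 ⊢
    rw [← e1 W, ← e2 W]
    exact h7
  -- all classes are those of `w`
  have hcl : ∀ v, D.FW univ t v = D.FW univ t w → hasN mxW (nkO Q nk) (LsO Nk S.Lc) t v 𝔳 →
      D.cD U (JJ K) (2 * t) v = D.cD U (JJ K) (2 * t) w := by
    intro v h1 h2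
    refine WD.cD_eq.2 fun I hI => ?_
    have hIu : I ≠ univ := by
      rintro rfl
      unfold JJ at hI
      rw [Finset.mem_filter, Finset.card_univ] at hI
      omega
    have hm : ¬ mxW (⟨I, hIu⟩ : WTy K) := not_mxW.2 hI
    have h3 : D.FW (⟨I, hIu⟩ : WTy K).1 t v = D.FW (⟨I, hIu⟩ : WTy K).1 t w :=
      WD.FW_mono (D := D) (Finset.subset_univ _) t v w h1
    have h4 := (le_iff hc hs hnk hm ht hw.1 h3).1 fun W' _ => h2 W'
    exact WD.cD_eq.1 h4 I (WD.mem_lo.2 ⟨hI, Finset.Subset.refl _⟩)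
  set E : Finset (D.XT (D.rep w)) := (vA (H (D.rep w)) (U (D.rep w)) (2 * t) (D.hr w) (D.y w)).filter fun x =>
    ∃ v, D.top v = D.top w ∧ D.y v = D.y w ∧ D.hx v = x.1 ∧
      (hasN mxW (nkO Q nk) (LsO Nk S.Lc) t v 𝔳 ∧ (t ≤ D.n ∧ G0 t v)) with hE
  have hy : ∀ v, D.FW univ t v = D.FW univ t w → D.y v = D.y w := fun v h => funext fun j =>
    (WD.FW_eq.1 h).2.1 j (mem_univ j)
  have h1 : D.P.ce (D.FW univ t) (fun v => ind (hasN mxW (nkO Q nk) (LsO Nk S.Lc) t v 𝔳 ∧ (t ≤ D.n ∧ G0 t v))) w =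
      (E.card : ℝ) / ((H (D.rep w)).cA (2 * t) (D.hr w)).card := by
    rw [ce_ind_self D.P (D.FW univ t) hw]
    refine D.m_ratio (Ys := univ.filter fun y' : K → β => (∀ j ∈ (univ : Finset K), y' j = D.y w j) ∧
      ∀ j, D.cl t (y' j) = D.cl t (D.y w j)) (fun v => ?_) (fun v => ?_)
    · rw [pair_iff (Y := D.FW univ t)
        (A := fun v => hasN mxW (nkO Q nk) (LsO Nk S.Lc) t v 𝔳 ∧ (t ≤ D.n ∧ G0 t v)) hw]
      have h2 := fib_iff hc hs (W := (univ : Finset K)) (𝒟 := JJ K) (fun I _ => Finset.subset_univ I) t w v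
      constructor
      · rintro ⟨h3, h4⟩
        obtain ⟨h5, h6, hv, h7⟩ := h2.1 ⟨h3, hcl v h3 h4.1⟩
        exact ⟨h5, h6, hv, Finset.mem_filter.2 ⟨h7, v, h5, hy v h3, rfl, h4⟩⟩
      · rintro ⟨h5, h6, hv, h7⟩
        obtain ⟨h8, v', h9, h10, h11, h12⟩ := Finset.mem_filter.1 h7
        obtain ⟨h3, h4⟩ := h2.2 ⟨h5, h6, hv, h8⟩
        exact ⟨h3, hA v' v (h9.trans h5.symm) (h10.trans (hy v h3).symm) h11 h12⟩
    · have e : 2 * t / 2 = t := Nat.mul_div_cancel_left _ (by norm_num)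
      rw [WD.FW_eq, Finset.mem_filter]
      simp only [mem_cA, hc.qa]
      constructor
      · rintro ⟨h3, h4, h5, h6⟩
        exact ⟨h3, ⟨mem_univ _, h4, h5⟩, WD.sp_rep h3, h6⟩
      · rintro ⟨h3, ⟨-, h4, h5⟩, hv, h6⟩
        exact ⟨h3, h4, h5, h6⟩
  have hcA : (0 : ℝ) < ((H (D.rep w)).cA (2 * t) (D.hr w)).card := by
    exact_mod_cast Finset.card_pos.2 ⟨D.hr w, mem_cA.2 rfl⟩
  have ht2 : 2 * t ≤ 2 * D.n := by omega
  -- the mass of the system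
  have h2 := mass_hd (D := H (D.rep w)) (U := U (D.rep w)) (t := 2 * t) (y := D.y w) (x1 := D.hr w) (K' := K') (ε := ε)
    (fun l x F => S.nn _ _ l x _ F) hε1
    (Q := fun l F => ∃ p, 𝔳 (tyL l) = .inr p ∧ S.Qf (D.rep w) l (2 * t) (D.hr w) (D.y w) p F)
    (q := fun l x => ∃ p, 𝔳 (tyL l) = .inr p ∧ S.has (D.rep w) l (2 * t) x (D.y w) p)
    (sF := fun x l => S.sF (D.rep w) (2 * t) x (D.y w) l) (ok := fun _ => True)
    (fun l x hx => ?_) (fun l x hx _ => S.ge _ l _ ht2 x _) (fun l x hx _ h => ?_) (E := E) (fun x hx => ?_)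
  rotate_left
  · -- means over the noise
    have h3 := S.sum (D.rep w) l (2 * t) ht2 x (D.y w)
      (fun F => ind (∃ p, 𝔳 (tyL l) = .inr p ∧ S.Qf (D.rep w) l (2 * t) (D.hr w) (D.y w) p F))
      (fun _ => ind_nonneg _) (fun _ => ind_le_one _)
    have h4 : (∃ p, 𝔳 (tyL l) = .inr p ∧ S.Qf (D.rep w) l (2 * t) (D.hr w) (D.y w) p
        (S.sF (D.rep w) (2 * t) x (D.y w) l)) ↔
        ∃ p, 𝔳 (tyL l) = .inr p ∧ S.has (D.rep w) l (2 * t) x (D.y w) p := by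
      refine exists_congr fun p => and_congr_right fun _ => ?_
      exact S.Q_dep _ l _ (D.hr w) x _ _ p _ (fun _ _ => rfl) (mem_cA.1 hx).symm rfl
    rw [show ind (∃ p, 𝔳 (tyL l) = .inr p ∧ S.Qf (D.rep w) l (2 * t) (D.hr w) (D.y w) p
        (S.sF (D.rep w) (2 * t) x (D.y w) l)) = ind (∃ p, 𝔳 (tyL l) = .inr p ∧ S.has (D.rep w) l (2 * t) x (D.y w) p)
        from by rw [h4]] at h3
    refine le_trans (le_of_eq (Finset.sum_congr rfl fun F _ => mul_comm _ _)) h3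
  · obtain ⟨p, hp, h3⟩ := h
    exact ⟨p, hp, (S.Q_dep _ l _ (D.hr w) x _ _ p _ (fun _ _ => rfl) (mem_cA.1 hx).symm rfl).2 h3⟩
  · obtain ⟨h3, v, h4, h5, h6, h7, _, h8⟩ := Finset.mem_filter.1 hx
    have hxv : (⟨D.hx v, WD.sp_rep h4⟩ : D.XT (D.rep w)) = x := Subtype.ext h6
    refine ⟨h3, fun l => ?_, trivial, ?_⟩
    · obtain ⟨p, hp, hp'⟩ := mem_LsO.1 ((cr_list ⟨l, rfl⟩).1 (h7 (tyL l)))
      refine ⟨p, hp', ?_⟩
      have h9 := (S.mem_Lc_iff hc ht h4 (fun j _ => by rw [h5]) (by rw [h5])).1 hp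
      rw [hxv] at h9
      exact h9
    · have h9 := hG t ht v h8
      rw [hot_at S (WD.rep_eq h4) (WD.sp_rep h4), hxv, h5] at h9
      exact h9
  -- conclusion
  have hpr : ∏ W, (dRF D.P (fun W : WTy K => D.FW W.1) mxW (nkO Q nk) (LsO Nk S.Lc) t (GMN.res W 𝔳) w +
      (if mxW W then ε else 0)) = (∏ J ∈ JJ K, dJ (H (D.rep w)) (U (D.rep w)) J (2 * t) (D.hr w) (D.y w)) *
      ∏ l, (Pool.Agent.M3.S3.avg (wL (H (D.rep w)) (U (D.rep w)) l (2 * t) (D.hr w) (D.y w)) (fun x =>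
        ind (∃ p, 𝔳 (tyL l) = .inr p ∧ S.has (D.rep w) l (2 * t) x (D.y w) p)) + ε) := by
    rw [prod_WTy _ (fun J => dJ (H (D.rep w)) (U (D.rep w)) J (2 * t) (D.hr w) (D.y w)) fun W hW => ?_]
    · congr 1
      refine Finset.prod_congr rfl fun l _ => ?_
      rw [dRF_list hc hs hnk S l ht hw.1, if_pos ⟨l, rfl⟩]
    · rw [dRF_key hc hs hnk hW ht hw.1, if_neg hW, add_zero]
  rw [h1, hpr, div_le_iff₀ hcA]
  have h3 : (1 : ℝ) / 2 ≤ (1 - ε) ^ Fintype.card K := by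
    have h4 := one_add_mul_le_pow (a := -ε) (by linarith) (Fintype.card K)
    rw [← sub_eq_add_neg] at h4
    linarith
  have h4 : (0 : ℝ) ≤ E.card := Nat.cast_nonneg _
  have h5 : (1 / 2) * (E.card : ℝ) ≤ (1 - ε) ^ Fintype.card K * (E.card : ℝ) := mul_le_mul_of_nonneg_right h3 h4
  have h6 := h5.trans h2
  linarith

/-- **THE CLOSENESS OF THE NAMES** : the field `clo` of `ClsO` -/
theorem clo_names (S : LabS D H Q ε) (hε0 : 0 ≤ ε) (hε1 : ε ≤ 1) (hε : Fintype.card K * ε ≤ 1 / 2)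
    (hnf : ∀ W t, D.FDW W.1 t (nk W t)) {K' : ℝ} {G0 : ℕ → Om → Prop} (hGf : ∀ t, D.FD (G0 t))
    (hG : ∀ t ≤ D.n, ∀ v, G0 t v →
      ¬ hot (H (D.rep v)) (U (D.rep v)) K' (2 * t) (D.hr v, D.y v, S.sF (D.rep v) (2 * t) (D.hr v) (D.y v))) :
    ∀ t ≤ D.n, ∀ (𝔳 : WTy K → Nk ⊕ Fin Q) w,
    D.P.ce (D.FW univ t) (fun v => ind (hasN mxW (nkO Q nk) (LsO Nk S.Lc) t v 𝔳 ∧ (t ≤ D.n ∧ G0 t v))) w ≤
      2 * Real.exp K' * ∏ W, (dRF D.P (fun W : WTy K => D.FW W.1) mxW (nkO Q nk) (LsO Nk S.Lc) t (GMN.res W 𝔳) w +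
        (open Classical in if mxW W then ε else 0)) := by
  classical
  intro t ht 𝔳 w
  by_cases hpos : 0 < D.P.ce (D.FW univ t) (fun v => ind (hasN mxW (nkO Q nk) (LsO Nk S.Lc) t v 𝔳 ∧ (t ≤ D.n ∧ G0 t v))) w
  · obtain ⟨v, _, h1, h2⟩ := ce_ind_pos D.P (D.FW univ t) hpos
    have h3 := clo_self hc hs hnk S hε1 hε hnf hGf hG ht h2
    have h4 := D.P.ce_fac (D.FW univ t) (fun v => ind (hasN mxW (nkO Q nk) (LsO Nk S.Lc) t v 𝔳 ∧ (t ≤ D.n ∧ G0 t v)))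
      v w h1
    rw [h4] at h3
    refine h3.trans (le_of_eq ?_)
    congr 1
    refine Finset.prod_congr rfl fun W _ => ?_
    congr 1
    exact dR_fac t (GMN.res W 𝔳) v w (WD.FW_mono (D := D) (Finset.subset_univ _) t v w h1)
  · refine (not_lt.1 hpos).trans (mul_nonneg (mul_nonneg (by norm_num) (Real.exp_pos _).le)
      (Finset.prod_nonneg fun W _ => add_nonneg (dR_nonneg _ _ _) ?_))
    split_ifs
    · exact hε0
    · exact le_rfl

end dens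

end

end

end Pool.Agent.GMJR
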