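import Pool.Agent.GMJR.ScrD

/-!
# GMJR.ScrC: CL(K) for scripts, WITHOUT NOISE (helper75)

From the contract `CLS K κ` (GM/CL) and the 2B rounding of a raw label (GMJR/ScrD), one top:
**`cls_det`** : classes `U` with the bits of `CLS`, such that outside an event of mass `2 e` over the uniform law of `(x, y)`
the following holds at ALL times `t ≤ N`:
`mass in the cell of {x' : all classes and all labels without noise of the time t as at x} <
  2 e^K' * ∏ (relative densities of the classes) * ∏ l, (density of the label l in the classes of wL l + J/(Rz+1))`.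
`labD`, `allD` : the densities; `coldD` : the inequality; `ever_scF` : `ever` at the labels without noise.
`ClsHot`, **`cls_hot`** : the same with `hot` at the labels without noise.
-/

set_option autoImplicit false
set_option linter.unusedSectionVars false
set_option linter.unusedVariables false

namespace Pool.Agent.GMJR.ScrD

open Finset Pool.Agent.PWZ Pool.Agent.M3 Pool.Agent.GM Pool.Agent.GM.Harm
open Pool.Agent.M3.Mod (SzM)
open Pool.Agent.M3.S3 (avg law ent)

noncomputable section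

section ever

variable {K X β γ φ υ : Type} [Fintype K] [DecidableEq K] [Fintype X] [Fintype β] [Fintype φ] {N : ℕ}
  {tc : K → ℕ → X → (K → β) → Option φ}

/-- `ever` at the labels without noise -/
theorem ever_scF (D : HD K X β γ (Fin (N + 1) → Option φ)) (U : Finset K → ℕ → X → (K → β) → υ) (K' : ℝ) (T : ℕ)
    (x : X) (y : K → β) :
    ever D U (fun t _ => rst t) K' T (x, y, scF N tc T x y) ↔
      ∃ t ≤ T, hot D U K' t (x, y, scF N tc t x y) := by
  induction T with
  | zero =>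
    show hot D U K' 0 _ ↔ _
    constructor
    · exact fun h => ⟨0, le_rfl, h⟩
    · rintro ⟨t, ht, h⟩
      have : t = 0 := by omega
      rwa [this] at h
  | succ T ih =>
    have e1 : (fun l => rst T (scF N tc (T + 1) x y l)) = scF N tc T x y := funext fun l => rst_scF T x y l
    have e2 : ever D U (fun t _ => rst t) K' (T + 1) (x, y, scF N tc (T + 1) x y) ↔
        (hot D U K' (T + 1) (x, y, scF N tc (T + 1) x y) ∨
          ever D U (fun t _ => rst t) K' T (x, y, fun l => rst T (scF N tc (T + 1) x y l))) := Iff.rfl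
    rw [e2, e1, ih]
    constructor
    · rintro (h | ⟨t, ht, h⟩)
      · exact ⟨T + 1, le_rfl, h⟩
      · exact ⟨t, by omega, h⟩
    · rintro ⟨t, ht, h⟩
      rcases Nat.lt_or_ge T t with h1 | h1
      · have h2 : t = T + 1 := by omega
        rw [h2] at h
        exact Or.inl h
      · exact Or.inr ⟨t, h1, h⟩

end ever

section det

variable {K X β γ φ υ : Type} [Fintype K] [DecidableEq K] [Fintype X] [Fintype β] [Fintype φ]
  {N Rz J n0 : ℕ} {qa : ℕ → X → γ} {qb : ℕ → β → γ} {oc : K → ℕ → X → (K → β) → Prop}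
  {tc : K → ℕ → X → (K → β) → Option φ}

/-- density of the label `l` without noise on the classes known to it -/
def labD (D : HD K X β γ (Fin (N + 1) → Option φ)) (U : Finset K → ℕ → X → (K → β) → υ)
    (tc : K → ℕ → X → (K → β) → Option φ) (l : K) (t : ℕ) (x : X) (y : K → β) : ℝ :=
  avg (wL D U l t x y) fun x' => ind (scF N tc t x' y l = scF N tc t x y l)

/-- density of all classes and labels without noise in the cell -/
def allD (D : HD K X β γ (Fin (N + 1) → Option φ)) (U : Finset K → ℕ → X → (K → β) → υ)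
    (tc : K → ℕ → X → (K → β) → Option φ) (t : ℕ) (x : X) (y : K → β) : ℝ :=
  avg (D.cA t x) fun x' => ind ((∀ I ∈ JJ K, U I t x' y = U I t x y) ∧ scF N tc t x' y = scF N tc t x y)

/-- CLOSENESS without noise, error `e` of every label density -/
def coldD (D : HD K X β γ (Fin (N + 1) → Option φ)) (U : Finset K → ℕ → X → (K → β) → υ)
    (tc : K → ℕ → X → (K → β) → Option φ) (K' e : ℝ) (t : ℕ) (x : X) (y : K → β) : Prop :=
  allD D U tc t x y < 2 * Real.exp K' * ((∏ J ∈ JJ K, dJ D U J t x y) * ∏ l, (labD D U tc l t x y + e))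

theorem allD_eq (D : HD K X β γ (Fin (N + 1) → Option φ)) (U : Finset K → ℕ → X → (K → β) → υ) (t : ℕ) (x : X)
    (y : K → β) : allD D U tc t x y = ((vA D U t x y).card : ℝ) / (D.cA t x).card *
      avg (vA D U t x y) fun x' => ind (scF N tc t x' y = scF N tc t x y) := by
  classical
  have hv : (0 : ℝ) < (vA D U t x y).card := by
    exact_mod_cast Finset.card_pos.2 ⟨x, self_cls _ t x y⟩
  have h1 : ∑ x' ∈ D.cA t x, ind ((∀ I ∈ JJ K, U I t x' y = U I t x y) ∧ scF N tc t x' y = scF N tc t x y) =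
      ∑ x' ∈ vA D U t x y, ind (scF N tc t x' y = scF N tc t x y) := by
    have h2 : vA D U t x y = (D.cA t x).filter fun x' => ∀ I ∈ JJ K, U I t x' y = U I t x y := by
      ext z
      rw [Finset.mem_filter, mem_cA]
      exact mem_cls
    rw [h2, Finset.sum_filter]
    refine Finset.sum_congr rfl fun x' _ => ?_
    by_cases h3 : ∀ I ∈ JJ K, U I t x' y = U I t x y
    · rw [if_pos h3]
      by_cases h4 : scF N tc t x' y = scF N tc t x y
      · rw [ind_of ⟨h3, h4⟩, ind_of h4]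
      · rw [ind_not fun h => h4 h.2, ind_not h4]
    · rw [if_neg h3, ind_not fun h => h3 h.1]
  unfold allD avg
  rw [h1]
  field_simp

variable [Nonempty X] [Nonempty β]

/-- not hot: cold without noise -/
theorem cold_of_not_hot (C : Cel qa qb) (S : Scr qa qb oc tc) (hc : Capd J n0 oc tc) {t : ℕ} (ht : t ≤ N)
    (hJR : Fintype.card K * ((J : ℝ) / (Rz + 1)) ≤ 1 / 2) (U : Finset K → ℕ → X → (K → β) → υ) {K' : ℝ} {x : X}
    {y : K → β} (h : ¬ hot (datS Rz J n0 N C S) U K' t (x, y, scF N tc t x y)) :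
    coldD (datS Rz J n0 N C S) U tc K' ((J : ℝ) / (Rz + 1)) t x y := by
  unfold hot at h
  rw [not_le] at h
  unfold coldD
  rw [allD_eq]
  have h0 : (0 : ℝ) ≤ (J : ℝ) / (Rz + 1) := by positivity
  have h1 := pA_ge (Rz := Rz) C S hc ht y (scF N tc t x y) (vA (datS Rz J n0 N C S) U t x y)
  have hr : (0 : ℝ) ≤ ((vA (datS Rz J n0 N C S) U t x y).card : ℝ) / ((datS Rz J n0 N C S).cA t x).card := by
    positivity
  have ha : 0 ≤ avg (vA (datS Rz J n0 N C S) U t x y) fun x' => ind (scF N tc t x' y = scF N tc t x y) :=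
    avg_nonneg' fun _ _ => ind_nonneg _
  have h2 : (avg (vA (datS Rz J n0 N C S) U t x y) fun x' => ind (scF N tc t x' y = scF N tc t x y)) ≤
      2 * avg (vA (datS Rz J n0 N C S) U t x y) fun x' =>
        ∏ l, (datS Rz J n0 N C S).kf t l x' y (scF N tc t x y l) := by
    nlinarith
  have h3 : ((vA (datS Rz J n0 N C S) U t x y).card : ℝ) / ((datS Rz J n0 N C S).cA t x).card *
      (avg (vA (datS Rz J n0 N C S) U t x y) fun x' => ind (scF N tc t x' y = scF N tc t x y)) ≤
      2 * pA (datS Rz J n0 N C S) U t x y (scF N tc t x y) := by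
    refine (mul_le_mul_of_nonneg_left h2 hr).trans (le_of_eq ?_)
    unfold pA
    ring
  have h4 : ∏ l, pL (datS Rz J n0 N C S) U l t x y (scF N tc t x y l) ≤
      ∏ l, (labD (datS Rz J n0 N C S) U tc l t x y + (J : ℝ) / (Rz + 1)) := by
    refine Finset.prod_le_prod (fun l _ => avg_nonneg' fun _ _ => Nz.kr_nn _ _) fun l _ => ?_
    exact pL_le C S hc ht l y _ ⟨x, self_cls _ t x y⟩
  have h5 : 0 ≤ ∏ I ∈ JJ K, dJ (datS Rz J n0 N C S) U I t x y := Finset.prod_nonneg fun I _ => by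
    unfold dJ
    positivity
  have h6 := mul_le_mul_of_nonneg_left (mul_le_mul_of_nonneg_left h4 h5) (Real.exp_pos K').le
  have h7 : pA (datS Rz J n0 N C S) U t x y (scF N tc t x y) < Real.exp K' *
      ((∏ I ∈ JJ K, dJ (datS Rz J n0 N C S) U I t x y) *
        ∏ l, (labD (datS Rz J n0 N C S) U tc l t x y + (J : ℝ) / (Rz + 1))) := h.trans_le h6
  calc _ ≤ 2 * pA (datS Rz J n0 N C S) U t x y (scF N tc t x y) := h3
    _ < 2 * (Real.exp K' * ((∏ I ∈ JJ K, dJ (datS Rz J n0 N C S) U I t x y) *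
        ∏ l, (labD (datS Rz J n0 N C S) U tc l t x y + (J : ℝ) / (Rz + 1)))) := by linarith
    _ = _ := by ring

theorem EV_mono {f g : X → (K → β) → ℝ} (h : ∀ x y, f x y ≤ g x y) : EV f ≤ EV g :=
  avg_mono' fun x _ => avg_mono' fun y _ => h x y

theorem EV_nonneg {f : X → (K → β) → ℝ} (h : ∀ x y, 0 ≤ f x y) : 0 ≤ EV f :=
  avg_nonneg' fun x _ => avg_nonneg' fun y _ => h x y

/-- the event without noise -/
theorem ever_det (C : Cel qa qb) (S : Scr qa qb oc tc) (hc : Capd J n0 oc tc) {T : ℕ} (hT : T ≤ N)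
    (hJR : Fintype.card K * ((J : ℝ) / (Rz + 1)) ≤ 1 / 2) (U : Finset K → ℕ → X → (K → β) → υ) {K' al : ℝ}
    (h : (datS Rz J n0 N C S).Thick al) :
    EV (fun x y => ind (∃ t ≤ T, ¬ coldD (datS Rz J n0 N C S) U tc K' ((J : ℝ) / (Rz + 1)) t x y)) ≤
      2 * ((datS Rz J n0 N C S).P h T).Pr (ever (datS Rz J n0 N C S) U (fun t _ => rst t) K' T) := by
  have h1 := det_le (Rz := Rz) C S hc hT h (ever (datS Rz J n0 N C S) U (fun t _ => rst t) K' T)
  have h2 : EV (fun x y => ind (∃ t ≤ T, ¬ coldD (datS Rz J n0 N C S) U tc K' ((J : ℝ) / (Rz + 1)) t x y)) ≤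
      EV (fun x y => ind (ever (datS Rz J n0 N C S) U (fun t _ => rst t) K' T (x, y, scF N tc T x y))) := by
    refine EV_mono fun x y => ?_
    by_cases h3 : ∃ t ≤ T, ¬ coldD (datS Rz J n0 N C S) U tc K' ((J : ℝ) / (Rz + 1)) t x y
    · obtain ⟨t, ht, h4⟩ := h3
      rw [ind_of ⟨t, ht, h4⟩, ind_of]
      rw [ever_scF]
      refine ⟨t, ht, ?_⟩
      by_contra h5
      exact h4 (cold_of_not_hot C S hc (ht.trans hT) hJR U h5)
    · rw [ind_not h3]
      exact ind_nonneg _
  have h3 : 0 ≤ EV (fun x y => ind (ever (datS Rz J n0 N C S) U (fun t _ => rst t) K' T (x, y, scF N tc T x y))) :=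
    EV_nonneg fun _ _ => ind_nonneg _
  nlinarith

end det

/-- CL(K) FOR A RAW LABEL, WITHOUT NOISE, one top.  `M` = price, `N` = number of times -/
def ClsDet (K : Type) [Fintype K] [DecidableEq K] (κ : ℝ) (C0 : ℕ) : Prop :=
  ∀ (X β γ φ L : Type) [Fintype X] [Fintype β] [Fintype φ] [Nonempty X] [Nonempty β] [Nonempty φ]
    (qa : ℕ → X → γ) (qb : ℕ → β → γ) (C : Cel qa qb) (dg : ℕ → X → ℝ) (N : ℕ) (_ : Dig qa qb dg N)
    (R : K → ℕ → X → (K → β) → L) (en : K → ℕ → X → (K → β) → L → φ) (de : K → ℕ → X → (K → β) → φ → L)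
    (hR : DepR qb R) (hk : Code qa qb R en de) (al : ℝ) (Rz J n0 : ℕ) (Lam M : ℝ)
    (_ : SzM Rz J n0 (Fintype.card φ) Lam) (_ : (2 * Lam) ^ C0 ≤ M)
    (_ : Fintype.card K * ((J : ℝ) / (Rz + 1)) ≤ 1 / 2),
    ∃ (υ : Type) (U : Finset K → ℕ → X → (K → β) → υ),
      Sys (datS Rz J n0 N C (scrC (J := J) (n0 := n0) C (scrR (al := al) C hR hk))) U ∧
      (∀ I ∈ JJ K, bitsJ (datS Rz J n0 N C (scrC (J := J) (n0 := n0) C (scrR (al := al) C hR hk))) U N I ≤ M ^ C0) ∧
      EV (fun x y => ind (∃ t ≤ N, ¬ coldD (datS Rz J n0 N C (scrC (J := J) (n0 := n0) C (scrR (al := al) C hR hk))) U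
        (tcC J n0 (ocR qa R al) (tcR qa R en al)) (C0 * Real.log M) ((J : ℝ) / (Rz + 1)) t x y)) ≤
        2 * (C0 * Lam ^ C0 * M ^ (-κ))

/-- **CL(K) without noise from the contract** -/
theorem cls_det {K : Type} [Fintype K] [DecidableEq K] {κ : ℝ} (h : CLS K κ) : ∃ C0 : ℕ, ClsDet K κ C0 := by
  obtain ⟨C0, h⟩ := h
  refine ⟨C0, ?_⟩
  intro X β γ φ L _ _ _ _ _ _ qa qb C dg N hd R en de hR hk al Rz J n0 Lam M hs hM hJR
  have hth := thickS (J := J) (n0 := n0) (N := N) hs.R1 C (scrC (J := J) (n0 := n0) C (scrR (al := al) C hR hk))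
  obtain ⟨υ, U, hU⟩ := h X β γ (Fin (N + 1) → Option φ)
    (datS Rz J n0 N C (scrC (J := J) (n0 := n0) C (scrR (al := al) C hR hk))) (Nz.alz Rz J n0 (Fintype.card φ)) hth dg
    (fun t _ => rst t) N Lam M (hypS C _ hd hs) hM
  refine ⟨υ, U, hU.sys, hU.bits, ?_⟩
  have h1 := ever_det (Rz := Rz) C (scrC (J := J) (n0 := n0) C (scrR (al := al) C hR hk)) capC (le_refl N) hJR U
    (K' := C0 * Real.log M) hth
  have h2 := hU.cold
  linarith

/-! ### with `hot` -/

section hot

variable {K X β γ φ υ : Type} [Fintype K] [DecidableEq K] [Fintype X] [Fintype β] [Fintype φ] [Nonempty X]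
  [Nonempty β] {N Rz J n0 : ℕ} {qa : ℕ → X → γ} {qb : ℕ → β → γ} {oc : K → ℕ → X → (K → β) → Prop}
  {tc : K → ℕ → X → (K → β) → Option φ}

/-- hot at the labels without noise, at some time -/
theorem ever_hot (C : Cel qa qb) (S : Scr qa qb oc tc) (hc : Capd J n0 oc tc) {T : ℕ} (hT : T ≤ N)
    (hJR : Fintype.card K * ((J : ℝ) / (Rz + 1)) ≤ 1 / 2) (U : Finset K → ℕ → X → (K → β) → υ) {K' al : ℝ}
    (h : (datS Rz J n0 N C S).Thick al) :
    EV (fun x y => ind (∃ t ≤ T, hot (datS Rz J n0 N C S) U K' t (x, y, scF N tc t x y))) ≤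
      2 * ((datS Rz J n0 N C S).P h T).Pr (ever (datS Rz J n0 N C S) U (fun t _ => rst t) K' T) := by
  have h1 := det_le (Rz := Rz) C S hc hT h (ever (datS Rz J n0 N C S) U (fun t _ => rst t) K' T)
  have h2 : EV (fun x y => ind (∃ t ≤ T, hot (datS Rz J n0 N C S) U K' t (x, y, scF N tc t x y))) =
      EV (fun x y => ind (ever (datS Rz J n0 N C S) U (fun t _ => rst t) K' T (x, y, scF N tc T x y))) := by
    unfold EV
    refine avg_congr' fun x _ => avg_congr' fun y _ => ?_
    exact congrArg ind (propext (ever_scF (tc := tc) (datS Rz J n0 N C S) U K' T x y)).symm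
  have h3 : 0 ≤ EV (fun x y => ind (ever (datS Rz J n0 N C S) U (fun t _ => rst t) K' T (x, y, scF N tc T x y))) :=
    EV_nonneg fun _ _ => ind_nonneg _
  rw [h2]
  nlinarith

end hot

/-- CL(K) FOR A RAW LABEL, hot times at the labels without noise, one top -/
def ClsHot (K : Type) [Fintype K] [DecidableEq K] (κ : ℝ) (C0 : ℕ) : Prop :=
  ∀ (X β γ φ L : Type) [Fintype X] [Fintype β] [Fintype φ] [Nonempty X] [Nonempty β] [Nonempty φ]
    (qa : ℕ → X → γ) (qb : ℕ → β → γ) (C : Cel qa qb) (dg : ℕ → X → ℝ) (N : ℕ) (_ : Dig qa qb dg N)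
    (R : K → ℕ → X → (K → β) → L) (en : K → ℕ → X → (K → β) → L → φ) (de : K → ℕ → X → (K → β) → φ → L)
    (hR : DepR qb R) (hk : Code qa qb R en de) (al : ℝ) (Rz J n0 : ℕ) (Lam M : ℝ)
    (_ : SzM Rz J n0 (Fintype.card φ) Lam) (_ : (2 * Lam) ^ C0 ≤ M)
    (_ : Fintype.card K * ((J : ℝ) / (Rz + 1)) ≤ 1 / 2),
    ∃ (υ : Type) (U : Finset K → ℕ → X → (K → β) → υ),
      Sys (datS Rz J n0 N C (scrC (J := J) (n0 := n0) C (scrR (al := al) C hR hk))) U ∧
      (∀ I ∈ JJ K, bitsJ (datS Rz J n0 N C (scrC (J := J) (n0 := n0) C (scrR (al := al) C hR hk))) U N I ≤ M ^ C0) ∧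
      EV (fun x y => ind (∃ t ≤ N, hot (datS Rz J n0 N C (scrC (J := J) (n0 := n0) C (scrR (al := al) C hR hk))) U
        (C0 * Real.log M) t (x, y, scF N (tcC J n0 (ocR qa R al) (tcR qa R en al)) t x y))) ≤
        2 * (C0 * Lam ^ C0 * M ^ (-κ))

/-- **CL(K) for a raw label from the contract** -/
theorem cls_hot {K : Type} [Fintype K] [DecidableEq K] {κ : ℝ} (h : CLS K κ) : ∃ C0 : ℕ, ClsHot K κ C0 := by
  obtain ⟨C0, h⟩ := h
  refine ⟨C0, ?_⟩
  intro X β γ φ L _ _ _ _ _ _ qa qb C dg N hd R en de hR hk al Rz J n0 Lam M hs hM hJR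
  have hth := thickS (J := J) (n0 := n0) (N := N) hs.R1 C (scrC (J := J) (n0 := n0) C (scrR (al := al) C hR hk))
  obtain ⟨υ, U, hU⟩ := h X β γ (Fin (N + 1) → Option φ)
    (datS Rz J n0 N C (scrC (J := J) (n0 := n0) C (scrR (al := al) C hR hk))) (Nz.alz Rz J n0 (Fintype.card φ)) hth dg
    (fun t _ => rst t) N Lam M (hypS C _ hd hs) hM
  refine ⟨υ, U, hU.sys, hU.bits, ?_⟩
  have h1 := ever_hot (Rz := Rz) C (scrC (J := J) (n0 := n0) C (scrR (al := al) C hR hk)) capC (le_refl N) hJR U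
    (K' := C0 * Real.log M) hth
  have h2 := hU.cold
  linarith

end

end Pool.Agent.GMJR.ScrD
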