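import Pool.Agent.GMJR.WDT
import Pool.Agent.GMJR.ScrC
import Pool.Agent.GMN.TjSide

/-!
# GMJR/HdT0 (helper75): the data of one top, the values at the true point

Top of `w0 : Om`, hidden points `XT w0`.
* `qaT`, `qbT`, `dgT` : hidden cells and known cells (two HD times for one node), digits; `celT`, `digT`;
* `RT` : the raw label of the world at the points `D.pt w0 x y`, HD time `τ`, node `τ / 2`; `depT`;
* `atW f w` : the value of a function of the points of the tops at the TRUE POINT of `w`; `atW_FD`; `E_atW` : mean on a top;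
  `E_atW_le`, `E_atW_le_const` : comparison of the means from the tops;
* `ce_atW` : conditional mean given `FW univ t` = average over the hidden cell;
* `RT_at` : the raw label at the true point;  `nch_le` : its number of changes;
* `rcW`, `valsW`, `ovfW` : recorded value, all recorded values, overflow (codes do not matter: `ovfS_iff`) at the true point.
-/

set_option autoImplicit false
set_option linter.unusedSectionVars false
set_option linter.unusedVariables false

namespace Pool.Agent.GMJR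

open Finset Pool.Agent.PWZ Pool.Agent.M3 Pool.Agent.GMN
open Pool.Agent.M3.S3 (avg)
open Pool.Agent.GM (avg_mono' avg_const' avg_congr' avg_swap avg_sum')
open Pool.Agent.GM.Harm (EV)

noncomputable section

variable {Om Tp K β X γ δ Γ : Type} [Fintype Om] [Fintype K] [DecidableEq K] [Fintype β] [Fintype X]

namespace WD

variable (D : WD Om Tp K β X γ δ Γ)

/-! ### cells and digits -/

/-- hidden cells -/
def qaT (w0 : Om) (τ : ℕ) (x : D.XT w0) : γ ⊕ δ := .inl (D.qa τ x.1)

/-- known cells -/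
def qbT (τ : ℕ) (b : β) : γ ⊕ δ := .inr (D.cl (τ / 2) b)

/-- digits -/
def dgT (w0 : Om) (τ : ℕ) (x : D.XT w0) : ℝ := D.dg τ x.1

variable {D}

theorem qaT_eq {w0 : Om} {τ : ℕ} {x x' : D.XT w0} : D.qaT w0 τ x = D.qaT w0 τ x' ↔ D.qa τ x.1 = D.qa τ x'.1 :=
  ⟨fun h => Sum.inl_injective h, fun h => congrArg Sum.inl h⟩

theorem qbT_eq {τ : ℕ} {b b' : β} : D.qbT τ b = D.qbT τ b' ↔ D.cl (τ / 2) b = D.cl (τ / 2) b' :=
  ⟨fun h => Sum.inr_injective h, fun h => congrArg Sum.inr h⟩

theorem celT (w0 : Om) : ScrD.Cel (D.qaT w0) D.qbT where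
  ra := fun t x x' h => qaT_eq.2 (D.ra t _ _ (qaT_eq.1 h))
  rb := fun t b b' h => qbT_eq.2 (D.cl_le (by omega) (qbT_eq.1 h))

theorem digT (w0 : Om) : ScrD.Dig (D.qaT w0) D.qbT (D.dgT w0) (2 * D.n) where
  val := fun t x => D.dg_val t x.1
  cell := fun t ht x x' => by
    rw [qaT_eq, qaT_eq]
    exact D.dg_cell t ht x.1 x'.1
  bal := fun t ht x => by
    classical
    have h1 := D.dg_bal t ht w0 x.1 x.2
    rw [← h1]
    unfold ScrD.cl
    rw [Finset.sum_filter]
    have h2 : ∑ x' ∈ D.sp (D.top w0), ind (D.qa t x' = D.qa t x.1) * D.dg t x' =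
        ∑ x' : D.XT w0, ind (D.qa t x'.1 = D.qa t x.1) * D.dg t x'.1 :=
      (Finset.sum_coe_sort (D.sp (D.top w0)) fun x' => ind (D.qa t x' = D.qa t x.1) * D.dg t x').symm
    rw [h2]
    refine Finset.sum_congr rfl fun x' _ => ?_
    by_cases h : D.qa t x'.1 = D.qa t x.1
    · rw [if_pos (qaT_eq.2 h), ind_of h, one_mul]
      rfl
    · rw [if_neg fun h' => h (qaT_eq.1 h'), ind_not h, zero_mul]
  half := fun t ht => by
    classical
    rcases Nat.even_or_odd t with he | ho
    · left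
      obtain ⟨s, hs⟩ := he
      intro b
      ext b'
      rw [ScrD.mem_cl, ScrD.mem_cl, qbT_eq, qbT_eq, show (t + 1) / 2 = t / 2 by omega]
    · obtain ⟨s, hs⟩ := ho
      subst hs
      have e1 : (2 * s + 1 + 1) / 2 = s + 1 := by omega
      have e2 : (2 * s + 1) / 2 = s := by omega
      rcases D.half s (by omega) with h | h
      · left
        intro b
        ext b'
        rw [ScrD.mem_cl, ScrD.mem_cl, qbT_eq, qbT_eq, e1, e2]
        exact h b b'
      · right
        intro b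
        have hc : ∀ τ, ((ScrD.cl (D.qbT τ) b).card : ℝ) = ∑ b', ind (D.cl (τ / 2) b' = D.cl (τ / 2) b) := by
          intro τ
          rw [Nz.sum_ind_card (fun b' => D.cl (τ / 2) b' = D.cl (τ / 2) b) (ScrD.cl (D.qbT τ) b) fun b' => by
            rw [ScrD.mem_cl, qbT_eq]]
        have h4 : 2 * ((ScrD.cl (D.qbT (2 * s + 1 + 1)) b).card : ℝ) = ((ScrD.cl (D.qbT (2 * s + 1)) b).card : ℝ) := by
          rw [hc, hc, e1, e2]
          exact h b
        exact_mod_cast h4

/-! ### the raw label -/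

variable (L : WL D)

/-- the raw label at the points of the top -/
def RT (w0 : Om) (l : K) (τ : ℕ) (x : D.XT w0) (y : K → β) : Finset ℕ := L.R l (min (τ / 2) D.n) (D.pt w0 x y)

theorem depT (w0 : Om) : ScrD.DepR D.qbT (RT L w0) := by
  intro l t x y y' hy hl
  refine L.Rdep l (min (t / 2) D.n) _ _ ((pt_top _ _ _).trans (pt_top _ _ _).symm) (fun j hj => ?_) ?_
    ((pt_hx _ _ _).trans (pt_hx _ _ _).symm)
  · rw [pt_y, pt_y]
    exact hy j hj
  · rw [pt_y, pt_y]
    exact D.cl_le (min_le_left _ _) (qbT_eq.1 hl)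

/-! ### values at the true point -/

variable (D) in
/-- the value at the true point -/
def atW {α : Type*} (f : (w0 : Om) → D.XT w0 → (K → β) → α) (w : Om) : α := f (D.rep w) (hr w) (D.y w)

theorem at_eq {α : Type*} (f : (w0 : Om) → D.XT w0 → (K → β) → α) {a b : Om} (hab : a = b) {x : D.XT a} {x' : D.XT b}
    (hx : x.1 = x'.1) (y : K → β) : f a x y = f b x' y := by
  subst hab
  rw [show x = x' from Subtype.ext hx]

theorem atW_FD {α : Type*} (f : (w0 : Om) → D.XT w0 → (K → β) → α) : D.FD (D.atW f) := by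
  intro v w h1 h2 h3
  unfold atW
  rw [h2]
  exact at_eq f (rep_eq h1) h3 (D.y w)

theorem atW_pt {α : Type*} (f : (w0 : Om) → D.XT w0 → (K → β) → α) (w : Om) (x : D.XT (D.rep w)) (y : K → β) :
    D.atW f (D.pt (D.rep w) x y) = f (D.rep w) x y := by
  unfold atW
  rw [pt_y]
  refine at_eq f (rep_eq ((pt_top _ _ _).trans (top_rep w))) ?_ y
  exact pt_hx _ _ _

/-- **mean on a top** -/
theorem E_atW (f : (w0 : Om) → D.XT w0 → (K → β) → ℝ) (w : Om) :
    D.P.E (fun v => ind (D.top v = D.top w) * D.atW f v) =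
      D.P.Pr (fun v => D.top v = D.top w) * EV (f (D.rep w)) := by
  rw [← top_rep w, D.E_fib (D.rep w) (atW_FD f)]
  congr 1
  unfold EV
  refine avg_congr' fun x _ => avg_congr' fun y _ => ?_
  exact atW_pt f w x y

theorem E_atW_le {f g : (w0 : Om) → D.XT w0 → (K → β) → ℝ} (h : ∀ w, EV (f (D.rep w)) ≤ EV (g (D.rep w))) :
    D.P.E (D.atW f) ≤ D.P.E (D.atW g) := by
  refine E_le_fib D.P D.top fun w => ?_
  rw [E_atW, E_atW]
  exact mul_le_mul_of_nonneg_left (h w) (D.P.Pr_nonneg _)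

theorem ne_X (w0 : Om) : Nonempty (D.XT w0) := ⟨⟨D.hx w0, D.hx_sp w0⟩⟩

theorem EV_const (w0 : Om) (c : ℝ) : EV (fun (_ : D.XT w0) (_ : K → β) => c) = c := by
  have := ne_X (D := D) w0
  have : Nonempty (K → β) := ⟨D.y w0⟩
  unfold EV
  rw [show (fun _ : D.XT w0 => avg univ (fun _ : K → β => c)) = fun _ => c from
    funext fun _ => avg_const' Finset.univ_nonempty c]
  exact avg_const' Finset.univ_nonempty c

theorem E_atW_le_const {f : (w0 : Om) → D.XT w0 → (K → β) → ℝ} {c : ℝ} (h : ∀ w, EV (f (D.rep w)) ≤ c) :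
    D.P.E (D.atW f) ≤ c := by
  have h1 := E_atW_le (f := f) (g := fun _ _ _ => c) fun w => (h w).trans (le_of_eq (EV_const _ c).symm)
  refine h1.trans (le_of_eq ?_)
  exact D.P.E_const c

theorem EV_swap (w0 : Om) (f : D.XT w0 → (K → β) → ℝ) : EV f = avg univ fun y => avg univ fun x => f x y := by
  unfold EV
  exact avg_swap univ univ f

/-! ### the hidden cell at the true point -/

/-- averages over the hidden cell do not depend on the representative -/
theorem avg_base {w0 w : Om} (h : D.top w0 = D.top w) {t : ℕ} {f : Om → ℝ} (hf : D.FD f) (x0 : D.XT w0) (x : D.XT w)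
    (hx : x0.1 = x.1) (y : K → β) :
    avg (D.cX w t x) (fun x' => f (D.pt w x' y)) =
      avg (ScrD.cl (D.qaT w0 (2 * t)) x0) (fun x' => f (D.pt w0 x' y)) := by
  classical
  have key : ∀ g : Om → ℝ, D.FD g → ∑ x' ∈ D.cX w t x, g (D.pt w x' y) =
      ∑ x' ∈ ScrD.cl (D.qaT w0 (2 * t)) x0, g (D.pt w0 x' y) := by
    intro g hg
    refine Finset.sum_bij (fun x' _ => (⟨x'.1, by rw [h]; exact x'.2⟩ : D.XT w0)) ?_ ?_ ?_ ?_
    · intro x' hx'
      rw [ScrD.mem_cl, qaT_eq]
      rw [hx]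
      exact mem_cX.1 hx'
    · intro a _ b _ hab
      exact Subtype.ext (congrArg (fun z : D.XT w0 => z.1) hab)
    · intro b hb
      refine ⟨⟨b.1, by rw [← h]; exact b.2⟩, ?_, rfl⟩
      rw [mem_cX]
      rw [ScrD.mem_cl, qaT_eq, hx] at hb
      exact hb
    · intro x' _
      refine hg _ _ ((pt_top _ _ _).trans (h.symm.trans (pt_top _ _ _).symm)) ?_ ?_
      · rw [pt_y, pt_y]
      · rw [pt_hx, pt_hx]
  unfold avg
  rw [key f hf]
  congr 1
  have h2 := key (fun _ => 1) (fun _ _ _ _ _ => rfl)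
  rw [Finset.sum_const, Finset.sum_const, nsmul_eq_mul, nsmul_eq_mul, mul_one, mul_one] at h2
  exact h2

/-- **conditional mean given the hidden cell and all known points** -/
theorem ce_atW (t : ℕ) (f : (w0 : Om) → D.XT w0 → (K → β) → ℝ) (w : Om) :
    D.P.ce (D.FW univ t) (D.atW f) w =
      avg (ScrD.cl (D.qaT (D.rep w) (2 * t)) (hr w)) (fun x' => f (D.rep w) x' (D.y w)) := by
  have hf : D.FDW univ t (D.atW f) := fun v u h1 h2 _ h4 =>
    atW_FD f v u h1 (funext fun j => h2 j (Finset.mem_univ j)) h4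
  rw [ce_FW hf w, avg_base (top_rep w) (atW_FD f) (hr w) ⟨D.hx w, D.hx_sp w⟩ rfl (D.y w)]
  exact avg_congr' fun x' _ => atW_pt f w x' (D.y w)

/-! ### the raw label at the true point -/

/-- the raw label at the true point -/
theorem RT_at (u : K) (τ : ℕ) (w : Om) : RT L (D.rep w) u τ (hr w) (D.y w) = L.R u (min (τ / 2) D.n) w := by
  unfold RT
  refine L.Rdep u (min (τ / 2) D.n) _ _ ((pt_top _ _ _).trans (top_rep w)) (fun j _ => ?_) ?_ (pt_hx _ _ _)
  · rw [pt_y]
  · rw [pt_y]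

theorem RT_at' (u : K) {t : ℕ} (ht : t ≤ D.n) (w : Om) : RT L (D.rep w) u (2 * t) (hr w) (D.y w) = L.R u t w := by
  rw [RT_at, show 2 * t / 2 = t by omega, min_eq_left ht]

/-- NUMBER OF CHANGES of the raw label, HD times -/
theorem nch_le (u : K) :
    D.P.E (D.atW fun w0 x y => ((ScrD.nch (RT L w0) u (2 * D.n) x y : ℕ) : ℝ)) ≤ L.n2 := by
  classical
  refine le_trans (le_of_eq ?_) (L.Rchg u)
  have h1 : ∀ w, D.atW (fun w0 x y => ((ScrD.nch (RT L w0) u (2 * D.n) x y : ℕ) : ℝ)) w =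
      ∑ t ∈ range D.n, ind (L.R u (t + 1) w ≠ L.R u t w) := by
    intro w
    have h3 : ∀ n ≤ D.n, ((Nz.cn (fun τ => RT L (D.rep w) u (τ + 1) (hr w) (D.y w) ≠ RT L (D.rep w) u τ (hr w) (D.y w))
        (2 * n) : ℕ) : ℝ) = ∑ t ∈ range n, ind (L.R u (t + 1) w ≠ L.R u t w) := by
      intro n
      rw [cn_eq_sum]
      induction n with
      | zero => intro _; rfl
      | succ n ih =>
        intro hn
        rw [show 2 * (n + 1) = 2 * n + 1 + 1 by ring, Finset.sum_range_succ, Finset.sum_range_succ, ih (by omega),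
          Finset.sum_range_succ]
        have e1 : ind (RT L (D.rep w) u (2 * n + 1) (hr w) (D.y w) ≠ RT L (D.rep w) u (2 * n) (hr w) (D.y w)) = 0 := by
          rw [ind_not]
          rw [RT_at, RT_at, show (2 * n + 1) / 2 = 2 * n / 2 by omega]
          exact fun h => h rfl
        have e2 : ind (RT L (D.rep w) u (2 * n + 1 + 1) (hr w) (D.y w) ≠ RT L (D.rep w) u (2 * n + 1) (hr w) (D.y w)) =
            ind (L.R u (n + 1) w ≠ L.R u n w) := by
          rw [RT_at, RT_at, show (2 * n + 1 + 1) / 2 = n + 1 by omega, show (2 * n + 1) / 2 = n by omega,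
            min_eq_left hn, min_eq_left (by omega : n ≤ D.n)]
        rw [e1, e2, add_zero]
    exact h3 D.n le_rfl
  rw [show D.atW (fun w0 x y => ((ScrD.nch (RT L w0) u (2 * D.n) x y : ℕ) : ℝ)) =
    fun w => ∑ t ∈ range D.n, ind (L.R u (t + 1) w ≠ L.R u t w) from funext h1, D.P.E_sum]
  rfl

/-! ### the recorded values and the overflow at the true point -/

/-- recorded value at the true point, HD time `τ` -/
def rcW (al : ℝ) (u : K) (τ : ℕ) (w : Om) : Finset ℕ :=
  ScrD.rc (D.qaT (D.rep w)) (RT L (D.rep w)) al u τ (hr w) (D.y w)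

/-- all recorded values at the true point up to the HD time `τ` -/
def valsW (al : ℝ) (u : K) (τ : ℕ) (w : Om) : Finset (Finset ℕ) :=
  ScrD.vals (D.qaT (D.rep w)) (RT L (D.rep w)) al u τ (hr w) (D.y w)

/-- overflow at the points of a top, without codes -/
def ovfU (al : ℝ) (J n0 : ℕ) (u : K) (τ : ℕ) (w0 : Om) (x : D.XT w0) (y : K → β) : Prop :=
  J < Nz.cn (fun s => ScrD.ocR (D.qaT w0) (RT L w0) al u s x y) (τ + 1) ∨
    n0 < Nz.cn (fun s => ScrD.upR (D.qaT w0) (RT L w0) al u s x y) (τ + 1)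

/-- overflow at the true point -/
def ovfW (al : ℝ) (J n0 : ℕ) (u : K) (τ : ℕ) (w : Om) : Prop := ovfU L al J n0 u τ (D.rep w) (hr w) (D.y w)

theorem ovfS_iff {φ : Type} {al : ℝ} {J n0 : ℕ} {u : K} {τ : ℕ} {w0 : Om} {x : D.XT w0} {y : K → β}
    (en : K → ℕ → D.XT w0 → (K → β) → Finset ℕ → φ) :
    ScrD.ovfS J n0 (ScrD.ocR (D.qaT w0) (RT L w0) al) (ScrD.tcR (D.qaT w0) (RT L w0) en al) u τ x y ↔
      ovfU L al J n0 u τ w0 x y := by
  have e0 : Nz.cn (fun s => ScrD.tcR (D.qaT w0) (RT L w0) en al u s x y ≠ none) (τ + 1) =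
      Nz.cn (fun s => ScrD.upR (D.qaT w0) (RT L w0) al u s x y) (τ + 1) := Nz.cn_congr fun s _ => ScrD.tcR_ne
  unfold ScrD.ovfS ovfU
  rw [e0]

theorem ovfW_mono {al : ℝ} {J n0 : ℕ} {u : K} {σ τ : ℕ} (h : σ ≤ τ) {w : Om} (hw : ovfW L al J n0 u σ w) :
    ovfW L al J n0 u τ w := by
  rcases hw with hw | hw
  · exact Or.inl (hw.trans_le (Nz.cn_mono _ (by omega)))
  · exact Or.inr (hw.trans_le (Nz.cn_mono _ (by omega)))

end WD

end

end Pool.Agent.GMJR
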