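import Pool.Agent.GMJR.ClsC
import Pool.Agent.GMJR.HdT0

/-!
# GMJR/ClsL (helper52): the recorded codes of the capped scripts

`HL L en de hk al Rz J n0 w0` = the data of ScrD on the top of `w0` (cells `qaT`, `qbT`, raw label `RT L`, codes `en`, `de`).
`labS` : the structure `LabS`; `Lc u t w` = the codes in the values which are decoded from the capped script without noise.
* `Lc_cum`, `Lc_card` : at most `n0 * L.n1` codes at every point;
* `Lc_rec` : off the overflow, if the raw label is the recorded value, then the true codes are recorded.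
-/

set_option autoImplicit false
set_option linter.unusedSectionVars false

namespace Pool.Agent.GMJR

open Finset Pool.Agent.PWZ Pool.Agent.M3 Pool.Agent.GMN Pool.Agent.GM.Harm

noncomputable section

variable {Om Tp K β X γ δ Γ : Type} [Fintype Om] [Fintype K] [DecidableEq K] [Fintype β] [Fintype X]
  {D : WD Om Tp K β X γ δ Γ} (L : WL D) {φ : Type} [Fintype φ]
  {en : (w0 : Om) → K → ℕ → D.XT w0 → (K → β) → Finset ℕ → φ}
  {de : (w0 : Om) → K → ℕ → D.XT w0 → (K → β) → φ → Finset ℕ}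
  (hk : ∀ w0, ScrD.Code (D.qaT w0) D.qbT (WD.RT L w0) (en w0) (de w0)) (al : ℝ) (Rz J n0 : ℕ)

/-- the data of a top -/
def HL (w0 : Om) : HD K (D.XT w0) β (γ ⊕ δ) (Fin (2 * D.n + 1) → Option φ) :=
  ScrD.datS Rz J n0 (2 * D.n) (WD.celT w0) (ScrD.scrC (J := J) (n0 := n0) (WD.celT w0)
    (ScrD.scrR (al := al) (WD.celT w0) (WD.depT L w0) (hk w0)))

/-- the capped components -/
def tcL (en : (w0 : Om) → K → ℕ → D.XT w0 → (K → β) → Finset ℕ → φ) (w0 : Om) :
    K → ℕ → D.XT w0 → (K → β) → Option φ :=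
  ScrD.tcC J n0 (ScrD.ocR (D.qaT w0) (WD.RT L w0) al) (ScrD.tcR (D.qaT w0) (WD.RT L w0) (en w0) al)

theorem cells_HL : D.Cells (HL L hk al Rz J n0) where
  qa := fun _ _ _ _ => WD.qaT_eq
  qb := fun _ _ _ _ => WD.qbT_eq

/-- the labels -/
def labS (Q : ℕ) : LabS D (HL L hk al Rz J n0) Q ((J : ℝ) / (Rz + 1)) where
  sF := fun w0 τ x y => ScrD.scF (2 * D.n) (tcL L al J n0 en w0) τ x y
  Qf := fun w0 l τ x y p F => ∃ a ∈ ScrD.dec (de w0) l τ x y F, p.1 ∈ a
  sF_dep := fun w0 l τ x y y' hy hl => by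
    funext s
    unfold ScrD.scF ScrD.scf
    by_cases hs : s.val ≤ τ
    · rw [if_pos hs, if_pos hs]
      exact (ScrD.scrC (J := J) (n0 := n0) (WD.celT w0)
        (ScrD.scrR (al := al) (WD.celT w0) (WD.depT L w0) (hk w0))).tc l s.val x y y' hy
        ((WD.celT w0).qb_le hs hl)
    · rw [if_neg hs, if_neg hs]
  Q_dep := fun w0 l τ x x' y y' p F hy hx hl => by
    have h : ScrD.dec (de w0) l τ x y F = ScrD.dec (de w0) l τ x' y' F :=
      ScrD.dec_node (WD.celT w0) (hk w0) hy hx hl F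
    rw [h]
  nn := fun _ _ _ _ _ _ => Nz.kr_nn _ _
  sum := fun w0 l τ hτ x y g g0 g1 => by
    have := WD.ne_X (D := D) w0
    have : Nonempty β := ⟨D.y w0 l⟩
    exact ScrD.sum_le (WD.celT w0) (ScrD.scrC (J := J) (n0 := n0) (WD.celT w0)
      (ScrD.scrR (al := al) (WD.celT w0) (WD.depT L w0) (hk w0))) ScrD.capC hτ l x y g0 g1
  ge := fun w0 l τ hτ x y => by
    have := WD.ne_X (D := D) w0
    have : Nonempty β := ⟨D.y w0 l⟩
    exact ScrD.kf_ge (WD.celT w0) (ScrD.scrC (J := J) (n0 := n0) (WD.celT w0)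
      (ScrD.scrR (al := al) (WD.celT w0) (WD.depT L w0) (hk w0))) ScrD.capC hτ l x y

variable {L al Rz J n0}

theorem has_iff {Q : ℕ} {w0 : Om} {u : K} {τ : ℕ} (hτ : τ ≤ 2 * D.n) {x : D.XT w0} {y : K → β} {p : Fin Q} :
    (labS L hk al Rz J n0 Q).has w0 u τ x y p ↔
      ∃ s ≤ τ, ∃ c, tcL L al J n0 en w0 u s x y = some c ∧ p.1 ∈ de w0 u s x y c := by
  show (∃ a ∈ ScrD.dec (de w0) u τ x y (ScrD.scF (2 * D.n) (tcL L al J n0 en w0) τ x y u), p.1 ∈ a) ↔ _
  constructor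
  · rintro ⟨a, ha, hp⟩
    obtain ⟨s, hs, c, h1, h2⟩ := ScrD.mem_dec.1 ha
    rw [ScrD.sF_scF hτ hs] at h1
    exact ⟨s, hs, c, h1, by rw [h2]; exact hp⟩
  · rintro ⟨s, hs, c, h1, hp⟩
    exact ⟨_, ScrD.mem_dec.2 ⟨s, hs, c, by rw [ScrD.sF_scF hτ hs]; exact h1, rfl⟩, hp⟩

theorem Lc_cum (Q : ℕ) (u : K) (i : ℕ) (w : Om) :
    (labS L hk al Rz J n0 Q).Lc u i w ⊆ (labS L hk al Rz J n0 Q).Lc u (i + 1) w := by
  intro p hp
  rw [LabS.mem_Lc, has_iff hk (by omega)] at hp ⊢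
  obtain ⟨s, hs, c, h1, h2⟩ := hp
  exact ⟨s, by omega, c, h1, h2⟩

include hk in
/-- a decoded value of the capped script is a raw label -/
theorem de_tcL {w0 : Om} {u : K} {s : ℕ} {x : D.XT w0} {y : K → β} {c : φ}
    (h : tcL L al J n0 en w0 u s x y = some c) : de w0 u s x y c = WD.RT L w0 u s x y := by
  have h3 := ScrD.tcC_some h
  have h4 : ScrD.upR (D.qaT w0) (WD.RT L w0) al u s x y :=
    (ScrD.tcR_ne (en := en w0)).1 (by rw [h3]; exact Option.some_ne_none c)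
  rw [ScrD.tcR_of h4] at h3
  have h5 : en w0 u s x y (WD.RT L w0 u s x y) = c := Option.some_injective _ h3
  rw [← h5, (hk w0).inv]

theorem Lc_card (Q : ℕ) (u : K) (w : Om) : ((labS L hk al Rz J n0 Q).Lc u D.n w).card ≤ n0 * L.n1 := by
  classical
  set A : Finset ℕ := (range (2 * D.n + 1)).filter fun s => tcL L al J n0 en (D.rep w) u s (D.hr w) (D.y w) ≠ none with hA
  have h1 : A.card ≤ n0 := by
    have h2 := (ScrD.capC (J := J) (n0 := n0) (oc := ScrD.ocR (D.qaT (D.rep w)) (WD.RT L (D.rep w)) al)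
      (tc := ScrD.tcR (D.qaT (D.rep w)) (WD.RT L (D.rep w)) (en (D.rep w)) al)).n u (D.hr w) (D.y w) (2 * D.n + 1)
    refine le_trans (le_of_eq ?_) h2
    unfold Nz.cn
    rw [hA]
    refine congrArg Finset.card ?_
    ext s
    simp only [Finset.mem_filter]
    exact Iff.rfl
  have h2 : (labS L hk al Rz J n0 Q).Lc u D.n w ⊆ A.biUnion fun s =>
      (univ : Finset (Fin Q)).filter fun p => p.1 ∈ WD.RT L (D.rep w) u s (D.hr w) (D.y w) := by
    intro p hp
    rw [LabS.mem_Lc, min_self, has_iff hk le_rfl] at hp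
    obtain ⟨s, hs, c, h3, h4⟩ := hp
    refine Finset.mem_biUnion.2 ⟨s, Finset.mem_filter.2 ⟨Finset.mem_range.2 (by omega), ?_⟩,
      Finset.mem_filter.2 ⟨mem_univ _, ?_⟩⟩
    · rw [h3]
      exact Option.some_ne_none c
    · rw [← de_tcL hk h3]
      exact h4
  refine (Finset.card_le_card h2).trans (Finset.card_biUnion_le.trans ?_)
  refine le_trans (Finset.sum_le_card_nsmul A _ L.n1 fun s _ => ?_) ?_
  · refine le_trans (Finset.card_le_card_of_injOn (fun p => p.1) (fun p hp => (Finset.mem_filter.1 hp).2)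
      fun p _ p' _ h => Fin.ext h) (L.Rcard u (min (s / 2) D.n) (min_le_right _ _) _)
  · rw [smul_eq_mul]
    exact Nat.mul_le_mul_right _ h1

/-- off the overflow, if the raw label is the recorded value, then the true codes are recorded -/
theorem Lc_rec {Q : ℕ} {u : K} {t : ℕ} (ht : t ≤ D.n) {v : Om} (ho : ¬ WD.ovfW L al J n0 u (2 * t) v)
    (hr : L.R u t v = WD.rcW L al u (2 * t) v) {p : ℕ} (hp : p ∈ L.tr u t v) (hQ : p < Q) :
    ∃ p' ∈ (labS L hk al Rz J n0 Q).Lc u t v, p'.1 = p := by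
  refine ⟨⟨p, hQ⟩, ?_, rfl⟩
  rw [LabS.mem_Lc, min_eq_left ht]
  have h1 : ¬ ScrD.ovfS J n0 (ScrD.ocR (D.qaT (D.rep v)) (WD.RT L (D.rep v)) al)
      (ScrD.tcR (D.qaT (D.rep v)) (WD.RT L (D.rep v)) (en (D.rep v)) al) u (2 * t) (D.hr v) (D.y v) := fun h =>
    ho ((WD.ovfS_iff L (en (D.rep v))).1 h)
  have h2 := ScrD.dec_eq (hk (D.rep v)) (N := 2 * D.n) (by omega : 2 * t ≤ 2 * D.n) h1
  show ∃ a ∈ ScrD.dec (de (D.rep v)) u (2 * t) (D.hr v) (D.y v)
    (ScrD.scF (2 * D.n) (tcL L al J n0 en (D.rep v)) (2 * t) (D.hr v) (D.y v) u), p ∈ a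
  refine ⟨L.R u t v, ?_, L.tr_sub u t ht v hp⟩
  have h3 : ScrD.dec (de (D.rep v)) u (2 * t) (D.hr v) (D.y v)
    (ScrD.scF (2 * D.n) (tcL L al J n0 en (D.rep v)) (2 * t) (D.hr v) (D.y v) u) =
      ScrD.vals (D.qaT (D.rep v)) (WD.RT L (D.rep v)) al u (2 * t) (D.hr v) (D.y v) := h2
  rw [h3, hr]
  exact ScrD.mem_vals.2 ⟨2 * t, le_rfl, rfl⟩

end

end Pool.Agent.GMJR
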