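import Pool.Agent.GMJR.ClsO
import Pool.Agent.GMN.CwZ

/-!
# GMJR/CwD (helper32): from the scales of the near hidden cells (GMN/Cw, CwA, CwZ) to the names of a world (`JWD`)

* `WD.ce_VW'` : conditional probabilities given the view, only the compatible points of the event count;
* `ClsO.cws` : the hypotheses `CwS` (types `WTy K`, filtrations `FW`, `VW`; `Ff = FW univ`, `K = VW univ`);
* **`ClsO.jwd`** : `ClsO → JWD`.
-/

set_option autoImplicit false
set_option linter.unusedSectionVars false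

namespace Pool.Agent.GMJR

open Finset Pool.Agent.PWZ Pool.Agent.M3 Pool.Agent.GMN

noncomputable section

theorem mxW_not_lt {K : Type} [Fintype K] [DecidableEq K] (W W' : WTy K) (hW : mxW W) : ¬ W < W' := by
  obtain ⟨u, rfl⟩ := hW
  intro h
  have h1 : (univ.erase u : Finset K) ⊂ W'.1 := h
  refine W'.2 ?_
  rw [Finset.eq_univ_iff_forall]
  by_contra hne
  push_neg at hne
  obtain ⟨x, hx⟩ := hne
  obtain ⟨h2, h3⟩ := Finset.ssubset_iff_subset_ne.1 h1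
  have hxu : x = u := by
    by_contra hxu
    exact hx (h2 (mem_erase.2 ⟨hxu, mem_univ _⟩))
  subst hxu
  refine h3 (Finset.Subset.antisymm h2 fun z hz => mem_erase.2 ⟨?_, mem_univ _⟩)
  rintro rfl
  exact hx hz

variable {Om Tp K β X γ δ Γ : Type} [Fintype Om] [Fintype K] [DecidableEq K] [Fintype β] [Fintype X]

namespace WD

variable (D : WD Om Tp K β X γ δ Γ)

/-- conditional probabilities given the node, only the compatible points of the event count -/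
theorem ce_VW' (W : Finset K) {t : ℕ} (ht : t ≤ D.n) (E : Om → Prop) (w : Om) {c : ℝ} (hc0 : 0 ≤ c)
    (hc : ∀ w', D.VW W t w' = D.VW W t w → E w' → D.P.ce (D.FW W t) (fun u => ind (E u)) w' ≤ c) :
    D.P.ce (D.VW W t) (fun u => ind (E u)) w ≤ D.Kg ^ 2 * c := by
  classical
  -- the other hidden cells do not meet the event
  obtain ⟨s, hs1, hs2⟩ := D.opt t ht w
  have hm : 0 < D.P.m (D.VW W t) w := D.P.m_pos _ (D.pp w)
  have hK0 : 0 ≤ D.Kg := le_trans zero_le_one D.Kg1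
  unfold FP.ce
  rw [div_le_iff₀ hm]
  have h1 : D.P.E (fun u => ind (D.VW W t u = D.VW W t w) * ind (E u)) ≤
      ∑ a ∈ s, D.P.Pr (fun u => D.VW W t u = D.VW W t w ∧ E u ∧ D.q t u = a) := by
    have : D.P.E (fun u => ind (D.VW W t u = D.VW W t w) * ind (E u)) =
        D.P.Pr (fun u => D.VW W t u = D.VW W t w ∧ E u) := D.P.E_congr fun u _ => (ind_and _ _).symm
    rw [this]
    refine le_trans (D.P.Pr_mono fun u _ hu => ?_) (D.P.Pr_ex_le s fun a u => D.VW W t u = D.VW W t w ∧ E u ∧ D.q t u = a)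
    have h2 := VW_eq.1 hu.1
    exact ⟨D.q t u, hs2 u h2.1 h2.2.2.1 h2.2.2.2, hu.1, hu.2, rfl⟩
  have h2 : ∀ a ∈ s, D.P.Pr (fun u => D.VW W t u = D.VW W t w ∧ E u ∧ D.q t u = a) ≤ c * (D.Kg * D.P.m (D.VW W t) w) := by
    intro a _
    by_cases hex : ∃ w', D.VW W t w' = D.VW W t w ∧ E w' ∧ D.q t w' = a
    · obtain ⟨w', h3, hE, h4⟩ := hex
      have h5 := hc w' h3 hE
      have hm' : 0 < D.P.m (D.FW W t) w' := D.P.m_pos _ (D.pp w')
      unfold FP.ce at h5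
      rw [div_le_iff₀ hm'] at h5
      have h6 : D.P.Pr (fun u => D.VW W t u = D.VW W t w ∧ E u ∧ D.q t u = a) ≤
          D.P.E (fun u => ind (D.FW W t u = D.FW W t w') * ind (E u)) := by
        have : D.P.E (fun u => ind (D.FW W t u = D.FW W t w') * ind (E u)) =
            D.P.Pr (fun u => D.FW W t u = D.FW W t w' ∧ E u) := D.P.E_congr fun u _ => (ind_and _ _).symm
        rw [this]
        refine D.P.Pr_mono fun u _ hu => ⟨?_, hu.2.1⟩
        have h7 := VW_eq.1 (hu.1.trans h3.symm)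
        rw [FW_eq]
        exact ⟨h7.1, h7.2.1, h7.2.2.1, hu.2.2.trans h4.symm⟩
      have h7 := FW_le_VW (D := D) W ht h3
      have h8 : D.P.m (D.FW W t) w' ≤ D.Kg * D.P.m (D.VW W t) w := h7
      exact h6.trans (h5.trans (mul_le_mul_of_nonneg_left h8 hc0))
    · have h3 : D.P.Pr (fun u => D.VW W t u = D.VW W t w ∧ E u ∧ D.q t u = a) ≤ D.P.Pr (fun _ => False) :=
        D.P.Pr_mono fun u _ hu => hex ⟨u, hu.1, hu.2.1, hu.2.2⟩
      rw [Pr_false] at h3
      exact h3.trans (mul_nonneg hc0 (mul_nonneg hK0 hm.le))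
  refine h1.trans ((Finset.sum_le_sum h2).trans ?_)
  rw [Finset.sum_const, nsmul_eq_mul]
  have h3 : 0 ≤ c * (D.Kg * D.P.m (D.VW W t) w) := mul_nonneg hc0 (mul_nonneg hK0 hm.le)
  calc (s.card : ℝ) * (c * (D.Kg * D.P.m (D.VW W t) w)) ≤ D.Kg * (c * (D.Kg * D.P.m (D.VW W t) w)) :=
        mul_le_mul_of_nonneg_right hs1 h3
    _ = D.Kg ^ 2 * c * D.P.m (D.VW W t) w := by ring

end WD

/-- members, any type -/
theorem mem_LsO' {Nk : Type} {Q : ℕ} {Lc : K → ℕ → Om → Finset (Fin Q)} {W : WTy K} {t : ℕ} {w : Om} {ν : Nk ⊕ Fin Q} :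
    ν ∈ LsO Nk Lc W t w ↔ ∃ u, W = tyL u ∧ ∃ p ∈ Lc u t w, ν = .inr p := by
  classical
  constructor
  · intro h
    have hm : mxW W := by
      by_contra hm
      rw [LsO_empty hm] at h
      exact absurd h (notMem_empty _)
    obtain ⟨u, rfl⟩ := hm
    exact ⟨u, rfl, mem_LsO.1 h⟩
  · rintro ⟨u, rfl, h⟩
    exact mem_LsO.2 h

theorem LsO_mono {Nk : Type} {Q : ℕ} {Lc Lc' : K → ℕ → Om → Finset (Fin Q)} {W : WTy K} {t t' : ℕ} {w w' : Om}
    (h : ∀ u, W = tyL u → Lc u t w ⊆ Lc' u t' w') : LsO Nk Lc W t w ⊆ LsO Nk Lc' W t' w' := by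
  intro ν hν
  obtain ⟨u, hu, p, hp, he⟩ := mem_LsO'.1 hν
  exact mem_LsO'.2 ⟨u, hu, p, h u hu hp, he⟩

theorem LsO_congr {Nk : Type} {Q : ℕ} {Lc Lc' : K → ℕ → Om → Finset (Fin Q)} {W : WTy K} {t t' : ℕ} {w w' : Om}
    (h : ∀ u, W = tyL u → Lc u t w = Lc' u t' w') : LsO Nk Lc W t w = LsO Nk Lc' W t' w' :=
  Subset.antisymm (LsO_mono fun u hu => (h u hu).subset) (LsO_mono fun u hu => (h u hu).symm.subset)

namespace ClsO

variable {D : WD Om Tp K β X γ δ Γ} {L : WL D} {Q : ℕ} {Nk : Type} [Fintype Nk] [DecidableEq Nk] [Inhabited Nk]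
  {h3 : ℕ} {kap n0 eps N Ent q0 aw : ℝ} (H : ClsO D L Q Nk h3 kap n0 eps N Ent q0 aw)
include H

/-- the hypotheses of Cw -/
theorem cws : CwS D.P (fun W : WTy K => D.FW W.1) (fun W : WTy K => D.VW W.1) (D.FW univ) (D.VW univ) mxW (nkO Q H.nk)
    (LsO Nk H.Lc) (LsO Nk H.pc) D.n h3 D.Kg (D.Kg ^ 2) kap n0 eps H.G0 where
  filtF := fun W => D.filt_FW W.1
  filtV := fun W => D.filt_VW W.1
  VK := fun W t => D.VW_mono (subset_univ _) t
  top := mxW_not_lt
  past := fun W W' i v w hW h1 h2 => by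
    have h4 : H.nk W' (i + 1) v = H.nk W' (i + 1) w := Sum.inl_injective h2
    show Sum.inl _ = Sum.inl _
    rw [H.past W W' i v w hW h1 h4]
  birth := fun W i j v w hij h2 => by
    have h4 : H.nk W i v = H.nk W j w := Sum.inl_injective h2
    show Sum.inl _ = Sum.inl _
    rw [H.birth W i j v w hij h4]
  betw := fun W i l j w hil hlj h2 => by
    have h4 : H.nk W i w = H.nk W j w := Sum.inl_injective h2
    show Sum.inl _ = Sum.inl _
    rw [H.betw W i l j w hil hlj h4]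
  cum := fun W i w => LsO_mono fun u _ => H.cum u i w
  card := fun W hW w _ => by
    obtain ⟨u, rfl⟩ := hW
    rw [card_LsO]
    exact H.card u w
  n01 := H.n01
  K10 := le_trans zero_le_one D.Kg1
  K20 := sq_nonneg _
  kap0 := H.kap0
  near := fun W t ht u _ => D.near_FW W.1 ht u
  cmp := fun W t ht A w x _ hx hA => D.ce_VW W.1 ht A w hx fun w' hw' => hA w' (D.pp w') hw'
  cmpK := fun t ht A w x _ hx hA => D.ce_VW' univ ht A w hx fun w' hw' hA' => hA w' (D.pp w') hw' hA'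
  pbf := fun W t v w hvw => LsO_congr fun u hu => by
    subst hu
    exact H.pc_fac u t v w hvw
  pbcum := fun W t w => LsO_mono fun u _ => H.pc_cum u t w
  pbc := fun W hW w _ => by
    obtain ⟨u, rfl⟩ := hW
    rw [card_LsO]
    exact H.pc_card u w
  eps0 := H.eps0
  eps1 := H.eps1
  clo := fun t ht 𝔳 w _ => H.clo t ht 𝔳 w

omit H in
/-- `FW` and `VW` are functions of (top, `y`, `hx`) -/
theorem fac_FW (W : Finset K) (t : ℕ) {v w : Om} (h1 : D.top v = D.top w) (h2 : D.y v = D.y w)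
    (h4 : D.hx v = D.hx w) : D.FW W t v = D.FW W t w := by
  rw [WD.FW_eq, h1, h2, h4]
  exact ⟨rfl, fun _ _ => rfl, fun _ => rfl, rfl⟩

omit H in
theorem fac_VW (W : Finset K) (t : ℕ) {v w : Om} (h1 : D.top v = D.top w) (h2 : D.y v = D.y w)
    (h4 : D.hx v = D.hx w) : D.VW W t v = D.VW W t w := by
  rw [WD.VW_eq, h1, h2, D.gm_fac t v w (by show (D.top v, D.y v, D.hx v) = (D.top w, D.y w, D.hx w); rw [h1, h2, h4])]
  exact ⟨rfl, fun _ _ => rfl, fun _ => rfl, rfl⟩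

theorem ls_fac (W : WTy K) (t : ℕ) {v w : Om} (h1 : D.top v = D.top w) (h2 : D.y v = D.y w)
    (h4 : D.hx v = D.hx w) : LsO Nk H.Lc W t v = LsO Nk H.Lc W t w :=
  LsO_congr fun u _ => (H.Lc_fac u t).fd v w h1 h2 h4

theorem hasP_fac (t : ℕ) (𝔳 : WTy K → Nk ⊕ Fin Q) (v w : Om) (h1 : D.top v = D.top w) (h2 : D.y v = D.y w)
    (h4 : D.hx v = D.hx w) : hasP mxW (nkO Q H.nk) (LsO Nk H.Lc) (LsO Nk H.pc) t v 𝔳 ↔
      hasP mxW (nkO Q H.nk) (LsO Nk H.Lc) (LsO Nk H.pc) t w 𝔳 := by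
  unfold hasP hasN
  refine and_congr (forall_congr' fun W => ?_) (forall_congr' fun W => ?_)
  · unfold cr
    rw [H.ls_fac W t h1 h2 h4]
    have e2 : nkO Q H.nk W t v = nkO Q H.nk W t w := by
      show Sum.inl _ = Sum.inl _
      rw [(H.nk_fac W t).fd v w h1 h2 h4]
    rw [e2]
  · rw [H.cws.pbf W t v w (fac_VW W.1 t h1 h2 h4)]

/-- **THE NAMES OF A WORLD** -/
def jwd {h1 : ℕ} {x0 B qb : ℝ} (hh1 : 1 ≤ h1) (hx0 : 0 < x0) (hx1 : x0 ≤ 1) (hB : 0 < B)
    (hqb : q0 + Fintype.card (WTy K) * (2 * Ent / (h1 * Real.log 2) +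
        4 * D.Kg * ((h1 + h3 : ℕ) : ℝ) * x0 * N +
        8 * D.Kg * D.Kg ^ 2 * ((h1 + h3 : ℕ) : ℝ) * (((h1 + h3 : ℕ) : ℝ) + 1) ^ 2 * (n0 * N) / B) ≤ qb) :
    JWD D L Q Nk (D.Kg ^ 2 * (kap * (2 / x0) ^ Fintype.card (WTy K))) (B + 1) qb (D.Kg ^ 2 * aw) where
  has := fun t w 𝔳 => hasP mxW (nkO Q H.nk) (LsO Nk H.Lc) (LsO Nk H.pc) t w 𝔳
  G := fun t w => GZ D.P (fun W : WTy K => D.FW W.1) (fun W : WTy K => D.VW W.1) mxW (nkO Q H.nk) (LsO Nk H.Lc)
    (LsO Nk H.pc) D.n h1 h3 x0 B H.G0 t w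
  has_fac := fun t 𝔳 v w e1 e2 e3 => H.hasP_fac t 𝔳 v w e1 e2 e3
  G_fac := fun t v w e1 e2 e3 => by
    have hG0 : H.G0 t v = H.G0 t w := H.G_fac t v w e1 e2 e3
    have hF : ∀ W : WTy K, D.FW W.1 t v = D.FW W.1 t w := fun W => fac_FW W.1 t e1 e2 e3
    have hnk : ∀ W : WTy K, nkO Q H.nk W t v = nkO Q H.nk W t w := fun W => by
      show Sum.inl _ = Sum.inl _
      rw [(H.nk_fac W t).fd v w e1 e2 e3]
    have hctxN : ∀ W : WTy K, ctxN (nkO Q H.nk) W t v = ctxN (nkO Q H.nk) W t w := fun W => by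
      rw [ctxN_eq_iff]
      exact fun W' _ => hnk W'
    have hctxE : ∀ W : WTy K, ctxE (nkO Q H.nk) W t v = ctxE (nkO Q H.nk) W t w := fun W => by
      rw [ctxE_eq_iff]
      exact fun W' _ => hnk W'
    have hden : ∀ (W : WTy K) (E : ℕ → Om → Prop), den D.P (D.FW W.1) E t v = den D.P (D.FW W.1) E t w :=
      fun W E => den_fac t v w (hF W)
    have hDP : ∀ (W : WTy K) (E : ℕ → Om → Prop),
        DP D.P (D.FW W.1) (D.VW W.1) (h1 + h3) E t v = DP D.P (D.FW W.1) (D.VW W.1) (h1 + h3) E t w :=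
      fun W E => DP_fac (D.filt_FW W.1) t v w (hF W)
    have hSb : ∀ x : WTy K × (WTy K → Nk ⊕ Fin Q),
        Sb (dN D.P (fun W : WTy K => D.FW W.1) (fun W : WTy K => D.VW W.1) mxW (nkO Q H.nk) (LsO Nk H.Lc)
          (LsO Nk H.pc) (h1 + h3) h3) t x v =
        Sb (dN D.P (fun W : WTy K => D.FW W.1) (fun W : WTy K => D.VW W.1) mxW (nkO Q H.nk) (LsO Nk H.Lc)
          (LsO Nk H.pc) (h1 + h3) h3) t x w := fun x =>
      Sb_fac (K := D.VW univ) (D.filt_VW univ) (fun i x => ((D.VW_mono (subset_univ _) i).trans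
        (dN_fac (fun W : WTy K => D.filt_VW W.1) H.cws.pbf i x))) t x v w (fac_VW univ t e1 e2 e3)
    have hP : ∀ 𝔳, (hasP mxW (nkO Q H.nk) (LsO Nk H.Lc) (LsO Nk H.pc) t v 𝔳) =
        hasP mxW (nkO Q H.nk) (LsO Nk H.Lc) (LsO Nk H.pc) t w 𝔳 := fun 𝔳 => propext (H.hasP_fac t 𝔳 v w e1 e2 e3)
    have hgd : GD D.P (fun W : WTy K => D.FW W.1) (fun W : WTy K => D.VW W.1) mxW (nkO Q H.nk) D.n h1 h3 x0 H.G0 t v =
        GD D.P (fun W : WTy K => D.FW W.1) (fun W : WTy K => D.VW W.1) mxW (nkO Q H.nk) D.n h1 h3 x0 H.G0 t w := by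
      unfold GD
      rw [hG0]
      simp only [hctxN, hctxE, hden, hDP]
    show GZ _ _ _ _ _ _ _ _ _ _ _ _ _ t v ↔ GZ _ _ _ _ _ _ _ _ _ _ _ _ _ t w
    unfold GZ
    rw [hgd]
    refine and_congr Iff.rfl (forall_congr' fun 𝔳 => ?_)
    rw [hP 𝔳]
    refine forall_congr' fun _ => forall_congr' fun W => ?_
    rw [hSb (GMN.res W 𝔳)]
  d := dN D.P (fun W : WTy K => D.FW W.1) (fun W : WTy K => D.VW W.1) mxW (nkO Q H.nk) (LsO Nk H.Lc) (LsO Nk H.pc)
    (h1 + h3) h3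
  d0 := fun t x w => dN_nonneg t x w
  d_vis := fun t x => dN_fac (fun W : WTy K => D.filt_VW W.1) H.cws.pbf t x
  d_some := fun t x w hd u hu => by
    classical
    have hm : mxW x.1 := ⟨u, hu⟩
    unfold dN at hd
    rw [if_pos hm] at hd
    by_cases hν : x.2 x.1 ∈ LsO Nk H.pc x.1 t w
    · have h5 : x.2 x.1 ∈ LsO Nk H.pc (tyL u) t w := by
        have h6 : LsO Nk H.pc x.1 t w = LsO Nk H.pc (tyL u) t w := by rw [hu]
        rwa [h6] at hν
      obtain ⟨p, hp, hp'⟩ := mem_LsO.1 h5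
      exact ⟨p, hp', H.pc_vb u t w p hp⟩
    · rw [if_neg hν] at hd
      exact absurd rfl hd
  has_some := fun t w 𝔳 hh u => by
    obtain ⟨p, hp, hp'⟩ := mem_LsO.1 (hh.2 (tyL u) ⟨u, rfl⟩)
    exact ⟨p, hp', H.pc_vb u t w p hp⟩
  has_key := fun t w 𝔳 hh W hW => by
    have h5 := (cr_key hW).1 (hh.1 W)
    exact ⟨H.nk W t w, h5.symm⟩
  cum := fun t w s hs => by
    obtain ⟨𝔳, hs, hh⟩ := hs
    obtain ⟨𝔲, h5, h6⟩ := H.cws.cum_Z hh
    exact ⟨𝔲, fun u => by rw [h6 (tyL u) ⟨u, rfl⟩, hs u], h5⟩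
  kap0 := mul_nonneg (sq_nonneg _) (mul_nonneg H.kap0 (by positivity))
  clo := fun t ht 𝔳 w => by
    refine le_trans ?_ (H.cws.clo_d (h1 := h1) hx0 hx1 ht 𝔳 (D.pp w))
    exact ce_ind_le D.P _ fun v _ _ hv => ⟨hv.1, hv.2.1⟩
  dl := (1 / 2 : ℝ) ^ (h1 + h3)
  dl0 := by positivity
  low := fun t _ w 𝔳 hh hG W => H.cws.low_d (D.pp w) hG.1 hh W
  heavy := fun t _ w 𝔳 hh hG W => hG.2 𝔳 hh W
  bad := by
    have h5 := H.cws.bad_Z (h1 := h1) (x0 := x0) (B := B) hh1 hx0.le hB H.nch H.entN H.entE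
    have h6 := H.bad0
    refine le_trans (D.P.Pr_mono fun w _ hw => ?_) (h5.trans (le_trans ?_ hqb))
    · push Not at hw
      exact hw
    · exact add_le_add h6 le_rfl
  aw0 := mul_nonneg (sq_nonneg _) H.aw0
  wait := fun t ht s w => by
    classical
    refine le_trans (ce_ind_le D.P (D.VW univ t) (t := fun v => (∃ u, ∃ p ∈ L.tr u t v, ∀ p' ∈ H.Lc u t v, p'.1 ≠ p) ∧
      H.G0 t v) fun v _ _ hv => ?_) (D.ce_VW univ ht _ w H.aw0 fun w' _ => H.wait t ht w')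
    obtain ⟨h5, h6, h7⟩ := hv
    refine ⟨?_, h7.1.1.2⟩
    by_contra hne
    push Not at hne
    -- the recorded and visible codes
    have hL : ∀ u, ∃ p : Fin Q, p ∈ H.Lc u t v ∧ p.1 = s u := fun u => by
      obtain ⟨p, hp, he⟩ := hne u (s u) (h5 u)
      exact ⟨p, hp, he⟩
    choose p hp1 hp2 using hL
    have hpc : ∀ u, p u ∈ H.pc u t v := fun u => by
      obtain ⟨p', hp', he⟩ := H.tr_pc u t ht v h7.1.1.2 (s u) (h5 u)
      have e : p' = p u := Fin.ext (he.trans (hp2 u).symm)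
      rwa [e] at hp'
    refine h6 ⟨fun W => if hW : mxW W then .inr (p (Classical.choose hW)) else nkO Q H.nk W t v,
      fun u => ?_, fun W => ?_, fun W hW => ?_⟩
    · have hm : mxW (tyL u) := ⟨u, rfl⟩
      have hch : Classical.choose hm = u := (tyL_inj (Classical.choose_spec hm)).symm
      refine ⟨p u, hp2 u, ?_⟩
      beta_reduce
      rw [dif_pos hm]
      congr 1
      rw [hch]
    · by_cases hm : mxW W
      · rw [cr_list hm]
        beta_reduce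
        rw [dif_pos hm]
        have hsp := Classical.choose_spec hm
        have h8 : (Sum.inr (p (Classical.choose hm)) : Nk ⊕ Fin Q) ∈ LsO Nk H.Lc (tyL (Classical.choose hm)) t v :=
          inr_mem_LsO.2 (hp1 _)
        rw [← hsp] at h8
        exact h8
      · rw [cr_key hm]
        beta_reduce
        rw [dif_neg hm]
    · beta_reduce
      rw [dif_pos hW]
      have hsp := Classical.choose_spec hW
      have h8 : (Sum.inr (p (Classical.choose hW)) : Nk ⊕ Fin Q) ∈ LsO Nk H.pc (tyL (Classical.choose hW)) t v :=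
        inr_mem_LsO.2 (hpc _)
      rw [← hsp] at h8
      exact h8

end ClsO

end

end Pool.Agent.GMJR
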