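import Mathlib

/-!
# GMJR.Det: runs with references, the deterministic part of the record lemma (helper97)

One path is fixed.  Time = moments `n`, node of the moment `n` = `n / G`.  At every moment the run uses the first reference
which is allowed (at the node) and ON; the transition `tr` to the next moment depends on the reference used.
* `pick`, `st` : the run with the allowed sets `A`; `st_congr`, `pick_eq_of`;
* `first_sep` : two runs, `A ⊆ A'`: at the first separation the larger run uses a reference which is not in `A`, is ON and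
  precedes the reference used by the smaller run;
* `recd`, `alw`, `mix`, `Jcrit`, `Ev`, `ExU` : levels and coins, critical moments of a set `J` of indices, the event `Ev`
  of LEMMA W, exclusive uses; **`lemmaW`** : `Ev` implies an exclusive use in the world with the coins of `J` at their levels;
* `exU_unique` : for every type at most one exclusive set per use; `exists_Ev` : a failure gives a critical event.
-/

set_option autoImplicit false
set_option linter.unusedSectionVars false
set_option linter.unusedVariables false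

namespace Pool.Agent.GMJR

open Finset

noncomputable section

/-! ## runs -/

section run

variable {Tu S : Type*} [LinearOrder Tu] [Fintype Tu]

open Classical in
/-- the first reference which is allowed and ON -/
def pk (on : S → Tu → Prop) (A : Tu → Prop) (σ : S) : WithTop Tu :=
  (univ.filter fun s => A s ∧ on σ s).min

theorem pk_spec {on : S → Tu → Prop} {A : Tu → Prop} {σ : S} {s : Tu} (h : pk on A σ = s) : A s ∧ on σ s := by
  classical
  have h1 := Finset.mem_of_min h
  exact (Finset.mem_filter.1 h1).2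

theorem pk_le {on : S → Tu → Prop} {A : Tu → Prop} {σ : S} {s : Tu} (hA : A s) (ho : on σ s) : pk on A σ ≤ s := by
  classical
  exact Finset.min_le (Finset.mem_filter.2 ⟨Finset.mem_univ s, hA, ho⟩)

theorem pk_mono {on : S → Tu → Prop} {A A' : Tu → Prop} (h : ∀ s, A s → A' s) (σ : S) : pk on A' σ ≤ pk on A σ := by
  classical
  exact Finset.min_mono (fun s hs => by
    have h1 := (Finset.mem_filter.1 hs).2
    exact Finset.mem_filter.2 ⟨Finset.mem_univ s, h s h1.1, h1.2⟩)

/-- if the larger allowed set gives another reference, this reference is new and precedes the old one -/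
theorem pk_sep {on : S → Tu → Prop} {A A' : Tu → Prop} (h : ∀ s, A s → A' s) {σ : S} (hne : pk on A' σ ≠ pk on A σ) :
    ∃ s : Tu, pk on A' σ = s ∧ A' s ∧ ¬ A s ∧ on σ s ∧ (s : WithTop Tu) < pk on A σ := by
  have h1 := pk_mono (on := on) h σ
  have h2 : pk on A' σ < pk on A σ := lt_of_le_of_ne h1 hne
  obtain ⟨s, hs⟩ := WithTop.ne_top_iff_exists.1 h2.ne_top
  have h3 := pk_spec hs.symm
  refine ⟨s, hs.symm, h3.1, fun hA => ?_, h3.2, hs ▸ h2⟩
  have h4 := pk_le hA h3.2
  rw [← hs] at h2
  exact absurd (lt_of_le_of_lt h4 h2) (lt_irrefl _)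

variable (G : ℕ) (init : S) (tr : ℕ → WithTop Tu → S → S) (on : ℕ → S → Tu → Prop)

/-- state at the moment `n` of the run with the allowed sets `A` (by nodes) -/
def st (A : ℕ → Tu → Prop) : ℕ → S
  | 0 => init
  | n + 1 => tr n (pk (on n) (A (n / G)) (st A n)) (st A n)

/-- reference used at the moment `n` -/
def pick (A : ℕ → Tu → Prop) (n : ℕ) : WithTop Tu := pk (on n) (A (n / G)) (st G init tr on A n)

variable {G init tr on}

theorem st_congr {A A' : ℕ → Tu → Prop} {n : ℕ} (h : ∀ m < n, pick G init tr on A m = pick G init tr on A' m) :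
    st G init tr on A n = st G init tr on A' n := by
  induction n with
  | zero => rfl
  | succ n ih =>
    have h1 := ih fun m hm => h m (Nat.lt_succ_of_lt hm)
    have h2 := h n (Nat.lt_succ_self n)
    unfold pick at h2
    show tr n (pk (on n) (A (n / G)) (st G init tr on A n)) (st G init tr on A n) =
      tr n (pk (on n) (A' (n / G)) (st G init tr on A' n)) (st G init tr on A' n)
    rw [h2, h1]

/-- runs with the same allowed sets up to the node `τ` agree up to `τ` -/
theorem st_eq_of {A A' : ℕ → Tu → Prop} {τ : ℕ} (h : ∀ θ ≤ τ, A θ = A' θ) : ∀ n, n / G ≤ τ →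
    st G init tr on A n = st G init tr on A' n := by
  intro n
  induction n with
  | zero => exact fun _ => rfl
  | succ n ih =>
    intro hn
    have h1 : n / G ≤ τ := (Nat.div_le_div_right (Nat.le_succ n)).trans hn
    show tr n (pk (on n) (A (n / G)) (st G init tr on A n)) (st G init tr on A n) =
      tr n (pk (on n) (A' (n / G)) (st G init tr on A' n)) (st G init tr on A' n)
    rw [ih h1, h _ h1]

theorem pick_eq_of {A A' : ℕ → Tu → Prop} {τ : ℕ} (h : ∀ θ ≤ τ, A θ = A' θ) {n : ℕ} (hn : n / G ≤ τ) :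
    pick G init tr on A n = pick G init tr on A' n := by
  unfold pick
  rw [st_eq_of h n hn, h _ hn]

/-- **first separation** -/
theorem first_sep {A A' : ℕ → Tu → Prop} {m : ℕ} (hAA : ∀ θ ≤ m / G, ∀ s, A θ s → A' θ s) {s0 : Tu}
    (hA' : A' (m / G) s0) (hon : on m (st G init tr on A m) s0) (hlt : (s0 : WithTop Tu) < pick G init tr on A m) :
    ∃ m' ≤ m, ∃ s : Tu, st G init tr on A m' = st G init tr on A' m' ∧ pick G init tr on A' m' = s ∧
      A' (m' / G) s ∧ ¬ A (m' / G) s ∧ on m' (st G init tr on A m') s ∧ (s : WithTop Tu) < pick G init tr on A m' := by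
  classical
  have hex : ∃ m' ≤ m, pick G init tr on A' m' ≠ pick G init tr on A m' := by
    by_contra hcon
    push Not at hcon
    have h1 : st G init tr on A m = st G init tr on A' m := st_congr fun j hj => (hcon j hj.le).symm
    have h2 : pick G init tr on A' m ≤ s0 := by
      unfold pick
      exact pk_le hA' (h1 ▸ hon)
    rw [hcon m le_rfl] at h2
    exact absurd (lt_of_lt_of_le hlt h2) (lt_irrefl _)
  obtain ⟨m', hm'm, hne', hmin⟩ : ∃ m' ≤ m, pick G init tr on A' m' ≠ pick G init tr on A m' ∧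
      ∀ j < m', pick G init tr on A j = pick G init tr on A' j := by
    have hex' : ∃ m', m' ≤ m ∧ pick G init tr on A' m' ≠ pick G init tr on A m' := hex
    refine ⟨Nat.find hex', (Nat.find_spec hex').1, (Nat.find_spec hex').2, fun j hj => ?_⟩
    have h1 := Nat.find_min hex' hj
    by_contra hne
    exact h1 ⟨(hj.le.trans (Nat.find_spec hex').1), fun h => hne h.symm⟩
  have hst : st G init tr on A m' = st G init tr on A' m' := st_congr hmin
  have hne : pk (on m') (A' (m' / G)) (st G init tr on A m') ≠ pk (on m') (A (m' / G)) (st G init tr on A m') := by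
    unfold pick at hne'
    rw [← hst] at hne'
    exact hne'
  obtain ⟨s, h1, h2, h3, h4, h5⟩ := pk_sep (hAA (m' / G) (Nat.div_le_div_right hm'm)) hne
  refine ⟨m', hm'm, s, hst, ?_, h2, h3, h4, h5⟩
  unfold pick
  rw [← hst]
  exact h1

end run

/-! ## levels, coins, critical sets -/

section crit

variable {Tu S Idx Wt Vs : Type*} [LinearOrder Tu] [Fintype Tu] [DecidableEq Idx] [Fintype Wt] [DecidableEq Wt]

/-- the index `x` is recorded at the node `θ` (levels `lev`, coins `kap`) -/
def recd (lev : ℕ → Idx → ℕ) (kap : Idx → ℕ) (θ : ℕ) (x : Idx) : Prop := lev θ x ≤ kap x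

/-- the reference `s` is allowed at the node `θ`: some system of indices of `s` is recorded -/
def alw (ix : Vs → Wt → Idx) (tup : Vs → Tu) (lev : ℕ → Idx → ℕ) (kap : Idx → ℕ) (θ : ℕ) (s : Tu) : Prop :=
  ∃ v, tup v = s ∧ ∀ W, recd lev kap θ (ix v W)

/-- coins `kap'` on `J`, `kap` outside -/
def mix (J : Finset Idx) (kap kap' : Idx → ℕ) (x : Idx) : ℕ := if x ∈ J then kap' x else kap x

variable (ix : Vs → Wt → Idx) (tup : Vs → Tu) (G : ℕ) (init : S) (tr : ℕ → WithTop Tu → S → S)
  (on : ℕ → S → Tu → Prop) (lev : ℕ → Idx → ℕ)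

/-- the moment `m` is `J`-critical in the world with the coins `kap` -/
def Jcrit (kap : Idx → ℕ) (J : Finset Idx) (m : ℕ) : Prop :=
  (∀ x ∈ J, ¬ recd lev kap (m / G) x) ∧ ∃ v, (∀ x ∈ J, ∃ W, ix v W = x) ∧
    (∀ W, ix v W ∉ J → recd lev kap (m / G) (ix v W)) ∧
    on m (st G init tr on (alw ix tup lev kap) m) (tup v) ∧
    (tup v : WithTop Tu) < pick G init tr on (alw ix tup lev kap) m

/-- coins `0` on `J` -/
def zc (J : Finset Idx) (kap : Idx → ℕ) : Idx → ℕ := mix J kap fun _ => 0

/-- the event of LEMMA W up to the node `τ`; the coins of `J` are the levels -/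
def Ev (kap : Idx → ℕ) (J : Finset Idx) (τ : ℕ) : Prop :=
  ∃ m, m / G ≤ τ ∧ Jcrit ix tup G init tr on lev (zc J kap) J m ∧ (∀ x ∈ J, lev (m / G) x = kap x) ∧
    ∀ J' : Finset Idx, J' ⊂ J → J'.Nonempty → ∀ m' ≤ m,
      Jcrit ix tup G init tr on lev (zc J kap) J' m' → ∃ x ∈ J', lev (m' / G) x ≠ kap x

/-- exclusive use of `J` at the moment `m` in the world with the coins `kap` -/
def ExU (kap : Idx → ℕ) (J : Finset Idx) (m : ℕ) : Prop :=
  ∃ s : Tu, pick G init tr on (alw ix tup lev kap) m = s ∧
    ∀ v, tup v = s → (∀ W, recd lev kap (m / G) (ix v W)) → ∀ x ∈ J, ∃ W, ix v W = x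

variable {ix tup G init tr on lev}

theorem recd_mono (hlev : ∀ θ θ' x, θ ≤ θ' → lev θ' x ≤ lev θ x) {kap : Idx → ℕ} {θ θ' : ℕ} (h : θ ≤ θ') {x : Idx}
    (hr : recd lev kap θ x) : recd lev kap θ' x := (hlev θ θ' x h).trans hr

theorem zc_mem {J : Finset Idx} {kap : Idx → ℕ} {x : Idx} (h : x ∈ J) : zc J kap x = 0 := by
  unfold zc mix
  rw [if_pos h]

theorem zc_not {J : Finset Idx} {kap : Idx → ℕ} {x : Idx} (h : x ∉ J) : zc J kap x = kap x := by
  unfold zc mix
  rw [if_neg h]

/-- **LEMMA W**: in the world in which the coins of `J` are the levels at the critical moment, `J` has an exclusive use -/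
theorem lemmaW (hlev : ∀ θ θ' x, θ ≤ θ' → lev θ' x ≤ lev θ x) {kap : Idx → ℕ} {J : Finset Idx} (hJ : J.Nonempty)
    {τ : ℕ} (h : Ev ix tup G init tr on lev kap J τ) : ∃ m', m' / G ≤ τ ∧ ExU ix tup G init tr on lev kap J m' := by
  obtain ⟨m, hmτ, ⟨hun, v, hv1, hv2, hon, hlt⟩, hk, hmin⟩ := h
  -- records in the two worlds
  have hsub : ∀ θ ≤ m / G, ∀ s, alw ix tup lev (zc J kap) θ s → alw ix tup lev kap θ s := by
    rintro θ _ s ⟨v', hv', hr⟩
    refine ⟨v', hv', fun W => ?_⟩
    have h1 := hr W
    by_cases hx : ix v' W ∈ J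
    · unfold recd at h1 ⊢
      rw [zc_mem hx] at h1
      omega
    · unfold recd at h1 ⊢
      rwa [zc_not hx] at h1
  have hA' : alw ix tup lev kap (m / G) (tup v) := by
    refine ⟨v, rfl, fun W => ?_⟩
    by_cases hx : ix v W ∈ J
    · unfold recd
      rw [hk _ hx]
    · have h1 := hv2 W hx
      unfold recd at h1 ⊢
      rwa [zc_not hx] at h1
  obtain ⟨m', hm', s, hst, hpk, hA1, hA2, hon', hlt'⟩ := first_sep hsub hA' hon hlt
  have hG : m' / G ≤ m / G := Nat.div_le_div_right hm'
  refine ⟨m', hG.trans hmτ, s, hpk, ?_⟩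
  intro v'' hv'' hr
  -- the part of `v''` in `J`
  set J'' : Finset Idx := J.filter fun x => ∃ W, ix v'' W = x with hJ''
  have hJsub : J'' ⊆ J := Finset.filter_subset _ _
  have hne : J''.Nonempty := by
    by_contra hcon
    rw [Finset.not_nonempty_iff_eq_empty] at hcon
    refine hA2 ⟨v'', hv'', fun W => ?_⟩
    have hx : ix v'' W ∉ J := fun hx => by
      have : ix v'' W ∈ J'' := Finset.mem_filter.2 ⟨hx, W, rfl⟩
      rw [hcon] at this
      exact absurd this (Finset.notMem_empty _)
    have h1 := hr W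
    unfold recd at h1 ⊢
    rwa [zc_not hx]
  have hlevJ : ∀ x ∈ J'', lev (m' / G) x = kap x := by
    intro x hx
    obtain ⟨hxJ, W, hW⟩ := Finset.mem_filter.1 hx
    have h1 : lev (m' / G) x ≤ kap x := by
      have := hr W
      unfold recd at this
      rwa [hW] at this
    have h2 := hlev _ _ x hG
    rw [hk x hxJ] at h2
    omega
  have hcrit : Jcrit ix tup G init tr on lev (zc J kap) J'' m' := by
    refine ⟨fun x hx => ?_, v'', fun x hx => (Finset.mem_filter.1 hx).2, fun W hW => ?_, ?_, ?_⟩
    · have hxJ := hJsub hx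
      have h1 := hun x hxJ
      unfold recd at h1 ⊢
      rw [zc_mem hxJ] at h1 ⊢
      have h2 := hlev _ _ x hG
      omega
    · have hx : ix v'' W ∉ J := fun hx => hW (Finset.mem_filter.2 ⟨hx, W, rfl⟩)
      have h1 := hr W
      unfold recd at h1 ⊢
      rwa [zc_not hx]
    · rw [hv'']; exact hon'
    · rw [hv'']; exact hlt'
  have hJeq : J'' = J := by
    by_contra hcon
    obtain ⟨x, hx, hx'⟩ := hmin J'' (Finset.ssubset_iff_subset_ne.2 ⟨hJsub, hcon⟩) hne m' hm' hcrit
    exact hx' (hlevJ x hx)
  intro x hx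
  rw [← hJeq] at hx
  exact (Finset.mem_filter.1 hx).2

/-- for every type at most one exclusive set per use -/
theorem exU_unique {col : Idx → Wt} (hcol : ∀ v W, col (ix v W) = W) {kap : Idx → ℕ} {J J' : Finset Idx} {m : ℕ}
    (hJ : ExU ix tup G init tr on lev kap J m) (hJ' : ExU ix tup G init tr on lev kap J' m)
    (hty : J.image col = J'.image col) : J = J' := by
  obtain ⟨s, hs, h1⟩ := hJ
  obtain ⟨s', hs', h2⟩ := hJ'
  have hss : s = s' := WithTop.coe_injective (hs.symm.trans hs')
  subst hss
  unfold pick at hs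
  obtain ⟨v, hv, hr⟩ := (pk_spec hs).1
  have key : ∀ (A B : Finset Idx), (∀ x ∈ A, ∃ W, ix v W = x) → (∀ x ∈ B, ∃ W, ix v W = x) →
      A.image col = B.image col → A ⊆ B := by
    intro A B hA hB he x hx
    have h3 : col x ∈ B.image col := he ▸ Finset.mem_image_of_mem col hx
    obtain ⟨y, hy, hyx⟩ := Finset.mem_image.1 h3
    obtain ⟨W, hW⟩ := hA x hx
    obtain ⟨W', hW'⟩ := hB y hy
    have h4 : W' = W := by
      rw [← hcol v W', ← hcol v W, hW, hW']
      exact hyx
    rw [← hW, ← h4, hW']
    exact hy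
  exact Finset.Subset.antisymm (key J J' (h1 v hv hr) (h2 v hv hr) hty)
    (key J' J (h2 v hv hr) (h1 v hv hr) hty.symm)

/-- **a failure gives a critical event**: real coins `kap`, at the node `τ` some moment is critical for the system `v`, which
is not completely recorded.  Then for some non empty set `J` of unrecorded indices of `v` the event `Ev` has happened, with
the levels at the node `τ` as coins. -/
theorem exists_Ev (hlev : ∀ θ θ' x, θ ≤ θ' → lev θ' x ≤ lev θ x) {kap : Idx → ℕ} {τ m : ℕ} (hm : m / G = τ) {v : Vs}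
    (hna : ¬ alw ix tup lev kap τ (tup v)) (hon : on m (st G init tr on (alw ix tup lev kap) m) (tup v))
    (hlt : (tup v : WithTop Tu) < pick G init tr on (alw ix tup lev kap) m) :
    ∃ J : Finset Idx, J.Nonempty ∧ (∀ x ∈ J, ∃ W, ix v W = x) ∧
      Ev ix tup G init tr on lev (mix J kap (lev τ)) J τ := by
  classical
  -- unrecorded indices of `v`
  set I : Finset Idx := (univ.image (ix v)).filter fun x => ¬ recd lev kap τ x with hI
  have hIm : ∀ x ∈ I, (∃ W, ix v W = x) ∧ ¬ recd lev kap τ x := by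
    intro x hx
    obtain ⟨h1, h2⟩ := Finset.mem_filter.1 hx
    obtain ⟨W, -, hW⟩ := Finset.mem_image.1 h1
    exact ⟨⟨W, hW⟩, h2⟩
  have hIne : I.Nonempty := by
    by_contra hcon
    rw [Finset.not_nonempty_iff_eq_empty] at hcon
    refine hna ⟨v, rfl, fun W => ?_⟩
    by_contra hr
    have : ix v W ∈ I := Finset.mem_filter.2 ⟨Finset.mem_image_of_mem _ (Finset.mem_univ W), hr⟩
    rw [hcon] at this
    exact absurd this (Finset.notMem_empty _)
  -- minimal `J`
  let Q : Finset Idx → Prop := fun J => J.Nonempty ∧ J ⊆ I ∧ ∃ m' ≤ m, Jcrit ix tup G init tr on lev kap J m' ∧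
    ∀ x ∈ J, lev (m' / G) x = lev τ x
  have hQI : Q I := by
    refine ⟨hIne, Finset.Subset.refl _, m, le_rfl, ⟨fun x hx => ?_, v, fun x hx => (hIm x hx).1, fun W hW => ?_, hon, hlt⟩,
      fun x _ => by rw [hm]⟩
    · rw [hm]; exact (hIm x hx).2
    · rw [hm]
      by_contra hr
      exact hW (Finset.mem_filter.2 ⟨Finset.mem_image_of_mem _ (Finset.mem_univ W), hr⟩)
  obtain ⟨J, hJ, hJmin⟩ : ∃ J, Q J ∧ ∀ J', Q J' → J.card ≤ J'.card := by
    have hex : ∃ n, ∃ J, Q J ∧ J.card = n := ⟨_, I, hQI, rfl⟩
    obtain ⟨J, hJ, hc⟩ := Nat.find_spec hex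
    exact ⟨J, hJ, fun J' hJ' => hc ▸ Nat.find_min' hex ⟨J', hJ', rfl⟩⟩
  obtain ⟨hJne, hJI, m1, hm1, hcr, hl1⟩ := hJ
  refine ⟨J, hJne, fun x hx => (hIm x (hJI hx)).1, ?_⟩
  -- the worlds `kap` and `zc J ..` agree up to the node `τ`
  have hz : zc J (mix J kap (lev τ)) = zc J kap := by
    funext x
    by_cases hx : x ∈ J
    · rw [zc_mem hx, zc_mem hx]
    · rw [zc_not hx, zc_not hx]
      unfold mix
      rw [if_neg hx]
  have hrec : ∀ θ ≤ τ, ∀ x, recd lev (zc J kap) θ x ↔ recd lev kap θ x := by
    intro θ hθ x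
    by_cases hx : x ∈ J
    · have h1 := (hIm x (hJI hx)).2
      have h2 := hlev θ τ x hθ
      unfold recd at h1 ⊢
      rw [zc_mem hx]
      constructor
      · intro h; omega
      · intro h; omega
    · unfold recd
      rw [zc_not hx]
  have halw : ∀ θ ≤ τ, alw ix tup lev (zc J kap) θ = alw ix tup lev kap θ := by
    intro θ hθ
    funext s
    unfold alw
    refine propext (exists_congr fun v' => and_congr Iff.rfl (forall_congr' fun W => hrec θ hθ _))
  have hG : ∀ m' ≤ m, m' / G ≤ τ := fun m' h => hm ▸ Nat.div_le_div_right h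
  have hcrit : ∀ (J' : Finset Idx), ∀ m' ≤ m, (Jcrit ix tup G init tr on lev (zc J kap) J' m' ↔
      Jcrit ix tup G init tr on lev kap J' m') := by
    intro J' m' hm'
    have e1 := pick_eq_of (init := init) (tr := tr) (on := on) halw (hG m' hm')
    have e2 := st_eq_of (init := init) (tr := tr) (on := on) halw m' (hG m' hm')
    unfold Jcrit
    rw [e1, e2]
    refine and_congr (forall_congr' fun x => forall_congr' fun _ => not_congr (hrec _ (hG m' hm') x)) ?_
    refine exists_congr fun v' => and_congr Iff.rfl (and_congr ?_ Iff.rfl)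
    exact forall_congr' fun W => forall_congr' fun _ => hrec _ (hG m' hm') _
  have hmixJ : ∀ x ∈ J, mix J kap (lev τ) x = lev τ x := fun x hx => by
    unfold mix
    rw [if_pos hx]
  refine ⟨m1, hG m1 hm1, ?_, fun x hx => by rw [hmixJ x hx]; exact hl1 x hx, ?_⟩
  · rw [hz]
    exact (hcrit J m1 hm1).2 hcr
  · intro J' hJ' hne m' hm' hc'
    rw [hz] at hc'
    have hc'' := (hcrit J' m' (hm'.trans hm1)).1 hc'
    by_contra hcon
    push Not at hcon
    have hQ' : Q J' := ⟨hne, hJ'.subset.trans hJI, m', hm'.trans hm1, hc'', fun x hx => by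
      rw [hcon x hx, hmixJ x (hJ'.subset hx)]⟩
    have h1 := hJmin J' hQ'
    have h2 := Finset.card_lt_card hJ'
    omega

end crit

end

end Pool.Agent.GMJR
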