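import Pool.Agent.GMJR.ClsE

/-!
# GMJR/EntW (helper25): entropies of down closed families of classes

`ent_cD` : for a down closed family `𝒟` of classes below `W`
`Hc (cD 𝒟 0 | FW W 0) + ∑ Hc (cD 𝒟 (2 (t + 1)) | FW W (t + 1), cD 𝒟 (2 t)) ≤ ∑_(I ∈ 𝒟) E (bits of U θ I)`.
-/

set_option autoImplicit false
set_option linter.unusedSectionVars false

namespace Pool.Agent.GMJR

open Finset Pool.Agent.PWZ Pool.Agent.M3 Pool.Agent.GMN Pool.Agent.GM.Harm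

noncomputable section

namespace WD

variable {Om Tp K β X γ δ Γ : Type} [Fintype Om] [Fintype K] [DecidableEq K] [Fintype β] [Fintype X]
  {D : WD Om Tp K β X γ δ Γ} {φ γ' υ : Type} [Fintype φ] {H : (w0 : Om) → HD K (D.XT w0) β γ' φ}
  {U : (w0 : Om) → Finset K → ℕ → D.XT w0 → (K → β) → υ}

variable (hc : D.Cells H) (hs : ∀ w0, GM.Harm.Sys (H w0) (U w0))
include hc hs

theorem lo_sub {𝒟 : Finset (Finset K)} (hdown : ∀ I ∈ 𝒟, sl I ⊆ 𝒟) {I : Finset K} (hI : I ∈ 𝒟) : lo I ⊆ 𝒟 := by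
  intro J hJ
  by_cases h : J = I
  · rw [h]
    exact hI
  · exact hdown I hI (mem_sl.2 ⟨(mem_lo.1 hJ).1, (mem_lo.1 hJ).2.ssubset_of_ne h⟩)

/-- one HD step -/
theorem hcD_one {W : Finset K} {𝒟 : Finset (Finset K)} (h𝒟 : ∀ I ∈ 𝒟, I ∈ JJ K ∧ I ⊆ W) (hdown : ∀ I ∈ 𝒟, sl I ⊆ 𝒟)
    (τ : ℕ) :
    D.P.Hc (D.cD U 𝒟 (τ + 1)) (fun w => (D.FH W (τ + 1) w, D.cD U 𝒟 τ w)) ≤
      ∑ I ∈ 𝒟, D.P.E (fun w => EV fun x y => Real.log (((mJ (H (D.rep w)) (U (D.rep w)) I τ x y).card : ℝ) /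
        (uJ (H (D.rep w)) (U (D.rep w)) I (τ + 1) x y).card)) := by
  classical
  have h := hc_chain (D := D) (U := U) (fun w => (D.FH W (τ + 1) w, D.cD U 𝒟 τ w))
    (fun I => if I ∈ 𝒟 then D.P.E (fun w => EV fun x y =>
      Real.log (((mJ (H (D.rep w)) (U (D.rep w)) I τ x y).card : ℝ) /
        (uJ (H (D.rep w)) (U (D.rep w)) I (τ + 1) x y).card)) else
      D.P.Hc (D.uI U I (τ + 1)) (fun _ => ())) (τ + 1) (fun 𝒟' I h1 _ h3 _ => by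
      beta_reduce
      split_ifs with hI
      · rw [← hc_step hc hs h3 τ]
        refine D.P.Hc_anti _ fun v w hvw => ?_
        simp only [Prod.mk.injEq] at hvw ⊢
        obtain ⟨h4, h5, h6⟩ := hvw
        rw [FH_eq] at h5
        exact ⟨FH_eq.2 ⟨h5.1, fun j hj => h5.2.1 j ((h𝒟 I hI).2 hj), h5.2.2.1, h5.2.2.2⟩, cD_mono h1 h4,
          cD_mono (lo_sub hc hs hdown hI) h6⟩
      · exact D.P.Hc_anti _ (Fac.const _ _)) 𝒟.card 𝒟 rfl (fun I hI => (h𝒟 I hI).1) hdown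
  refine h.trans (le_of_eq (Finset.sum_congr rfl fun I hI => ?_))
  rw [if_pos hI]

/-- time zero -/
theorem hcD_start {W : Finset K} {𝒟 : Finset (Finset K)} (h𝒟 : ∀ I ∈ 𝒟, I ∈ JJ K ∧ I ⊆ W) (hdown : ∀ I ∈ 𝒟, sl I ⊆ 𝒟) :
    D.P.Hc (D.cD U 𝒟 0) (D.FH W 0) ≤
      ∑ I ∈ 𝒟, D.P.E (fun w => EV fun x y => Real.log (((lJ (H (D.rep w)) (U (D.rep w)) I 0 x y).card : ℝ) /
        (uJ (H (D.rep w)) (U (D.rep w)) I 0 x y).card)) := by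
  classical
  have h := hc_chain (D := D) (U := U) (D.FH W 0)
    (fun I => if I ∈ 𝒟 then D.P.E (fun w => EV fun x y =>
      Real.log (((lJ (H (D.rep w)) (U (D.rep w)) I 0 x y).card : ℝ) /
        (uJ (H (D.rep w)) (U (D.rep w)) I 0 x y).card)) else
      D.P.Hc (D.uI U I 0) (fun _ => ())) 0 (fun 𝒟' I h1 _ h3 _ => by
      beta_reduce
      split_ifs with hI
      · rw [← hc_zero hc hs h3]
        refine D.P.Hc_anti _ fun v w hvw => ?_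
        simp only [Prod.mk.injEq] at hvw ⊢
        obtain ⟨h4, h5⟩ := hvw
        rw [FH_eq] at h5
        exact ⟨FH_eq.2 ⟨h5.1, fun j hj => h5.2.1 j ((h𝒟 I hI).2 hj), h5.2.2.1, h5.2.2.2⟩, cD_mono h1 h4⟩
      · exact D.P.Hc_anti _ (Fac.const _ _)) 𝒟.card 𝒟 rfl (fun I hI => (h𝒟 I hI).1) hdown
  refine h.trans (le_of_eq (Finset.sum_congr rfl fun I hI => ?_))
  rw [if_pos hI]

omit hc hs in
/-- two HD steps -/
theorem hcD_two (W : Finset K) (𝒟 : Finset (Finset K)) (t : ℕ) :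
    D.P.Hc (D.cD U 𝒟 (2 * (t + 1))) (fun w => (D.FW W (t + 1) w, D.cD U 𝒟 (2 * t) w)) ≤
      ∑ τ ∈ ({2 * t, 2 * t + 1} : Finset ℕ), D.P.Hc (D.cD U 𝒟 (τ + 1)) (fun w => (D.FH W (τ + 1) w, D.cD U 𝒟 τ w)) := by
  classical
  rw [Finset.sum_pair (by omega), ← D.FH_even]
  have e1 : 2 * (t + 1) = 2 * t + 1 + 1 := by ring
  rw [e1]
  have h1 : D.P.Hc (D.cD U 𝒟 (2 * t + 1 + 1)) (fun w => (D.FH W (2 * t + 1 + 1) w, D.cD U 𝒟 (2 * t) w)) ≤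
      D.P.Hc (fun w => (D.cD U 𝒟 (2 * t + 1 + 1) w, D.cD U 𝒟 (2 * t + 1) w))
        (fun w => (D.FH W (2 * t + 1 + 1) w, D.cD U 𝒟 (2 * t) w)) :=
    D.P.Hc_mono _ fun v w h => congrArg (fun z => z.1.1) h
  rw [D.P.Hc_chain] at h1
  refine h1.trans (add_le_add ?_ ?_)
  · refine D.P.Hc_anti _ fun v w h => ?_
    simp only [Prod.mk.injEq] at h ⊢
    exact ⟨D.filt_FH W _ v w h.1, h.2⟩
  · refine D.P.Hc_anti _ fun v w h => ?_
    simp only [Prod.mk.injEq] at h ⊢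
    exact ⟨h.2.1, h.1⟩

/-- **THE ENTROPIES OF A DOWN CLOSED FAMILY OF CLASSES** -/
theorem ent_cD {W : Finset K} {𝒟 : Finset (Finset K)} (h𝒟 : ∀ I ∈ 𝒟, I ∈ JJ K ∧ I ⊆ W) (hdown : ∀ I ∈ 𝒟, sl I ⊆ 𝒟)
    (n : ℕ) :
    D.P.Hc (D.cD U 𝒟 0) (D.FW W 0) + ∑ t ∈ range n,
      D.P.Hc (D.cD U 𝒟 (2 * (t + 1))) (fun w => (D.FW W (t + 1) w, D.cD U 𝒟 (2 * t) w)) ≤
      ∑ I ∈ 𝒟, D.P.E (fun w => bitsJ (H (D.rep w)) (U (D.rep w)) (2 * n) I) := by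
  classical
  have h0 := hcD_start hc hs h𝒟 hdown
  have e0 : D.FH W 0 = D.FW W 0 := D.FH_even W 0
  rw [e0] at h0
  have h1 : ∑ t ∈ range n,
      D.P.Hc (D.cD U 𝒟 (2 * (t + 1))) (fun w => (D.FW W (t + 1) w, D.cD U 𝒟 (2 * t) w)) ≤
      ∑ τ ∈ range (2 * n), D.P.Hc (D.cD U 𝒟 (τ + 1)) (fun w => (D.FH W (τ + 1) w, D.cD U 𝒟 τ w)) := by
    induction n with
    | zero => simp
    | succ n ih =>
      have h2 := hcD_two (D := D) (U := U) W 𝒟 n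
      rw [Finset.sum_range_succ, show 2 * (n + 1) = 2 * n + 1 + 1 by ring, Finset.sum_range_succ, Finset.sum_range_succ]
      rw [Finset.sum_pair (by omega)] at h2
      rw [show 2 * (n + 1) = 2 * n + 1 + 1 by ring] at h2
      linarith
  have h2 : ∑ τ ∈ range (2 * n), D.P.Hc (D.cD U 𝒟 (τ + 1)) (fun w => (D.FH W (τ + 1) w, D.cD U 𝒟 τ w)) ≤
      ∑ τ ∈ range (2 * n), ∑ I ∈ 𝒟, D.P.E (fun w => EV fun x y =>
        Real.log (((mJ (H (D.rep w)) (U (D.rep w)) I τ x y).card : ℝ) /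
          (uJ (H (D.rep w)) (U (D.rep w)) I (τ + 1) x y).card)) :=
    Finset.sum_le_sum fun τ _ => hcD_one hc hs h𝒟 hdown τ
  refine (add_le_add h0 (h1.trans h2)).trans (le_of_eq ?_)
  rw [Finset.sum_comm, ← Finset.sum_add_distrib]
  refine Finset.sum_congr rfl fun I _ => ?_
  rw [← D.P.E_sum, ← D.P.E_add]
  rfl

end WD

end

end Pool.Agent.GMJR
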