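import Pool.Agent.GMN.Scale

/-!
# GMJR/RecSum (helper4): sums over systems of names for ANY scale with the sibling bound

`Zf x` = scale of the index `x` with `∑ ν, Zf (sibl x ν) ≤ B`:
* `sumB_gen` : sum over the systems containing `J` of the products of the other scales is `≤ B ^ |Wt|`;
* `sum_low` : sum over the systems of names of the types `≤ W0` (default elsewhere) of the products over the types `≤ W0`
  is `≤ B ^ |Wt|`.
-/

set_option autoImplicit false
set_option linter.unusedSectionVars false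

namespace Pool.Agent.GMN

open Finset Pool.Agent.PWZ Pool.Agent.M3

noncomputable section

variable {Wt Nm : Type*} [Fintype Wt] [DecidableEq Wt] [PartialOrder Wt] [DecidableLE Wt] [DecidableEq Nm]
  [Inhabited Nm] [Fintype Nm]

/-- **sum over the systems containing `J`** -/
theorem sumB_gen {Zf : Wt × (Wt → Nm) → ℝ} (Z0 : ∀ x, 0 ≤ Zf x) {B : ℝ} (hB : 1 ≤ B)
    (htop : ∀ x, ∑ ν, Zf (sibl x ν) ≤ B) (J : Finset (Wt × (Wt → Nm))) :
    ∑ 𝔳 : Wt → Nm, (if J ⊆ ixs 𝔳 then ∏ x ∈ ixs 𝔳 \ J, Zf x else 0) ≤ B ^ Fintype.card Wt := by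
  classical
  have hB0 : 0 ≤ B := by linarith
  -- the factors
  set g : Wt → (Wt → Nm) → ℝ := fun W 𝔳 =>
    if h : ∃ x ∈ J, x.1 = W then (if res W 𝔳 = Classical.choose h then 1 else 0) else Zf (res W 𝔳) with hgd
  have g0 : ∀ W 𝔳, 0 ≤ g W 𝔳 := by
    intro W 𝔳
    simp only [hgd]
    split_ifs
    · norm_num
    · exact le_rfl
    · exact Z0 _
  have hgc : ∀ W 𝔳 𝔲, (∀ W' ≤ W, 𝔳 W' = 𝔲 W') → g W 𝔳 = g W 𝔲 := by
    intro W 𝔳 𝔲 h
    simp only [hgd]
    rw [res_congr h]
  have hs : ∀ W 𝔳, ∑ ν, g W (Function.update 𝔳 W ν) ≤ B := by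
    intro W 𝔳
    by_cases h : ∃ x ∈ J, x.1 = W
    · have e : ∀ ν, g W (Function.update 𝔳 W ν) =
          if res W (Function.update 𝔳 W ν) = Classical.choose h then 1 else 0 := by
        intro ν
        simp only [hgd]
        rw [dif_pos h]
      rw [Finset.sum_congr rfl fun ν _ => e ν]
      refine le_trans ?_ hB
      have h2 : ∀ ν ∈ (univ : Finset Nm), (if res W (Function.update 𝔳 W ν) = Classical.choose h then (1 : ℝ) else 0) ≤
          if ν = (Classical.choose h).2 W then 1 else 0 := by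
        intro ν _
        by_cases hr : res W (Function.update 𝔳 W ν) = Classical.choose h
        · rw [if_pos hr, if_pos]
          rw [← hr, res_top, Function.update_self]
        · rw [if_neg hr]
          split_ifs <;> norm_num
      refine (Finset.sum_le_sum h2).trans (le_of_eq ?_)
      simp
    · have e : ∀ ν, g W (Function.update 𝔳 W ν) = Zf (sibl (res W 𝔳) ν) := by
        intro ν
        simp only [hgd]
        rw [dif_neg h, sibl_res]
      rw [Finset.sum_congr rfl fun ν _ => e ν]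
      exact htop _
  refine le_trans (Finset.sum_le_sum fun 𝔳 _ => ?_) (nested g0 hgc hB0 hs)
  by_cases hJ : J ⊆ ixs 𝔳
  · rw [if_pos hJ]
    apply le_of_eq
    have hx : ∀ x ∈ J, x = res x.1 𝔳 := fun x hx => mem_ixs.1 (hJ hx)
    -- product over the types
    have e1 : ∏ x ∈ ixs 𝔳 \ J, Zf x = ∏ x ∈ ixs 𝔳, (if x ∈ J then 1 else Zf x) := by
      rw [Finset.prod_ite, Finset.prod_const_one, one_mul]
      refine Finset.prod_congr ?_ fun _ _ => rfl
      ext x
      simp only [mem_sdiff, mem_filter]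
    rw [e1, prod_ixs]
    refine Finset.prod_congr rfl fun W _ => ?_
    simp only [hgd]
    by_cases h : ∃ x ∈ J, x.1 = W
    · obtain ⟨x, hxJ, hxW⟩ := h
      have h' : ∃ x ∈ J, x.1 = W := ⟨x, hxJ, hxW⟩
      have h2 := Classical.choose_spec h'
      have e2 : res W 𝔳 = Classical.choose h' := by
        have := hx _ h2.1
        rw [h2.2] at this
        exact this.symm
      have e3 : res W 𝔳 ∈ J := by rw [e2]; exact h2.1
      rw [if_pos e3, dif_pos h', if_pos e2]
    · rw [dif_neg h, if_neg]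
      intro hr
      exact h ⟨_, hr, rfl⟩
  · rw [if_neg hJ]
    exact Finset.prod_nonneg fun W _ => g0 W 𝔳

open Classical in
/-- **sum over the systems of names of the types `≤ W0`** -/
theorem sum_low {Zf : Wt × (Wt → Nm) → ℝ} (Z0 : ∀ x, 0 ≤ Zf x) {B : ℝ} (hB : 1 ≤ B)
    (htop : ∀ x, ∑ ν, Zf (sibl x ν) ≤ B) (W0 : Wt) :
    ∑ 𝔳 ∈ (univ : Finset (Wt → Nm)).filter (fun 𝔳 => ∀ W, ¬ W ≤ W0 → 𝔳 W = default),
      ∏ x ∈ (ixs 𝔳).filter (fun x => x.1 ≤ W0), Zf x ≤ B ^ Fintype.card Wt := by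
  have hB0 : 0 ≤ B := by linarith
  set g : Wt → (Wt → Nm) → ℝ := fun W 𝔳 => if W ≤ W0 then Zf (res W 𝔳) else if 𝔳 W = default then 1 else 0 with hgd
  have g0 : ∀ W 𝔳, 0 ≤ g W 𝔳 := by
    intro W 𝔳
    simp only [hgd]
    split_ifs
    · exact Z0 _
    · norm_num
    · exact le_rfl
  have hgc : ∀ W 𝔳 𝔲, (∀ W' ≤ W, 𝔳 W' = 𝔲 W') → g W 𝔳 = g W 𝔲 := by
    intro W 𝔳 𝔲 h
    simp only [hgd]
    rw [res_congr h, h W le_rfl]
  have hs : ∀ W 𝔳, ∑ ν, g W (Function.update 𝔳 W ν) ≤ B := by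
    intro W 𝔳
    by_cases h : W ≤ W0
    · have e : ∀ ν, g W (Function.update 𝔳 W ν) = Zf (sibl (res W 𝔳) ν) := by
        intro ν
        simp only [hgd]
        rw [if_pos h, sibl_res]
      rw [Finset.sum_congr rfl fun ν _ => e ν]
      exact htop _
    · have e : ∀ ν, g W (Function.update 𝔳 W ν) = if ν = default then 1 else 0 := by
        intro ν
        simp only [hgd]
        rw [if_neg h, Function.update_self]
      rw [Finset.sum_congr rfl fun ν _ => e ν]
      refine le_trans (le_of_eq ?_) hB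
      simp
  refine le_trans ?_ (nested g0 hgc hB0 hs)
  rw [← Finset.sum_filter_add_sum_filter_not univ (fun 𝔳 : Wt → Nm => ∀ W, ¬ W ≤ W0 → 𝔳 W = default)
    (fun 𝔳 => ∏ W, g W 𝔳)]
  refine le_add_of_le_of_nonneg (Finset.sum_le_sum fun 𝔳 h𝔳 => ?_)
    (Finset.sum_nonneg fun 𝔳 _ => Finset.prod_nonneg fun W _ => g0 W 𝔳)
  have h1 := (mem_filter.1 h𝔳).2
  apply le_of_eq
  rw [Finset.prod_filter, prod_ixs]
  refine Finset.prod_congr rfl fun W _ => ?_
  simp only [hgd, res_fst]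
  by_cases h : W ≤ W0
  · rw [if_pos h, if_pos h]
  · rw [if_neg h, if_neg h, if_pos (h1 W h)]

end

end Pool.Agent.GMN
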