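import Pool.Agent.GMJR.JW
import Pool.Agent.GMJR.RecSum
import Pool.Agent.GM75.Wait

/-!
# GMJR/JRS (helper4): THE RECORD LEMMA for any number of reference vertices: `RecOut` from the names `JW` of the hidden vertex

Indices `x = (W, names ≤ W)`, scale `Zs J.d Bn` (GMN/Scale), coins at the indices; an index is recorded iff
`(1/2) ^ level ≤ Rr * scale`; a tuple of ranks is allowed iff all indices of some system of names are recorded.
`CJ u` = recorded traces of the owner `u` (all indices of the types `≤ univ - u` recorded) = function of (coins, exact vertices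
off `u, v`, cell of `u`, node); `N u = ownL (CJ u) u`.

* `jrv_J` : the hypotheses `JRV`; `fail_J` : failure `≤ 2 D0 kap (8 Bn)^w / Rr ((Nv + 1) Mu) + M^|ι| (1 + D0) aw (Nv + 1) + qb`;
* `E_CJ` : mean size `≤ (Rr Bn)^w`, `w = card (WTy Rf)`;
* `rec_of_JW` : **`RecOut`**.
-/

set_option autoImplicit false
set_option linter.unusedSectionVars false

namespace Pool.Agent.GMJR

open Finset Pool.Agent.PWZ Pool.Agent.M3 Pool.Agent.M3.TS Pool.Agent.GM Pool.Agent.GMN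

noncomputable section

variable {ι Om Ξ Pt V Γ κ : Type} [Fintype ι] [DecidableEq ι] [Fintype Om] [Fintype Ξ] [Fintype Pt]
  [Fintype V] {S : Sys ι Om Ξ Pt V Γ κ} {β : Type} {D : StepIn S β}

/-! ### visibility -/

theorem Vis.step {W : Finset {j // j ∈ D.Rf}} {t : ℕ} {v w : Om} (h : Vis D W (t + 1) v w) : Vis D W t v w :=
  ⟨h.1, h.2.1, fun j => S.cl_le (Nat.le_succ t) (h.2.2.1 j), S.gm_step t h.2.2.2⟩

theorem vis_of_Kc {W : Finset {j // j ∈ D.Rf}} {bl i : ℕ} {v w : Om} (h : D.Kc bl i v = D.Kc bl i w) :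
    Vis D W (i / bl) v w := by
  rw [Kc_eq] at h
  refine ⟨pz_of_pcl h.1, fun j hj _ => h.2.1 j hj, fun j => ?_, h.2.2⟩
  rw [h.2.1 j.1 fun e => D.vR (by rw [← e]; exact j.2)]

section sc

variable {Nk : Type} [Fintype Nk] [DecidableEq Nk] [Inhabited Nk] {M : ℕ}
  {d : ℕ → WTy {j // j ∈ D.Rf} × (WTy {j // j ∈ D.Rf} → Nk ⊕ Fin M) → Om → ℝ} {Bn : ℝ}

/-- indices -/
abbrev IxJ (D : StepIn S β) (Nk : Type) (M : ℕ) : Type :=
  WTy {j // j ∈ D.Rf} × (WTy {j // j ∈ D.Rf} → Nk ⊕ Fin M)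

theorem rmx_vis (hd : ∀ t x v w, Vis D x.1.1 t v w → d t x v = d t x w) (t : ℕ) (x : IxJ D Nk M) {v w : Om}
    (h : Vis D x.1.1 t v w) : rmx d t x v = rmx d t x w := by
  induction t with
  | zero => exact hd 0 x v w h
  | succ t ih =>
    show max (rmx d t x v) (d (t + 1) x v) = max (rmx d t x w) (d (t + 1) x w)
    rw [ih h.step, hd (t + 1) x v w h]

theorem Sb_vis (hd : ∀ t x v w, Vis D x.1.1 t v w → d t x v = d t x w) (t : ℕ) (x : IxJ D Nk M) {v w : Om}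
    (h : Vis D x.1.1 t v w) : Sb d t x v = Sb d t x w :=
  Finset.sum_congr rfl fun ν _ => rmx_vis hd t (sibl x ν) (by exact h)

theorem Zs_vis (hd : ∀ t x v w, Vis D x.1.1 t v w → d t x v = d t x w) (t : ℕ) (x : IxJ D Nk M) {v w : Om}
    (h : Vis D x.1.1 t v w) : Zs d Bn t x v = Zs d Bn t x w := by
  induction t with
  | zero =>
    show (if Sb d 0 x v ≤ Bn then d 0 x v else 0) = if Sb d 0 x w ≤ Bn then d 0 x w else 0
    rw [Sb_vis hd 0 x h, hd 0 x v w h]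
  | succ t ih =>
    show max (Zs d Bn t x v) (if Sb d (t + 1) x v ≤ Bn then d (t + 1) x v else 0) =
      max (Zs d Bn t x w) (if Sb d (t + 1) x w ≤ Bn then d (t + 1) x w else 0)
    rw [ih h.step, Sb_vis hd (t + 1) x h, hd (t + 1) x v w h]

/-- a positive scale comes from a positive density -/
theorem Zs_ne {t : ℕ} {x : IxJ D Nk M} {w : Om} (h : Zs d Bn t x w ≠ 0) : ∃ s ≤ t, d s x w ≠ 0 := by
  induction t with
  | zero =>
    refine ⟨0, le_rfl, fun h0 => h ?_⟩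
    show (if Sb d 0 x w ≤ Bn then d 0 x w else 0) = 0
    rw [h0, ite_self]
  | succ t ih =>
    by_cases h1 : Zs d Bn t x w = 0
    · refine ⟨t + 1, le_rfl, fun h0 => h ?_⟩
      show max (Zs d Bn t x w) (if Sb d (t + 1) x w ≤ Bn then d (t + 1) x w else 0) = 0
      rw [h1, h0, ite_self, max_self]
    · obtain ⟨s, hs, hd⟩ := ih h1
      exact ⟨s, by omega, hd⟩

theorem Zs_le_of {s t : ℕ} (h : s ≤ t) (x : IxJ D Nk M) (w : Om) : Zs d Bn s x w ≤ Zs d Bn t x w := by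
  induction t, h using Nat.le_induction with
  | base => exact le_rfl
  | succ t _ ih => exact ih.trans (Zs_mono t x w)

end sc

/-! ### the abstract record lemma -/

section jrv

variable {Nk : Type} [Fintype Nk] [DecidableEq Nk] [Inhabited Nk] {M : ℕ} {hM : 0 < M} {kap Bn qb aw : ℝ}
  (J : JW D M hM Nk kap Bn qb aw) (bl : ℕ)

/-- scale at machine times -/
def ZJ (i : ℕ) (x : IxJ D Nk M) (w : Om) : ℝ := Zs J.d Bn (i / bl) x w

/-- the hidden vertex has the names, machine times -/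
def hasJ (i : ℕ) (w : Om) (c : WTy {j // j ∈ D.Rf} → Nk ⊕ Fin M) : Prop := J.has (i / bl) w c

/-- good, machine times up to `S.n * bl + (bl - 1)` -/
def GJ (i : ℕ) (w : Om) : Prop := i ≤ S.n * bl + (bl - 1) ∧ J.G (i / bl) w

variable {J bl}

theorem div_le_n (hbl : 1 ≤ bl) {i : ℕ} (hi : i ≤ S.n * bl + (bl - 1)) : i / bl ≤ S.n := by
  have h2 : i < (S.n + 1) * bl := by rw [Nat.add_mul, one_mul]; omega
  have h3 := (Nat.div_lt_iff_lt_mul (by omega)).2 h2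
  omega

theorem ZJ_fac (i : ℕ) (x : IxJ D Nk M) : Fac (D.Kc bl i) (ZJ J bl i x) := fun _ _ h =>
  Zs_vis J.d_vis (i / bl) x (vis_of_Kc h)

theorem ZJ_nonneg (i : ℕ) (x : IxJ D Nk M) (w : Om) : 0 ≤ ZJ J bl i x w := Zs_nonneg J.d0 _ _ _

theorem ZJ_mono (i : ℕ) (x : IxJ D Nk M) (w : Om) : ZJ J bl i x w ≤ ZJ J bl (i + 1) x w :=
  Zs_le_of (Nat.div_le_div_right (Nat.le_succ i)) x w

theorem AvJ_fac (Rr : ℝ) (f : IxJ D Nk M → ℕ) (i : ℕ) :
    Fac (D.Kc bl i) (GMN.Av ixs (rfJ hM) (ZJ J bl) Rr f i) := by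
  intro v w h
  funext n
  apply propext
  unfold GMN.Av rec'
  refine exists_congr fun b => and_congr Iff.rfl ?_
  refine forall_congr' fun x => forall_congr' fun _ => ?_
  rw [ZJ_fac i x v w h]

theorem AvJ_mono {Rr : ℝ} (hR : 0 ≤ Rr) (f : IxJ D Nk M → ℕ) (i : ℕ) (w : Om) (r : Rk ι M)
    (h : GMN.Av ixs (rfJ hM) (ZJ J bl) Rr f i w r) : GMN.Av ixs (rfJ hM) (ZJ J bl) Rr f (i + 1) w r := by
  obtain ⟨b, h1, h2⟩ := h
  exact ⟨b, h1, fun x hx => (h2 x hx).trans (mul_le_mul_of_nonneg_left (ZJ_mono i x w) hR)⟩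

/-- the knowledge of the client at the node `t` -/
theorem filt_K1 : Filt (fun t => D.Kc 1 t) := Kc_filt

/-- **the hypotheses of the abstract record lemma** -/
theorem jrv_J (hbl : 1 ≤ bl) (hBn : 1 ≤ Bn) {D0 : ℝ} (hD0 : S.Dbl D0) {Rr : ℝ} (hR1 : 1 ≤ Rr) {g0 : ℕ}
    (hg : (1 / 2 : ℝ) ^ g0 ≤ J.dl) {St : Type} {Mw : Om → Mach (Rk ι M) St} {N : ℕ}
    {Mu Nv : ℝ} (hMu : 0 ≤ Mu) (hNv : 0 ≤ Nv) (hMf : MFac (D.Kc bl) Mw)
    (hterm : ∀ A : ℕ → Rk ι M → Prop, ∀ w, ∀ i, (Mw w).pk A N i N = none)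
    (huse : ∀ A : ℕ → Om → Rk ι M → Prop, (∀ i, Fac (D.Kc bl i) (A i)) → (∀ i w r, A i w r → A (i + 1) w r) →
      S.P.E (fun w => ∑ i ∈ range (S.n * bl + bl), ∑ l ∈ range N, ind ((Mw w).pk (fun j => A j w) N i l ≠ none)) ≤ Mu)
    (hends : ∀ A : ℕ → Om → Rk ι M → Prop, (∀ i, Fac (D.Kc bl i) (A i)) → (∀ i w r, A i w r → A (i + 1) w r) →
      ∀ r, ∀ i < S.n * bl + bl, ∀ F : Om → Prop, (∀ v w, D.Kc bl i v = D.Kc bl i w → (F v ↔ F w)) →
      ∑ t ∈ Ico i (S.n * bl + bl), S.P.Pr (fun w => F w ∧ (Mw w).endM (fun j => A j w) N r t) ≤ Nv * S.P.Pr F) :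
    GMN.JRV S.P (D.Kc bl) ixs (rfJ hM) (hasJ J bl) (GJ J bl) (ZJ J bl) Rr Mw N (S.n * bl + (bl - 1)) g0
      (Fintype.card (WTy {j // j ∈ D.Rf})) Mu Nv kap (Bn ^ Fintype.card (WTy {j // j ∈ D.Rf})) D0 where
  R1 := hR1
  Db1 := hD0.one_le
  filt := Kc_filt
  mfac := hMf
  Zfac i x := ZJ_fac i x
  Z0 i x w := ZJ_nonneg i x w
  Zmono i x w := ZJ_mono i x w
  cum i w n h := by
    have h3 : (i + 1) / bl = i / bl ∨ (i + 1) / bl = i / bl + 1 := by
      have := Nat.succ_div (a := i) (b := bl)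
      split_ifs at this <;> omega
    rcases h3 with h3 | h3
    · obtain ⟨c, h1, h2⟩ := h
      refine ⟨c, h1, ?_⟩
      unfold hasJ
      rw [h3]
      exact h2
    · obtain ⟨c, h1, h2⟩ := J.cum (i / bl) w n h
      refine ⟨c, h1, ?_⟩
      unfold hasJ
      rw [h3]
      exact h2
  dbl i w _ s := Kc_dbl hD0 i w s
  low i w c _ h hG x hx := by
    have ht := div_le_n hbl hG.1
    have hx' := mem_ixs.1 hx
    have h1 : J.dl ≤ J.d (i / bl) x w := by
      rw [hx']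
      exact J.low _ ht w c h hG.2 x.1
    have h2 : J.d (i / bl) x w ≤ ZJ J bl i x w := by
      refine d_le_Zs ?_
      rw [hx']
      exact J.heavy _ ht w c h hG.2 x.1
    have h3 : ZJ J bl i x w ≤ Rr * ZJ J bl i x w := le_mul_of_one_le_left (ZJ_nonneg i x w) hR1
    exact ((hg.trans h1).trans h2).trans h3
  kap0 := J.kap0
  mass i c w hw := by
    by_cases hi : i ≤ S.n * bl + (bl - 1)
    · have ht := div_le_n hbl hi
      have h1 := mass_Zs (P := S.P) (K := fun t => D.Kc 1 t) (d := J.d) (B := Bn) filt_K1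
        (fun t x v w' h => J.d_vis t x v w' (by
          have h' := vis_of_Kc (D := D) (W := x.1.1) (bl := 1) (i := t) h
          rwa [Nat.div_one] at h')) J.d0
        (has := J.has) (G0 := J.G) J.kap0 (i := i / bl) (𝔳 := c) hw
        (by
          have h2 := J.clo 1 (i / bl) (by rw [Nat.div_one]; exact ht) c w
          rw [Nat.div_one] at h2
          exact h2)
      have e : D.Kc 1 (i / bl) = D.Kc bl i := by
        funext w
        unfold StepIn.Kc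
        rw [Nat.div_one]
      rw [e] at h1
      refine le_trans (S.P.ce_mono (fun v _ => ?_) w) h1
      refine ind_mono fun hv => ⟨hv.1, hv.2.2, fun c' hc' W => ?_⟩
      exact J.heavy _ ht v c' hc' hv.2.2 W
    · have h1 : S.P.ce (D.Kc bl i) (fun v => ind (hasJ J bl i v c ∧ GJ J bl i v)) w =
          S.P.ce (D.Kc bl i) (fun _ => 0) w :=
        ce_cls S.P (D.Kc bl i) fun v _ => ind_not fun h => hi h.2.1
      rw [h1, S.P.ce_const _ _ hw]
      exact mul_nonneg J.kap0 (Finset.prod_nonneg fun x _ => ZJ_nonneg _ _ _)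
  B0 := by positivity
  sumB L _ w _ := sumB_Zs J.d0 hBn _ L w
  card c := card_ixs c
  term f w _ i _ := hterm _ w i
  Mu0 := hMu
  use f := by
    have h1 := huse (fun j w r => GMN.Av ixs (rfJ hM) (ZJ J bl) Rr f j w r)
      (fun i => AvJ_fac Rr f i) (fun i w r h => AvJ_mono (zero_le_one.trans hR1) f i w r h)
    refine le_trans (le_of_eq ?_) h1
    have e : S.n * bl + (bl - 1) + 1 = S.n * bl + bl := by omega
    refine S.P.E_congr fun w _ => ?_
    unfold nUseV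
    rw [e]
  Nv0 := hNv
  ends f n i hi F hF := by
    have h1 := hends (fun j w r => GMN.Av ixs (rfJ hM) (ZJ J bl) Rr f j w r)
      (fun i => AvJ_fac Rr f i) (fun i w r h => AvJ_mono (zero_le_one.trans hR1) f i w r h) n i (by omega) F hF
    have e : Icc i (S.n * bl + (bl - 1)) = Ico i (S.n * bl + bl) := by
      ext t
      rw [mem_Icc, mem_Ico]
      omega
    rw [e]
    exact h1

end jrv

/-! ### the records as functions -/

section recs

variable {Nk : Type} [Fintype Nk] [DecidableEq Nk] [Inhabited Nk] {M : ℕ} {hM : 0 < M} {kap Bn qb aw : ℝ}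
  (J : JW D M hM Nk kap Bn qb aw) (Rr : ℝ) (g0 : ℕ)

/-- number of indices -/
def nIx (D : StepIn S β) (Nk : Type) [Fintype Nk] (M : ℕ) : ℕ := Fintype.card (IxJ D Nk M)

/-- position of the coin of an index -/
def posJ (D : StepIn S β) (Nk : Type) [Fintype Nk] (M : ℕ) (x : IxJ D Nk M) : Fin (nIx D Nk M) :=
  Fintype.equivFin (IxJ D Nk M) x

theorem posJ_inj : Function.Injective (posJ D Nk M) := (Fintype.equivFin (IxJ D Nk M)).injective

/-- the coins -/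
abbrev CoJ (D : StepIn S β) (Nk : Type) [Fintype Nk] (M g0 : ℕ) : Type := Fin (nIx D Nk M) → Fin (2 ^ g0)

/-- the index `x` is recorded at the time `s` -/
def recJ (x' : IxJ D Nk M) (s : ℕ) (g : Γ) (ξ : Ξ × CoJ D Nk M g0) (x : ι → Pt) : Prop :=
  ∃ w, S.gm s w = g ∧ D.pz (S.xi w) = D.pz ξ.1 ∧ (∀ j, j ≠ D.v → S.x w j = x j) ∧
    (1 / 2 : ℝ) ^ (co g0 (posJ D Nk M) x' ξ.2) ≤ Rr * Zs J.d Bn s x' w

/-- allowed -/
def alJ (t : ℕ) (g : Γ) (ξ : Ξ × CoJ D Nk M g0) (x : ι → Pt) (r : Rk ι M) : Prop :=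
  ∃ s ≤ t, ∃ c, rfJ hM c = r ∧ ∀ x' ∈ ixs c, recJ J Rr g0 x' s (S2.anc S.par t g s) ξ x

/-- a trace of the owner `u` is recorded -/
def inJ (u : ι) (t : ℕ) (g : Γ) (ξ : Ξ × CoJ D Nk M g0) (x : ι → Pt) (p : ℕ) : Prop :=
  ∃ h : u ∈ D.Rf, ∃ s ≤ t, ∃ c : WTy {j // j ∈ D.Rf} → Nk ⊕ Fin M,
    (∀ W ≤ tyL (⟨u, h⟩ : {j // j ∈ D.Rf}), recJ J Rr g0 (GMN.res W c) s (S2.anc S.par t g s) ξ x) ∧
    ∃ b, c (tyL ⟨u, h⟩) = Sum.inr b ∧ cfR D M u b s (S2.anc S.par t g s) x = some p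

open Classical in
/-- recorded traces of the owner `u` -/
def CJ (u : ι) : CS ι (Ξ × CoJ D Nk M g0) Pt Γ := fun t g ξ x =>
  ((range (t + 1) ×ˢ (univ : Finset (Fin M))).biUnion fun sb =>
    (cfR D M u sb.2 sb.1 (S2.anc S.par t g sb.1) x).toFinset).filter fun p => inJ J Rr g0 u t g ξ x p

variable {J Rr g0}

theorem mem_CJ {u : ι} {t : ℕ} {g : Γ} {ξ : Ξ × CoJ D Nk M g0} {x : ι → Pt} {p : ℕ} :
    p ∈ CJ J Rr g0 u t g ξ x ↔ inJ J Rr g0 u t g ξ x p := by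
  classical
  unfold CJ
  rw [mem_filter]
  refine ⟨fun h => h.2, fun h => ⟨?_, h⟩⟩
  obtain ⟨_, s, hs, c, _, b, _, hb⟩ := h
  rw [Finset.mem_biUnion]
  refine ⟨(s, b), Finset.mem_product.2 ⟨mem_range.2 (by simp only; omega), mem_univ _⟩, ?_⟩
  rw [Option.mem_toFinset]
  exact hb

/-- at sample points -/
theorem recJ_w {x' : IxJ D Nk M} {s : ℕ} {w : Om} {c : CoJ D Nk M g0} :
    recJ J Rr g0 x' s (S.gm s w) (S.xi w, c) (S.x w) ↔
      (1 / 2 : ℝ) ^ (co g0 (posJ D Nk M) x' c) ≤ Rr * Zs J.d Bn s x' w := by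
  constructor
  · rintro ⟨w', h1, h2, h3, h4⟩
    rw [Zs_vis J.d_vis s x' (v := w') (w := w) ⟨h2, fun j hj _ => h3 j hj, fun j => by
      rw [h3 j.1 fun e => D.vR (by rw [← e]; exact j.2)], h1⟩] at h4
    exact h4
  · intro h
    exact ⟨w, rfl, rfl, fun _ _ => rfl, h⟩

theorem recJ_congr {x' : IxJ D Nk M} {s : ℕ} {g : Γ} {ξ ξ' : Ξ × CoJ D Nk M g0} (h : D.pz ξ.1 = D.pz ξ'.1)
    (h2 : ξ.2 = ξ'.2) (x : ι → Pt) : recJ J Rr g0 x' s g ξ x ↔ recJ J Rr g0 x' s g ξ' x := by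
  unfold recJ
  rw [h, h2]

theorem recJ_dep (x' : IxJ D Nk M) (s : ℕ) (g : Γ) (ξ : Ξ × CoJ D Nk M g0) :
    Dep (univ.erase D.v) (recJ J Rr g0 x' s g ξ) := by
  intro x y h
  unfold recJ
  apply propext
  refine exists_congr fun w => and_congr Iff.rfl (and_congr Iff.rfl (and_congr ?_ Iff.rfl))
  exact forall_congr' fun j => forall_congr' fun hj => by rw [h j (mem_erase.2 ⟨hj, mem_univ _⟩)]

/-- **indices of the types `≤ univ - u` see only the cell of `u`** -/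
theorem recJ_depC {u : ι} (hu : u ∈ D.Rf) {x' : IxJ D Nk M} (hx' : x'.1 ≤ tyL (⟨u, hu⟩ : {j // j ∈ D.Rf})) (s : ℕ)
    (g : Γ) (ξ : Ξ × CoJ D Nk M g0) : DepC S s ((univ.erase u).erase D.v) {u} (recJ J Rr g0 x' s g ξ) := by
  have huv : u ≠ D.v := fun e => D.vR (by rw [← e]; exact hu)
  -- one direction
  have key : ∀ x y : ι → Pt, (∀ i ∈ (univ.erase u).erase D.v, x i = y i) →
      (∀ i ∈ ({u} : Finset ι), S.cl s (x i) = S.cl s (y i)) → recJ J Rr g0 x' s g ξ x → recJ J Rr g0 x' s g ξ y := by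
    rintro x y h1 h2 ⟨w, hg, hp, hx, hr⟩
    obtain ⟨w2, e1, e2, e3⟩ := exists_pt S D.v s w (S.xi w) y
    refine ⟨w2, e3.trans hg, by rw [e1]; exact hp, e2, ?_⟩
    rw [Zs_vis J.d_vis s x' (v := w2) (w := w) ⟨by rw [e1], fun j hj hW => ?_, fun j => ?_, e3⟩]
    · exact hr
    · -- exact vertices
      have hju : j ≠ u := by
        rintro rfl
        have h3 := hx' (hW hu)
        exact absurd h3 (notMem_erase _ _)
      rw [e2 j hj, hx j hj]
      exact (h1 j (mem_erase.2 ⟨hj, mem_erase.2 ⟨hju, mem_univ _⟩⟩)).symm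
    · have hjv : j.1 ≠ D.v := fun e => D.vR (by rw [← e]; exact j.2)
      rw [e2 j.1 hjv, hx j.1 hjv]
      by_cases hju : j.1 = u
      · rw [hju]
        exact (h2 u (mem_singleton_self u)).symm
      · rw [h1 j.1 (mem_erase.2 ⟨hjv, mem_erase.2 ⟨hju, mem_univ _⟩⟩)]
  intro x y h1 h2
  apply propext
  exact ⟨key x y h1 h2, key y x (fun i hi => (h1 i hi).symm) fun i hi => (h2 i hi).symm⟩

theorem CJ_dep {u : ι} (hu : u ∈ D.Rf) (t : ℕ) (g : Γ) (ξ : Ξ × CoJ D Nk M g0) :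
    DepC S t ((univ.erase u).erase D.v) {u} (CJ J Rr g0 u t g ξ) := by
  have huv : u ≠ D.v := fun e => D.vR (by rw [← e]; exact hu)
  intro x y h1 h2
  ext p
  rw [mem_CJ, mem_CJ]
  unfold inJ
  refine exists_congr fun h => exists_congr fun s => and_congr_right fun hs => exists_congr fun c =>
    and_congr ?_ (exists_congr fun b => and_congr Iff.rfl ?_)
  · refine forall_congr' fun W => forall_congr' fun hW => ?_
    rw [(recJ_depC (J := J) (Rr := Rr) (g0 := g0) hu (x' := GMN.res W c) hW s (S2.anc S.par t g s) ξ).le hs x y h1 h2]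
  · rw [(cfR_dep (D := D) (M := M) huv b s (S2.anc S.par t g s)).le hs x y h1 h2]

theorem CJ_empty {u : ι} (hu : u ∉ D.Rf) (t : ℕ) (g : Γ) (ξ : Ξ × CoJ D Nk M g0) (x : ι → Pt) :
    CJ J Rr g0 u t g ξ x = ∅ := by
  ext p
  rw [mem_CJ]
  constructor
  · rintro ⟨h, _⟩; exact absurd h hu
  · intro h; exact absurd h (notMem_empty _)

theorem CJ_mono (u : ι) (t : ℕ) (g : Γ) (ξ : Ξ × CoJ D Nk M g0) (x : ι → Pt) :
    CJ J Rr g0 u t (S.par t g) ξ x ⊆ CJ J Rr g0 u (t + 1) g ξ x := by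
  intro p hp
  rw [mem_CJ] at hp ⊢
  obtain ⟨h, s, hs, c, h1, b, h2, h3⟩ := hp
  have e : S2.anc S.par (t + 1) g s = S2.anc S.par t (S.par t g) s := S2.anc_succ _ hs g
  refine ⟨h, s, by omega, c, ?_, b, h2, ?_⟩
  · rw [e]; exact h1
  · rw [e]; exact h3

theorem CJ_congr (u : ι) (t : ℕ) (g : Γ) {ξ ξ' : Ξ × CoJ D Nk M g0} (h : D.pz ξ.1 = D.pz ξ'.1)
    (h2 : ξ.2 = ξ'.2) (x : ι → Pt) : CJ J Rr g0 u t g ξ x = CJ J Rr g0 u t g ξ' x := by
  ext p
  rw [mem_CJ, mem_CJ]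
  unfold inJ
  simp only [recJ_congr (J := J) (Rr := Rr) (g0 := g0) h h2]

/-! allowed tuples -/

theorem alJ_dep (t : ℕ) (g : Γ) (ξ : Ξ × CoJ D Nk M g0) : Dep (univ.erase D.v) (alJ J Rr g0 t g ξ) := by
  intro x y h
  funext r
  apply propext
  unfold alJ
  refine exists_congr fun s => and_congr Iff.rfl (exists_congr fun c => and_congr Iff.rfl ?_)
  refine forall_congr' fun x' => forall_congr' fun _ => ?_
  rw [recJ_dep x' s _ ξ x y h]

theorem alJ_mono (t : ℕ) (g : Γ) (ξ : Ξ × CoJ D Nk M g0) (x : ι → Pt) (r : Rk ι M)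
    (h : alJ J Rr g0 t (S.par t g) ξ x r) : alJ J Rr g0 (t + 1) g ξ x r := by
  obtain ⟨s, hs, c, h1, h2⟩ := h
  have e : S2.anc S.par (t + 1) g s = S2.anc S.par t (S.par t g) s := S2.anc_succ _ hs g
  refine ⟨s, by omega, c, h1, fun x' hx' => ?_⟩
  rw [e]
  exact h2 x' hx'

theorem alJ_congr (t : ℕ) (g : Γ) {ξ ξ' : Ξ × CoJ D Nk M g0} (h : D.pz ξ.1 = D.pz ξ'.1)
    (h2 : ξ.2 = ξ'.2) (x : ι → Pt) : alJ J Rr g0 t g ξ x = alJ J Rr g0 t g ξ' x := by
  funext r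
  apply propext
  unfold alJ
  simp only [recJ_congr (J := J) (Rr := Rr) (g0 := g0) h h2]

/-- at sample points the allowed tuples are those of the abstract record lemma -/
theorem alJ_w (hR : 0 ≤ Rr) (t : ℕ) (w : Om) (c : CoJ D Nk M g0) (r : Rk ι M) :
    alJ J Rr g0 t (S.gm t w) (S.xi w, c) (S.x w) r ↔ ∃ c', rfJ hM c' = r ∧
      ∀ x' ∈ ixs c', (1 / 2 : ℝ) ^ (co g0 (posJ D Nk M) x' c) ≤ Rr * Zs J.d Bn t x' w := by
  constructor
  · rintro ⟨s, hs, c', h1, h2⟩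
    refine ⟨c', h1, fun x' hx' => ?_⟩
    have h3 := h2 x' hx'
    rw [S.anc_gm hs, recJ_w] at h3
    exact h3.trans (mul_le_mul_of_nonneg_left (Zs_le_of hs x' w) hR)
  · rintro ⟨c', h1, h2⟩
    refine ⟨t, le_rfl, c', h1, fun x' hx' => ?_⟩
    rw [S.anc_gm le_rfl, recJ_w]
    exact h2 x' hx'

theorem cfR_le {u : ι} {b : Fin M} {s t : ℕ} (h : s ≤ t) {w : Om} {p : ℕ}
    (h1 : cfR D M u b s (S.gm s w) (S.x w) = some p) : cfR D M u b t (S.gm t w) (S.x w) = some p := by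
  induction t, h using Nat.le_induction with
  | base => exact h1
  | succ t _ ih =>
    refine cfR_succ ?_
    rw [S.par_gm]
    exact ih

theorem rfJ_list {u : ι} (hu : u ∈ D.Rf) {c : WTy {j // j ∈ D.Rf} → Nk ⊕ Fin M} {b : Fin M}
    (h : c (tyL ⟨u, hu⟩) = Sum.inr b) : rfJ hM c u = b := by
  unfold rfJ
  rw [dif_pos hu, h]

/-- **the traces of an allowed tuple are recorded** -/
theorem alJ_mem {t : ℕ} {w : Om} {c : CoJ D Nk M g0} {r : Rk ι M}
    (h : alJ J Rr g0 t (S.gm t w) (S.xi w, c) (S.x w) r) {u : ι} (hu : u ∈ D.Rf) :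
    ∃ p, (D.refR M u).At (r u) t w p ∧ p ∈ CJ J Rr g0 u t (S.gm t w) (S.xi w, c) (S.x w) := by
  obtain ⟨s, hs, c', h1, h2⟩ := h
  rw [S.anc_gm hs] at h2
  have h3 := h2 _ (res_mem (tyL ⟨u, hu⟩) c')
  rw [recJ_w] at h3
  have h4 : Zs J.d Bn s (GMN.res (tyL ⟨u, hu⟩) c') w ≠ 0 := by
    intro h0
    rw [h0, mul_zero] at h3
    have : (0 : ℝ) < (1 / 2 : ℝ) ^ (co g0 (posJ D Nk M) (GMN.res (tyL ⟨u, hu⟩) c') c) := by positivity
    linarith
  obtain ⟨s', hs', h5⟩ := Zs_ne h4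
  obtain ⟨b, hb, p, hp⟩ := J.d_some s' _ w h5 ⟨u, hu⟩ rfl
  have hb' : c' (tyL ⟨u, hu⟩) = Sum.inr b := by
    rw [← hb]
    exact (res_top (tyL ⟨u, hu⟩) c').symm
  refine ⟨p, ?_, mem_CJ.2 ⟨hu, s, hs, c', fun W _ => ?_, b, hb', ?_⟩⟩
  · rw [← h1, rfJ_list hu hb']
    exact cfR_le (hs'.trans hs) hp
  · rw [S.anc_gm hs]
    exact h2 _ (res_mem W c')
  · rw [S.anc_gm hs]
    exact cfR_le hs' hp

/-- box sets along the branch -/
theorem bst_anc {u l : ι} (b : BSt S u l) {s t : ℕ} (h : s ≤ t) (w : Om) (x : ι → Pt) :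
    b.L s (S.gm s w) x ⊆ b.L t (S.gm t w) x := by
  induction t, h using Nat.le_induction with
  | base => exact subset_rfl
  | succ t _ ih =>
    refine ih.trans ?_
    have h1 := b.mono t (S.gm (t + 1) w) x
    rw [S.par_gm] at h1
    exact h1

/-- **the record of the owner is in the box set** -/
theorem ownJ_pub (u : ι) (hu : u ∈ D.Rf) (t : ℕ) (w : Om × CoJ D Nk M g0) :
    (ownL (addCoins S (CoJ D Nk M g0)) (CJ J Rr g0 u) u).at' t w ⊆ (D.Br u).cmp.cmp.at' t w.1 := by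
  have huv : u ≠ D.v := fun e => D.vR (by rw [← e]; exact hu)
  intro n hn
  obtain ⟨s, hs, w', h1, hn⟩ := mem_ownL.1 hn
  obtain ⟨_, s', hs', _, _, b, _, hb⟩ := mem_CJ.1 hn
  have hb' : cfR D M u b s' (S.gm s' w.1) (shw S u w.1 w'.1) = some n := by
    have e : S2.anc S.par s (S.gm s w.1) s' = S.gm s' w.1 := S.anc_gm hs' w.1
    have hb2 : cfR D M u b s' (S2.anc S.par s (S.gm s w.1) s') (shw S u w.1 w'.1) = some n := hb
    rw [e] at hb2
    exact hb2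
  rw [cfR_eq huv] at hb'
  have h2 := bst_anc (D.Br u).cmp hs' w.1 _ (nth_mem (D.Br u).cmp.mono hb')
  exact ((D.Br u).cmp.mem_cmp).2 ⟨s, hs, w'.1, h1, h2⟩

end recs

/-! ### failure -/

section fail

variable {Nk : Type} [Fintype Nk] [DecidableEq Nk] [Inhabited Nk] {M : ℕ} {hM : 0 < M} {kap Bn qb aw : ℝ}
  {J : JW D M hM Nk kap Bn qb aw} {bl : ℕ}

/-- **failure** -/
theorem fail_J (hbl : 1 ≤ bl) (hBn : 1 ≤ Bn) {D0 : ℝ} (hD0 : S.Dbl D0) {Rr : ℝ} (hR1 : 1 ≤ Rr) {g0 : ℕ}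
    (hg : (1 / 2 : ℝ) ^ g0 ≤ J.dl) {St : Type} {Mw : Om → Mach (Rk ι M) St} {N : ℕ}
    {Mu Nv : ℝ} (hMu : 0 ≤ Mu) (hNv : 0 ≤ Nv) (hMf : MFac (D.Kc bl) Mw)
    (hterm : ∀ A : ℕ → Rk ι M → Prop, ∀ w, ∀ i, (Mw w).pk A N i N = none)
    (huse : ∀ A : ℕ → Om → Rk ι M → Prop, (∀ i, Fac (D.Kc bl i) (A i)) → (∀ i w r, A i w r → A (i + 1) w r) →
      S.P.E (fun w => ∑ i ∈ range (S.n * bl + bl), ∑ l ∈ range N, ind ((Mw w).pk (fun j => A j w) N i l ≠ none)) ≤ Mu)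
    (hends : ∀ A : ℕ → Om → Rk ι M → Prop, (∀ i, Fac (D.Kc bl i) (A i)) → (∀ i w r, A i w r → A (i + 1) w r) →
      ∀ r, ∀ i < S.n * bl + bl, ∀ F : Om → Prop, (∀ v w, D.Kc bl i v = D.Kc bl i w → (F v ↔ F w)) →
      ∑ t ∈ Ico i (S.n * bl + bl), S.P.Pr (fun w => F w ∧ (Mw w).endM (fun j => A j w) N r t) ≤ Nv * S.P.Pr F) :
    (coinFP S.P (CoJ D Nk M g0)).Pr (fun w => ∃ r, ∃ i < S.n * bl + bl, ∃ l ≤ N,
      (Mw w.1).Crit (fun j => alJ J Rr g0 (j / bl) (S.gm (j / bl) w.1) (S.xi w.1, w.2) (S.x w.1)) N r i l ∧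
        D.RTr M r (i / bl) w.1) ≤
      2 * D0 * (Nv + 1) * kap * Bn ^ Fintype.card (WTy {j // j ∈ D.Rf}) * 8 ^ Fintype.card (WTy {j // j ∈ D.Rf}) *
        Mu / Rr + (M : ℝ) ^ Fintype.card ι * (((1 + D0) * Nv + 1) * aw) + qb := by
  classical
  have H := jrv_J (J := J) (Rr := Rr) (g0 := g0) hbl hBn hD0 hR1 hg hMu hNv hMf hterm huse hends
  have h1 := H.jr_v (FP.unif (CoJ D Nk M g0)) (co g0 (posJ D Nk M))
    (fun L k hk F hF => hco (g := g0) (pos := posJ D Nk M) posJ_inj L k hk F hF)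
  -- waiting
  have hcard : (Fintype.card (Rk ι M) : ℝ) = (M : ℝ) ^ Fintype.card ι := by
    rw [card_Rk]
    push_cast
    rfl
  have hcum : ∀ i w r, D.RTr M r (i / bl) w → D.RTr M r ((i + 1) / bl) w := by
    intro i w r h
    have h3 : (i + 1) / bl = i / bl ∨ (i + 1) / bl = i / bl + 1 := by
      have := Nat.succ_div (a := i) (b := bl)
      split_ifs at this <;> omega
    rcases h3 with h3 | h3
    · rw [h3]; exact h
    · rw [h3]; exact StepIn.RTr_mono h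
  have hwait : ∀ i w, S.P.p w ≠ 0 → ∀ r, S.P.ce (D.Kc bl i) (fun v => ind (D.RTr M r (i / bl) v ∧
      ¬ Tr (rfJ hM) (hasJ J bl) i v r ∧ GJ J bl i v)) w ≤ aw := by
    intro i w hw r
    by_cases hi : i ≤ S.n * bl + (bl - 1)
    · refine le_trans (S.P.ce_mono (fun v _ => ?_) w) (J.wait bl i (div_le_n hbl hi) r w)
      exact ind_mono fun h => ⟨h.1, h.2.1, h.2.2.2⟩
    · have e1 : S.P.ce (D.Kc bl i) (fun v => ind (D.RTr M r (i / bl) v ∧
          ¬ Tr (rfJ hM) (hasJ J bl) i v r ∧ GJ J bl i v)) w = S.P.ce (D.Kc bl i) (fun _ => 0) w :=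
        ce_cls S.P (D.Kc bl i) fun v _ => ind_not fun h => hi h.2.2.1
      rw [e1, S.P.ce_const _ _ hw]
      exact J.aw0
  have h2 : ∀ c : CoJ D Nk M g0, S.P.Pr (fun w => ∃ r, ∃ i < S.n * bl + bl, ∃ l ≤ N,
      (Mw w).Crit (fun j => alJ J Rr g0 (j / bl) (S.gm (j / bl) w) (S.xi w, c) (S.x w)) N r i l ∧
        D.RTr M r (i / bl) w) ≤
      S.P.Pr (fun w => GMN.FailV ixs (rfJ hM) (hasJ J bl) (ZJ J bl) Rr Mw N (S.n * bl + (bl - 1))
        (fun m => co g0 (posJ D Nk M) m c) w ∧ ∀ i ≤ S.n * bl + (bl - 1), GJ J bl i w) +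
        ((M : ℝ) ^ Fintype.card ι * (((1 + D0) * Nv + 1) * aw) + qb) := by
    intro c
    have h3 := GM75.fail_wait H (fun m => co g0 (posJ D Nk M) m c) (tr := fun i w r => D.RTr M r (i / bl) w)
      hcum J.aw0 hwait
    rw [hcard] at h3
    have hRR : ∀ w, (fun j => alJ J Rr g0 (j / bl) (S.gm (j / bl) w) (S.xi w, c) (S.x w)) =
        fun j => GMN.Av ixs (rfJ hM) (ZJ J bl) Rr (fun m => co g0 (posJ D Nk M) m c) j w := by
      intro w
      funext j r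
      apply propext
      rw [alJ_w (zero_le_one.trans hR1)]
      rfl
    refine le_trans (S.P.Pr_mono fun w _ h => ?_) ((S.P.Pr_or_le _ _).trans
      ((add_le_add h3 J.bad).trans (le_of_eq (by ring))))
    by_cases hG : ∀ t ≤ S.n, J.G t w
    · left
      obtain ⟨r, i, hi, l, hl, hc, htr⟩ := h
      have hc' : (Mw w).Crit (fun j => alJ J Rr g0 (j / bl) (S.gm (j / bl) w) (S.xi w, c) (S.x w)) N r i l := hc
      rw [hRR w] at hc'
      exact ⟨⟨r, i, by omega, l, hl, hc', htr⟩, fun i hi => ⟨hi, hG _ (div_le_n hbl hi)⟩⟩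
    · exact Or.inr hG
  rw [coinFP_Pr_unif]
  refine (FP.E_mono _ fun c _ => h2 c).trans ?_
  rw [FP.E_add, FP.E_const, ← add_assoc]
  linarith

end fail

/-! ### sizes -/

section sizes

variable {Nk : Type} [Fintype Nk] [DecidableEq Nk] [Inhabited Nk] {M : ℕ} {hM : 0 < M} {kap Bn qb aw : ℝ}
  {J : JW D M hM Nk kap Bn qb aw} {Rr : ℝ} {g0 : ℕ}

open Classical in
/-- systems of names of the types `≤ W0` -/
def sysL (D : StepIn S β) (Nk : Type) [Fintype Nk] [DecidableEq Nk] [Inhabited Nk] (M : ℕ) (W0 : WTy {j // j ∈ D.Rf}) :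
    Finset (WTy {j // j ∈ D.Rf} → Nk ⊕ Fin M) := univ.filter fun c => ∀ W, ¬ W ≤ W0 → c W = default

open Classical in
/-- number of recorded traces -/
theorem card_CJ (hR : 0 ≤ Rr) {u : ι} (hu : u ∈ D.Rf) (t : ℕ) (w : Om) (c : CoJ D Nk M g0) :
    ((CJ J Rr g0 u t (S.gm t w) (S.xi w, c) (S.x w)).card : ℝ) ≤
      ∑ c' ∈ sysL D Nk M (tyL ⟨u, hu⟩), ind (∀ x ∈ (ixs c').filter (fun x => x.1 ≤ tyL (⟨u, hu⟩ : {j // j ∈ D.Rf})),
        (1 / 2 : ℝ) ^ (co g0 (posJ D Nk M) x c) ≤ Rr * Zs J.d Bn t x w) := by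
  set W0 : WTy {j // j ∈ D.Rf} := tyL ⟨u, hu⟩ with hW0
  set ok : (WTy {j // j ∈ D.Rf} → Nk ⊕ Fin M) → Prop := fun c' => ∀ x ∈ (ixs c').filter (fun x => x.1 ≤ W0),
        (1 / 2 : ℝ) ^ (co g0 (posJ D Nk M) x c) ≤ Rr * Zs J.d Bn t x w with hok
  set tr : (WTy {j // j ∈ D.Rf} → Nk ⊕ Fin M) → Finset ℕ := fun c' => match c' W0 with
    | .inl _ => ∅
    | .inr b => (cfR D M u b t (S.gm t w) (S.x w)).toFinset with htr
  have h1 : CJ J Rr g0 u t (S.gm t w) (S.xi w, c) (S.x w) ⊆ ((sysL D Nk M W0).filter ok).biUnion tr := by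
    intro p hp
    obtain ⟨_, s, hs, c1, h2, b, h3, h4⟩ := mem_CJ.1 hp
    rw [S.anc_gm hs] at h4
    rw [S.anc_gm hs] at h2
    rw [Finset.mem_biUnion]
    refine ⟨(GMN.res W0 c1).2, ?_, ?_⟩
    · rw [mem_filter]
      refine ⟨?_, ?_⟩
      · unfold sysL
        rw [mem_filter]
        refine ⟨mem_univ _, fun W hW => ?_⟩
        show (if W ≤ W0 then c1 W else default) = default
        rw [if_neg hW]
      · intro x hx
        rw [mem_filter] at hx
        have e : x = GMN.res x.1 c1 := by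
          have e1 := mem_ixs.1 hx.1
          rw [e1]
          refine res_congr fun W' hW' => ?_
          show (if W' ≤ W0 then c1 W' else default) = c1 W'
          rw [if_pos (hW'.trans hx.2)]
        have h5 := h2 x.1 hx.2
        rw [recJ_w, ← e] at h5
        exact h5.trans (mul_le_mul_of_nonneg_left (Zs_le_of hs x w) hR)
    · have e2 : (GMN.res W0 c1).2 W0 = Sum.inr b := by rw [res_top]; exact h3
      simp only [htr]
      rw [e2]
      show p ∈ (cfR D M u b t (S.gm t w) (S.x w)).toFinset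
      rw [Option.mem_toFinset]
      exact cfR_le hs h4
  have h2 : (CJ J Rr g0 u t (S.gm t w) (S.xi w, c) (S.x w)).card ≤ ((sysL D Nk M W0).filter ok).card := by
    refine (Finset.card_le_card h1).trans (Finset.card_biUnion_le.trans ?_)
    refine (Finset.sum_le_card_nsmul _ _ 1 fun c' _ => ?_).trans (by simp)
    simp only [htr]
    cases c' W0 with
    | inl ν => simp
    | inr b =>
      show (cfR D M u b t (S.gm t w) (S.x w)).toFinset.card ≤ 1
      cases cfR D M u b t (S.gm t w) (S.x w) with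
      | none => simp
      | some n => simp
  have h3 : (((sysL D Nk M W0).filter ok).card : ℝ) = ∑ c' ∈ sysL D Nk M W0, ind (ok c') := by
    rw [Finset.card_filter]
    push_cast
    refine Finset.sum_congr rfl fun c' _ => ?_
    by_cases h : ok c'
    · rw [if_pos h, ind_of h]
    · rw [if_neg h, ind_not h]
  rw [← h3]
  exact_mod_cast h2

/-- **mean number of recorded traces** -/
theorem E_CJ (hBn : 1 ≤ Bn) (hR1 : 1 ≤ Rr) {u : ι} (hu : u ∈ D.Rf) (t : ℕ) :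
    (coinFP S.P (CoJ D Nk M g0)).E (fun w =>
      ((CJ J Rr g0 u t (S.gm t w.1) (S.xi w.1, w.2) (S.x w.1)).card : ℝ)) ≤
      (Rr * Bn) ^ Fintype.card (WTy {j // j ∈ D.Rf}) := by
  classical
  have hR0 : 0 ≤ Rr := zero_le_one.trans hR1
  refine (FP.E_mono _ fun w _ => card_CJ hR0 hu t w.1 w.2).trans ?_
  rw [coinFP_E]
  refine S.P.E_le_const fun w _ => ?_
  show (∑ z, ∑ c' ∈ sysL D Nk M (tyL ⟨u, hu⟩), ind (∀ x ∈ (ixs c').filter (fun x => x.1 ≤ tyL (⟨u, hu⟩ : {j // j ∈ D.Rf})),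
        (1 / 2 : ℝ) ^ (co g0 (posJ D Nk M) x z) ≤ Rr * Zs J.d Bn t x w)) /
          (Fintype.card (CoJ D Nk M g0) : ℝ) ≤ _
  rw [Finset.sum_comm, Finset.sum_div]
  have h1 : ∀ c' ∈ sysL D Nk M (tyL ⟨u, hu⟩), (∑ z : CoJ D Nk M g0,
      ind (∀ x ∈ (ixs c').filter (fun x => x.1 ≤ tyL (⟨u, hu⟩ : {j // j ∈ D.Rf})),
        (1 / 2 : ℝ) ^ (co g0 (posJ D Nk M) x z) ≤ Rr * Zs J.d Bn t x w)) / (Fintype.card (CoJ D Nk M g0) : ℝ) ≤
      ∏ x ∈ (ixs c').filter (fun x => x.1 ≤ tyL (⟨u, hu⟩ : {j // j ∈ D.Rf})), Rr * Zs J.d Bn t x w := by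
    intro c' _
    have h2 := Pr_rec_le (g := g0) (pos := posJ D Nk M) posJ_inj
      ((ixs c').filter (fun x => x.1 ≤ tyL (⟨u, hu⟩ : {j // j ∈ D.Rf})))
      (y := fun x => Rr * Zs J.d Bn t x w) (fun x => mul_nonneg hR0 (Zs_nonneg J.d0 _ _ _))
    refine le_trans (le_of_eq ?_) h2
    unfold FP.Pr
    rw [FP.unif_E]
  refine (Finset.sum_le_sum h1).trans ?_
  have hZ0 : ∀ x : IxJ D Nk M, 0 ≤ Rr * Zs J.d Bn t x w := fun x => mul_nonneg hR0 (Zs_nonneg J.d0 _ _ _)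
  have hB1 : 1 ≤ Rr * Bn := by nlinarith
  have h3 := sum_low (Zf := fun x : IxJ D Nk M => Rr * Zs J.d Bn t x w) hZ0 (B := Rr * Bn) hB1 (fun x => by
    rw [← Finset.mul_sum]
    exact mul_le_mul_of_nonneg_left (sum_top J.d0 (by linarith) t x w) hR0) (tyL ⟨u, hu⟩)
  unfold sysL
  exact h3

/-- **mean size of the record of the owner** -/
theorem E_ownJ (hBn : 1 ≤ Bn) (hR1 : 1 ≤ Rr) {u : ι} (hu : u ∈ D.Rf) :
    (coinFP S.P (CoJ D Nk M g0)).E (fun w =>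
      (((ownL (addCoins S (CoJ D Nk M g0)) (CJ J Rr g0 u) u).at' S.n w).card : ℝ)) ≤
      S.K * (Rr * Bn) ^ Fintype.card (WTy {j // j ∈ D.Rf}) := by
  have huv : u ≠ D.v := fun e => D.vR (by rw [← e]; exact hu)
  have hK : 0 ≤ S.K := le_trans zero_le_one S.K1
  have h1 := E_own (S := addCoins S (CoJ D Nk M g0)) (u := u) (v := D.v) huv (C := CJ J Rr g0 u)
    (fun t g ξ => depUV_swap (S := addCoins S (CoJ D Nk M g0)) (CJ_dep hu t g ξ)) (CJ_mono u) S.n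
  refine h1.trans ?_
  show S.K * (coinFP S.P (CoJ D Nk M g0)).E (fun w =>
      ((CJ J Rr g0 u S.n (S.gm S.n w.1) (S.xi w.1, w.2) (S.x w.1)).card : ℝ)) ≤ _
  exact mul_le_mul_of_nonneg_left (E_CJ hBn hR1 hu S.n) hK

end sizes

/-! ### the output -/

/-- **THE RECORD LEMMA from the names of the hidden vertex** -/
theorem rec_of_JW {Nk : Type} [Fintype Nk] [DecidableEq Nk] [Inhabited Nk] {M : ℕ} {hM : 0 < M}
    {kap Bn qb aw : ℝ} (J : JW D M hM Nk kap Bn qb aw) (hBn : 1 ≤ Bn) {D0 : ℝ} (hD0 : S.Dbl D0) {Rr : ℝ}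
    (hR1 : 1 ≤ Rr) {n B : ℕ} (hB : D.Bd n B) {n' B' : ℕ} {q cf : ℝ} (hq : 0 < q)
    (hcf : 2 * D0 * kap * Bn ^ Fintype.card (WTy {j // j ∈ D.Rf}) * 8 ^ Fintype.card (WTy {j // j ∈ D.Rf}) / Rr +
      (M : ℝ) ^ Fintype.card ι * ((1 + D0) * aw) + qb ≤ cf)
    (hn' : D.Rf.card * (S.K * (Rr * Bn) ^ Fintype.card (WTy {j // j ∈ D.Rf})) / q ≤ n')
    (hB' : D.Rf.card * (S.K ^ 2 * B) / q ≤ B') :
    ∃ g0 : ℕ, Nonempty (RecOut D M (CoJ D Nk M g0) n' B' q cf) := by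
  classical
  have hR : 0 ≤ Rr := zero_le_one.trans hR1
  have hK : 0 ≤ S.K := le_trans zero_le_one S.K1
  obtain ⟨g0, hg0⟩ : ∃ g0 : ℕ, (1 / 2 : ℝ) ^ g0 < J.dl := exists_pow_lt_of_lt_one J.dl0 (by norm_num)
  refine ⟨g0, ⟨?_⟩⟩
  exact
    { al := alJ J Rr g0
      aldep := fun t g ξ => alJ_dep t g ξ
      almono := fun t g ξ x r h => alJ_mono t g ξ x r h
      alz := fun t g ξ ξ' x h => by
        rw [pzAdd_eq] at h
        exact alJ_congr t g h.1 h.2 x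
      N := fun u => ownL (addCoins S (CoJ D Nk M g0)) (CJ J Rr g0 u) u
      Nz := fun u _ t g ξ ξ' x h => by
        rw [pzAdd_eq] at h
        have h1 : ∀ s g x, CJ J Rr g0 u s g ξ x = CJ J Rr g0 u s g ξ' x := fun s g x => CJ_congr u s g h.1 h.2 x
        show own _ _ u t g ξ x = own _ _ u t g ξ' x
        ext n
        rw [mem_own, mem_own]
        simp only [h1]
      PN := fun u => (D.Br u).cmp.cmp
      mem := fun t _ w r h u hu => by
        obtain ⟨p, h1, h2⟩ := alJ_mem h hu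
        exact ⟨p, h1, sub_own (S := addCoins S (CoJ D Nk M g0)) (CJ J Rr g0 u) u t w h2⟩
      pub := fun t _ w u hu => ownJ_pub u hu t w
      cardN := by
        have h1 : (coinFP S.P (CoJ D Nk M g0)).E (fun w => ((∑ u ∈ D.Rf,
            ((ownL (addCoins S (CoJ D Nk M g0)) (CJ J Rr g0 u) u).at' S.n w).card : ℕ) : ℝ)) ≤
            D.Rf.card * (S.K * (Rr * Bn) ^ Fintype.card (WTy {j // j ∈ D.Rf})) := by
          have e : (coinFP S.P (CoJ D Nk M g0)).E (fun w => ((∑ u ∈ D.Rf,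
              ((ownL (addCoins S (CoJ D Nk M g0)) (CJ J Rr g0 u) u).at' S.n w).card : ℕ) : ℝ)) =
              ∑ u ∈ D.Rf, (coinFP S.P (CoJ D Nk M g0)).E (fun w =>
                (((ownL (addCoins S (CoJ D Nk M g0)) (CJ J Rr g0 u) u).at' S.n w).card : ℝ)) := by
            rw [← FP.E_sum]
            exact FP.E_congr _ fun w _ => by push_cast; rfl
          rw [e]
          refine (Finset.sum_le_sum fun u hu => E_ownJ hBn hR1 hu).trans (le_of_eq ?_)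
          rw [Finset.sum_const, nsmul_eq_mul]
        refine (FP.Pr_mono _ fun w _ h => ?_).trans (Pr_nat_gt _ h1 hq hn')
        obtain ⟨u, hu, h2⟩ := h
        exact lt_of_lt_of_le h2 (Finset.single_le_sum
          (f := fun u => ((ownL (addCoins S (CoJ D Nk M g0)) (CJ J Rr g0 u) u).at' S.n w).card)
          (fun _ _ => Nat.zero_le _) hu)
      cardPN := by
        have h1 : S.P.E (fun w => ((∑ u ∈ D.Rf, ((D.Br u).cmp.cmp.at' S.n w).card : ℕ) : ℝ)) ≤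
            D.Rf.card * (S.K ^ 2 * B) := by
          have e : S.P.E (fun w => ((∑ u ∈ D.Rf, ((D.Br u).cmp.cmp.at' S.n w).card : ℕ) : ℝ)) =
              ∑ u ∈ D.Rf, S.P.E (fun w => (((D.Br u).cmp.cmp.at' S.n w).card : ℝ)) := by
            rw [← FP.E_sum]
            exact FP.E_congr _ fun w _ => by push_cast; rfl
          rw [e]
          have h3 : ∀ u ∈ D.Rf, S.P.E (fun w => (((D.Br u).cmp.cmp.at' S.n w).card : ℝ)) ≤ S.K ^ 2 * B := by
            intro u hu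
            have huv : u ≠ D.v := fun e => D.vR (by rw [← e]; exact hu)
            refine ((D.Br u).E_cmp_cmp huv S.n).trans (mul_le_mul_of_nonneg_left ?_ (by positivity))
            exact S.P.E_le_const fun w _ => by exact_mod_cast hB.br u hu S.n le_rfl w
          refine (Finset.sum_le_sum h3).trans (le_of_eq ?_)
          rw [Finset.sum_const, nsmul_eq_mul]
        refine (S.P.Pr_mono fun w _ h => ?_).trans (Pr_nat_gt S.P h1 hq hB')
        obtain ⟨u, hu, h2⟩ := h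
        exact lt_of_lt_of_le h2 (Finset.single_le_sum
          (f := fun u => ((D.Br u).cmp.cmp.at' S.n w).card) (fun _ _ => Nat.zero_le _) hu)
      fail := fun bl hbl St Mw N Mu Nv hMu hNv hMf hterm huse hends => by
        refine (fail_J hbl hBn hD0 hR1 hg0.le hMu hNv hMf hterm huse hends).trans ?_
        have hD1 := hD0.one_le
        have haw := J.aw0
        have hkap := J.kap0
        have hqb : 0 ≤ qb := le_trans (S.P.Pr_nonneg _) J.bad
        set a : ℝ := 2 * D0 * kap * Bn ^ Fintype.card (WTy {j // j ∈ D.Rf}) *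
          8 ^ Fintype.card (WTy {j // j ∈ D.Rf}) / Rr with ha
        have ha0 : 0 ≤ a := by positivity
        set b : ℝ := (M : ℝ) ^ Fintype.card ι * ((1 + D0) * aw) with hb
        have hb0 : 0 ≤ b := by positivity
        have e1 : 2 * D0 * (Nv + 1) * kap * Bn ^ Fintype.card (WTy {j // j ∈ D.Rf}) *
            8 ^ Fintype.card (WTy {j // j ∈ D.Rf}) * Mu / Rr = a * ((Nv + 1) * Mu) := by
          rw [ha]; ring
        have e2 : (M : ℝ) ^ Fintype.card ι * (((1 + D0) * Nv + 1) * aw) ≤ b * (Nv + 1) := by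
          have h1 : ((1 + D0) * Nv + 1) * aw ≤ (1 + D0) * aw * (Nv + 1) := by nlinarith
          calc (M : ℝ) ^ Fintype.card ι * (((1 + D0) * Nv + 1) * aw) ≤
              (M : ℝ) ^ Fintype.card ι * ((1 + D0) * aw * (Nv + 1)) := mul_le_mul_of_nonneg_left h1 (by positivity)
            _ = b * (Nv + 1) := by rw [hb]; ring
        rw [e1]
        have h3 : a * ((Nv + 1) * Mu) ≤ a * ((Nv + 1) * (Mu + 1)) :=
          mul_le_mul_of_nonneg_left (mul_le_mul_of_nonneg_left (by linarith) (by linarith)) ha0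
        have h5 : 1 ≤ (Nv + 1) * (Mu + 1) := by nlinarith [mul_nonneg hNv hMu]
        have h4 : b * (Nv + 1) ≤ b * ((Nv + 1) * (Mu + 1)) :=
          mul_le_mul_of_nonneg_left (by nlinarith [mul_nonneg hNv hMu]) hb0
        have h6 : qb ≤ qb * ((Nv + 1) * (Mu + 1)) := le_mul_of_one_le_right hqb h5
        calc a * ((Nv + 1) * Mu) + (M : ℝ) ^ Fintype.card ι * (((1 + D0) * Nv + 1) * aw) + qb ≤
            (a + b + qb) * ((Nv + 1) * (Mu + 1)) := by linarith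
          _ ≤ cf * ((Nv + 1) * (Mu + 1)) := mul_le_mul_of_nonneg_right hcf (by linarith) }

end

end Pool.Agent.GMJR
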