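import Pool.Agent.GMJR.WLSi

/-!
# GMJR/JWS (helper80): from the names of the world of the hidden vertex to the names of the step

Everything is in the namespace `NS`, except `jwS`.
* `IsS D G W L` : the world `W` with the labels `L` is the world of the step `D` (equalities of the fields);
* `Vis_iff` : `VW` = `Vis`;  `ce_Kc` : conditional expectations given the knowledge of the client = given `VW univ`;
* `jwOf`, `jwS` : `JWD W L Q Nk kap Bn qb aw → JW D M hM Nk kap Bn qb aw` : list names = codes `< Q` become ranks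
  `< M` in the public set of the face of the client.
-/

set_option autoImplicit false
set_option linter.unusedSectionVars false

namespace Pool.Agent.GMJR.NS

open Finset Pool.Agent.PWZ Pool.Agent.M3 Pool.Agent.M3.TS Pool.Agent.GM Pool.Agent.GMN

noncomputable section

/-! ### list types -/

theorem tyL_inj {K : Type} [Fintype K] [DecidableEq K] {u u' : K} (h : tyL u = tyL u') : u = u' := by
  have h1 : (univ.erase u : Finset K) = univ.erase u' := congrArg Subtype.val h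
  by_contra hne
  have h2 : u ∈ (univ.erase u' : Finset K) := mem_erase.2 ⟨hne, mem_univ u⟩
  rw [← h1] at h2
  exact notMem_erase u univ h2

/-- list types are maximal -/
theorem tyL_max {K : Type} [Fintype K] [DecidableEq K] {u : K} {W : WTy K} (h : tyL u ≤ W) : tyL u = W := by
  have h1 : (univ.erase u : Finset K) ⊆ W.1 := h
  refine Subtype.ext ?_
  show (univ.erase u : Finset K) = W.1
  refine Finset.Subset.antisymm h1 fun j hj => ?_
  refine mem_erase.2 ⟨?_, mem_univ j⟩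
  rintro rfl
  refine W.2 (eq_univ_of_forall fun i => ?_)
  by_cases hi : i = j
  · rw [hi]; exact hj
  · exact h1 (mem_erase.2 ⟨hi, mem_univ i⟩)

variable {ι Om Ξ Pt V Γ κ : Type} [Fintype ι] [DecidableEq ι] [Fintype Om] [Fintype Ξ] [Fintype Pt]
  [Fintype V] {S : Sys ι Om Ξ Pt V Γ κ} {β : Type} {D : StepIn S β} {G : HG S D.v}

/-! ### the world of the step -/

variable (D G) in
/-- the world `W` with the labels `L` is the world of the step -/
structure IsS (W : WD Om (TpS D G) (KS D) Pt (XS D G) G.γ κ Γ) (L : WL W) : Prop where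
  P : W.P = S.P
  n : W.n = S.n
  top : W.top = topS D G
  y : W.y = yS D
  hx : W.hx = hxS D G
  gm : W.gm = S.gm
  cl : W.cl = S.cl
  tr : L.tr = trS D

theorem topS_eq {v w : Om} : topS D G v = topS D G w ↔ G.th v = G.th w ∧ D.pz (S.xi v) = D.pz (S.xi w) ∧
    ∀ j, j ∉ D.Rf → j ≠ D.v → S.x v j = S.x w j := by
  unfold topS
  rw [Prod.ext_iff, Prod.ext_iff]
  refine and_congr Iff.rfl (and_congr Iff.rfl ?_)
  constructor
  · intro h j h1 h2
    exact congrFun h ⟨j, h1, h2⟩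
  · intro h
    funext j
    exact h j.1 j.2.1 j.2.2

theorem yS_eq {v w : Om} : yS D v = yS D w ↔ ∀ j ∈ D.Rf, S.x v j = S.x w j := by
  constructor
  · intro h j hj
    exact congrFun h ⟨j, hj⟩
  · intro h
    funext j
    exact h j.1 j.2

/-- the vertices from (top, reference vertices, hidden point) -/
theorem x_eq {v w : Om} (h1 : topS D G v = topS D G w) (h2 : yS D v = yS D w) (h3 : hxS D G v = hxS D G w) :
    S.x v = S.x w := by
  funext j
  by_cases hj : j = D.v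
  · rw [hj, ← G.hv_eq v, ← G.hv_eq w]
    have h4 : G.hx v = G.hx w := congrArg Prod.fst h3
    rw [h4]
  · by_cases hR : j ∈ D.Rf
    · exact yS_eq.1 h2 j hR
    · exact (topS_eq.1 h1).2.2 j hR hj

/-- the node from (top, reference vertices, hidden point) -/
theorem gm_eq {v w : Om} (h1 : topS D G v = topS D G w) (h2 : yS D v = yS D w) (h3 : hxS D G v = hxS D G w) (t : ℕ) :
    S.gm t v = S.gm t w := by
  rw [← G.gf_eq t v, ← G.gf_eq t w, x_eq h1 h2 h3, (topS_eq.1 h1).1]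
  have h4 : G.hx v = G.hx w := congrArg Prod.fst h3
  rw [h4]

/-- the coins, if some list of an owner sees them -/
theorem xi_eq {v w : Om} (h3 : hxS D G v = hxS D G w) (hf : ¬ ∀ u ∈ D.Rf, (D.Lr u).Free D.pz) : S.xi v = S.xi w := by
  have h4 : aS D (S.xi v) = aS D (S.xi w) := congrArg Prod.snd h3
  unfold aS at h4
  rw [if_neg hf, if_neg hf] at h4
  exact Option.some.inj h4

/-- the true lists are functions of (top, reference vertices, hidden point) -/
theorem trS_eq {v w : Om} (h1 : topS D G v = topS D G w) (h2 : yS D v = yS D w) (h3 : hxS D G v = hxS D G w)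
    (u : KS D) (t : ℕ) : trS D u t v = trS D u t w := by
  show (D.Lr u.1).L t (S.gm t v) (S.xi v) (S.x v) = (D.Lr u.1).L t (S.gm t w) (S.xi w) (S.x w)
  rw [gm_eq h1 h2 h3 t, x_eq h1 h2 h3]
  by_cases hf : ∀ u ∈ D.Rf, (D.Lr u).Free D.pz
  · exact hf u.1 u.2 t _ _ _ _ (topS_eq.1 h1).2.1
  · rw [xi_eq h3 hf]

variable {W : WD Om (TpS D G) (KS D) Pt (XS D G) G.γ κ Γ} {L : WL W}

/-- **visible data** -/
theorem IsS.Vis_iff (h : IsS D G W L) (A : Finset (KS D)) (t : ℕ) (v w : Om) :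
    W.VW A t v = W.VW A t w ↔ Vis D A t v w := by
  rw [WD.VW_eq, h.top, h.y, h.cl, h.gm, topS_eq]
  unfold Vis
  constructor
  · rintro ⟨⟨_, a2, a3⟩, a4, a5, a6⟩
    refine ⟨a2, fun j hj hA => ?_, a5, a6⟩
    by_cases hR : j ∈ D.Rf
    · exact a4 ⟨j, hR⟩ (hA hR)
    · exact a3 j hR hj
  · rintro ⟨a2, a3, a5, a6⟩
    refine ⟨⟨G.th_gm t v w a6, a2, fun j hR hj => a3 j hj fun h => absurd h hR⟩, fun j hj => ?_, a5, a6⟩
    exact a3 j.1 (fun h => D.vR (by rw [← h]; exact j.2)) fun _ => hj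

/-- what the client knows, finer than `Vis univ` -/
theorem Vis_of_Kc {bl i : ℕ} {v w : Om} (h : D.Kc bl i v = D.Kc bl i w) (A : Finset (KS D)) :
    Vis D A (i / bl) v w := by
  rw [Kc_eq] at h
  refine ⟨pz_of_pcl h.1, fun j hj _ => h.2.1 j hj, fun j => ?_, h.2.2⟩
  rw [h.2.1 j.1 fun h => D.vR (by rw [← h]; exact j.2)]

/-! ### the knowledge of the client -/

section indep

variable (D G)

/-- everything but the coins -/
def ncS (w : Om) : G.Θ × ({j // j ≠ D.v} → Pt) × G.X := (G.th w, fun j => S.x w j.1, G.hx w)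

variable {D G}

theorem ncS_eq {v w : Om} : ncS D G v = ncS D G w ↔ G.th v = G.th w ∧ (∀ j, j ≠ D.v → S.x v j = S.x w j) ∧
    G.hx v = G.hx w := by
  unfold ncS
  rw [Prod.ext_iff, Prod.ext_iff]
  refine and_congr Iff.rfl (and_congr ?_ Iff.rfl)
  constructor
  · intro h j h1
    exact congrFun h ⟨j, h1⟩
  · intro h
    funext j
    exact h j.1 j.2

theorem ncS_x {v w : Om} (h : ncS D G v = ncS D G w) : S.x v = S.x w := by
  rw [ncS_eq] at h
  funext j
  by_cases hj : j = D.v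
  · rw [hj, ← G.hv_eq v, ← G.hv_eq w, h.2.2]
  · exact h.2.1 j hj

theorem ncS_gm {v w : Om} (h : ncS D G v = ncS D G w) (t : ℕ) : S.gm t v = S.gm t w := by
  rw [← G.gf_eq t v, ← G.gf_eq t w, ncS_x h, (ncS_eq.1 h).1, (ncS_eq.1 h).2.2]

variable (D G)

/-- the coins are independent of everything else -/
theorem indep_nc : S.P.Indep (ncS D G) S.xi := by
  classical
  refine S.P.indep_of_m fun w v _ _ => ?_
  have h1 : ∀ ξ, S.P.Pr (fun u => S.xi u = ξ ∧ ncS D G u = ncS D G w) =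
      S.P.Pr (fun u => G.th u = G.th w) /
        (Fintype.card Ξ * (Fintype.card Pt : ℝ) ^ (Fintype.card ι - 1) * (@Fintype.card G.X G.fX)) := by
    intro ξ
    rw [← G.law w ξ (S.x w) (G.hx w)]
    refine S.P.Pr_congr fun u _ => ?_
    rw [ncS_eq]
    tauto
  have h2 : S.P.m (ncS D G) w = Fintype.card Ξ * (S.P.Pr (fun u => G.th u = G.th w) /
        (Fintype.card Ξ * (Fintype.card Pt : ℝ) ^ (Fintype.card ι - 1) * (@Fintype.card G.X G.fX))) := by
    have : S.P.m (ncS D G) w = S.P.Pr (fun u => ncS D G u = ncS D G w) := rfl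
    rw [this, Mod.Pr_sum _ S.xi, Finset.sum_congr rfl fun ξ _ => h1 ξ, Finset.sum_const, nsmul_eq_mul,
      Finset.card_univ]
  have h3 : S.P.m S.xi v = 1 / Fintype.card Ξ := by
    have h4 := S.Pr_set (I := ∅) (fun h => by
      have := mem_univ D.v
      rw [← h] at this
      exact notMem_empty _ this) (S.xi v) (S.x v)
    have : S.P.m S.xi v = S.P.Pr (fun u => S.xi u = S.xi v ∧ ∀ j ∈ (∅ : Finset ι), S.x u j = S.x v j) := by
      refine S.P.Pr_congr fun u _ => ?_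
      simp
    rw [this, h4]
    simp
  have h5 : S.P.E (fun u => ind (ncS D G u = ncS D G w) * ind (S.xi u = S.xi v)) =
      S.P.Pr (fun u => S.xi u = S.xi v ∧ ncS D G u = ncS D G w) := by
    refine S.P.E_congr fun u _ => ?_
    rw [← ind_and]
    congr 1
    exact propext and_comm
  have h6 := S.cXi.ne'
  rw [h5, h1, h2, h3]
  field_simp

end indep

/-- **the knowledge of the client = the visible data of the full type**, for functions of (top, reference vertices,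
hidden point) -/
theorem IsS.ce_Kc (h : IsS D G W L) (bl i : ℕ) {f : Om → ℝ}
    (hf : ∀ v w, topS D G v = topS D G w → yS D v = yS D w → hxS D G v = hxS D G w → f v = f w) (w : Om) :
    S.P.ce (D.Kc bl i) f w = S.P.ce (W.VW univ (i / bl)) f w := by
  have h1 : ∀ v w, W.VW univ (i / bl) v = W.VW univ (i / bl) w ↔ D.pz (S.xi v) = D.pz (S.xi w) ∧
      (∀ j, j ≠ D.v → S.x v j = S.x w j) ∧ S.gm (i / bl) v = S.gm (i / bl) w := by
    intro v w
    rw [h.Vis_iff]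
    constructor
    · rintro ⟨a, b, _, c⟩
      exact ⟨a, fun j hj => b j hj fun _ => mem_univ _, c⟩
    · rintro ⟨a, b, c⟩
      refine ⟨a, fun j hj _ => b j hj, fun j => ?_, c⟩
      rw [b j.1 fun h => D.vR (by rw [← h]; exact j.2)]
  by_cases hF : D.Lv.Free D.pz
  · refine S.P.ce_congr_map (fun v w hv => ?_) (fun v w hv => ?_) f w
    · rw [Kc_eq] at hv
      exact (h1 v w).2 ⟨pz_of_pcl hv.1, hv.2⟩
    · rw [Kc_eq]
      have h2 := (h1 v w).1 hv
      refine ⟨?_, h2.2⟩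
      unfold StepIn.pcl
      rw [if_pos hF, if_pos hF, h2.1]
  · have hR : ∀ u ∈ D.Rf, (D.Lr u).Free D.pz := D.zf.resolve_left hF
    have ha : ∀ ξ, aS D ξ = none := fun ξ => by
      unfold aS
      rw [if_pos hR]
    -- the two knowledges
    have e1 : S.P.ce (D.Kc bl i) f w =
        S.P.ce (fun v => (((fun j : {j // j ≠ D.v} => S.x v j.1), S.gm (i / bl) v), S.xi v)) f w := by
      refine S.P.ce_congr_map (fun v w hv => ?_) (fun v w hv => ?_) f w
      · rw [Kc_eq] at hv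
        have h3 : D.pcl (S.xi v) = D.pcl (S.xi w) := hv.1
        unfold StepIn.pcl at h3
        rw [if_neg hF, if_neg hF] at h3
        have h4 : S.xi v = S.xi w := Option.some.inj (congrArg Prod.snd h3)
        exact Prod.ext (Prod.ext (funext fun j => hv.2.1 j.1 j.2) hv.2.2) h4
      · rw [Kc_eq]
        have h3 : S.xi v = S.xi w := congrArg Prod.snd hv
        refine ⟨by rw [h3], fun j hj => ?_, congrArg (fun p => p.1.2) hv⟩
        exact congrFun (congrArg (fun p => p.1.1) hv) ⟨j, hj⟩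
    have e2 : S.P.ce (W.VW univ (i / bl)) f w =
        S.P.ce (fun v => (((fun j : {j // j ≠ D.v} => S.x v j.1), S.gm (i / bl) v), D.pz (S.xi v))) f w := by
      refine S.P.ce_congr_map (fun v w hv => ?_) (fun v w hv => ?_) f w
      · have h2 := (h1 v w).1 hv
        exact Prod.ext (Prod.ext (funext fun j => h2.2.1 j.1 j.2) h2.2.2) h2.1
      · refine (h1 v w).2 ⟨congrArg Prod.snd hv, fun j hj => ?_, congrArg (fun p => p.1.2) hv⟩
        exact congrFun (congrArg (fun p => p.1.1) hv) ⟨j, hj⟩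
    rw [e1, e2]
    refine S.P.ce_indep_eq (indep_nc D G) (ζ := fun v => ((fun j : {j // j ≠ D.v} => S.x v j.1), S.gm (i / bl) v))
      (ψ := S.xi) (φ := fun v => D.pz (S.xi v)) ?_ (Fac.refl _) ?_ ?_ (S.ppos w)
    · intro v w hv
      refine Prod.ext (funext fun j => (ncS_eq.1 hv).2.1 j.1 j.2) (ncS_gm hv _)
    · intro v w hv
      exact congrArg D.pz hv
    · intro v w hv
      have h2 : ncS D G v = ncS D G w := congrArg Prod.fst hv
      have h3 : D.pz (S.xi v) = D.pz (S.xi w) := congrArg Prod.snd hv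
      have h4 := ncS_eq.1 h2
      refine hf v w (topS_eq.2 ⟨h4.1, h3, fun j _ hj => h4.2.1 j hj⟩)
        (yS_eq.2 fun j hj => h4.2.1 j fun h => ?_) ?_
      · exact D.vR (by rw [← h]; exact hj)
      · unfold hxS
        rw [ha, ha, h4.2.2]

/-! ### conversion of the names -/

section names

variable {M Q : ℕ} {Nk : Type} [Fintype Nk] [DecidableEq Nk] [Inhabited Nk]

variable (D M) in
/-- the code of the rank `b` -/
def cdS (u : KS D) (b : Fin M) (t : ℕ) (w : Om) : Option ℕ := cfR D M u.1 b t (S.gm t w) (S.x w)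

theorem KS_ne (u : KS D) : u.1 ≠ D.v := fun h => D.vR (by rw [← h]; exact u.2)

theorem cdS_vis {u : KS D} {b : Fin M} {t : ℕ} {v w : Om} (h : Vis D (tyL u).1 t v w) :
    cdS D M u b t v = cdS D M u b t w := by
  unfold cdS
  rw [h.2.2.2]
  refine cfR_dep (KS_ne u) b t _ _ _ (fun j hj => ?_) fun j hj => ?_
  · rw [mem_erase, mem_erase] at hj
    refine h.2.1 j hj.1 fun hR => ?_
    exact mem_erase.2 ⟨fun e => hj.2.1 (congrArg Subtype.val e), mem_univ _⟩
  · rw [mem_singleton] at hj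
    rw [hj]
    exact h.2.2.1 u

theorem cdS_succ {u : KS D} {b : Fin M} {t : ℕ} {w : Om} {n : ℕ} (h : cdS D M u b t w = some n) :
    cdS D M u b (t + 1) w = some n := by
  refine cfR_succ ?_
  rw [S.par_gm]
  exact h

theorem cdS_le {u : KS D} {b : Fin M} {s t : ℕ} (hst : s ≤ t) {w : Om} {n : ℕ} (h : cdS D M u b s w = some n) :
    cdS D M u b t w = some n := by
  induction t, hst using Nat.le_induction with
  | base => exact h
  | succ t _ ih => exact cdS_succ ih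

/-- `ν` is the name in the world which belongs to the name `ν'` of the step -/
def CorS (t : ℕ) (w : Om) (T : WTy (KS D)) (ν' : Nk ⊕ Fin M) (ν : Nk ⊕ Fin Q) : Prop :=
  (∃ k, ν' = .inl k ∧ ν = .inl k) ∨
    ∃ u b, ∃ p : Fin Q, T = tyL u ∧ ν' = .inr b ∧ ν = .inr p ∧ cdS D M u b t w = some p.1

theorem CorS.uniq {t : ℕ} {w : Om} {T : WTy (KS D)} {ν' : Nk ⊕ Fin M} {ν μ : Nk ⊕ Fin Q} (h : CorS t w T ν' ν)
    (h' : CorS t w T ν' μ) : ν = μ := by
  rcases h with ⟨k, h1, h2⟩ | ⟨u, b, p, h1, h2, h3, h4⟩ <;>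
    rcases h' with ⟨k', g1, g2⟩ | ⟨u', b', p', g1, g2, g3, g4⟩
  · rw [h2, g2]
    rw [h1] at g1
    exact congrArg Sum.inl (Sum.inl.inj g1)
  · rw [h1] at g2
    exact absurd g2 (by simp)
  · rw [h2] at g1
    exact absurd g1 (by simp)
  · rw [h3, g3]
    have e1 : u = u' := tyL_inj (h1.symm.trans g1)
    have e2 : b = b' := Sum.inr.inj (h2.symm.trans g2)
    subst e1 e2
    exact congrArg Sum.inr (Fin.ext (Option.some.inj (h4.symm.trans g4)))

theorem CorS.inj {t : ℕ} {w : Om} {T : WTy (KS D)} {ν' μ' : Nk ⊕ Fin M} {ν : Nk ⊕ Fin Q} (h : CorS t w T ν' ν)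
    (h' : CorS t w T μ' ν) : ν' = μ' := by
  rcases h with ⟨k, h1, h2⟩ | ⟨u, b, p, h1, h2, h3, h4⟩ <;>
    rcases h' with ⟨k', g1, g2⟩ | ⟨u', b', p', g1, g2, g3, g4⟩
  · rw [h1, g1]
    exact congrArg Sum.inl (Sum.inl.inj (h2.symm.trans g2))
  · rw [h2] at g3
    exact absurd g3 (by simp)
  · rw [h3] at g2
    exact absurd g2 (by simp)
  · rw [h2, g2]
    have e1 : u = u' := tyL_inj (h1.symm.trans g1)
    have e2 : p = p' := Sum.inr.inj (h3.symm.trans g3)
    subst e1 e2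
    exact congrArg Sum.inr (cfR_inj h4 g4)

theorem CorS.le {s t : ℕ} (hst : s ≤ t) {w : Om} {T : WTy (KS D)} {ν' : Nk ⊕ Fin M} {ν : Nk ⊕ Fin Q}
    (h : CorS s w T ν' ν) : CorS t w T ν' ν := by
  rcases h with h | ⟨u, b, p, h1, h2, h3, h4⟩
  · exact Or.inl h
  · exact Or.inr ⟨u, b, p, h1, h2, h3, cdS_le hst h4⟩

theorem CorS.vis {t : ℕ} {v w : Om} {T : WTy (KS D)} (hv : Vis D T.1 t v w) {ν' : Nk ⊕ Fin M} {ν : Nk ⊕ Fin Q}
    (h : CorS t v T ν' ν) : CorS t w T ν' ν := by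
  rcases h with h | ⟨u, b, p, h1, h2, h3, h4⟩
  · exact Or.inl h
  · subst h1
    refine Or.inr ⟨u, b, p, rfl, h2, h3, ?_⟩
    rw [← cdS_vis hv]
    exact h4

theorem vis_symm {A : Finset (KS D)} {t : ℕ} {v w : Om} (h : Vis D A t v w) : Vis D A t w v :=
  ⟨h.1.symm, fun j hj hA => (h.2.1 j hj hA).symm, fun j => (h.2.2.1 j).symm, h.2.2.2.symm⟩

/-- keys are kept -/
def lfS {A B : Type} : Nk ⊕ A → Nk ⊕ B
  | .inl k => .inl k
  | .inr _ => .inl default

open Classical in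
/-- the densities of the step -/
def dS (d : ℕ → WTy (KS D) × (WTy (KS D) → Nk ⊕ Fin Q) → Om → ℝ) (t : ℕ)
    (x : WTy (KS D) × (WTy (KS D) → Nk ⊕ Fin M)) (w : Om) : ℝ :=
  if h : ∃ ν : Nk ⊕ Fin Q, CorS t w x.1 (x.2 x.1) ν then
    d t (x.1, Function.update (fun T => lfS (x.2 T)) x.1 h.choose) w else 0

theorem dS_of {d : ℕ → WTy (KS D) × (WTy (KS D) → Nk ⊕ Fin Q) → Om → ℝ} {t : ℕ}
    {x : WTy (KS D) × (WTy (KS D) → Nk ⊕ Fin M)} {w : Om} {ν : Nk ⊕ Fin Q} (h : CorS t w x.1 (x.2 x.1) ν) :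
    dS d t x w = d t (x.1, Function.update (fun T => lfS (x.2 T)) x.1 ν) w := by
  have h' : ∃ ν : Nk ⊕ Fin Q, CorS t w x.1 (x.2 x.1) ν := ⟨ν, h⟩
  unfold dS
  rw [dif_pos h', h'.choose_spec.uniq h]

theorem dS_zero {d : ℕ → WTy (KS D) × (WTy (KS D) → Nk ⊕ Fin Q) → Om → ℝ} {t : ℕ}
    {x : WTy (KS D) × (WTy (KS D) → Nk ⊕ Fin M)} {w : Om} (h : ¬ ∃ ν : Nk ⊕ Fin Q, CorS t w x.1 (x.2 x.1) ν) :
    dS d t x w = 0 := by
  unfold dS
  rw [dif_neg h]

/-- the same keys -/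
def KeyS (𝔳' : WTy (KS D) → Nk ⊕ Fin M) (𝔳 : WTy (KS D) → Nk ⊕ Fin Q) : Prop :=
  ∀ T, ¬ mxW T → ∃ k, 𝔳' T = .inl k ∧ 𝔳 T = .inl k

/-- the densities of the siblings -/
theorem dS_sibl {d : ℕ → WTy (KS D) × (WTy (KS D) → Nk ⊕ Fin Q) → Om → ℝ} {t : ℕ} {w : Om}
    {𝔳' : WTy (KS D) → Nk ⊕ Fin M} {𝔳 : WTy (KS D) → Nk ⊕ Fin Q} (hk : KeyS 𝔳' 𝔳) {T : WTy (KS D)}
    {ν' : Nk ⊕ Fin M} {ν : Nk ⊕ Fin Q} (h : CorS t w T ν' ν) :
    dS d t (sibl (GMN.res T 𝔳') ν') w = d t (sibl (GMN.res T 𝔳) ν) w := by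
  have h1 : (sibl (GMN.res T 𝔳') ν').2 (sibl (GMN.res T 𝔳') ν').1 = ν' := Function.update_self _ _ _
  have h2 : CorS t w (sibl (GMN.res T 𝔳') ν').1 ((sibl (GMN.res T 𝔳') ν').2 (sibl (GMN.res T 𝔳') ν').1) ν := by
    rw [h1]
    exact h
  rw [dS_of h2]
  congr 1
  refine Prod.ext rfl ?_
  show Function.update (fun T' => lfS (Function.update (GMN.res T 𝔳').2 T ν' T')) T ν =
    Function.update (GMN.res T 𝔳).2 T ν
  funext T'
  rcases eq_or_ne T' T with e | e
  · subst e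
    rw [Function.update_self, Function.update_self]
  · rw [Function.update_of_ne e, Function.update_of_ne e, Function.update_of_ne e]
    show lfS (if T' ≤ T then 𝔳' T' else default) = if T' ≤ T then 𝔳 T' else default
    by_cases hle : T' ≤ T
    · rw [if_pos hle, if_pos hle]
      have hm : ¬ mxW T' := by
        rintro ⟨u, rfl⟩
        exact e (tyL_max hle)
      obtain ⟨k, h3, h4⟩ := hk T' hm
      rw [h3, h4]
      rfl
    · rw [if_neg hle, if_neg hle]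
      rfl

theorem dS_res {d : ℕ → WTy (KS D) × (WTy (KS D) → Nk ⊕ Fin Q) → Om → ℝ} {t : ℕ} {w : Om}
    {𝔳' : WTy (KS D) → Nk ⊕ Fin M} {𝔳 : WTy (KS D) → Nk ⊕ Fin Q} (hk : KeyS 𝔳' 𝔳) {T : WTy (KS D)}
    (h : CorS t w T (𝔳' T) (𝔳 T)) : dS d t (GMN.res T 𝔳') w = d t (GMN.res T 𝔳) w := by
  have h1 := dS_sibl (d := d) hk h
  have e1 : sibl (GMN.res T 𝔳') (𝔳' T) = GMN.res T 𝔳' := by
    have := sibl_self (GMN.res T 𝔳')
    rwa [show (GMN.res T 𝔳').2 (GMN.res T 𝔳').1 = 𝔳' T from res_top T 𝔳'] at this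
  have e2 : sibl (GMN.res T 𝔳) (𝔳 T) = GMN.res T 𝔳 := by
    have := sibl_self (GMN.res T 𝔳)
    rwa [show (GMN.res T 𝔳).2 (GMN.res T 𝔳).1 = 𝔳 T from res_top T 𝔳] at this
  rwa [e1, e2] at h1

theorem rmx_le_of {Wt Nm Nm' : Type} {d : ℕ → Wt × (Wt → Nm) → Om → ℝ} {d' : ℕ → Wt × (Wt → Nm') → Om → ℝ}
    {t : ℕ} {x : Wt × (Wt → Nm)} {y : Wt × (Wt → Nm')} {w : Om} (h : ∀ j ≤ t, d j x w ≤ d' j y w) :
    rmx d t x w ≤ rmx d' t y w := by
  induction t with
  | zero => exact h 0 le_rfl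
  | succ t ih =>
    exact max_le_max (ih fun j hj => h j (by omega)) (h (t + 1) le_rfl)

theorem rmx_zero_of {Wt Nm : Type} {d : ℕ → Wt × (Wt → Nm) → Om → ℝ}
    {t : ℕ} {x : Wt × (Wt → Nm)} {w : Om} (h : ∀ j ≤ t, d j x w = 0) : rmx d t x w = 0 := by
  induction t with
  | zero => exact h 0 le_rfl
  | succ t ih =>
    show max (rmx d t x w) (d (t + 1) x w) = 0
    rw [ih fun j hj => h j (by omega), h (t + 1) le_rfl, max_self]

/-- sums over the siblings -/
theorem Sb_dS {d : ℕ → WTy (KS D) × (WTy (KS D) → Nk ⊕ Fin Q) → Om → ℝ} (d0 : ∀ t x w, 0 ≤ d t x w) {t : ℕ} {w : Om}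
    {𝔳' : WTy (KS D) → Nk ⊕ Fin M} {𝔳 : WTy (KS D) → Nk ⊕ Fin Q} (hk : KeyS 𝔳' 𝔳) (T : WTy (KS D)) :
    Sb (dS d) t (GMN.res T 𝔳') w ≤ Sb d t (GMN.res T 𝔳) w := by
  classical
  set b : Nk ⊕ Fin Q → ℝ := fun ν => rmx d t (sibl (GMN.res T 𝔳) ν) w with hb
  have b0 : ∀ ν, 0 ≤ b ν := fun ν => rmx_nonneg d0 t _ w
  have h1 : ∀ ν' : Nk ⊕ Fin M, rmx (dS d) t (sibl (GMN.res T 𝔳') ν') w ≤
      ∑ ν : Nk ⊕ Fin Q, if CorS t w T ν' ν then b ν else 0 := by
    intro ν'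
    by_cases h : ∃ ν : Nk ⊕ Fin Q, CorS t w T ν' ν
    · obtain ⟨ν, hν⟩ := h
      have h2 : rmx (dS d) t (sibl (GMN.res T 𝔳') ν') w ≤ b ν := by
        refine rmx_le_of fun j hj => ?_
        by_cases h3 : ∃ μ : Nk ⊕ Fin Q, CorS j w T ν' μ
        · obtain ⟨μ, hμ⟩ := h3
          have h4 : μ = ν := (hμ.le hj).uniq hν
          subst h4
          rw [dS_sibl hk hμ]
        · rw [dS_zero]
          · exact d0 _ _ _
          · have h5 : (sibl (GMN.res T 𝔳') ν').2 (sibl (GMN.res T 𝔳') ν').1 = ν' := Function.update_self _ _ _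
            rw [h5]
            exact h3
      refine h2.trans ?_
      have h3 := Finset.single_le_sum (f := fun ν : Nk ⊕ Fin Q => if CorS t w T ν' ν then b ν else 0)
        (fun ν _ => by
          show 0 ≤ if CorS t w T ν' ν then b ν else 0
          split_ifs
          · exact b0 ν
          · exact le_rfl) (mem_univ ν)
      have h4 : (if CorS t w T ν' ν then b ν else 0) = b ν := if_pos hν
      rwa [h4] at h3
    · rw [rmx_zero_of]
      · refine Finset.sum_nonneg fun ν _ => ?_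
        split_ifs
        · exact b0 ν
        · exact le_rfl
      · intro j hj
        refine dS_zero ?_
        have h5 : (sibl (GMN.res T 𝔳') ν').2 (sibl (GMN.res T 𝔳') ν').1 = ν' := Function.update_self _ _ _
        rw [h5]
        rintro ⟨μ, hμ⟩
        exact h ⟨μ, hμ.le hj⟩
  refine (Finset.sum_le_sum fun ν' _ => h1 ν').trans ?_
  rw [Finset.sum_comm]
  refine Finset.sum_le_sum fun ν _ => ?_
  show ∑ ν' : Nk ⊕ Fin M, (if CorS t w T ν' ν then b ν else 0) ≤ b ν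
  rw [← Finset.sum_filter, Finset.sum_const, nsmul_eq_mul]
  have h2 : (univ.filter fun ν' : Nk ⊕ Fin M => CorS t w T ν' ν).card ≤ 1 := by
    rw [Finset.card_le_one]
    intro ν' h3 μ' h4
    exact (mem_filter.1 h3).2.inj (mem_filter.1 h4).2
  have h3 : ((univ.filter fun ν' : Nk ⊕ Fin M => CorS t w T ν' ν).card : ℝ) ≤ 1 := by exact_mod_cast h2
  exact mul_le_of_le_one_left (b0 ν) h3

/-! ### systems with given ranks -/

open Classical in
/-- the system with the keys of `𝔳` and the ranks of `r` -/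
def mkS (r : Rk ι M) (𝔳 : WTy (KS D) → Nk ⊕ Fin Q) (T : WTy (KS D)) : Nk ⊕ Fin M :=
  if h : mxW T then .inr (r h.choose.1) else lfS (𝔳 T)

theorem mkS_tyL (r : Rk ι M) (𝔳 : WTy (KS D) → Nk ⊕ Fin Q) (u : KS D) : mkS r 𝔳 (tyL u) = .inr (r u.1) := by
  have h : mxW (tyL u) := ⟨u, rfl⟩
  unfold mkS
  rw [dif_pos h, ← tyL_inj h.choose_spec]

theorem mkS_key (r : Rk ι M) {𝔳 : WTy (KS D) → Nk ⊕ Fin Q} {T : WTy (KS D)} (hT : ¬ mxW T) {k : Nk}
    (h : 𝔳 T = .inl k) : mkS r 𝔳 T = .inl k := by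
  unfold mkS
  rw [dif_neg hT, h]
  rfl

theorem rfJ_mkS (hM : 0 < M) {r : Rk ι M} (hr : D.Can M r) (𝔳 : WTy (KS D) → Nk ⊕ Fin Q) :
    rfJ hM (mkS r 𝔳) = r := by
  funext j
  unfold rfJ
  by_cases h : j ∈ D.Rf
  · rw [dif_pos h, mkS_tyL]
  · rw [dif_neg h]
    exact Fin.ext (hr j h).symm

theorem rfJ_can (hM : 0 < M) (𝔳' : WTy (KS D) → Nk ⊕ Fin M) : D.Can M (rfJ hM 𝔳') := by
  intro j h
  unfold rfJ
  rw [dif_neg h]

theorem rfJ_val (hM : 0 < M) {𝔳' : WTy (KS D) → Nk ⊕ Fin M} {u : KS D} {b : Fin M} (h : 𝔳' (tyL u) = .inr b) :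
    rfJ hM 𝔳' u.1 = b := by
  unfold rfJ
  rw [dif_pos u.2, h]

/-! ### the names of the step -/

variable {kap Bn qb aw : ℝ} {N : JWD W L Q Nk kap Bn qb aw}

/-- all names of the system -/
def hasS (N : JWD W L Q Nk kap Bn qb aw) (t : ℕ) (w : Om) (𝔳' : WTy (KS D) → Nk ⊕ Fin M) : Prop :=
  ∃ 𝔳, N.has t w 𝔳 ∧ ∀ T, CorS t w T (𝔳' T) (𝔳 T)

theorem KeyS_of {t : ℕ} {w : Om}
    {𝔳' : WTy (KS D) → Nk ⊕ Fin M} {𝔳 : WTy (KS D) → Nk ⊕ Fin Q} (h : N.has t w 𝔳)
    (hc : ∀ T, CorS t w T (𝔳' T) (𝔳 T)) : KeyS 𝔳' 𝔳 := by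
  intro T hT
  obtain ⟨k, hk⟩ := N.has_key t w 𝔳 h T hT
  rcases hc T with ⟨k', h1, h2⟩ | ⟨u, b, p, h1, h2, h3, h4⟩
  · rw [hk] at h2
    exact ⟨k, by rw [h1, Sum.inl.inj h2], hk⟩
  · rw [hk] at h3
    exact absurd h3 (by simp)

/-- the ranks of a system -/
theorem hasS_rank {t : ℕ} {w : Om} {𝔳' : WTy (KS D) → Nk ⊕ Fin M} {𝔳 : WTy (KS D) → Nk ⊕ Fin Q} (h : N.has t w 𝔳)
    (hc : ∀ T, CorS t w T (𝔳' T) (𝔳 T)) (u : KS D) : ∃ b : Fin M, ∃ p : Fin Q, 𝔳' (tyL u) = .inr b ∧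
      𝔳 (tyL u) = .inr p ∧ cdS D M u b t w = some p.1 := by
  obtain ⟨p, hp, _⟩ := N.has_some t w 𝔳 h u
  rcases hc (tyL u) with ⟨k', h1, h2⟩ | ⟨u', b, p', h1, h2, h3, h4⟩
  · rw [hp] at h2
    exact absurd h2 (by simp)
  · have e := tyL_inj h1
    subst e
    exact ⟨b, p', h2, h3, h4⟩

theorem hasS_mk {t : ℕ} {w : Om}
    {𝔳 : WTy (KS D) → Nk ⊕ Fin Q} (h : N.has t w 𝔳) {r : Rk ι M}
    (hr : ∀ u : KS D, ∃ p : Fin Q, 𝔳 (tyL u) = .inr p ∧ cdS D M u (r u.1) t w = some p.1) :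
    hasS N t w (mkS r 𝔳) := by
  refine ⟨𝔳, h, fun T => ?_⟩
  by_cases hT : mxW T
  · obtain ⟨u, rfl⟩ := hT
    obtain ⟨p, h1, h2⟩ := hr u
    exact Or.inr ⟨u, r u.1, p, rfl, mkS_tyL r 𝔳 u, h1, h2⟩
  · obtain ⟨k, hk⟩ := N.has_key t w 𝔳 h T hT
    exact Or.inl ⟨k, mkS_key r hT hk, hk⟩

/-- **THE NAMES OF THE STEP** from the names of its world -/
def jwOf (h : IsS D G W L) (N : JWD W L Q Nk kap Bn qb aw) (hM : 0 < M) : JW D M hM Nk kap Bn qb aw where
  has := hasS N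
  G := N.G
  d := dS N.d
  d0 t x w := by
    unfold dS
    split_ifs
    · exact N.d0 _ _ _
    · exact le_rfl
  d_vis t x v w hv := by
    by_cases hc : ∃ ν : Nk ⊕ Fin Q, CorS t w x.1 (x.2 x.1) ν
    · obtain ⟨ν, hν⟩ := hc
      rw [dS_of hν, dS_of (CorS.vis (vis_symm hv) hν)]
      exact N.d_vis t _ v w ((h.Vis_iff _ _ _ _).2 hv)
    · rw [dS_zero hc, dS_zero]
      rintro ⟨ν, hν⟩
      exact hc ⟨ν, CorS.vis hv hν⟩
  d_some t x w hd u hu := by
    by_cases hc : ∃ ν : Nk ⊕ Fin Q, CorS t w x.1 (x.2 x.1) ν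
    · obtain ⟨ν, hν⟩ := hc
      rw [dS_of hν] at hd
      obtain ⟨p, hp, _⟩ := N.d_some t _ w hd u hu
      have hp' : ν = .inr p := by
        have h5 : Function.update (fun T => lfS (B := Fin Q) (x.2 T)) x.1 ν x.1 = .inr p := hp
        rwa [Function.update_self] at h5
      rcases hν with ⟨k, _, h2⟩ | ⟨u', b, p', h1, h2, h3, h4⟩
      · rw [hp'] at h2
        exact absurd h2 (by simp)
      · have e : u = u' := tyL_inj (hu.symm.trans h1)
        subst e
        exact ⟨b, h2, p'.1, h4⟩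
    · exact absurd (dS_zero hc) hd
  cum t w r hr := by
    obtain ⟨𝔳', h1, 𝔳, h2, h3⟩ := hr
    have h4 := hasS_rank h2 h3
    choose b s hb hs hbs using h4
    obtain ⟨𝔲, h5, h6⟩ := N.cum t w s ⟨𝔳, hs, h2⟩
    have hcan : D.Can M r := by
      rw [← h1]
      exact rfJ_can hM 𝔳'
    refine ⟨mkS r 𝔲, rfJ_mkS hM hcan 𝔲, hasS_mk h6 fun u => ⟨s u, h5 u, ?_⟩⟩
    rw [← h1, rfJ_val hM (hb u)]
    exact cdS_succ (hbs u)
  kap0 := N.kap0
  clo bl i hi 𝔳' w := by
    have hp0 : 0 ≤ ∏ T, dS N.d (i / bl) (GMN.res T 𝔳') w := Finset.prod_nonneg fun T _ => by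
      unfold dS
      split_ifs
      · exact N.d0 _ _ _
      · exact le_rfl
    by_cases hex : ∃ v, D.Kc bl i v = D.Kc bl i w ∧ hasS N (i / bl) v 𝔳'
    · obtain ⟨v0, hv0, 𝔳, h1, h2⟩ := hex
      have hc : ∀ v, D.Kc bl i v = D.Kc bl i w → ∀ T, CorS (i / bl) v T (𝔳' T) (𝔳 T) := fun v hv T =>
        (h2 T).vis (Vis_of_Kc (hv0.trans hv.symm) T.1)
      have h3 : S.P.ce (D.Kc bl i) (fun v => ind (hasS N (i / bl) v 𝔳' ∧ N.G (i / bl) v)) w =
          S.P.ce (D.Kc bl i) (fun v => ind (N.has (i / bl) v 𝔳 ∧ N.G (i / bl) v)) w := by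
        refine ce_cls S.P _ fun v hv => ?_
        congr 1
        refine propext (and_congr_left fun _ => ?_)
        constructor
        · rintro ⟨𝔲, h4, h5⟩
          have : 𝔲 = 𝔳 := funext fun T => (h5 T).uniq (hc v hv T)
          rwa [this] at h4
        · intro h4
          exact ⟨𝔳, h4, hc v hv⟩
      rw [h3, h.ce_Kc bl i (fun v v' a1 a2 a3 => ?_) w]
      · have h4 := N.clo (i / bl) (by rw [h.n]; exact hi) 𝔳 w
        rw [h.P] at h4
        refine h4.trans (le_of_eq ?_)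
        congr 1
        refine Finset.prod_congr rfl fun T _ => ?_
        exact (dS_res (KeyS_of h1 h2) (hc w rfl T)).symm
      · congr 1
        have b1 : W.top v = W.top v' := by rw [h.top]; exact a1
        have b2 : W.y v = W.y v' := by rw [h.y]; exact a2
        have b3 : W.hx v = W.hx v' := by rw [h.hx]; exact a3
        exact propext (and_congr (N.has_fac _ _ _ _ b1 b2 b3) (N.G_fac _ _ _ b1 b2 b3))
    · have h3 : S.P.ce (D.Kc bl i) (fun v => ind (hasS N (i / bl) v 𝔳' ∧ N.G (i / bl) v)) w =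
          S.P.ce (D.Kc bl i) (fun _ => 0) w := by
        refine ce_cls S.P _ fun v hv => ?_
        exact ind_not fun h4 => hex ⟨v, hv, h4.1⟩
      rw [h3, S.P.ce_const _ _ (S.ppos w)]
      exact mul_nonneg N.kap0 hp0
  dl := N.dl
  dl0 := N.dl0
  low t ht w 𝔳' h1 h2 T := by
    obtain ⟨𝔳, h3, h4⟩ := h1
    rw [dS_res (KeyS_of h3 h4) (h4 T)]
    exact N.low t (by rw [h.n]; exact ht) w 𝔳 h3 h2 T
  heavy t ht w 𝔳' h1 h2 T := by
    obtain ⟨𝔳, h3, h4⟩ := h1
    exact (Sb_dS N.d0 (KeyS_of h3 h4) T).trans (N.heavy t (by rw [h.n]; exact ht) w 𝔳 h3 h2 T)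
  bad := by
    have h1 := N.bad
    rwa [h.P, h.n] at h1
  aw0 := N.aw0
  wait bl i hi r w := by
    by_cases hex : ∃ s : KS D → ℕ, D.Can M r ∧ ∀ u : KS D, cdS D M u (r u.1) (i / bl) w = some (s u)
    · obtain ⟨s, hcan, hs⟩ := hex
      have hcl : ∀ v, D.Kc bl i v = D.Kc bl i w → ∀ u : KS D, cdS D M u (r u.1) (i / bl) v = some (s u) := by
        intro v hv u
        rw [← hs u]
        exact cdS_vis (Vis_of_Kc hv _)
      set E : Om → Prop := fun v => (∀ u, s u ∈ L.tr u (i / bl) v) ∧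
        ¬ (∃ 𝔳, (∀ u, ∃ p : Fin Q, p.1 = s u ∧ 𝔳 (tyL u) = .inr p) ∧ N.has (i / bl) v 𝔳) ∧ N.G (i / bl) v with hE
      have h1 : S.P.ce (D.Kc bl i) (fun v => ind (D.RTr M r (i / bl) v ∧
          ¬ (∃ 𝔳, rfJ hM 𝔳 = r ∧ hasS N (i / bl) v 𝔳) ∧ N.G (i / bl) v)) w ≤
          S.P.ce (D.Kc bl i) (fun v => ind (E v)) w := by
        unfold FP.ce
        refine div_le_div_of_nonneg_right (S.P.E_mono fun v _ => ?_) (S.P.m_nonneg _ _)
        by_cases hv : D.Kc bl i v = D.Kc bl i w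
        · refine mul_le_mul_of_nonneg_left (ind_mono fun h2 => ?_) (ind_nonneg _)
          obtain ⟨h3, h4, h5⟩ := h2
          refine ⟨fun u => ?_, fun h6 => h4 ?_, h5⟩
          · obtain ⟨s', h6, h7⟩ := h3.2 u.1 u.2
            have h8 : cdS D M u (r u.1) (i / bl) v = some s' := h6
            rw [hcl v hv u] at h8
            rw [h.tr, Option.some.inj h8]
            exact h7
          · obtain ⟨𝔳, h7, h8⟩ := h6
            refine ⟨mkS r 𝔳, rfJ_mkS hM hcan 𝔳, hasS_mk h8 fun u => ?_⟩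
            obtain ⟨p, h9, h10⟩ := h7 u
            exact ⟨p, h10, by rw [hcl v hv u, h9]⟩
        · rw [ind_not hv, zero_mul, zero_mul]
      refine h1.trans ?_
      rw [h.ce_Kc bl i (fun v v' a1 a2 a3 => ?_) w]
      · have h4 := N.wait (i / bl) (by rw [h.n]; exact hi) s w
        rw [h.P] at h4
        exact h4
      · congr 1
        have b1 : W.top v = W.top v' := by rw [h.top]; exact a1
        have b2 : W.y v = W.y v' := by rw [h.y]; exact a2
        have b3 : W.hx v = W.hx v' := by rw [h.hx]; exact a3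
        refine propext (and_congr (forall_congr' fun u => ?_) (and_congr (not_congr ?_) (N.G_fac _ _ _ b1 b2 b3)))
        · rw [h.tr, trS_eq a1 a2 a3]
        · exact exists_congr fun 𝔳 => and_congr Iff.rfl (N.has_fac _ _ _ _ b1 b2 b3)
    · have h3 : S.P.ce (D.Kc bl i) (fun v => ind (D.RTr M r (i / bl) v ∧
          ¬ (∃ 𝔳, rfJ hM 𝔳 = r ∧ hasS N (i / bl) v 𝔳) ∧ N.G (i / bl) v)) w =
          S.P.ce (D.Kc bl i) (fun _ => 0) w := by
        refine ce_cls S.P _ fun v hv => ?_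
        refine ind_not fun h4 => hex ?_
        have h5 : ∀ u : KS D, ∃ s, cdS D M u (r u.1) (i / bl) w = some s := by
          intro u
          obtain ⟨s, h6, _⟩ := h4.1.2 u.1 u.2
          have h7 : cdS D M u (r u.1) (i / bl) v = some s := h6
          refine ⟨s, ?_⟩
          rw [← h7]
          exact (cdS_vis (Vis_of_Kc hv _)).symm
        choose s hs using h5
        exact ⟨s, h4.1.1, hs⟩
      rw [h3, S.P.ce_const _ _ (S.ppos w)]
      exact N.aw0

end names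

end

end Pool.Agent.GMJR.NS

namespace Pool.Agent.GMJR

open Finset Pool.Agent.PWZ Pool.Agent.M3 Pool.Agent.M3.TS Pool.Agent.GM Pool.Agent.GMN

noncomputable section

variable {ι Om Ξ Pt V Γ κ : Type} [Fintype ι] [DecidableEq ι] [Fintype Om] [Fintype Ξ] [Fintype Pt]
  [Fintype V] {S : Sys ι Om Ξ Pt V Γ κ} {β : Type} {D : StepIn S β} {G : HG S D.v}

theorem wlS_is {n B : ℕ} (hb : D.Bd n B) : NS.IsS D G (wdS D G) (wlS D G hb) :=
  ⟨rfl, rfl, rfl, rfl, rfl, rfl, rfl, rfl⟩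

/-- **THE NAMES OF THE STEP** from the names of the world `wdS` with the labels `wlS` -/
def jwS {n B : ℕ} (hb : D.Bd n B) {M Q : ℕ} {Nk : Type} [Fintype Nk] [DecidableEq Nk] [Inhabited Nk]
    {kap Bn qb aw : ℝ} (N : JWD (wdS D G) (wlS D G hb) Q Nk kap Bn qb aw) (hM : 0 < M) :
    JW D M hM Nk kap Bn qb aw := NS.jwOf (wlS_is hb) N hM

end

end Pool.Agent.GMJR
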