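import Mathlib

/-!
# GMJR/PB (helper19): calculus of polynomial bounds

`PB Y a x` : `0 ≤ x ≤ Y ^ a`; `PE Y a x` : `0 ≤ x ≤ exp (Y ^ a)` (for `2 ≤ Y`); closed under sums, products, powers, ceilings,
finite sums; constants; `PB.log` : logarithms of `PE` numbers are `PB`; `PE.pow_nat` : powers with `PB` exponents; `SM Y a x` :
`0 ≤ x ≤ exp (- Y ^ a)`, `SM.mul_PE`.  The exponents are computed by unification: `refine ⟨_, ?_⟩`.
-/

set_option autoImplicit false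

namespace Pool.Agent.GMJR

noncomputable section

/-- `0 ≤ x ≤ Y ^ a` -/
structure PB (Y : ℝ) (a : ℕ) (x : ℝ) : Prop where
  nn : 0 ≤ x
  le : x ≤ Y ^ a

/-- `0 ≤ x ≤ exp (Y ^ a)` -/
structure PE (Y : ℝ) (a : ℕ) (x : ℝ) : Prop where
  nn : 0 ≤ x
  le : x ≤ Real.exp (Y ^ a)

/-- `0 ≤ x ≤ exp (- Y ^ a)` -/
structure SM (Y : ℝ) (a : ℕ) (x : ℝ) : Prop where
  nn : 0 ≤ x
  le : x ≤ Real.exp (-Y ^ a)

variable {Y x y : ℝ} {a b : ℕ}

theorem one_le_Y (hY : 2 ≤ Y) (n : ℕ) : 1 ≤ Y ^ n := one_le_pow₀ (by linarith)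

theorem Y_mono (hY : 2 ≤ Y) {m n : ℕ} (h : m ≤ n) : Y ^ m ≤ Y ^ n := pow_le_pow_right₀ (by linarith) h

theorem nat_le_Y (hY : 2 ≤ Y) (n : ℕ) : (n : ℝ) ≤ Y ^ n := by
  have h1 : (n : ℝ) ≤ 2 ^ n := by exact_mod_cast (Nat.lt_two_pow_self (n := n)).le
  exact h1.trans (pow_le_pow_left₀ (by norm_num) hY n)

/-- `m Y ^ n ≤ Y ^ (n + m)` -/
theorem mul_le_Y (hY : 2 ≤ Y) (m n : ℕ) : (m : ℝ) * Y ^ n ≤ Y ^ (n + m) := by
  rw [pow_add, mul_comm]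
  exact mul_le_mul_of_nonneg_left (nat_le_Y hY m) (by positivity)

namespace PB

theorem mono (hY : 2 ≤ Y) (h : PB Y a x) (hab : a ≤ b) : PB Y b x := ⟨h.nn, h.le.trans (Y_mono hY hab)⟩

theorem of_le (h : PB Y a y) (h0 : 0 ≤ x) (hx : x ≤ y) : PB Y a x := ⟨h0, hx.trans h.le⟩

theorem self (hY : 2 ≤ Y) : PB Y 1 Y := ⟨by linarith, by rw [pow_one]⟩

theorem zero : PB Y 0 0 := ⟨le_rfl, by rw [pow_zero]; norm_num⟩

theorem one : PB Y 0 1 := ⟨zero_le_one, by rw [pow_zero]⟩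

theorem nat (hY : 2 ≤ Y) (n : ℕ) : PB Y n (n : ℝ) := ⟨Nat.cast_nonneg n, nat_le_Y hY n⟩

theorem ofNat (hY : 2 ≤ Y) (n : ℕ) [n.AtLeastTwo] : PB Y n (OfNat.ofNat n : ℝ) := nat hY n

theorem two (hY : 2 ≤ Y) : PB Y 1 2 := ⟨by norm_num, by rw [pow_one]; exact hY⟩

theorem add (hY : 2 ≤ Y) (hx : PB Y a x) (hy : PB Y b y) : PB Y (a + b + 1) (x + y) := by
  refine ⟨add_nonneg hx.nn hy.nn, ?_⟩
  have h1 : x ≤ Y ^ (a + b) := hx.le.trans (Y_mono hY (Nat.le_add_right a b))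
  have h2 : y ≤ Y ^ (a + b) := hy.le.trans (Y_mono hY (Nat.le_add_left b a))
  have h3 := one_le_Y hY (a + b)
  rw [pow_succ]
  nlinarith

theorem mul (hY : 2 ≤ Y) (hx : PB Y a x) (hy : PB Y b y) : PB Y (a + b) (x * y) := by
  refine ⟨mul_nonneg hx.nn hy.nn, ?_⟩
  rw [pow_add]
  exact mul_le_mul hx.le hy.le hy.nn (by positivity)

theorem pow (hx : PB Y a x) (n : ℕ) : PB Y (a * n) (x ^ n) := by
  refine ⟨pow_nonneg hx.nn n, ?_⟩
  rw [pow_mul]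
  exact pow_le_pow_left₀ hx.nn hx.le n

theorem succ (hY : 2 ≤ Y) (hx : PB Y a x) : PB Y (a + 1) (x + 1) := by
  have h := add hY hx (PB.one (Y := Y))
  exact h

theorem max (hY : 2 ≤ Y) (hx : PB Y a x) (hy : PB Y b y) : PB Y (a + b) (max x y) := by
  refine ⟨hx.nn.trans (le_max_left _ _), max_le ?_ ?_⟩
  · exact hx.le.trans (Y_mono hY (Nat.le_add_right a b))
  · exact hy.le.trans (Y_mono hY (Nat.le_add_left b a))

theorem ceil (hY : 2 ≤ Y) (hx : PB Y a x) : PB Y (a + 1) (⌈x⌉₊ : ℝ) :=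
  (succ hY hx).of_le (Nat.cast_nonneg _) (Nat.ceil_lt_add_one hx.nn).le

theorem floor (hx : PB Y a x) : PB Y a (⌊x⌋₊ : ℝ) := hx.of_le (Nat.cast_nonneg _) (Nat.floor_le hx.nn)

/-- `1 / q` for `1 / Y ≤ q` -/
theorem inv (hY : 2 ≤ Y) {q : ℝ} (hq : 1 / Y ≤ q) : PB Y 1 (1 / q) := by
  have h0 : 0 < 1 / Y := by positivity
  refine ⟨by have := lt_of_lt_of_le h0 hq; positivity, ?_⟩
  rw [pow_one]
  have h1 := one_div_le_one_div_of_le h0 hq
  rwa [one_div_one_div] at h1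

theorem div (hY : 2 ≤ Y) {q : ℝ} (hx : PB Y a x) (hq : 1 / Y ≤ q) : PB Y (a + 1) (x / q) := by
  have h := mul hY hx (inv hY hq)
  rwa [mul_one_div] at h

/-- finite sums with a bounded number of terms -/
theorem sum {σ : Type*} (hY : 2 ≤ Y) (s : Finset σ) (f : σ → ℝ) (hc : PB Y b (s.card : ℝ)) (hf : ∀ i ∈ s, PB Y a (f i)) :
    PB Y (b + a) (∑ i ∈ s, f i) := by
  refine ⟨Finset.sum_nonneg fun i hi => (hf i hi).nn, ?_⟩
  refine (Finset.sum_le_card_nsmul s f (Y ^ a) fun i hi => (hf i hi).le).trans ?_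
  rw [nsmul_eq_mul, pow_add]
  exact mul_le_mul_of_nonneg_right hc.le (by positivity)

/-- logarithms -/
theorem log (hx : x ≤ Real.exp (Y ^ a)) (h1 : 1 ≤ x) : PB Y a (Real.log x) := by
  refine ⟨Real.log_nonneg h1, ?_⟩
  have h2 := Real.log_le_log (by linarith) hx
  rwa [Real.log_exp] at h2

theorem toPE (hx : PB Y a x) : PE Y a x := by
  refine ⟨hx.nn, hx.le.trans ?_⟩
  have := Real.add_one_le_exp (Y ^ a)
  linarith

end PB

namespace PE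

theorem mono (hY : 2 ≤ Y) (h : PE Y a x) (hab : a ≤ b) : PE Y b x :=
  ⟨h.nn, h.le.trans (Real.exp_le_exp.2 (Y_mono hY hab))⟩

theorem of_le (h : PE Y a y) (h0 : 0 ≤ x) (hx : x ≤ y) : PE Y a x := ⟨h0, hx.trans h.le⟩

theorem exp (hx : PB Y a x) : PE Y a (Real.exp x) := ⟨(Real.exp_pos _).le, Real.exp_le_exp.2 hx.le⟩

theorem mul (hY : 2 ≤ Y) (hx : PE Y a x) (hy : PE Y b y) : PE Y (a + b + 1) (x * y) := by
  refine ⟨mul_nonneg hx.nn hy.nn, ?_⟩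
  refine (mul_le_mul hx.le hy.le hy.nn (Real.exp_pos _).le).trans ?_
  rw [← Real.exp_add]
  refine Real.exp_le_exp.2 ?_
  have h1 : Y ^ a ≤ Y ^ (a + b) := Y_mono hY (Nat.le_add_right a b)
  have h2 : Y ^ b ≤ Y ^ (a + b) := Y_mono hY (Nat.le_add_left b a)
  have h3 := one_le_Y hY (a + b)
  rw [pow_succ]
  nlinarith

theorem add (hY : 2 ≤ Y) (hx : PE Y a x) (hy : PE Y b y) : PE Y (a + b + 1) (x + y) := by
  refine ⟨add_nonneg hx.nn hy.nn, ?_⟩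
  have h1 : x ≤ Real.exp (Y ^ (a + b)) := hx.le.trans (Real.exp_le_exp.2 (Y_mono hY (Nat.le_add_right a b)))
  have h2 : y ≤ Real.exp (Y ^ (a + b)) := hy.le.trans (Real.exp_le_exp.2 (Y_mono hY (Nat.le_add_left b a)))
  have h3 := one_le_Y hY (a + b)
  have h4 : Real.exp (Y ^ (a + b)) * 2 ≤ Real.exp (Y ^ (a + b + 1)) := by
    have h5 : (2 : ℝ) ≤ Real.exp 1 := by
      have := Real.add_one_le_exp (1 : ℝ)
      linarith
    calc Real.exp (Y ^ (a + b)) * 2 ≤ Real.exp (Y ^ (a + b)) * Real.exp 1 :=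
          mul_le_mul_of_nonneg_left h5 (Real.exp_pos _).le
      _ = Real.exp (Y ^ (a + b) + 1) := (Real.exp_add _ _).symm
      _ ≤ Real.exp (Y ^ (a + b + 1)) := Real.exp_le_exp.2 (by rw [pow_succ]; nlinarith)
  linarith

theorem one : PE Y 0 1 := by
  refine ⟨zero_le_one, ?_⟩
  rw [← Real.exp_zero, pow_zero]
  exact Real.exp_le_exp.2 zero_le_one

theorem succ (hY : 2 ≤ Y) (hx : PE Y a x) : PE Y (a + 1) (x + 1) := add hY hx (one (Y := Y))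

theorem ceil (hY : 2 ≤ Y) (hx : PE Y a x) : PE Y (a + 1) (⌈x⌉₊ : ℝ) :=
  (succ hY hx).of_le (Nat.cast_nonneg _) (Nat.ceil_lt_add_one hx.nn).le

/-- powers with polynomially bounded exponents -/
theorem pow_nat (hY : 2 ≤ Y) (hx : PE Y a x) {n : ℕ} (hn : PB Y b (n : ℝ)) : PE Y (b + a) (x ^ n) := by
  refine ⟨pow_nonneg hx.nn n, ?_⟩
  refine (pow_le_pow_left₀ hx.nn hx.le n).trans ?_
  rw [← Real.exp_nat_mul, pow_add]
  exact Real.exp_le_exp.2 (mul_le_mul_of_nonneg_right hn.le (by positivity))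

theorem pow (hY : 2 ≤ Y) (hx : PE Y a x) (n : ℕ) : PE Y (n + a) (x ^ n) := pow_nat hY hx (PB.nat hY n)

theorem two_pow (hY : 2 ≤ Y) {n : ℕ} (hn : PB Y b (n : ℝ)) : PE Y (b + 1) ((2 : ℝ) ^ n) :=
  pow_nat hY (PB.two hY).toPE hn

/-- finite sums with a bounded number of terms -/
theorem sum {σ : Type*} (hY : 2 ≤ Y) (s : Finset σ) (f : σ → ℝ) (hc : PE Y b (s.card : ℝ)) (hf : ∀ i ∈ s, PE Y a (f i)) :
    PE Y (b + a + 1) (∑ i ∈ s, f i) := by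
  refine ⟨Finset.sum_nonneg fun i hi => (hf i hi).nn, ?_⟩
  refine (Finset.sum_le_card_nsmul s f (Real.exp (Y ^ a)) fun i hi => (hf i hi).le).trans ?_
  rw [nsmul_eq_mul]
  exact (mul hY hc ⟨(Real.exp_pos _).le, le_rfl⟩).le

/-- `1 / q` for `1 / Y ≤ q` -/
theorem inv (hY : 2 ≤ Y) {q : ℝ} (hq : 1 / Y ≤ q) : PE Y 1 (1 / q) := (PB.inv hY hq).toPE

end PE

namespace SM

theorem mono (hY : 2 ≤ Y) (h : SM Y a x) (hab : b ≤ a) : SM Y b x :=
  ⟨h.nn, h.le.trans (Real.exp_le_exp.2 (neg_le_neg (Y_mono hY hab)))⟩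

theorem of_le (h : SM Y a y) (h0 : 0 ≤ x) (hx : x ≤ y) : SM Y a x := ⟨h0, hx.trans h.le⟩

theorem self : SM Y a (Real.exp (-Y ^ a)) := ⟨(Real.exp_pos _).le, le_rfl⟩

theorem Y_add (hY : 2 ≤ Y) {a b c : ℕ} (h : b + c + 1 ≤ a) : Y ^ b + Y ^ c ≤ Y ^ a := by
  have h1 : Y ^ b ≤ Y ^ (b + c) := Y_mono hY (Nat.le_add_right b c)
  have h2 : Y ^ c ≤ Y ^ (b + c) := Y_mono hY (Nat.le_add_left c b)
  have h3 : Y ^ (b + c + 1) ≤ Y ^ a := Y_mono hY h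
  have h4 := one_le_Y hY (b + c)
  rw [pow_succ] at h3
  nlinarith

/-- small times at most exponential -/
theorem mul_PE (hY : 2 ≤ Y) {c : ℕ} (hx : SM Y a x) (hy : PE Y b y) (h : b + c + 1 ≤ a) : SM Y c (x * y) := by
  refine ⟨mul_nonneg hx.nn hy.nn, ?_⟩
  refine (mul_le_mul hx.le hy.le hy.nn (Real.exp_pos _).le).trans ?_
  rw [← Real.exp_add]
  refine Real.exp_le_exp.2 ?_
  have := Y_add hY h
  linarith

theorem PE_mul (hY : 2 ≤ Y) {c : ℕ} (hy : PE Y b y) (hx : SM Y a x) (h : b + c + 1 ≤ a) : SM Y c (y * x) := by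
  rw [mul_comm]
  exact mul_PE hY hx hy h

/-- small is smaller than every power -/
theorem inv_pow (hY : 2 ≤ Y) (hx : SM Y (b + 1) x) : x ≤ 1 / Y ^ b := by
  refine hx.le.trans ?_
  have hY0 : 0 < Y := by linarith
  have h1 : Y ≤ Real.exp Y := by
    have := Real.add_one_le_exp Y
    linarith
  have h2 : Y ^ b ≤ Real.exp (Y ^ (b + 1)) := by
    refine (pow_le_pow_left₀ hY0.le h1 b).trans ?_
    rw [← Real.exp_nat_mul, pow_succ]
    exact Real.exp_le_exp.2 (mul_le_mul_of_nonneg_right (nat_le_Y hY b) hY0.le)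
  rw [Real.exp_neg, ← one_div]
  exact one_div_le_one_div_of_le (by positivity) h2

/-- powers of one half -/
theorem half_pow (hY : 2 ≤ Y) {n : ℕ} (hn : Y ^ (a + 1) ≤ n) : SM Y a ((1 / 2 : ℝ) ^ n) := by
  refine ⟨by positivity, ?_⟩
  have h1 : (1 / 2 : ℝ) ≤ Real.exp (-(1 / 2 : ℝ)) := by
    have := Real.add_one_le_exp (-(1 / 2 : ℝ))
    linarith
  calc (1 / 2 : ℝ) ^ n ≤ Real.exp (-(1 / 2 : ℝ)) ^ n := pow_le_pow_left₀ (by norm_num) h1 n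
    _ = Real.exp (n * (-(1 / 2 : ℝ))) := by rw [← Real.exp_nat_mul]
    _ ≤ Real.exp (-Y ^ a) := by
      refine Real.exp_le_exp.2 ?_
      have h2 : Y ^ a * 2 ≤ Y ^ a * Y := mul_le_mul_of_nonneg_left hY (by positivity)
      rw [pow_succ] at hn
      linarith

end SM

/-! ### inverse powers -/

/-- `0 ≤ x ≤ 1 / Y ^ a` -/
structure PS (Y : ℝ) (a : ℕ) (x : ℝ) : Prop where
  nn : 0 ≤ x
  le : x ≤ 1 / Y ^ a

namespace PS

theorem mono (hY : 2 ≤ Y) (h : PS Y a x) (hab : b ≤ a) : PS Y b x :=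
  ⟨h.nn, h.le.trans (one_div_le_one_div_of_le (by positivity) (Y_mono hY hab))⟩

theorem of_le (h : PS Y a y) (h0 : 0 ≤ x) (hx : x ≤ y) : PS Y a x := ⟨h0, hx.trans h.le⟩

theorem inv_pow (hY : 2 ≤ Y) : PS Y a (1 / Y ^ a) := ⟨by positivity, le_rfl⟩

theorem of_SM (hY : 2 ≤ Y) (h : SM Y (a + 1) x) : PS Y a x := ⟨h.nn, SM.inv_pow hY h⟩

/-- small times polynomially bounded -/
theorem mul_PB (hY : 2 ≤ Y) {c : ℕ} (hx : PS Y a x) (hy : PB Y b y) (h : b + c ≤ a) : PS Y c (x * y) := by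
  have hY0 : 0 < Y := by linarith
  refine ⟨mul_nonneg hx.nn hy.nn, ?_⟩
  have h1 : x ≤ 1 / Y ^ (b + c) := (mono hY hx h).le
  refine (mul_le_mul h1 hy.le hy.nn (by positivity)).trans (le_of_eq ?_)
  rw [pow_add, one_div_mul_eq_div, one_div, div_eq_iff (by positivity)]
  field_simp

theorem PB_mul (hY : 2 ≤ Y) {c : ℕ} (hy : PB Y b y) (hx : PS Y a x) (h : b + c ≤ a) : PS Y c (y * x) := by
  rw [mul_comm]
  exact mul_PB hY hx hy h

/-- `y / B` for `Y ^ (b + c) ≤ B` -/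
theorem div (hY : 2 ≤ Y) {c : ℕ} {B : ℝ} (hy : PB Y b y) (hB : Y ^ (b + c) ≤ B) : PS Y c (y / B) := by
  have hY0 : 0 < Y := by linarith
  have h0 : 0 < Y ^ (b + c) := by positivity
  have h1 := PB_mul hY hy (a := b + c) (x := 1 / B) ⟨by have := lt_of_lt_of_le h0 hB; positivity,
    one_div_le_one_div_of_le h0 hB⟩ le_rfl
  rwa [mul_one_div] at h1

/-- sums: two small numbers -/
theorem add (hY : 2 ≤ Y) {c : ℕ} (hx : PS Y (c + 1) x) (hy : PS Y (c + 1) y) : PS Y c (x + y) := by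
  have hY0 : 0 < Y := by linarith
  refine ⟨add_nonneg hx.nn hy.nn, ?_⟩
  have h1 := hx.le
  have h2 := hy.le
  have h3 : 1 / Y ^ (c + 1) + 1 / Y ^ (c + 1) ≤ 1 / Y ^ c := by
    rw [← add_div, pow_succ, div_le_div_iff₀ (by positivity) (by positivity)]
    nlinarith [pow_pos hY0 c]
  linarith

end PS

end

end Pool.Agent.GMJR
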