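import Pool.Agent.M3.S3.MdlA
import Pool.Agent.GMJR.PB

/-!
# GMJR/SzY (helper58): the sizes of CL at the scale `Y`

`szM_Y` : `SzM Rz J n0 m (Y ^ l)` if `J, Rz ≤ exp (Y ^ r)`, `m ≤ exp (Y ^ b)`, `n0 ≤ Y ^ a`, `a + b + r + 6 ≤ l`.
-/

set_option autoImplicit false

namespace Pool.Agent.GMJR

open Pool.Agent.M3
open Pool.Agent.M3.Mod (SzM)

noncomputable section

/-- `log` of a number `≤ exp (Y ^ a)`, plus one -/
theorem log_succ_le {Y : ℝ} {m b : ℕ} (hm1 : 1 ≤ m) (hm : (m : ℝ) ≤ Real.exp (Y ^ b)) :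
    Real.log ((m : ℝ) + 1) ≤ Y ^ b + 1 := by
  have hm1' : (1 : ℝ) ≤ m := by exact_mod_cast hm1
  rw [Real.log_le_iff_le_exp (by positivity), Real.exp_add]
  have h1 : (2 : ℝ) ≤ Real.exp 1 := by linarith [Real.add_one_le_exp (1 : ℝ)]
  have h2 : 0 < Real.exp (Y ^ b) := Real.exp_pos _
  nlinarith

/-- **SIZES OF CL AT THE SCALE `Y`** -/
theorem szM_Y {Y : ℝ} (hY : 2 ≤ Y) {a b r l : ℕ} {Rz J n0 m : ℕ} (hJ1 : 1 ≤ J) (hJR : 2 * J ≤ Rz + 1)
    (hR : (Rz : ℝ) ≤ Real.exp (Y ^ r)) (hm1 : 1 ≤ m) (hm : (m : ℝ) ≤ Real.exp (Y ^ b)) (hn : (n0 : ℝ) ≤ Y ^ a)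
    (hl : a + b + r + 6 ≤ l) : SzM Rz J n0 m (Y ^ l) := by
  have hm1' : (1 : ℝ) ≤ m := by exact_mod_cast hm1
  have hJ1' : (1 : ℝ) ≤ J := by exact_mod_cast hJ1
  have hR1 : 1 ≤ Rz := by omega
  have hR1' : (1 : ℝ) ≤ Rz := by exact_mod_cast hR1
  have hJR' : (J : ℝ) ≤ Rz := by
    have h : J ≤ Rz := by omega
    exact_mod_cast h
  have hn0 : (0 : ℝ) ≤ n0 := Nat.cast_nonneg _
  have p1 := one_le_Y hY
  have hlR : Real.log ((Rz : ℝ) + 1) ≤ Y ^ r + 1 := log_succ_le hR1 hR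
  have hlm : Real.log ((m : ℝ) + 1) ≤ Y ^ b + 1 := log_succ_le hm1 hm
  have hlJ : Real.log J ≤ Y ^ r := by
    rw [Real.log_le_iff_le_exp (by positivity)]
    exact hJR'.trans hR
  have hlm' : Real.log m ≤ Y ^ b := by
    rw [Real.log_le_iff_le_exp (by positivity)]
    exact hm
  have hlR0 : 0 ≤ Real.log ((Rz : ℝ) + 1) := Real.log_nonneg (by linarith)
  have hlm0 : 0 ≤ Real.log ((m : ℝ) + 1) := Real.log_nonneg (by linarith)
  have hlJ0 : 0 ≤ Real.log J := Real.log_nonneg hJ1'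
  have hlm'0 : 0 ≤ Real.log m := Real.log_nonneg hm1'
  have s1 : Y ^ r + 1 + (Y ^ b + 1) ≤ Y ^ (r + b + 2) := by
    have e : Y ^ (r + b + 2) = Y ^ r * Y ^ b * (Y * Y) := by ring
    rw [e]
    have h1 := p1 r
    have h2 := p1 b
    have h3 : 4 ≤ Y * Y := by nlinarith
    have h4 : 1 ≤ Y ^ r * Y ^ b := by nlinarith
    nlinarith
  refine ⟨hR1, hJ1, p1 l, ?_, ?_, ?_⟩
  · refine le_trans ?_ (Nz.alz_ge hJR)
    have h1 : 0 < ((Rz : ℝ) + 1) * (m + 1) := by positivity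
    have h2 : 1 / 2 * (1 / (((Rz : ℝ) + 1) * (m + 1))) ^ (3 * n0) =
        Real.exp (-(Real.log 2 + 3 * n0 * (Real.log ((Rz : ℝ) + 1) + Real.log ((m : ℝ) + 1)))) := by
      rw [neg_add, Real.exp_add, Real.exp_neg, Real.exp_log (by norm_num), ← Real.log_mul (by positivity) (by positivity)]
      congr 1
      · norm_num
      · rw [one_div, inv_pow, Real.exp_neg]
        congr 1
        have h3 : 3 * (n0 : ℝ) * Real.log (((Rz : ℝ) + 1) * (m + 1)) = ((3 * n0 : ℕ) : ℝ) * Real.log (((Rz : ℝ) + 1) * (m + 1)) := by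
          push_cast
          ring
        rw [h3, Real.exp_nat_mul, Real.exp_log h1]
    rw [h2, Real.exp_le_exp, neg_le_neg_iff]
    have h3 : Real.log 2 ≤ 1 := by
      have := Real.log_two_lt_d9
      linarith
    have h4 : 3 * (n0 : ℝ) * (Real.log ((Rz : ℝ) + 1) + Real.log ((m : ℝ) + 1)) ≤ 3 * Y ^ a * Y ^ (r + b + 2) :=
      mul_le_mul (by linarith) (by linarith) (by positivity) (by positivity)
    have h5 : Y ^ (a + b + r + 6) ≤ Y ^ l := Y_mono hY hl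
    have h6 : Y ^ (a + b + r + 6) = Y ^ a * Y ^ (r + b + 2) * (Y * Y * (Y * Y)) := by ring
    have h7 : 16 ≤ Y * Y * (Y * Y) := by
      have : 4 ≤ Y * Y := by nlinarith
      nlinarith
    have h8 : 1 ≤ Y ^ a * Y ^ (r + b + 2) := by
      have h9 := p1 a
      have h10 := p1 (r + b + 2)
      nlinarith
    nlinarith
  · have h1 : (J : ℝ) ≤ Real.exp (Y ^ r) := hJR'.trans hR
    exact h1.trans (Real.exp_le_exp.2 (Y_mono hY (by omega)))
  · have h1 : 2 * (n0 : ℝ) * (1 + Real.log J + Real.log m) ≤ 2 * Y ^ a * Y ^ (r + b + 2) :=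
      mul_le_mul (by linarith) (by linarith [p1 r]) (by positivity) (by positivity)
    have h5 : Y ^ (a + b + r + 6) ≤ Y ^ l := Y_mono hY hl
    have h6 : Y ^ (a + b + r + 6) = Y ^ a * Y ^ (r + b + 2) * (Y * Y * (Y * Y)) := by ring
    have h7 : 16 ≤ Y * Y * (Y * Y) := by
      have : 4 ≤ Y * Y := by nlinarith
      nlinarith
    have h9 := p1 a
    have h10 := p1 (r + b + 2)
    have h8 : Y ^ (r + b + 2) ≤ Y ^ a * Y ^ (r + b + 2) := by nlinarith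
    have h11 : Y ^ b + 1 ≤ Y ^ (r + b + 2) := by linarith [p1 r]
    nlinarith

end

end Pool.Agent.GMJR
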