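import Pool.Agent.GMJR.PB
import Pool.Agent.GMJR.SzY

/-!
# GMJR/NumW (helper19): THE NUMBERS OF THE RECORD LEMMA FOR AT LEAST TWO REFERENCE VERTICES (helper97's list of 18:35)

Constants: `m` (number of vertices), `C0`, `κ` (of `CLS`), `D0` (doubling).  Inputs: `Y`, `K = S.K ≤ Y`, `Kg ≤ K ^ 2`, `n ≤ Y`,
`Bd, M ≤ exp Y`, `1 / Y ≤ q, cf`, `k ≤ m` reference vertices, `w ≤ 2 ^ m` types.
**`numW`** : free parameters `al, J, Rz, n0, h3, Lam, Mc, h1, x0, B, Rr` and sizes `n' ≤ Y ^ C`, `B' ≤ exp (Y ^ C)` (`NW`).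
-/

set_option autoImplicit false

namespace Pool.Agent.GMJR

open Pool.Agent.M3.Mod (SzM)

noncomputable section

namespace NumW

variable {Y x y : ℝ} {a b : ℕ}

/-- variable exponents -/
theorem PB.pow_var (hY : 2 ≤ Y) (hx : PB Y a x) {w W : ℕ} (hw : w ≤ W) : PB Y (a * W) (x ^ w) :=
  (PB.pow hx w).mono hY (Nat.mul_le_mul_left a hw)

theorem PE.pow_var (hY : 2 ≤ Y) (hx : PE Y a x) {w W : ℕ} (hw : w ≤ W) : PE Y (W + a) (x ^ w) :=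
  (PE.pow_nat hY hx ((PB.nat hY w).mono hY hw))

/-- a power of two above an exponential number -/
theorem exists_two_pow (hY : 2 ≤ Y) (hx : PE Y a x) : ∃ h : ℕ, x ≤ 2 ^ h ∧ PB Y (a + 2) (h : ℝ) := by
  have h0 : (0 : ℝ) ≤ 2 * Y ^ a := by positivity
  refine ⟨⌈2 * Y ^ a⌉₊, ?_, ?_⟩
  · refine hx.le.trans ?_
    have h1 : Real.exp (1 / 2) ≤ 2 := by
      have h2 := Real.exp_one_lt_d9
      have h3 : Real.exp (1 / 2) ^ 2 = Real.exp 1 := by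
        rw [← Real.exp_nat_mul]; norm_num
      nlinarith [Real.exp_pos (1 / 2)]
    calc Real.exp (Y ^ a) ≤ Real.exp (⌈2 * Y ^ a⌉₊ * (1 / 2)) := by
          refine Real.exp_le_exp.2 ?_
          have := Nat.le_ceil (2 * Y ^ a)
          linarith
      _ = Real.exp (1 / 2) ^ ⌈2 * Y ^ a⌉₊ := by rw [← Real.exp_nat_mul]
      _ ≤ 2 ^ ⌈2 * Y ^ a⌉₊ := pow_le_pow_left₀ (Real.exp_pos _).le h1 _
  · have h1 : PB Y (1 + a) (2 * Y ^ a) := PB.mul hY (PB.two hY) ⟨by positivity, le_rfl⟩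
    exact (PB.ceil hY h1).mono hY (by omega)

/-- `x / ⌈Y ^ 5 x⌉ ≤ 1 / Y ^ 5` -/
theorem div_ceil (hY : 2 ≤ Y) (x : ℝ) : x / ((⌈Y ^ 5 * x⌉₊ + 1 : ℕ) : ℝ) ≤ 1 / Y ^ 5 := by
  have hY5 : (0 : ℝ) < Y ^ 5 := by positivity
  have h1 := Nat.le_ceil (Y ^ 5 * x)
  rw [div_le_div_iff₀ (by positivity) hY5]
  push_cast
  linarith

/-- small numbers against `cf` -/
theorem small_cf (hY : 2 ≤ Y) {cf : ℝ} (hcf : 1 / Y ≤ cf) (hx : x ≤ 1 / Y ^ 5) : x ≤ cf / 10 := by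
  have hY0 : 0 < Y := by linarith
  have h1 : (10 : ℝ) ≤ Y ^ 4 := by
    have : (2 : ℝ) ^ 4 ≤ Y ^ 4 := pow_le_pow_left₀ (by norm_num) hY 4
    norm_num at this
    linarith
  have h2 : 1 / Y ^ 5 ≤ 1 / Y / 10 := by
    rw [div_div]
    refine one_div_le_one_div_of_le (by positivity) ?_
    have : Y ^ 5 = Y * Y ^ 4 := by ring
    rw [this]
    exact mul_le_mul_of_nonneg_left h1 hY0.le
  have h3 : 1 / Y / 10 ≤ cf / 10 := div_le_div_of_nonneg_right hcf (by norm_num)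
  linarith


/-- the sizes of the scripts (helper58's `szM_Y`) -/
def SzH : Prop := ∀ (Y : ℝ) (a b r l : ℕ) (Rz J n0 mm : ℕ), 2 ≤ Y → 1 ≤ J → 2 * J ≤ Rz + 1 → (Rz : ℝ) ≤ Real.exp (Y ^ r) →
  1 ≤ mm → (mm : ℝ) ≤ Real.exp (Y ^ b) → (n0 : ℝ) ≤ Y ^ a → a + b + r + 6 ≤ l → SzM Rz J n0 mm (Y ^ l)

/-- **THE NUMBERS** -/
structure NW (m C0 cc C k w : ℕ) (κ D0 Y K Kg q cf : ℝ) (n Bd M : ℕ) where
  al : ℝ
  Lam : ℝ
  Mc : ℝ
  x0 : ℝ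
  B : ℝ
  Rr : ℝ
  J : ℕ
  Rz : ℕ
  n0 : ℕ
  h1 : ℕ
  h3 : ℕ
  n' : ℕ
  B' : ℕ
  al0 : 0 < al
  al1 : al ≤ 1
  J1 : 1 ≤ J
  n01 : 1 ≤ n0
  h11 : 1 ≤ h1
  x00 : 0 < x0
  x01 : x0 ≤ 1
  B0 : 0 < B
  R1 : 1 ≤ Rr
  /-- sizes of the scripts, labels `Ph n1 M1` with `n1 = ⌊Kg n⌋₊`, `M1 = ⌊Kg Bd⌋₊` -/
  sz : SzM Rz J n0 ((⌊Kg * Bd⌋₊ + 1) ^ ⌊Kg * n⌋₊) Lam
  E1 : (J : ℝ) / (Rz + 1) ≤ (1 / 2) ^ h3
  E2 : k * ((J : ℝ) / (Rz + 1)) ≤ 1 / 2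
  cls : (2 * Lam) ^ C0 ≤ Mc
  /-- the sum of all bad events, in the form of `rec_of_JW` and `ClsO.jwd` -/
  sum : ∀ q0 kap Ent N aw nl : ℝ,
    q0 ≤ cc * ((1 + 3 * Kg * n / al) / J + (1 + 3 * Kg * n) / n0 + Lam ^ C0 * Mc ^ (-κ) + K * Bd / 2 ^ h3) →
    0 ≤ kap → kap ≤ cc * Mc ^ C0 → 0 ≤ Ent → Ent ≤ cc * Mc ^ C0 → 0 ≤ N → N ≤ cc * Mc ^ C0 → 0 ≤ aw → aw ≤ cc * al →
    0 ≤ nl → nl ≤ n0 * (⌊Kg * n⌋₊ : ℝ) →
    2 * D0 * (Kg ^ 2 * (kap * (2 / x0) ^ w)) * (B + 1) ^ w * 8 ^ w / Rr + (M : ℝ) ^ m * ((1 + D0) * (Kg ^ 2 * aw)) +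
      (q0 + w * (2 * Ent / (h1 * Real.log 2) + 4 * Kg * ((h1 + h3 : ℕ) : ℝ) * x0 * N +
        8 * Kg * Kg ^ 2 * ((h1 + h3 : ℕ) : ℝ) * (((h1 + h3 : ℕ) : ℝ) + 1) ^ 2 * (nl * N) / B)) ≤ cf
  hn : k * (K * (Rr * (B + 1)) ^ w) / q ≤ n'
  hB : k * (K ^ 2 * Bd) / q ≤ B'
  nY : (n' : ℝ) ≤ Y ^ C
  BY : (B' : ℝ) ≤ Real.exp (Y ^ C)

theorem mul5 (hY : 2 ≤ Y) (hx : PB Y a x) : PB Y (5 + a) (Y ^ 5 * x) :=
  PB.mul hY ⟨by positivity, le_rfl⟩ hx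

theorem mul5E (hY : 2 ≤ Y) (hx : PE Y a x) : PE Y (5 + a + 1) (Y ^ 5 * x) :=
  PE.mul hY (PB.toPE ⟨by positivity, le_rfl⟩) hx

/-- `Y ^ a` as a bound -/
theorem PB.Ypow (hY : 2 ≤ Y) (a : ℕ) : PB Y a (Y ^ a) := ⟨by positivity, le_rfl⟩

/-- **THE NUMBERS EXIST** -/
theorem numW (hSz : SzH) (m C0 cc : ℕ) {κ : ℝ} (hκ : 0 < κ) {D0 : ℝ} (hD0 : 0 ≤ D0) (hD4 : D0 ≤ 4) : ∃ C : ℕ,
    ∀ (k w : ℕ) (Y K Kg q cf : ℝ) (n Bd M : ℕ), k ≤ m → w ≤ 2 ^ m → 2 ≤ Y → 1 ≤ K → K ≤ Y → 1 ≤ Kg → Kg ≤ K ^ 2 →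
      (n : ℝ) ≤ Y → (Bd : ℝ) ≤ Real.exp Y → (M : ℝ) ≤ Real.exp Y → 1 / Y ≤ q → 1 / Y ≤ cf →
      Nonempty (NW m C0 cc C k w κ D0 Y K Kg q cf n Bd M) := by
  -- the exponents
  obtain ⟨W, hW⟩ : ∃ W, W = 2 ^ m := ⟨_, rfl⟩
  obtain ⟨A1, hA1⟩ : ∃ A1, A1 = m + cc + 18 := ⟨_, rfl⟩
  obtain ⟨r, hr⟩ : ∃ r, r = 2 * cc + A1 + m + 35 := ⟨_, rfl⟩
  obtain ⟨l, hl⟩ : ∃ l, l = (cc + 14) + 8 + r + 6 := ⟨_, rfl⟩
  obtain ⟨c, hc⟩ : ∃ c, c = (l + 1) * C0 + ⌈((cc + l * C0 + 5 : ℕ) : ℝ) / κ⌉₊ := ⟨_, rfl⟩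
  obtain ⟨p, hp⟩ : ∃ p, p = cc + c * C0 := ⟨_, rfl⟩
  obtain ⟨s, hs⟩ : ∃ s, s = W + p + cc + 24 := ⟨_, rfl⟩
  obtain ⟨a8, ha8⟩ : ∃ a8, a8 = W + (4 + 2 + s + p) + 5 := ⟨_, rfl⟩
  obtain ⟨a9, ha9⟩ : ∃ a9, a9 = W + (8 + 2 + 4 + s + (s + 1) * 2 + ((cc + 17) + p)) + 5 := ⟨_, rfl⟩
  obtain ⟨a10, ha10⟩ : ∃ a10, a10 = 8 + (4 + (p + (1 + a8) * W)) + (a9 + 1) * W + 8 * W + 5 := ⟨_, rfl⟩
  obtain ⟨e1, he1⟩ : ∃ e1, e1 = m + (1 + (a10 + (a9 + 1)) * W) + 1 + 1 := ⟨_, rfl⟩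
  obtain ⟨e2, he2⟩ : ∃ e2, e2 = m + 10 := ⟨_, rfl⟩
  refine ⟨e1 + e2, ?_⟩
  intro k w Y K Kg q cf n Bd M hk hw hY hK1 hK hKg1 hKg hn hBd hM hq hcf
  rw [← hW] at hw
  have hY0 : 0 < Y := by linarith
  have hY1 : 1 ≤ Y := by linarith
  have hlog : (1 : ℝ) / 2 ≤ Real.log 2 := by
    have := Real.log_two_gt_d9
    linarith
  -- the inputs
  have pK : PB Y 1 K := ⟨by linarith, by rw [pow_one]; exact hK⟩
  have pKg : PB Y 2 Kg := ⟨by linarith, hKg.trans (pow_le_pow_left₀ (by linarith) hK 2)⟩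
  have pn : PB Y 1 (n : ℝ) := ⟨Nat.cast_nonneg n, by rw [pow_one]; exact hn⟩
  have pcc : PB Y cc (cc : ℝ) := PB.nat hY cc
  have pk : PB Y m (k : ℝ) := (PB.nat hY k).mono hY hk
  have pw : PB Y W (w : ℝ) := (PB.nat hY w).mono hY hw
  have eM : PE Y 1 (M : ℝ) := ⟨Nat.cast_nonneg M, by rw [pow_one]; exact hM⟩
  have eBd : PE Y 1 (Bd : ℝ) := ⟨Nat.cast_nonneg Bd, by rw [pow_one]; exact hBd⟩
  have pn2 : PB Y 6 (3 * Kg * n) := PB.mul hY (PB.mul hY (PB.ofNat hY 3) pKg) pn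
  -- al
  set al : ℝ := Real.exp (-Y ^ A1) with hal
  have sal : SM Y A1 al := SM.self
  have hal0 : 0 < al := Real.exp_pos _
  have hal1 : al ≤ 1 := by
    rw [hal, ← Real.exp_zero]
    refine Real.exp_le_exp.2 ?_
    have : 0 ≤ Y ^ A1 := by positivity
    linarith
  have einv : PE Y A1 (1 / al) := by
    refine ⟨by positivity, ?_⟩
    rw [hal, one_div, ← Real.exp_neg, neg_neg]
  have en2al : PE Y (A1 + 8) (1 + 3 * Kg * n / al) := by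
    have h1 : PE Y (6 + A1 + 1) (3 * Kg * n / al) := by
      have := PE.mul hY pn2.toPE einv
      rwa [mul_one_div] at this
    exact (PE.add hY PE.one h1).mono hY (by omega)
  -- J
  set J : ℕ := ⌈Y ^ 5 * (cc * (1 + 3 * Kg * n / al))⌉₊ + 1 with hJ
  have eJ : PE Y (cc + A1 + 17) (J : ℝ) := by
    have h1 := PE.ceil hY (mul5E hY (PE.mul hY pcc.toPE en2al))
    have h2 := PE.succ hY h1
    rw [hJ]
    push_cast
    exact h2.mono hY (by omega)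
  have hJ1 : 1 ≤ J := by rw [hJ]; omega
  have T3 : cc * ((1 + 3 * Kg * n / al) / J) ≤ cf / 10 := by
    refine small_cf hY hcf ?_
    rw [← mul_div_assoc]
    exact div_ceil hY _
  -- n0
  have p1n2 : PB Y 7 (1 + 3 * Kg * n) := (PB.add hY PB.one pn2).mono hY (by omega)
  set n0 : ℕ := ⌈Y ^ 5 * (cc * (1 + 3 * Kg * n))⌉₊ + 1 with hn0
  have pn0 : PB Y (cc + 14) (n0 : ℝ) := by
    have h1 := PB.succ hY (PB.ceil hY (mul5 hY (PB.mul hY pcc p1n2)))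
    rw [hn0]
    push_cast
    exact h1.mono hY (by omega)
  have hn01 : 1 ≤ n0 := by rw [hn0]; omega
  have T4 : cc * ((1 + 3 * Kg * n) / n0) ≤ cf / 10 := by
    refine small_cf hY hcf ?_
    rw [← mul_div_assoc]
    exact div_ceil hY _
  -- h3
  have eM2 : PE Y 3 (K * Bd) := PE.mul hY pK.toPE eBd
  obtain ⟨h3, hh3, ph3⟩ := exists_two_pow hY (mul5E hY (PE.mul hY pcc.toPE eM2))
  have ph3' : PB Y (cc + 12) (h3 : ℝ) := ph3.mono hY (by omega)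
  have T6 : cc * (K * Bd / 2 ^ h3) ≤ cf / 10 := by
    refine small_cf hY hcf ?_
    rw [← mul_div_assoc, div_le_div_iff₀ (by positivity) (by positivity)]
    linarith
  -- Rz
  set Rz : ℕ := J * 2 ^ h3 * (2 * k + 2) with hRz
  have hRzc : (Rz : ℝ) = J * 2 ^ h3 * (2 * k + 2) := by rw [hRz]; push_cast; ring
  have h2k : PB Y (m + 3) (2 * (k : ℝ) + 2) :=
    (PB.add hY (PB.mul hY (PB.two hY) pk) (PB.two hY)).mono hY (by omega)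
  have eRz : PE Y r (Rz : ℝ) := by
    rw [hRzc]
    exact (PE.mul hY (PE.mul hY eJ (PE.two_pow hY ph3')) h2k.toPE).mono hY (by omega)
  have hpow3 : (1 : ℝ) ≤ 2 ^ h3 := one_le_pow₀ (by norm_num)
  have hJr : (1 : ℝ) ≤ J := by exact_mod_cast hJ1
  have hk0 : (0 : ℝ) ≤ k := Nat.cast_nonneg k
  have hJRz : (J : ℝ) / (Rz + 1) ≤ 1 / (2 ^ h3 * (2 * k + 2)) := by
    rw [div_le_div_iff₀ (by positivity) (by positivity), hRzc]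
    nlinarith
  have hE1 : (J : ℝ) / (Rz + 1) ≤ (1 / 2) ^ h3 := by
    refine hJRz.trans ?_
    rw [one_div_pow]
    refine one_div_le_one_div_of_le (by positivity) ?_
    nlinarith
  have hE2 : k * ((J : ℝ) / (Rz + 1)) ≤ 1 / 2 := by
    refine (mul_le_mul_of_nonneg_left hJRz hk0).trans ?_
    rw [mul_one_div, div_le_div_iff₀ (by positivity) (by norm_num)]
    nlinarith
  have hRz2 : 2 * J ≤ Rz + 1 := by
    have h1 : J * 1 * 2 ≤ J * 2 ^ h3 * (2 * k + 2) :=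
      Nat.mul_le_mul (Nat.mul_le_mul_left J Nat.one_le_two_pow) (by omega)
    rw [hRz]
    omega
  -- sizes of the scripts
  have eM1 : PE Y 5 ((⌊Kg * Bd⌋₊ : ℝ) + 1) := by
    have h1 : PE Y 4 (⌊Kg * Bd⌋₊ : ℝ) := (PE.mul hY pKg.toPE eBd).of_le (Nat.cast_nonneg _)
      (Nat.floor_le (mul_nonneg pKg.nn eBd.nn))
    exact PE.succ hY h1
  have pn1 : PB Y 3 (⌊Kg * n⌋₊ : ℝ) := PB.floor (PB.mul hY pKg pn)
  have ephi : ((((⌊Kg * Bd⌋₊ + 1) ^ ⌊Kg * n⌋₊ : ℕ)) : ℝ) ≤ Real.exp (Y ^ 8) := by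
    have h1 := PE.pow_nat hY eM1 pn1
    push_cast
    exact h1.le
  have hsz := hSz Y (cc + 14) 8 r l Rz J n0 ((⌊Kg * Bd⌋₊ + 1) ^ ⌊Kg * n⌋₊) hY hJ1 hRz2 eRz.le
    (Nat.one_le_pow _ _ (Nat.succ_pos _)) ephi pn0.le (by omega)
  -- Mc
  have hcl : (l + 1) * C0 ≤ c := by rw [hc]; exact Nat.le_add_right _ _
  have hcls : (2 * Y ^ l) ^ C0 ≤ Y ^ c := by
    have h1 : 2 * Y ^ l ≤ Y ^ (l + 1) := by
      rw [pow_succ, mul_comm]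
      exact mul_le_mul_of_nonneg_left hY (by positivity)
    calc (2 * Y ^ l) ^ C0 ≤ (Y ^ (l + 1)) ^ C0 := pow_le_pow_left₀ (by positivity) h1 _
      _ = Y ^ ((l + 1) * C0) := by rw [← pow_mul]
      _ ≤ Y ^ c := Y_mono hY hcl
  have T5 : cc * ((Y ^ l) ^ C0 * (Y ^ c) ^ (-κ)) ≤ cf / 10 := by
    refine small_cf hY hcf ?_
    have h1 : ((cc + l * C0 + 5 : ℕ) : ℝ) ≤ κ * c := by
      have h2 := Nat.le_ceil (((cc + l * C0 + 5 : ℕ) : ℝ) / κ)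
      have h3 : (⌈((cc + l * C0 + 5 : ℕ) : ℝ) / κ⌉₊ : ℝ) ≤ c := by
        rw [hc]
        push_cast
        have : (0 : ℝ) ≤ (l + 1) * C0 := by positivity
        linarith
      have h4 := h2.trans h3
      rw [div_le_iff₀ hκ] at h4
      linarith
    have h2 : (Y ^ c) ^ (-κ) ≤ 1 / Y ^ (cc + l * C0 + 5) := by
      rw [← Real.rpow_natCast Y c, ← Real.rpow_mul hY0.le, one_div, ← Real.rpow_natCast Y (cc + l * C0 + 5),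
        ← Real.rpow_neg hY0.le]
      refine Real.rpow_le_rpow_of_exponent_le hY1 ?_
      linarith
    have h3 : (cc : ℝ) * (Y ^ l) ^ C0 ≤ Y ^ (cc + l * C0) := by
      rw [← pow_mul, pow_add]
      exact mul_le_mul_of_nonneg_right pcc.le (by positivity)
    have h0 : 0 ≤ (Y ^ c) ^ (-κ) := Real.rpow_nonneg (by positivity) _
    calc cc * ((Y ^ l) ^ C0 * (Y ^ c) ^ (-κ)) = cc * (Y ^ l) ^ C0 * (Y ^ c) ^ (-κ) := by ring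
      _ ≤ Y ^ (cc + l * C0) * (1 / Y ^ (cc + l * C0 + 5)) := mul_le_mul h3 h2 h0 (by positivity)
      _ = 1 / Y ^ 5 := by
        rw [pow_add Y (cc + l * C0) 5]
        field_simp
  -- P
  set P : ℝ := cc * (Y ^ c) ^ C0 with hP
  have pP : PB Y p P := by
    rw [hP, hp]
    exact PB.mul hY pcc (PB.pow (PB.Ypow hY c) C0)
  -- h1
  set h1 : ℕ := ⌈Y ^ 5 * (w * (4 * P))⌉₊ + 1 with hh1
  have ph1 : PB Y (W + p + 11) (h1 : ℝ) := by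
    have e1 := PB.succ hY (PB.ceil hY (mul5 hY (PB.mul hY pw (PB.mul hY (PB.ofNat hY 4) pP))))
    rw [hh1]
    push_cast
    exact e1.mono hY (by omega)
  have hh11 : 1 ≤ h1 := by rw [hh1]; omega
  have hh1r : (1 : ℝ) ≤ h1 := by exact_mod_cast hh11
  have phh : PB Y s (((h1 + h3 : ℕ)) : ℝ) := by
    push_cast
    exact (PB.add hY ph1 ph3').mono hY (by omega)
  -- x0, B, Rr
  have hYa8 : (0 : ℝ) < Y ^ a8 := by positivity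
  have pw0 : (0 : ℝ) ≤ w := Nat.cast_nonneg w
  refine ⟨⟨al, Y ^ l, Y ^ c, 1 / Y ^ a8, Y ^ a9, Y ^ a10, J, Rz, n0, h1, h3,
    ⌈k * (K * (Y ^ a10 * (Y ^ a9 + 1)) ^ w) / q⌉₊, ⌈k * (K ^ 2 * Bd) / q⌉₊, hal0, hal1, hJ1, hn01, hh11, by positivity,
    (div_le_one hYa8).2 (one_le_Y hY _), by positivity, one_le_Y hY _, hsz, hE1, hE2, hcls, ?_, Nat.le_ceil _,
    Nat.le_ceil _, ?_, ?_⟩⟩
  · intro q0 kap Ent N aw nl hq0 hkap0 hkap hEnt0 hEnt hN0 hN haw0 haw hnl0 hnl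
    have pkap : PB Y p kap := pP.of_le hkap0 hkap
    have pEnt : PB Y p Ent := pP.of_le hEnt0 hEnt
    have pN : PB Y p N := pP.of_le hN0 hN
    have pnl : PB Y (cc + 17) nl := ((PB.mul hY pn0 pn1).mono hY (by omega)).of_le hnl0 hnl
    -- T1
    have T1 : 2 * D0 * (Kg ^ 2 * (kap * (2 / (1 / Y ^ a8)) ^ w)) * (Y ^ a9 + 1) ^ w * 8 ^ w / Y ^ a10 ≤ cf / 10 := by
      have e0 : 2 / (1 / Y ^ a8) = 2 * Y ^ a8 := by
        field_simp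
      have e1 : PB Y 8 (2 * D0) := (PB.ofNat hY 8).of_le (by positivity) (by linarith)
      have e2 : PB Y ((1 + a8) * W) ((2 / (1 / Y ^ a8)) ^ w) := by
        rw [e0]
        exact PB.pow_var hY (PB.mul hY (PB.two hY) (PB.Ypow hY a8)) hw
      have e3 : PB Y ((a9 + 1) * W) ((Y ^ a9 + 1) ^ w) := PB.pow_var hY (PB.succ hY (PB.Ypow hY a9)) hw
      have e4 : PB Y (8 * W) ((8 : ℝ) ^ w) := PB.pow_var hY (PB.ofNat hY 8) hw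
      have e5 := PB.mul hY (PB.mul hY (PB.mul hY e1 (PB.mul hY (PB.pow pKg 2) (PB.mul hY pkap e2))) e3) e4
      refine small_cf hY hcf ?_
      exact (PS.div hY (c := 5) e5 (Y_mono hY (by omega))).le
    -- T2
    have T2 : (M : ℝ) ^ m * ((1 + D0) * (Kg ^ 2 * aw)) ≤ cf / 10 := by
      have e1 : PB Y 5 (1 + D0) := (PB.ofNat hY 5).of_le (by positivity) (by linarith)
      have e2 : PE Y (m + cc + 11) ((M : ℝ) ^ m * ((1 + D0) * (Kg ^ 2 * cc))) :=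
        (PE.mul hY (PE.pow hY eM m) (PB.mul hY e1 (PB.mul hY (PB.pow pKg 2) pcc)).toPE).mono hY (by omega)
      have e3 := SM.PE_mul hY (c := 6) e2 sal (by omega)
      have e4 := SM.inv_pow hY (b := 5) e3
      refine small_cf hY hcf (le_trans ?_ e4)
      calc (M : ℝ) ^ m * ((1 + D0) * (Kg ^ 2 * aw)) ≤ (M : ℝ) ^ m * ((1 + D0) * (Kg ^ 2 * (cc * al))) := by
            refine mul_le_mul_of_nonneg_left (mul_le_mul_of_nonneg_left (mul_le_mul_of_nonneg_left haw (by positivity))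
              e1.nn) (by positivity)
        _ = (M : ℝ) ^ m * ((1 + D0) * (Kg ^ 2 * cc)) * al := by ring
    -- T7
    have T7 : w * (2 * Ent / (h1 * Real.log 2)) ≤ cf / 10 := by
      refine small_cf hY hcf (le_trans ?_ (div_ceil hY (w * (4 * P))))
      have e0 : (w : ℝ) * (4 * P) / (h1 : ℝ) = w * (4 * P / h1) := mul_div_assoc _ _ _
      rw [← hh1, e0]
      refine mul_le_mul_of_nonneg_left ?_ pw0
      rw [div_le_div_iff₀ (by positivity) (by positivity)]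
      have e1 : 2 * Ent * (h1 : ℝ) ≤ 2 * P * h1 := by nlinarith
      have e2 : 4 * P * (h1 * (1 / 2)) ≤ 4 * P * (h1 * Real.log 2) := by
        refine mul_le_mul_of_nonneg_left (mul_le_mul_of_nonneg_left hlog (by positivity)) ?_
        have := pP.nn
        positivity
      linarith
    -- T8
    have T8 : w * (4 * Kg * ((h1 + h3 : ℕ) : ℝ) * (1 / Y ^ a8) * N) ≤ cf / 10 := by
      have e1 := PB.mul hY pw (PB.mul hY (PB.mul hY (PB.mul hY (PB.ofNat hY 4) pKg) phh) pN)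
      refine small_cf hY hcf ?_
      have e2 := (PS.div hY (c := 5) (B := Y ^ a8) e1 (Y_mono hY (by omega))).le
      refine le_trans (le_of_eq ?_) e2
      field_simp
    -- T9
    have T9 : w * (8 * Kg * Kg ^ 2 * ((h1 + h3 : ℕ) : ℝ) * (((h1 + h3 : ℕ) : ℝ) + 1) ^ 2 * (nl * N) / Y ^ a9) ≤
        cf / 10 := by
      have e1 := PB.mul hY pw (PB.mul hY (PB.mul hY (PB.mul hY (PB.mul hY (PB.mul hY (PB.ofNat hY 8) pKg)
        (PB.pow pKg 2)) phh) (PB.pow (PB.succ hY phh) 2)) (PB.mul hY pnl pN))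
      refine small_cf hY hcf ?_
      have e2 := (PS.div hY (c := 5) (B := Y ^ a9) e1 (Y_mono hY (by omega))).le
      rwa [mul_div_assoc] at e2
    have hq0' : q0 ≤ 4 * (cf / 10) := by
      refine hq0.trans ?_
      have e1 : (cc : ℝ) * ((1 + 3 * Kg * n / al) / J + (1 + 3 * Kg * n) / n0 + (Y ^ l) ^ C0 * (Y ^ c) ^ (-κ) +
          K * Bd / 2 ^ h3) = cc * ((1 + 3 * Kg * n / al) / J) + cc * ((1 + 3 * Kg * n) / n0) +
          cc * ((Y ^ l) ^ C0 * (Y ^ c) ^ (-κ)) + cc * (K * Bd / 2 ^ h3) := by ring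
      rw [e1]
      linarith
    have hcf0 : 0 ≤ cf := le_trans (by positivity) hcf
    have e2 : (w : ℝ) * (2 * Ent / (h1 * Real.log 2) + 4 * Kg * ((h1 + h3 : ℕ) : ℝ) * (1 / Y ^ a8) * N +
        8 * Kg * Kg ^ 2 * ((h1 + h3 : ℕ) : ℝ) * (((h1 + h3 : ℕ) : ℝ) + 1) ^ 2 * (nl * N) / Y ^ a9) =
        w * (2 * Ent / (h1 * Real.log 2)) + w * (4 * Kg * ((h1 + h3 : ℕ) : ℝ) * (1 / Y ^ a8) * N) +
        w * (8 * Kg * Kg ^ 2 * ((h1 + h3 : ℕ) : ℝ) * (((h1 + h3 : ℕ) : ℝ) + 1) ^ 2 * (nl * N) / Y ^ a9) := by ring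
    rw [e2]
    linarith
  · have e1 : PB Y ((a10 + (a9 + 1)) * W) ((Y ^ a10 * (Y ^ a9 + 1)) ^ w) :=
      PB.pow_var hY (PB.mul hY (PB.Ypow hY a10) (PB.succ hY (PB.Ypow hY a9))) hw
    exact ((PB.ceil hY (PB.div hY (PB.mul hY pk (PB.mul hY pK e1)) hq)).mono hY (by omega)).le
  · have e1 : PE Y (m + 8) (k * (K ^ 2 * Bd) / q) := by
      have e2 := PE.mul hY (PE.mul hY pk.toPE (PE.mul hY (PB.pow pK 2).toPE eBd)) (PE.inv hY hq)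
      rw [mul_one_div] at e2
      exact e2.mono hY (by omega)
    exact ((PE.ceil hY e1).mono hY (by omega)).le

/-- helper58's `szM_Y` -/
theorem szH : SzH := fun _ _ _ _ _ _ _ _ _ hY hJ hRz h1 hm h2 h3 h4 => szM_Y hY hJ hRz h1 hm h2 h3 h4

/-- **THE NUMBERS EXIST**, unconditional -/
theorem numWU (m C0 cc : ℕ) {κ : ℝ} (hκ : 0 < κ) {D0 : ℝ} (hD0 : 0 ≤ D0) (hD4 : D0 ≤ 4) : ∃ C : ℕ,
    ∀ (k w : ℕ) (Y K Kg q cf : ℝ) (n Bd M : ℕ), k ≤ m → w ≤ 2 ^ m → 2 ≤ Y → 1 ≤ K → K ≤ Y → 1 ≤ Kg → Kg ≤ K ^ 2 →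
      (n : ℝ) ≤ Y → (Bd : ℝ) ≤ Real.exp Y → (M : ℝ) ≤ Real.exp Y → 1 / Y ≤ q → 1 / Y ≤ cf →
      Nonempty (NW m C0 cc C k w κ D0 Y K Kg q cf n Bd M) :=
  numW szH m C0 cc hκ hD0 hD4

end NumW

end

end Pool.Agent.GMJR
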