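import Pool.Agent.GMJR.WDS0
import Pool.Agent.GMJR.RawL
import Pool.Agent.GMN.Enum

/-!
# GMJR/WLS (helper96): THE LABELS of the world of a step

`RS_eq` : the raw label of `WDS0` is the raw label of `RawL`, `BXS_eq` : the same for the box sets; `wlS` : the labels `WL` of
every world `W` whose fields are the ones of the step (`WOf D G W`), from the bounds `D.Bd n B`:
`n1 = ⌊Kg n⌋`, `n2 = 3 Kg n`, `M1 = ⌊Kg B⌋`, `M2 = K B`.
-/

set_option autoImplicit false
set_option linter.unusedSectionVars false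

namespace Pool.Agent.GMJR

open Finset Pool.Agent.PWZ Pool.Agent.M3 Pool.Agent.M3.TS Pool.Agent.GM Pool.Agent.GMN

noncomputable section

variable {ι Om Ξ Pt V Γ κ : Type} [Fintype ι] [DecidableEq ι] [Fintype Om] [Fintype Ξ] [Fintype Pt]
  [Fintype V] {S : Sys ι Om Ξ Pt V Γ κ} {β : Type} (D : StepIn S β) (G : HG S D.v)

variable {D G}

theorem ne_v (u : KS D) : u.1 ≠ D.v := fun h => D.vR (h ▸ u.2)

/-- the same top -/
theorem topS_eq {w w' : Om} : topS D G w = topS D G w' ↔ G.th w = G.th w' ∧ D.pz (S.xi w) = D.pz (S.xi w') ∧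
    ∀ j, j ∉ D.Rf → j ≠ D.v → S.x w j = S.x w' j := by
  unfold topS
  rw [Prod.ext_iff, Prod.ext_iff]
  refine and_congr Iff.rfl (and_congr Iff.rfl ?_)
  constructor
  · intro h j h1 h2
    exact congrFun h ⟨j, h1, h2⟩
  · intro h
    funext j
    exact h j.1 j.2.1 j.2.2

theorem hxS_eq {w w' : Om} : hxS D G w = hxS D G w' ↔ G.hx w = G.hx w' ∧ aS D (S.xi w) = aS D (S.xi w') := by
  unfold hxS
  rw [Prod.ext_iff]

/-- the lists of the owners only see the coins of the top and of the hidden point -/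
theorem tr_coin (u : KS D) {ξ ξ' : Ξ} (h1 : D.pz ξ = D.pz ξ') (h2 : aS D ξ = aS D ξ') (t : ℕ) (g : Γ) (x : ι → Pt) :
    (D.Lr u.1).L t g ξ x = (D.Lr u.1).L t g ξ' x := by
  classical
  by_cases h : ∀ u ∈ D.Rf, (D.Lr u).Free D.pz
  · exact h u.1 u.2 t g ξ ξ' x h1
  · unfold aS at h2
    rw [if_neg h, if_neg h] at h2
    rw [Option.some.inj h2]

/-- all vertices but `u` -/
theorem x_of {u : KS D} {w w' : Om} (h1 : topS D G w' = topS D G w) (h2 : ∀ j, j ≠ u → yS D w' j = yS D w j)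
    (h3 : S.x w' D.v = S.x w D.v) : S.x w' = Function.update (S.x w) u.1 (S.x w' u.1) := by
  funext i
  by_cases hi : i = u.1
  · subst hi
    rw [Function.update_self]
  · rw [Function.update_of_ne hi]
    by_cases hv : i = D.v
    · rw [hv]
      exact h3
    · by_cases hR : i ∈ D.Rf
      · exact h2 ⟨i, hR⟩ fun h => hi (congrArg Subtype.val h)
      · exact (topS_eq.1 h1).2.2 i hR hv

theorem pt_upd' (u : KS D) (w : Om) (b' : Pt) :
    RawL.pt G w (Function.update (RawL.yw (S := S) D.Rf w) u b') (G.hx w) = Function.update (S.x w) u.1 b' := by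
  rw [RawL.pt_upd (ne_v u), RawL.pt_self]

variable (D G) in
/-- **the raw label is the one of `RawL`** -/
theorem RS_eq (u : KS D) (t : ℕ) (w : Om) : RS D G u t w = RawL.rw' G u (D.Lr u.1) t w := by
  classical
  ext k
  unfold RS RawL.rw'
  rw [mem_biUnion, RawL.mem_raw]
  constructor
  · rintro ⟨w', h1, h2⟩
    obtain ⟨h3, h4, h5, h6⟩ := (mem_filter.1 h1).2
    obtain ⟨h7, h8⟩ := hxS_eq.1 h6
    obtain ⟨g1, g2, g3⟩ := topS_eq.1 h3
    have hx : S.x w' = Function.update (S.x w) u.1 (S.x w' u.1) := x_of h3 h4 (by rw [← G.hv_eq, ← G.hv_eq, h7])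
    refine ⟨S.x w' u.1, h5, ?_⟩
    rw [RawL.nd_real (H := G) t (w := w') g1 (by rw [pt_upd']; exact hx) h7, pt_upd', ← hx,
      tr_coin u g2.symm h8.symm]
    exact h2
  · rintro ⟨b', h1, h2⟩
    obtain ⟨w', g1, g2, g3, g4⟩ := RawL.real (H := G) w (S.xi w) (Function.update (RawL.yw (S := S) D.Rf w) u b') (G.hx w)
    have hx := g3
    rw [pt_upd'] at hx
    refine ⟨w', mem_filter.2 ⟨mem_univ _, topS_eq.2 ⟨g1, by rw [g2], fun j h3 h4 => ?_⟩, fun j h3 => ?_, ?_,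
      hxS_eq.2 ⟨g4, by rw [g2]⟩⟩, ?_⟩
    · rw [hx, Function.update_of_ne fun h => h3 (by rw [h]; exact u.2)]
    · show S.x w' j.1 = S.x w j.1
      rw [hx, Function.update_of_ne fun h => h3 (Subtype.ext h)]
    · show S.cl t (S.x w' u.1) = S.cl t (S.x w u.1)
      rw [hx, Function.update_self]
      exact h1
    · show k ∈ (D.Lr u.1).L t (S.gm t w') (S.xi w') (S.x w')
      rw [← RawL.nd_real (H := G) t g1 g3 g4, g2, g3]
      exact h2

variable (D G) in
/-- **the box set is the one of `RawL`** -/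
theorem BXS_eq (u : KS D) (t : ℕ) (w : Om) :
    BXS D G u t w = RawL.BX G u (D.Br u.1) t w (RawL.yw (S := S) D.Rf w) (G.hx w) := by
  classical
  ext k
  unfold BXS
  rw [mem_biUnion, RawL.mem_BX]
  have hy : ∀ (w' : Om) (b' : Pt), (topS D G w' = topS D G w) → (∀ j, j ≠ u → yS D w' j = yS D w j) → S.x w' u.1 = b' →
      S.x w' = RawL.pt G w (Function.update (RawL.yw (S := S) D.Rf w) u b') (G.hx w') := by
    intro w' b' h1 h2 h3
    funext i
    by_cases hv : i = D.v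
    · rw [hv, RawL.pt_v, G.hv_eq]
    · by_cases hR : i ∈ D.Rf
      · rw [RawL.pt_of (u := ⟨i, hR⟩) _ _ _ hv]
        by_cases hi : (⟨i, hR⟩ : KS D) = u
        · have h4 : u.1 = i := congrArg Subtype.val hi.symm
          rw [hi, Function.update_self, ← h4]
          exact h3
        · rw [Function.update_of_ne hi]
          exact h2 ⟨i, hR⟩ hi
      · rw [RawL.pt_out _ _ _ hv hR]
        exact (topS_eq.1 h1).2.2 i hR hv
  constructor
  · rintro ⟨w', h1, h2⟩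
    obtain ⟨h3, h4, h5, h6⟩ := (mem_filter.1 h1).2
    refine ⟨G.hx w', S.x w' u.1, h6, h5, ?_⟩
    have h7 := hy w' _ h3 h4 rfl
    rw [RawL.nd_real (H := G) t (w := w') (topS_eq.1 h3).1 h7 rfl, ← h7]
    exact h2
  · rintro ⟨x', b', h1, h2, h3⟩
    obtain ⟨w', g1, g2, g3, g4⟩ := RawL.real (H := G) w (S.xi w) (Function.update (RawL.yw (S := S) D.Rf w) u b') x'
    refine ⟨w', mem_filter.2 ⟨mem_univ _, topS_eq.2 ⟨g1, by rw [g2], fun j h4 h5 => ?_⟩, fun j h4 => ?_, ?_, ?_⟩, ?_⟩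
    · rw [g3, RawL.pt_out _ _ _ h5 h4]
    · show S.x w' j.1 = S.x w j.1
      rw [g3, RawL.pt_of _ _ _ (ne_v j), Function.update_of_ne h4]
      rfl
    · show S.cl t (S.x w' u.1) = S.cl t (S.x w u.1)
      rw [g3, RawL.pt_of _ _ _ (ne_v u), Function.update_self]
      exact h2
    · rw [g4]
      exact h1
    · show k ∈ (D.Br u.1).L t (S.gm t w') (S.x w')
      rw [← RawL.nd_real (H := G) t g1 g3 g4, g3]
      exact h3

/-! ### the fields -/

variable (D) in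
theorem trS_cum (u : KS D) (t : ℕ) (w : Om) : trS D u t w ⊆ trS D u (t + 1) w := (D.Lr u.1).at_succ t w

theorem RS_dep (u : KS D) (t : ℕ) (v w : Om) (h1 : topS D G v = topS D G w)
    (h2 : ∀ j, j ≠ u → yS D v j = yS D w j) (h3 : S.cl t (yS D v u) = S.cl t (yS D w u))
    (h4 : hxS D G v = hxS D G w) : RS D G u t v = RS D G u t w := by
  classical
  have e : ∀ w', (topS D G w' = topS D G v ∧ (∀ j, j ≠ u → yS D w' j = yS D v j) ∧
      S.cl t (yS D w' u) = S.cl t (yS D v u) ∧ hxS D G w' = hxS D G v) ↔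
      (topS D G w' = topS D G w ∧ (∀ j, j ≠ u → yS D w' j = yS D w j) ∧
      S.cl t (yS D w' u) = S.cl t (yS D w u) ∧ hxS D G w' = hxS D G w) := by
    intro w'
    rw [h1, h3, h4]
    refine and_congr Iff.rfl (and_congr ?_ Iff.rfl)
    exact forall_congr' fun j => imp_congr_right fun hj => by rw [h2 j hj]
  unfold RS
  simp only [e]

theorem BXS_dep (u : KS D) (t : ℕ) (v w : Om) (h1 : topS D G v = topS D G w)
    (h2 : ∀ j, j ≠ u → yS D v j = yS D w j) (h3 : S.cl t (yS D v u) = S.cl t (yS D w u))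
    (h4 : G.qa (2 * t) (G.hx v) = G.qa (2 * t) (G.hx w)) : BXS D G u t v = BXS D G u t w := by
  classical
  have e : ∀ w', (topS D G w' = topS D G v ∧ (∀ j, j ≠ u → yS D w' j = yS D v j) ∧
      S.cl t (yS D w' u) = S.cl t (yS D v u) ∧ G.qa (2 * t) (G.hx w') = G.qa (2 * t) (G.hx v)) ↔
      (topS D G w' = topS D G w ∧ (∀ j, j ≠ u → yS D w' j = yS D w j) ∧
      S.cl t (yS D w' u) = S.cl t (yS D w u) ∧ G.qa (2 * t) (G.hx w') = G.qa (2 * t) (G.hx w)) := by
    intro w'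
    rw [h1, h3, h4]
    refine and_congr Iff.rfl (and_congr ?_ Iff.rfl)
    exact forall_congr' fun j => imp_congr_right fun hj => by rw [h2 j hj]
  unfold BXS
  simp only [e]

variable (D G) in
theorem trS_sub (u : KS D) (t : ℕ) (w : Om) : trS D u t w ⊆ RS D G u t w := by
  rw [RS_eq]
  exact RawL.raw_true u (D.Lr u.1) t w

variable (D G) in
/-- raw labels are in the box set of the hidden cell -/
theorem RS_sub {n B : ℕ} (hb : D.Bd n B) (u : KS D) {t : ℕ} (ht : t ≤ S.n) (w : Om) : RS D G u t w ⊆ BXS D G u t w := by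
  rw [RS_eq, BXS_eq]
  exact RawL.raw_sub_BX (fun w' => hb.sr u.1 u.2 t ht w') w (S.xi w) _ rfl

variable (D G) in
theorem RS_card {n B : ℕ} (hb : D.Bd n B) (u : KS D) {t : ℕ} (ht : t ≤ S.n) (w : Om) :
    (RS D G u t w).card ≤ ⌊G.Kg * n⌋₊ := by
  rw [RS_eq]
  exact Nat.le_floor (RawL.raw_card (ne_v u) (D.Lr u.1) ht (hb.cr u.1 u.2 t ht) w (S.xi w) _ _)

variable (D G) in
theorem BXS_card {n B : ℕ} (hb : D.Bd n B) (u : KS D) {t : ℕ} (ht : t ≤ S.n) (w : Om) :
    (BXS D G u t w).card ≤ ⌊G.Kg * B⌋₊ := by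
  rw [BXS_eq]
  exact Nat.le_floor (RawL.BX_card (ne_v u) (D.Br u.1) ht (hb.br u.1 u.2 t ht) w _ _)

variable (D G) in
/-- **mean number of changes of the raw labels** -/
theorem RS_chg {n B : ℕ} (hb : D.Bd n B) (u : KS D) :
    ∑ t ∈ range S.n, S.P.Pr (fun w => RS D G u (t + 1) w ≠ RS D G u t w) ≤ 3 * G.Kg * n := by
  have h1 := RawL.raw_moves (H := G) (ne_v u) (D.Lr u.1) (n := n) (hb.cr u.1 u.2) (T := S.n) le_rfl
    (φ := fun _ => 1) (fun _ _ _ => rfl) fun _ => zero_le_one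
  rw [S.P.E_const, mul_one] at h1
  refine le_trans (le_of_eq ?_) h1
  unfold FP.Pr
  rw [← S.P.E_sum]
  refine S.P.E_congr fun w _ => ?_
  rw [one_mul]
  refine Finset.sum_congr rfl fun t _ => ?_
  show ind (RS D G u (t + 1) w ≠ RS D G u t w) = _
  rw [RS_eq, RS_eq]

theorem vbS_dep (u : KS D) (t : ℕ) (v w : Om) (h1 : topS D G v = topS D G w)
    (h2 : ∀ j, j ≠ u → yS D v j = yS D w j) (h3 : S.cl t (yS D v u) = S.cl t (yS D w u))
    (h4 : S.gm t v = S.gm t w) : vbS D u t v = vbS D u t w := by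
  show (D.Br u.1).cmp.L t (S.gm t v) (S.x v) = (D.Br u.1).cmp.L t (S.gm t w) (S.x w)
  rw [h4]
  refine (D.Br u.1).cmp.dep t _ _ _ (fun i hi => ?_) fun i hi => ?_
  · have hiu : i ≠ u.1 := ne_of_mem_erase hi
    have hiv : i ≠ D.v := ne_of_mem_erase (mem_of_mem_erase hi)
    by_cases hR : i ∈ D.Rf
    · exact h2 ⟨i, hR⟩ fun h => hiu (congrArg Subtype.val h)
    · exact (topS_eq.1 h1).2.2 i hR hiv
  · rw [mem_singleton.1 hi]
    exact h3

variable (D) in
theorem vbS_cum (u : KS D) (t : ℕ) (w : Om) : vbS D u t w ⊆ vbS D u (t + 1) w := (D.Br u.1).cmp.at_succ t w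

variable (D) in
theorem trS_vb {n B : ℕ} (hb : D.Bd n B) (u : KS D) {t : ℕ} (ht : t ≤ S.n) (w : Om) : trS D u t w ⊆ vbS D u t w :=
  (hb.sr u.1 u.2 t ht w).trans ((D.Br u.1).sub_cmp t w)

variable (D) in
theorem vbS_mean {n B : ℕ} (hb : D.Bd n B) (u : KS D) : S.P.E (fun w => ((vbS D u S.n w).card : ℝ)) ≤ S.K * B := by
  refine ((D.Br u.1).E_cmp (ne_v u) S.n).trans (mul_le_mul_of_nonneg_left ?_ (le_trans zero_le_one S.K1))
  refine (S.P.E_mono (g := fun _ => (B : ℝ)) fun w _ => ?_).trans (le_of_eq (S.P.E_const _))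
  exact_mod_cast hb.br u.1 u.2 S.n le_rfl w

/-- a world of the step -/
structure WOf (D : StepIn S β) (G : HG S D.v)
    (W : @WD Om (TpS D G) (KS D) Pt (XS D G) G.γ κ Γ _ _ _ _ (fXS D G)) : Prop where
  P : W.P = S.P
  n : W.n = S.n
  top : W.top = topS D G
  y : W.y = yS D
  hx : W.hx = hxS D G
  gm : W.gm = S.gm
  qa : ∀ t x, W.qa t x = G.qa t x.1
  cl : W.cl = S.cl

/-- **THE LABELS OF A WORLD OF THE STEP** -/
def wlOf {W : @WD Om (TpS D G) (KS D) Pt (XS D G) G.γ κ Γ _ _ _ _ (fXS D G)} (h : WOf D G W) {n B : ℕ}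
    (hb : D.Bd n B) : @WL Om (TpS D G) (KS D) Pt (XS D G) G.γ κ Γ _ _ _ _ (fXS D G) W where
  tr := trS D
  tr_cum := trS_cum D
  R := RS D G
  Rdep u t v w h1 h2 h3 h4 := by
    rw [h.top] at h1
    rw [h.y] at h2 h3
    rw [h.cl] at h3
    rw [h.hx] at h4
    exact RS_dep u t v w h1 h2 h3 h4
  tr_sub u t _ w := trS_sub D G u t w
  n1 := ⌊G.Kg * n⌋₊
  Rcard u t ht w := RS_card D G hb u (h.n ▸ ht) w
  n2 := 3 * G.Kg * n
  Rchg u := by
    rw [h.n, h.P]
    exact RS_chg D G hb u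
  BX := BXS D G
  BXdep u t v w h1 h2 h3 h4 := by
    rw [h.top] at h1
    rw [h.y] at h2 h3
    rw [h.cl] at h3
    rw [h.hx, h.qa, h.qa] at h4
    exact BXS_dep u t v w h1 h2 h3 h4
  Rsub u t ht w := RS_sub D G hb u (h.n ▸ ht) w
  M1 := ⌊G.Kg * B⌋₊
  BXcard u t ht w := BXS_card D G hb u (h.n ▸ ht) w
  vb := vbS D
  vb_dep u t v w h1 h2 h3 h4 := by
    rw [h.top] at h1
    rw [h.y] at h2 h3
    rw [h.cl] at h3
    rw [h.gm] at h4
    exact vbS_dep u t v w h1 h2 h3 h4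
  vb_cum := vbS_cum D
  tr_vb u t ht w := trS_vb D hb u (h.n ▸ ht) w
  M2 := S.K * B
  vb_mean u := by
    rw [h.n, h.P]
    exact vbS_mean D hb u

end

end Pool.Agent.GMJR
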