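import Pool.Agent.GMJR.WDS
import Pool.Agent.GMJR.WLS

/-!
# GMJR/WLSi (helper99): the labels `wlS` of the world `wdS` of a step
-/

set_option autoImplicit false
set_option linter.unusedSectionVars false

namespace Pool.Agent.GMJR

open Finset Pool.Agent.PWZ Pool.Agent.M3 Pool.Agent.M3.TS Pool.Agent.GM Pool.Agent.GMN

noncomputable section

variable {ι Om Ξ Pt V Γ κ : Type} [Fintype ι] [DecidableEq ι] [Fintype Om] [Fintype Ξ] [Fintype Pt]
  [Fintype V] {S : Sys ι Om Ξ Pt V Γ κ} {β : Type} (D : StepIn S β) (G : HG S D.v)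

theorem wdS_of : WOf D G (wdS D G) := ⟨rfl, rfl, rfl, rfl, rfl, rfl, fun _ _ => rfl, rfl⟩

/-- the labels of the world of a step -/
def wlS {n B : ℕ} (hb : D.Bd n B) : WL (wdS D G) := wlOf (wdS_of D G) hb

end

end Pool.Agent.GMJR
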