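import Pool.Agent.GMN.NamRule
import Pool.Agent.GMJR.NumW
import Pool.Agent.GMJR.WLSi
import Pool.Agent.GMJR.CwD
import Pool.Agent.GMJR.JWS
import Pool.Agent.GMJR.JRS

/-!
# GMJR/JR2At (helper13): THE RECORD LEMMA for at least two reference vertices

* `ClsOF κ v C0 cc` : the names in every world with `v` known vertices, with the bounds of `NumW.NW.sum` (constant `cc`);
* **`jr2M_of`** : `ClsOF` for `v = 2, .., m - 2` gives `JR2M m C1` for every `C1`.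
-/

set_option autoImplicit false
set_option linter.unusedSectionVars false

namespace Pool.Agent.GMJR

open Finset Pool.Agent.PWZ Pool.Agent.M3 Pool.Agent.M3.TS Pool.Agent.GM Pool.Agent.GMN
open Pool.Agent.M3.Mod (SzM)

noncomputable section

/-- **the names in every world with `v` known vertices**, exponent `κ`, constants `C0`, `cc` -/
def ClsOF (κ : ℝ) (v C0 cc : ℕ) : Prop :=
  ∀ (Om Tp K β X γ δ Γ : Type) [Fintype Om] [Fintype K] [DecidableEq K] [Fintype β] [Fintype X] [Nonempty Om]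
    [Nonempty β] (D : WD Om Tp K β X γ δ Γ) (L : WL D) (al : ℝ) (J Rz n0 h3 : ℕ) (Lam Mc : ℝ),
    Fintype.card K = v → 0 < al → al ≤ 1 → 1 ≤ J → 1 ≤ n0 → 1 ≤ L.n1 → SzM Rz J n0 ((L.M1 + 1) ^ L.n1) Lam →
    (J : ℝ) / (Rz + 1) ≤ (1 / 2 : ℝ) ^ h3 → Fintype.card K * ((J : ℝ) / (Rz + 1)) ≤ 1 / 2 → (2 * Lam) ^ C0 ≤ Mc →
    ∃ (Q : ℕ) (Nk : Type) (_ : Fintype Nk) (_ : DecidableEq Nk) (_ : Inhabited Nk) (kap eps N Ent q0 aw nl : ℝ),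
      Nonempty (ClsO D L Q Nk h3 kap nl eps N Ent q0 aw) ∧
      q0 ≤ cc * ((1 + L.n2 / al) / J + (1 + L.n2) / n0 + Lam ^ C0 * Mc ^ (-κ) + L.M2 / 2 ^ h3) ∧
      0 ≤ kap ∧ kap ≤ cc * Mc ^ C0 ∧ 0 ≤ Ent ∧ Ent ≤ cc * Mc ^ C0 ∧ 0 ≤ N ∧ N ≤ cc * Mc ^ C0 ∧ 0 ≤ aw ∧ aw ≤ cc * al ∧
      0 ≤ nl ∧ nl ≤ n0 * (L.n1 : ℝ)

variable {ι Om Ξ Pt V Γ κ : Type} [Fintype ι] [DecidableEq ι] [Fintype Om] [Fintype Ξ] [Fintype Pt]
  [Fintype V] {S : Sys ι Om Ξ Pt V Γ κ} {β : Type}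

theorem Bd_mono {D : StepIn S β} {n n' B : ℕ} (h : n ≤ n') (hb : D.Bd n B) : D.Bd n' B :=
  ⟨fun t ht w => (hb.cv t ht w).trans h, fun u hu t ht w => (hb.cr u hu t ht w).trans h, hb.sr, hb.br⟩

theorem card_Rf (D : StepIn S β) : D.Rf.card + 2 ≤ Fintype.card ι := by
  have h1 : D.Rf ⊆ (univ.erase D.a).erase D.v := by
    intro u hu
    refine mem_erase.2 ⟨fun h => D.vR (h ▸ hu), mem_erase.2 ⟨fun h => D.aR (h ▸ hu), mem_univ u⟩⟩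
  have h2 := Finset.card_le_card h1
  have h3 : 2 ≤ Fintype.card ι := by
    have : 1 < Fintype.card ι := Fintype.one_lt_card_iff.2 ⟨D.a, D.v, D.av⟩
    omega
  rw [Finset.card_erase_of_mem (mem_erase.2 ⟨D.av.symm, mem_univ _⟩), Finset.card_erase_of_mem (mem_univ _),
    Finset.card_univ] at h2
  omega

theorem card_WTy (K : Type) [Fintype K] [DecidableEq K] : Fintype.card (WTy K) ≤ 2 ^ Fintype.card K := by
  rw [← Fintype.card_finset]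
  exact Fintype.card_subtype_le _

/-- **one step** -/
theorem recOut_of {D : StepIn S β} (G : HG S D.v) {ka : ℝ} {C0 cc C m : ℕ} {Y q cf : ℝ} {n B M : ℕ}
    (hm : Fintype.card ι = m) (hF : ClsOF ka D.Rf.card C0 cc) (hdb : S.Dbl 4) (hq : 0 < q) (hb : D.Bd n B) (hn : 1 ≤ n)
    (hM : 0 < M) (R : NumW.NW m C0 cc C D.Rf.card (Fintype.card (WTy (KS D))) ka 4 Y S.K G.Kg q cf n B M) :
    ∃ (Ξ2 : Type) (_ : Fintype Ξ2) (_ : Nonempty Ξ2), Nonempty (RecOut D M Ξ2 R.n' R.B' q cf) := by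
  classical
  have hOm : Nonempty Om := S.nonempty_Om
  obtain ⟨w00⟩ := S.nonempty_Om
  have hPt : Nonempty Pt := ⟨S.x w00 D.a⟩
  have hKc : Fintype.card (KS D) = D.Rf.card := Fintype.card_coe D.Rf
  have hn1 : 1 ≤ (wlS D G hb).n1 := by
    show 1 ≤ ⌊G.Kg * n⌋₊
    refine Nat.le_floor ?_
    have h1 : (1 : ℝ) ≤ n := by exact_mod_cast hn
    have h2 := G.Kg1
    push_cast
    nlinarith
  obtain ⟨Q, Nk, i1, i2, i3, kap, eps, N, Ent, q0, aw, nl, ⟨H⟩, h1, h2, h3, h4, h5, h6, h7, h8, h9, h10, h11⟩ :=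
    hF Om (TpS D G) (KS D) Pt (XS D G) G.γ κ Γ (wdS D G) (wlS D G hb) R.al R.J R.Rz R.n0 R.h3 R.Lam R.Mc hKc R.al0 R.al1
      R.J1 R.n01 hn1 R.sz R.E1 (by rw [hKc]; exact R.E2) R.cls
  have hs := R.sum q0 kap Ent N aw nl h1 h2 h3 h4 h5 h6 h7 h8 h9 h10 h11
  have J := jwS (M := M) hb (H.jwd R.h11 R.x00 R.x01 R.B0 le_rfl) hM
  have h12 : (1 : ℝ) ≤ R.B + 1 := by linarith [R.B0]
  obtain ⟨g0, hr⟩ := rec_of_JW (cf := cf) J h12 hdb R.R1 hb hq (by rw [hm]; exact hs) R.hn R.hB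
  exact ⟨_, _, _, hr⟩

/-- **THE RECORD LEMMA** for at least two reference vertices from the names in the worlds -/
theorem jr2M_of {m : ℕ} (hF : ∀ v, 2 ≤ v → v + 2 ≤ m → ∃ ka : ℝ, 0 < ka ∧ ∃ C0 cc : ℕ, ClsOF ka v C0 cc) (C1 : ℕ) :
    JR2M m C1 := by
  have h1 : ∀ v, ∃ ka : ℝ, ∃ C0 cc C : ℕ, 2 ≤ v → v + 2 ≤ m → ClsOF ka v C0 cc ∧
      ∀ (k w : ℕ) (Y K Kg q cf : ℝ) (n Bd M : ℕ), k ≤ m → w ≤ 2 ^ m → 2 ≤ Y → 1 ≤ K → K ≤ Y → 1 ≤ Kg → Kg ≤ K ^ 2 →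
      (n : ℝ) ≤ Y → (Bd : ℝ) ≤ Real.exp Y → (M : ℝ) ≤ Real.exp Y → 1 / Y ≤ q → 1 / Y ≤ cf →
      Nonempty (NumW.NW m C0 cc C k w ka 4 Y K Kg q cf n Bd M) := by
    intro v
    by_cases hv : 2 ≤ v ∧ v + 2 ≤ m
    · obtain ⟨ka, hka, C0, cc, h⟩ := hF v hv.1 hv.2
      obtain ⟨C, hC⟩ := NumW.numWU m C0 cc hka (by norm_num : (0 : ℝ) ≤ 4) le_rfl
      exact ⟨ka, C0, cc, C, fun _ _ => ⟨h, hC⟩⟩
    · exact ⟨0, 0, 0, 0, fun h h' => absurd ⟨h, h'⟩ hv⟩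
  choose ka C0 cc C hC using h1
  refine ⟨∑ v ∈ range (m + 1), C v + 32, by omega, ?_⟩
  intro ι _ _ hm Om Ξ Pt V Γ κ β _ _ _ _ _ S X Y q cf hX hXY hYX hq hq1 hcf hcf1 hG D n B M hB hn hBY hM hMY hL hc
  have hY : 2 ≤ Y := hX.trans hXY
  have hY0 : 0 < Y := by linarith
  have hk := card_Rf D
  rw [hm] at hk
  obtain ⟨hF', hN⟩ := hC D.Rf.card hc hk
  obtain ⟨G⟩ := hgCls_hg hG D.v
  have hK : S.K ≤ Y := (hgCls ι (m - 1) C1).K_le S X Y _ hX hG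
  have hw : Fintype.card (WTy (KS D)) ≤ 2 ^ m := by
    refine (card_WTy (KS D)).trans (Nat.pow_le_pow_right (by norm_num) ?_)
    rw [show Fintype.card (KS D) = D.Rf.card from Fintype.card_coe D.Rf]
    omega
  have hn1 : ((max n 1 : ℕ) : ℝ) ≤ Y := by
    rw [Nat.cast_max]
    exact max_le hn (by push_cast; linarith)
  have hq' : 1 / Y ≤ q := (one_div_le_one_div_of_le (by linarith) hXY).trans hq
  have hq0 : 0 < q := lt_of_lt_of_le (by positivity) hq'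
  obtain ⟨R⟩ := hN D.Rf.card (Fintype.card (WTy (KS D))) Y S.K G.Kg q cf (max n 1) B M (by omega) hw hY S.K1 hK G.Kg1
    G.Kg_le hn1 hBY hMY hq' hcf
  obtain ⟨Ξ2, i1, i2, hr⟩ := recOut_of G hm hF' (hgCls_dbl hG) hq0 (Bd_mono (le_max_left n 1) hB) (le_max_right n 1) hM R
  have hCs : C D.Rf.card ≤ ∑ v ∈ range (m + 1), C v + 32 := by
    have : C D.Rf.card ≤ ∑ v ∈ range (m + 1), C v :=
      Finset.single_le_sum (f := C) (fun i _ => Nat.zero_le _) (Finset.mem_range.2 (by omega))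
    omega
  have hp : Y ^ C D.Rf.card ≤ Y ^ (∑ v ∈ range (m + 1), C v + 32) := pow_le_pow_right₀ (by linarith) hCs
  exact ⟨Ξ2, i1, i2, R.n', R.B', hr, R.nY.trans hp, R.BY.trans (Real.exp_le_exp.2 hp)⟩

end

end Pool.Agent.GMJR
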