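import Pool.Agent.GMJR.NumW
import Pool.Agent.GMJR.CwD
import Pool.Agent.GMJR.JWS
import Pool.Agent.GMJR.JRS

/-!
# GMJR/JR2C (helper19): FROM THE NAMES (`ClsO`) AND THE NUMBERS (`NW`) TO THE RECORDS (`RecOut`)

* `rec_of_clsO` : one step, from `NW` and `ClsO` with right sides below the bounds of `NW.sum`;
* `ClsX D G hb C0 κ al Lam Mc J n0 h3` : names of the step with the explicit right sides of helper97's list
  (`k = card Rf`, `n1 = ⌊Kg n⌋₊`, `n2 = 3 Kg n`, `M2 = K Bd`);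
* **`jr2c`** : for all `m, C0, κ > 0` there is `C` such that a step with `Dbl 4`, `K ≤ Y`, `Kg ≤ K ^ 2` has records of sizes
  `n' ≤ Y ^ C`, `B' ≤ exp (Y ^ C)` if `ClsX` holds for all parameters with the conditions of `CLS` and of the scripts.
-/

set_option autoImplicit false
set_option linter.unusedSectionVars false

namespace Pool.Agent.GMJR

open Finset Pool.Agent.PWZ Pool.Agent.M3 Pool.Agent.M3.TS Pool.Agent.GM Pool.Agent.GMN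
open Pool.Agent.M3.Mod (SzM)

noncomputable section

variable {ι Om Ξ Pt V Γ κ : Type} [Fintype ι] [DecidableEq ι] [Fintype Om] [Fintype Ξ] [Fintype Pt]
  [Fintype V] {S : Sys ι Om Ξ Pt V Γ κ} {β : Type} {D : StepIn S β} {G : HG S D.v}

/-- the number of reference vertices -/
theorem card_KS : Fintype.card (KS D) = D.Rf.card := Fintype.card_coe D.Rf

/-- the number of types -/
theorem card_WTy_pow {K : Type} [Fintype K] [DecidableEq K] : Fintype.card (WTy K) ≤ 2 ^ Fintype.card K := by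
  classical
  have h : Fintype.card (WTy K) ≤ Fintype.card (Finset K) :=
    Fintype.card_le_of_injective (fun W : WTy K => W.1) Subtype.val_injective
  rwa [Fintype.card_finset] at h

/-- **RECORDS from names and numbers**, one step -/
theorem rec_of_clsO {n B M : ℕ} (hb : D.Bd n B) (hM : 0 < M) {m C0 cc C : ℕ} {κ' D0 Y q cf : ℝ}
    (hm : Fintype.card ι = m) (hD0 : S.Dbl D0) (hq : 0 < q)
    (N : NumW.NW m C0 cc C D.Rf.card (Fintype.card (WTy (KS D))) κ' D0 Y S.K G.Kg q cf n B M)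
    {Q : ℕ} {Nk : Type} [Fintype Nk] [DecidableEq Nk] [Inhabited Nk] {kap n0 eps Nn Ent q0 aw : ℝ}
    (H : ClsO (wdS D G) (wlS D G hb) Q Nk N.h3 kap n0 eps Nn Ent q0 aw)
    (hMc : 0 ≤ N.Mc)
    (hq0 : q0 ≤ cc * ((1 + 3 * G.Kg * n / N.al) / N.J + (1 + 3 * G.Kg * n) / N.n0 + N.Lam ^ C0 * N.Mc ^ (-κ') +
      S.K * B / 2 ^ N.h3))
    (hkap : kap ≤ cc * N.Mc ^ C0) (hEnt : Ent ≤ cc * N.Mc ^ C0) (hN : Nn ≤ cc * N.Mc ^ C0) (haw : aw ≤ cc * N.al)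
    (hnl : n0 ≤ N.n0 * (⌊G.Kg * n⌋₊ : ℝ)) :
    ∃ (Ξ2 : Type) (_ : Fintype Ξ2) (_ : Nonempty Ξ2) (n' B' : ℕ),
      Nonempty (RecOut D M Ξ2 n' B' q cf) ∧ (n' : ℝ) ≤ Y ^ C ∧ (B' : ℝ) ≤ Real.exp (Y ^ C) := by
  have hKg : (0 : ℝ) ≤ G.Kg := le_trans zero_le_one G.Kg1
  have hcM : (0 : ℝ) ≤ cc * N.Mc ^ C0 := by positivity
  have hn00 : 0 ≤ n0 := le_trans zero_le_one H.n01
  have hsum := N.sum q0 kap (cc * N.Mc ^ C0) (cc * N.Mc ^ C0) aw n0 hq0 H.kap0 hkap hcM le_rfl hcM le_rfl H.aw0 haw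
    hn00 hnl
  have hlog : 0 < Real.log 2 := Real.log_pos (by norm_num)
  have hB0 := N.B0
  have hx00 := N.x00
  have hh1 : (0 : ℝ) < N.h1 := by exact_mod_cast N.h11
  set qb : ℝ := q0 + Fintype.card (WTy (KS D)) * (2 * (cc * N.Mc ^ C0) / (N.h1 * Real.log 2) +
    4 * G.Kg * ((N.h1 + N.h3 : ℕ) : ℝ) * N.x0 * (cc * N.Mc ^ C0) +
    8 * G.Kg * G.Kg ^ 2 * ((N.h1 + N.h3 : ℕ) : ℝ) * (((N.h1 + N.h3 : ℕ) : ℝ) + 1) ^ 2 * (n0 * (cc * N.Mc ^ C0)) /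
      N.B) with hqb
  have hqb' : q0 + Fintype.card (WTy (KS D)) * (2 * Ent / (N.h1 * Real.log 2) +
      4 * (wdS D G).Kg * ((N.h1 + N.h3 : ℕ) : ℝ) * N.x0 * Nn +
      8 * (wdS D G).Kg * (wdS D G).Kg ^ 2 * ((N.h1 + N.h3 : ℕ) : ℝ) * (((N.h1 + N.h3 : ℕ) : ℝ) + 1) ^ 2 *
        (n0 * Nn) / N.B) ≤ qb := by
    rw [hqb]
    show q0 + Fintype.card (WTy (KS D)) * (2 * Ent / (N.h1 * Real.log 2) +
      4 * G.Kg * ((N.h1 + N.h3 : ℕ) : ℝ) * N.x0 * Nn +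
      8 * G.Kg * G.Kg ^ 2 * ((N.h1 + N.h3 : ℕ) : ℝ) * (((N.h1 + N.h3 : ℕ) : ℝ) + 1) ^ 2 *
        (n0 * Nn) / N.B) ≤ _
    refine add_le_add le_rfl (mul_le_mul_of_nonneg_left (add_le_add (add_le_add ?_ ?_) ?_) (Nat.cast_nonneg _))
    · exact div_le_div_of_nonneg_right (by linarith) (by positivity)
    · exact mul_le_mul_of_nonneg_left hN (by positivity)
    · exact div_le_div_of_nonneg_right (mul_le_mul_of_nonneg_left (mul_le_mul_of_nonneg_left hN hn00)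
        (by positivity)) hB0.le
  have J1 := H.jwd N.h11 N.x00 N.x01 N.B0 hqb'
  have J2 := jwS hb J1 hM
  have hcf : 2 * D0 * ((wdS D G).Kg ^ 2 * (kap * (2 / N.x0) ^ Fintype.card (WTy (KS D)))) *
      (N.B + 1) ^ Fintype.card (WTy {j // j ∈ D.Rf}) * 8 ^ Fintype.card (WTy {j // j ∈ D.Rf}) / N.Rr +
      (M : ℝ) ^ Fintype.card ι * ((1 + D0) * ((wdS D G).Kg ^ 2 * aw)) + qb ≤ cf := by
    rw [hm]
    exact hsum
  obtain ⟨g0, h⟩ := rec_of_JW J2 (by linarith) hD0 N.R1 hb hq hcf N.hn N.hB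
  exact ⟨_, inferInstance, inferInstance, N.n', N.B', h, N.nY, N.BY⟩

/-- NAMES of the step with explicit right sides -/
def ClsX (D : StepIn S β) (G : HG S D.v) {n B : ℕ} (hb : D.Bd n B) (C0 : ℕ) (κ' : ℝ) (al Lam Mc : ℝ) (J n0 h3 : ℕ) :
    Prop :=
  ∃ (Q : ℕ) (Nk : Type) (_ : Fintype Nk) (_ : DecidableEq Nk) (_ : Inhabited Nk) (kap n0r eps N Ent q0 aw : ℝ),
    Nonempty (ClsO (wdS D G) (wlS D G hb) Q Nk h3 kap n0r eps N Ent q0 aw) ∧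
    kap ≤ 2 * Mc ^ C0 ∧ n0r ≤ n0 * (⌊G.Kg * n⌋₊ : ℝ) ∧
    N ≤ 1 + Fintype.card (WTy (KS D)) * (2 ^ D.Rf.card * Mc ^ C0 / Real.log 2) ∧ Ent ≤ 2 ^ D.Rf.card * Mc ^ C0 ∧
    q0 ≤ D.Rf.card * ((1 + 3 * G.Kg * n / al) / J + (1 + 3 * G.Kg * n) / n0) + 2 * (C0 * Lam ^ C0 * Mc ^ (-κ')) +
      D.Rf.card * (S.K * B) / 2 ^ h3 ∧
    aw ≤ D.Rf.card * al

/-- the constant which absorbs all numbers -/
def ccX (m C0 : ℕ) : ℕ := 2 + 2 * C0 + m + (1 + 2 * (2 ^ m * 2 ^ m))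

/-- **THE CORE OF JR2At** -/
theorem jr2c (m C0 : ℕ) {κ' : ℝ} (hκ : 0 < κ') : ∃ C : ℕ,
    ∀ (ι Om Ξ Pt V Γ κ β : Type) [Fintype ι] [DecidableEq ι] [Fintype Om] [Fintype Ξ] [Fintype Pt] [Fintype V]
      (S : Sys ι Om Ξ Pt V Γ κ) (Y q cf : ℝ), Fintype.card ι = m → 2 ≤ Y → 1 / Y ≤ q → 1 / Y ≤ cf → S.K ≤ Y →
      S.Dbl 4 →
    ∀ (D : StepIn S β) (G : HG S D.v), G.Kg ≤ S.K ^ 2 →
    ∀ (n B M : ℕ) (hb : D.Bd n B), (n : ℝ) ≤ Y → (B : ℝ) ≤ Real.exp Y → 0 < M → (M : ℝ) ≤ Real.exp Y →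
      (∀ (al Lam Mc : ℝ) (J Rz n0 h3 : ℕ), 0 < al → al ≤ 1 → 1 ≤ J → 1 ≤ n0 →
        SzM Rz J n0 ((⌊G.Kg * B⌋₊ + 1) ^ ⌊G.Kg * n⌋₊) Lam → (J : ℝ) / (Rz + 1) ≤ (1 / 2) ^ h3 →
        D.Rf.card * ((J : ℝ) / (Rz + 1)) ≤ 1 / 2 → (2 * Lam) ^ C0 ≤ Mc → 1 ≤ Mc → ClsX D G hb C0 κ' al Lam Mc J n0 h3) →
    ∃ (Ξ2 : Type) (_ : Fintype Ξ2) (_ : Nonempty Ξ2) (n' B' : ℕ),
      Nonempty (RecOut D M Ξ2 n' B' q cf) ∧ (n' : ℝ) ≤ Y ^ C ∧ (B' : ℝ) ≤ Real.exp (Y ^ C) := by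
  obtain ⟨C, hC⟩ := NumW.numWU m C0 (ccX m C0) hκ (D0 := 4) (by norm_num) le_rfl
  refine ⟨C, ?_⟩
  intro ι Om Ξ Pt V Γ κ β _ _ _ _ _ _ S Y q cf hm hY hq hcf hKY hD4 D G hKg n B M hb hn hB hM hMY hX
  have hY0 : 0 < Y := by linarith
  have hk : D.Rf.card ≤ m := by
    rw [← hm, ← Finset.card_univ]
    exact Finset.card_le_card (Finset.subset_univ _)
  have h2k : 2 ^ D.Rf.card ≤ 2 ^ m := Nat.pow_le_pow_right (by norm_num) hk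
  have hw : Fintype.card (WTy (KS D)) ≤ 2 ^ m := by
    refine card_WTy_pow.trans ?_
    rw [card_KS]
    exact h2k
  obtain ⟨N⟩ := hC D.Rf.card (Fintype.card (WTy (KS D))) Y S.K G.Kg q cf n B M hk hw hY S.K1 hKY G.Kg1 hKg hn hB
    hMY hq hcf
  have hMc1 : 1 ≤ N.Mc := by
    refine le_trans ?_ N.cls
    exact one_le_pow₀ (by have := N.sz.Lam1; linarith)
  have hMC : 1 ≤ N.Mc ^ C0 := one_le_pow₀ hMc1
  obtain ⟨Q, Nk, i1, i2, i3, kap, n0r, eps, Nn, Ent, q0, aw, ⟨H⟩, h1, h2, h3, h4, h5, h6⟩ :=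
    hX N.al N.Lam N.Mc N.J N.Rz N.n0 N.h3 N.al0 N.al1 N.J1 N.n01 N.sz N.E1 N.E2 N.cls hMc1
  have hkr : (D.Rf.card : ℝ) ≤ m := by exact_mod_cast hk
  have hwr : (Fintype.card (WTy (KS D)) : ℝ) ≤ 2 ^ m := by exact_mod_cast hw
  have h2kr : (2 : ℝ) ^ D.Rf.card ≤ 2 ^ m := by exact_mod_cast h2k
  have h2m : (1 : ℝ) ≤ 2 ^ m := one_le_pow₀ (by norm_num)
  have hcc : ((ccX m C0 : ℕ) : ℝ) = 2 + 2 * C0 + m + (1 + 2 * (2 ^ m * 2 ^ m)) := by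
    unfold ccX
    push_cast
    ring
  have hm0 : (0 : ℝ) ≤ m := Nat.cast_nonneg m
  have hC00 : (0 : ℝ) ≤ C0 := Nat.cast_nonneg C0
  have hKg0 : (0 : ℝ) ≤ G.Kg := le_trans zero_le_one G.Kg1
  have hn0 : (0 : ℝ) ≤ n := Nat.cast_nonneg n
  have hal := N.al0
  have hJ : (0 : ℝ) < N.J := by exact_mod_cast N.J1
  have hN0 : (0 : ℝ) < N.n0 := by exact_mod_cast N.n01
  have hLam : (0 : ℝ) ≤ N.Lam := le_trans zero_le_one N.sz.Lam1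
  have hMc0 : (0 : ℝ) ≤ N.Mc := by linarith
  have hcck : (D.Rf.card : ℝ) ≤ (ccX m C0 : ℕ) := by
    rw [hcc]
    nlinarith
  have h22 : (1 : ℝ) ≤ 2 ^ m * 2 ^ m := by nlinarith
  refine rec_of_clsO hb hM hm hD4 (lt_of_lt_of_le (by positivity) hq) N H hMc0 ?_ ?_ ?_ ?_ ?_ h2
  · -- the bad event
    have e1 : 0 ≤ (1 + 3 * G.Kg * n / N.al) / N.J := by positivity
    have e2 : 0 ≤ (1 + 3 * G.Kg * n) / N.n0 := by positivity
    have e3 : 0 ≤ N.Lam ^ C0 * N.Mc ^ (-κ') := mul_nonneg (by positivity) (Real.rpow_nonneg hMc0 _)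
    have hK0 : 0 ≤ S.K := le_trans zero_le_one S.K1
    have e4 : 0 ≤ S.K * B / 2 ^ N.h3 := by positivity
    have hcc2 : 2 * (C0 : ℝ) ≤ (ccX m C0 : ℕ) := by
      rw [hcc]
      nlinarith
    refine h5.trans ?_
    have g1 : (D.Rf.card : ℝ) * ((1 + 3 * G.Kg * n / N.al) / N.J + (1 + 3 * G.Kg * n) / N.n0) ≤
        (ccX m C0 : ℕ) * ((1 + 3 * G.Kg * n / N.al) / N.J + (1 + 3 * G.Kg * n) / N.n0) :=
      mul_le_mul_of_nonneg_right hcck (add_nonneg e1 e2)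
    have g2 : 2 * ((C0 : ℝ) * N.Lam ^ C0 * N.Mc ^ (-κ')) ≤ (ccX m C0 : ℕ) * (N.Lam ^ C0 * N.Mc ^ (-κ')) := by
      have := mul_le_mul_of_nonneg_right hcc2 e3
      linarith
    have g3 : (D.Rf.card : ℝ) * (S.K * B) / 2 ^ N.h3 ≤ (ccX m C0 : ℕ) * (S.K * B / 2 ^ N.h3) := by
      rw [mul_div_assoc]
      exact mul_le_mul_of_nonneg_right hcck e4
    linarith
  · -- the price
    refine h1.trans (mul_le_mul_of_nonneg_right ?_ (by linarith))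
    rw [hcc]
    nlinarith
  · -- entropy
    refine h4.trans (mul_le_mul_of_nonneg_right ?_ (by linarith))
    rw [hcc]
    nlinarith
  · -- changes
    have hlog : (1 : ℝ) / 2 ≤ Real.log 2 := by
      have := Real.log_two_gt_d9
      linarith
    have g1 : (2 : ℝ) ^ D.Rf.card * N.Mc ^ C0 / Real.log 2 ≤ 2 * (2 ^ m * N.Mc ^ C0) := by
      rw [div_le_iff₀ (by linarith)]
      have g2 : (2 : ℝ) ^ D.Rf.card * N.Mc ^ C0 ≤ 2 ^ m * N.Mc ^ C0 := mul_le_mul_of_nonneg_right h2kr (by linarith)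
      have g3 : 2 * (2 ^ m * N.Mc ^ C0) * (1 / 2) ≤ 2 * (2 ^ m * N.Mc ^ C0) * Real.log 2 :=
        mul_le_mul_of_nonneg_left hlog (by positivity)
      linarith
    have g4 : (Fintype.card (WTy (KS D)) : ℝ) * (2 ^ D.Rf.card * N.Mc ^ C0 / Real.log 2) ≤
        2 ^ m * (2 * (2 ^ m * N.Mc ^ C0)) := mul_le_mul hwr g1 (by positivity) (by positivity)
    refine h3.trans ?_
    calc 1 + (Fintype.card (WTy (KS D)) : ℝ) * (2 ^ D.Rf.card * N.Mc ^ C0 / Real.log 2) ≤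
        1 * N.Mc ^ C0 + 2 ^ m * (2 * (2 ^ m * N.Mc ^ C0)) := by linarith
      _ = (1 + 2 * (2 ^ m * 2 ^ m)) * N.Mc ^ C0 := by ring
      _ ≤ (ccX m C0 : ℕ) * N.Mc ^ C0 := by
        refine mul_le_mul_of_nonneg_right ?_ (by linarith)
        rw [hcc]
        linarith
  · exact h6.trans (mul_le_mul_of_nonneg_right hcck hal.le)

end

end Pool.Agent.GMJR
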