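import Pool.Agent.GMJR.Bridge

/-!
# GMJR.Jrv (row N, NM.4 for references with several records): the record lemma JR_v, abstract form (helper97)

`Idx` = indices `(W; mu_W)` of all records of all types `W : Wt`, each with its own coin; a system `v : Vs` consists of one
index `ix v W` of every type and belongs to the reference `tup v : R`.  The index `x` with the coin `k` is recorded at the
time `i` iff `(1/2)^k ≤ Y i w x`; the reference `s` is allowed iff all indices of some system of `s` are recorded.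
The hidden vertex has the system `v` at time `i`: `hv i w v` (cumulative).

`jr_v`: (mass) for every set `J` of indices of `v`, none of which is at level `0`,
`P(hv t v and Good | K (t + 1)) ≤ Gam * ∏ x ∈ J, Y t x / Rr * Wm J v t`, `Wm J v t` adapted, nondecreasing in `t`, and
`∑ v ⊇ J, Wm J v T ≤ B` pathwise;  (use) at most `Mu` uses in mean in every world;  (ends) at most `Nv` ends of stretches
in mean from every state in every world.  Then
`P(some critical moment of tup v, hv v, Good) ≤ Gam * (4 / Rr) * (2 Nv + 1) * B * 2^|Wt| * Mu`: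
no number of names, no number of levels, no number of types of more than the factor `2^|Wt|`.
-/

set_option autoImplicit false
set_option linter.unusedSectionVars false
set_option linter.unusedVariables false

namespace Pool.Agent.GMJR

open Finset Pool.Agent.PWZ Pool.Agent.M3 Pool.Agent.GMN

noncomputable section

theorem ind_iff {p q : Prop} (h : p ↔ q) : ind p = ind q := by rw [propext h]

/-! ## ends of stretches against nondecreasing adapted processes -/

section ends

variable {Om : Type*} [Fintype Om] {κ : ℕ → Type*} {P : FP Om} {K : ∀ t, Om → κ t} {T : ℕ} {Nv : ℝ}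
  {En : ℕ → Om → Prop}

/-- from events to nonnegative functions -/
theorem ends_fun (h : ∀ i ≤ T, ∀ F : Om → Prop, (∀ v w, K i v = K i w → (F v ↔ F w)) →
    ∑ t ∈ Icc i T, P.Pr (fun w => F w ∧ En t w) ≤ Nv * P.Pr F) {i : ℕ} (hi : i ≤ T) {g : Om → ℝ}
    (hg : Fac (K i) g) (hg0 : ∀ w, 0 ≤ g w) :
    ∑ t ∈ Icc i T, P.E (fun w => g w * ind (En t w)) ≤ Nv * P.E g := by
  classical
  set I : Finset ℝ := univ.image g with hI
  have e1 : ∀ w, g w = ∑ a ∈ I, a * ind (g w = a) := by
    intro w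
    rw [Finset.sum_eq_single_of_mem (g w) (Finset.mem_image_of_mem _ (mem_univ w))]
    · rw [ind_of rfl, mul_one]
    · intro b _ hb
      rw [ind_not fun h => hb h.symm, mul_zero]
  have e2 : ∀ G : Om → ℝ, P.E (fun w => g w * G w) = ∑ a ∈ I, a * P.E (fun w => ind (g w = a) * G w) := by
    intro G
    have e3 : P.E (fun w => g w * G w) = P.E (fun w => ∑ a ∈ I, a * (ind (g w = a) * G w)) := by
      refine P.E_congr fun w _ => ?_
      conv_lhs => rw [e1 w, Finset.sum_mul]
      exact Finset.sum_congr rfl fun a _ => by ring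
    rw [e3, P.E_sum]
    exact Finset.sum_congr rfl fun a _ => P.E_smul _ _
  have e4 : P.E g = ∑ a ∈ I, a * P.Pr (fun w => g w = a) := by
    have := e2 fun _ => 1
    simp only [mul_one] at this
    exact this
  rw [e4]
  have e5 : ∀ t, P.E (fun w => g w * ind (En t w)) = ∑ a ∈ I, a * P.Pr (fun w => g w = a ∧ En t w) := by
    intro t
    rw [e2 fun w => ind (En t w)]
    refine Finset.sum_congr rfl fun a _ => ?_
    congr 1
    unfold FP.Pr
    exact P.E_congr fun w _ => (ind_and _ _).symm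
  simp only [e5]
  rw [Finset.sum_comm, Finset.mul_sum]
  refine Finset.sum_le_sum fun a ha => ?_
  obtain ⟨w0, -, hw0⟩ := Finset.mem_image.1 ha
  have ha0 : 0 ≤ a := hw0 ▸ hg0 w0
  rw [← Finset.mul_sum]
  have h1 := h i hi (fun w => g w = a) (fun v w hv => by rw [hg v w hv])
  calc a * ∑ t ∈ Icc i T, P.Pr (fun w => g w = a ∧ En t w) ≤ a * (Nv * P.Pr (fun w => g w = a)) :=
        mul_le_mul_of_nonneg_left h1 ha0
    _ = Nv * (a * P.Pr (fun w => g w = a)) := by ring

/-- increments -/
def inc (X : ℕ → Om → ℝ) : ℕ → Om → ℝ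
  | 0 => X 0
  | i + 1 => fun w => X (i + 1) w - X i w

theorem sum_inc (X : ℕ → Om → ℝ) (t : ℕ) (w : Om) : ∑ i ∈ range (t + 1), inc X i w = X t w := by
  induction t with
  | zero => simp [inc]
  | succ t ih =>
    rw [Finset.sum_range_succ, ih]
    show X t w + (X (t + 1) w - X t w) = _
    ring

/-- **summation by parts** -/
theorem ends_sum (hK : Filt K) (h : ∀ i ≤ T, ∀ F : Om → Prop, (∀ v w, K i v = K i w → (F v ↔ F w)) →
    ∑ t ∈ Icc i T, P.Pr (fun w => F w ∧ En t w) ≤ Nv * P.Pr F) {X : ℕ → Om → ℝ} (hX : ∀ t, Fac (K t) (X t))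
    (hX0 : ∀ t w, 0 ≤ X t w) (hXm : ∀ t w, X t w ≤ X (t + 1) w) :
    ∑ t ∈ range (T + 1), P.E (fun w => X t w * ind (En t w)) ≤ Nv * P.E (X T) := by
  have hf : ∀ i, Fac (K i) (inc X i) := by
    intro i
    cases i with
    | zero => exact hX 0
    | succ i => exact (hX (i + 1)).sub fun v w hv => hX i v w (hK i v w hv)
  have h0 : ∀ i w, 0 ≤ inc X i w := by
    intro i w
    cases i with
    | zero => exact hX0 0 w
    | succ i =>
      show 0 ≤ X (i + 1) w - X i w
      linarith [hXm i w]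
  have e1 : ∀ t, P.E (fun w => X t w * ind (En t w)) = ∑ i ∈ range (t + 1), P.E (fun w => inc X i w * ind (En t w)) := by
    intro t
    rw [← P.E_sum]
    refine P.E_congr fun w _ => ?_
    rw [← Finset.sum_mul, sum_inc]
  simp only [e1]
  rw [Finset.sum_comm' (s' := fun i => Icc i T) (t' := range (T + 1)) (fun t i => by
    simp only [Finset.mem_range, Finset.mem_Icc]; omega)]
  calc ∑ i ∈ range (T + 1), ∑ t ∈ Icc i T, P.E (fun w => inc X i w * ind (En t w))
      ≤ ∑ i ∈ range (T + 1), Nv * P.E (inc X i) := by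
        refine Finset.sum_le_sum fun i hi => ?_
        exact ends_fun h (by have := mem_range.1 hi; omega) (hf i) (h0 i)
    _ = Nv * P.E (X T) := by
        rw [← Finset.mul_sum, ← P.E_sum]
        congr 1
        exact P.E_congr fun w _ => sum_inc X T w

end ends

/-! ## the statement -/

variable {Om R S Idx Wt Vs : Type*} [Fintype Om] [Fintype R] [LinearOrder R] [Fintype Idx] [DecidableEq Idx]
  [Fintype Wt] [DecidableEq Wt] [Fintype Vs] {κ : ℕ → Type*}

/-- allowed references of the world `f` -/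
def Av (ix : Vs → Wt → Idx) (tup : Vs → R) (Y : ℕ → Om → Idx → ℝ) (f : Idx → ℕ) (i : ℕ) (w : Om) (s : R) : Prop :=
  ∃ v, tup v = s ∧ ∀ W, (1 / 2 : ℝ) ^ (f (ix v W)) ≤ Y i w (ix v W)

/-- some critical moment of a reference which the hidden vertex has -/
def FailV (ix : Vs → Wt → Idx) (tup : Vs → R) (Y : ℕ → Om → Idx → ℝ) (M : Om → Mach R S) (N T : ℕ)
    (hv : ℕ → Om → Vs → Prop) (f : Idx → ℕ) (w : Om) : Prop :=
  ∃ i ≤ T, ∃ l ≤ N, ∃ v, (M w).Crit (fun j => Av ix tup Y f j w) N (tup v) i l ∧ hv i w v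

/-- the systems which contain `J` -/
def sup (ix : Vs → Wt → Idx) (J : Finset Idx) (v : Vs) : Prop := ∀ x ∈ J, ∃ W, ix v W = x

open Classical in
/-- the hypotheses of `JR_v` -/
structure JRV (P : FP Om) (K : ∀ t, Om → κ t) (M : Om → Mach R S) (N T g : ℕ) (ix : Vs → Wt → Idx) (tup : Vs → R)
    (col : Idx → Wt) (Y : ℕ → Om → Idx → ℝ) (hv : ℕ → Om → Vs → Prop) (Good : Om → Prop)
    (Wm : Finset Idx → Vs → ℕ → Om → ℝ) (Rr Gam B Mu Nv : ℝ) : Prop where
  R4 : 4 ≤ Rr
  Gam0 : 0 ≤ Gam
  B0 : 0 ≤ B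
  Nv0 : 0 ≤ Nv
  filt : Filt K
  mfac : MFac K M
  Yfac : ∀ i, Fac (K i) (Y i)
  Ymono : ∀ i w x, Y i w x ≤ Y (i + 1) w x
  hcol : ∀ v W, col (ix v W) = W
  hvm : ∀ i w v, hv i w v → hv (i + 1) w v
  low : ∀ i ≤ T, ∀ w, P.p w ≠ 0 → Good w → ∀ v, hv i w v → ∀ W, (1 / 2 : ℝ) ^ g ≤ Y i w (ix v W)
  term : ∀ f : Idx → ℕ, (∀ x, f x ≤ g) → ∀ w, P.p w ≠ 0 → ∀ i ≤ T,
    (M w).pk (fun j => Av ix tup Y f j w) N i N = none
  use : ∀ f : Idx → ℕ, (∀ x, f x ≤ g) → P.E (nUseA M N T (Av ix tup Y f)) ≤ Mu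
  ends : ∀ f : Idx → ℕ, (∀ x, f x ≤ g) → ∀ s : R, ∀ i ≤ T, ∀ F : Om → Prop, (∀ v w, K i v = K i w → (F v ↔ F w)) →
    ∑ t ∈ Icc i T, P.Pr (fun w => F w ∧ EndA M N (Av ix tup Y f) s t w) ≤ Nv * P.Pr F
  W0 : ∀ J v t w, 0 ≤ Wm J v t w
  Wfac : ∀ J v t, Fac (K t) (Wm J v t)
  Wmono : ∀ J v t w, Wm J v t w ≤ Wm J v (t + 1) w
  mass : ∀ J : Finset Idx, J.Nonempty → ∀ v, sup ix J v → ∀ t ≤ T, ∀ w, P.p w ≠ 0 → (∀ x ∈ J, Y t w x < 1) →
    P.ce (K (t + 1)) (fun z => ind (hv t z v ∧ Good z)) w ≤ Gam * (∏ x ∈ J, Y t w x / Rr) * Wm J v t w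
  sum : ∀ J : Finset Idx, J.Nonempty → ∀ w, P.p w ≠ 0 → ∑ v ∈ univ.filter (sup ix J), Wm J v T w ≤ B

variable {P : FP Om} {K : ∀ t, Om → κ t} {M : Om → Mach R S} {N T g : ℕ} {ix : Vs → Wt → Idx} {tup : Vs → R}
    {col : Idx → Wt} {Y : ℕ → Om → Idx → ℝ} {hv : ℕ → Om → Vs → Prop} {Good : Om → Prop}
    {Wm : Finset Idx → Vs → ℕ → Om → ℝ} {Rr Gam B Mu Nv : ℝ}

/-- the level of an index -/
def lev (g : ℕ) (Y : ℕ → Om → Idx → ℝ) (w : Om) (i : ℕ) (x : Idx) : ℕ := lvl g (Y i w x)

theorem Av_eq {f : Idx → ℕ} (hf : ∀ x, f x ≤ g) (w : Om) : (fun j => Av ix tup Y f j w) = alw ix tup (lev g Y w) f := by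
  funext j s
  refine propext (exists_congr fun v => and_congr Iff.rfl (forall_congr' fun W => ?_))
  exact (lvl_le_iff (hf _)).symm

/-- the critical event of LEMMA W in the machine -/
def EvM (ix : Vs → Wt → Idx) (tup : Vs → R) (g : ℕ) (Y : ℕ → Om → Idx → ℝ) (M : Om → Mach R S) (N : ℕ) (f : Idx → ℕ)
    (J : Finset Idx) (t : ℕ) (w : Om) : Prop :=
  Ev ix tup (N + 1) ((M w).ev 0 (M w).z) (trM (M w) N) (onM (M w) N) (lev g Y w) f J t

theorem EvM_mono {f : Idx → ℕ} {J : Finset Idx} {t t' : ℕ} (h : t ≤ t') {w : Om}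
    (he : EvM ix tup g Y M N f J t w) : EvM ix tup g Y M N f J t' w := by
  obtain ⟨m, hm, h1⟩ := he
  exact ⟨m, hm.trans h, h1⟩

theorem Av_fac (hY : ∀ i, Fac (K i) (Y i)) (f : Idx → ℕ) (i : ℕ) : Fac (K i) (Av ix tup Y f i) := by
  intro v w h
  funext s
  unfold Av
  rw [hY i v w h]

theorem lev_eq (hK : Filt K) (hY : ∀ i, Fac (K i) (Y i)) {t : ℕ} {v w : Om} (h : K t v = K t w) {i : ℕ} (hi : i ≤ t) :
    lev g Y v i = lev g Y w i := by
  funext x
  unfold lev
  rw [hY i v w (hK.le hi v w h)]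

/-- the critical event is a function of the past -/
theorem EvM_fac (hK : Filt K) (hM : MFac K M) (hY : ∀ i, Fac (K i) (Y i)) (f : Idx → ℕ) (J : Finset Idx) (t : ℕ) :
    ∀ v w, K t v = K t w → (EvM ix tup g Y M N f J t v ↔ EvM ix tup g Y M N f J t w) := by
  intro v w h
  have hlev : ∀ i ≤ t, lev g Y v i = lev g Y w i := fun i hi => lev_eq hK hY h hi
  have hal : ∀ (kap : Idx → ℕ), ∀ i ≤ t, alw ix tup (lev g Y v) kap i = alw ix tup (lev g Y w) kap i := by
    intro kap i hi
    funext s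
    unfold alw recd
    rw [hlev i hi]
  have hst : ∀ (kap : Idx → ℕ) (m : ℕ), m / (N + 1) ≤ t →
      st (N + 1) ((M v).ev 0 (M v).z) (trM (M v) N) (onM (M v) N) (alw ix tup (lev g Y v) kap) m =
      st (N + 1) ((M w).ev 0 (M w).z) (trM (M w) N) (onM (M w) N) (alw ix tup (lev g Y w) kap) m := by
    intro kap m hm
    rw [st_bridge, st_bridge]
    exact Mach.mic_congr _ (hM.z v w) (fun j hj => hM.ev j v w (hK.le (hj.trans hm) v w h))
      (fun j hj => hM.us j v w (hK.le (hj.trans hm) v w h)) (fun j hj => hM.on j v w (hK.le (hj.trans hm) v w h))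
      (fun j hj => hal kap j (hj.trans hm)) _
  have hon : ∀ m : ℕ, m / (N + 1) ≤ t → onM (M v) N m = onM (M w) N m := by
    intro m hm
    funext σ s
    unfold onM
    rw [show (M v).on (m / (N + 1)) = (M w).on (m / (N + 1)) from hM.on _ v w (hK.le hm v w h)]
  have hJ : ∀ (kap : Idx → ℕ) (J' : Finset Idx) (m : ℕ), m / (N + 1) ≤ t →
      (Jcrit ix tup (N + 1) ((M v).ev 0 (M v).z) (trM (M v) N) (onM (M v) N) (lev g Y v) kap J' m ↔
        Jcrit ix tup (N + 1) ((M w).ev 0 (M w).z) (trM (M w) N) (onM (M w) N) (lev g Y w) kap J' m) := by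
    intro kap J' m hm
    unfold Jcrit pick recd
    rw [hst kap m hm, hon m hm, hlev _ hm, hal kap _ hm]
  unfold EvM Ev
  refine exists_congr fun m => and_congr_right fun hm => and_congr (hJ _ _ m hm) (and_congr ?_ ?_)
  · rw [hlev _ hm]
  · refine forall_congr' fun J' => forall_congr' fun _ => forall_congr' fun _ => forall_congr' fun m' =>
      forall_congr' fun hm' => ?_
    have h1 : m' / (N + 1) ≤ t := (Nat.div_le_div_right hm').trans hm
    rw [hJ _ _ m' h1, hlev _ h1]

namespace JRV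

variable (H : JRV P K M N T g ix tup col Y hv Good Wm Rr Gam B Mu Nv)
include H

theorem Y_le {i j : ℕ} (h : i ≤ j) (w : Om) (x : Idx) : Y i w x ≤ Y j w x := by
  induction j, h using Nat.le_induction with
  | base => exact le_rfl
  | succ j _ ih => exact ih.trans (H.Ymono j w x)

theorem lev_anti (w : Om) : ∀ θ θ' x, θ ≤ θ' → lev g Y w θ' x ≤ lev g Y w θ x := fun θ θ' x h =>
  lvl_mono (H.Y_le h w x)

theorem hv_le {i j : ℕ} (h : i ≤ j) {w : Om} {v : Vs} (hh : hv i w v) : hv j w v := by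
  induction j, h using Nat.le_induction with
  | base => exact hh
  | succ j _ ih => exact H.hvm j w v ih

/-- the sets of type `U` -/
theorem sum_type {f : Idx → ℕ} (hf : ∀ x, f x ≤ g) {w : Om} (hw : P.p w ≠ 0) (U : Finset Wt) :
    ∑ J ∈ (univ : Finset (Finset Idx)).filter (fun J => J.Nonempty ∧ J.image col = U),
      ind (EvM ix tup g Y M N f J T w) ≤ nUseA M N T (Av ix tup Y f) w := by
  classical
  set G := N + 1 with hG
  set exu : Finset Idx → ℕ → Prop := fun J m =>
    ExU ix tup G ((M w).ev 0 (M w).z) (trM (M w) N) (onM (M w) N) (lev g Y w) f J m with hexu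
  have hpick : ∀ i l, l ≤ N → pick G ((M w).ev 0 (M w).z) (trM (M w) N) (onM (M w) N) (alw ix tup (lev g Y w) f)
      (i * G + l) = ((M w).pk (fun j => Av ix tup Y f j w) N i l : WithTop R) := by
    intro i l hl
    rw [pick_bridge, div_ij hl, mod_ij hl, Av_eq hf]
  have h1 : ∀ J ∈ (univ : Finset (Finset Idx)).filter (fun J => J.Nonempty ∧ J.image col = U),
      ind (EvM ix tup g Y M N f J T w) ≤ ∑ i ∈ range (T + 1), ∑ l ∈ range N, ind (exu J (i * G + l)) := by
    intro J hJ
    have hJ1 := (mem_filter.1 hJ).2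
    by_cases he : EvM ix tup g Y M N f J T w
    · obtain ⟨m, hm, hx⟩ := lemmaW (H.lev_anti w) hJ1.1 he
      set i := m / G with hi
      set l := m % G with hl
      have hlN : l ≤ N := by
        have : m % G < G := Nat.mod_lt m (by omega)
        omega
      have em : m = i * G + l := by
        have := Nat.div_add_mod m G
        rw [hi, hl, mul_comm]
        exact this.symm
      have hlt : l < N := by
        rcases Nat.lt_or_ge l N with h | h
        · exact h
        · exfalso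
          have e : l = N := le_antisymm hlN h
          obtain ⟨s, hs, -⟩ := hx
          have h2 := hpick i l hlN
          rw [← em] at h2
          rw [h2, e, H.term f hf w hw i hm] at hs
          exact absurd hs (by exact fun h => nomatch h)
      rw [ind_of he]
      have h3 : ind (exu J (i * G + l)) = 1 := by
        rw [← em]
        exact ind_of hx
      rw [← h3]
      refine le_trans ?_ (Finset.single_le_sum (f := fun i => ∑ l ∈ range N, ind (exu J (i * G + l)))
        (fun j _ => Finset.sum_nonneg fun _ _ => ind_nonneg _) (mem_range.2 (by omega : i < T + 1)))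
      exact Finset.single_le_sum (f := fun l => ind (exu J (i * G + l))) (fun _ _ => ind_nonneg _) (mem_range.2 hlt)
    · rw [ind_not he]
      exact Finset.sum_nonneg fun _ _ => Finset.sum_nonneg fun _ _ => ind_nonneg _
  refine (Finset.sum_le_sum h1).trans ?_
  rw [Finset.sum_comm]
  unfold nUseA
  refine Finset.sum_le_sum fun i _ => ?_
  rw [Finset.sum_comm]
  refine Finset.sum_le_sum fun l hl => ?_
  have hlN : l ≤ N := (mem_range.1 hl).le
  by_cases hex : ∃ J ∈ (univ : Finset (Finset Idx)).filter (fun J => J.Nonempty ∧ J.image col = U),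
      exu J (i * G + l)
  · obtain ⟨J, hJ, hx⟩ := hex
    have h2 : ind ((M w).pk (fun j => Av ix tup Y f j w) N i l ≠ none) = 1 := by
      refine ind_of fun hn => ?_
      obtain ⟨s, hs, -⟩ := hx
      rw [hpick i l hlN, hn] at hs
      exact absurd hs (by exact fun h => nomatch h)
    rw [h2, Finset.sum_eq_single_of_mem J hJ]
    · exact ind_le_one _
    · intro J' hJ' hne
      refine ind_not fun hx' => hne ?_
      exact exU_unique H.hcol hx' hx (((mem_filter.1 hJ').2.2).trans ((mem_filter.1 hJ).2.2).symm)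
  · rw [Finset.sum_eq_zero fun J hJ => ind_not fun h => hex ⟨J, hJ, h⟩]
    exact ind_nonneg _

/-- all sets: at most `2^|Wt|` times the number of uses -/
theorem sum_all {f : Idx → ℕ} (hf : ∀ x, f x ≤ g) {w : Om} (hw : P.p w ≠ 0) :
    ∑ J ∈ (univ : Finset (Finset Idx)).filter (fun J => J.Nonempty), ind (EvM ix tup g Y M N f J T w) ≤
      2 ^ Fintype.card Wt * nUseA M N T (Av ix tup Y f) w := by
  classical
  have e1 : ∑ J ∈ (univ : Finset (Finset Idx)).filter (fun J => J.Nonempty), ind (EvM ix tup g Y M N f J T w) =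
      ∑ U : Finset Wt, ∑ J ∈ (univ : Finset (Finset Idx)).filter (fun J => J.Nonempty ∧ J.image col = U),
        ind (EvM ix tup g Y M N f J T w) := by
    rw [← Finset.sum_fiberwise_of_maps_to (s := (univ : Finset (Finset Idx)).filter (fun J => J.Nonempty))
      (t := (univ : Finset (Finset Wt))) (g := fun J => J.image col) (fun _ _ => mem_univ _)]
    refine Finset.sum_congr rfl fun U _ => ?_
    rw [Finset.filter_filter]
  rw [e1]
  calc _ ≤ ∑ U : Finset Wt, nUseA M N T (Av ix tup Y f) w := Finset.sum_le_sum fun U _ => H.sum_type hf hw U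
    _ = _ := by
        rw [Finset.sum_const, card_univ, Fintype.card_finset, nsmul_eq_mul]
        push_cast
        ring

/-- the number of ends near the time `t` -/
def en (M : Om → Mach R S) (N T : ℕ) (A : ℕ → Om → R → Prop) (s : R) (t : ℕ) (w : Om) : ℝ :=
  ind (EndA M N A s t w) + (if t < T then ind (EndA M N A s (t + 1) w) else 0) + (if t = T then 1 else 0)

omit H in
theorem en_nonneg (A : ℕ → Om → R → Prop) (s : R) (t : ℕ) (w : Om) : 0 ≤ en M N T A s t w := by
  unfold en
  refine add_nonneg (add_nonneg (ind_nonneg _) ?_) ?_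
  · split_ifs
    · exact ind_nonneg _
    · exact le_rfl
  · split_ifs
    · exact zero_le_one
    · exact le_rfl

omit H in
theorem EndA_fac (hK : Filt K) (hM : MFac K M) {A : ℕ → Om → R → Prop} (hA : ∀ i, Fac (K i) (A i)) (s : R) (t : ℕ) :
    ∀ v w, K t v = K t w → (EndA M N A s t v ↔ EndA M N A s t w) := by
  intro v w h
  have h1 : ∀ i ≤ t, ∀ l, ((M v).oa (fun j => A j v) N s i l ↔ (M w).oa (fun j => A j w) N s i l) :=
    fun i hi l => GMN.oa_fac hK hM hA s i l v w (hK.le hi v w h)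
  unfold EndA GeA
  refine and_congr (not_congr (h1 t le_rfl N)) (or_congr ?_ ?_)
  · constructor
    · rintro ⟨j, hj, hg⟩; exact ⟨j, hj, (h1 j (by omega) N).1 hg⟩
    · rintro ⟨j, hj, hg⟩; exact ⟨j, hj, (h1 j (by omega) N).2 hg⟩
  · constructor
    · rintro ⟨l, hl, hg⟩; exact ⟨l, hl, (h1 t le_rfl l).1 hg⟩
    · rintro ⟨l, hl, hg⟩; exact ⟨l, hl, (h1 t le_rfl l).2 hg⟩

omit H in
theorem en_fac (hK : Filt K) (hM : MFac K M) {A : ℕ → Om → R → Prop} (hA : ∀ i, Fac (K i) (A i)) (s : R) (t : ℕ) :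
    Fac (K (t + 1)) (en M N T A s t) := by
  intro v w h
  have h1 := EndA_fac (N := N) hK hM hA s t v w (hK t v w h)
  have h2 := EndA_fac (N := N) hK hM hA s (t + 1) v w h
  unfold en
  rw [ind_iff h1, ind_iff h2]

/-- the ends near all times against a nondecreasing adapted process -/
theorem en_sum {f : Idx → ℕ} (hf : ∀ x, f x ≤ g) (s : R) {X : ℕ → Om → ℝ} (hX : ∀ t, Fac (K t) (X t))
    (hX0 : ∀ t w, 0 ≤ X t w) (hXm : ∀ t w, X t w ≤ X (t + 1) w) :
    ∑ t ∈ range (T + 1), P.E (fun w => en M N T (Av ix tup Y f) s t w * X t w) ≤ (2 * Nv + 1) * P.E (X T) := by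
  classical
  have h0 := ends_sum (P := P) (En := fun t w => EndA M N (Av ix tup Y f) s t w) H.filt (H.ends f hf s) hX hX0 hXm
  have e1 : ∀ t, P.E (fun w => en M N T (Av ix tup Y f) s t w * X t w) =
      P.E (fun w => X t w * ind (EndA M N (Av ix tup Y f) s t w)) +
        (if t < T then P.E (fun w => X t w * ind (EndA M N (Av ix tup Y f) s (t + 1) w)) else 0) +
        (if t = T then P.E (X t) else 0) := by
    intro t
    by_cases h1 : t < T
    · have h2 : t ≠ T := by omega
      simp only [en, if_pos h1, if_neg h2, add_zero]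
      rw [← P.E_add]
      exact P.E_congr fun w _ => by ring
    · by_cases h2 : t = T
      · simp only [en, if_neg h1, if_pos h2, add_zero]
        rw [← P.E_add]
        exact P.E_congr fun w _ => by ring
      · simp only [en, if_neg h1, if_neg h2, add_zero]
        exact P.E_congr fun w _ => by ring
  simp only [e1]
  rw [Finset.sum_add_distrib, Finset.sum_add_distrib]
  have h3 : ∑ t ∈ range (T + 1), (if t = T then P.E (X t) else 0) = P.E (X T) := by
    rw [Finset.sum_ite_eq' (range (T + 1)) T fun t => P.E (X t), if_pos (by simp)]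
  have h4 : ∑ t ∈ range (T + 1), (if t < T then P.E (fun w => X t w * ind (EndA M N (Av ix tup Y f) s (t + 1) w)) else 0) ≤
      Nv * P.E (X T) := by
    rw [Finset.sum_range_succ, if_neg (lt_irrefl T), add_zero]
    refine le_trans ?_ h0
    rw [Finset.sum_range_succ' _ T]
    have h5 : 0 ≤ P.E (fun w => X 0 w * ind (EndA M N (Av ix tup Y f) s 0 w)) :=
      P.E_nonneg fun w _ => mul_nonneg (hX0 _ _) (ind_nonneg _)
    have h6 : ∑ t ∈ range T, (if t < T then P.E (fun w => X t w * ind (EndA M N (Av ix tup Y f) s (t + 1) w)) else 0) ≤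
        ∑ t ∈ range T, P.E (fun w => X (t + 1) w * ind (EndA M N (Av ix tup Y f) s (t + 1) w)) := by
      refine Finset.sum_le_sum fun t ht => ?_
      rw [if_pos (mem_range.1 ht)]
      exact P.E_mono fun w _ => mul_le_mul_of_nonneg_right (hXm t w) (ind_nonneg _)
    linarith
  rw [h3]
  linarith

/-- the event of one set, one system, one time -/
def qe (ix : Vs → Wt → Idx) (tup : Vs → R) (g : ℕ) (Y : ℕ → Om → Idx → ℝ) (M : Om → Mach R S) (N : ℕ) (f : Idx → ℕ)
    (J : Finset Idx) (t : ℕ) (w : Om) : Prop :=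
  (∀ x ∈ J, 1 ≤ lev g Y w t x ∧ lev g Y w t x ≤ g) ∧ EvM ix tup g Y M N (mix J f (lev g Y w t)) J t w

/-- **the cover of a failure** -/
theorem cover {f : Idx → ℕ} (hf : ∀ x, f x ≤ g) {w : Om} (hw : P.p w ≠ 0) (hG : Good w)
    (hF : FailV ix tup Y M N T hv f w) :
    ∃ J : Finset Idx, J.Nonempty ∧ ∃ v, sup ix J v ∧ ∃ t ≤ T, hv t w v ∧ qe ix tup g Y M N f J t w ∧
      1 ≤ en M N T (Av ix tup Y f) (tup v) t w := by
  obtain ⟨i, hi, l, hl, v, hc, hh⟩ := hF
  obtain ⟨t, hit, htT, ⟨l', hl', hc'⟩, hend⟩ := fail_end (M := M) (A := Av ix tup Y f) (H.term f hf w hw) hi hl hc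
  have hvt := H.hv_le hit hh
  rw [Av_eq hf w, crit_bridge hl'] at hc'
  obtain ⟨hon, hna, hlt⟩ := hc'
  obtain ⟨J, hJ, hJv, hEv⟩ := exists_Ev (ix := ix) (H.lev_anti w) (div_ij hl') hna hon hlt
  refine ⟨J, hJ, v, hJv, t, htT, hvt, ⟨fun x hx => ⟨?_, ?_⟩, hEv⟩, ?_⟩
  · obtain ⟨m, -, ⟨hun, -⟩, hk, -⟩ := hEv
    have h1 := hun x hx
    have h2 := hk x hx
    unfold recd at h1
    rw [zc_mem hx, h2] at h1
    have h3 : mix J f (lev g Y w t) x = lev g Y w t x := if_pos hx
    rw [h3] at h1
    omega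
  · obtain ⟨W, hW⟩ := hJv x hx
    rw [← hW]
    exact lvl_le_of (H.low t htT w hw hG v hvt W)
  · unfold en
    rcases hend with h | ⟨h1, h2⟩ | h
    · rw [ind_of h]
      have n1 : 0 ≤ (if t < T then ind (EndA M N (Av ix tup Y f) (tup v) (t + 1) w) else 0) := by
        split_ifs
        · exact ind_nonneg _
        · exact le_rfl
      have n2 : (0 : ℝ) ≤ (if t = T then 1 else 0) := by split_ifs <;> norm_num
      linarith
    · rw [if_pos h1, ind_of h2]
      have n1 := ind_nonneg (EndA M N (Av ix tup Y f) (tup v) t w)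
      have n2 : (0 : ℝ) ≤ (if t = T then 1 else 0) := by split_ifs <;> norm_num
      linarith
    · rw [if_pos h]
      have n1 := ind_nonneg (EndA M N (Av ix tup Y f) (tup v) t w)
      have n2 : 0 ≤ (if t < T then ind (EndA M N (Av ix tup Y f) (tup v) (t + 1) w) else 0) := by
        split_ifs
        · exact ind_nonneg _
        · exact le_rfl
      linarith

/-- the probability over the new coins of `J` of the critical event -/
def XE (ix : Vs → Wt → Idx) (tup : Vs → R) (g : ℕ) (Y : ℕ → Om → Idx → ℝ) (M : Om → Mach R S) (N : ℕ)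
    (c : Idx → Fin (g + 1)) (J : Finset Idx) (t : ℕ) (w : Om) : ℝ :=
  (coins Idx g).E fun c' => ind (EvM ix tup g Y M N (fun x => (mc J c c' x).1) J t w)

/-- the weight of the levels is the weight of the coins -/
theorem level_step (c : Idx → Fin (g + 1)) {J : Finset Idx} (hJ : J.Nonempty) {t : ℕ} {w : Om}
    (hq : qe ix tup g Y M N (fun x => (c x).1) J t w) :
    ∏ x ∈ J, Y t w x / Rr ≤ 4 / Rr * XE ix tup g Y M N c J t w := by
  classical
  have hR := H.R4
  have hR0 : 0 < Rr := by linarith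
  obtain ⟨hl, hEv⟩ := hq
  have h1 : ∏ x ∈ J, Y t w x / Rr ≤ ∏ x ∈ J, (4 / Rr * (1 / 2 : ℝ) ^ (lev g Y w t x + 1)) := by
    refine Finset.prod_le_prod (fun x hx => ?_) fun x hx => ?_
    · refine div_nonneg ?_ hR0.le
      exact le_trans (by positivity) (lvl_spec (hl x hx).2)
    · have h2 := (lt_of_lvl (g := g) (y := Y t w x) (hl x hx).1).le
      rw [div_mul_eq_mul_div]
      exact div_le_div_of_nonneg_right h2 hR0.le
  refine h1.trans ?_
  rw [Finset.prod_mul_distrib, Finset.prod_const]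
  have h3 : (4 / Rr) ^ J.card ≤ 4 / Rr := by
    have h4 : 4 / Rr ≤ 1 := (div_le_one hR0).2 hR
    calc (4 / Rr) ^ J.card ≤ (4 / Rr) ^ 1 :=
          pow_le_pow_of_le_one (by positivity) h4 (Finset.card_pos.2 hJ)
      _ = 4 / Rr := pow_one _
  have h5 : ∏ x ∈ J, (1 / 2 : ℝ) ^ (lev g Y w t x + 1) ≤ XE ix tup g Y M N c J t w := by
    refine (coin_level g J (fun x => lev g Y w t x) (fun x hx => (hl x hx).2)).trans ?_
    refine FP.E_mono _ fun c' _ => ind_mono fun h => ?_
    have e : (fun x => (mc J c c' x).1) = mix J (fun x => (c x).1) (lev g Y w t) := by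
      funext x
      unfold mc mix
      by_cases hx : x ∈ J
      · rw [if_pos hx, if_pos hx]; exact h x hx
      · rw [if_neg hx, if_neg hx]
    rw [e]
    exact hEv
  exact mul_le_mul h3 h5 (Finset.prod_nonneg fun _ _ => by positivity) (by positivity)

theorem XE_fac (c : Idx → Fin (g + 1)) (J : Finset Idx) (t : ℕ) : Fac (K t) (XE ix tup g Y M N c J t) := by
  intro v w h
  unfold XE
  exact FP.E_congr _ fun c' _ => ind_iff (EvM_fac H.filt H.mfac H.Yfac _ J t v w h)

omit H in
theorem XE_nonneg (c : Idx → Fin (g + 1)) (J : Finset Idx) (t : ℕ) (w : Om) : 0 ≤ XE ix tup g Y M N c J t w :=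
  FP.E_nonneg _ fun _ _ => ind_nonneg _

omit H in
theorem XE_mono (c : Idx → Fin (g + 1)) (J : Finset Idx) (t : ℕ) (w : Om) :
    XE ix tup g Y M N c J t w ≤ XE ix tup g Y M N c J (t + 1) w :=
  FP.E_mono _ fun _ _ => ind_mono fun h => EvM_mono (Nat.le_succ t) h

/-- one set, one system, one time -/
theorem one_term (c : Idx → Fin (g + 1)) {J : Finset Idx} (hJ : J.Nonempty) {v : Vs} (hv' : sup ix J v) {t : ℕ}
    (ht : t ≤ T) :
    P.E (fun w => en M N T (Av ix tup Y fun x => (c x).1) (tup v) t w *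
        (ind (hv t w v ∧ Good w) * ind (qe ix tup g Y M N (fun x => (c x).1) J t w))) ≤
      Gam * (4 / Rr) * P.E (fun w => en M N T (Av ix tup Y fun x => (c x).1) (tup v) t w *
        (Wm J v t w * XE ix tup g Y M N c J t w)) := by
  classical
  have hR0 : 0 < Rr := by linarith [H.R4]
  set f : Idx → ℕ := fun x => (c x).1 with hf
  set e : Om → ℝ := en M N T (Av ix tup Y f) (tup v) t with he
  set q : Om → ℝ := fun w => ind (qe ix tup g Y M N f J t w) with hq
  have hefac : Fac (K (t + 1)) e := en_fac H.filt H.mfac (fun i => Av_fac H.Yfac f i) (tup v) t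
  have hqfac : Fac (K t) q := by
    refine Fac.ind fun a b hab => ?_
    unfold qe
    have h1 : lev g Y a t = lev g Y b t := lev_eq H.filt H.Yfac hab le_rfl
    rw [h1]
    exact and_congr Iff.rfl (EvM_fac H.filt H.mfac H.Yfac _ J t a b hab)
  have hfac : Fac (K (t + 1)) fun w => e w * q w := hefac.mul fun a b hab => hqfac a b (H.filt t a b hab)
  have e1 : P.E (fun w => e w * (ind (hv t w v ∧ Good w) * q w)) =
      P.E (fun w => e w * q w * P.ce (K (t + 1)) (fun z => ind (hv t z v ∧ Good z)) w) := by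
    rw [P.E_mul_ce hfac]
    exact P.E_congr fun w _ => by ring
  rw [e1, ← P.E_smul]
  refine P.E_mono fun w hw => ?_
  have n1 : 0 ≤ e w := en_nonneg _ _ _ _
  have n2 : 0 ≤ Wm J v t w := H.W0 J v t w
  have n3 : 0 ≤ XE ix tup g Y M N c J t w := XE_nonneg c J t w
  by_cases hqw : qe ix tup g Y M N f J t w
  · have hq1 : q w = 1 := ind_of hqw
    rw [hq1, mul_one]
    have hY1 : ∀ x ∈ J, Y t w x < 1 := by
      intro x hx
      have h1 := lt_of_lvl (g := g) (y := Y t w x) (hqw.1 x hx).1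
      have h2 : (1 / 2 : ℝ) ^ (lvl g (Y t w x) + 1) ≤ (1 / 2 : ℝ) ^ 2 := by
        refine pow_le_pow_of_le_one (by norm_num) (by norm_num) ?_
        have : 1 ≤ lvl g (Y t w x) := (hqw.1 x hx).1
        omega
      have h3 : (4 : ℝ) * (1 / 2) ^ 2 = 1 := by norm_num
      linarith
    have h4 := H.mass J hJ v hv' t ht w hw hY1
    have h5 := H.level_step c hJ hqw
    have h6 : Gam * (∏ x ∈ J, Y t w x / Rr) * Wm J v t w ≤
        Gam * (4 / Rr * XE ix tup g Y M N c J t w) * Wm J v t w :=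
      mul_le_mul_of_nonneg_right (mul_le_mul_of_nonneg_left h5 H.Gam0) n2
    calc e w * P.ce (K (t + 1)) (fun z => ind (hv t z v ∧ Good z)) w
        ≤ e w * (Gam * (4 / Rr * XE ix tup g Y M N c J t w) * Wm J v t w) :=
          mul_le_mul_of_nonneg_left (h4.trans h6) n1
      _ = _ := by ring
  · have hq0 : q w = 0 := ind_not hqw
    rw [hq0, mul_zero, zero_mul]
    have := H.Gam0
    positivity

open Classical in
/-- one set -/
theorem one_set (c : Idx → Fin (g + 1)) {J : Finset Idx} (hJ : J.Nonempty) :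
    ∑ v ∈ univ.filter (sup ix J), ∑ t ∈ range (T + 1),
      P.E (fun w => en M N T (Av ix tup Y fun x => (c x).1) (tup v) t w *
        (ind (hv t w v ∧ Good w) * ind (qe ix tup g Y M N (fun x => (c x).1) J t w))) ≤
      Gam * (4 / Rr) * ((2 * Nv + 1) * (B * P.E (XE ix tup g Y M N c J T))) := by
  classical
  have hR0 : 0 < Rr := by linarith [H.R4]
  have hGR : 0 ≤ Gam * (4 / Rr) := mul_nonneg H.Gam0 (by positivity)
  have hf : ∀ x, (fun x => (c x).1) x ≤ g := fun x => by
    have := (c x).2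
    show (c x).1 ≤ g
    omega
  have h1 : ∀ v ∈ univ.filter (sup ix J), ∑ t ∈ range (T + 1),
      P.E (fun w => en M N T (Av ix tup Y fun x => (c x).1) (tup v) t w *
        (ind (hv t w v ∧ Good w) * ind (qe ix tup g Y M N (fun x => (c x).1) J t w))) ≤
      Gam * (4 / Rr) * ((2 * Nv + 1) * P.E (fun w => Wm J v T w * XE ix tup g Y M N c J T w)) := by
    intro v hvm
    have hv' := (mem_filter.1 hvm).2
    refine (Finset.sum_le_sum fun t ht => H.one_term c hJ hv' (by have := mem_range.1 ht; omega)).trans ?_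
    rw [← Finset.mul_sum]
    refine mul_le_mul_of_nonneg_left ?_ hGR
    exact H.en_sum hf (tup v) (X := fun t w => Wm J v t w * XE ix tup g Y M N c J t w)
      (fun t => (H.Wfac J v t).mul (H.XE_fac c J t)) (fun t w => mul_nonneg (H.W0 _ _ _ _) (XE_nonneg _ _ _ _))
      (fun t w => mul_le_mul (H.Wmono _ _ _ _) (XE_mono _ _ _ _) (XE_nonneg _ _ _ _) (H.W0 _ _ _ _))
  refine (Finset.sum_le_sum h1).trans ?_
  rw [← Finset.mul_sum, ← Finset.mul_sum, ← P.E_sum]
  refine mul_le_mul_of_nonneg_left (mul_le_mul_of_nonneg_left ?_ (by linarith [H.Nv0])) hGR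
  rw [← P.E_smul]
  refine P.E_mono fun w hw => ?_
  rw [← Finset.sum_mul]
  exact mul_le_mul_of_nonneg_right (H.sum J hJ w hw) (XE_nonneg _ _ _ _)

/-- one world -/
theorem one_world (c : Idx → Fin (g + 1)) :
    P.Pr (fun w => FailV ix tup Y M N T hv (fun x => (c x).1) w ∧ Good w) ≤
      Gam * (4 / Rr) * ((2 * Nv + 1) * (B *
        ∑ J ∈ (univ : Finset (Finset Idx)).filter (fun J => J.Nonempty), P.E (XE ix tup g Y M N c J T))) := by
  classical
  have hf : ∀ x, (fun x => (c x).1) x ≤ g := fun x => by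
    have := (c x).2
    show (c x).1 ≤ g
    omega
  set f : Idx → ℕ := fun x => (c x).1 with hfd
  set F : Finset Idx → Vs → ℕ → Om → ℝ := fun J v t w => en M N T (Av ix tup Y f) (tup v) t w *
        (ind (hv t w v ∧ Good w) * ind (qe ix tup g Y M N f J t w)) with hF
  have hF0 : ∀ J v t w, 0 ≤ F J v t w := fun J v t w =>
    mul_nonneg (en_nonneg _ _ _ _) (mul_nonneg (ind_nonneg _) (ind_nonneg _))
  have h1 : P.Pr (fun w => FailV ix tup Y M N T hv f w ∧ Good w) ≤
      P.E (fun w => ∑ J ∈ (univ : Finset (Finset Idx)).filter (fun J => J.Nonempty),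
        ∑ v ∈ univ.filter (sup ix J), ∑ t ∈ range (T + 1), F J v t w) := by
    refine P.E_mono fun w hw => ?_
    by_cases hh : FailV ix tup Y M N T hv f w ∧ Good w
    · rw [ind_of hh]
      obtain ⟨J, hJ, v, hvJ, t, ht, hvt, hq, hen⟩ := H.cover hf hw hh.2 hh.1
      have h2 : 1 ≤ F J v t w := by
        show 1 ≤ en M N T (Av ix tup Y f) (tup v) t w * (ind (hv t w v ∧ Good w) * ind (qe ix tup g Y M N f J t w))
        rw [ind_of ⟨hvt, hh.2⟩, ind_of hq, mul_one, mul_one]
        exact hen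
      refine h2.trans ?_
      have h3 := Finset.single_le_sum (f := fun t => F J v t w) (fun t _ => hF0 J v t w)
        (mem_range.2 (by omega : t < T + 1))
      have h4 := Finset.single_le_sum (f := fun v => ∑ t ∈ range (T + 1), F J v t w)
        (fun v _ => Finset.sum_nonneg fun t _ => hF0 J v t w)
        (mem_filter.2 ⟨mem_univ v, hvJ⟩ : v ∈ univ.filter (sup ix J))
      have h5 := Finset.single_le_sum (f := fun J => ∑ v ∈ univ.filter (sup ix J), ∑ t ∈ range (T + 1), F J v t w)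
        (fun J _ => Finset.sum_nonneg fun v _ => Finset.sum_nonneg fun t _ => hF0 J v t w)
        (mem_filter.2 ⟨mem_univ J, hJ⟩ : J ∈ (univ : Finset (Finset Idx)).filter (fun J => J.Nonempty))
      exact h3.trans (h4.trans h5)
    · rw [ind_not hh]
      exact Finset.sum_nonneg fun J _ => Finset.sum_nonneg fun v _ => Finset.sum_nonneg fun t _ => hF0 J v t w
  refine h1.trans ?_
  rw [P.E_sum]
  have h2 : ∀ J ∈ (univ : Finset (Finset Idx)).filter (fun J => J.Nonempty),
      P.E (fun w => ∑ v ∈ univ.filter (sup ix J), ∑ t ∈ range (T + 1), F J v t w) ≤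
        Gam * (4 / Rr) * ((2 * Nv + 1) * (B * P.E (XE ix tup g Y M N c J T))) := by
    intro J hJ
    refine le_trans (le_of_eq ?_) (H.one_set c (mem_filter.1 hJ).2)
    rw [P.E_sum]
    exact Finset.sum_congr rfl fun v _ => P.E_sum _ _
  refine (Finset.sum_le_sum h2).trans (le_of_eq ?_)
  rw [← Finset.mul_sum, ← Finset.mul_sum, ← Finset.mul_sum]

/-- **THE RECORD LEMMA JR_v** -/
theorem jr_v :
    (coins Idx g).E (fun c => P.Pr (fun w => FailV ix tup Y M N T hv (fun x => (c x).1) w ∧ Good w)) ≤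
      Gam * (4 / Rr) * ((2 * Nv + 1) * (B * (2 ^ Fintype.card Wt * Mu))) := by
  classical
  have hR0 : 0 < Rr := by linarith [H.R4]
  have hGR : 0 ≤ Gam * (4 / Rr) := mul_nonneg H.Gam0 (by positivity)
  refine (FP.E_mono _ fun c _ => H.one_world c).trans ?_
  rw [FP.E_smul, FP.E_smul, FP.E_smul]
  refine mul_le_mul_of_nonneg_left (mul_le_mul_of_nonneg_left (mul_le_mul_of_nonneg_left ?_ H.B0)
    (by linarith [H.Nv0])) hGR
  have e1 : ∀ J : Finset Idx, (coins Idx g).E (fun c => P.E (XE ix tup g Y M N c J T)) =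
      P.E (fun w => (coins Idx g).E fun c => ind (EvM ix tup g Y M N (fun x => (c x).1) J T w)) := by
    intro J
    rw [FP.E_swap]
    refine P.E_congr fun w _ => ?_
    exact resample (fun _ : Idx => geo g) J fun c => ind (EvM ix tup g Y M N (fun x => (c x).1) J T w)
  have e2 : (coins Idx g).E (fun c => ∑ J ∈ (univ : Finset (Finset Idx)).filter (fun J => J.Nonempty),
      P.E (XE ix tup g Y M N c J T)) =
      (coins Idx g).E (fun c => P.E fun w => ∑ J ∈ (univ : Finset (Finset Idx)).filter (fun J => J.Nonempty),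
        ind (EvM ix tup g Y M N (fun x => (c x).1) J T w)) := by
    rw [FP.E_sum]
    rw [FP.E_swap]
    rw [← FP.E_congr P (f := fun w => ∑ J ∈ (univ : Finset (Finset Idx)).filter (fun J => J.Nonempty),
      (coins Idx g).E fun c => ind (EvM ix tup g Y M N (fun x => (c x).1) J T w)) (fun w _ => (FP.E_sum _ _ _).symm)]
    rw [P.E_sum]
    exact Finset.sum_congr rfl fun J _ => e1 J
  rw [e2]
  have hf : ∀ c : Idx → Fin (g + 1), ∀ x, (fun x => (c x).1) x ≤ g := fun c x => by
    have := (c x).2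
    show (c x).1 ≤ g
    omega
  refine FP.E_le_const _ fun c _ => ?_
  calc P.E (fun w => ∑ J ∈ (univ : Finset (Finset Idx)).filter (fun J => J.Nonempty),
        ind (EvM ix tup g Y M N (fun x => (c x).1) J T w))
      ≤ P.E (fun w => 2 ^ Fintype.card Wt * nUseA M N T (Av ix tup Y fun x => (c x).1) w) :=
        P.E_mono fun w hw => H.sum_all (hf c) hw
    _ = 2 ^ Fintype.card Wt * P.E (nUseA M N T (Av ix tup Y fun x => (c x).1)) := P.E_smul _ _
    _ ≤ _ := mul_le_mul_of_nonneg_left (H.use _ (hf c)) (by positivity)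

end JRV

end

end Pool.Agent.GMJR
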