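import Pool.Agent.GMN.JRS1
import Pool.Agent.GMJR.RecSum

/-!
# GMJR/RecWa (helper4): THE RECORD LEMMA for any number of reference vertices, part 1: names of ranks

`RWIn D Wt Nm B kap qb` = what the world of the hidden vertex gives at the node times `t ≤ n` : scales `Z t x` of the indices
`x = (W, names ≤ W)`, list names = codes of traces (`nmOf`) for the types `wt u`, `u ∈ Rf`, keys for the other types.

Names of ranks `Nm ⊕ Fin M` : `inl` key, `inr` rank of a trace in the public set of the face of the client.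
`dn` = name of (type, name of ranks), `Zr` scales, `hasr` true systems, `rfr` reference of a system: `Zr_top`, `hasr_mass`,
`hasr_low`, `hasr_cum`, `hasr_tru`.
-/

set_option autoImplicit false
set_option linter.unusedSectionVars false

namespace Pool.Agent.GMN

open Finset Pool.Agent.PWZ Pool.Agent.M3 Pool.Agent.M3.TS Pool.Agent.GM

noncomputable section

variable {ι Om Ξ Pt V Γ κ : Type} [Fintype ι] [DecidableEq ι] [Fintype Om] [Fintype Ξ] [Fintype Pt]
  [Fintype V] {S : Sys ι Om Ξ Pt V Γ κ}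

/-- knowledge of the client at the node `t` -/
def StepIn.Kn {β : Type} (D : StepIn S β) (t : ℕ) (w : Om) :
    (ℕ × Option Ξ) × ({j // j ∈ univ.erase D.v} → Pt) × Γ :=
  (D.pcl (S.xi w), GM.res (univ.erase D.v) (S.x w), S.gm t w)

theorem Kc_Kn {β : Type} (D : StepIn S β) (bl i : ℕ) : D.Kc bl i = D.Kn (i / bl) := rfl

theorem Kn_eq {β : Type} {D : StepIn S β} {t : ℕ} {v w : Om} : D.Kn t v = D.Kn t w ↔ D.pcl (S.xi v) = D.pcl (S.xi w) ∧
    (∀ j, j ≠ D.v → S.x v j = S.x w j) ∧ S.gm t v = S.gm t w := by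
  have h := Kc_eq (D := D) (bl := 1) (i := t) (v := v) (w := w)
  rw [Kc_Kn, Nat.div_one] at h
  exact h

/-- **WHAT THE WORLD OF THE HIDDEN VERTEX GIVES** -/
structure RWIn {β : Type} (D : StepIn S β) (Wt Nm : Type) [Fintype Wt] [DecidableEq Wt] [PartialOrder Wt]
    [DecidableLE Wt] [Fintype Nm] [DecidableEq Nm] [Inhabited Nm] (B kap qb : ℝ) where
  /-- the type of the traces of `u` -/
  wt : ι → Wt
  wt_inj : ∀ u ∈ D.Rf, ∀ u' ∈ D.Rf, wt u = wt u' → u = u'
  wt_max : ∀ u ∈ D.Rf, ∀ W, ¬ wt u < W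
  /-- the name of a trace -/
  nmOf : ℕ → Nm
  nmOf_inj : ∀ u ∈ D.Rf, ∀ t ≤ S.n, ∀ w, ∀ p ∈ (D.Br u).cmp.at' t w, ∀ p' ∈ (D.Br u).cmp.at' t w,
    nmOf p = nmOf p' → p = p'
  /-- scales -/
  Z : ℕ → Wt × (Wt → Nm) → Om → ℝ
  Z0 : ∀ t x w, 0 ≤ Z t x w
  Zmono : ∀ t x w, Z t x w ≤ Z (t + 1) x w
  Zfac : ∀ t x v w, D.pz (S.xi v) = D.pz (S.xi w) → (∀ j, j ≠ D.v → S.x v j = S.x w j) → S.gm t v = S.gm t w →
    Z t x v = Z t x w
  Zdep : ∀ u ∈ D.Rf, ∀ t x, x.1 ≤ wt u → ∀ v w, D.pz (S.xi v) = D.pz (S.xi w) →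
    (∀ j, j ≠ D.v → j ≠ u → S.x v j = S.x w j) → S.cl t (S.x v u) = S.cl t (S.x w u) → S.gm t v = S.gm t w →
    Z t x v = Z t x w
  B1 : 1 ≤ B
  top : ∀ t ≤ S.n, ∀ x w, ∑ ν, Z t (sibl x ν) w ≤ B
  /-- systems of names of the hidden vertex -/
  has : ℕ → Om → (Wt → Nm) → Prop
  /-- good points -/
  G : ℕ → Om → Prop
  kap0 : 0 ≤ kap
  mass : ∀ t ≤ S.n, ∀ c w, S.P.ce (D.Kn t) (fun v => ind (has t v c ∧ G t v)) w ≤ kap * ∏ x ∈ ixs c, Z t x w
  g : ℕ
  low : ∀ t ≤ S.n, ∀ c w, has t w c → G t w → ∀ x ∈ ixs c, (1 / 2 : ℝ) ^ g ≤ Z t x w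
  bad : S.P.Pr (fun w => ∃ t ≤ S.n, ¬ G t w) ≤ qb
  tru : ∀ t ≤ S.n, ∀ w, ∀ s : ι → ℕ, (∀ u ∈ D.Rf, s u ∈ (D.Lr u).at' t w) →
    ∃ c, has t w c ∧ ∀ u ∈ D.Rf, c (wt u) = nmOf (s u)
  cum : ∀ t < S.n, ∀ w c, has t w c → ∃ c', has (t + 1) w c' ∧ ∀ u ∈ D.Rf, c' (wt u) = c (wt u)

variable {β : Type} {D : StepIn S β} {Wt Nm : Type} [Fintype Wt] [DecidableEq Wt] [PartialOrder Wt]
    [DecidableLE Wt] [Fintype Nm] [DecidableEq Nm] [Inhabited Nm] {B kap qb : ℝ}

instance instSumFin {M : ℕ} : Inhabited (Nm ⊕ Fin M) := ⟨Sum.inl default⟩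

namespace RWIn

variable (R : RWIn D Wt Nm B kap qb) (M : ℕ)

/-- the type carries traces -/
def isL (W : Wt) : Prop := ∃ u ∈ D.Rf, R.wt u = W

/-- the name of (type, name of ranks) -/
def dn (t : ℕ) (g : Γ) (x : ι → Pt) (W : Wt) (m : Nm ⊕ Fin M) : Option Nm :=
  open Classical in
  if h : R.isL W then m.elim (fun _ => none) (fun b => (cfR D M (Classical.choose h) b t g x).map R.nmOf)
  else m.elim (fun ν => some ν) (fun _ => none)

/-- the system of names of a system of names of ranks -/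
def dc (t : ℕ) (g : Γ) (x : ι → Pt) (c : Wt → Nm ⊕ Fin M) (W : Wt) : Nm := (R.dn M t g x W (c W)).getD default

/-- scales -/
def Zr (t : ℕ) (x : Wt × (Wt → Nm ⊕ Fin M)) (w : Om) : ℝ :=
  (R.dn M t (S.gm t w) (S.x w) x.1 (x.2 x.1)).elim 0 fun _ => R.Z t (res x.1 (R.dc M t (S.gm t w) (S.x w) x.2)) w

/-- systems of the hidden vertex -/
def hasr (t : ℕ) (w : Om) (c : Wt → Nm ⊕ Fin M) : Prop :=
  ∃ c0, R.has t w c0 ∧ ∀ W, R.dn M t (S.gm t w) (S.x w) W (c W) = some (c0 W)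

variable {R M}

/-- the reference of a system -/
def rfr (hM : 0 < M) (R : RWIn D Wt Nm B kap qb) (c : Wt → Nm ⊕ Fin M) : Rk ι M := fun u =>
  if u ∈ D.Rf then (c (R.wt u)).elim (fun _ => ⟨0, hM⟩) (fun b => b) else ⟨0, hM⟩

theorem dn_key {t : ℕ} {g : Γ} {x : ι → Pt} {W : Wt} (h : ¬ R.isL W) (ν : Nm) :
    R.dn M t g x W (Sum.inl ν) = some ν := by
  unfold dn
  rw [dif_neg h]
  rfl

theorem choose_wt {u : ι} (hu : u ∈ D.Rf) (h : R.isL (R.wt u)) : Classical.choose h = u :=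
  R.wt_inj _ (Classical.choose_spec h).1 u hu (Classical.choose_spec h).2

theorem dn_list {t : ℕ} {g : Γ} {x : ι → Pt} {u : ι} (hu : u ∈ D.Rf) (b : Fin M) :
    R.dn M t g x (R.wt u) (Sum.inr b) = (cfR D M u b t g x).map R.nmOf := by
  have h : R.isL (R.wt u) := ⟨u, hu, rfl⟩
  unfold dn
  rw [dif_pos h, choose_wt hu h]
  rfl

theorem dn_some_list {t : ℕ} {g : Γ} {x : ι → Pt} {u : ι} (hu : u ∈ D.Rf) {m : Nm ⊕ Fin M} {ν : Nm}
    (h : R.dn M t g x (R.wt u) m = some ν) : ∃ b p, m = Sum.inr b ∧ cfR D M u b t g x = some p ∧ R.nmOf p = ν := by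
  cases m with
  | inl ν' =>
    exfalso
    have h1 : R.isL (R.wt u) := ⟨u, hu, rfl⟩
    unfold dn at h
    rw [dif_pos h1] at h
    exact absurd h (by simp)
  | inr b =>
    rw [dn_list hu] at h
    obtain ⟨p, h1, h2⟩ := Option.map_eq_some_iff.1 h
    exact ⟨b, p, rfl, h1, h2⟩

theorem dn_some_key {t : ℕ} {g : Γ} {x : ι → Pt} {W : Wt} (hW : ¬ R.isL W) {m : Nm ⊕ Fin M} {ν : Nm}
    (h : R.dn M t g x W m = some ν) : m = Sum.inl ν := by
  cases m with
  | inl ν' =>
    rw [dn_key hW] at h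
    rw [Option.some.inj h]
  | inr b =>
    unfold dn at h
    rw [dif_neg hW] at h
    exact absurd h (by simp)

/-- different names of ranks have different names -/
theorem dn_inj {t : ℕ} (ht : t ≤ S.n) {w : Om} {W : Wt} {m m' : Nm ⊕ Fin M} {ν : Nm}
    (h : R.dn M t (S.gm t w) (S.x w) W m = some ν) (h' : R.dn M t (S.gm t w) (S.x w) W m' = some ν) : m = m' := by
  by_cases hW : R.isL W
  · obtain ⟨u, hu, rfl⟩ := hW
    have huv : u ≠ D.v := fun e => D.vR (by rw [← e]; exact hu)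
    obtain ⟨b, p, rfl, hp, hν⟩ := dn_some_list hu h
    obtain ⟨b', p', rfl, hp', hν'⟩ := dn_some_list hu h'
    have e := R.nmOf_inj u hu t ht w p (cfR_mem huv hp) p' (cfR_mem huv hp') (hν.trans hν'.symm)
    subst e
    rw [cfR_inj hp hp']
  · rw [dn_some_key hW h, dn_some_key hW h']

/-- names persist -/
theorem dn_succ {t : ℕ} {w : Om} {W : Wt} {m : Nm ⊕ Fin M} {ν : Nm}
    (h : R.dn M t (S.gm t w) (S.x w) W m = some ν) : R.dn M (t + 1) (S.gm (t + 1) w) (S.x w) W m = some ν := by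
  by_cases hW : R.isL W
  · obtain ⟨u, hu, rfl⟩ := hW
    obtain ⟨b, p, rfl, hp, hν⟩ := dn_some_list hu h
    rw [dn_list hu]
    have h1 : cfR D M u b (t + 1) (S.gm (t + 1) w) (S.x w) = some p := by
      refine cfR_succ ?_
      rw [S.par_gm]
      exact hp
    rw [h1]
    show some (R.nmOf p) = some ν
    rw [hν]
  · rw [dn_some_key hW h, dn_key hW]

theorem dc_eq {t : ℕ} {g : Γ} {x : ι → Pt} {c : Wt → Nm ⊕ Fin M} {W : Wt} {ν : Nm}
    (h : R.dn M t g x W (c W) = some ν) : R.dc M t g x c W = ν := by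
  unfold dc
  rw [h]
  rfl

theorem dc_key {t : ℕ} {g : Γ} {x : ι → Pt} {c : Wt → Nm ⊕ Fin M} {W : Wt} (hW : ¬ R.isL W) (t' : ℕ) (g' : Γ) :
    R.dc M t g x c W = R.dc M t' g' x c W := by
  unfold dc dn
  rw [dif_neg hW, dif_neg hW]

theorem Zr_nonneg (t : ℕ) (x : Wt × (Wt → Nm ⊕ Fin M)) (w : Om) : 0 ≤ R.Zr M t x w := by
  unfold Zr
  cases R.dn M t (S.gm t w) (S.x w) x.1 (x.2 x.1) with
  | none => exact le_rfl
  | some ν => exact R.Z0 _ _ _

/-- types below a type of traces carry keys -/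
theorem not_isL {W W' : Wt} (h : W' < W) : ¬ R.isL W' := by
  rintro ⟨u, hu, rfl⟩
  exact R.wt_max u hu W h

theorem Zr_mono (t : ℕ) (x : Wt × (Wt → Nm ⊕ Fin M)) (w : Om) : R.Zr M t x w ≤ R.Zr M (t + 1) x w := by
  cases h : R.dn M t (S.gm t w) (S.x w) x.1 (x.2 x.1) with
  | none =>
    have e : R.Zr M t x w = 0 := by unfold Zr; rw [h]; rfl
    rw [e]
    exact Zr_nonneg _ _ _
  | some ν =>
    have h' := dn_succ h
    have e : res x.1 (R.dc M t (S.gm t w) (S.x w) x.2) = res x.1 (R.dc M (t + 1) (S.gm (t + 1) w) (S.x w) x.2) := by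
      refine res_congr fun W' hW' => ?_
      rcases lt_or_eq_of_le hW' with h1 | h1
      · exact dc_key (not_isL h1) _ _
      · rw [h1, dc_eq h, dc_eq h']
    unfold Zr
    rw [h, h', e]
    exact R.Zmono _ _ _

/-- **sum over the siblings** -/
theorem Zr_top {t : ℕ} (ht : t ≤ S.n) (x : Wt × (Wt → Nm ⊕ Fin M)) (w : Om) :
    ∑ m, R.Zr M t (sibl x m) w ≤ B := by
  classical
  set c1 : Wt → Nm := R.dc M t (S.gm t w) (S.x w) x.2 with hc1
  have h1 : ∀ m, R.Zr M t (sibl x m) w = ∑ ν, if R.dn M t (S.gm t w) (S.x w) x.1 m = some ν then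
      R.Z t (sibl (res x.1 c1) ν) w else 0 := by
    intro m
    have e1 : (sibl x m).1 = x.1 := rfl
    have e2 : (sibl x m).2 (sibl x m).1 = m := Function.update_self _ _ _
    cases h : R.dn M t (S.gm t w) (S.x w) x.1 m with
    | none =>
      unfold Zr
      rw [e2, e1, h]
      symm
      refine (Finset.sum_eq_zero fun ν _ => if_neg (by simp)).trans rfl
    | some ν =>
      have e3 : R.Zr M t (sibl x m) w = R.Z t (res x.1 (R.dc M t (S.gm t w) (S.x w) (sibl x m).2)) w := by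
        unfold Zr
        rw [e2, e1, h]
        rfl
      have e4 : res x.1 (R.dc M t (S.gm t w) (S.x w) (sibl x m).2) = sibl (res x.1 c1) ν := by
        rw [sibl_res]
        refine res_congr fun W' _ => ?_
        rcases eq_or_ne W' x.1 with h1 | h1
        · subst h1
          rw [Function.update_self]
          refine dc_eq ?_
          rw [show (sibl x m).2 x.1 = m from e2]
          exact h
        · rw [Function.update_of_ne h1, hc1]
          unfold dc
          rw [show (sibl x m).2 W' = x.2 W' from Function.update_of_ne h1 _ _]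
      rw [e3, e4, Finset.sum_eq_single_of_mem ν (mem_univ ν)]
      · rw [if_pos rfl]
      · intro ν' _ hne
        exact if_neg fun h => hne (Option.some.inj h).symm
  rw [Finset.sum_congr rfl fun m _ => h1 m, Finset.sum_comm]
  refine le_trans (Finset.sum_le_sum fun ν _ => ?_) (R.top t ht (res x.1 c1) w)
  by_cases hex : ∃ m, R.dn M t (S.gm t w) (S.x w) x.1 m = some ν
  · obtain ⟨m, hm⟩ := hex
    rw [Finset.sum_eq_single_of_mem m (mem_univ m)]
    · rw [if_pos hm]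
    · intro m' _ hne
      exact if_neg fun h => hne (dn_inj ht h hm)
  · rw [Finset.sum_eq_zero fun m _ => if_neg fun h => hex ⟨m, h⟩]
    exact R.Z0 _ _ _

/-- names are functions of the knowledge of the client -/
theorem dn_Kn {t : ℕ} {v w : Om} (hx : ∀ j, j ≠ D.v → S.x v j = S.x w j) (hg : S.gm t v = S.gm t w) :
    R.dn M t (S.gm t v) (S.x v) = R.dn M t (S.gm t w) (S.x w) := by
  funext W m
  unfold dn
  by_cases hW : R.isL W
  · rw [dif_pos hW, dif_pos hW]
    have hu := (Classical.choose_spec hW).1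
    have huv : Classical.choose hW ≠ D.v := fun e => D.vR (by rw [← e]; exact hu)
    congr 1
    funext b
    rw [hg]
    congr 1
    exact dep_Kc (dep_of_depC huv (cfR_dep huv b t (S.gm t w))) hx
  · rw [dif_neg hW, dif_neg hW]

theorem dc_Kn {t : ℕ} {v w : Om} (hx : ∀ j, j ≠ D.v → S.x v j = S.x w j) (hg : S.gm t v = S.gm t w)
    (c : Wt → Nm ⊕ Fin M) : R.dc M t (S.gm t v) (S.x v) c = R.dc M t (S.gm t w) (S.x w) c := by
  funext W
  unfold dc
  rw [dn_Kn hx hg]

/-- scales are functions of the knowledge of the client -/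
theorem Zr_fac (t : ℕ) (x : Wt × (Wt → Nm ⊕ Fin M)) {v w : Om} (hp : D.pz (S.xi v) = D.pz (S.xi w))
    (hx : ∀ j, j ≠ D.v → S.x v j = S.x w j) (hg : S.gm t v = S.gm t w) : R.Zr M t x v = R.Zr M t x w := by
  unfold Zr
  rw [dn_Kn hx hg, dc_Kn hx hg]
  congr 1
  funext _
  exact R.Zfac t _ v w hp hx hg

/-- names of the types `≤ wt u` see only the cell of `u` -/
theorem dn_cell {u : ι} (hu : u ∈ D.Rf) {t : ℕ} {W : Wt} (hW : W ≤ R.wt u) {x y : ι → Pt} {g : Γ}
    (hx : ∀ j, j ≠ D.v → j ≠ u → x j = y j) (hc : S.cl t (x u) = S.cl t (y u)) :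
    R.dn M t g x W = R.dn M t g y W := by
  have huv : u ≠ D.v := fun e => D.vR (by rw [← e]; exact hu)
  funext m
  by_cases hL : R.isL W
  · obtain ⟨u', hu', rfl⟩ := hL
    have e : u' = u := by
      refine R.wt_inj u' hu' u hu ?_
      rcases lt_or_eq_of_le hW with h | h
      · exact absurd h (R.wt_max u' hu' _)
      · exact h
    subst e
    cases m with
    | inl ν =>
      have h1 : R.isL (R.wt u') := ⟨u', hu', rfl⟩
      unfold dn
      rw [dif_pos h1, dif_pos h1]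
      rfl
    | inr b =>
      rw [dn_list hu, dn_list hu]
      congr 1
      refine cfR_dep huv b t g x y (fun i hi => hx i (ne_of_mem_erase hi) (ne_of_mem_erase (mem_of_mem_erase hi)))
        fun i hi => ?_
      rw [Finset.mem_singleton.1 hi]
      exact hc
  · unfold dn
    rw [dif_neg hL, dif_neg hL]

/-- scales of the types `≤ wt u` see only the cell of `u` -/
theorem Zr_dep {u : ι} (hu : u ∈ D.Rf) (t : ℕ) {x : Wt × (Wt → Nm ⊕ Fin M)} (hxW : x.1 ≤ R.wt u) {v w : Om}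
    (hp : D.pz (S.xi v) = D.pz (S.xi w)) (hx : ∀ j, j ≠ D.v → j ≠ u → S.x v j = S.x w j)
    (hc : S.cl t (S.x v u) = S.cl t (S.x w u)) (hg : S.gm t v = S.gm t w) : R.Zr M t x v = R.Zr M t x w := by
  have e1 : R.dn M t (S.gm t v) (S.x v) x.1 = R.dn M t (S.gm t w) (S.x w) x.1 := by
    rw [hg]
    exact dn_cell hu hxW hx hc
  have e2 : res x.1 (R.dc M t (S.gm t v) (S.x v) x.2) = res x.1 (R.dc M t (S.gm t w) (S.x w) x.2) := by
    refine res_congr fun W' hW' => ?_
    unfold dc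
    rw [hg, dn_cell hu (hW'.trans hxW) hx hc]
  unfold Zr
  rw [e1, e2]
  congr 1
  funext _
  exact R.Zdep u hu t _ hxW v w hp hx hc hg

/-- scale of an index of a system of the hidden vertex -/
theorem Zr_res {t : ℕ} {w : Om} {c : Wt → Nm ⊕ Fin M} {c0 : Wt → Nm}
    (h : ∀ W, R.dn M t (S.gm t w) (S.x w) W (c W) = some (c0 W)) (W : Wt) :
    R.Zr M t (res W c) w = R.Z t (res W c0) w := by
  have e1 : (res W c).2 (res W c).1 = c W := res_top W c
  have e2 : res W (R.dc M t (S.gm t w) (S.x w) (res W c).2) = res W c0 := by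
    refine res_congr fun W' hW' => ?_
    refine dc_eq ?_
    have e3 : (res W c).2 W' = c W' := by
      show (if W' ≤ W then c W' else default) = c W'
      rw [if_pos hW']
    rw [e3]
    exact h W'
  unfold Zr
  rw [e1, res_fst, h W, e2]
  rfl

/-- **mass** -/
theorem hasr_mass {t : ℕ} (ht : t ≤ S.n) (c : Wt → Nm ⊕ Fin M) (w : Om) :
    S.P.ce (D.Kn t) (fun v => ind (R.hasr M t v c ∧ R.G t v)) w ≤ kap * ∏ x ∈ ixs c, R.Zr M t x w := by
  classical
  by_cases hex : ∃ c0 : Wt → Nm, ∀ W, R.dn M t (S.gm t w) (S.x w) W (c W) = some (c0 W)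
  · obtain ⟨c0, hc0⟩ := hex
    have h1 : S.P.ce (D.Kn t) (fun v => ind (R.hasr M t v c ∧ R.G t v)) w =
        S.P.ce (D.Kn t) (fun v => ind (R.has t v c0 ∧ R.G t v)) w := by
      refine ce_cls S.P (D.Kn t) fun v hv => ?_
      rw [Kn_eq] at hv
      congr 1
      apply propext
      refine and_congr ?_ Iff.rfl
      constructor
      · rintro ⟨c1, h2, h3⟩
        have e : c1 = c0 := by
          funext W
          have h4 := h3 W
          rw [dn_Kn hv.2.1 hv.2.2, hc0 W] at h4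
          exact (Option.some.inj h4).symm
        rw [← e]
        exact h2
      · intro h2
        refine ⟨c0, h2, fun W => ?_⟩
        rw [dn_Kn hv.2.1 hv.2.2]
        exact hc0 W
    rw [h1]
    refine (R.mass t ht c0 w).trans (le_of_eq ?_)
    rw [prod_ixs, prod_ixs]
    congr 1
    exact Finset.prod_congr rfl fun W _ => (Zr_res hc0 W).symm
  · have h1 : S.P.ce (D.Kn t) (fun v => ind (R.hasr M t v c ∧ R.G t v)) w = S.P.ce (D.Kn t) (fun _ => 0) w := by
      refine ce_cls S.P (D.Kn t) fun v hv => ?_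
      rw [Kn_eq] at hv
      refine ind_not ?_
      rintro ⟨⟨c1, _, h3⟩, _⟩
      refine hex ⟨c1, fun W => ?_⟩
      have h4 := h3 W
      rw [dn_Kn hv.2.1 hv.2.2] at h4
      exact h4
    rw [h1, S.P.ce_const _ _ (S.ppos w)]
    exact mul_nonneg R.kap0 (Finset.prod_nonneg fun x _ => Zr_nonneg _ _ _)

/-- scales of true systems are not small -/
theorem hasr_low {t : ℕ} (ht : t ≤ S.n) {c : Wt → Nm ⊕ Fin M} {w : Om} (h : R.hasr M t w c) (hG : R.G t w)
    {x : Wt × (Wt → Nm ⊕ Fin M)} (hx : x ∈ ixs c) : (1 / 2 : ℝ) ^ R.g ≤ R.Zr M t x w := by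
  obtain ⟨c0, h1, h2⟩ := h
  rw [mem_ixs.1 hx, Zr_res h2]
  exact R.low t ht c0 w h1 hG _ (res_mem _ _)

theorem rfr_list {hM : 0 < M} {u : ι} (hu : u ∈ D.Rf) {c : Wt → Nm ⊕ Fin M} {b : Fin M}
    (h : c (R.wt u) = Sum.inr b) : rfr hM R c u = b := by
  unfold rfr
  rw [if_pos hu, h]
  rfl

theorem rfr_can (hM : 0 < M) (c : Wt → Nm ⊕ Fin M) : D.Can M (rfr hM R c) := by
  intro u hu
  unfold rfr
  rw [if_neg hu]

/-- the true references are cumulative -/
theorem hasr_cum {hM : 0 < M} {t : ℕ} (ht : t < S.n) {c : Wt → Nm ⊕ Fin M} {w : Om} (h : R.hasr M t w c) :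
    ∃ c', rfr hM R c' = rfr hM R c ∧ R.hasr M (t + 1) w c' := by
  classical
  obtain ⟨c0, h1, h2⟩ := h
  obtain ⟨c1, h3, h4⟩ := R.cum t ht w c0 h1
  refine ⟨fun W => if R.isL W then c W else Sum.inl (c1 W), ?_, c1, h3, fun W => ?_⟩
  · funext u
    unfold rfr
    by_cases hu : u ∈ D.Rf
    · rw [if_pos hu, if_pos hu]
      show Sum.elim _ _ (if R.isL (R.wt u) then c (R.wt u) else Sum.inl (c1 (R.wt u))) = _
      rw [if_pos ⟨u, hu, rfl⟩]
    · rw [if_neg hu, if_neg hu]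
  · show R.dn M (t + 1) (S.gm (t + 1) w) (S.x w) W (if R.isL W then c W else Sum.inl (c1 W)) = some (c1 W)
    by_cases hW : R.isL W
    · rw [if_pos hW]
      obtain ⟨u, hu, rfl⟩ := hW
      rw [h4 u hu]
      exact dn_succ (h2 _)
    · rw [if_neg hW, dn_key hW]

/-- a true tuple of ranks has a system -/
theorem hasr_tru {hM : 0 < M} {t : ℕ} (ht : t ≤ S.n) {r : Rk ι M} {w : Om} (h : D.RTr M r t w) :
    ∃ c, rfr hM R c = r ∧ R.hasr M t w c := by
  classical
  obtain ⟨hcan, h1⟩ := h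
  have h2 : ∀ u, ∃ s, u ∈ D.Rf → (D.refR M u).At (r u) t w s ∧ s ∈ (D.Lr u).at' t w := by
    intro u
    by_cases hu : u ∈ D.Rf
    · obtain ⟨s, hs⟩ := h1 u hu
      exact ⟨s, fun _ => hs⟩
    · exact ⟨0, fun h => absurd h hu⟩
  choose s hs using h2
  obtain ⟨c0, h3, h4⟩ := R.tru t ht w s fun u hu => (hs u hu).2
  refine ⟨fun W => if hW : R.isL W then Sum.inr (r (Classical.choose hW)) else Sum.inl (c0 W), ?_, c0, h3,
    fun W => ?_⟩
  · funext u
    by_cases hu : u ∈ D.Rf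
    · have hW : R.isL (R.wt u) := ⟨u, hu, rfl⟩
      refine rfr_list hu ?_
      show (if hW : R.isL (R.wt u) then Sum.inr (r (Classical.choose hW)) else Sum.inl (c0 (R.wt u))) = _
      rw [dif_pos hW, choose_wt hu hW]
    · refine Fin.ext ?_
      rw [rfr_can hM _ u hu, hcan u hu]
  · show R.dn M t (S.gm t w) (S.x w) W
      (if hW : R.isL W then Sum.inr (r (Classical.choose hW)) else Sum.inl (c0 W)) = some (c0 W)
    by_cases hW : R.isL W
    · rw [dif_pos hW]
      obtain ⟨u, hu, rfl⟩ := id hW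
      have e : r (Classical.choose hW) = r u := congrArg (fun z => r z) (choose_wt hu hW)
      rw [e, dn_list hu, h4 u hu]
      have h5 : cfR D M u (r u) t (S.gm t w) (S.x w) = some (s u) := (hs u hu).1
      rw [h5]
      rfl
    · rw [dif_neg hW, dn_key hW]

end RWIn

end

end Pool.Agent.GMN
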