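import Pool.Agent.GM.CL
import Pool.Agent.GM.HarmD
import Pool.Agent.M3.NVN

/-!
# GMJR.ScrD: scripts of labels over abstract cells, the data of CL(K), 2B rounding of a raw label, no noise (helper75)

`K` = known vertices, `X` = hidden points, `β` = known points, cells `qa t` of `X`, `qb t` of `β` (`Cel` : nested; `Dig` : the
digits of the hidden cell, halves of the known cells), `N` = number of times, letters `φ`.
NODE of the label `l` : `(y j)_(j ≠ l)`, cell of `y l`, cell of `x`.
(a) `Scr` : SCRIPTS: `oc l t x y` a function of the node, `tc l t x y` of the node and of `x`.  `datS`, `thickS`, `hypS` : data,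
  thickness and hypotheses of `GM/Harm`.
(b) raw label `R l t x y : L`, any type (`DepR` : it sees `y l` through its cell).  `rc` = recorded value, `ocR` = occasions: the
  fraction of the hidden cell at which `R ≠ rc` is `≥ al`.  `Code` : codes `en`, `de` of the values at the nodes, `tcR` = coded
  components.  `scrR`; `wait_lt` : after every time the fraction waiting is `< al`; `occ_le`, `true_le` : numbers of occasions
  and of components.
(c) `ocC`, `tcC` : scripts capped at `J` occasions and `n0` components (`scrC`, `capC`); `ovfS` = overflow, `ovf_le`.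
(d) `dec l t x y F` = all values decoded from the label `F`, a function of the node; `vals` = all recorded values up to the time;
  `dec_sub` : `dec (scF) ⊆ vals`, `dec_eq` : equal off the overflow, `vals_card`; `dlast` = the last decoded value, `dlast_eq`.
(e) noise: `scF` = label without noise.  `kr_ge` : its kernel is `≥ 1 - J/(Rz+1)`;
  **`sum_le`** : `∑ F, g F * kf F ≤ g (scF) + J/(Rz+1)` for `0 ≤ g ≤ 1`;  `mem_le` : decoded values;
  **`det_le`** : for EVERY event `A`: `EV [A (x, y, scF)] * (1 - |K| J/(Rz+1)) ≤ (D.P h t).Pr A`.  No overflow anywhere.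
(f) `card_bdd` : number of sets of at most `m` keys; `szM_of` : the size hypotheses.
-/

set_option autoImplicit false
set_option linter.unusedSectionVars false
set_option linter.unusedVariables false

namespace Pool.Agent.GMJR.ScrD

open Finset Pool.Agent.PWZ Pool.Agent.M3 Pool.Agent.GM
open Pool.Agent.M3.Mod (SzM)
open Pool.Agent.M3.S3 (avg law ent)

noncomputable section

/-! ## cells and digits -/

section cells

variable {X β γ : Type}

/-- nested partitions -/
structure Cel (qa : ℕ → X → γ) (qb : ℕ → β → γ) : Prop where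
  ra : ∀ t x x', qa (t + 1) x = qa (t + 1) x' → qa t x = qa t x'
  rb : ∀ t b b', qb (t + 1) b = qb (t + 1) b' → qb t b = qb t b'

variable {qa : ℕ → X → γ} {qb : ℕ → β → γ}

theorem Cel.qa_le (C : Cel qa qb) {s t : ℕ} (hs : s ≤ t) {x x' : X} (hx : qa t x = qa t x') : qa s x = qa s x' := by
  induction t, hs using Nat.le_induction with
  | base => exact hx
  | succ n _ ih => exact ih (C.ra n x x' hx)

theorem Cel.qb_le (C : Cel qa qb) {s t : ℕ} (hs : s ≤ t) {b b' : β} (hb : qb t b = qb t b') : qb s b = qb s b' := by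
  induction t, hs using Nat.le_induction with
  | base => exact hb
  | succ n _ ih => exact ih (C.rb n b b' hb)

open Classical in
/-- the cell of a point -/
def cl {α : Type} [Fintype α] (q : α → γ) (a : α) : Finset α := univ.filter fun a' => q a' = q a

theorem mem_cl {α : Type} [Fintype α] {q : α → γ} {a a' : α} : a' ∈ cl q a ↔ q a' = q a := by
  classical
  simp [cl]

theorem self_cl {α : Type} [Fintype α] (q : α → γ) (a : α) : a ∈ cl q a := mem_cl.2 rfl

theorem cl_eq {α : Type} [Fintype α] {q : α → γ} {a a' : α} (h : q a' = q a) : cl q a' = cl q a := by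
  ext b
  rw [mem_cl, mem_cl, h]

/-- the digits of the hidden cell, the halves of the known cells -/
structure Dig [Fintype X] [Fintype β] (qa : ℕ → X → γ) (qb : ℕ → β → γ) (dg : ℕ → X → ℝ) (N : ℕ) : Prop where
  val : ∀ t x, dg t x = 1 ∨ dg t x = -1
  cell : ∀ t < N, ∀ x x', qa (t + 1) x = qa (t + 1) x' ↔ qa t x = qa t x' ∧ dg t x = dg t x'
  bal : ∀ t < N, ∀ x, ∑ x' ∈ cl (qa t) x, dg t x' = 0
  half : ∀ t < N, (∀ b, cl (qb (t + 1)) b = cl (qb t) b) ∨ ∀ b, 2 * (cl (qb (t + 1)) b).card = (cl (qb t) b).card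

end cells

/-! ## averages -/

section av

variable {X : Type}

theorem avg_nonneg' {V : Finset X} {f : X → ℝ} (h : ∀ x ∈ V, 0 ≤ f x) : 0 ≤ avg V f := by
  unfold avg
  exact div_nonneg (Finset.sum_nonneg h) (Nat.cast_nonneg _)

theorem avg_ind_zero {V : Finset X} {p : X → Prop} (h : ∀ x ∈ V, ¬ p x) : avg V (fun x => ind (p x)) = 0 := by
  unfold avg
  rw [Finset.sum_eq_zero fun x hx => ind_not (h x hx), zero_div]

end av

/-! ## (a) scripts -/

section scr

variable {K X β γ φ : Type}

/-- SCRIPTS of the labels, one for each known vertex `l` (the vertices of the label: all but `l`) -/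
structure Scr (qa : ℕ → X → γ) (qb : ℕ → β → γ) (oc : K → ℕ → X → (K → β) → Prop)
    (tc : K → ℕ → X → (K → β) → Option φ) : Prop where
  oc : ∀ l t x x' y y', (∀ j, j ≠ l → y j = y' j) → qa t x = qa t x' → qb t (y l) = qb t (y' l) →
    (oc l t x y ↔ oc l t x' y')
  tc : ∀ l t x y y', (∀ j, j ≠ l → y j = y' j) → qb t (y l) = qb t (y' l) → tc l t x y = tc l t x y'

variable {qa : ℕ → X → γ} {qb : ℕ → β → γ} {oc : K → ℕ → X → (K → β) → Prop} {tc : K → ℕ → X → (K → β) → Option φ}
  {Rz J n0 N : ℕ} [Fintype φ]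

variable (Rz J n0 N) in
/-- THE DATA of CL(K) -/
def datS (C : Cel qa qb) (S : Scr qa qb oc tc) : Harm.HD K X β γ (Fin (N + 1) → Option φ) where
  qa := qa
  qb := qb
  kf := fun t l x y F => Nz.kr Rz J n0 (fun s => oc l s x y) (fun s => tc l s x y) t F
  ra := C.ra
  rb := C.rb
  dep := fun t l x y y' hy hl => by
    funext F
    refine Nz.kr_congr (fun s hs => ?_) (fun s hs => ?_) F
    · exact S.oc l s x x y y' hy rfl (C.qb_le hs hl)
    · exact S.tc l s x y y' hy (C.qb_le hs hl)

variable {C : Cel qa qb} {S : Scr qa qb oc tc}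

/-- (H1) -/
theorem thickS (hR : 1 ≤ Rz) (C : Cel qa qb) (S : Scr qa qb oc tc) :
    (datS Rz J n0 N C S).Thick (Nz.alz Rz J n0 (Fintype.card φ)) where
  pos := Mod.alz_pos hR _ _ _
  nn := fun t l x y F => Nz.kr_nn _ _
  one := fun t l x y => by
    classical
    exact Nz.kr_one t
  thick := fun t l x x' y F hx hF => by
    refine Nz.kr_thick (fun s hs => ?_) hF
    exact S.oc l s x x' y y (fun _ _ => rfl) (C.qa_le hs hx) rfl

/-- THE HYPOTHESES of CL(K) -/
theorem hypS [Fintype K] [DecidableEq K] [Fintype X] [Fintype β] [Nonempty φ] {dg : ℕ → X → ℝ} (C : Cel qa qb)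
    (S : Scr qa qb oc tc) (hd : Dig qa qb dg N) {Lam : ℝ} (hs : SzM Rz J n0 (Fintype.card φ) Lam) :
    (datS Rz J n0 N C S).Hyp dg (fun t _ => rst t) (Nz.alz Rz J n0 (Fintype.card φ)) N Lam where
  Lam1 := hs.Lam1
  alL := hs.al
  dg_val := hd.val
  dg_cell := hd.cell
  dg_bal := fun t ht x => by
    have h1 := hd.bal t ht x
    have h2 : (datS Rz J n0 N C S).cA t x = cl (qa t) x := rfl
    rw [h2]
    exact h1
  half := fun t ht => hd.half t ht
  kf_pr := fun t _ l x y F => S3.kr_rst _ _ t F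
  H2 := fun s hsN l x y => by
    refine le_trans ?_ hs.H2
    unfold Harm.HD.mean
    rw [avg_swap]
    have hne : ((datS Rz J n0 N C S).cB s (y l)).Nonempty := ⟨y l, (Harm.HD.mem_cB' (datS Rz J n0 N C S)).2 rfl⟩
    refine le_trans (avg_mono' (g := fun _ => Real.log (Fintype.card φ + 1) +
      (2 * n0 * (1 + Real.log J + Real.log (Fintype.card φ)) + 1)) fun b _ => ?_) (le_of_eq (avg_const' hne _))
    exact ent_cell_le (N := N) (R := Rz) (J := J) (n0 := n0) (qa := qa) C.ra
      (cA := (datS Rz J n0 N C S).cA) (fun t x y => Harm.HD.mem_cA' (datS Rz J n0 N C S))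
      (oc := fun x' s => oc l s x' (Function.update y l b))
      (tc := fun x' s => tc l s x' (Function.update y l b))
      (fun t _ x x' hx => S.oc l t x x' _ _ (fun _ _ => rfl) hx rfl) hs.J1 hsN le_rfl x
  H3 := fun l x y => by
    refine le_trans (Finset.sum_le_sum fun t ht => ?_)
      ((Nz.aoc_count J (fun s => oc l s x y) N).trans hs.JL)
    have htK := Finset.mem_range.1 ht
    by_cases hc : ∃ x' ∈ (datS Rz J n0 N C S).cA (t + 1) x,
        (datS Rz J n0 N C S).kf (t + 1) l x' y ≠ (datS Rz J n0 N C S).kf t l x' y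
    · obtain ⟨x', hx', hne⟩ := hc
      have h1 : Nz.aoc J (fun s => oc l s x' y) (t + 1) := by
        by_contra hn
        apply hne
        funext F
        exact S3.kr_stay hn F
      have h2 := (S3.aoc_congr (J := J) (fun s hs' => S.oc l s x' x y y (fun _ _ => rfl)
        (C.qa_le hs' ((Harm.HD.mem_cA' (datS Rz J n0 N C S)).1 hx')) rfl)).1 h1
      rw [ind_of h2]
      exact ind_le_one _
    · rw [ind_not hc]
      exact ind_nonneg _

end scr

/-! ## (b) the 2B rounding of a raw label -/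

section round

variable {K X β γ φ L : Type} [Fintype X]

/-- the raw label `l` sees the known point `l` through its cell -/
def DepR (qb : ℕ → β → γ) (R : K → ℕ → X → (K → β) → L) : Prop :=
  ∀ l t x y y', (∀ j, j ≠ l → y j = y' j) → qb t (y l) = qb t (y' l) → R l t x y = R l t x y'

/-- CODES of the values of the raw label at the nodes -/
structure Code (qa : ℕ → X → γ) (qb : ℕ → β → γ) (R : K → ℕ → X → (K → β) → L)
    (en : K → ℕ → X → (K → β) → L → φ) (de : K → ℕ → X → (K → β) → φ → L) : Prop where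
  hen : ∀ l t x x' y y', (∀ j, j ≠ l → y j = y' j) → qa t x = qa t x' → qb t (y l) = qb t (y' l) →
    en l t x y = en l t x' y'
  hde : ∀ l t x x' y y', (∀ j, j ≠ l → y j = y' j) → qa t x = qa t x' → qb t (y l) = qb t (y' l) →
    de l t x y = de l t x' y'
  inv : ∀ l t x y, de l t x y (en l t x y (R l t x y)) = R l t x y

open Classical in
/-- the recorded value -/
def rc (qa : ℕ → X → γ) (R : K → ℕ → X → (K → β) → L) (al : ℝ) (l : K) : ℕ → X → (K → β) → L
  | 0, x, y => R l 0 x y
  | t + 1, x, y => if al ≤ avg (cl (qa (t + 1)) x) (fun x' => ind (R l (t + 1) x' y ≠ rc qa R al l t x' y))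
      then R l (t + 1) x y else rc qa R al l t x y

/-- occasions -/
def ocR (qa : ℕ → X → γ) (R : K → ℕ → X → (K → β) → L) (al : ℝ) (l : K) : ℕ → X → (K → β) → Prop
  | 0, _, _ => True
  | t + 1, x, y => al ≤ avg (cl (qa (t + 1)) x) (fun x' => ind (R l (t + 1) x' y ≠ rc qa R al l t x' y))

/-- a new value is recorded -/
def upR (qa : ℕ → X → γ) (R : K → ℕ → X → (K → β) → L) (al : ℝ) (l : K) : ℕ → X → (K → β) → Prop
  | 0, _, _ => True
  | t + 1, x, y => ocR qa R al l (t + 1) x y ∧ R l (t + 1) x y ≠ rc qa R al l t x y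

open Classical in
/-- components -/
def tcR (qa : ℕ → X → γ) (R : K → ℕ → X → (K → β) → L) (en : K → ℕ → X → (K → β) → L → φ) (al : ℝ) (l : K) (t : ℕ)
    (x : X) (y : K → β) : Option φ :=
  if upR qa R al l t x y then some (en l t x y (R l t x y)) else none

variable {qa : ℕ → X → γ} {qb : ℕ → β → γ} {R : K → ℕ → X → (K → β) → L} {en : K → ℕ → X → (K → β) → L → φ}
  {de : K → ℕ → X → (K → β) → φ → L} {al : ℝ} {l : K} {t : ℕ} {x x' : X} {y : K → β}

theorem rc_zero : rc qa R al l 0 x y = R l 0 x y := rfl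

theorem ocR_succ : ocR qa R al l (t + 1) x y ↔
    al ≤ avg (cl (qa (t + 1)) x) (fun x' => ind (R l (t + 1) x' y ≠ rc qa R al l t x' y)) := Iff.rfl

theorem upR_succ : upR qa R al l (t + 1) x y ↔
    ocR qa R al l (t + 1) x y ∧ R l (t + 1) x y ≠ rc qa R al l t x y := Iff.rfl

theorem rc_of (h : ocR qa R al l (t + 1) x y) : rc qa R al l (t + 1) x y = R l (t + 1) x y := by
  rw [ocR_succ] at h
  rw [rc, if_pos h]

theorem rc_not (h : ¬ ocR qa R al l (t + 1) x y) : rc qa R al l (t + 1) x y = rc qa R al l t x y := by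
  rw [ocR_succ] at h
  rw [rc, if_neg h]

/-- the recorded value does not change without an update -/
theorem rc_stay (h : ¬ upR qa R al l (t + 1) x y) : rc qa R al l (t + 1) x y = rc qa R al l t x y := by
  by_cases h1 : ocR qa R al l (t + 1) x y
  · rw [rc_of h1]
    by_contra h2
    exact h ⟨h1, h2⟩
  · exact rc_not h1

/-- after an update the recorded value is the raw label -/
theorem rc_up (h : upR qa R al l t x y) : rc qa R al l t x y = R l t x y := by
  cases t with
  | zero => rfl
  | succ t => exact rc_of h.1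

theorem upR_oc (h : upR qa R al l t x y) : ocR qa R al l t x y := by
  cases t with
  | zero => trivial
  | succ t => exact h.1

theorem tcR_of (h : upR qa R al l t x y) : tcR qa R en al l t x y = some (en l t x y (R l t x y)) := by
  rw [tcR, if_pos h]

theorem tcR_not (h : ¬ upR qa R al l t x y) : tcR qa R en al l t x y = none := by
  rw [tcR, if_neg h]

theorem tcR_ne : tcR qa R en al l t x y ≠ none ↔ upR qa R al l t x y := by
  constructor
  · intro h
    by_contra hn
    exact h (tcR_not hn)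
  · intro h
    rw [tcR_of h]
    exact Option.some_ne_none _

/-- a component needs an occasion -/
theorem tcR_oc (h : tcR qa R en al l t x y ≠ none) : ocR qa R al l t x y := upR_oc (tcR_ne.1 h)

/-- the recorded value sees the known point `l` through its cell -/
theorem rc_dep (C : Cel qa qb) (hR : DepR qb R) (l : K) (t : ℕ) : ∀ (x : X) (y y' : K → β),
    (∀ j, j ≠ l → y j = y' j) → qb t (y l) = qb t (y' l) → rc qa R al l t x y = rc qa R al l t x y' := by
  classical
  induction t with
  | zero => exact fun x y y' hy hl => hR l 0 x y y' hy hl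
  | succ t ih =>
    intro x y y' hy hl
    have h1 : ∀ x', R l (t + 1) x' y = R l (t + 1) x' y' := fun x' => hR l (t + 1) x' y y' hy hl
    have h2 : ∀ x', rc qa R al l t x' y = rc qa R al l t x' y' := fun x' => ih x' y y' hy (C.rb t _ _ hl)
    unfold rc
    simp only [h1, h2]

theorem oc_iff (C : Cel qa qb) (hR : DepR qb R) (l : K) (t : ℕ) (x x' : X) (y y' : K → β)
    (hy : ∀ j, j ≠ l → y j = y' j) (hx : qa t x = qa t x') (hl : qb t (y l) = qb t (y' l)) :
    ocR qa R al l t x y ↔ ocR qa R al l t x' y' := by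
  cases t with
  | zero => exact Iff.rfl
  | succ t =>
    have h1 : ∀ z, R l (t + 1) z y = R l (t + 1) z y' := fun z => hR l (t + 1) z y y' hy hl
    have h2 : ∀ z, rc qa R al l t z y = rc qa R al l t z y' := fun z => rc_dep C hR l t z y y' hy (C.rb t _ _ hl)
    rw [ocR_succ, ocR_succ, cl_eq hx]
    simp only [h1, h2]

theorem up_iff (C : Cel qa qb) (hR : DepR qb R) (l : K) (t : ℕ) (x : X) (y y' : K → β)
    (hy : ∀ j, j ≠ l → y j = y' j) (hl : qb t (y l) = qb t (y' l)) :
    upR qa R al l t x y ↔ upR qa R al l t x y' := by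
  cases t with
  | zero => exact Iff.rfl
  | succ t =>
    rw [upR_succ, upR_succ, oc_iff C hR l (t + 1) x x y y' hy rfl hl, hR l (t + 1) x y y' hy hl,
      rc_dep C hR l t x y y' hy (C.rb t _ _ hl)]

/-- THE SCRIPTS -/
theorem scrR (C : Cel qa qb) (hR : DepR qb R) (hc : Code qa qb R en de) :
    Scr qa qb (ocR qa R al) (tcR qa R en al) where
  oc := fun l t x x' y y' hy hx hl => oc_iff C hR l t x x' y y' hy hx hl
  tc := fun l t x y y' hy hl => by
    by_cases h : upR qa R al l t x y
    · rw [tcR_of h, tcR_of ((up_iff C hR l t x y y' hy hl).1 h), hc.hen l t x x y y' hy rfl hl, hR l t x y y' hy hl]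
    · rw [tcR_not h, tcR_not fun h' => h ((up_iff C hR l t x y y' hy hl).2 h')]

theorem ocR_cell (hx : qa t x = qa t x') (l : K) (y : K → β) :
    ocR qa R al l t x y ↔ ocR qa R al l t x' y := by
  cases t with
  | zero => exact Iff.rfl
  | succ t => rw [ocR_succ, ocR_succ, cl_eq hx]

/-- WAITING: after the time `t` the fraction of the hidden cell which waits is `< al` -/
theorem wait_lt (hal : 0 < al) (l : K) (t : ℕ) (x : X) (y : K → β) :
    avg (cl (qa t) x) (fun x' => ind (R l t x' y ≠ rc qa R al l t x' y)) < al := by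
  classical
  cases t with
  | zero =>
    rw [avg_ind_zero fun x' _ => fun h => h rfl]
    exact hal
  | succ t =>
    by_cases h : ocR qa R al l (t + 1) x y
    · rw [avg_ind_zero fun x' hx' => ?_]
      · exact hal
      · have h1 : ocR qa R al l (t + 1) x' y := (ocR_cell (mem_cl.1 hx').symm l y).1 h
        rw [rc_of h1]
        exact fun h2 => h2 rfl
    · have h2 : avg (cl (qa (t + 1)) x) (fun x' => ind (R l (t + 1) x' y ≠ rc qa R al l (t + 1) x' y)) =
          avg (cl (qa (t + 1)) x) (fun x' => ind (R l (t + 1) x' y ≠ rc qa R al l t x' y)) := by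
        refine avg_congr' fun x' hx' => ?_
        rw [rc_not fun h1 => h ((ocR_cell (mem_cl.1 hx') l y).1 h1)]
      rw [h2]
      rw [ocR_succ] at h
      exact not_le.1 h

/-- number of changes of the raw label -/
def nch (R : K → ℕ → X → (K → β) → L) (l : K) (T : ℕ) (x : X) (y : K → β) : ℕ :=
  Nz.cn (fun t => R l (t + 1) x y ≠ R l t x y) T

theorem up_wait (l : K) (x : X) (y : K → β) (t : ℕ) :
    Nz.cn (fun s => upR qa R al l (s + 1) x y) t ≤ nch R l t x y ∧ (R l t x y ≠ rc qa R al l t x y →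
      Nz.cn (fun s => upR qa R al l (s + 1) x y) t + 1 ≤ nch R l t x y) := by
  classical
  unfold nch
  induction t with
  | zero =>
    refine ⟨?_, fun h => absurd rfl h⟩
    rw [Nz.cn_zero]
    exact Nat.zero_le _
  | succ t ih =>
    have hm := Nz.cn_mono (fun t => R l (t + 1) x y ≠ R l t x y) (show t ≤ t + 1 by omega)
    by_cases h1 : upR qa R al l (t + 1) x y
    · rw [Nz.cn_succ_of (p := fun s => upR qa R al l (s + 1) x y) h1]
      have h2 : Nz.cn (fun s => upR qa R al l (s + 1) x y) t + 1 ≤ Nz.cn (fun t => R l (t + 1) x y ≠ R l t x y) (t + 1) := by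
        by_cases h4 : R l t x y ≠ rc qa R al l t x y
        · exact (ih.2 h4).trans hm
        · rw [not_not] at h4
          have h5 : R l (t + 1) x y ≠ R l t x y := by
            rw [h4]
            exact h1.2
          rw [Nz.cn_succ_of (p := fun t => R l (t + 1) x y ≠ R l t x y) h5]
          exact Nat.succ_le_succ ih.1
      exact ⟨h2, fun h => absurd (rc_of h1.1).symm h⟩
    · rw [Nz.cn_succ_not (p := fun s => upR qa R al l (s + 1) x y) h1]
      refine ⟨ih.1.trans hm, fun h => ?_⟩
      rw [rc_stay h1] at h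
      by_cases h5 : R l (t + 1) x y ≠ R l t x y
      · rw [Nz.cn_succ_of (p := fun t => R l (t + 1) x y ≠ R l t x y) h5]
        exact Nat.succ_le_succ ih.1
      · rw [not_not] at h5
        rw [h5] at h
        exact (ih.2 h).trans hm

/-- NUMBER OF UPDATES after the time `0`, at every point -/
theorem true_le (l : K) (x : X) (y : K → β) (T : ℕ) :
    Nz.cn (fun s => upR qa R al l (s + 1) x y) T ≤ nch R l T x y := (up_wait l x y T).1

/-- counting from `0` -/
theorem cn_zero_succ (p : ℕ → Prop) (n : ℕ) : Nz.cn p (n + 1) ≤ 1 + Nz.cn (fun s => p (s + 1)) n := by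
  classical
  induction n with
  | zero =>
    rw [Nz.cn_zero]
    by_cases h : p 0
    · rw [Nz.cn_succ_of h, Nz.cn_zero]
    · rw [Nz.cn_succ_not h, Nz.cn_zero]
      omega
  | succ n ih =>
    by_cases h : p (n + 1)
    · rw [Nz.cn_succ_of h, Nz.cn_succ_of (p := fun s => p (s + 1)) h]
      omega
    · rw [Nz.cn_succ_not h, Nz.cn_succ_not (p := fun s => p (s + 1)) h]
      exact ih

/-- NUMBER OF OCCASIONS after the time `0`, mean over the hidden points, for every `y` -/
theorem occ_le (l : K) (y : K → β) (T : ℕ) :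
    al * (∑ t ∈ range T, avg univ (fun x => ind (ocR qa R al l (t + 1) x y))) ≤
      avg univ (fun x => (nch R l T x y : ℝ)) := by
  classical
  have h1 : ∀ t, al * avg univ (fun x => ind (ocR qa R al l (t + 1) x y)) ≤
      avg univ (fun x => ind (upR qa R al l (t + 1) x y)) := by
    intro t
    have h2 : avg univ (fun x => avg (cl (qa (t + 1)) x) fun x' => ind (upR qa R al l (t + 1) x' y)) =
        avg univ (fun x => ind (upR qa R al l (t + 1) x y)) :=
      avg_cell (V := univ) (fun x => cl (qa (t + 1)) x) (fun x => self_cl _ x)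
        (fun v w hv => cl_eq (mem_cl.1 hv)) (fun _ _ => Finset.subset_univ _) _
    rw [← h2, ← avg_const_mul']
    refine avg_mono' fun x _ => ?_
    by_cases h : ocR qa R al l (t + 1) x y
    · rw [ind_of h, mul_one]
      have h0 := h
      rw [ocR_succ] at h0
      refine le_trans h0 (le_of_eq ?_)
      refine avg_congr' fun x' hx' => ?_
      have h3 : ocR qa R al l (t + 1) x' y := (ocR_cell (mem_cl.1 hx').symm l y).1 h
      by_cases h4 : R l (t + 1) x' y ≠ rc qa R al l t x' y
      · rw [ind_of h4, ind_of (show upR qa R al l (t + 1) x' y from ⟨h3, h4⟩)]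
      · rw [ind_not h4, ind_not (show ¬ upR qa R al l (t + 1) x' y from fun h5 => h4 h5.2)]
    · rw [ind_not h, mul_zero]
      exact avg_nonneg' fun _ _ => ind_nonneg _
  rw [Finset.mul_sum]
  refine (Finset.sum_le_sum fun t _ => h1 t).trans ?_
  rw [← avg_sum']
  refine avg_mono' fun x _ => ?_
  rw [← cn_eq_sum (fun t => upR qa R al l (t + 1) x y) T]
  exact_mod_cast true_le l x y T

end round

/-! ## (c) capped scripts -/

section cap

variable {K X β γ φ L : Type}

/-- capped occasions -/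
def ocC (J : ℕ) (oc : K → ℕ → X → (K → β) → Prop) (l : K) (t : ℕ) (x : X) (y : K → β) : Prop :=
  oc l t x y ∧ Nz.cn (fun s => oc l s x y) t < J

open Classical in
/-- capped components -/
def tcC (J n0 : ℕ) (oc : K → ℕ → X → (K → β) → Prop) (tc : K → ℕ → X → (K → β) → Option φ) (l : K) (t : ℕ) (x : X)
    (y : K → β) : Option φ :=
  if ocC J oc l t x y ∧ Nz.cn (fun s => tc l s x y ≠ none) t < n0 then tc l t x y else none

/-- scripts within the caps -/
structure Capd (J n0 : ℕ) (oc : K → ℕ → X → (K → β) → Prop) (tc : K → ℕ → X → (K → β) → Option φ) : Prop where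
  J : ∀ l x y n, Nz.cn (fun s => oc l s x y) n ≤ J
  n : ∀ l x y n, Nz.cn (fun s => tc l s x y ≠ none) n ≤ n0
  o : ∀ l s x y, tc l s x y ≠ none → oc l s x y

/-- overflow -/
def ovfS (J n0 : ℕ) (oc : K → ℕ → X → (K → β) → Prop) (tc : K → ℕ → X → (K → β) → Option φ) (l : K) (t : ℕ) (x : X)
    (y : K → β) : Prop :=
  J < Nz.cn (fun s => oc l s x y) (t + 1) ∨ n0 < Nz.cn (fun s => tc l s x y ≠ none) (t + 1)

variable {qa : ℕ → X → γ} {qb : ℕ → β → γ} {oc : K → ℕ → X → (K → β) → Prop} {tc : K → ℕ → X → (K → β) → Option φ}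
  {J n0 : ℕ}

theorem scrC (C : Cel qa qb) (S : Scr qa qb oc tc) : Scr qa qb (ocC J oc) (tcC J n0 oc tc) := by
  classical
  have h0 : ∀ l t x x' y y', (∀ j, j ≠ l → y j = y' j) → qa t x = qa t x' → qb t (y l) = qb t (y' l) →
      (ocC J oc l t x y ↔ ocC J oc l t x' y') := by
    intro l t x x' y y' hy hx hl
    unfold ocC
    rw [S.oc l t x x' y y' hy hx hl, Nz.cn_congr (q := fun s => oc l s x' y') fun s hs =>
      S.oc l s x x' y y' hy (C.qa_le hs.le hx) (C.qb_le hs.le hl)]
  refine ⟨h0, fun l t x y y' hy hl => ?_⟩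
  have h1 := h0 l t x x y y' hy rfl hl
  have h2 := S.tc l t x y y' hy hl
  have h3 : Nz.cn (fun s => tc l s x y ≠ none) t = Nz.cn (fun s => tc l s x y' ≠ none) t :=
    Nz.cn_congr fun s hs => by rw [S.tc l s x y y' hy (C.qb_le hs.le hl)]
  unfold tcC
  simp only [h1, h2, h3]

theorem tcC_ne {l : K} {t : ℕ} {x : X} {y : K → β} (h : tcC J n0 oc tc l t x y ≠ none) :
    ocC J oc l t x y ∧ Nz.cn (fun s => tc l s x y ≠ none) t < n0 ∧ tc l t x y ≠ none := by
  classical
  unfold tcC at h
  by_cases h1 : ocC J oc l t x y ∧ Nz.cn (fun s => tc l s x y ≠ none) t < n0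
  · rw [if_pos h1] at h
    exact ⟨h1.1, h1.2, h⟩
  · rw [if_neg h1] at h
    exact absurd rfl h

theorem tcC_some {l : K} {t : ℕ} {x : X} {y : K → β} {c : φ} (h : tcC J n0 oc tc l t x y = some c) :
    tc l t x y = some c := by
  classical
  unfold tcC at h
  by_cases h1 : ocC J oc l t x y ∧ Nz.cn (fun s => tc l s x y ≠ none) t < n0
  · rw [if_pos h1] at h
    exact h
  · rw [if_neg h1] at h
    exact absurd h.symm (Option.some_ne_none c)

theorem capC : Capd J n0 (ocC J oc) (tcC J n0 oc tc) where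
  J := fun l x y n => Nz.card_cn_lt (fun s => oc l s x y) J n
  n := fun l x y n => by
    refine (Nz.cn_le_of_imp fun s _ hs => ?_).trans (Nz.card_cn_lt (fun s => tc l s x y ≠ none) n0 n)
    exact ⟨(tcC_ne hs).2.2, (tcC_ne hs).2.1⟩
  o := fun l s x y h => (tcC_ne h).1

/-- no overflow: the capped components are the components -/
theorem tcC_eq (ho : ∀ l s x y, tc l s x y ≠ none → oc l s x y) {l : K} {t : ℕ} {x : X} {y : K → β}
    (h : ¬ ovfS J n0 oc tc l t x y) {s : ℕ} (hs : s ≤ t) : tcC J n0 oc tc l s x y = tc l s x y := by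
  classical
  unfold ovfS at h
  push Not at h
  by_cases h1 : tc l s x y = none
  · unfold tcC
    rw [h1]
    split_ifs <;> rfl
  · have h2 := ho l s x y h1
    have h3 := Nz.cn_succ_of (p := fun s => oc l s x y) h2
    have h4 := Nz.cn_mono (fun s => oc l s x y) (show s + 1 ≤ t + 1 by omega)
    have h5 := Nz.cn_succ_of (p := fun s => tc l s x y ≠ none) h1
    have h6 := Nz.cn_mono (fun s => tc l s x y ≠ none) (show s + 1 ≤ t + 1 by omega)
    unfold tcC
    rw [if_pos]
    exact ⟨⟨h2, by omega⟩, by omega⟩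

theorem ovfS_mono {l : K} {s t : ℕ} (hs : s ≤ t) {x : X} {y : K → β} (h : ovfS J n0 oc tc l s x y) :
    ovfS J n0 oc tc l t x y := by
  rcases h with h | h
  · exact Or.inl (h.trans_le (Nz.cn_mono _ (by omega)))
  · exact Or.inr (h.trans_le (Nz.cn_mono _ (by omega)))

variable [Fintype X] {R : K → ℕ → X → (K → β) → L} {en : K → ℕ → X → (K → β) → L → φ}
  {de : K → ℕ → X → (K → β) → φ → L} {al : ℝ}

/-- MASS OF THE OVERFLOW of one label, for every `y` -/
theorem ovf_le [Nonempty X] (hal : 0 < al) (hJ : 0 < J) (hn : 0 < n0) (l : K) (T : ℕ) (y : K → β) :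
    avg univ (fun x => ind (ovfS J n0 (ocR qa R al) (tcR qa R en al) l T x y)) ≤
      (1 + avg univ (fun x => (nch R l T x y : ℝ)) / al) / J + (1 + avg univ (fun x => (nch R l T x y : ℝ))) / n0 := by
  classical
  have hJ' : (0 : ℝ) < J := Nat.cast_pos.mpr hJ
  have hn' : (0 : ℝ) < n0 := Nat.cast_pos.mpr hn
  have hne : (univ : Finset X).Nonempty := Finset.univ_nonempty
  have h1 : ∀ x, ind (ovfS J n0 (ocR qa R al) (tcR qa R en al) l T x y) ≤
      (1 + ∑ t ∈ range T, ind (ocR qa R al l (t + 1) x y)) / J + (1 + (nch R l T x y : ℝ)) / n0 := by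
    intro x
    have a0 : (0 : ℝ) ≤ (1 + ∑ t ∈ range T, ind (ocR qa R al l (t + 1) x y)) / J :=
      div_nonneg (add_nonneg zero_le_one (Finset.sum_nonneg fun _ _ => ind_nonneg _)) hJ'.le
    have b0 : (0 : ℝ) ≤ (1 + (nch R l T x y : ℝ)) / n0 := by positivity
    by_cases h : ovfS J n0 (ocR qa R al) (tcR qa R en al) l T x y
    · rw [ind_of h]
      rcases h with h | h
      · have h2 := h.trans_le (cn_zero_succ (fun s => ocR qa R al l s x y) T)
        have h3 : (J : ℝ) < 1 + (Nz.cn (fun s => ocR qa R al l (s + 1) x y) T : ℝ) := by exact_mod_cast h2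
        rw [cn_eq_sum] at h3
        have h4 : (1 : ℝ) ≤ (1 + ∑ t ∈ range T, ind (ocR qa R al l (t + 1) x y)) / J := by
          rw [le_div_iff₀ hJ', one_mul]
          exact h3.le
        linarith
      · have h2 := h.trans_le (cn_zero_succ (fun s => tcR qa R en al l s x y ≠ none) T)
        have e0 : Nz.cn (fun s => tcR qa R en al l (s + 1) x y ≠ none) T =
            Nz.cn (fun s => upR qa R al l (s + 1) x y) T := Nz.cn_congr fun s _ => tcR_ne
        rw [e0] at h2
        have h2' := h2.trans_le (Nat.add_le_add_left (true_le (qa := qa) (R := R) (al := al) l x y T) 1)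
        have h3 : (n0 : ℝ) < 1 + (nch R l T x y : ℝ) := by exact_mod_cast h2'
        have h4 : (1 : ℝ) ≤ (1 + (nch R l T x y : ℝ)) / n0 := by
          rw [le_div_iff₀ hn', one_mul]
          exact h3.le
        linarith
    · rw [ind_not h]
      linarith
  refine (avg_mono' fun x _ => h1 x).trans ?_
  rw [avg_add']
  have e1 : avg univ (fun x => (1 + ∑ t ∈ range T, ind (ocR qa R al l (t + 1) x y)) / (J : ℝ)) =
      (1 + ∑ t ∈ range T, avg univ (fun x => ind (ocR qa R al l (t + 1) x y))) / J := by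
    have : (fun x => (1 + ∑ t ∈ range T, ind (ocR qa R al l (t + 1) x y)) / (J : ℝ)) =
        fun x => (1 + ∑ t ∈ range T, ind (ocR qa R al l (t + 1) x y)) * (1 / (J : ℝ)) := funext fun x => by
      rw [mul_one_div]
    rw [this, avg_mul_const', avg_add', avg_const' hne, avg_sum', mul_one_div]
  have e2 : avg univ (fun x => (1 + (nch R l T x y : ℝ)) / (n0 : ℝ)) =
      (1 + avg univ (fun x => (nch R l T x y : ℝ))) / n0 := by
    have : (fun x => (1 + (nch R l T x y : ℝ)) / (n0 : ℝ)) =
        fun x => (1 + (nch R l T x y : ℝ)) * (1 / (n0 : ℝ)) := funext fun x => by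
      rw [mul_one_div]
    rw [this, avg_mul_const', avg_add', avg_const' hne, mul_one_div]
  rw [e1, e2]
  have h5 := occ_le (qa := qa) (R := R) (al := al) l y T
  have h6 : ∑ t ∈ range T, avg univ (fun x => ind (ocR qa R al l (t + 1) x y)) ≤
      avg univ (fun x => (nch R l T x y : ℝ)) / al := by
    rw [le_div_iff₀ hal, mul_comm]
    exact h5
  have h7 : (1 + ∑ t ∈ range T, avg univ (fun x => ind (ocR qa R al l (t + 1) x y))) / (J : ℝ) ≤
      (1 + avg univ (fun x => (nch R l T x y : ℝ)) / al) / J :=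
    div_le_div_of_nonneg_right (by linarith) hJ'.le
  linarith

end cap

/-! ## (e) the noise of one label -/

section noise

variable {φ : Type} [Fintype φ] {N Rz J n0 : ℕ}

/-- the label without noise -/
def scf (N : ℕ) (tc : ℕ → Option φ) (t : ℕ) : Fin (N + 1) → Option φ := fun s => if s.val ≤ t then tc s.val else none

/-- without a strike the label is the script -/
theorem lab_scf {oc : ℕ → Prop} {tc : ℕ → Option φ} {t : ℕ} (ht : t ≤ N) (ho : ∀ s, tc s ≠ none → oc s)
    (hJ : Nz.cn oc (t + 1) ≤ J) (hn : Nz.cn (fun s => tc s ≠ none) (t + 1) ≤ n0) {ν : Fin (N + 1) → Nz.Ns Rz φ}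
    (h : ¬ ∃ s : Fin (N + 1), (oc s.val ∧ Nz.cn oc s.val < J) ∧ (ν s).1 = 0) :
    Nz.lab Rz J n0 oc tc t ν = scf N tc t := by
  funext s
  unfold Nz.lab scf
  by_cases hs : s.val ≤ t
  · rw [if_pos hs, if_pos hs]
    refine Nz.pub_eq (fun s _ => ho s) hJ hn (fun r hr hr1 hr2 hr3 => h ?_) s.val hs
    have hrN : r < N + 1 := by omega
    refine ⟨⟨r, hrN⟩, ⟨hr1, hr2⟩, ?_⟩
    have h1 : Nz.sq ν r = ν ⟨r, hrN⟩ := by
      unfold Nz.sq
      rw [dif_pos hrN]
    rw [← h1]
    exact hr3
  · rw [if_neg hs, if_neg hs]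

/-- kernel of the script -/
theorem kr_ge {oc : ℕ → Prop} {tc : ℕ → Option φ} {t : ℕ} (ht : t ≤ N) (ho : ∀ s, tc s ≠ none → oc s)
    (hJ : Nz.cn oc (t + 1) ≤ J) (hn : Nz.cn (fun s => tc s ≠ none) (t + 1) ≤ n0) :
    1 - (J : ℝ) / (Rz + 1) ≤ Nz.kr Rz J n0 oc tc t (scf N tc t) := by
  have h1 := Nz.strike_le (R := Rz) (J := J) (φ := φ) (N := N) oc
  have h2 := (FP.unif (Fin (N + 1) → Nz.Ns Rz φ)).Pr_not
    (fun ν => ∃ s : Fin (N + 1), (oc s.val ∧ Nz.cn oc s.val < J) ∧ (ν s).1 = 0)
  have h3 : (FP.unif (Fin (N + 1) → Nz.Ns Rz φ)).Pr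
      (fun ν => ¬ ∃ s : Fin (N + 1), (oc s.val ∧ Nz.cn oc s.val < J) ∧ (ν s).1 = 0) ≤
      Nz.kr Rz J n0 oc tc t (scf N tc t) := by
    unfold Nz.kr
    exact FP.Pr_mono _ fun ν _ hν => lab_scf ht ho hJ hn hν
  linarith

/-- means of functions of the label -/
theorem kr_sum_le {oc : ℕ → Prop} {tc : ℕ → Option φ} {t : ℕ} (ht : t ≤ N) (ho : ∀ s, tc s ≠ none → oc s)
    (hJ : Nz.cn oc (t + 1) ≤ J) (hn : Nz.cn (fun s => tc s ≠ none) (t + 1) ≤ n0)
    {g : (Fin (N + 1) → Option φ) → ℝ} (g0 : ∀ F, 0 ≤ g F) (g1 : ∀ F, g F ≤ 1) :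
    ∑ F, Nz.kr Rz J n0 oc tc t F * g F ≤ g (scf N tc t) + (J : ℝ) / (Rz + 1) := by
  rw [Nz.sum_kr]
  have h1 := Nz.strike_le (R := Rz) (J := J) (φ := φ) (N := N) oc
  have h2 : (FP.unif (Fin (N + 1) → Nz.Ns Rz φ)).E (fun ν => g (Nz.lab Rz J n0 oc tc t ν)) ≤
      (FP.unif (Fin (N + 1) → Nz.Ns Rz φ)).E (fun ν => g (scf N tc t) +
        ind (∃ s : Fin (N + 1), (oc s.val ∧ Nz.cn oc s.val < J) ∧ (ν s).1 = 0)) := by
    refine FP.E_mono _ fun ν _ => ?_
    by_cases h : ∃ s : Fin (N + 1), (oc s.val ∧ Nz.cn oc s.val < J) ∧ (ν s).1 = 0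
    · rw [ind_of h]
      have := g0 (scf N tc t)
      have := g1 (Nz.lab Rz J n0 oc tc t ν)
      linarith
    · rw [ind_not h, add_zero, lab_scf ht ho hJ hn h]
  rw [FP.E_add, FP.E_const] at h2
  unfold FP.Pr at h1
  linarith

/-- kernel of a value -/
theorem kr_le {oc : ℕ → Prop} {tc : ℕ → Option φ} {t : ℕ} (ht : t ≤ N) (ho : ∀ s, tc s ≠ none → oc s)
    (hJ : Nz.cn oc (t + 1) ≤ J) (hn : Nz.cn (fun s => tc s ≠ none) (t + 1) ≤ n0) (F : Fin (N + 1) → Option φ) :
    Nz.kr Rz J n0 oc tc t F ≤ ind (scf N tc t = F) + (J : ℝ) / (Rz + 1) := by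
  classical
  have h1 := kr_sum_le (Rz := Rz) ht ho hJ hn (g := fun F' => ind (F' = F)) (fun _ => ind_nonneg _) (fun _ => ind_le_one _)
  refine le_trans ?_ h1
  have h2 : Nz.kr Rz J n0 oc tc t F = Nz.kr Rz J n0 oc tc t F * ind (F = F) := by rw [ind_of rfl, mul_one]
  rw [h2]
  exact Finset.single_le_sum (f := fun F' => Nz.kr Rz J n0 oc tc t F' * ind (F' = F))
    (fun F' _ => mul_nonneg (Nz.kr_nn _ _) (ind_nonneg _)) (Finset.mem_univ F)

theorem prod_ge {K : Type} [Fintype K] {a : K → ℝ} {e : ℝ} (he0 : 0 ≤ e) (h1 : ∀ l, a l ≤ 1) (h0 : ∀ l, 0 ≤ a l)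
    (h : ∀ l, 1 - e ≤ a l) : 1 - Fintype.card K * e ≤ ∏ l, a l := by
  classical
  have key : ∀ s : Finset K, 1 - s.card * e ≤ ∏ l ∈ s, a l := by
    intro s
    induction s using Finset.induction_on with
    | empty => simp
    | insert b s hb ih =>
      rw [Finset.prod_insert hb, Finset.card_insert_of_notMem hb]
      have h2 : ∏ l ∈ s, a l ≤ 1 := Finset.prod_le_one (fun l _ => h0 l) (fun l _ => h1 l)
      have h3 : 0 ≤ ∏ l ∈ s, a l := Finset.prod_nonneg fun l _ => h0 l
      have h4 := h b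
      push_cast
      nlinarith [h0 b, h1 b]
  have h2 := key univ
  rw [Finset.card_univ] at h2
  exact h2

end noise

/-! ## (d) decoded values -/

section dec

variable {K X β γ φ L : Type} {N : ℕ}

open Classical in
/-- all values decoded from the label `F` up to the time `t` -/
def dec (de : K → ℕ → X → (K → β) → φ → L) (l : K) (t : ℕ) (x : X) (y : K → β) (F : Fin (N + 1) → Option φ) :
    Finset L :=
  (range (t + 1)).biUnion fun s => (Nz.sF F s).elim ∅ fun c => {de l s x y c}

theorem mem_dec {de : K → ℕ → X → (K → β) → φ → L} {l : K} {t : ℕ} {x : X} {y : K → β}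
    {F : Fin (N + 1) → Option φ} {a : L} :
    a ∈ dec de l t x y F ↔ ∃ s ≤ t, ∃ c, Nz.sF F s = some c ∧ de l s x y c = a := by
  classical
  unfold dec
  rw [Finset.mem_biUnion]
  constructor
  · rintro ⟨s, hs, h⟩
    cases hc : Nz.sF F s with
    | none =>
      rw [hc] at h
      exact absurd h (Finset.notMem_empty a)
    | some c =>
      rw [hc] at h
      exact ⟨s, Nat.lt_succ_iff.1 (Finset.mem_range.1 hs), c, hc, (Finset.mem_singleton.1 h).symm⟩
  · rintro ⟨s, hs, c, hc, h⟩
    refine ⟨s, Finset.mem_range.2 (by omega), ?_⟩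
    rw [hc]
    exact Finset.mem_singleton.2 h.symm

variable {qa : ℕ → X → γ} {qb : ℕ → β → γ} {R : K → ℕ → X → (K → β) → L} {en : K → ℕ → X → (K → β) → L → φ}
  {de : K → ℕ → X → (K → β) → φ → L} {al : ℝ} {J n0 : ℕ}

/-- the decoder is a function of the node of the label -/
theorem dec_node [Fintype X] (C : Cel qa qb) (hc : Code qa qb R en de) {l : K} {t : ℕ} {x x' : X} {y y' : K → β}
    (hy : ∀ j, j ≠ l → y j = y' j) (hx : qa t x = qa t x') (hl : qb t (y l) = qb t (y' l))
    (F : Fin (N + 1) → Option φ) : dec de l t x y F = dec de l t x' y' F := by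
  ext a
  rw [mem_dec, mem_dec]
  refine exists_congr fun s => and_congr_right fun hs => exists_congr fun c => and_congr_right fun _ => ?_
  rw [hc.hde l s x x' y y' hy (C.qa_le hs hx) (C.qb_le hs hl)]

open Classical in
/-- all recorded values up to the time `t` -/
def vals [Fintype X] (qa : ℕ → X → γ) (R : K → ℕ → X → (K → β) → L) (al : ℝ) (l : K) (t : ℕ) (x : X) (y : K → β) :
    Finset L := (range (t + 1)).image fun s => rc qa R al l s x y

theorem mem_vals [Fintype X] {l : K} {t : ℕ} {x : X} {y : K → β} {a : L} :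
    a ∈ vals qa R al l t x y ↔ ∃ s ≤ t, rc qa R al l s x y = a := by
  classical
  unfold vals
  rw [Finset.mem_image]
  constructor
  · rintro ⟨s, hs, h⟩
    exact ⟨s, Nat.lt_succ_iff.1 (Finset.mem_range.1 hs), h⟩
  · rintro ⟨s, hs, h⟩
    exact ⟨s, Finset.mem_range.2 (by omega), h⟩

/-- every recorded value is recorded at an update -/
theorem vals_up [Fintype X] {l : K} {t : ℕ} {x : X} {y : K → β} {a : L} (h : a ∈ vals qa R al l t x y) :
    ∃ s ≤ t, upR qa R al l s x y ∧ R l s x y = a := by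
  obtain ⟨s, hs, rfl⟩ := mem_vals.1 h
  clear h
  induction s with
  | zero => exact ⟨0, hs, trivial, rfl⟩
  | succ s ih =>
    by_cases h1 : upR qa R al l (s + 1) x y
    · exact ⟨s + 1, hs, h1, (rc_up h1).symm⟩
    · obtain ⟨r, hr, h2, h3⟩ := ih (by omega)
      refine ⟨r, hr, h2, ?_⟩
      rw [h3, rc_stay h1]

/-- NUMBER OF RECORDED VALUES -/
theorem vals_card [Fintype X] (l : K) (t : ℕ) (x : X) (y : K → β) :
    (vals qa R al l t x y).card ≤ Nz.cn (fun s => upR qa R al l s x y) (t + 1) := by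
  classical
  unfold Nz.cn
  refine le_trans (Finset.card_le_card (t := ((range (t + 1)).filter fun s => upR qa R al l s x y).image
    fun s => R l s x y) fun a ha => ?_) Finset.card_image_le
  obtain ⟨s, hs, h1, h2⟩ := vals_up ha
  exact Finset.mem_image.2 ⟨s, Finset.mem_filter.2 ⟨Finset.mem_range.2 (by omega), h1⟩, h2⟩

theorem vals_card_le [Fintype X] {l : K} {t : ℕ} {x : X} {y : K → β}
    (h : ¬ ovfS J n0 (ocR qa R al) (tcR qa R en al) l t x y) : (vals qa R al l t x y).card ≤ n0 := by
  refine (vals_card l t x y).trans ?_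
  unfold ovfS at h
  push Not at h
  refine le_trans (le_of_eq ?_) h.2
  exact Nz.cn_congr fun s _ => (tcR_ne (en := en)).symm

/-- the labels without noise -/
def scF (N : ℕ) (tc : K → ℕ → X → (K → β) → Option φ) (t : ℕ) (x : X) (y : K → β) (l : K) : Fin (N + 1) → Option φ :=
  scf N (fun s => tc l s x y) t

theorem sF_scF {tc : K → ℕ → X → (K → β) → Option φ} {l : K} {t : ℕ} (ht : t ≤ N) {x : X} {y : K → β} {s : ℕ}
    (hs : s ≤ t) : Nz.sF (scF N tc t x y l) s = tc l s x y := by
  unfold Nz.sF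
  rw [dif_pos (by omega)]
  unfold scF scf
  rw [if_pos hs]

/-- cumulative -/
theorem rst_scF {tc : K → ℕ → X → (K → β) → Option φ} (t : ℕ) (x : X) (y : K → β) (l : K) :
    rst t (scF N tc (t + 1) x y l) = scF N tc t x y l := by
  funext s
  unfold rst scF scf
  by_cases h : s.val ≤ t
  · rw [if_pos h, if_pos h, if_pos (by omega)]
  · rw [if_neg h, if_neg h]

/-- the decoded values of the capped script are recorded values, at every point -/
theorem dec_sub [Fintype X] (hc : Code qa qb R en de) {l : K} {t : ℕ} (ht : t ≤ N) {x : X} {y : K → β} :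
    dec de l t x y (scF N (tcC J n0 (ocR qa R al) (tcR qa R en al)) t x y l) ⊆ vals qa R al l t x y := by
  intro a ha
  obtain ⟨s, hs, c, h1, h2⟩ := mem_dec.1 ha
  rw [sF_scF ht hs] at h1
  have h3 := tcC_some h1
  have h4 : upR qa R al l s x y := (tcR_ne (en := en)).1 (by rw [h3]; exact Option.some_ne_none c)
  rw [tcR_of h4] at h3
  have h5 : en l s x y (R l s x y) = c := Option.some_injective _ h3
  rw [← h5, hc.inv] at h2
  exact mem_vals.2 ⟨s, hs, (rc_up h4).trans h2⟩

/-- off the overflow: all recorded values -/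
theorem dec_eq [Fintype X] (hc : Code qa qb R en de) {l : K} {t : ℕ} (ht : t ≤ N) {x : X} {y : K → β}
    (h : ¬ ovfS J n0 (ocR qa R al) (tcR qa R en al) l t x y) :
    dec de l t x y (scF N (tcC J n0 (ocR qa R al) (tcR qa R en al)) t x y l) = vals qa R al l t x y := by
  refine Finset.Subset.antisymm (dec_sub hc ht) fun a ha => ?_
  obtain ⟨s, hs, h1, h2⟩ := vals_up ha
  refine mem_dec.2 ⟨s, hs, en l s x y (R l s x y), ?_, ?_⟩
  · rw [sF_scF ht hs, tcC_eq (fun l s x y => tcR_oc) h hs, tcR_of h1]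
  · rw [hc.inv, h2]

open Classical in
/-- the last component with its time -/
def lvt (f : ℕ → Option φ) : ℕ → Option (ℕ × φ)
  | 0 => (f 0).map fun c => (0, c)
  | t + 1 => if f (t + 1) = none then lvt f t else (f (t + 1)).map fun c => (t + 1, c)

/-- the last decoded value -/
def dlast (de : K → ℕ → X → (K → β) → φ → L) (l : K) (t : ℕ) (x : X) (y : K → β) (F : Fin (N + 1) → Option φ) :
    Option L := (lvt (Nz.sF F) t).map fun p => de l p.1 x y p.2

theorem lvt_congr {f g : ℕ → Option φ} {t : ℕ} (h : ∀ s ≤ t, f s = g s) : lvt f t = lvt g t := by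
  classical
  induction t with
  | zero =>
    show (f 0).map _ = (g 0).map _
    rw [h 0 le_rfl]
  | succ t ih =>
    rw [lvt, lvt, h (t + 1) le_rfl, ih fun s hs => h s (by omega)]

theorem lvt_le {f : ℕ → Option φ} {t : ℕ} {p : ℕ × φ} (h : lvt f t = some p) : p.1 ≤ t ∧ f p.1 = some p.2 := by
  classical
  induction t with
  | zero =>
    have h1 : (f 0).map (fun c => ((0 : ℕ), c)) = some p := h
    cases hc : f 0 with
    | none => rw [hc] at h1; exact absurd h1.symm (Option.some_ne_none p)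
    | some c =>
      rw [hc] at h1
      have h2 : ((0 : ℕ), c) = p := Option.some_injective _ h1
      rw [← h2]
      exact ⟨le_rfl, hc⟩
  | succ t ih =>
    rw [lvt] at h
    by_cases h1 : f (t + 1) = none
    · rw [if_pos h1] at h
      exact ⟨(ih h).1.trans (Nat.le_succ t), (ih h).2⟩
    · rw [if_neg h1] at h
      cases hc : f (t + 1) with
      | none => exact absurd hc h1
      | some c =>
        rw [hc] at h
        have h2 : (t + 1, c) = p := Option.some_injective _ h
        rw [← h2]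
        exact ⟨le_rfl, hc⟩

/-- the last decoded value is a function of the node of the label -/
theorem dlast_node [Fintype X] (C : Cel qa qb) (hc : Code qa qb R en de) {l : K} {t : ℕ} {x x' : X} {y y' : K → β}
    (hy : ∀ j, j ≠ l → y j = y' j) (hx : qa t x = qa t x') (hl : qb t (y l) = qb t (y' l))
    (F : Fin (N + 1) → Option φ) : dlast de l t x y F = dlast de l t x' y' F := by
  unfold dlast
  cases h : lvt (Nz.sF F) t with
  | none => rfl
  | some p =>
    have h1 := (lvt_le h).1
    show some (de l p.1 x y p.2) = some (de l p.1 x' y' p.2)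
    rw [hc.hde l p.1 x x' y y' hy (C.qa_le h1 hx) (C.qb_le h1 hl)]

theorem lvt_tcR [Fintype X] (hc : Code qa qb R en de) (l : K) (x : X) (y : K → β) (t : ℕ) :
    (lvt (fun s => tcR qa R en al l s x y) t).map (fun p => de l p.1 x y p.2) = some (rc qa R al l t x y) := by
  classical
  induction t with
  | zero =>
    have h1 : tcR qa R en al l 0 x y = some (en l 0 x y (R l 0 x y)) := tcR_of trivial
    show ((tcR qa R en al l 0 x y).map fun c => ((0 : ℕ), c)).map _ = _
    rw [h1]
    show some (de l 0 x y (en l 0 x y (R l 0 x y))) = _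
    rw [hc.inv]
    rfl
  | succ t ih =>
    rw [lvt]
    by_cases h : upR qa R al l (t + 1) x y
    · rw [tcR_of h, if_neg (Option.some_ne_none _)]
      show some (de l (t + 1) x y (en l (t + 1) x y (R l (t + 1) x y))) = _
      rw [hc.inv, rc_up h]
    · rw [if_pos (tcR_not h), ih, rc_stay h]

/-- off the overflow the last decoded value is the recorded value -/
theorem dlast_eq [Fintype X] (hc : Code qa qb R en de) {l : K} {t : ℕ} (ht : t ≤ N) {x : X} {y : K → β}
    (h : ¬ ovfS J n0 (ocR qa R al) (tcR qa R en al) l t x y) :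
    dlast de l t x y (scF N (tcC J n0 (ocR qa R al) (tcR qa R en al)) t x y l) = some (rc qa R al l t x y) := by
  rw [← lvt_tcR hc l x y t]
  unfold dlast
  rw [lvt_congr fun s hs => (sF_scF ht hs).trans (tcC_eq (fun l s x y => tcR_oc) h hs)]

end dec

/-! ## (e) the law with noise -/

section det

variable {K X β γ φ : Type} [Fintype K] [DecidableEq K] [Fintype X] [Fintype β] [Fintype φ] [Nonempty X] [Nonempty β]
  {N Rz J n0 : ℕ} {qa : ℕ → X → γ} {qb : ℕ → β → γ} {oc : K → ℕ → X → (K → β) → Prop}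
  {tc : K → ℕ → X → (K → β) → Option φ}

variable {al : ℝ}

/-- kernel of the label without noise -/
theorem kf_ge (C : Cel qa qb) (S : Scr qa qb oc tc) (hc : Capd J n0 oc tc) {t : ℕ} (ht : t ≤ N) (l : K) (x : X)
    (y : K → β) : 1 - (J : ℝ) / (Rz + 1) ≤ (datS Rz J n0 N C S).kf t l x y (scF N tc t x y l) :=
  kr_ge ht (fun s hs => hc.o l s x y hs) (hc.J l x y (t + 1)) (hc.n l x y (t + 1))

/-- MEANS OVER THE NOISE -/
theorem sum_le (C : Cel qa qb) (S : Scr qa qb oc tc) (hc : Capd J n0 oc tc) {t : ℕ} (ht : t ≤ N) (l : K) (x : X)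
    (y : K → β) {g : (Fin (N + 1) → Option φ) → ℝ} (g0 : ∀ F, 0 ≤ g F) (g1 : ∀ F, g F ≤ 1) :
    ∑ F, (datS Rz J n0 N C S).kf t l x y F * g F ≤ g (scF N tc t x y l) + (J : ℝ) / (Rz + 1) :=
  kr_sum_le ht (fun s hs => hc.o l s x y hs) (hc.J l x y (t + 1)) (hc.n l x y (t + 1)) g0 g1

/-- NO NOISE: every event of the law with noise -/
theorem det_le (C : Cel qa qb) (S : Scr qa qb oc tc) (hc : Capd J n0 oc tc) {t : ℕ} (ht : t ≤ N)
    (h : (datS Rz J n0 N C S).Thick al) (A : Harm.Pt K X β (Fin (N + 1) → Option φ) → Prop) :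
    Harm.EV (fun x y => ind (A (x, y, scF N tc t x y))) * (1 - Fintype.card K * ((J : ℝ) / (Rz + 1))) ≤
      ((datS Rz J n0 N C S).P h t).Pr A := by
  classical
  have h0 : (0 : ℝ) ≤ (J : ℝ) / (Rz + 1) := by positivity
  have hX : (0 : ℝ) < Fintype.card X := by exact_mod_cast Fintype.card_pos
  have hB : (0 : ℝ) < (Fintype.card β : ℝ) ^ Fintype.card K :=
    pow_pos (by exact_mod_cast Fintype.card_pos) _
  -- the probability as a sum
  have e1 : ((datS Rz J n0 N C S).P h t).Pr A = (∑ x : X, ∑ y : K → β, ∑ F : K → Fin (N + 1) → Option φ,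
      (∏ l, (datS Rz J n0 N C S).kf t l x y (F l)) * ind (A (x, y, F))) /
        (Fintype.card X * (Fintype.card β : ℝ) ^ Fintype.card K) := by
    unfold FP.Pr FP.E
    rw [Fintype.sum_prod_type, Finset.sum_div]
    refine Finset.sum_congr rfl fun x _ => ?_
    rw [Fintype.sum_prod_type, Finset.sum_div]
    refine Finset.sum_congr rfl fun y _ => ?_
    rw [Finset.sum_div]
    refine Finset.sum_congr rfl fun F _ => ?_
    show (∏ l, (datS Rz J n0 N C S).kf t l x y (F l)) / _ * _ = _
    rw [div_mul_eq_mul_div]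
  have e2 : Harm.EV (fun x y => ind (A (x, y, scF N tc t x y))) * (1 - Fintype.card K * ((J : ℝ) / (Rz + 1))) =
      (∑ x : X, ∑ y : K → β, ind (A (x, y, scF N tc t x y)) * (1 - Fintype.card K * ((J : ℝ) / (Rz + 1)))) /
        (Fintype.card X * (Fintype.card β : ℝ) ^ Fintype.card K) := by
    unfold Harm.EV avg
    rw [Finset.card_univ, Finset.card_univ, Fintype.card_fun]
    push_cast
    rw [← Finset.sum_div, div_div, mul_comm ((Fintype.card β : ℝ) ^ Fintype.card K), div_mul_eq_mul_div, Finset.sum_mul]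
    congr 1
    refine Finset.sum_congr rfl fun x _ => ?_
    rw [Finset.sum_mul]
  rw [e1, e2]
  refine div_le_div_of_nonneg_right ?_ (mul_pos hX hB).le
  refine Finset.sum_le_sum fun x _ => Finset.sum_le_sum fun y _ => ?_
  have h2 : (∏ l, (datS Rz J n0 N C S).kf t l x y (scF N tc t x y l)) * ind (A (x, y, scF N tc t x y)) ≤
      ∑ F : K → Fin (N + 1) → Option φ, (∏ l, (datS Rz J n0 N C S).kf t l x y (F l)) * ind (A (x, y, F)) :=
    Finset.single_le_sum (f := fun F : K → Fin (N + 1) → Option φ =>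
      (∏ l, (datS Rz J n0 N C S).kf t l x y (F l)) * ind (A (x, y, F)))
      (fun F _ => mul_nonneg (Finset.prod_nonneg fun l _ => h.nn t l x y (F l)) (ind_nonneg _))
      (Finset.mem_univ (scF N tc t x y))
  refine le_trans ?_ h2
  rw [mul_comm]
  refine mul_le_mul_of_nonneg_right ?_ (ind_nonneg _)
  exact prod_ge h0 (fun l => FP.Pr_le_one _ _) (fun l => h.nn t l x y _) fun l => kf_ge C S hc ht l x y

/-- density of a label on a class, from above -/
theorem pL_le (C : Cel qa qb) (S : Scr qa qb oc tc) (hc : Capd J n0 oc tc) {t : ℕ} (ht : t ≤ N) (l : K) (y : K → β)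
    (F : Fin (N + 1) → Option φ) {V : Finset X} (hV : V.Nonempty) :
    avg V (fun x => (datS Rz J n0 N C S).kf t l x y F) ≤
      avg V (fun x => ind (scF N tc t x y l = F)) + (J : ℝ) / (Rz + 1) := by
  rw [← avg_const' hV ((J : ℝ) / (Rz + 1)), ← avg_add']
  exact avg_mono' fun x _ => kr_le ht (fun s hs => hc.o l s x y hs) (hc.J l x y (t + 1)) (hc.n l x y (t + 1)) F

/-- density of a label on a class, from below -/
theorem pL_ge (C : Cel qa qb) (S : Scr qa qb oc tc) (hc : Capd J n0 oc tc) {t : ℕ} (ht : t ≤ N) (l : K) (y : K → β)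
    (F : Fin (N + 1) → Option φ) (V : Finset X) :
    avg V (fun x => ind (scF N tc t x y l = F)) * (1 - (J : ℝ) / (Rz + 1)) ≤
      avg V (fun x => (datS Rz J n0 N C S).kf t l x y F) := by
  rw [← avg_mul_const']
  refine avg_mono' fun x _ => ?_
  by_cases h : scF N tc t x y l = F
  · rw [ind_of h, one_mul, ← h]
    exact kf_ge C S hc ht l x y
  · rw [ind_not h, zero_mul]
    exact Nz.kr_nn _ _

/-- density of all labels on a class, from below -/
theorem pA_ge (C : Cel qa qb) (S : Scr qa qb oc tc) (hc : Capd J n0 oc tc) {t : ℕ} (ht : t ≤ N) (y : K → β)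
    (F : K → Fin (N + 1) → Option φ) (V : Finset X) :
    avg V (fun x => ind (scF N tc t x y = F)) * (1 - Fintype.card K * ((J : ℝ) / (Rz + 1))) ≤
      avg V (fun x => ∏ l, (datS Rz J n0 N C S).kf t l x y (F l)) := by
  have h0 : (0 : ℝ) ≤ (J : ℝ) / (Rz + 1) := by positivity
  rw [← avg_mul_const']
  refine avg_mono' fun x _ => ?_
  by_cases h : scF N tc t x y = F
  · rw [ind_of h, one_mul, ← h]
    exact prod_ge h0 (fun l => FP.Pr_le_one _ _) (fun l => Nz.kr_nn _ _) fun l => kf_ge C S hc ht l x y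
  · rw [ind_not h, zero_mul]
    exact Finset.prod_nonneg fun l _ => Nz.kr_nn _ _

variable {L : Type} {R : K → ℕ → X → (K → β) → L} {en : K → ℕ → X → (K → β) → L → φ}
  {de : K → ℕ → X → (K → β) → φ → L}

/-- MEMBERSHIP: the values decoded from the noisy label, at every point -/
theorem mem_le (C : Cel qa qb) (hR : DepR qb R) (hk : Code qa qb R en de) {t : ℕ} (ht : t ≤ N) (l : K) (x : X)
    (y : K → β) (Q : L → Prop) :
    ∑ F, (datS Rz J n0 N C (scrC (J := J) (n0 := n0) C (scrR (al := al) C hR hk))).kf t l x y F *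
        ind (∃ a ∈ dec de l t x y F, Q a) ≤
      ind (∃ a ∈ vals qa R al l t x y, Q a) + (J : ℝ) / (Rz + 1) := by
  have h1 := sum_le (Rz := Rz) (N := N) C (scrC (J := J) (n0 := n0) C (scrR (al := al) C hR hk)) capC ht l x y
    (g := fun F => ind (∃ a ∈ dec de l t x y F, Q a)) (fun _ => ind_nonneg _) (fun _ => ind_le_one _)
  refine h1.trans (add_le_add_left ?_ _)
  by_cases h : ∃ a ∈ dec de l t x y (scF N (tcC J n0 (ocR qa R al) (tcR qa R en al)) t x y l), Q a
  · obtain ⟨a, ha, hq⟩ := h
    rw [ind_of ⟨a, ha, hq⟩, ind_of ⟨a, dec_sub hk ht ha, hq⟩]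
  · rw [ind_not h]
    exact ind_nonneg _

end det

/-! ## (f) numbers -/

/-- number of sets of at most `m` keys -/
theorem card_bdd {κ : Type} [Fintype κ] (m : ℕ) [Fintype {s : Finset κ // s.card ≤ m}] :
    Fintype.card {s : Finset κ // s.card ≤ m} ≤ (Fintype.card κ + 1) ^ m := by
  classical
  have h1 : Function.Surjective (fun f : Fin m → Option κ =>
      (⟨univ.filter fun a => ∃ i, f i = some a, by
        have h2 : (univ.filter fun a => ∃ i, f i = some a).card ≤ (univ.image f).card := by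
          refine Finset.card_le_card_of_injOn (fun a => some a) (fun a ha => ?_) (fun a _ b _ h => Option.some_injective _ h)
          obtain ⟨i, hi⟩ := (Finset.mem_filter.1 ha).2
          exact Finset.mem_coe.2 (Finset.mem_image.2 ⟨i, Finset.mem_univ _, hi⟩)
        refine h2.trans (Finset.card_image_le.trans ?_)
        rw [Finset.card_univ, Fintype.card_fin]⟩ : {s : Finset κ // s.card ≤ m})) := by
    rintro ⟨s, hs⟩
    let e := s.equivFin
    refine ⟨fun i => if h : i.val < s.card then some (e.symm ⟨i.val, h⟩).1 else none, ?_⟩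
    refine Subtype.ext ?_
    ext a
    simp only [Finset.mem_filter, Finset.mem_univ, true_and]
    constructor
    · rintro ⟨i, hi⟩
      by_cases h : i.val < s.card
      · rw [dif_pos h] at hi
        rw [← Option.some_injective _ hi]
        exact (e.symm ⟨i.val, h⟩).2
      · rw [dif_neg h] at hi
        exact absurd hi.symm (Option.some_ne_none a)
    · intro ha
      refine ⟨⟨(e ⟨a, ha⟩).val, lt_of_lt_of_le (e ⟨a, ha⟩).2 hs⟩, ?_⟩
      rw [dif_pos (e ⟨a, ha⟩).2]
      simp
  have h2 := Fintype.card_le_of_surjective _ h1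
  rw [Fintype.card_fun, Fintype.card_fin, Fintype.card_option] at h2
  exact h2

/-- the size hypotheses -/
theorem szM_of {Rz J n0 m : ℕ} {Lam : ℝ} (hJ : 1 ≤ J) (hR : 2 * J ≤ Rz + 1) (hL : 1 ≤ Lam)
    (h1 : Real.log 2 + 3 * n0 * (Real.log (Rz + 1) + Real.log (m + 1)) ≤ Lam) (h2 : Real.log J ≤ Lam)
    (h3 : Real.log (m + 1) + (2 * n0 * (1 + Real.log J + Real.log m) + 1) ≤ Lam) : SzM Rz J n0 m Lam where
  R1 := by omega
  J1 := hJ
  Lam1 := hL
  al := by
    refine le_trans ?_ (Nz.alz_ge hR)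
    have hR0 : (0 : ℝ) < (Rz : ℝ) + 1 := by positivity
    have hm0 : (0 : ℝ) < (m : ℝ) + 1 := by positivity
    have h4 : 1 / 2 * (1 / (((Rz : ℝ) + 1) * (m + 1))) ^ (3 * n0) =
        Real.exp (-(Real.log 2 + 3 * n0 * (Real.log (Rz + 1) + Real.log (m + 1)))) := by
      rw [← Real.log_mul hR0.ne' hm0.ne', neg_add, Real.exp_add, Real.exp_neg, Real.exp_log (by norm_num)]
      congr 1
      · norm_num
      · have h5 : -(3 * (n0 : ℝ) * Real.log (((Rz : ℝ) + 1) * (m + 1))) =
            ((3 * n0 : ℕ) : ℝ) * -Real.log (((Rz : ℝ) + 1) * (m + 1)) := by push_cast; ring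
        rw [h5, Real.exp_nat_mul, Real.exp_neg, Real.exp_log (mul_pos hR0 hm0), one_div]
    rw [h4]
    exact Real.exp_le_exp.2 (neg_le_neg h1)
  JL := by
    have hJ0 : (0 : ℝ) < J := by exact_mod_cast hJ
    rw [← Real.log_le_iff_le_exp hJ0]
    exact h2
  H2 := h3

end

end Pool.Agent.GMJR.ScrD
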