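import Pool.Agent.GMN.Vis
import Pool.Agent.GM.CL

/-!
# GMJR/WD (helper97): THE WORLD OF ONE HIDDEN VERTEX (record lemma `JR_v`, `v ≥ 2`), abstract

`K` = known vertices (reference vertices), `y w : K → β`, `hx w : X` hidden point, `top w` everything else which is exact,
`gm t w` node, hidden cells `q t w = qa (2 t) (hx w)`, known cells `cl t`.  Given the top `y` and the hidden point are uniform,
the hidden point on `sp (top w)` (`law`).
* `FW W t` = (top, `y` on `W`, known cells, hidden cell), `VW W t` = (top, `y` on `W`, known cells, NODE);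
* `near_FW` : near hidden cells have bounded multiplicity;  `ce_VW` : conditional probabilities given the node are bounded by
  the conditional probabilities given the compatible hidden cells;
Labels: GMJR/WL.
-/

set_option autoImplicit false
set_option linter.unusedSectionVars false

namespace Pool.Agent.GMJR

open Finset Pool.Agent.PWZ Pool.Agent.M3 Pool.Agent.GMN

noncomputable section

/-- the world of one hidden vertex -/
structure WD (Om Tp K β X γ δ Γ : Type) [Fintype Om] [Fintype K] [DecidableEq K] [Fintype β] [Fintype X] where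
  P : FP Om
  pp : ∀ w, P.p w ≠ 0
  n : ℕ
  top : Om → Tp
  y : Om → K → β
  hx : Om → X
  /-- the node -/
  gm : ℕ → Om → Γ
  /-- hidden cells, two digits for one node -/
  qa : ℕ → X → γ
  /-- known cells -/
  cl : ℕ → β → δ
  /-- digits -/
  dg : ℕ → X → ℝ
  /-- the hidden points of a top -/
  sp : Tp → Finset X
  hx_sp : ∀ w, hx w ∈ sp (top w)
  law : ∀ w0 (y' : K → β), ∀ x ∈ sp (top w0), P.Pr (fun w => top w = top w0 ∧ y w = y' ∧ hx w = x) =
    P.Pr (fun w => top w = top w0) / ((Fintype.card β : ℝ) ^ Fintype.card K * (sp (top w0)).card)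
  gm_filt : Filt gm
  gm_fac : ∀ t, Fac (fun w => (top w, y w, hx w)) (gm t)
  ra : ∀ τ x x', qa (τ + 1) x = qa (τ + 1) x' → qa τ x = qa τ x'
  rb : ∀ t b b', cl (t + 1) b = cl (t + 1) b' → cl t b = cl t b'
  dg_val : ∀ τ x, dg τ x = 1 ∨ dg τ x = -1
  dg_cell : ∀ τ < 2 * n, ∀ x x', qa (τ + 1) x = qa (τ + 1) x' ↔ qa τ x = qa τ x' ∧ dg τ x = dg τ x'
  dg_bal : ∀ τ < 2 * n, ∀ w0, ∀ x ∈ sp (top w0), ∑ x' ∈ sp (top w0), ind (qa τ x' = qa τ x) * dg τ x' = 0
  half : ∀ t < n, (∀ b b', cl (t + 1) b' = cl (t + 1) b ↔ cl t b' = cl t b) ∨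
    ∀ b, 2 * ∑ b', ind (cl (t + 1) b' = cl (t + 1) b) = ∑ b', ind (cl t b' = cl t b)
  /-- geometric constant -/
  Kg : ℝ
  Kg1 : 1 ≤ Kg
  near : ∀ t ≤ n, ∀ w0 w9, P.Pr (fun w => top w = top w0 ∧ y w = y w0 ∧
      ∃ w1 w2, (top w1 = top w ∧ (∀ j, cl t (y w1 j) = cl t (y w j)) ∧ qa (2 * t) (hx w1) = qa (2 * t) (hx w)) ∧
        (top w2 = top w1 ∧ (∀ j, cl t (y w2 j) = cl t (y w1 j)) ∧ gm t w2 = gm t w1) ∧
        qa (2 * t) (hx w2) = qa (2 * t) (hx w9)) ≤
    Kg * P.Pr (fun w => top w = top w0 ∧ y w = y w0 ∧ qa (2 * t) (hx w) = qa (2 * t) (hx w9))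
  opt : ∀ t ≤ n, ∀ w, ∃ s : Finset γ, (s.card : ℝ) ≤ Kg ∧
    ∀ w', top w' = top w → (∀ j, cl t (y w' j) = cl t (y w j)) → gm t w' = gm t w → qa (2 * t) (hx w') ∈ s
  cmpr : ∀ t ≤ n, ∀ w0 w9, top w9 = top w0 → ∀ w1,
    P.Pr (fun w => top w = top w0 ∧ y w = y w0 ∧ qa (2 * t) (hx w) = qa (2 * t) (hx w1)) ≤
      Kg * P.Pr (fun w => top w = top w0 ∧ y w = y w0 ∧ gm t w = gm t w9)

variable {Om Tp K β X γ δ Γ : Type} [Fintype Om] [Fintype K] [DecidableEq K] [Fintype β] [Fintype X]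

namespace WD

variable (D : WD Om Tp K β X γ δ Γ)

/-- the hidden cell at the node `t` -/
def q (t : ℕ) (w : Om) : γ := D.qa (2 * t) (D.hx w)

/-- the known points of `W` -/
def yW (W : Finset K) (w : Om) : {j // j ∈ W} → β := fun j => D.y w j.1

/-- known cells -/
def cs (t : ℕ) (w : Om) : K → δ := fun j => D.cl t (D.y w j)

/-- hidden cell filtration of `W` -/
def FW (W : Finset K) (t : ℕ) (w : Om) : Tp × ({j // j ∈ W} → β) × (K → δ) × γ :=
  (D.top w, D.yW W w, D.cs t w, D.q t w)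

/-- visible filtration of `W` -/
def VW (W : Finset K) (t : ℕ) (w : Om) : Tp × ({j // j ∈ W} → β) × (K → δ) × Γ :=
  (D.top w, D.yW W w, D.cs t w, D.gm t w)

variable {D}

theorem FW_eq {W : Finset K} {t : ℕ} {v w : Om} : D.FW W t v = D.FW W t w ↔ D.top v = D.top w ∧
    (∀ j ∈ W, D.y v j = D.y w j) ∧ (∀ j, D.cl t (D.y v j) = D.cl t (D.y w j)) ∧
    D.qa (2 * t) (D.hx v) = D.qa (2 * t) (D.hx w) := by
  unfold FW
  rw [Prod.ext_iff, Prod.ext_iff, Prod.ext_iff]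
  refine and_congr Iff.rfl (and_congr ?_ (and_congr ?_ Iff.rfl))
  · constructor
    · intro h j hj
      exact congrFun h ⟨j, hj⟩
    · intro h
      funext j
      exact h j.1 j.2
  · exact funext_iff

theorem VW_eq {W : Finset K} {t : ℕ} {v w : Om} : D.VW W t v = D.VW W t w ↔ D.top v = D.top w ∧
    (∀ j ∈ W, D.y v j = D.y w j) ∧ (∀ j, D.cl t (D.y v j) = D.cl t (D.y w j)) ∧ D.gm t v = D.gm t w := by
  unfold VW
  rw [Prod.ext_iff, Prod.ext_iff, Prod.ext_iff]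
  refine and_congr Iff.rfl (and_congr ?_ (and_congr ?_ Iff.rfl))
  · constructor
    · intro h j hj
      exact congrFun h ⟨j, hj⟩
    · intro h
      funext j
      exact h j.1 j.2
  · exact funext_iff

theorem qa_le {τ σ : ℕ} (h : τ ≤ σ) {x x' : X} (hx : D.qa σ x = D.qa σ x') : D.qa τ x = D.qa τ x' := by
  induction σ, h using Nat.le_induction with
  | base => exact hx
  | succ σ _ ih => exact ih (D.ra σ x x' hx)

theorem cl_le {s t : ℕ} (h : s ≤ t) {b b' : β} (hb : D.cl t b = D.cl t b') : D.cl s b = D.cl s b' := by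
  induction t, h using Nat.le_induction with
  | base => exact hb
  | succ t _ ih => exact ih (D.rb t b b' hb)

theorem filt_FW (W : Finset K) : Filt (D.FW W) := by
  intro t v w h
  rw [FW_eq] at h ⊢
  exact ⟨h.1, h.2.1, fun j => D.rb t _ _ (h.2.2.1 j), qa_le (by omega) h.2.2.2⟩

theorem filt_VW (W : Finset K) : Filt (D.VW W) := by
  intro t v w h
  rw [VW_eq] at h ⊢
  exact ⟨h.1, h.2.1, fun j => D.rb t _ _ (h.2.2.1 j), D.gm_filt t v w h.2.2.2⟩

/-- less exact vertices -/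
theorem FW_mono {W W' : Finset K} (h : W ⊆ W') (t : ℕ) : Fac (D.FW W' t) (D.FW W t) := by
  intro v w hv
  rw [FW_eq] at hv ⊢
  exact ⟨hv.1, fun j hj => hv.2.1 j (h hj), hv.2.2⟩

theorem VW_mono {W W' : Finset K} (h : W ⊆ W') (t : ℕ) : Fac (D.VW W' t) (D.VW W t) := by
  intro v w hv
  rw [VW_eq] at hv ⊢
  exact ⟨hv.1, fun j hj => hv.2.1 j (h hj), hv.2.2⟩

/-- **near hidden cells have bounded multiplicity** -/
theorem near_FW (W : Finset K) {t : ℕ} (ht : t ≤ D.n) (u : Om) :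
    D.P.Pr (fun w => ∃ w1 w2, D.FW W t w1 = D.FW W t w ∧ D.VW W t w2 = D.VW W t w1 ∧ D.FW W t w2 = D.FW W t u) ≤
      D.Kg * D.P.Pr (fun w => D.FW W t w = D.FW W t u) := by
  classical
  refine Pr_le_fib D.P (fun w => (D.top w, D.y w)) fun w0 => ?_
  by_cases h : D.top w0 = D.top u ∧ (∀ j ∈ W, D.y w0 j = D.y u j) ∧ ∀ j, D.cl t (D.y w0 j) = D.cl t (D.y u j)
  · refine le_trans (D.P.Pr_mono fun w _ hw => ?_) ((D.near t ht w0 u).trans
      (mul_le_mul_of_nonneg_left (D.P.Pr_mono fun w _ hw => ?_) (le_trans zero_le_one D.Kg1)))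
    · obtain ⟨h1, w1, w2, h2, h3, h4⟩ := hw
      rw [Prod.ext_iff] at h1
      rw [FW_eq] at h2 h4
      rw [VW_eq] at h3
      exact ⟨h1.1, h1.2, w1, w2, ⟨h2.1, h2.2.2⟩, ⟨h3.1, h3.2.2⟩, h4.2.2.2⟩
    · obtain ⟨h1, h2, h3⟩ := hw
      refine ⟨Prod.ext h1 h2, ?_⟩
      rw [FW_eq, h1, h2]
      exact ⟨h.1, h.2.1, h.2.2, h3⟩
  · have h0 : D.P.Pr (fun w => (D.top w, D.y w) = (D.top w0, D.y w0) ∧
        ∃ w1 w2, D.FW W t w1 = D.FW W t w ∧ D.VW W t w2 = D.VW W t w1 ∧ D.FW W t w2 = D.FW W t u) ≤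
        D.P.Pr (fun _ => False) := by
      refine D.P.Pr_mono fun w _ hw => h ?_
      obtain ⟨h1, w1, w2, h2, h3, h4⟩ := hw
      rw [Prod.ext_iff] at h1
      have h1' : D.top w = D.top w0 := h1.1
      have h1'' : D.y w = D.y w0 := h1.2
      rw [FW_eq] at h2 h4
      rw [VW_eq] at h3
      rw [← h1', ← h1'']
      refine ⟨(h2.1.symm.trans h3.1.symm).trans h4.1, fun j hj => ?_, fun j => ?_⟩
      · exact ((h2.2.1 j hj).symm.trans (h3.2.1 j hj).symm).trans (h4.2.1 j hj)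
      · exact ((h2.2.2.1 j).symm.trans (h3.2.2.1 j).symm).trans (h4.2.2.1 j)
    rw [Pr_false] at h0
    exact h0.trans (mul_nonneg (le_trans zero_le_one D.Kg1) (D.P.Pr_nonneg _))

/-- compatible hidden cells are not larger than nodes -/
theorem FW_le_VW (W : Finset K) {t : ℕ} (ht : t ≤ D.n) {w w' : Om} (h : D.VW W t w' = D.VW W t w) :
    D.P.Pr (fun u => D.FW W t u = D.FW W t w') ≤ D.Kg * D.P.Pr (fun u => D.VW W t u = D.VW W t w) := by
  classical
  refine Pr_le_fib D.P (fun w => (D.top w, D.y w)) fun w0 => ?_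
  rw [VW_eq] at h
  by_cases h0 : D.top w0 = D.top w ∧ (∀ j ∈ W, D.y w0 j = D.y w j) ∧ ∀ j, D.cl t (D.y w0 j) = D.cl t (D.y w j)
  · refine le_trans (D.P.Pr_mono fun u _ hu => ?_) ((D.cmpr t ht w0 w h0.1.symm w').trans
      (mul_le_mul_of_nonneg_left (D.P.Pr_mono fun u _ hu => ?_) (le_trans zero_le_one D.Kg1)))
    · obtain ⟨h1, h2⟩ := hu
      rw [Prod.ext_iff] at h1
      rw [FW_eq] at h2
      exact ⟨h1.1, h1.2, h2.2.2.2⟩
    · obtain ⟨h1, h2, h3⟩ := hu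
      refine ⟨Prod.ext h1 h2, ?_⟩
      rw [VW_eq, h1, h2]
      exact ⟨h0.1, h0.2.1, h0.2.2, h3⟩
  · have h1 : D.P.Pr (fun u => (D.top u, D.y u) = (D.top w0, D.y w0) ∧ D.FW W t u = D.FW W t w') ≤
        D.P.Pr (fun _ => False) := by
      refine D.P.Pr_mono fun u _ hu => h0 ?_
      obtain ⟨h1, h2⟩ := hu
      rw [Prod.ext_iff] at h1
      have h1' : D.top u = D.top w0 := h1.1
      have h1'' : D.y u = D.y w0 := h1.2
      rw [FW_eq] at h2
      rw [← h1', ← h1'']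
      exact ⟨h2.1.trans h.1, fun j hj => (h2.2.1 j hj).trans (h.2.1 j hj), fun j => (h2.2.2.1 j).trans (h.2.2.1 j)⟩
    rw [Pr_false] at h1
    exact h1.trans (mul_nonneg (le_trans zero_le_one D.Kg1) (D.P.Pr_nonneg _))

/-- **conditional probabilities given the node** are bounded by those given the compatible hidden cells -/
theorem ce_VW (W : Finset K) {t : ℕ} (ht : t ≤ D.n) (E : Om → Prop) (w : Om) {c : ℝ} (hc0 : 0 ≤ c)
    (hc : ∀ w', D.VW W t w' = D.VW W t w → D.P.ce (D.FW W t) (fun u => ind (E u)) w' ≤ c) :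
    D.P.ce (D.VW W t) (fun u => ind (E u)) w ≤ D.Kg ^ 2 * c := by
  classical
  obtain ⟨s, hs1, hs2⟩ := D.opt t ht w
  have hm : 0 < D.P.m (D.VW W t) w := D.P.m_pos _ (D.pp w)
  have hK0 : 0 ≤ D.Kg := le_trans zero_le_one D.Kg1
  unfold FP.ce
  rw [div_le_iff₀ hm]
  have h1 : D.P.E (fun u => ind (D.VW W t u = D.VW W t w) * ind (E u)) ≤
      ∑ a ∈ s, D.P.Pr (fun u => D.VW W t u = D.VW W t w ∧ E u ∧ D.q t u = a) := by
    have : D.P.E (fun u => ind (D.VW W t u = D.VW W t w) * ind (E u)) =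
        D.P.Pr (fun u => D.VW W t u = D.VW W t w ∧ E u) := D.P.E_congr fun u _ => (ind_and _ _).symm
    rw [this]
    refine le_trans (D.P.Pr_mono fun u _ hu => ?_) (D.P.Pr_ex_le s fun a u => D.VW W t u = D.VW W t w ∧ E u ∧ D.q t u = a)
    have h2 := VW_eq.1 hu.1
    exact ⟨D.q t u, hs2 u h2.1 h2.2.2.1 h2.2.2.2, hu.1, hu.2, rfl⟩
  have h2 : ∀ a ∈ s, D.P.Pr (fun u => D.VW W t u = D.VW W t w ∧ E u ∧ D.q t u = a) ≤ c * (D.Kg * D.P.m (D.VW W t) w) := by
    intro a _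
    by_cases hex : ∃ w', D.VW W t w' = D.VW W t w ∧ D.q t w' = a
    · obtain ⟨w', h3, h4⟩ := hex
      have h5 := hc w' h3
      have hm' : 0 < D.P.m (D.FW W t) w' := D.P.m_pos _ (D.pp w')
      unfold FP.ce at h5
      rw [div_le_iff₀ hm'] at h5
      have h6 : D.P.Pr (fun u => D.VW W t u = D.VW W t w ∧ E u ∧ D.q t u = a) ≤
          D.P.E (fun u => ind (D.FW W t u = D.FW W t w') * ind (E u)) := by
        have : D.P.E (fun u => ind (D.FW W t u = D.FW W t w') * ind (E u)) =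
            D.P.Pr (fun u => D.FW W t u = D.FW W t w' ∧ E u) := D.P.E_congr fun u _ => (ind_and _ _).symm
        rw [this]
        refine D.P.Pr_mono fun u _ hu => ⟨?_, hu.2.1⟩
        have h7 := VW_eq.1 (hu.1.trans h3.symm)
        rw [FW_eq]
        exact ⟨h7.1, h7.2.1, h7.2.2.1, hu.2.2.trans h4.symm⟩
      have h7 := FW_le_VW (D := D) W ht h3
      have h8 : D.P.m (D.FW W t) w' ≤ D.Kg * D.P.m (D.VW W t) w := h7
      exact h6.trans (h5.trans (mul_le_mul_of_nonneg_left h8 hc0))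
    · have h3 : D.P.Pr (fun u => D.VW W t u = D.VW W t w ∧ E u ∧ D.q t u = a) ≤ D.P.Pr (fun _ => False) :=
        D.P.Pr_mono fun u _ hu => hex ⟨u, hu.1, hu.2.2⟩
      rw [Pr_false] at h3
      exact h3.trans (mul_nonneg hc0 (mul_nonneg hK0 hm.le))
  refine h1.trans ((Finset.sum_le_sum h2).trans ?_)
  rw [Finset.sum_const, nsmul_eq_mul]
  have h3 : 0 ≤ c * (D.Kg * D.P.m (D.VW W t) w) := mul_nonneg hc0 (mul_nonneg hK0 hm.le)
  calc (s.card : ℝ) * (c * (D.Kg * D.P.m (D.VW W t) w)) ≤ D.Kg * (c * (D.Kg * D.P.m (D.VW W t) w)) :=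
        mul_le_mul_of_nonneg_right hs1 h3
    _ = D.Kg ^ 2 * c * D.P.m (D.VW W t) w := by ring

end WD

end

end Pool.Agent.GMJR
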