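import Pool.Agent.GMJR.WDS0

/-!
# GMJR/WDS (helper99): the world `wdS` of the hidden vertex of a step, from the geometry `HG`

* `Pr_law` : coins in `A`, hidden point in `E`, given public randomness and the other vertices;
* `topS_iff` : same top and same reference vertices as equality of all other vertices;
* `wdS`.
-/

set_option autoImplicit false
set_option linter.unusedSectionVars false

namespace Pool.Agent.GMJR

open Finset Pool.Agent.PWZ Pool.Agent.M3 Pool.Agent.M3.TS Pool.Agent.GM Pool.Agent.GMN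

noncomputable section

variable {ι Om Ξ Pt V Γ κ : Type} [Fintype ι] [DecidableEq ι] [Fintype Om] [Fintype Ξ] [Fintype Pt]
  [Fintype V] {S : Sys ι Om Ξ Pt V Γ κ} {β : Type}

/-! ## the law -/

section law

variable {v : ι} (G : HG S v)

/-- the mass of one point -/
def c1 (w0 : Om) : ℝ := S.P.Pr (fun w => G.th w = G.th w0) /
  (Fintype.card Ξ * (Fintype.card Pt : ℝ) ^ (Fintype.card ι - 1) * (@Fintype.card G.X G.fX))

theorem c1_nonneg (w0 : Om) : 0 ≤ c1 G w0 := div_nonneg (S.P.Pr_nonneg _) (by positivity)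

/-- number of points -/
def nx (E : G.X → Prop) : ℝ := ∑ x ∈ (@Finset.univ G.X G.fX), ind (E x)

theorem nx_nonneg (E : G.X → Prop) : 0 ≤ nx G E := Finset.sum_nonneg fun _ _ => ind_nonneg _

theorem Pr_law (w0 : Om) (y : ι → Pt) (A : Ξ → Prop) (E : G.X → Prop) :
    S.P.Pr (fun w => G.th w = G.th w0 ∧ A (S.xi w) ∧ (∀ j, j ≠ v → S.x w j = y j) ∧ E (G.hx w)) =
      (∑ ξ, ind (A ξ)) * nx G E * c1 G w0 := by
  classical
  let _ := G.fX
  have h1 : ∀ w, ind (G.th w = G.th w0 ∧ A (S.xi w) ∧ (∀ j, j ≠ v → S.x w j = y j) ∧ E (G.hx w)) =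
      ∑ ξ, ∑ x, ind (A ξ) * ind (E x) *
        ind (G.th w = G.th w0 ∧ S.xi w = ξ ∧ (∀ j, j ≠ v → S.x w j = y j) ∧ G.hx w = x) := by
    intro w
    rw [Finset.sum_eq_single (S.xi w), Finset.sum_eq_single (G.hx w)]
    · by_cases hA : A (S.xi w)
      · by_cases hE : E (G.hx w)
        · rw [ind_of hA, ind_of hE, one_mul, one_mul]
          congr 1
          exact propext ⟨fun h => ⟨h.1, rfl, h.2.2.1, rfl⟩, fun h => ⟨h.1, hA, h.2.2.1, hE⟩⟩
        · have e1 : ind (G.th w = G.th w0 ∧ A (S.xi w) ∧ (∀ j, j ≠ v → S.x w j = y j) ∧ E (G.hx w)) = 0 :=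
            ind_not (fun h => hE h.2.2.2)
          rw [e1, ind_not hE, mul_zero, zero_mul]
      · have e1 : ind (G.th w = G.th w0 ∧ A (S.xi w) ∧ (∀ j, j ≠ v → S.x w j = y j) ∧ E (G.hx w)) = 0 :=
          ind_not (fun h => hA h.2.1)
        rw [e1, ind_not hA, zero_mul, zero_mul]
    · intro x _ hx
      have e1 : ind (G.th w = G.th w0 ∧ S.xi w = S.xi w ∧ (∀ j, j ≠ v → S.x w j = y j) ∧ G.hx w = x) = 0 :=
        ind_not (fun h => hx h.2.2.2.symm)
      rw [e1, mul_zero]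
    · intro h
      exact absurd (mem_univ _) h
    · intro ξ _ hξ
      refine Finset.sum_eq_zero fun x _ => ?_
      have e1 : ind (G.th w = G.th w0 ∧ S.xi w = ξ ∧ (∀ j, j ≠ v → S.x w j = y j) ∧ G.hx w = x) = 0 :=
        ind_not (fun h => hξ h.2.1.symm)
      rw [e1, mul_zero]
    · intro h
      exact absurd (mem_univ _) h
  unfold FP.Pr
  simp only [h1]
  rw [FP.E_sum]
  have h2 : ∀ ξ ∈ (univ : Finset Ξ), S.P.E (fun w => ∑ x, ind (A ξ) * ind (E x) *
      ind (G.th w = G.th w0 ∧ S.xi w = ξ ∧ (∀ j, j ≠ v → S.x w j = y j) ∧ G.hx w = x)) =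
      ind (A ξ) * (nx G E * c1 G w0) := by
    intro ξ _
    rw [FP.E_sum]
    have h3 : ∀ x ∈ (univ : Finset G.X), S.P.E (fun w => ind (A ξ) * ind (E x) *
        ind (G.th w = G.th w0 ∧ S.xi w = ξ ∧ (∀ j, j ≠ v → S.x w j = y j) ∧ G.hx w = x)) =
        ind (A ξ) * (ind (E x) * c1 G w0) := by
      intro x _
      rw [FP.E_smul, mul_assoc]
      congr 2
      exact G.law w0 ξ y x
    rw [Finset.sum_congr rfl h3, ← Finset.mul_sum, ← Finset.sum_mul]
    rfl
  rw [Finset.sum_congr rfl h2, ← Finset.sum_mul, mul_assoc]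

end law

/-! ## the world -/

section inst

variable (D : StepIn S β) (G : HG S D.v)

/-- all vertices but the client from a top and reference vertices -/
def yof (w0 : Om) (y' : KS D → Pt) : ι → Pt := fun j => if h : j ∈ D.Rf then y' ⟨j, h⟩ else S.x w0 j

theorem topS_iff (w0 w : Om) (y' : KS D → Pt) : (topS D G w = topS D G w0 ∧ yS D w = y') ↔
    (G.th w = G.th w0 ∧ D.pz (S.xi w) = D.pz (S.xi w0) ∧ ∀ j, j ≠ D.v → S.x w j = yof D w0 y' j) := by
  unfold topS
  rw [Prod.ext_iff, Prod.ext_iff]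
  constructor
  · rintro ⟨⟨h1, h2, h3⟩, h4⟩
    refine ⟨h1, h2, fun j hj => ?_⟩
    unfold yof
    split_ifs with h
    · rw [← h4]
      rfl
    · exact congrFun h3 ⟨j, h, hj⟩
  · rintro ⟨h1, h2, h3⟩
    refine ⟨⟨h1, h2, ?_⟩, ?_⟩
    · funext j
      have h5 := h3 j.1 j.2.2
      unfold yof at h5
      rw [dif_neg j.2.1] at h5
      exact h5
    · funext j
      have h5 := h3 j.1 (fun e => D.vR (e ▸ j.2))
      unfold yof at h5
      rw [dif_pos j.2] at h5
      exact h5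

/-- number of coins with the same `pz` -/
def N0 (w0 : Om) : ℝ := ∑ ξ, ind (D.pz ξ = D.pz (S.xi w0))

theorem N0_nonneg (w0 : Om) : 0 ≤ N0 D w0 := Finset.sum_nonneg fun _ _ => ind_nonneg _

/-- **hidden points in a set, given the top and the reference vertices** -/
theorem Pr_top_y (w0 : Om) (y' : KS D → Pt) (E : G.X → Prop) (Q : Om → Prop)
    (hQ : ∀ w, topS D G w = topS D G w0 → yS D w = y' → (Q w ↔ E (G.hx w))) :
    S.P.Pr (fun w => topS D G w = topS D G w0 ∧ yS D w = y' ∧ Q w) = N0 D w0 * nx G E * c1 G w0 := by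
  rw [N0, ← Pr_law G w0 (yof D w0 y') (fun ξ => D.pz ξ = D.pz (S.xi w0)) E]
  refine S.P.Pr_congr fun w _ => ?_
  constructor
  · rintro ⟨h1, h2, h3⟩
    have h4 := (topS_iff D G w0 w y').1 ⟨h1, h2⟩
    exact ⟨h4.1, h4.2.1, h4.2.2, (hQ w h1 h2).1 h3⟩
  · rintro ⟨h1, h2, h3, h4⟩
    have h5 := (topS_iff D G w0 w y').2 ⟨h1, h2, h3⟩
    exact ⟨h5.1, h5.2, (hQ w h5.1 h5.2).2 h4⟩

open Classical in
/-- values of the coin part of the hidden points of a top -/
def img (z : ℕ) : Finset (Option Ξ) := univ.filter fun a => ∃ ξ, D.pz ξ = z ∧ aS D ξ = a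

theorem spS_eq (τ : TpS D G) : spS D G τ = (@Finset.univ G.X G.fX) ×ˢ img D τ.2.1 := by
  classical
  ext x
  unfold spS img
  simp only [mem_filter, mem_univ, true_and, mem_product]

theorem spS_card (τ : TpS D G) : ((spS D G τ).card : ℝ) = (@Fintype.card G.X G.fX) * (img D τ.2.1).card := by
  rw [spS_eq, card_product]
  push_cast
  rfl

theorem sum_spS (τ : TpS D G) (f : G.X → ℝ) :
    ∑ x ∈ spS D G τ, f x.1 = (img D τ.2.1).card * ∑ x ∈ (@Finset.univ G.X G.fX), f x := by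
  rw [spS_eq, sum_product, Finset.mul_sum]
  refine Finset.sum_congr rfl fun x _ => ?_
  show ∑ _y ∈ img D τ.2.1, f x = _
  rw [Finset.sum_const, nsmul_eq_mul]

/-- fibres of the coin part -/
theorem img_card (w0 : Om) (a0 : Option Ξ) (h : a0 ∈ img D (D.pz (S.xi w0))) :
    (∑ ξ, ind (D.pz ξ = D.pz (S.xi w0) ∧ aS D ξ = a0)) * (img D (D.pz (S.xi w0))).card = N0 D w0 := by
  classical
  by_cases hF : ∀ u ∈ D.Rf, (D.Lr u).Free D.pz
  · have e1 : ∀ ξ, aS D ξ = none := fun ξ => by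
      unfold aS
      rw [if_pos hF]
    have e2 : a0 = none := by
      unfold img at h
      rw [mem_filter] at h
      obtain ⟨_, ξ, _, h2⟩ := h
      rw [← h2, e1]
    have e3 : img D (D.pz (S.xi w0)) = {none} := by
      ext a
      unfold img
      rw [mem_filter, mem_singleton]
      constructor
      · rintro ⟨_, ξ, _, h2⟩
        rw [← h2, e1]
      · intro ha
        exact ⟨mem_univ _, S.xi w0, rfl, by rw [e1, ha]⟩
    rw [e3, card_singleton]
    unfold N0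
    push_cast
    rw [mul_one]
    refine Finset.sum_congr rfl fun ξ _ => ?_
    congr 1
    exact propext ⟨fun h => h.1, fun h => ⟨h, by rw [e1, e2]⟩⟩
  · have e1 : ∀ ξ, aS D ξ = some ξ := fun ξ => by
      unfold aS
      rw [if_neg hF]
    obtain ⟨ξ0, h1, h2⟩ : ∃ ξ0, D.pz ξ0 = D.pz (S.xi w0) ∧ aS D ξ0 = a0 := by
      unfold img at h
      rw [mem_filter] at h
      exact h.2
    have e2 : ∑ ξ, ind (D.pz ξ = D.pz (S.xi w0) ∧ aS D ξ = a0) = 1 := by
      rw [Finset.sum_eq_single ξ0, ind_of ⟨h1, h2⟩]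
      · intro ξ _ hξ
        refine ind_not fun h => hξ ?_
        have h3 := h.2
        rw [← h2, e1, e1] at h3
        exact Option.some_injective _ h3
      · intro h
        exact absurd (mem_univ _) h
    have e3 : img D (D.pz (S.xi w0)) = (univ.filter fun ξ => D.pz ξ = D.pz (S.xi w0)).map
        ⟨some, Option.some_injective _⟩ := by
      ext a
      unfold img
      rw [mem_filter, mem_map]
      constructor
      · rintro ⟨_, ξ, h3, h4⟩
        exact ⟨ξ, by simpa using h3, by rw [← h4, e1]; rfl⟩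
      · rintro ⟨ξ, h3, h4⟩
        exact ⟨mem_univ _, ξ, by simpa using h3, by rw [e1, ← h4]; rfl⟩
    rw [e2, e3, card_map, one_mul]
    unfold N0
    rw [card_filter]
    push_cast
    refine Finset.sum_congr rfl fun ξ _ => ?_
    by_cases h3 : D.pz ξ = D.pz (S.xi w0)
    · rw [if_pos h3, ind_of h3]
    · rw [if_neg h3, ind_not h3]

theorem top_law (w0 : Om) (y' : KS D → Pt) (x : XS D G) (hx : x ∈ spS D G (topS D G w0)) :
    S.P.Pr (fun w => topS D G w = topS D G w0 ∧ yS D w = y' ∧ hxS D G w = x) =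
      S.P.Pr (fun w => topS D G w = topS D G w0) /
        ((Fintype.card Pt : ℝ) ^ Fintype.card (KS D) * (spS D G (topS D G w0)).card) := by
  classical
  let _ := G.fX
  have ha : x.2 ∈ img D (D.pz (S.xi w0)) := by
    rw [spS_eq, mem_product] at hx
    exact hx.2
  have h1 : S.P.Pr (fun w => topS D G w = topS D G w0 ∧ yS D w = y' ∧ hxS D G w = x) =
      (∑ ξ, ind (D.pz ξ = D.pz (S.xi w0) ∧ aS D ξ = x.2)) * nx G (fun x' => x' = x.1) * c1 G w0 := by
    rw [← Pr_law G w0 (yof D w0 y') (fun ξ => D.pz ξ = D.pz (S.xi w0) ∧ aS D ξ = x.2) (fun x' => x' = x.1)]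
    refine S.P.Pr_congr fun w _ => ?_
    have h4 := topS_iff D G w0 w y'
    have h5 : hxS D G w = x ↔ G.hx w = x.1 ∧ aS D (S.xi w) = x.2 := by
      unfold hxS
      rw [Prod.ext_iff]
    rw [h5]
    constructor
    · rintro ⟨a1, a2, a3, a4⟩
      have a5 := h4.1 ⟨a1, a2⟩
      exact ⟨a5.1, ⟨a5.2.1, a4⟩, a5.2.2, a3⟩
    · rintro ⟨a1, ⟨a2, a3⟩, a4, a5⟩
      have a6 := h4.2 ⟨a1, a2, a4⟩
      exact ⟨a6.1, a6.2, a5, a3⟩
  have h2 : nx G (fun x' => x' = x.1) = 1 := by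
    unfold nx
    rw [Finset.sum_eq_single x.1, ind_of rfl]
    · intro b _ hb
      exact ind_not hb
    · intro h
      exact absurd (mem_univ _) h
  have h3 : S.P.Pr (fun w => topS D G w = topS D G w0) =
      (Fintype.card Pt : ℝ) ^ Fintype.card (KS D) * (N0 D w0 * (Fintype.card G.X : ℝ) * c1 G w0) := by
    have e1 : ∀ w, ind (topS D G w = topS D G w0) =
        ∑ y' : KS D → Pt, ind (topS D G w = topS D G w0 ∧ yS D w = y' ∧ True) := by
      intro w
      rw [Finset.sum_eq_single (yS D w)]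
      · congr 1
        exact propext ⟨fun h => ⟨h, rfl, trivial⟩, fun h => h.1⟩
      · intro b _ hb
        exact ind_not fun h => hb h.2.1.symm
      · intro h
        exact absurd (mem_univ _) h
    have e2 : nx G (fun _ => True) = (Fintype.card G.X : ℝ) := by
      unfold nx
      simp only [ind_of trivial]
      rw [Finset.sum_const, nsmul_eq_mul, mul_one]
      rfl
    unfold FP.Pr
    simp only [e1]
    rw [FP.E_sum]
    have e3 : ∀ y' ∈ (univ : Finset (KS D → Pt)), S.P.E (fun w => ind (topS D G w = topS D G w0 ∧ yS D w = y' ∧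
        True)) = N0 D w0 * (Fintype.card G.X : ℝ) * c1 G w0 := by
      intro y' _
      rw [← e2]
      exact Pr_top_y D G w0 y' (fun _ => True) (fun _ => True) (fun _ _ _ => Iff.rfl)
    rw [Finset.sum_congr rfl e3, Finset.sum_const, nsmul_eq_mul, card_univ, Fintype.card_fun]
    push_cast
    rfl
  have h6 := img_card D w0 x.2 ha
  have hcard : ((spS D G (topS D G w0)).card : ℝ) = (Fintype.card G.X : ℝ) * (img D (D.pz (S.xi w0))).card :=
    spS_card D G (topS D G w0)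
  have hPt : (0 : ℝ) < Fintype.card Pt := by
    have : 0 < Fintype.card Pt := Fintype.card_pos_iff.2 ⟨S.x w0 D.v⟩
    exact_mod_cast this
  have hX : (0 : ℝ) < Fintype.card G.X := by
    have : 0 < Fintype.card G.X := Fintype.card_pos_iff.2 ⟨G.hx w0⟩
    exact_mod_cast this
  have hI : (0 : ℝ) < (img D (D.pz (S.xi w0))).card := by
    have : 0 < (img D (D.pz (S.xi w0))).card := card_pos.2 ⟨_, ha⟩
    exact_mod_cast this
  rw [h1, h2, h3, hcard, ← h6]
  have hP := pow_pos hPt (Fintype.card (KS D))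
  field_simp

/-! ### the fields -/

/-- all vertices from the top, the reference vertices and the hidden point -/
theorem x_eqS {w0 w : Om} (h1 : topS D G w = topS D G w0) (h2 : yS D w = yS D w0) :
    S.x w = Function.update (S.x w0) D.v (G.hv (G.hx w)) := by
  funext j
  by_cases hj : j = D.v
  · subst hj
    rw [Function.update_self, G.hv_eq]
  · rw [Function.update_of_ne hj]
    have h3 := ((topS_iff D G w0 w (yS D w0)).1 ⟨h1, h2⟩).2.2 j hj
    rw [h3]
    unfold yof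
    split_ifs with h
    · rfl
    · rfl

theorem th_top {w w' : Om} (h : topS D G w = topS D G w') : G.th w = G.th w' := congrArg (fun z => z.1) h

theorem gm_facS (t : ℕ) : Fac (fun w => (topS D G w, yS D w, hxS D G w)) (S.gm t) := by
  intro v w h
  have h1 : topS D G v = topS D G w := (Prod.ext_iff.1 h).1
  have h2 : yS D v = yS D w := (Prod.ext_iff.1 (Prod.ext_iff.1 h).2).1
  have h3 : hxS D G v = hxS D G w := (Prod.ext_iff.1 (Prod.ext_iff.1 h).2).2
  have e1 : G.th v = G.th w := th_top D G h1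
  have e2 : G.hx v = G.hx w := congrArg (fun z => z.1) h3
  have e3 : S.x v = S.x w := by
    refine (x_eqS D G h1 h2).trans ?_
    rw [e2]
    exact (x_eqS D G (w0 := w) (w := w) rfl rfl).symm
  show S.gm t v = S.gm t w
  rw [← G.gf_eq t v, ← G.gf_eq t w, e1, e2, e3]

/-- the cells of the other vertices -/
theorem cl_off {t : ℕ} {w w' : Om} (h1 : topS D G w' = topS D G w) (h2 : ∀ j, S.cl t (yS D w' j) = S.cl t (yS D w j)) :
    ∀ j, j ≠ D.v → S.cl t (S.x w' j) = S.cl t (S.x w j) := by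
  intro j hj
  by_cases hR : j ∈ D.Rf
  · exact h2 ⟨j, hR⟩
  · have h3 : (topS D G w').2.2 = (topS D G w).2.2 := by rw [h1]
    have h4 : S.x w' j = S.x w j := congrFun h3 ⟨j, hR, hj⟩
    rw [h4]

theorem nearS {t : ℕ} (ht : t ≤ S.n) (w0 w9 : Om) : S.P.Pr (fun w => topS D G w = topS D G w0 ∧ yS D w = yS D w0 ∧
      ∃ w1 w2, (topS D G w1 = topS D G w ∧ (∀ j, S.cl t (yS D w1 j) = S.cl t (yS D w j)) ∧
          G.qa (2 * t) (hxS D G w1).1 = G.qa (2 * t) (hxS D G w).1) ∧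
        (topS D G w2 = topS D G w1 ∧ (∀ j, S.cl t (yS D w2 j) = S.cl t (yS D w1 j)) ∧ S.gm t w2 = S.gm t w1) ∧
        G.qa (2 * t) (hxS D G w2).1 = G.qa (2 * t) (hxS D G w9).1) ≤
    G.Kg * S.P.Pr (fun w => topS D G w = topS D G w0 ∧ yS D w = yS D w0 ∧
      G.qa (2 * t) (hxS D G w).1 = G.qa (2 * t) (hxS D G w9).1) := by
  classical
  set E1 : G.X → Prop := fun x => ∃ w1 w2, G.th w1 = G.th w0 ∧
    (∀ j, j ≠ D.v → S.cl t (S.x w1 j) = S.cl t (S.x w0 j)) ∧ G.qa (2 * t) (G.hx w1) = G.qa (2 * t) x ∧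
    (∀ j, j ≠ D.v → S.cl t (S.x w2 j) = S.cl t (S.x w1 j)) ∧ S.gm t w2 = S.gm t w1 ∧
    G.qa (2 * t) (G.hx w2) = G.qa (2 * t) (G.hx w9) with hE1
  have h1 : S.P.Pr (fun w => topS D G w = topS D G w0 ∧ yS D w = yS D w0 ∧
      ∃ w1 w2, (topS D G w1 = topS D G w ∧ (∀ j, S.cl t (yS D w1 j) = S.cl t (yS D w j)) ∧
          G.qa (2 * t) (hxS D G w1).1 = G.qa (2 * t) (hxS D G w).1) ∧
        (topS D G w2 = topS D G w1 ∧ (∀ j, S.cl t (yS D w2 j) = S.cl t (yS D w1 j)) ∧ S.gm t w2 = S.gm t w1) ∧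
        G.qa (2 * t) (hxS D G w2).1 = G.qa (2 * t) (hxS D G w9).1) ≤
      S.P.Pr (fun w => topS D G w = topS D G w0 ∧ yS D w = yS D w0 ∧ E1 (G.hx w)) := by
    refine S.P.Pr_mono fun w _ hw => ?_
    obtain ⟨a1, a2, w1, w2, ⟨a3, a4, a5⟩, ⟨a6, a7, a8⟩, a9⟩ := hw
    refine ⟨a1, a2, w1, w2, th_top D G (a3.trans a1), ?_, a5, cl_off D G a6 a7, a8, a9⟩
    refine cl_off D G (a3.trans a1) fun j => ?_
    rw [a4 j, a2]
  rw [Pr_top_y D G w0 (yS D w0) E1 (fun w => E1 (G.hx w)) (fun _ _ _ => Iff.rfl)] at h1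
  rw [Pr_top_y D G w0 (yS D w0) (fun x => G.qa (2 * t) x = G.qa (2 * t) (G.hx w9))
    (fun w => G.qa (2 * t) (hxS D G w).1 = G.qa (2 * t) (hxS D G w9).1) (fun _ _ _ => Iff.rfl)]
  refine h1.trans ?_
  have h2 : nx G E1 ≤ G.Kg * nx G (fun x => G.qa (2 * t) x = G.qa (2 * t) (G.hx w9)) := G.near t ht w0 (G.hx w9)
  have h3 := mul_le_mul_of_nonneg_right (mul_le_mul_of_nonneg_left h2 (N0_nonneg D w0)) (c1_nonneg G w0)
  refine h3.trans (le_of_eq ?_)
  ring

theorem optS {t : ℕ} (ht : t ≤ S.n) (w : Om) : ∃ s : Finset G.γ, (s.card : ℝ) ≤ G.Kg ∧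
    ∀ w', topS D G w' = topS D G w → (∀ j, S.cl t (yS D w' j) = S.cl t (yS D w j)) → S.gm t w' = S.gm t w →
      G.qa (2 * t) (hxS D G w').1 ∈ s := by
  obtain ⟨s, h1, h2⟩ := G.opt t ht w
  exact ⟨s, h1, fun w' a1 a2 a3 => h2 w' (cl_off D G a1 a2) a3⟩

theorem cmprS {t : ℕ} (ht : t ≤ S.n) (w0 w9 : Om) (h9 : topS D G w9 = topS D G w0) (w1 : Om) :
    S.P.Pr (fun w => topS D G w = topS D G w0 ∧ yS D w = yS D w0 ∧
        G.qa (2 * t) (hxS D G w).1 = G.qa (2 * t) (hxS D G w1).1) ≤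
      G.Kg * S.P.Pr (fun w => topS D G w = topS D G w0 ∧ yS D w = yS D w0 ∧ S.gm t w = S.gm t w9) := by
  classical
  rw [Pr_top_y D G w0 (yS D w0) (fun x => G.qa (2 * t) x = G.qa (2 * t) (G.hx w1))
    (fun w => G.qa (2 * t) (hxS D G w).1 = G.qa (2 * t) (hxS D G w1).1) (fun _ _ _ => Iff.rfl)]
  rw [Pr_top_y D G w0 (yS D w0)
    (fun x => G.gf t (G.th w0) (Function.update (S.x w0) D.v (G.hv x)) x = S.gm t w9)
    (fun w => S.gm t w = S.gm t w9) (fun w a1 a2 => by
      rw [← x_eqS D G a1 a2, ← th_top D G a1, G.gf_eq])]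
  have h2 := G.cmpr t ht w0 w9 (th_top D G h9) (G.hx w1)
  have h3 := mul_le_mul_of_nonneg_right (mul_le_mul_of_nonneg_left h2 (N0_nonneg D w0)) (c1_nonneg G w0)
  refine h3.trans (le_of_eq ?_)
  unfold nx
  ring

/-- **THE WORLD of the hidden vertex of a step** -/
def wdS : WD Om (TpS D G) (KS D) Pt (XS D G) G.γ κ Γ where
  P := S.P
  pp := S.ppos
  n := S.n
  top := topS D G
  y := yS D
  hx := hxS D G
  gm := S.gm
  qa := fun τ x => G.qa τ x.1
  cl := S.cl
  dg := fun τ x => G.dg τ x.1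
  sp := spS D G
  hx_sp := fun w => by
    classical
    unfold spS
    rw [mem_filter]
    exact ⟨mem_univ _, S.xi w, rfl, rfl⟩
  law := top_law D G
  gm_filt := fun t v w h => S.gm_step t h
  gm_fac := gm_facS D G
  ra := fun τ x x' h => G.ra τ x.1 x'.1 h
  rb := S.nest
  dg_val := fun τ x => G.dg_val τ x.1
  dg_cell := fun τ hτ x x' => G.dg_cell τ hτ x.1 x'.1
  dg_bal := fun τ hτ w0 x _ => by
    rw [sum_spS D G (topS D G w0) (fun x' => ind (G.qa τ x' = G.qa τ x.1) * G.dg τ x'), G.dg_bal τ hτ x.1, mul_zero]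
  half := G.half
  Kg := G.Kg
  Kg1 := G.Kg1
  near := fun t ht w0 w9 => nearS D G ht w0 w9
  opt := fun t ht w => optS D G ht w
  cmpr := fun t ht w0 w9 h9 w1 => cmprS D G ht w0 w9 h9 w1

end inst

end

end Pool.Agent.GMJR
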