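import Pool.Agent.GMJR.WL

/-!
# GMJR/WDT (helper97): the world of one hidden vertex and the averages over the points of a top

`pt w0 x y` = a sample point of the top of `w0` with hidden point `x` and known points `y`.
* `E_fib` : mean on the fibre of a top = average over `x` and `y`;
* `ce_FW` : conditional mean given `FW W t` = average over the hidden cell, for functions of (top, `y` on `W`, cells, hidden
  point);
* `rep` : representative of a top.
-/

set_option autoImplicit false
set_option linter.unusedSectionVars false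

namespace Pool.Agent.GMJR

open Finset Pool.Agent.PWZ Pool.Agent.M3 Pool.Agent.GMN
open Pool.Agent.M3.S3 (avg)

noncomputable section

variable {Om Tp K β X γ δ Γ : Type} [Fintype Om] [Fintype K] [DecidableEq K] [Fintype β] [Fintype X]

namespace WD

variable (D : WD Om Tp K β X γ δ Γ)

/-- hidden points of the top of `w0` -/
abbrev XT (w0 : Om) : Type := {x // x ∈ D.sp (D.top w0)}

theorem top_pos (w0 : Om) : 0 < D.P.Pr (fun w => D.top w = D.top w0) := D.P.m_pos D.top (D.pp w0)

theorem exists_pt (w0 : Om) (x : D.XT w0) (y' : K → β) : ∃ w, D.top w = D.top w0 ∧ D.y w = y' ∧ D.hx w = x.1 := by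
  classical
  by_contra hne
  have h1 := D.law w0 y' x.1 x.2
  have h2 : D.P.Pr (fun w => D.top w = D.top w0 ∧ D.y w = y' ∧ D.hx w = x.1) = 0 := by
    rw [← Pr_false D.P]
    refine D.P.Pr_congr fun w _ => ⟨fun h => hne ⟨w, h⟩, fun h => h.elim⟩
  rw [h2] at h1
  have h3 : (0 : ℝ) < (Fintype.card β : ℝ) ^ Fintype.card K := by
    rcases isEmpty_or_nonempty K with hK | hK
    · have : Fintype.card K = 0 := Fintype.card_eq_zero
      rw [this]
      simp
    · obtain ⟨j⟩ := hK
      have : 0 < Fintype.card β := Fintype.card_pos_iff.2 ⟨y' j⟩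
      positivity
  have h4 : (0 : ℝ) < ((D.sp (D.top w0)).card : ℝ) := by
    have : 0 < (D.sp (D.top w0)).card := Finset.card_pos.2 ⟨x.1, x.2⟩
    exact_mod_cast this
  have h5 := D.top_pos w0
  have h6 : 0 < D.P.Pr (fun w => D.top w = D.top w0) / ((Fintype.card β : ℝ) ^ Fintype.card K * (D.sp (D.top w0)).card) := by
    positivity
  linarith

/-- a sample point of the top of `w0` -/
def pt (w0 : Om) (x : D.XT w0) (y' : K → β) : Om := (D.exists_pt w0 x y').choose

/-- function of the top, the known points and the hidden point -/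
def FD {α : Type*} (f : Om → α) : Prop := ∀ v w, D.top v = D.top w → D.y v = D.y w → D.hx v = D.hx w → f v = f w

/-- function of the top, the known points of `W`, the cells of the known points at the time `t` and the hidden point -/
def FDW {α : Type*} (W : Finset K) (t : ℕ) (f : Om → α) : Prop := ∀ v w, D.top v = D.top w → (∀ j ∈ W, D.y v j = D.y w j) →
  (∀ j, D.cl t (D.y v j) = D.cl t (D.y w j)) → D.hx v = D.hx w → f v = f w

variable {D}

theorem pt_top (w0 : Om) (x : D.XT w0) (y' : K → β) : D.top (D.pt w0 x y') = D.top w0 :=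
  (D.exists_pt w0 x y').choose_spec.1

theorem pt_y (w0 : Om) (x : D.XT w0) (y' : K → β) : D.y (D.pt w0 x y') = y' := (D.exists_pt w0 x y').choose_spec.2.1

theorem pt_hx (w0 : Om) (x : D.XT w0) (y' : K → β) : D.hx (D.pt w0 x y') = x.1 := (D.exists_pt w0 x y').choose_spec.2.2

theorem FDW.fd {α : Type*} {W : Finset K} {t : ℕ} {f : Om → α} (h : D.FDW W t f) : D.FD f := fun v w h1 h2 h3 =>
  h v w h1 (fun j _ => by rw [h2]) (fun j => by rw [h2]) h3

theorem FDW.mono {α : Type*} {W W' : Finset K} (hW : W ⊆ W') {t : ℕ} {f : Om → α} (h : D.FDW W t f) : D.FDW W' t f :=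
  fun v w h1 h2 h3 h4 => h v w h1 (fun j hj => h2 j (hW hj)) h3 h4

theorem FDW.le {α : Type*} {W : Finset K} {s t : ℕ} (hst : s ≤ t) {f : Om → α} (h : D.FDW W s f) : D.FDW W t f :=
  fun v w h1 h2 h3 h4 => h v w h1 h2 (fun j => D.cl_le hst (h3 j)) h4

theorem FD.pt {α : Type*} {f : Om → α} (h : D.FD f) (w : Om) : f (D.pt w ⟨D.hx w, D.hx_sp w⟩ (D.y w)) = f w :=
  h _ _ (pt_top _ _ _) (pt_y _ _ _) (pt_hx _ _ _)

variable (D)

/-- **mean on the fibre of a top** -/
theorem E_fib (w0 : Om) {f : Om → ℝ} (hf : D.FD f) :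
    D.P.E (fun w => ind (D.top w = D.top w0) * f w) = D.P.Pr (fun w => D.top w = D.top w0) *
      avg univ (fun x : D.XT w0 => avg univ (fun y' : K → β => f (D.pt w0 x y'))) := by
  classical
  have h1 : ∀ w, ind (D.top w = D.top w0) * f w = ∑ x : D.XT w0, ∑ y' : K → β,
      f (D.pt w0 x y') * ind (D.top w = D.top w0 ∧ D.y w = y' ∧ D.hx w = x.1) := by
    intro w
    by_cases h : D.top w = D.top w0
    · have hx : D.hx w ∈ D.sp (D.top w0) := by rw [← h]; exact D.hx_sp w
      rw [Finset.sum_eq_single (⟨D.hx w, hx⟩ : D.XT w0), Finset.sum_eq_single (D.y w)]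
      · rw [ind_of h, one_mul, ind_of ⟨h, rfl, rfl⟩, mul_one]
        exact hf w (D.pt w0 ⟨D.hx w, hx⟩ (D.y w)) (h.trans (pt_top w0 _ _).symm) (pt_y w0 _ _).symm
          (pt_hx w0 ⟨D.hx w, hx⟩ (D.y w)).symm
      · intro y' _ hne
        rw [ind_not (fun h' => hne h'.2.1.symm), mul_zero]
      · intro h'
        exact absurd (mem_univ _) h'
      · intro x _ hne
        refine Finset.sum_eq_zero fun y' _ => ?_
        rw [ind_not (fun h' => hne (Subtype.ext h'.2.2.symm)), mul_zero]
      · intro h'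
        exact absurd (mem_univ _) h'
    · rw [ind_not h, zero_mul]
      refine (Finset.sum_eq_zero fun x _ => Finset.sum_eq_zero fun y' _ => ?_).symm
      rw [ind_not (fun h' => h h'.1), mul_zero]
  have h2 : D.P.E (fun w => ind (D.top w = D.top w0) * f w) = ∑ x : D.XT w0, ∑ y' : K → β,
      f (D.pt w0 x y') * D.P.Pr (fun w => D.top w = D.top w0 ∧ D.y w = y' ∧ D.hx w = x.1) := by
    rw [D.P.E_congr fun w _ => h1 w, D.P.E_sum]
    refine Finset.sum_congr rfl fun x _ => ?_
    rw [D.P.E_sum]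
    refine Finset.sum_congr rfl fun y' _ => ?_
    rw [D.P.E_smul]
    rfl
  rw [h2]
  unfold avg
  have h4 : ((univ : Finset (D.XT w0)).card : ℝ) = (D.sp (D.top w0)).card := by
    rw [Finset.card_univ, Fintype.card_coe]
  rw [h4]
  have h3 : (Fintype.card (K → β) : ℝ) = (Fintype.card β : ℝ) ^ Fintype.card K := by
    rw [Fintype.card_fun]
    push_cast
    rfl
  rw [Finset.card_univ, h3, Finset.sum_div, Finset.mul_sum]
  refine Finset.sum_congr rfl fun x _ => ?_
  rw [Finset.sum_div, Finset.sum_div, Finset.mul_sum]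
  refine Finset.sum_congr rfl fun y' _ => ?_
  rw [D.law w0 y' x.1 x.2, div_div]
  ring

/-- probability on the fibre of a top -/
theorem Pr_fibT (w0 : Om) {A : Om → Prop} (hA : D.FD A) :
    D.P.Pr (fun w => D.top w = D.top w0 ∧ A w) = D.P.Pr (fun w => D.top w = D.top w0) *
      avg univ (fun x : D.XT w0 => avg univ (fun y' : K → β => ind (A (D.pt w0 x y')))) := by
  have h1 : D.FD (fun w => ind (A w)) := fun v w a b c => congrArg ind (hA v w a b c)
  rw [← D.E_fib w0 h1]
  unfold FP.Pr
  exact D.P.E_congr fun w _ => ind_and _ _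

open Classical in
/-- the hidden cell among the points of the top -/
def cX (w0 : Om) (t : ℕ) (x : D.XT w0) : Finset (D.XT w0) := univ.filter fun x' => D.qa (2 * t) x'.1 = D.qa (2 * t) x.1

variable {D}

theorem mem_cX {w0 : Om} {t : ℕ} {x x' : D.XT w0} : x' ∈ D.cX w0 t x ↔ D.qa (2 * t) x'.1 = D.qa (2 * t) x.1 := by
  classical
  unfold cX
  rw [mem_filter]
  exact ⟨fun h => h.2, fun h => ⟨mem_univ _, h⟩⟩

/-- **conditional mean given the hidden cell** -/
theorem ce_FW {W : Finset K} {t : ℕ} {f : Om → ℝ} (hf : D.FDW W t f) (w : Om) :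
    D.P.ce (D.FW W t) f w = avg (D.cX w t ⟨D.hx w, D.hx_sp w⟩) (fun x' => f (D.pt w x' (D.y w))) := by
  classical
  set x0 : D.XT w := ⟨D.hx w, D.hx_sp w⟩ with hx0
  -- the part of `y`
  set A : (K → β) → Prop := fun y' => (∀ j ∈ W, y' j = D.y w j) ∧ ∀ j, D.cl t (y' j) = D.cl t (D.y w j) with hA
  set a : ℝ := avg univ (fun y' : K → β => ind (A y')) with ha
  have key : ∀ g : Om → ℝ, D.FDW W t g → D.P.E (fun v => ind (D.FW W t v = D.FW W t w) * g v) =
      D.P.Pr (fun v => D.top v = D.top w) * (a * ((∑ x' ∈ D.cX w t x0, g (D.pt w x' (D.y w))) / Fintype.card (D.XT w))) := by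
    intro g hg
    have h1 : D.P.E (fun v => ind (D.FW W t v = D.FW W t w) * g v) = D.P.E (fun v => ind (D.top v = D.top w) *
        (ind (A (D.y v)) * (ind (D.qa (2 * t) (D.hx v) = D.qa (2 * t) (D.hx w)) * g v))) := by
      refine D.P.E_congr fun v _ => ?_
      have e : ind (D.FW W t v = D.FW W t w) = ind (D.top v = D.top w) * (ind (A (D.y v)) *
          ind (D.qa (2 * t) (D.hx v) = D.qa (2 * t) (D.hx w))) := by
        rw [← ind_and, ← ind_and]
        congr 1
        apply propext
        rw [FW_eq, hA]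
        exact ⟨fun h => ⟨h.1, ⟨h.2.1, h.2.2.1⟩, h.2.2.2⟩, fun h => ⟨h.1, h.2.1.1, h.2.1.2, h.2.2⟩⟩
      rw [e]
      ring
    have hfd : D.FD (fun v => ind (A (D.y v)) * (ind (D.qa (2 * t) (D.hx v) = D.qa (2 * t) (D.hx w)) * g v)) := by
      intro v u h1 h2 h3
      show ind (A (D.y v)) * (ind (D.qa (2 * t) (D.hx v) = D.qa (2 * t) (D.hx w)) * g v) =
        ind (A (D.y u)) * (ind (D.qa (2 * t) (D.hx u) = D.qa (2 * t) (D.hx w)) * g u)
      rw [h2, h3, hg.fd v u h1 h2 h3]
    rw [h1, D.E_fib w hfd]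
    congr 1
    have h2 : ∀ x' : D.XT w, avg univ (fun y' : K → β => ind (A (D.y (D.pt w x' y'))) *
        (ind (D.qa (2 * t) (D.hx (D.pt w x' y')) = D.qa (2 * t) (D.hx w)) * g (D.pt w x' y'))) =
        a * (ind (D.qa (2 * t) x'.1 = D.qa (2 * t) (D.hx w)) * g (D.pt w x' (D.y w))) := by
      intro x'
      rw [ha]
      unfold avg
      rw [div_mul_eq_mul_div, Finset.sum_mul]
      congr 1
      refine Finset.sum_congr rfl fun y' _ => ?_
      show ind (A (D.y (D.pt w x' y'))) * (ind (D.qa (2 * t) (D.hx (D.pt w x' y')) = D.qa (2 * t) (D.hx w)) *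
        g (D.pt w x' y')) = _
      rw [pt_y, pt_hx]
      by_cases hy : A y'
      · rw [ind_of hy, one_mul, one_mul]
        congr 1
        refine hg _ _ ((pt_top _ _ _).trans (pt_top _ _ _).symm) (fun j hj => ?_) (fun j => ?_)
          ((pt_hx _ _ _).trans (pt_hx _ _ _).symm)
        · rw [pt_y, pt_y]
          exact hy.1 j hj
        · rw [pt_y, pt_y]
          exact hy.2 j
      · rw [ind_not hy, zero_mul, zero_mul]
    rw [show (fun x : D.XT w => avg univ (fun y' : K → β => ind (A (D.y (D.pt w x y'))) *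
        (ind (D.qa (2 * t) (D.hx (D.pt w x y')) = D.qa (2 * t) (D.hx w)) * g (D.pt w x y')))) =
        fun x' => a * (ind (D.qa (2 * t) x'.1 = D.qa (2 * t) (D.hx w)) * g (D.pt w x' (D.y w))) from funext h2]
    have h3 : ∑ x' : D.XT w, a * (ind (D.qa (2 * t) x'.1 = D.qa (2 * t) (D.hx w)) * g (D.pt w x' (D.y w))) =
        a * ∑ x' ∈ D.cX w t x0, g (D.pt w x' (D.y w)) := by
      rw [← Finset.mul_sum]
      congr 1
      unfold cX
      rw [Finset.sum_filter]
      refine Finset.sum_congr rfl fun x' _ => ?_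
      by_cases h : D.qa (2 * t) x'.1 = D.qa (2 * t) (D.hx w)
      · rw [ind_of h, one_mul, if_pos h]
      · rw [ind_not h, zero_mul, if_neg h]
    show (∑ x' : D.XT w, a * (ind (D.qa (2 * t) x'.1 = D.qa (2 * t) (D.hx w)) * g (D.pt w x' (D.y w)))) /
      ((univ : Finset (D.XT w)).card : ℝ) = _
    rw [h3, Finset.card_univ, mul_div_assoc]
  have hm := key (fun _ => 1) (fun _ _ _ _ _ _ => rfl)
  have hm' : D.P.m (D.FW W t) w = D.P.E (fun v => ind (D.FW W t v = D.FW W t w) * 1) := D.P.E_congr fun v _ => (mul_one _).symm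
  have hpos : 0 < D.P.m (D.FW W t) w := D.P.m_pos _ (D.pp w)
  unfold FP.ce
  rw [key f hf, hm', hm]
  rw [hm', hm] at hpos
  have hc : (∑ x' ∈ D.cX w t x0, (1 : ℝ)) = ((D.cX w t x0).card : ℝ) := by
    rw [Finset.sum_const, nsmul_eq_mul, mul_one]
  rw [hc] at hpos ⊢
  have h1 : D.P.Pr (fun v => D.top v = D.top w) ≠ 0 := fun h => by rw [h, zero_mul] at hpos; exact lt_irrefl _ hpos
  have h2 : a ≠ 0 := fun h => by rw [h, zero_mul, mul_zero] at hpos; exact lt_irrefl _ hpos
  have h3 : (Fintype.card (D.XT w) : ℝ) ≠ 0 := fun h => by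
    rw [h, div_zero, mul_zero, mul_zero] at hpos; exact lt_irrefl _ hpos
  unfold avg
  rw [mul_div_mul_left _ _ h1, mul_div_mul_left _ _ h2, div_div_div_cancel_right₀ h3]

/-- **AGREEMENT** : functions of (top, `y` on `W`, cells, hidden point) do not see the other known points -/
theorem agree {W W' : Finset K} (hW : W ⊆ W') {t : ℕ} {f : Om → ℝ} (hf : D.FDW W t f) (w : Om) :
    D.P.ce (D.FW W' t) f w = D.P.ce (D.FW W t) f w := by
  rw [ce_FW (hf.mono hW), ce_FW hf]

/-! ### representatives of the tops -/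

variable (D)

theorem exists_rep (w : Om) : ∃ w', D.top w' = D.top w := ⟨w, rfl⟩

/-- the representative of the top of `w` -/
def rep (w : Om) : Om := (D.exists_rep w).choose

variable {D}

theorem top_rep (w : Om) : D.top (D.rep w) = D.top w := (D.exists_rep w).choose_spec

theorem rep_eq {v w : Om} (h : D.top v = D.top w) : D.rep v = D.rep w := by
  unfold rep
  congr 1
  funext w'
  rw [h]

/-- the hidden point among the points of the representative -/
def hr (w : Om) : D.XT (D.rep w) := ⟨D.hx w, by rw [top_rep]; exact D.hx_sp w⟩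

end WD

end

end Pool.Agent.GMJR
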